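import Mathlib
import Pool.Agent.Lib.MP_ec5f85_co.Konig

set_option autoImplicit false
set_option linter.unusedSimpArgs false
set_option linter.unusedVariables false

namespace Pool.Agent.Lib.MP_351560_co

open Finset

/-- Edge colouring of bipartite multigraphs of maximum degree at most `k`. -/
lemma konig_le {ι X Y : Type} [Fintype ι] [DecidableEq X] [DecidableEq Y] (P : ι → X) (Q : ι → Y)
    (k : ℕ) (hP : ∀ x, (univ.filter fun e => P e = x).card ≤ k)
    (hQ : ∀ y, (univ.filter fun e => Q e = y).card ≤ k) :
    ∃ c : ι → Fin k, ∀ e e', (P e = P e' ∨ Q e = Q e') → c e = c e' → e = e' := by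
  classical
  let dP : X → ℕ := fun x => (univ.filter fun e => P e = x).card
  let dQ : Y → ℕ := fun y => (univ.filter fun e => Q e = y).card
  let A := Σ x : {x // x ∈ univ.image P}, Fin (k - dP x.1)
  let B := Σ y : {y // y ∈ univ.image Q}, Fin (k - dQ y.1)
  let P' : (ι ⊕ ι) ⊕ (A ⊕ B) → X ⊕ Y := fun e =>
    match e with
    | .inl (.inl e) => .inl (P e)
    | .inl (.inr e) => .inr (Q e)
    | .inr (.inl a) => .inl a.1.1
    | .inr (.inr b) => .inr b.1.1
  let Q' : (ι ⊕ ι) ⊕ (A ⊕ B) → X ⊕ Y := fun e =>
    match e with
    | .inl (.inl e) => .inr (Q e)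
    | .inl (.inr e) => .inl (P e)
    | .inr (.inl a) => .inl a.1.1
    | .inr (.inr b) => .inr b.1.1
  have hA : ∀ x, x ∈ univ.image P → (univ.filter fun a : A => a.1.1 = x).card = k - dP x := by
    intro x hx
    have : (univ.filter fun a : A => a.1.1 = x) =
        (univ : Finset (Fin (k - dP x))).map
          (Function.Embedding.sigmaMk (β := fun x : {x // x ∈ univ.image P} => Fin (k - dP x.1))
            ⟨x, hx⟩) := by
      ext ⟨⟨x', hx'⟩, j⟩
      simp only [mem_filter, mem_univ, true_and, mem_map, Function.Embedding.sigmaMk_apply]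
      constructor
      · rintro rfl
        exact ⟨j, rfl⟩
      · rintro ⟨j', h⟩
        exact (congrArg (fun a : A => a.1.1) h).symm
    rw [this, card_map, card_univ, Fintype.card_fin]
  have hB : ∀ y, y ∈ univ.image Q → (univ.filter fun a : B => a.1.1 = y).card = k - dQ y := by
    intro x hx
    have : (univ.filter fun a : B => a.1.1 = x) =
        (univ : Finset (Fin (k - dQ x))).map
          (Function.Embedding.sigmaMk (β := fun x : {x // x ∈ univ.image Q} => Fin (k - dQ x.1))
            ⟨x, hx⟩) := by
      ext ⟨⟨x', hx'⟩, j⟩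
      simp only [mem_filter, mem_univ, true_and, mem_map, Function.Embedding.sigmaMk_apply]
      constructor
      · rintro rfl
        exact ⟨j, rfl⟩
      · rintro ⟨j', h⟩
        exact (congrArg (fun a : B => a.1.1) h).symm
    rw [this, card_map, card_univ, Fintype.card_fin]
  have key : ∀ (R : (ι ⊕ ι) ⊕ (A ⊕ B) → X ⊕ Y) (z : X ⊕ Y),
      (univ.filter fun e => R e = z).card =
        (univ.filter fun e => R (.inl (.inl e)) = z).card +
        (univ.filter fun e => R (.inl (.inr e)) = z).card +
        ((univ.filter fun e => R (.inr (.inl e)) = z).card +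
        (univ.filter fun e => R (.inr (.inr e)) = z).card) := by
    intro R z
    simp only [card_filter, Fintype.sum_sum_type]
  have hx : ∀ x, x ∈ univ.image P → (univ.filter fun e => P' e = .inl x).card = k ∧
      (univ.filter fun e => Q' e = .inl x).card = k := by
    intro x hx
    have h1 := hA x hx
    have h2 := hP x
    rw [key, key]
    simp only [P', Q', Sum.inl.injEq, reduceCtorEq, filter_false, card_empty, h1, dP]
    omega
  have hy : ∀ y, y ∈ univ.image Q → (univ.filter fun e => P' e = .inr y).card = k ∧
      (univ.filter fun e => Q' e = .inr y).card = k := by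
    intro x hx
    have h1 := hB x hx
    have h2 := hQ x
    rw [key, key]
    simp only [P', Q', Sum.inr.injEq, reduceCtorEq, filter_false, card_empty, h1, dQ]
    omega
  obtain ⟨c, hc⟩ := MP_ec5f85_co.konig P' Q' k
    (by
      rintro ((e | e) | (a | a)) _
      · exact (hx _ (mem_image_of_mem _ (mem_univ e))).1
      · exact (hy _ (mem_image_of_mem _ (mem_univ e))).1
      · exact (hx _ a.1.2).1
      · exact (hy _ a.1.2).1)
    (by
      rintro ((e | e) | (a | a)) _
      · exact (hy _ (mem_image_of_mem _ (mem_univ e))).2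
      · exact (hx _ (mem_image_of_mem _ (mem_univ e))).2
      · exact (hx _ a.1.2).2
      · exact (hy _ a.1.2).2)
  refine ⟨fun e => c (.inl (.inl e)), fun e e' h h' => ?_⟩
  have := hc (.inl (.inl e)) (.inl (.inl e')) (by
    rcases h with h | h
    · left; simp [P', h]
    · right; simp [Q', h]) h'
  simpa using this

/-- Greedy scheduling under capacities. -/
lemma greedy {I T ρ : Type} [DecidableEq I] [Fintype T] [DecidableEq T] [DecidableEq ρ]
    [Nonempty T] (S : Finset I) (res : I → Finset ρ) (cap : ρ → ℕ) (F : I → Finset T)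
    (hcap : ∀ e ∈ S, ∀ r ∈ res e, 0 < cap r)
    (h : ∀ e ∈ S, (F e).card + ∑ r ∈ res e, (S.filter fun e' => r ∈ res e').card / cap r <
      Fintype.card T) :
    ∃ τ : I → T, (∀ e ∈ S, τ e ∉ F e) ∧
      ∀ r i, (S.filter fun e => r ∈ res e ∧ τ e = i).card ≤ cap r := by
  have main : ∀ S' : Finset I, S' ⊆ S → ∃ τ : I → T, (∀ e ∈ S', τ e ∉ F e) ∧
      ∀ r i, (S'.filter fun e => r ∈ res e ∧ τ e = i).card ≤ cap r := by
    intro S'
    induction S' using Finset.induction_on with
    | empty => exact fun _ => ⟨fun _ => Classical.arbitrary T, by simp, by simp⟩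
    | insert e S' he ih =>
      intro hs
      obtain ⟨τ, h1, h2⟩ := ih ((subset_insert _ _).trans hs)
      have heS : e ∈ S := hs (mem_insert_self _ _)
      let full : ρ → Finset T := fun r =>
        univ.filter fun i => cap r ≤ (S'.filter fun e' => r ∈ res e' ∧ τ e' = i).card
      have hfull : ∀ r ∈ res e, (full r).card ≤ (S.filter fun e' => r ∈ res e').card / cap r := by
        intro r hr
        rw [Nat.le_div_iff_mul_le (hcap e heS r hr)]
        calc (full r).card * cap r = ∑ i ∈ full r, cap r := by simp
          _ ≤ ∑ i ∈ full r, (S'.filter fun e' => r ∈ res e' ∧ τ e' = i).card :=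
            sum_le_sum fun i hi => (mem_filter.1 hi).2
          _ ≤ ∑ i, (S'.filter fun e' => r ∈ res e' ∧ τ e' = i).card :=
            sum_le_sum_of_subset (subset_univ _)
          _ = (S'.filter fun e' => r ∈ res e').card := by
            rw [card_eq_sum_card_fiberwise (f := τ) (t := univ) (fun _ _ => by simp)]
            simp only [filter_filter]
          _ ≤ _ := card_le_card (filter_subset_filter _ ((subset_insert _ _).trans hs))
      have hlt : (F e ∪ (res e).biUnion full).card < (univ : Finset T).card := by
        calc (F e ∪ (res e).biUnion full).card ≤ (F e).card + ((res e).biUnion full).card :=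
            card_union_le _ _
          _ ≤ (F e).card + ∑ r ∈ res e, (full r).card := Nat.add_le_add_left card_biUnion_le _
          _ ≤ (F e).card + ∑ r ∈ res e, (S.filter fun e' => r ∈ res e').card / cap r :=
            Nat.add_le_add_left (sum_le_sum hfull) _
          _ < _ := h e heS
      obtain ⟨i0, _, hi0⟩ := exists_mem_notMem_of_card_lt_card hlt
      rw [mem_union, not_or, mem_biUnion] at hi0
      refine ⟨Function.update τ e i0, ?_, ?_⟩
      · intro e' he'
        rcases mem_insert.1 he' with rfl | he'
        · simpa using hi0.1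
        · have : e' ≠ e := fun h => he (h ▸ he')
          rw [Function.update_of_ne this]
          exact h1 e' he'
      · intro r i
        have heq : (S'.filter fun e' => r ∈ res e' ∧ Function.update τ e i0 e' = i) =
            S'.filter fun e' => r ∈ res e' ∧ τ e' = i := by
          refine filter_congr fun e' he' => ?_
          have : e' ≠ e := fun h => he (h ▸ he')
          rw [Function.update_of_ne this]
        rw [filter_insert, heq]
        split_ifs with hc
        · rw [card_insert_of_notMem (fun h => he (mem_filter.1 h).1)]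
          have hi : i0 = i := by simpa using hc.2
          have : ¬ cap r ≤ (S'.filter fun e' => r ∈ res e' ∧ τ e' = i).card := fun hle =>
            hi0.2 ⟨r, hc.1, mem_filter.2 ⟨mem_univ _, hi ▸ hle⟩⟩
          omega
        · exact h2 r i
  exact main S subset_rfl

/-- Fibrewise equivalence. -/
lemma fib_equiv {α β Λ : Type} [Fintype α] [Fintype β] [DecidableEq Λ] (p : α → Λ) (q : β → Λ)
    (h : ∀ l, (univ.filter fun a => p a = l).card = (univ.filter fun b => q b = l).card) :
    ∃ e : α ≃ β, ∀ a, q (e a) = p a := by
  have : ∀ l, Nonempty ({a // p a = l} ≃ {b // q b = l}) := fun l =>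
    ⟨Fintype.equivOfCardEq (by rw [Fintype.card_subtype, Fintype.card_subtype, h])⟩
  exact ⟨Equiv.ofFiberEquiv fun l => (this l).some, fun a => Equiv.ofFiberEquiv_map _ a⟩

/-- Labelled extension of a partial bijection. -/
lemma lab_extend {γ α β Λ : Type} [Fintype γ] [Fintype α] [Fintype β] [DecidableEq Λ]
    (f : γ → α) (g : γ → β) (hf : Function.Injective f) (hg : Function.Injective g)
    (p : α → Λ) (q : β → Λ) (hfg : ∀ c, q (g c) = p (f c))
    (h : ∀ l, (univ.filter fun a => p a = l).card = (univ.filter fun b => q b = l).card) :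
    ∃ e : α ≃ β, (∀ c, e (f c) = g c) ∧ ∀ a, q (e a) = p a := by
  classical
  let p' : α → γ ⊕ Λ := fun a => if h : ∃ c, f c = a then .inl h.choose else .inr (p a)
  let q' : β → γ ⊕ Λ := fun a => if h : ∃ c, g c = a then .inl h.choose else .inr (q a)
  have hp1 : ∀ c, p' (f c) = .inl c := fun c => by
    have hh : ∃ c', f c' = f c := ⟨c, rfl⟩
    simp only [p', dif_pos hh]
    rw [hf hh.choose_spec]
  have hq1 : ∀ c, q' (g c) = .inl c := fun c => by
    have hh : ∃ c', g c' = g c := ⟨c, rfl⟩
    simp only [q', dif_pos hh]
    rw [hg hh.choose_spec]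
  have hp2 : ∀ a c, p' a = .inl c ↔ a = f c := fun a c => by
    constructor
    · intro h
      by_cases hh : ∃ c, f c = a
      · obtain ⟨c', rfl⟩ := hh
        rw [hp1] at h
        rw [Sum.inl.inj h]
      · simp [p', dif_neg hh] at h
    · rintro rfl; exact hp1 c
  have hq2 : ∀ a c, q' a = .inl c ↔ a = g c := fun a c => by
    constructor
    · intro h
      by_cases hh : ∃ c, g c = a
      · obtain ⟨c', rfl⟩ := hh
        rw [hq1] at h
        rw [Sum.inl.inj h]
      · simp [q', dif_neg hh] at h
    · rintro rfl; exact hq1 c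
  have hp3 : ∀ a l, p' a = .inr l ↔ (p a = l ∧ a ∉ univ.image f) := fun a l => by
    by_cases hh : ∃ c, f c = a
    · simp [p', hh]
    · simp only [p', dif_neg hh, Sum.inr.injEq, mem_image, mem_univ, true_and, hh,
        not_false_eq_true, and_true]
  have hq3 : ∀ a l, q' a = .inr l ↔ (q a = l ∧ a ∉ univ.image g) := fun a l => by
    by_cases hh : ∃ c, g c = a
    · simp [q', hh]
    · simp only [q', dif_neg hh, Sum.inr.injEq, mem_image, mem_univ, true_and, hh,
        not_false_eq_true, and_true]
  obtain ⟨e, he⟩ := fib_equiv p' q' (by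
    rintro (c | l)
    · simp only [hp2, hq2]
      rw [card_eq_one.2 ⟨f c, by ext; simp⟩, card_eq_one.2 ⟨g c, by ext; simp⟩]
    · simp only [hp3, hq3]
      have e1 : (univ.filter fun a => p a = l ∧ a ∉ univ.image f) =
          (univ.filter fun a => p a = l) \ (univ.filter fun c => p (f c) = l).image f := by
        ext a
        simp only [mem_filter, mem_univ, true_and, mem_image, mem_sdiff]
        constructor
        · rintro ⟨h1, h2⟩
          exact ⟨h1, fun ⟨c, _, hc⟩ => h2 ⟨c, hc⟩⟩
        · rintro ⟨h1, h2⟩
          exact ⟨h1, fun ⟨c, hc⟩ => h2 ⟨c, hc ▸ h1, hc⟩⟩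
      have e2 : (univ.filter fun a => q a = l ∧ a ∉ univ.image g) =
          (univ.filter fun a => q a = l) \ (univ.filter fun c => p (f c) = l).image g := by
        ext a
        simp only [mem_filter, mem_univ, true_and, mem_image, mem_sdiff]
        constructor
        · rintro ⟨h1, h2⟩
          exact ⟨h1, fun ⟨c, _, hc⟩ => h2 ⟨c, hc⟩⟩
        · rintro ⟨h1, h2⟩
          exact ⟨h1, fun ⟨c, hc⟩ => h2 ⟨c, by rw [← hfg, hc, h1], hc⟩⟩
      rw [e1, e2, card_sdiff_of_subset, card_sdiff_of_subset, card_image_of_injective _ hf,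
        card_image_of_injective _ hg, h]
      · intro b hb
        obtain ⟨c, hc, rfl⟩ := mem_image.1 hb
        simp only [mem_filter, mem_univ, true_and] at hc ⊢
        rw [hfg, hc]
      · intro b hb
        obtain ⟨c, hc, rfl⟩ := mem_image.1 hb
        simpa using hc)
  refine ⟨e, fun c => (hq2 _ c).1 (by rw [he, hp1]), fun a => ?_⟩
  by_cases hh : ∃ c, f c = a
  · obtain ⟨c, rfl⟩ := hh
    rw [(hq2 (e (f c)) c).1 (by rw [he, hp1]), hfg]
  · have : p' a = .inr (p a) := by simp only [p', dif_neg hh]
    rw [← he, hq3] at this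
    exact this.1

lemma card_sigma_fib {T : Type} [Fintype T] [DecidableEq T] (N : T → ℕ) (i : T) :
    (univ.filter fun a : Σ i, Fin (N i) => a.1 = i).card = N i := by
  have : (univ.filter fun a : Σ i, Fin (N i) => a.1 = i) =
      (univ : Finset (Fin (N i))).map (Function.Embedding.sigmaMk (β := fun i => Fin (N i)) i) := by
    ext ⟨i', j⟩
    simp only [mem_filter, mem_univ, true_and, mem_map, Function.Embedding.sigmaMk_apply]
    constructor
    · rintro rfl
      exact ⟨j, rfl⟩
    · rintro ⟨j', h⟩
      exact (congrArg Sigma.fst h).symm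
  rw [this, card_map, card_univ, Fintype.card_fin]

/-- A function with prescribed fibre sizes, extending a prescribed injective pattern. -/
lemma exists_fib {α T : Type} [Fintype α] [Fintype T] [DecidableEq T] (N : T → ℕ)
    (h : Fintype.card α = ∑ i, N i) :
    ∃ f : α → T, ∀ i, (univ.filter fun a => f a = i).card = N i := by
  classical
  let e : α ≃ Σ i, Fin (N i) := Fintype.equivOfCardEq (by simp [h])
  refine ⟨fun a => (e a).1, fun i => ?_⟩
  rw [← card_sigma_fib N i]
  exact card_bijective e e.bijective (by simp)

end Pool.Agent.Lib.MP_351560_co
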