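import Mathlib

set_option autoImplicit false

namespace Pool.Agent.Lib.MP_351560_co

/-- `G` has an isomorphic factorisation into `t` factors: `t` spanning subgraphs, pairwise
isomorphic, such that every edge of `G` lies in exactly one of them. -/
def Divisible {V : Type} (G : SimpleGraph V) (t : ℕ) : Prop :=
  ∃ H : Fin t → SimpleGraph V, (∀ i, H i ≤ G) ∧ (∀ u v, G.Adj u v → ∃! i, (H i).Adj u v) ∧
    ∀ i j, Nonempty (H i ≃g H j)

/-- The complete tripartite graph with parts of sizes `m`, `n`, `s`. -/
def K (m n s : ℕ) : SimpleGraph (Σ i : Fin 3, Fin (![m, n, s] i)) :=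
  SimpleGraph.completeMultipartiteGraph fun i : Fin 3 => Fin (![m, n, s] i)

end Pool.Agent.Lib.MP_351560_co
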