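import Mathlib
import Pool.Agent.Lib.MP_351560_co.Defs
import Pool.Agent.Lib.MP_351560_co.Base

set_option autoImplicit false
set_option linter.unusedSimpArgs false
set_option linter.unusedVariables false

namespace Pool.Agent.Lib.MP_351560_co

open Finset

/-- Labelled factorisation of the complete multipartite graph given by `p`. -/
def LF {V Λ : Type} (p : V → Fin 3) (t : ℕ) (lab : Fin t → V → Λ) : Prop :=
  ∃ F : Fin t → V → V → Prop, (∀ i u v, F i u v → F i v u) ∧ (∀ i u v, F i u v → p u ≠ p v) ∧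
    (∀ u v, p u ≠ p v → ∃! i, F i u v) ∧
    ∀ i j, ∃ φ : V ≃ V, (∀ u v, F i u v ↔ F j (φ u) (φ v)) ∧ ∀ v, lab j (φ v) = lab i v

/-- Some complete tripartite graph with part sizes `sz` is divisible by `t`. -/
def Good (t : ℕ) (sz : Fin 3 → ℕ) : Prop :=
  ∃ (V : Type) (_ : Fintype V) (p : V → Fin 3),
    (∀ P, (univ.filter fun v => p v = P).card = sz P) ∧ LF p t (fun _ _ => ())

lemma Good.perm {t : ℕ} {sz : Fin 3 → ℕ} (h : Good t sz) (π : Fin 3 ≃ Fin 3) :
    Good t (fun P => sz (π P)) := by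
  obtain ⟨V, _, p, h1, F, h2, h3, h4, h5⟩ := h
  refine ⟨V, inferInstance, fun v => π.symm (p v), fun P => ?_, F, h2, fun i u v h h' =>
    h3 i u v h (π.symm.injective h'), fun u v h => h4 u v fun h' => h (congrArg π.symm h'), h5⟩
  beta_reduce
  rw [← h1]
  congr 1
  ext v
  simp [Equiv.symm_apply_eq]

lemma Good.divisible {t m n s : ℕ} (h : Good t ![m, n, s]) : Divisible (K m n s) t := by
  obtain ⟨V, _, p, h1, F, h2, h3, h4, h5⟩ := h
  obtain ⟨e, he⟩ := fib_equiv (fun a : Σ i : Fin 3, Fin (![m, n, s] i) => a.1) p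
    (fun l => by rw [card_sigma_fib, h1])
  have hadj : ∀ u v, (K m n s).Adj u v ↔ p (e u) ≠ p (e v) := by
    intro u v
    rw [he, he]
    rfl
  let H : Fin t → SimpleGraph (Σ i : Fin 3, Fin (![m, n, s] i)) := fun i =>
    { Adj := fun u v => F i (e u) (e v)
      symm := ⟨fun u v h => h2 i _ _ h⟩
      loopless := ⟨fun u h => h3 i _ _ h rfl⟩ }
  refine ⟨H, fun i u v h => (hadj u v).2 (h3 i _ _ h), fun u v h => h4 _ _ ((hadj u v).1 h),
    fun i j => ?_⟩
  obtain ⟨φ, hφ, -⟩ := h5 i j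
  refine ⟨⟨e.trans (φ.trans e.symm), fun {a b} => ?_⟩⟩
  simp only [H, Equiv.trans_apply, Equiv.apply_symm_apply]
  exact (hφ _ _).symm

lemma LF.good {V Λ : Type} [Fintype V] {p : V → Fin 3} {t : ℕ} {lab : Fin t → V → Λ}
    (h : LF p t lab) : Good t fun P => (univ.filter fun v => p v = P).card := by
  obtain ⟨F, h2, h3, h4, h5⟩ := h
  exact ⟨V, inferInstance, p, fun _ => rfl, F, h2, h3, h4, fun i j => by
    obtain ⟨φ, h, -⟩ := h5 i j
    exact ⟨φ, h, fun _ => rfl⟩⟩

/-- Extension by cycles of `t` new vertices. -/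
lemma LF.extend {V Λ : Type} [Fintype V] {p : V → Fin 3} {t : ℕ} [NeZero t]
    {lab : Fin t → V → Λ} (h : LF p t lab) (σ : Λ → Fin 3 → Fin t → Prop) (mult : Fin 3 → ℕ)
    (h0 : ∀ P, mult P ≠ 0 → ∀ i v d, p v = P → ¬ σ (lab i v) P d)
    (h1 : ∀ P, mult P ≠ 0 → ∀ v j, p v ≠ P → ∃! i, σ (lab i v) P (j - i)) :
    Good t fun P => (univ.filter fun v => p v = P).card + mult P * t := by
  classical
  obtain ⟨F, h2, h3, h4, h5⟩ := h
  let W := Σ P : Fin 3, Fin (mult P) × Fin t
  have hm : ∀ w : W, mult w.1 ≠ 0 := fun w h => by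
    have := w.2.1.2
    omega
  let p' : V ⊕ W → Fin 3 := fun z => match z with
    | .inl v => p v
    | .inr w => w.1
  let F' : Fin t → V ⊕ W → V ⊕ W → Prop := fun i z z' => match z, z' with
    | .inl u, .inl v => F i u v
    | .inl v, .inr w => σ (lab i v) w.1 (w.2.2 - i)
    | .inr w, .inl v => σ (lab i v) w.1 (w.2.2 - i)
    | .inr w, .inr w' => (w.1 < w'.1 ∧ w.2.2 = i) ∨ (w'.1 < w.1 ∧ w'.2.2 = i)
  refine ⟨V ⊕ W, inferInstance, p', fun P => ?_, F', ?_, ?_, ?_, ?_⟩
  · simp only [card_filter, Fintype.sum_sum_type, p', W, Fintype.sum_sigma]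
    congr 1
    rw [Finset.sum_eq_single P]
    · simp
    · intro b _ hb
      simp [hb]
    · simp
  · rintro i (u | w) (v | w') h
    · exact h2 i u v h
    · exact h
    · exact h
    · exact h.symm
  · rintro i (u | w) (v | w') h
    · exact h3 i u v h
    · exact fun hh => h0 _ (hm w') i u _ hh h
    · exact fun hh => h0 _ (hm w) i v _ hh.symm h
    · rcases h with h | h
      · exact h.1.ne
      · exact h.1.ne'
  · rintro (u | w) (v | w') h
    · exact h4 u v h
    · exact h1 _ (hm w') u _ h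
    · exact h1 _ (hm w) v _ (Ne.symm h)
    · rcases lt_or_gt_of_ne h with h' | h'
      · refine ⟨w.2.2, Or.inl ⟨h', rfl⟩, ?_⟩
        rintro i (hi | hi)
        · exact hi.2.symm
        · exact absurd hi.1 (lt_asymm h')
      · refine ⟨w'.2.2, Or.inr ⟨h', rfl⟩, ?_⟩
        rintro i (hi | hi)
        · exact absurd hi.1 (lt_asymm h')
        · exact hi.2.symm
  · intro i j
    obtain ⟨φ, hφ, hl⟩ := h5 i j
    let ψ : W ≃ W := Equiv.sigmaCongrRight fun P =>
      Equiv.prodCongr (Equiv.refl _) (Equiv.addRight (j - i))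
    have hψ1 : ∀ w : W, (ψ w).1 = w.1 := fun w => rfl
    have hψ2 : ∀ w : W, (ψ w).2.2 = w.2.2 + (j - i) := fun w => rfl
    have ha : ∀ a : Fin t, a + (j - i) - j = a - i := fun a => by abel
    have hb : ∀ a : Fin t, a + (j - i) = j ↔ a = i := fun a => by
      rw [← sub_eq_zero, ha, sub_eq_zero]
    refine ⟨Equiv.sumCongr φ ψ, ?_, fun _ => rfl⟩
    rintro (u | w) (v | w')
    · exact hφ u v
    · change σ _ _ _ ↔ σ (lab j (φ u)) (ψ w').1 ((ψ w').2.2 - j)
      rw [hl, hψ2, ha]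
      rfl
    · change σ _ _ _ ↔ σ (lab j (φ v)) (ψ w).1 ((ψ w).2.2 - j)
      rw [hl, hψ2, ha]
      rfl
    · change _ ↔ ((ψ w).1 < (ψ w').1 ∧ (ψ w).2.2 = j) ∨ ((ψ w').1 < (ψ w).1 ∧ (ψ w').2.2 = j)
      rw [hψ2, hψ2, hb, hb]
      rfl

/-- Factors that are disjoint unions of complete bipartite pieces. -/
lemma LF.of_pieces {V Λ I : Type} [Fintype V] [DecidableEq V] [Fintype I] [DecidableEq Λ]
    (p : V → Fin 3) (t : ℕ) (lab : Fin t → V → Λ) (τ : I → Fin t) (L R : I → Finset V)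
    (ty : I → (ℕ × Λ) × (ℕ × Λ))
    (hL : ∀ a, (L a).card = (ty a).1.1) (hR : ∀ a, (R a).card = (ty a).2.1)
    (hL' : ∀ a, ∀ u ∈ L a, lab (τ a) u = (ty a).1.2)
    (hR' : ∀ a, ∀ u ∈ R a, lab (τ a) u = (ty a).2.2)
    (hp : ∀ a, ∀ u ∈ L a, ∀ v ∈ R a, p u ≠ p v)
    (hLR : ∀ a u, u ∈ L a → u ∉ R a)
    (hdis : ∀ a b, τ a = τ b → ∀ u, (u ∈ L a ∨ u ∈ R a) → (u ∈ L b ∨ u ∈ R b) → a = b)
    (hcov : ∀ u v, p u ≠ p v → ∃! a, (u ∈ L a ∧ v ∈ R a) ∨ (v ∈ L a ∧ u ∈ R a))
    (hcen : ∀ θ i j, (univ.filter fun a => τ a = i ∧ ty a = θ).card =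
      (univ.filter fun a => τ a = j ∧ ty a = θ).card)
    (hlab : ∀ l i j, (univ.filter fun v => lab i v = l).card =
      (univ.filter fun v => lab j v = l).card) : LF p t lab := by
  classical
  refine ⟨fun i u v => ∃ a, τ a = i ∧ ((u ∈ L a ∧ v ∈ R a) ∨ (v ∈ L a ∧ u ∈ R a)), ?_, ?_, ?_, ?_⟩
  · rintro i u v ⟨a, h1, h2⟩
    exact ⟨a, h1, h2.symm⟩
  · rintro i u v ⟨a, h1, h2 | h2⟩
    · exact hp a u h2.1 v h2.2
    · exact (hp a v h2.1 u h2.2).symm
  · intro u v h
    obtain ⟨a, h1, h2⟩ := hcov u v h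
    refine ⟨τ a, ⟨a, rfl, h1⟩, ?_⟩
    rintro i ⟨b, rfl, hb⟩
    rw [h2 b hb]
  · intro i j
    obtain ⟨β, hβ⟩ := fib_equiv (fun a : {a // τ a = i} => ty a.1)
      (fun a : {a // τ a = j} => ty a.1) (fun θ => by
        have key : ∀ i, (univ.filter fun a : {a // τ a = i} => ty a.1 = θ).card =
            (univ.filter fun a => τ a = i ∧ ty a = θ).card := fun i => by
          rw [← card_map (Function.Embedding.subtype _)]
          congr 1
          ext a
          simp [and_comm]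
        rw [key, key, hcen θ i j])
    have eL : ∀ a : {a // τ a = i}, Nonempty (L a.1 ≃ L (β a).1) := fun a =>
      ⟨Fintype.equivOfCardEq (by simp only [Fintype.card_coe, hL, hβ])⟩
    have eR : ∀ a : {a // τ a = i}, Nonempty (R a.1 ≃ R (β a).1) := fun a =>
      ⟨Fintype.equivOfCardEq (by simp only [Fintype.card_coe, hR, hβ])⟩
    let γ := Σ a : {a // τ a = i}, (L a.1 ⊕ R a.1)
    let f : γ → V := fun c => match c with
      | ⟨_, .inl u⟩ => u.1
      | ⟨_, .inr u⟩ => u.1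
    let g : γ → V := fun c => match c with
      | ⟨a, .inl u⟩ => ((eL a).some u).1
      | ⟨a, .inr u⟩ => ((eR a).some u).1
    have hf : Function.Injective f := by
      rintro ⟨a, u | u⟩ ⟨b, v | v⟩ h <;> simp only [f] at h
      · obtain rfl : a = b := Subtype.ext (hdis _ _ (a.2.trans b.2.symm) u.1 (.inl u.2)
          (.inl (h ▸ v.2)))
        rw [Subtype.ext h]
      · obtain rfl : a = b := Subtype.ext (hdis _ _ (a.2.trans b.2.symm) u.1 (.inl u.2)
          (.inr (h ▸ v.2)))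
        exact absurd (h ▸ v.2) (hLR _ _ u.2)
      · obtain rfl : a = b := Subtype.ext (hdis _ _ (a.2.trans b.2.symm) u.1 (.inr u.2)
          (.inl (h ▸ v.2)))
        exact absurd (h ▸ u.2) (hLR _ _ v.2)
      · obtain rfl : a = b := Subtype.ext (hdis _ _ (a.2.trans b.2.symm) u.1 (.inr u.2)
          (.inr (h ▸ v.2)))
        rw [Subtype.ext h]
    have hg : Function.Injective g := by
      rintro ⟨a, u | u⟩ ⟨b, v | v⟩ h <;> simp only [g] at h
      · obtain rfl : a = b := β.injective (Subtype.ext (hdis _ _ ((β a).2.trans (β b).2.symm) _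
          (.inl ((eL a).some u).2) (.inl (h ▸ ((eL b).some v).2))))
        rw [(eL a).some.injective (Subtype.ext h)]
      · obtain rfl : a = b := β.injective (Subtype.ext (hdis _ _ ((β a).2.trans (β b).2.symm) _
          (.inl ((eL a).some u).2) (.inr (h ▸ ((eR b).some v).2))))
        exact absurd (h ▸ ((eR a).some v).2) (hLR _ _ ((eL a).some u).2)
      · obtain rfl : a = b := β.injective (Subtype.ext (hdis _ _ ((β a).2.trans (β b).2.symm) _
          (.inr ((eR a).some u).2) (.inl (h ▸ ((eL b).some v).2))))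
        exact absurd (h ▸ ((eR a).some u).2) (hLR _ _ ((eL a).some v).2)
      · obtain rfl : a = b := β.injective (Subtype.ext (hdis _ _ ((β a).2.trans (β b).2.symm) _
          (.inr ((eR a).some u).2) (.inr (h ▸ ((eR b).some v).2))))
        rw [(eR a).some.injective (Subtype.ext h)]
    obtain ⟨φ, hφ, hφ'⟩ := lab_extend f g hf hg (lab i) (lab j) (by
      rintro ⟨a, u | u⟩
      · have h1 := hL' _ _ ((eL a).some u).2
        have h2 := hL' _ _ u.2
        rw [(β a).2, hβ] at h1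
        rw [a.2] at h2
        exact h1.trans h2.symm
      · have h1 := hR' _ _ ((eR a).some u).2
        have h2 := hR' _ _ u.2
        rw [(β a).2, hβ] at h1
        rw [a.2] at h2
        exact h1.trans h2.symm) (fun l => hlab l i j)
    have hLφ : ∀ (a : {a // τ a = i}) u, u ∈ L a.1 ↔ φ u ∈ L (β a).1 := by
      intro a u
      constructor
      · intro hu
        have := hφ ⟨a, .inl ⟨u, hu⟩⟩
        simp only [f, g] at this
        rw [this]
        exact Subtype.prop _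
      · intro hu
        have := hφ ⟨a, .inl ((eL a).some.symm ⟨_, hu⟩)⟩
        simp only [f, g, Equiv.apply_symm_apply] at this
        rw [← φ.injective this]
        exact Subtype.prop _
    have hRφ : ∀ (a : {a // τ a = i}) u, u ∈ R a.1 ↔ φ u ∈ R (β a).1 := by
      intro a u
      constructor
      · intro hu
        have := hφ ⟨a, .inr ⟨u, hu⟩⟩
        simp only [f, g] at this
        rw [this]
        exact Subtype.prop _
      · intro hu
        have := hφ ⟨a, .inr ((eR a).some.symm ⟨_, hu⟩)⟩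
        simp only [f, g, Equiv.apply_symm_apply] at this
        rw [← φ.injective this]
        exact Subtype.prop _
    refine ⟨φ, fun u v => ⟨?_, ?_⟩, hφ'⟩
    · rintro ⟨a, ha, h⟩
      refine ⟨(β ⟨a, ha⟩).1, (β ⟨a, ha⟩).2, ?_⟩
      rw [← hLφ, ← hLφ, ← hRφ, ← hRφ]
      exact h
    · rintro ⟨b, hb, h⟩
      obtain ⟨a, ha⟩ := β.surjective ⟨b, hb⟩
      obtain rfl : (β a).1 = b := by rw [ha]
      rw [← hLφ, ← hLφ, ← hRφ, ← hRφ] at h
      exact ⟨a.1, a.2, h⟩

end Pool.Agent.Lib.MP_351560_co
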