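import Mathlib
import Pool.Agent.Lib.MP_351560_co.Piece

set_option autoImplicit false
set_option linter.unusedSimpArgs false
set_option linter.unusedVariables false

namespace Pool.Agent.Lib.MP_351560_co

open Finset

/-- Factors consisting of all edges between vertices with `κ`-related labels together with
disjoint copies of small role graphs. An item `a` lives at time `τ a`, has type `ty a`, and embeds
the roles `r` with `use (ty a) r` by `emb a`. -/
lemma LF.of_comp {V Λ I Θ R : Type} [Fintype V] [Fintype I] [Fintype R] [DecidableEq Λ]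
    [DecidableEq Θ] (p : V → Fin 3) (t : ℕ) (lab : Fin t → V → Λ) (κ : Λ → Λ → Prop)
    (τ : I → Fin t) (ty : I → Θ) (use : Θ → R → Prop) (G : Θ → R → R → Prop) (rl : Θ → R → Λ)
    (emb : I → R → V)
    (hG : ∀ θ r r', G θ r r' → use θ r ∧ use θ r')
    (hl : ∀ a r, use (ty a) r → lab (τ a) (emb a r) = rl (ty a) r)
    (hdis : ∀ a b r r', τ a = τ b → use (ty a) r → use (ty b) r' → emb a r = emb b r' →
      a = b ∧ r = r')
    (hp1 : ∀ i u v, κ (lab i u) (lab i v) → p u ≠ p v)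
    (hp2 : ∀ a r r', G (ty a) r r' → p (emb a r) ≠ p (emb a r'))
    (hcov : ∀ u v, p u < p v → ∃! i, κ (lab i u) (lab i v) ∨ κ (lab i v) (lab i u) ∨
      ∃ a r r', τ a = i ∧ (G (ty a) r r' ∨ G (ty a) r' r) ∧ emb a r = u ∧ emb a r' = v)
    (hcen : ∀ θ i j, (univ.filter fun a => τ a = i ∧ ty a = θ).card =
      (univ.filter fun a => τ a = j ∧ ty a = θ).card)
    (hlab : ∀ l i j, (univ.filter fun v => lab i v = l).card =
      (univ.filter fun v => lab j v = l).card) : LF p t lab := by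
  classical
  let F : Fin t → V → V → Prop := fun i u v => κ (lab i u) (lab i v) ∨ κ (lab i v) (lab i u) ∨
      ∃ a r r', τ a = i ∧ (G (ty a) r r' ∨ G (ty a) r' r) ∧ emb a r = u ∧ emb a r' = v
  have hs : ∀ i u v, F i u v → F i v u := by
    rintro i u v (h | h | ⟨a, r, r', h1, h2, h3, h4⟩)
    · exact .inr (.inl h)
    · exact .inl h
    · exact .inr (.inr ⟨a, r', r, h1, h2.symm, h4, h3⟩)
  refine ⟨F, hs, ?_, ?_, ?_⟩
  · rintro i u v (h | h | ⟨a, r, r', h1, h2 | h2, rfl, rfl⟩)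
    · exact hp1 i u v h
    · exact (hp1 i v u h).symm
    · exact hp2 a r r' h2
    · exact (hp2 a r' r h2).symm
  · intro u v h
    rcases lt_or_gt_of_ne h with h | h
    · exact hcov u v h
    · obtain ⟨i, h1, h2⟩ := hcov v u h
      exact ⟨i, hs _ _ _ h1, fun j hj => h2 j (hs _ _ _ hj)⟩
  · intro i j
    obtain ⟨β, hβ⟩ := fib_equiv (fun a : {a // τ a = i} => ty a.1)
      (fun a : {a // τ a = j} => ty a.1) (fun θ => by
        have key : ∀ i, (univ.filter fun a : {a // τ a = i} => ty a.1 = θ).card =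
            (univ.filter fun a => τ a = i ∧ ty a = θ).card := fun i => by
          rw [← card_map (Function.Embedding.subtype _)]
          congr 1
          ext a
          simp [and_comm]
        rw [key, key, hcen θ i j])
    let γ := {z : {a // τ a = i} × R // use (ty z.1.1) z.2}
    let f : γ → V := fun c => emb c.1.1.1 c.1.2
    let g : γ → V := fun c => emb (β c.1.1).1 c.1.2
    have hf : Function.Injective f := by
      rintro ⟨⟨a, r⟩, h⟩ ⟨⟨b, r'⟩, h'⟩ e
      obtain ⟨e1, rfl⟩ := hdis a.1 b.1 r r' (a.2.trans b.2.symm) h h' e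
      obtain rfl : a = b := Subtype.ext e1
      rfl
    have hg : Function.Injective g := by
      rintro ⟨⟨a, r⟩, h⟩ ⟨⟨b, r'⟩, h'⟩ e
      obtain ⟨e1, rfl⟩ := hdis (β a).1 (β b).1 r r' ((β a).2.trans (β b).2.symm)
        (by rw [hβ]; exact h) (by rw [hβ]; exact h') e
      obtain rfl : a = b := β.injective (Subtype.ext e1)
      rfl
    obtain ⟨φ, hφ, hφ'⟩ := lab_extend f g hf hg (lab i) (lab j) (by
      rintro ⟨⟨a, r⟩, h⟩
      have h1 := hl a.1 r h
      have h2 := hl (β a).1 r (by rw [hβ]; exact h)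
      rw [(β a).2, hβ] at h2
      rw [a.2] at h1
      exact h2.trans h1.symm) (fun l => hlab l i j)
    refine ⟨φ, fun u v => ?_, hφ'⟩
    simp only [F, hφ']
    refine or_congr_right (or_congr_right ⟨?_, ?_⟩)
    · rintro ⟨a, r, r', h1, h2, rfl, rfl⟩
      have hu : use (ty a) r ∧ use (ty a) r' := h2.elim (hG _ _ _) fun h => (hG _ _ _ h).symm
      refine ⟨(β ⟨a, h1⟩).1, r, r', (β ⟨a, h1⟩).2, by rw [hβ]; exact h2, ?_, ?_⟩
      · exact (hφ ⟨(⟨a, h1⟩, r), hu.1⟩).symm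
      · exact (hφ ⟨(⟨a, h1⟩, r'), hu.2⟩).symm
    · rintro ⟨b, r, r', h1, h2, h3, h4⟩
      obtain ⟨a, ha⟩ := β.surjective ⟨b, h1⟩
      obtain rfl : (β a).1 = b := by rw [ha]
      rw [hβ] at h2
      have hu : use (ty a.1) r ∧ use (ty a.1) r' := h2.elim (hG _ _ _) fun h => (hG _ _ _ h).symm
      refine ⟨a.1, r, r', a.2, h2, φ.injective ?_, φ.injective ?_⟩
      · exact (hφ ⟨(a, r), hu.1⟩).trans h3
      · exact (hφ ⟨(a, r'), hu.2⟩).trans h4

/-- The case of matchings: an item is one edge `x a`, `y a`. -/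
lemma LF.of_match {V Λ I : Type} [Fintype V] [Fintype I] [DecidableEq Λ]
    (p : V → Fin 3) (t : ℕ) (lab : Fin t → V → Λ) (κ : Λ → Λ → Prop)
    (τ : I → Fin t) (x y : I → V)
    (hx : ∀ a b, τ a = τ b → x a = x b → a = b) (hy : ∀ a b, τ a = τ b → y a = y b → a = b)
    (hxy : ∀ a b, τ a = τ b → x a ≠ y b)
    (hp1 : ∀ i u v, κ (lab i u) (lab i v) → p u ≠ p v) (hp2 : ∀ a, p (x a) ≠ p (y a))
    (hcov : ∀ u v, p u < p v → ∃! i, κ (lab i u) (lab i v) ∨ κ (lab i v) (lab i u) ∨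
      ∃ a, τ a = i ∧ ((x a = u ∧ y a = v) ∨ (x a = v ∧ y a = u)))
    (hcen : ∀ l l' i j,
      (univ.filter fun a => τ a = i ∧ lab i (x a) = l ∧ lab i (y a) = l').card =
      (univ.filter fun a => τ a = j ∧ lab j (x a) = l ∧ lab j (y a) = l').card)
    (hlab : ∀ l i j, (univ.filter fun v => lab i v = l).card =
      (univ.filter fun v => lab j v = l).card) : LF p t lab := by
  refine LF.of_comp p t lab κ τ (fun a => (lab (τ a) (x a), lab (τ a) (y a))) (fun _ _ => True)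
    (fun _ r r' => r = true ∧ r' = false) (fun θ r => if r then θ.1 else θ.2)
    (fun a r => if r then x a else y a) (fun _ _ _ _ => ⟨trivial, trivial⟩) ?_ ?_ hp1 ?_ ?_ ?_ hlab
  · rintro a (_ | _) _ <;> rfl
  · rintro a b (_ | _) (_ | _) h _ _ e
    · exact ⟨hy a b h e, rfl⟩
    · exact absurd e.symm (hxy b a h.symm)
    · exact absurd e (hxy a b h)
    · exact ⟨hx a b h e, rfl⟩
  · rintro a _ _ ⟨rfl, rfl⟩
    exact hp2 a
  · intro u v h
    refine (existsUnique_congr fun i => or_congr_right (or_congr_right ⟨?_, ?_⟩)).1 (hcov u v h)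
    · rintro ⟨a, h1, h2 | h2⟩
      · exact ⟨a, true, false, h1, .inl ⟨rfl, rfl⟩, h2.1, h2.2⟩
      · exact ⟨a, false, true, h1, .inr ⟨rfl, rfl⟩, h2.2, h2.1⟩
    · rintro ⟨a, r, r', h1, ⟨rfl, rfl⟩ | ⟨rfl, rfl⟩, h3, h4⟩
      · exact ⟨a, h1, .inl ⟨h3, h4⟩⟩
      · exact ⟨a, h1, .inr ⟨h4, h3⟩⟩
  · rintro ⟨l, l'⟩ i j
    have key : ∀ i, (univ.filter fun a => τ a = i ∧
        (lab (τ a) (x a), lab (τ a) (y a)) = (l, l')) =
        univ.filter fun a => τ a = i ∧ lab i (x a) = l ∧ lab i (y a) = l' := fun i =>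
      filter_congr fun a _ => and_congr_right fun h => by rw [h, Prod.mk.injEq]
    rw [key, key, hcen]

/-- Extension by cycles of `t` new vertices; the vertex `x` of a cycle of the part `P` has the
role `ρ P i x` at time `i`. -/
lemma LF.extend_role {V Λ R : Type} [Fintype V] [DecidableEq R] {p : V → Fin 3} {t : ℕ}
    {lab : Fin t → V → Λ} (h : LF p t lab) (ρ : Fin 3 → Fin t → Fin t → R) (hub : R)
    (σ : Λ → Fin 3 → R → Prop) (mult : Fin 3 → ℕ)
    (hρ : ∀ P r i j, (univ.filter fun x => ρ P i x = r).card =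
      (univ.filter fun x => ρ P j x = r).card)
    (hhub : ∀ P x, ∃! i, ρ P i x = hub)
    (h0 : ∀ P, mult P ≠ 0 → ∀ i v r, p v = P → ¬ σ (lab i v) P r)
    (h1 : ∀ P, mult P ≠ 0 → ∀ v x, p v ≠ P → ∃! i, σ (lab i v) P (ρ P i x)) :
    Good t fun P => (univ.filter fun v => p v = P).card + mult P * t := by
  classical
  obtain ⟨F, h2, h3, h4, h5⟩ := h
  let W := Σ P : Fin 3, Fin (mult P) × Fin t
  have hm : ∀ w : W, mult w.1 ≠ 0 := fun w h => by
    have := w.2.1.2
    omega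
  let p' : V ⊕ W → Fin 3 := fun z => match z with
    | .inl v => p v
    | .inr w => w.1
  let F' : Fin t → V ⊕ W → V ⊕ W → Prop := fun i z z' => match z, z' with
    | .inl u, .inl v => F i u v
    | .inl v, .inr w => σ (lab i v) w.1 (ρ w.1 i w.2.2)
    | .inr w, .inl v => σ (lab i v) w.1 (ρ w.1 i w.2.2)
    | .inr w, .inr w' => (w.1 < w'.1 ∧ ρ w.1 i w.2.2 = hub) ∨ (w'.1 < w.1 ∧ ρ w'.1 i w'.2.2 = hub)
  refine ⟨V ⊕ W, inferInstance, p', fun P => ?_, F', ?_, ?_, ?_, ?_⟩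
  · simp only [card_filter, Fintype.sum_sum_type, p', W, Fintype.sum_sigma]
    congr 1
    rw [Finset.sum_eq_single P]
    · simp
    · intro b _ hb
      simp [hb]
    · simp
  · rintro i (u | w) (v | w') h
    · exact h2 i u v h
    · exact h
    · exact h
    · exact h.symm
  · rintro i (u | w) (v | w') h
    · exact h3 i u v h
    · exact fun hh => h0 _ (hm w') i u _ hh h
    · exact fun hh => h0 _ (hm w) i v _ hh.symm h
    · rcases h with h | h
      · exact h.1.ne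
      · exact h.1.ne'
  · rintro (u | w) (v | w') h
    · exact h4 u v h
    · exact h1 _ (hm w') u _ h
    · exact h1 _ (hm w) v _ (Ne.symm h)
    · rcases lt_or_gt_of_ne h with h' | h'
      · obtain ⟨i, hi, hi'⟩ := hhub w.1 w.2.2
        refine ⟨i, Or.inl ⟨h', hi⟩, ?_⟩
        rintro j (hj | hj)
        · exact hi' j hj.2
        · exact absurd hj.1 (lt_asymm h')
      · obtain ⟨i, hi, hi'⟩ := hhub w'.1 w'.2.2
        refine ⟨i, Or.inr ⟨h', hi⟩, ?_⟩
        rintro j (hj | hj)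
        · exact absurd hj.1 (lt_asymm h')
        · exact hi' j hj.2
  · intro i j
    obtain ⟨φ, hφ, hl⟩ := h5 i j
    have hex : ∀ P, ∃ e : Fin t ≃ Fin t, ∀ x, ρ P j (e x) = ρ P i x := fun P =>
      fib_equiv (ρ P i) (ρ P j) fun r => hρ P r i j
    choose e he using hex
    let ψ : W ≃ W := Equiv.sigmaCongrRight fun P => Equiv.prodCongr (Equiv.refl _) (e P)
    have hψ : ∀ w : W, ρ (ψ w).1 j (ψ w).2.2 = ρ w.1 i w.2.2 := fun w => he w.1 w.2.2
    refine ⟨Equiv.sumCongr φ ψ, ?_, fun _ => rfl⟩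
    rintro (u | w) (v | w')
    · exact hφ u v
    · change σ _ _ _ ↔ σ (lab j (φ u)) (ψ w').1 (ρ (ψ w').1 j (ψ w').2.2)
      rw [hl, hψ]
      rfl
    · change σ _ _ _ ↔ σ (lab j (φ v)) (ψ w).1 (ρ (ψ w).1 j (ψ w).2.2)
      rw [hl, hψ]
      rfl
    · change _ ↔ ((ψ w).1 < (ψ w').1 ∧ ρ (ψ w).1 j (ψ w).2.2 = hub) ∨
        ((ψ w').1 < (ψ w).1 ∧ ρ (ψ w').1 j (ψ w').2.2 = hub)
      rw [hψ, hψ]
      rfl

end Pool.Agent.Lib.MP_351560_co
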