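import Mathlib
import Pool.Agent.Lib.MP_351560_co.Piece

set_option autoImplicit false
set_option linter.unusedSimpArgs false
set_option linter.unusedVariables false

namespace Pool.Agent.Lib.MP_351560_co

open Finset

lemma sched_items {J D T : Type} [Fintype J] [Fintype D] [DecidableEq D] [DecidableEq T]
    (P : J → D) (Q : J → T) (k : ℕ) (hP : ∀ v, (univ.filter fun e => P e = v).card = k)
    (hQ : ∀ i, (univ.filter fun e => Q e = i).card ≤ k) :
    ∃ θ : D × Fin k ≃ J, (∀ z, P (θ z) = z.1) ∧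
      ∀ a v v', Q (θ (v, a)) = Q (θ (v', a)) → v = v' := by
  obtain ⟨c, hc⟩ := konig_le P Q k (fun v => (hP v).le) hQ
  have hinj : Function.Injective fun e => (P e, c e) := fun e e' h =>
    hc e e' (.inl (congrArg Prod.fst h)) (congrArg Prod.snd h)
  have hcard : Fintype.card J = Fintype.card (D × Fin k) := by
    rw [← card_univ, card_eq_sum_card_fiberwise (f := P) (t := univ) (fun _ _ => by simp)]
    simp [hP]
  let e := Equiv.ofBijective _ ((Fintype.bijective_iff_injective_and_card _).2 ⟨hinj, hcard⟩)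
  have he : ∀ z, (P (e.symm z), c (e.symm z)) = z := fun z => e.apply_symm_apply z
  refine ⟨e.symm, fun z => congrArg Prod.fst (he z), fun a v v' h => ?_⟩
  have := hc _ _ (.inr h) ((congrArg Prod.snd (he _)).trans (congrArg Prod.snd (he (v', a))).symm)
  exact congrArg Prod.fst (e.symm.injective this)

lemma sum_fib {α β : Type} [Fintype α] [Fintype β] [DecidableEq β] (f : α → β) :
    ∑ b, (univ.filter fun a => f a = b).card = Fintype.card α :=
  (card_eq_sum_card_fiberwise (f := f) (s := univ) (t := univ) (fun _ _ => by simp)).symm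

lemma card_sigma_pred {Z : Type} [Fintype Z] (y : Z → ℕ) (p : Z → Prop) [DecidablePred p] :
    (univ.filter fun e : Σ z, Fin (y z) => p e.1).card = ∑ z, if p z then y z else 0 := by
  simp only [card_filter, Fintype.sum_sigma, sum_const, card_univ, Fintype.card_fin, smul_eq_mul]
  refine sum_congr rfl fun z _ => ?_
  split_ifs <;> simp

lemma sched {D T : Type} [Fintype D] [DecidableEq D] [Fintype T] [DecidableEq T]
    (y : D → T → ℕ) (k : ℕ) (hrow : ∀ v, ∑ i, y v i = k) (hcol : ∀ i, ∑ v, y v i ≤ k) :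
    ∃ θ : D → Fin k → T, (∀ v i, (univ.filter fun a => θ v a = i).card = y v i) ∧
      ∀ a v v', θ v a = θ v' a → v = v' := by
  obtain ⟨θ, h1, h2⟩ := sched_items (J := Σ z : D × T, Fin (y z.1 z.2)) (fun e => e.1.1)
    (fun e => e.1.2) k (fun v => by
      rw [card_sigma_pred (fun z : D × T => y z.1 z.2) (fun z => z.1 = v), Fintype.sum_prod_type,
        ← hrow v, sum_eq_single v] <;> simp +contextual) (fun i => by
      rw [card_sigma_pred (fun z : D × T => y z.1 z.2) (fun z => z.2 = i), Fintype.sum_prod_type]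
      simpa using hcol i)
  refine ⟨fun v a => (θ (v, a)).1.2, fun v i => ?_, h2⟩
  rw [← card_sigma_fib (fun z : D × T => y z.1 z.2) (v, i)]
  refine card_bij (fun a _ => θ (v, a)) ?_ ?_ ?_
  · intro a ha
    simp only [mem_filter, mem_univ, true_and] at ha ⊢
    exact Prod.ext (h1 _) ha
  · intro a _ b _ h
    exact congrArg Prod.snd (θ.injective h)
  · intro e he
    simp only [mem_filter, mem_univ, true_and] at he
    obtain ⟨⟨v', a⟩, rfl⟩ := θ.surjective e
    obtain rfl : v' = v := (h1 (v', a)).symm.trans (congrArg Prod.fst he)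
    exact ⟨a, by simp [he], rfl⟩

lemma sched_state {D S : Type} [Fintype D] [DecidableEq D] [Fintype S] [DecidableEq S]
    (M : D → S → ℕ) (c : S → ℕ) (k : ℕ) (hc : ∑ σ, c σ = Fintype.card D)
    (hrow : ∀ v, ∑ σ, M v σ = k) (hcol : ∀ σ, ∑ v, M v σ = k * c σ) :
    ∃ st : Fin k → D → S, (∀ v σ, (univ.filter fun a => st a v = σ).card = M v σ) ∧
      ∀ a σ, (univ.filter fun v => st a v = σ).card = c σ := by
  have h0 : ∀ σ, ∃ f : (Σ v, Fin (M v σ)) → Fin (c σ),
      ∀ q, (univ.filter fun e => f e = q).card = k := fun σ =>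
    exists_fib (fun _ => k) (by simp [hcol, mul_comm])
  choose f hf using h0
  obtain ⟨θ, h1, h2⟩ := sched (T := Σ σ, Fin (c σ))
    (fun v z => (univ.filter fun j : Fin (M v z.1) => f z.1 ⟨v, j⟩ = z.2).card) k (fun v => by
      rw [Fintype.sum_sigma, ← hrow v]
      refine sum_congr rfl fun σ _ => ?_
      exact (sum_fib fun j : Fin (M v σ) => f σ ⟨v, j⟩).trans (by simp)) (fun z => by
      rw [← hf z.1 z.2]
      simp only [card_filter, Fintype.sum_sigma, le_refl])
  refine ⟨fun a v => (θ v a).1, fun v σ => ?_, fun a σ => ?_⟩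
  · have : (univ.filter fun a => (θ v a).1 = σ) =
        univ.biUnion fun q : Fin (c σ) => univ.filter fun a => θ v a = ⟨σ, q⟩ := by
      ext a
      simp only [mem_filter, mem_univ, true_and, mem_biUnion]
      constructor
      · rintro rfl
        exact ⟨_, rfl⟩
      · rintro ⟨q, h⟩
        rw [h]
    rw [this, card_biUnion]
    · simp only [h1]
      exact (sum_fib fun j : Fin (M v σ) => f σ ⟨v, j⟩).trans (by simp)
    · intro q _ q' _ hq
      rw [Function.onFun, disjoint_filter]
      intro a _ h h'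
      rw [h] at h'
      exact hq (by simpa using h')
  · have hb : Function.Bijective fun v => θ v a :=
      (Fintype.bijective_iff_injective_and_card _).2 ⟨h2 a, by simp [hc]⟩
    rw [← card_sigma_fib c σ]
    exact card_bijective _ hb (by simp)

theorem good_star {T : Type} [Fintype T] [DecidableEq T] {t m n s : ℕ} (hT : Fintype.card T = t)
    (X : Fin n ⊕ Fin s → T → ℕ) (τ : Fin n → Fin s → T)
    (h1 : ∀ b c, X (.inl b) (τ b c) = 0) (h2 : ∀ b c, 1 ≤ X (.inr c) (τ b c))
    (h3 : ∀ b c c', τ b c = τ b c' → c = c') (h4 : ∀ b b' c, τ b c = τ b' c → b = b')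
    (hB : ∀ b, ∑ i, X (.inl b) i = m) (hC : ∀ c, ∑ i, X (.inr c) i = m + n)
    (hcol : ∀ i, ∑ v, X v i ≤ m)
    (hcen : ∀ k i j, (univ.filter fun v => X v i = k).card =
      (univ.filter fun v => X v j = k).card) : Good t ![m, n, s] := by
  classical
  let G : Fin n ⊕ Fin s → T → Finset (Fin n) := fun v i =>
    univ.filter fun b => ∃ c, v = .inr c ∧ τ b c = i
  have hG : ∀ v i, (G v i).card ≤ X v i := by
    intro v i
    rcases (G v i).eq_empty_or_nonempty with h | ⟨b, hb⟩
    · simp [h]
    · obtain ⟨c, rfl, rfl⟩ := (mem_filter.1 hb).2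
      refine le_trans (card_le_one.2 fun a ha a' ha' => ?_) (h2 b c)
      obtain ⟨c1, e1, e1'⟩ := (mem_filter.1 ha).2
      obtain ⟨c2, e2, e2'⟩ := (mem_filter.1 ha').2
      cases e1
      cases e2
      exact h4 _ _ _ (e1'.trans e2'.symm)
  obtain ⟨θ, hθ1, hθ2⟩ := sched (fun v i => X v i - (G v i).card) m (by
    intro v
    have e1 : ∑ i, (X v i - (G v i).card) + ∑ i, (G v i).card = ∑ i, X v i := by
      rw [← sum_add_distrib]
      exact sum_congr rfl fun i _ => Nat.sub_add_cancel (hG v i)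
    rcases v with b | c
    · simp only [G, reduceCtorEq, false_and, exists_false, filter_false, card_empty, Nat.sub_zero]
      exact hB b
    · have e2 : ∑ i, (G (.inr c) i).card = n := by
        simp only [G, Sum.inr.injEq, exists_eq_left']
        rw [← card_eq_sum_card_fiberwise (f := fun b => τ b c) (t := univ) (fun _ _ => by simp)]
        simp
      rw [e2, hC] at e1
      omega) (fun i => le_trans (sum_le_sum fun v _ => Nat.sub_le _ _) (hcol i))
  let e := Fintype.equivFinOfCardEq hT
  let p : Fin m ⊕ Fin n ⊕ Fin s → Fin 3 := fun u => match u with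
    | .inl _ => 0
    | .inr (.inl _) => 1
    | .inr (.inr _) => 2
  let I := {z : (Fin n ⊕ Fin s) × T // X z.1 z.2 ≠ 0}
  let R : I → Finset (Fin m ⊕ Fin n ⊕ Fin s) := fun z =>
    (univ.filter fun a => θ z.1.1 a = z.1.2).disjSum ((G z.1.1 z.1.2).disjSum ∅)
  have hR : ∀ (z : I) u, u ∈ R z ↔ (∃ a, u = .inl a ∧ θ z.1.1 a = z.1.2) ∨
      ∃ b c, u = .inr (.inl b) ∧ z.1.1 = .inr c ∧ τ b c = z.1.2 := by
    rintro z (a | b | c) <;> simp [R, G]
  have hLF : LF p t (fun _ _ => ()) := by
    refine LF.of_pieces p t _ (fun z : I => e z.1.2) (fun z => {.inr z.1.1}) R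
      (fun z => ((1, ()), (X z.1.1 z.1.2, ()))) (by simp) ?_ (by simp) (by simp) ?_ ?_ ?_ ?_ ?_
      (by simp)
    · intro z
      simp only [R, card_disjSum, hθ1, card_empty, add_zero]
      exact Nat.sub_add_cancel (hG _ _)
    · rintro ⟨⟨v, i⟩, hz⟩ u hu w hw
      rw [mem_singleton] at hu
      subst hu
      rcases (hR _ _).1 hw with ⟨a, rfl, -⟩ | ⟨b, c, rfl, rfl, -⟩
      · rcases v with b | c <;> simp [p]
      · simp [p]
    · rintro ⟨⟨v, i⟩, hz⟩ u hu hw
      rw [mem_singleton] at hu
      subst hu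
      rcases (hR _ _).1 hw with ⟨a, h, -⟩ | ⟨b, c, h, rfl, -⟩ <;> simp at h
    · rintro ⟨⟨v, i⟩, hz⟩ ⟨⟨v', i'⟩, hz'⟩ hi u hu hu'
      obtain rfl : i = i' := e.injective hi
      suffices v = v' by subst this; rfl
      simp only [mem_singleton, hR] at hu hu'
      rcases hu with rfl | ⟨a, rfl, ha⟩ | ⟨b, c, rfl, rfl, ha⟩
      · rcases hu' with h | ⟨a, h, ha⟩ | ⟨b, c, h, rfl, rfl⟩
        · simpa using h
        · simp at h
        · cases h
          exact absurd (h1 _ _) hz
      · rcases hu' with h | ⟨a', h, ha'⟩ | ⟨b, c, h, -⟩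
        · simp at h
        · cases h
          exact hθ2 _ _ _ (ha.trans ha'.symm)
        · simp at h
      · rcases hu' with h | ⟨a', h, ha'⟩ | ⟨b', c', h, rfl, ha'⟩
        · cases h
          subst ha
          exact absurd (h1 _ _) hz'
        · simp at h
        · cases h
          rw [h3 _ _ _ (ha.trans ha'.symm)]
    · have k1 : ∀ a v, ∃! z : I, (Sum.inr v : Fin m ⊕ Fin n ⊕ Fin s) ∈ ({.inr z.1.1} : Finset _) ∧
          .inl a ∈ R z := by
        intro a v
        have hne : X v (θ v a) ≠ 0 := by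
          have h0 : 0 < (univ.filter fun a' => θ v a' = θ v a).card := card_pos.2 ⟨a, by simp⟩
          rw [hθ1] at h0
          omega
        refine ⟨⟨(v, θ v a), hne⟩, by simp [hR], ?_⟩
        rintro ⟨⟨v', i⟩, hz⟩ ⟨ha, hb⟩
        simp only [hR, mem_singleton, Sum.inr.injEq, Sum.inl.injEq, exists_eq_left',
          reduceCtorEq, false_and, exists_false, or_false] at ha hb
        subst ha
        subst hb
        rfl
      have k2 : ∀ b c, ∃! z : I, (Sum.inr (.inr c) : Fin m ⊕ Fin n ⊕ Fin s) ∈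
          ({.inr z.1.1} : Finset _) ∧ .inr (.inl b) ∈ R z := by
        intro b c
        refine ⟨⟨(.inr c, τ b c), by have := h2 b c; simp only; omega⟩, by simp [hR], ?_⟩
        rintro ⟨⟨v', i⟩, hz⟩ ⟨ha, hb⟩
        simp only [hR, mem_singleton, Sum.inr.injEq, Sum.inl.injEq, exists_eq_left',
          reduceCtorEq, false_and, exists_false, false_or] at ha hb
        subst ha
        obtain ⟨b', c', rfl, h, rfl⟩ := hb
        cases h
        rfl
      have k3 : ∀ (z : I) a, (Sum.inl a : Fin m ⊕ Fin n ⊕ Fin s) ∉ ({.inr z.1.1} : Finset _) := by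
        simp
      have k4 : ∀ (z : I) c, (Sum.inr (.inr c) : Fin m ⊕ Fin n ⊕ Fin s) ∉ R z := by
        simp [hR]
      rintro (a | b | c) (a' | b' | c') h <;> simp only [p, ne_eq, not_true_eq_false] at h <;>
        simp only [k3, k4, false_and, and_false, false_or, or_false]
      exacts [k1 _ _, k1 _ _, k1 _ _, k2 _ _, k1 _ _, k2 _ _]
    · have key : ∀ θ' i, (univ.filter fun z : I => e z.1.2 = i ∧
          (((1, ()), (X z.1.1 z.1.2, ())) : (ℕ × Unit) × (ℕ × Unit)) = θ').card =
          if θ'.1.1 = 1 ∧ θ'.2.1 ≠ 0 then (univ.filter fun v => X v (e.symm i) = θ'.2.1).card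
          else 0 := by
        rintro ⟨⟨a, ⟨⟩⟩, ⟨k, ⟨⟩⟩⟩ i
        split_ifs with h
        · refine card_bij (fun z _ => z.1.1) ?_ ?_ ?_
          · rintro ⟨⟨v, j⟩, hz⟩ hz'
            simp only [mem_filter, mem_univ, true_and, Prod.mk.injEq, and_true] at hz' ⊢
            rw [← hz'.1, e.symm_apply_apply, hz'.2.2]
          · rintro ⟨⟨v, j⟩, hz⟩ hz' ⟨⟨v', j'⟩, hw⟩ hw' rfl
            simp only [mem_filter, mem_univ, true_and] at hz' hw'
            obtain rfl : j = j' := e.injective (hz'.1.trans hw'.1.symm)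
            rfl
          · intro v hv
            simp only [mem_filter, mem_univ, true_and] at hv h
            exact ⟨⟨(v, e.symm i), by rw [hv]; exact h.2⟩, by simp [hv, h.1], rfl⟩
        · rw [card_eq_zero, filter_eq_empty_iff]
          rintro ⟨⟨v, j⟩, hz⟩ _ ⟨-, hz'⟩
          simp only [Prod.mk.injEq, and_true] at hz' h
          exact h ⟨hz'.1.symm, hz'.2 ▸ hz⟩
      intro θ' i j
      rw [key, key, hcen _ (e.symm i) (e.symm j)]
  convert hLF.good using 2 with P
  rw [card_filter, Fintype.sum_sum_type, Fintype.sum_sum_type]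
  fin_cases P <;> simp [p]

end Pool.Agent.Lib.MP_351560_co
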