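import Mathlib
import Pool.Agent.Lib.MP_351560_co.Comp
import Pool.Agent.Lib.MP_351560_co.Star

set_option autoImplicit false
set_option linter.unusedSimpArgs false
set_option linter.unusedVariables false

namespace Pool.Agent.Lib.MP_351560_co

open Finset

/-- Star edges of a core. Letters: `0` first hub, `1` second hub, `2` leaf of the first hub,
`3` leaf of the second hub, `4` idle, `5` flagged idle. -/
def kc (adj : Prop) (l l' : Fin 6) : Prop :=
  (l = 0 ∧ l' = 2) ∨ (l = 1 ∧ l' = 3) ∨ (adj ∧ l = 0 ∧ l' = 1)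

/-- A double star decomposition of `K(n,n,c)` indexed by the times `T`. Every vertex outside the
part `0` is the first hub once, every vertex outside the part `1` is the second hub once. The
extra edges `x a`, `y a` join a leaf of the first hub to a leaf of the second hub (`md = false`) or
to an idle vertex (`md = true`); one extra edge is missing at the times in `S`. If `md = true` the
second hub of the time `i` is flagged at the time `π i`. -/
def Core (T : Type) [Fintype T] [DecidableEq T] (n c : ℕ) (md : Bool) (π : Equiv.Perm T)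
    (S : Finset T) : Prop :=
  ∃ (V J : Type) (_ : Fintype V) (_ : Fintype J) (p : V → Fin 3) (adj : Prop)
    (lt : T → V → Fin 6) (τ : J → T) (x y : J → V) (κ : ℕ),
    (∀ P, (univ.filter fun v => p v = P).card = ![n, n, c] P) ∧
    (∀ l i j, (univ.filter fun v => lt i v = l).card = (univ.filter fun v => lt j v = l).card) ∧
    (∀ i v, lt i v = 0 → p v ≠ 0) ∧ (∀ v, p v ≠ 0 → ∃! i, lt i v = 0) ∧
    (∀ i v, lt i v = 1 → p v ≠ 1) ∧ (∀ v, p v ≠ 1 → ∃! i, lt i v = 1) ∧
    (∀ i v, lt (π i) v = 5 ↔ md = true ∧ lt i v = 1) ∧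
    (∀ a, lt (τ a) (x a) = 2 ∧ lt (τ a) (y a) = if md then 4 else 3) ∧
    (∀ a b, τ a = τ b → (x a = x b ∨ y a = y b) → a = b) ∧
    (∀ i, (univ.filter fun a => τ a = i).card + (if i ∈ S then 1 else 0) = κ) ∧
    (∀ i u v, kc adj (lt i u) (lt i v) → p u ≠ p v) ∧ (∀ a, p (x a) ≠ p (y a)) ∧
    ∀ u v, p u < p v → ∃! i, kc adj (lt i u) (lt i v) ∨ kc adj (lt i v) (lt i u) ∨
      ∃ a, τ a = i ∧ ((x a = u ∧ y a = v) ∨ (x a = v ∧ y a = u))

lemma Core.reindex {T T' : Type} [Fintype T] [DecidableEq T] [Fintype T'] [DecidableEq T']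
    {n c : ℕ} {md : Bool} {π : Equiv.Perm T} {S : Finset T} (h : Core T n c md π S) (e : T ≃ T') :
    Core T' n c md (e.permCongr π) (S.map e.toEmbedding) := by
  obtain ⟨V, J, _, _, p, adj, lt, τ, x, y, κ, h1, h2, h3, h4, h5, h6, h7, h8, h9, h10, h11, h12,
    h13⟩ := h
  have ex : ∀ q : T → Prop, (∃! i, q i) → ∃! i, q (e.symm i) := fun q ⟨i, hi, hi'⟩ =>
    ⟨e i, by simpa using hi, fun j hj => by rw [← hi' _ hj, Equiv.apply_symm_apply]⟩
  refine ⟨V, J, inferInstance, inferInstance, p, adj, fun i => lt (e.symm i), fun a => e (τ a), x,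
    y, κ, h1, fun l i j => h2 l _ _, fun i => h3 _, fun v hv => ex _ (h4 v hv), fun i => h5 _,
    fun v hv => ex _ (h6 v hv), fun i v => by simpa using h7 (e.symm i) v,
    fun a => by simpa using h8 a, fun a b h => h9 a b (e.injective h), fun i => ?_,
    fun i => h11 _, h12, fun u v huv => ?_⟩
  · rw [← h10 (e.symm i)]
    simp only [Equiv.eq_symm_apply, mem_map_equiv]
  · simpa only [← Equiv.eq_symm_apply] using ex _ (h13 u v huv)

/-- A core with bridges between leaves, for `t` times, `s` of them lacking one bridge. -/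
def Core0 (t n c s : ℕ) : Prop :=
  ∃ S : Finset (Fin t), S.card = s ∧ ∀ π, Core (Fin t) n c false π S

lemma Core.core0 {T : Type} [Fintype T] [DecidableEq T] {n c : ℕ} {π : Equiv.Perm T}
    {S : Finset T} (h : Core T n c false π S) : Core0 (Fintype.card T) n c S.card := by
  refine ⟨S.map (Fintype.equivFin T).toEmbedding, card_map _, fun π' => ?_⟩
  obtain ⟨V, J, _, _, p, adj, lt, τ, x, y, κ, h1, h2, h3, h4, h5, h6, h7, h8⟩ :=
    h.reindex (Fintype.equivFin T)
  refine ⟨V, J, inferInstance, inferInstance, p, adj, lt, τ, x, y, κ, h1, h2, h3, h4, h5, h6,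
    fun i v => ?_, h8⟩
  obtain ⟨j, hj⟩ := ((Fintype.equivFin T).permCongr π).surjective (π' i)
  rw [← hj, h7]
  simp

end Pool.Agent.Lib.MP_351560_co
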