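import Mathlib
import Pool.Agent.Lib.MP_351560_co.CoreDef

set_option autoImplicit false

namespace Pool.Agent.Lib.MP_351560_co

/-- Rounded up quotient. -/
def cdiv (a b : ℕ) : ℕ := (a + b - 1) / b

/-- The numerical condition of the orientation lemma. -/
def Win (nx ny a0 b0 s0 r0 : ℕ) : Prop :=
  (nx - 1 - b0 - r0) * (ny - 1 - a0 - s0) ≤ max (a0 * b0) (s0 * r0)

instance (nx ny a0 b0 s0 r0 : ℕ) : Decidable (Win nx ny a0 b0 s0 r0) :=
  inferInstanceAs (Decidable (_ ≤ _))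

/-- Conditions for the core with adjacent hubs; `u + w = n * n / t`. -/
def AdjP (t n u w : ℕ) : Prop :=
  6 ≤ n ∧ n < t ∧ t ≤ 2 * n ∧ u + w = n * n / t ∧ 1 ≤ u ∧ 1 ≤ w ∧
  w + 2 + cdiv (u * (t - n)) n ≤ n ∧ u + 2 + cdiv (w * (t - n)) n ≤ n ∧
  3 ≤ w + u * (t - n) / n ∧ 3 ≤ u + w * (t - n) / n ∧
  Win n n (n - 2 - w - cdiv (u * (t - n)) n) (n - 2 - u - cdiv (w * (t - n)) n)
    (w + u * (t - n) / n - 3) (u + w * (t - n) / n - 3)

instance (t n u w : ℕ) : Decidable (AdjP t n u w) :=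
  inferInstanceAs (Decidable (_ ∧ _ ∧ _ ∧ _ ∧ _ ∧ _ ∧ _ ∧ _ ∧ _ ∧ _ ∧ _))

/-- One side of the three step chain core: `u` missed vertices, star size `d` of the other hub,
between `lo` and `hi` status cells and at most `g` bridge cells per line. -/
def G3Side (t n k u d lo hi g : ℕ) : Prop :=
  1 ≤ u ∧ u + k + 2 ≤ n ∧ hi + 1 ≤ d ∧
  if u = 1 then g + (d - 1 - lo) ≤ t - 3 * n ∧
    Win (t - 3 * n) n 1 (t - 3 * n - g - (d - 1 - lo)) (n - 2 - k) (d - 1 - hi)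
  else 4 + g + (d - 1 - lo) ≤ t - n ∧
    Win (t - n) n (u - 1) (t - n - 4 - g - (d - 1 - lo)) (n - 2 - k - u) (d - 1 - hi)

instance (t n k u d lo hi g : ℕ) : Decidable (G3Side t n k u d lo hi g) :=
  inferInstanceAs (Decidable (_ ∧ _ ∧ _ ∧ ite _ _ _))

/-- Conditions for the three step chain core: `k` permanent bridges, `R1` bridge cells in the
first and `R2` in the second layer, `TB` cells of status B. -/
def G3P (t n k u w R1 R2 TB : ℕ) : Prop :=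
  5 ≤ n ∧ 4 * n ≤ t + 1 ∧ u + w = n * n / t + 1 + k ∧
  (k = 0 ∧ R1 + 2 * n + n * n % t = t ∧ R2 = 0 ∨
    k = 1 ∧ R1 + 2 * n = t ∧ R2 + n * n % t = t ∧ R2 < 2 * n) ∧
  TB + 2 * n * (u - 1) + (t - 3 * n) * u = n * (n - w - 1) ∧ R1 + TB + R2 ≤ n * n ∧
  G3Side t n k u (n - w) (TB / n) (cdiv TB n) (cdiv R1 n + cdiv R2 n) ∧
  G3Side t n k w (n - u) ((n * n - R2) / n - cdiv (R1 + TB) n)
    (cdiv (n * n - R2) n - (R1 + TB) / n) (cdiv R1 n + cdiv R2 n)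

instance (t n k u w R1 R2 TB : ℕ) : Decidable (G3P t n k u w R1 R2 TB) :=
  inferInstanceAs (Decidable (_ ∧ _ ∧ _ ∧ (_ ∨ _) ∧ _ ∧ _ ∧ _ ∧ _))

/-- One side of the two step chain core. -/
def Ch2Side (t n k u d lo hi g : ℕ) : Prop :=
  2 ≤ u ∧ u + k + 1 ≤ n ∧ hi + 1 ≤ d ∧ 3 + g + (d - 1 - lo) ≤ t - n ∧
    Win (t - n) n (u - 2) (t - n - 3 - g - (d - 1 - lo)) (n - 1 - k - u) (d - 1 - hi)

instance (t n k u d lo hi g : ℕ) : Decidable (Ch2Side t n k u d lo hi g) :=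
  inferInstanceAs (Decidable (_ ∧ _ ∧ _ ∧ _ ∧ _))

/-- Conditions for the two step chain core. -/
def Ch2P (t n k u w R1 R2 TB : ℕ) : Prop :=
  6 ≤ n ∧ 2 * n < t ∧ t ≤ 4 * n ∧ u + w = n * n / t + 1 + k ∧
  (k = 0 ∧ R1 + 2 * n + n * n % t = t ∧ R2 = 0 ∨
    k = 1 ∧ R1 + 2 * n = t ∧ R2 + n * n % t = t ∧ R2 ≤ 2 * n ∧ 3 * n ≤ R1 + TB ∧
      R1 + TB + 3 * n ≤ n * n) ∧
  TB + n * (u - 2) + (t - 2 * n) * u = n * (n - w - 1) ∧ R1 + TB + R2 ≤ n * n ∧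
  Ch2Side t n k u (n - w) (TB / n) (cdiv TB n) (cdiv R1 n + k) ∧
  Ch2Side t n k w (n - u) ((n * n - R2) / n - cdiv (R1 + TB) n)
    (cdiv (n * n - R2) n - (R1 + TB) / n) (cdiv R1 n + k)

instance (t n k u w R1 R2 TB : ℕ) : Decidable (Ch2P t n k u w R1 R2 TB) :=
  inferInstanceAs (Decidable (_ ∧ _ ∧ _ ∧ _ ∧ (_ ∨ _) ∧ _ ∧ _ ∧ _ ∧ _))

/-- The pairs `(t, n)` whose cores are given by certificates. -/
def CoreList : List (ℕ × ℕ) :=
  [(13, 4), (14, 4), (15, 4), (16, 4), (17, 4), (18, 4), (19, 4), (13, 5), (14, 5), (15, 5), (16,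
   5), (17, 5), (18, 5), (26, 5), (27, 5), (13, 6), (14, 6), (15, 6), (16, 6), (17, 6), (18, 6),
   (19, 6), (20, 6), (21, 6), (22, 6), (23, 6), (13, 7), (14, 7), (15, 7), (16, 7), (17, 7), (18,
   7), (19, 7), (20, 7), (21, 7), (22, 7), (23, 7), (24, 7), (25, 7), (26, 7), (27, 7), (28, 7),
   (29, 7), (30, 7), (31, 7), (13, 8), (14, 8), (15, 8), (16, 8), (17, 8), (18, 8), (19, 8), (21,
   8), (22, 8), (23, 8), (24, 8), (25, 8), (26, 8), (27, 8), (28, 8), (29, 8), (30, 8), (33, 8),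
   (34, 8), (35, 8), (36, 8), (37, 8), (38, 8), (39, 8), (13, 9), (14, 9), (15, 9), (16, 9), (17,
   9), (18, 9), (19, 9), (20, 9), (21, 9), (22, 9), (23, 9), (24, 9), (25, 9), (26, 9), (28, 9),
   (29, 9), (30, 9), (31, 9), (32, 9), (33, 9), (34, 9), (41, 9), (42, 9), (43, 9), (44, 9), (46,
   9), (47, 9), (48, 9), (49, 9), (13, 10), (14, 10), (15, 10), (16, 10), (17, 10), (18, 10), (19,
   10), (20, 10), (21, 10), (22, 10), (23, 10), (24, 10), (26, 10), (27, 10), (28, 10), (29, 10),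
   (34, 10), (35, 10), (36, 10), (37, 10), (38, 10), (39, 10), (13, 11), (14, 11), (15, 11), (16,
   11), (17, 11), (18, 11), (19, 11), (20, 11), (21, 11), (23, 11), (24, 11), (25, 11), (26, 11),
   (27, 11), (28, 11), (31, 11), (32, 11), (34, 11), (35, 11), (43, 11), (45, 11), (46, 11), (47,
   11), (13, 12), (14, 12), (15, 12), (16, 12), (17, 12), (19, 12), (20, 12), (21, 12), (22, 12),
   (23, 12), (25, 12), (26, 12), (27, 12), (29, 12), (30, 12), (31, 12), (32, 12), (33, 12), (37,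
   12), (38, 12), (39, 12), (40, 12), (41, 12), (49, 12), (50, 12), (51, 12), (53, 12), (54, 12),
   (55, 12), (14, 13), (15, 13), (16, 13), (17, 13), (18, 13), (20, 13), (21, 13), (22, 13), (23,
   13), (24, 13), (27, 13), (29, 13), (30, 13), (31, 13), (32, 13), (34, 13), (35, 13), (36, 13),
   (43, 13), (44, 13), (45, 13), (46, 13), (47, 13), (48, 13), (15, 14), (17, 14), (29, 14), (31,
   14), (33, 14), (34, 14), (50, 14), (51, 14), (52, 14), (31, 15)]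

end Pool.Agent.Lib.MP_351560_co
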