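import Mathlib
import Pool.Agent.Lib.MP_351560_co.L2Def

set_option autoImplicit false
set_option linter.unusedVariables false

namespace Pool.Agent.Lib.MP_351560_co

open Finset

namespace CoreAdj

lemma card3 {A B C : Type} [Fintype A] [Fintype B] [Fintype C] (q : A ⊕ B ⊕ C → Prop)
    [DecidablePred q] : (univ.filter q).card = (univ.filter fun a => q (.inl a)).card +
      (univ.filter fun b => q (.inr (.inl b))).card +
      (univ.filter fun c => q (.inr (.inr c))).card := by
  simp only [card_filter, Fintype.sum_sum_type, add_assoc]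

variable {n : ℕ} [NeZero n]

lemma val_eq (k l : ZMod n) {m : ℕ} (hm : m < n) : (l - k).val = m ↔ l = k + (m : ZMod n) := by
  constructor
  · intro h
    rw [← h, ZMod.natCast_zmod_val]
    ring
  · rintro rfl
    rw [add_sub_cancel_left, ZMod.val_natCast, Nat.mod_eq_of_lt hm]

lemma val_neg_add (k l : ZMod n) (h : (l - k).val ≠ 0) : (k - l).val + (l - k).val = n := by
  have h1 : l - k ≠ 0 := fun e => h (by rw [e, ZMod.val_zero])
  have h2 : k - l = -(l - k) := by ring
  rw [h2, ZMod.neg_val, if_neg h1]
  have := ZMod.val_lt (l - k)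
  omega

lemma card_val (Q : ℕ → Prop) [DecidablePred Q] :
    (univ.filter fun z : ZMod n => Q z.val).card = ((range n).filter Q).card := by
  refine card_bij (fun z _ => z.val) (fun z hz => ?_) (fun a _ b _ h => ZMod.val_injective n h)
    (fun m hm => ?_)
  · exact mem_filter.2 ⟨mem_range.2 (ZMod.val_lt z), (mem_filter.1 hz).2⟩
  · obtain ⟨h1, h2⟩ := mem_filter.1 hm
    have h3 : (m : ZMod n).val = m := by rw [ZMod.val_natCast, Nat.mod_eq_of_lt (mem_range.1 h1)]
    exact ⟨m, mem_filter.2 ⟨mem_univ _, by rwa [h3]⟩, h3⟩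

lemma card_row (k : ZMod n) (Q : ℕ → Prop) [DecidablePred Q] :
    (univ.filter fun l : ZMod n => Q (l - k).val).card = ((range n).filter Q).card := by
  rw [← card_val]
  exact card_equiv (Equiv.subRight k) (fun l => by simp)

lemma card_col (l : ZMod n) (Q : ℕ → Prop) [DecidablePred Q] :
    (univ.filter fun k : ZMod n => Q (l - k).val).card = ((range n).filter Q).card := by
  rw [← card_val]
  exact card_equiv (Equiv.subLeft l) (fun k => by simp)

omit [NeZero n] in
lemma card_win {L : ℕ} (h : L < n) : ((range n).filter fun m => 1 ≤ m ∧ m ≤ L).card = L := by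
  have : ((range n).filter fun m => 1 ≤ m ∧ m ≤ L) = Icc 1 L := by
    ext m
    simp only [mem_filter, mem_range, mem_Icc]
    omega
  rw [this, Nat.card_Icc]
  omega

omit [NeZero n] in
lemma card_out {L : ℕ} (h : L < n) : ((range n).filter fun m => L < m).card = n - 1 - L := by
  have : ((range n).filter fun m => L < m) = Ioo L n := by
    ext m
    simp only [mem_filter, mem_range, mem_Ioo]
    omega
  rw [this, Nat.card_Ioo]
  omega

omit [NeZero n] in
lemma card_ok (h : 5 ≤ n) (r0 r2 r4 : Prop) [Decidable r0] [Decidable r2] [Decidable r4] :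
    ((range n).filter fun m => m ≠ 1 ∧ m ≠ 3 ∧ ¬ (m = 4 ∧ r4) ∧ ¬ (m = 2 ∧ r2) ∧
      ¬ (m = 0 ∧ r0)).card + 2 + (if r4 then 1 else 0) + (if r2 then 1 else 0) +
      (if r0 then 1 else 0) = n := by
  obtain ⟨d, rfl⟩ : ∃ d, n = 5 + d := ⟨n - 5, by omega⟩
  rw [card_filter, sum_range_add]
  have h1 : ∑ x ∈ range d, (if 5 + x ≠ 1 ∧ 5 + x ≠ 3 ∧ ¬ (5 + x = 4 ∧ r4) ∧ ¬ (5 + x = 2 ∧ r2) ∧
      ¬ (5 + x = 0 ∧ r0) then 1 else 0) = d := by
    rw [sum_congr rfl (g := fun _ => 1) (fun x _ => if_pos ⟨by omega, by omega,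
      fun h => by omega, fun h => by omega, fun h => by omega⟩)]
    simp
  rw [h1]
  simp only [sum_range_succ, sum_range_zero]
  by_cases a : r0 <;> by_cases b : r2 <;> by_cases c : r4 <;> simp [a, b, c] <;> omega

/-- A balanced subset of the cycle. -/
lemma exists_bal {c : ℕ} (hc : c ≤ n) : ∃ P : Finset (ZMod n), P.card = c ∧
    ∀ (k : ZMod n) (L : ℕ), L * c / n ≤ ((range L).filter fun r : ℕ => k + r ∈ P).card ∧
      ((range L).filter fun r : ℕ => k + r ∈ P).card ≤ cdiv (L * c) n := by
  have hn : 0 < n := Nat.pos_of_ne_zero (NeZero.ne n)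
  have h1 : ∀ m, m * c / n ≤ (m + 1) * c / n ∧ (m + 1) * c / n ≤ m * c / n + 1 := fun m => by
    refine ⟨Nat.div_le_div_right (by nlinarith), ?_⟩
    rw [← Nat.add_div_right _ hn]
    exact Nat.div_le_div_right (by nlinarith)
  have h2 : ∀ m, (m % n + 1) * c / n = m % n * c / n + 1 ↔ (m + 1) * c / n = m * c / n + 1 :=
    fun m => by
      have e1 : m * c = m % n * c + n * (m / n * c) := by
        conv_lhs => rw [← Nat.mod_add_div m n]
        ring
      have e2 : (m + 1) * c = (m % n + 1) * c + n * (m / n * c) := by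
        rw [add_mul, add_mul, e1]
        ring
      rw [e2, e1, Nat.add_mul_div_left _ _ hn, Nat.add_mul_div_left _ _ hn]
      omega
  have h3 : ∀ m L, ((range L).filter fun r => (m + r + 1) * c / n = (m + r) * c / n + 1).card +
      m * c / n = (m + L) * c / n := fun m L => by
    induction L with
    | zero => simp
    | succ L ih =>
      rw [range_add_one, filter_insert]
      have := h1 (m + L)
      split_ifs with h
      · rw [card_insert_of_notMem (by simp), ← add_assoc, h]
        omega
      · rw [← add_assoc]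
        omega
  refine ⟨univ.filter fun z => (z.val + 1) * c / n = z.val * c / n + 1, ?_, fun k L => ?_⟩
  · rw [card_val fun m => (m + 1) * c / n = m * c / n + 1]
    have := h3 0 n
    simp only [zero_add, zero_mul, Nat.zero_div, add_zero] at this
    rw [this, Nat.mul_div_cancel_left _ hn]
  · have e : ((range L).filter fun r : ℕ => k + r ∈ univ.filter fun z : ZMod n =>
        (z.val + 1) * c / n = z.val * c / n + 1) = (range L).filter fun r =>
        (k.val + r + 1) * c / n = (k.val + r) * c / n + 1 := by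
      refine filter_congr fun r _ => ?_
      rw [mem_filter, ← h2 (k.val + r), ZMod.val_add, ZMod.val_natCast, Nat.add_mod_mod]
      simp
    rw [e]
    have h4 := h3 k.val L
    rw [add_mul] at h4
    have h5 : k.val * c / n + L * c / n ≤ (k.val * c + L * c) / n := Nat.div_add_div_le_add_div
    have h6 : ∀ a b : ℕ, (a + b) / n ≤ a / n + cdiv b n := fun a b => by
      unfold cdiv
      refine Nat.le_of_lt_succ ((Nat.div_lt_iff_lt_mul hn).2 ?_)
      have e1 := Nat.div_add_mod a n
      have e2 := Nat.div_add_mod (b + n - 1) n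
      have e3 := Nat.mod_lt a hn
      have e4 := Nat.mod_lt (b + n - 1) hn
      have e5 : (a / n + (b + n - 1) / n).succ * n =
          n * (a / n) + n * ((b + n - 1) / n) + n := by
        rw [Nat.succ_eq_add_one]
        ring
      omega
    have h7 := h6 (k.val * c) (L * c)
    omega

end CoreAdj

end Pool.Agent.Lib.MP_351560_co
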