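import Mathlib
import Pool.Agent.Lib.MP_351560_co.CoreDef

set_option autoImplicit false
set_option linter.unusedVariables false

namespace Pool.Agent.Lib.MP_351560_co

open Finset

namespace CoreMk

/-- a covering whose total size is at most the size of the covered set is a partition -/
lemma unique_of_count {T E : Type} [Fintype T] [DecidableEq T] (s : Finset E) (R : T → E → Prop)
    [∀ i e, Decidable (R i e)] (hc : ∀ e ∈ s, ∃ i, R i e)
    (hn : ∑ i, (s.filter fun e => R i e).card ≤ s.card) : ∀ e ∈ s, ∃! i, R i e := by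
  have h1 : ∑ i, (s.filter fun e => R i e).card
      = ∑ e ∈ s, (univ.filter fun i => R i e).card := by
    simp only [card_filter]
    exact sum_comm
  have h2 : ∀ e ∈ s, 1 ≤ (univ.filter fun i => R i e).card := fun e he => by
    obtain ⟨i, hi⟩ := hc e he
    exact card_pos.2 ⟨i, mem_filter.2 ⟨mem_univ _, hi⟩⟩
  rw [h1, card_eq_sum_ones s] at hn
  have h3 := (sum_eq_sum_iff_of_le h2).1 (le_antisymm (sum_le_sum h2) hn)
  intro e he
  obtain ⟨i, hi⟩ := card_eq_one.1 (h3 e he).symm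
  have h4 : ∀ j, R j e ↔ j = i := fun j => by
    rw [← mem_singleton, ← hi, mem_filter]
    simp
  exact ⟨i, (h4 i).2 rfl, fun j hj => (h4 j).1 hj⟩

lemma sum_part {V : Type} [Fintype V] {n c : ℕ} (p : V → Fin 3)
    (hp : ∀ P, (univ.filter fun v => p v = P).card = ![n, n, c] P) (g : Fin 3 → ℕ) :
    ∑ v, g (p v) = n * g 0 + n * g 1 + c * g 2 := by
  rw [← sum_fiberwise univ p (fun v => g (p v))]
  have : ∀ P, ∑ v ∈ univ.filter (fun v => p v = P), g (p v) = ![n, n, c] P * g P := fun P => by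
    rw [sum_congr rfl (g := fun _ => g P) (fun v hv => by rw [(mem_filter.1 hv).2]), sum_const,
      hp, smul_eq_mul]
  simp only [this, Fin.sum_univ_three]
  rfl

lemma card_edges {V : Type} [Fintype V] {n c : ℕ} (p : V → Fin 3)
    (hp : ∀ P, (univ.filter fun v => p v = P).card = ![n, n, c] P) :
    (univ.filter fun e : V × V => p e.1 < p e.2).card = n * n + 2 * (n * c) := by
  rw [card_filter, Fintype.sum_prod_type]
  have h1 : ∀ u, ∑ v, (if p u < p v then 1 else 0) = ![n + c, c, 0] (p u) := fun u => by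
    rw [sum_part p hp (fun Q => if p u < Q then 1 else 0)]
    generalize p u = P
    fin_cases P <;> simp
  simp only [h1]
  rw [sum_part p hp (fun Q => ![n + c, c, 0] Q)]
  simp
  ring

end CoreMk

open CoreMk in
/-- MK: a core from hubs, leaf sets and extra edges; uniqueness follows by counting. -/
theorem Core.mk_sets {T V J : Type} [Fintype T] [DecidableEq T] [Fintype V] [DecidableEq V]
    [Fintype J] {n c : ℕ} (md : Bool) (π : Equiv.Perm T) (S : Finset T) (p : V → Fin 3)
    (hp : ∀ P, (univ.filter fun v => p v = P).card = ![n, n, c] P) (adj : Bool)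
    (hA hB : T → V) (LA LB : T → Finset V) (dA dB κ : ℕ) (τ : J → T) (x y : J → V)
    (iA : Function.Injective hA) (iB : Function.Injective hB)
    (rA : ∀ v, p v ≠ 0 ↔ ∃ i, hA i = v) (rB : ∀ v, p v ≠ 1 ↔ ∃ i, hB i = v)
    (hne : ∀ i, hA i ≠ hB i) (hadj : adj = true → ∀ i, p (hA i) ≠ p (hB i))
    (cA : ∀ i, (LA i).card = dA) (cB : ∀ i, (LB i).card = dB) (hd : ∀ i, Disjoint (LA i) (LB i))
    (pA : ∀ i, ∀ v ∈ LA i, p v ≠ p (hA i) ∧ v ≠ hB i)
    (pB : ∀ i, ∀ v ∈ LB i, p v ≠ p (hB i) ∧ v ≠ hA i)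
    (hF : md = true → ∀ i, hB i ≠ hA (π i) ∧ hB i ≠ hB (π i) ∧ hB i ∉ LA (π i) ∧ hB i ∉ LB (π i))
    (hx : ∀ a, x a ∈ LA (τ a)) (hy0 : md = false → ∀ a, y a ∈ LB (τ a))
    (hy1 : md = true → ∀ a, y a ≠ hA (τ a) ∧ y a ≠ hB (τ a) ∧ y a ∉ LA (τ a) ∧ y a ∉ LB (τ a) ∧
      y a ≠ hB (π.symm (τ a)))
    (hJ : ∀ a b, τ a = τ b → (x a = x b ∨ y a = y b) → a = b)
    (hκ : ∀ i, (univ.filter fun a => τ a = i).card + (if i ∈ S then 1 else 0) = κ)
    (hxy : ∀ a, p (x a) ≠ p (y a))
    (hcount : Fintype.card T * (dA + dB + (if adj then 1 else 0) + κ) = n * n + 2 * (n * c) + S.card)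
    (hcov : ∀ u v, p u < p v → (∃ i, (hA i = u ∧ v ∈ LA i) ∨ (hA i = v ∧ u ∈ LA i) ∨
        (hB i = u ∧ v ∈ LB i) ∨ (hB i = v ∧ u ∈ LB i) ∨
        (adj = true ∧ ((hA i = u ∧ hB i = v) ∨ (hA i = v ∧ hB i = u)))) ∨
      ∃ a, (x a = u ∧ y a = v) ∨ (x a = v ∧ y a = u)) :
    Core T n c md π S := by
  classical
  obtain ⟨lt, l0, l1, l2, l3, l5⟩ : ∃ lt : T → V → Fin 6, (∀ i v, lt i v = 0 ↔ hA i = v) ∧
      (∀ i v, lt i v = 1 ↔ hB i = v) ∧ (∀ i v, lt i v = 2 ↔ v ∈ LA i) ∧
      (∀ i v, lt i v = 3 ↔ v ∈ LB i) ∧ ∀ i v, lt i v = 5 ↔ md = true ∧ hB (π.symm i) = v := by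
    have a1 : ∀ i, hA i ∉ LA i := fun i h => (pA i _ h).1 rfl
    have a2 : ∀ i, hB i ∉ LA i := fun i h => (pA i _ h).2 rfl
    have a3 : ∀ i, hB i ∉ LB i := fun i h => (pB i _ h).1 rfl
    have a4 : ∀ i, hA i ∉ LB i := fun i h => (pB i _ h).2 rfl
    have a5 : ∀ i v, v ∈ LA i → v ∉ LB i := fun i v h => disjoint_left.1 (hd i) h
    have a6 : md = true → ∀ i, hB (π.symm i) ≠ hA i ∧ hB (π.symm i) ≠ hB i ∧
        hB (π.symm i) ∉ LA i ∧ hB (π.symm i) ∉ LB i := fun h i => by
      simpa using hF h (π.symm i)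
    refine ⟨fun i v => if hA i = v then 0 else if hB i = v then 1 else if v ∈ LA i then 2 else
      if v ∈ LB i then 3 else if md = true ∧ hB (π.symm i) = v then 5 else 4,
      fun i v => ?_, fun i v => ?_, fun i v => ?_, fun i v => ?_, fun i v => ?_⟩
    · beta_reduce
      split_ifs with b1 b2 b3 b4 b5
      · exact ⟨fun _ => b1, fun _ => rfl⟩
      all_goals exact ⟨fun h => absurd h (by decide), fun h => absurd h b1⟩
    · beta_reduce
      split_ifs with b1 b2 b3 b4 b5
      · exact ⟨fun h => absurd h (by decide), fun h => absurd (b1.trans h.symm) (hne i)⟩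
      · exact ⟨fun _ => b2, fun _ => rfl⟩
      all_goals exact ⟨fun h => absurd h (by decide), fun h => absurd h b2⟩
    · beta_reduce
      split_ifs with b1 b2 b3 b4 b5
      · exact ⟨fun h => absurd h (by decide), fun h => absurd (b1 ▸ h) (a1 i)⟩
      · exact ⟨fun h => absurd h (by decide), fun h => absurd (b2 ▸ h) (a2 i)⟩
      · exact ⟨fun _ => b3, fun _ => rfl⟩
      all_goals exact ⟨fun h => absurd h (by decide), fun h => absurd h b3⟩
    · beta_reduce
      split_ifs with b1 b2 b3 b4 b5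
      · exact ⟨fun h => absurd h (by decide), fun h => absurd (b1 ▸ h) (a4 i)⟩
      · exact ⟨fun h => absurd h (by decide), fun h => absurd (b2 ▸ h) (a3 i)⟩
      · exact ⟨fun h => absurd h (by decide), fun h => absurd h (a5 i v b3)⟩
      · exact ⟨fun _ => b4, fun _ => rfl⟩
      all_goals exact ⟨fun h => absurd h (by decide), fun h => absurd h b4⟩
    · beta_reduce
      split_ifs with b1 b2 b3 b4 b5
      · exact ⟨fun h => absurd h (by decide), fun h => absurd (h.2.trans b1.symm) (a6 h.1 i).1⟩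
      · exact ⟨fun h => absurd h (by decide), fun h => absurd (h.2.trans b2.symm) (a6 h.1 i).2.1⟩
      · exact ⟨fun h => absurd h (by decide), fun h => absurd (h.2 ▸ b3) (a6 h.1 i).2.2.1⟩
      · exact ⟨fun h => absurd h (by decide), fun h => absurd (h.2 ▸ b4) (a6 h.1 i).2.2.2⟩
      · exact ⟨fun _ => b5, fun _ => rfl⟩
      · exact ⟨fun h => absurd h (by decide), fun h => absurd h b5⟩
  have kc' : ∀ i u v, kc (adj = true) (lt i u) (lt i v) ↔ (hA i = u ∧ v ∈ LA i) ∨
      (hB i = u ∧ v ∈ LB i) ∨ (adj = true ∧ hA i = u ∧ hB i = v) := fun i u v => by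
    rw [kc, l0, l1, l1, l2, l3]
  have c0 : ∀ i, (univ.filter fun v => lt i v = 0).card = 1 := fun i => by
    simp only [l0]
    exact card_eq_one.2 ⟨hA i, by ext v; simp [eq_comm]⟩
  have c1 : ∀ i, (univ.filter fun v => lt i v = 1).card = 1 := fun i => by
    simp only [l1]
    exact card_eq_one.2 ⟨hB i, by ext v; simp [eq_comm]⟩
  have c2 : ∀ i, (univ.filter fun v => lt i v = 2).card = dA := fun i => by
    simp only [l2]
    rw [← cA i]
    congr 1
    ext v
    simp
  have c3 : ∀ i, (univ.filter fun v => lt i v = 3).card = dB := fun i => by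
    simp only [l3]
    rw [← cB i]
    congr 1
    ext v
    simp
  have c5 : ∀ i, (univ.filter fun v => lt i v = 5).card = if md = true then 1 else 0 := fun i => by
    simp only [l5]
    split_ifs with h
    · exact card_eq_one.2 ⟨hB (π.symm i), by ext v; simp [h, eq_comm]⟩
    · simp [h]
  have ct : ∀ i, Fintype.card V = ∑ l, (univ.filter fun v => lt i v = l).card := fun i => by
    rw [← card_univ, card_eq_sum_card_fiberwise (f := lt i) (t := univ) (fun _ _ => by simp)]
  refine ⟨V, J, inferInstance, inferInstance, p, adj = true, lt, τ, x, y, κ, hp, fun l i j => ?_,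
    fun i v h => (rA v).2 ⟨i, (l0 i v).1 h⟩, fun v hv => ?_,
    fun i v h => (rB v).2 ⟨i, (l1 i v).1 h⟩, fun v hv => ?_, fun i v => ?_, fun a => ?_, hJ, hκ,
    fun i u v h => ?_, hxy, fun u v huv => ?_⟩
  · have e := (ct i).symm.trans (ct j)
    simp only [Fin.sum_univ_six, c0, c1, c2, c3, c5] at e
    have l6 : l = 0 ∨ l = 1 ∨ l = 2 ∨ l = 3 ∨ l = 4 ∨ l = 5 := by
      revert l
      decide
    rcases l6 with rfl | rfl | rfl | rfl | rfl | rfl
    · rw [c0, c0]
    · rw [c1, c1]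
    · rw [c2, c2]
    · rw [c3, c3]
    · omega
    · rw [c5, c5]
  · obtain ⟨i, hi⟩ := (rA v).1 hv
    exact ⟨i, (l0 i v).2 hi, fun j hj => iA (((l0 j v).1 hj).trans hi.symm)⟩
  · obtain ⟨i, hi⟩ := (rB v).1 hv
    exact ⟨i, (l1 i v).2 hi, fun j hj => iB (((l1 j v).1 hj).trans hi.symm)⟩
  · rw [l5, l1, Equiv.symm_apply_apply]
  · refine ⟨(l2 _ _).2 (hx a), ?_⟩
    cases md with
    | false => exact (l3 _ _).2 (hy0 rfl a)
    | true =>
      obtain ⟨b0, b1, b2, b3, b5⟩ := hy1 rfl a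
      have d0 := mt (l0 (τ a) (y a)).1 b0.symm
      have d1 := mt (l1 (τ a) (y a)).1 b1.symm
      have d2 := mt (l2 (τ a) (y a)).1 b2
      have d3 := mt (l3 (τ a) (y a)).1 b3
      have d5 := mt (l5 (τ a) (y a)).1 fun h => b5 h.2.symm
      revert d0 d1 d2 d3 d5
      generalize lt (τ a) (y a) = l
      revert l
      decide
  · rcases (kc' i u v).1 h with ⟨rfl, k⟩ | ⟨rfl, k⟩ | ⟨k, rfl, rfl⟩
    · exact (pA i v k).1.symm
    · exact (pB i v k).1.symm
    · exact hadj k i
  · refine unique_of_count (univ.filter fun e : V × V => p e.1 < p e.2)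
      (fun i e => kc (adj = true) (lt i e.1) (lt i e.2) ∨ kc (adj = true) (lt i e.2) (lt i e.1) ∨
        ∃ a, τ a = i ∧ ((x a = e.1 ∧ y a = e.2) ∨ (x a = e.2 ∧ y a = e.1))) ?_ ?_ (u, v)
      (mem_filter.2 ⟨mem_univ _, huv⟩)
    · rintro ⟨u, v⟩ he
      simp only [kc']
      rcases hcov u v (mem_filter.1 he).2 with ⟨i, h⟩ | ⟨a, h⟩
      · refine ⟨i, ?_⟩
        rcases h with h | h | h | h | ⟨k, h | h⟩
        · exact Or.inl (Or.inl h)
        · exact Or.inr (Or.inl (Or.inl h))
        · exact Or.inl (Or.inr (Or.inl h))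
        · exact Or.inr (Or.inl (Or.inr (Or.inl h)))
        · exact Or.inl (Or.inr (Or.inr ⟨k, h⟩))
        · exact Or.inr (Or.inl (Or.inr (Or.inr ⟨k, h⟩)))
      · exact ⟨τ a, Or.inr (Or.inr ⟨a, rfl, h⟩)⟩
    · rw [card_edges p hp]
      set o : V → V → V × V := fun u v => if p u < p v then (u, v) else (v, u) with ho
      have o1 : ∀ u v, p u < p v → o u v = (u, v) := fun u v h => if_pos h
      have o2 : ∀ u v, p u < p v → o v u = (u, v) := fun u v h => if_neg h.not_gt
      have hb : ∀ i, ((univ.filter fun e : V × V => p e.1 < p e.2).filter fun e =>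
          kc (adj = true) (lt i e.1) (lt i e.2) ∨ kc (adj = true) (lt i e.2) (lt i e.1) ∨
          ∃ a, τ a = i ∧ ((x a = e.1 ∧ y a = e.2) ∨ (x a = e.2 ∧ y a = e.1))).card
          ≤ dA + dB + (if adj then 1 else 0) + (univ.filter fun a => τ a = i).card := by
        intro i
        refine (card_le_card (t := (LA i).image (o (hA i)) ∪ (LB i).image (o (hB i)) ∪
          (if adj then {o (hA i) (hB i)} else ∅) ∪
          (univ.filter fun a => τ a = i).image fun a => o (x a) (y a)) ?_).trans ?_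
        · rintro ⟨u, v⟩ he
          obtain ⟨e1, e2⟩ := mem_filter.1 he
          have e3 : p u < p v := (mem_filter.1 e1).2
          simp only [kc'] at e2
          simp only [mem_union, mem_image]
          rcases e2 with (⟨rfl, h⟩ | ⟨rfl, h⟩ | ⟨h, rfl, rfl⟩) | (⟨rfl, h⟩ | ⟨rfl, h⟩ |
            ⟨h, rfl, rfl⟩) | ⟨a, rfl, ⟨rfl, rfl⟩ | ⟨rfl, rfl⟩⟩
          · exact Or.inl (Or.inl (Or.inl ⟨_, h, o1 _ _ e3⟩))
          · exact Or.inl (Or.inl (Or.inr ⟨_, h, o1 _ _ e3⟩))
          · exact Or.inl (Or.inr (by rw [if_pos h, o1 _ _ e3]; exact mem_singleton_self _))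
          · exact Or.inl (Or.inl (Or.inl ⟨_, h, o2 _ _ e3⟩))
          · exact Or.inl (Or.inl (Or.inr ⟨_, h, o2 _ _ e3⟩))
          · exact Or.inl (Or.inr (by rw [if_pos h, o2 _ _ e3]; exact mem_singleton_self _))
          · exact Or.inr ⟨a, by simp, o1 _ _ e3⟩
          · exact Or.inr ⟨a, by simp, o2 _ _ e3⟩
        · refine (card_union_le _ _).trans (add_le_add ((card_union_le _ _).trans (add_le_add
            ((card_union_le _ _).trans (add_le_add (card_image_le.trans (cA i).le)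
              (card_image_le.trans (cB i).le))) ?_)) card_image_le)
          split_ifs <;> simp
      refine (sum_le_sum fun i _ => hb i).trans ?_
      have h1 : ∑ i, ((univ.filter fun a => τ a = i).card + (if i ∈ S then 1 else 0))
          = Fintype.card T * κ := by
        simp only [hκ, sum_const, card_univ, smul_eq_mul]
      have h2 : ∑ i, (if i ∈ S then 1 else 0) = S.card := by simp
      rw [sum_add_distrib, h2] at h1
      rw [sum_add_distrib, sum_const, card_univ, smul_eq_mul]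
      rw [mul_add] at hcount
      omega

end Pool.Agent.Lib.MP_351560_co
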