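import Mathlib
import Pool.Agent.Lib.MP_351560_co.AdjWin
import Pool.Agent.Lib.MP_351560_co.CoreMk

set_option autoImplicit false
set_option linter.unusedVariables false
set_option linter.unusedSimpArgs false

namespace Pool.Agent.Lib.MP_351560_co

open Finset

namespace CoreAdj

variable {n : ℕ} [NeZero n]

/-- `y` is one of `x + 1, ..., x + L`. -/
def Wd (L : ℕ) (x y : ZMod n) : Prop := 1 ≤ (y - x).val ∧ (y - x).val ≤ L

instance (L : ℕ) (x y : ZMod n) : Decidable (Wd L x y) := inferInstanceAs (Decidable (_ ∧ _))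

lemma wd_row {L : ℕ} (hL : L < n) (x : ZMod n) : (univ.filter fun y => Wd L x y).card = L :=
  (card_row x fun m => 1 ≤ m ∧ m ≤ L).trans (card_win hL)

lemma wd_col {L : ℕ} (hL : L < n) (y : ZMod n) : (univ.filter fun x => Wd L x y).card = L :=
  (card_col y fun m => 1 ≤ m ∧ m ≤ L).trans (card_win hL)

lemma out_row {L : ℕ} (hL : L < n) (x : ZMod n) :
    (univ.filter fun y => L < (y - x).val).card = n - 1 - L :=
  (card_row x fun m => L < m).trans (card_out hL)

lemma out_col {L : ℕ} (hL : L < n) (y : ZMod n) :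
    (univ.filter fun x => L < (y - x).val).card = n - 1 - L :=
  (card_col y fun m => L < m).trans (card_out hL)

lemma cnt_right (P : Finset (ZMod n)) {L : ℕ} (hL : L < n) (l : ZMod n) :
    (univ.filter fun p : P => Wd L l p).card =
      ((range L).filter fun r : ℕ => l + 1 + r ∈ P).card := by
  symm
  refine card_bij (fun r hr => ⟨l + 1 + r, (mem_filter.1 hr).2⟩) (fun r hr => ?_)
    (fun a ha b hb h => ?_) (fun p hp => ?_)
  · have h1 := mem_range.1 (mem_filter.1 hr).1
    have h2 : (l + 1 + r - l).val = r + 1 :=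
      (val_eq l _ (by omega)).2 (by push_cast; ring)
    exact mem_filter.2 ⟨mem_univ _, by simp only [Wd, h2]; omega⟩
  · have h1 := mem_range.1 (mem_filter.1 ha).1
    have h2 := mem_range.1 (mem_filter.1 hb).1
    have h3 : (a : ZMod n) = b := add_left_cancel (congrArg Subtype.val h)
    have h4 := congrArg ZMod.val h3
    rwa [ZMod.val_natCast, ZMod.val_natCast, Nat.mod_eq_of_lt (by omega),
      Nat.mod_eq_of_lt (by omega)] at h4
  · obtain ⟨h1, h2⟩ := (mem_filter.1 hp).2
    have h3 : (p : ZMod n) = l + (((p : ZMod n) - l).val : ℕ) :=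
      (val_eq l _ (ZMod.val_lt _)).1 rfl
    have h4 : l + 1 + ((((p : ZMod n) - l).val - 1 : ℕ) : ZMod n) = p := by
      rw [Nat.cast_sub h1]
      conv_rhs => rw [h3]
      push_cast
      ring
    exact ⟨((p : ZMod n) - l).val - 1, mem_filter.2 ⟨mem_range.2 (by omega), by rw [h4]; exact p.2⟩,
      Subtype.ext h4⟩

lemma cnt_left (P : Finset (ZMod n)) {L : ℕ} (hL : L < n) (k : ZMod n) :
    (univ.filter fun p : P => Wd L p k).card =
      ((range L).filter fun r : ℕ => k - L + r ∈ P).card := by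
  have h1 := cnt_right P hL (k - L - 1)
  have h2 : k - L - 1 + 1 = k - L := by ring
  rw [h2] at h1
  rw [← h1]
  congr 1
  refine filter_congr fun p _ => ?_
  have key : ∀ a b : ZMod n, a + b = ((L + 1 : ℕ) : ZMod n) → 1 ≤ a.val → a.val ≤ L →
      1 ≤ b.val ∧ b.val ≤ L := fun a b h h3 h4 => by
    have h5 : b = ((L + 1 - a.val : ℕ) : ZMod n) := by
      rw [Nat.cast_sub (by omega), ← h, ZMod.natCast_zmod_val]
      ring
    rw [h5, ZMod.val_natCast, Nat.mod_eq_of_lt (by omega)]
    omega
  exact ⟨fun h => key (k - p) _ (by push_cast; ring) h.1 h.2,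
    fun h => key (p - (k - L - 1)) _ (by push_cast; ring) h.1 h.2⟩

lemma sum_right (P : Finset (ZMod n)) {L : ℕ} (hL : L < n) :
    ∑ l : ZMod n, (univ.filter fun p : P => Wd L l p).card = P.card * L := by
  simp only [card_filter]
  rw [sum_comm]
  simp only [← card_filter]
  refine (sum_congr rfl (g := fun _ => L) fun (p : P) _ => wd_col hL (p : ZMod n)).trans ?_
  simp

lemma sum_left (P : Finset (ZMod n)) {L : ℕ} (hL : L < n) :
    ∑ k : ZMod n, (univ.filter fun p : P => Wd L (p : ZMod n) k).card = P.card * L := by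
  simp only [card_filter]
  rw [sum_comm]
  simp only [← card_filter]
  refine (sum_congr rfl (g := fun _ => L) fun (p : P) _ => wd_row hL (p : ZMod n)).trans ?_
  simp

/-- The cells which are oriented freely. -/
def Ok (P : Finset (ZMod n)) (S : Finset (ZMod n ⊕ P)) (k l : ZMod n) : Prop :=
  (l - k).val ≠ 1 ∧ (l - k).val ≠ 3 ∧ ¬ ((l - k).val = 4 ∧ Sum.inl (k + 3) ∉ S) ∧
    ¬ ((l - k).val = 2 ∧ ∃ h : k + 1 ∈ P, Sum.inr ⟨k + 1, h⟩ ∉ S) ∧ ¬ ((l - k).val = 0 ∧ k ∉ P)

instance (P : Finset (ZMod n)) (S : Finset (ZMod n ⊕ P)) : DecidableRel (Ok P S) :=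
  fun _ _ => inferInstanceAs (Decidable (_ ∧ _ ∧ _ ∧ _ ∧ _))

lemma ok_row (hn : 6 ≤ n) (P : Finset (ZMod n)) (S : Finset (ZMod n ⊕ P)) (k : ZMod n) :
    n - 5 ≤ (univ.filter fun l => Ok P S k l).card := by
  have h := (card_row k fun m => 4 < m).trans (card_out (by omega))
  refine le_trans (by omega) (h.symm.le.trans (card_le_card fun l hl => ?_))
  have h1 := (mem_filter.1 hl).2
  exact mem_filter.2 ⟨mem_univ _, by omega, by omega, fun h => by omega, fun h => by omega,
    fun h => by omega⟩

lemma ok_col (hn : 6 ≤ n) (P : Finset (ZMod n)) (S : Finset (ZMod n ⊕ P)) (l : ZMod n) :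
    n - 5 ≤ (univ.filter fun k => Ok P S k l).card := by
  have h := (card_col l fun m => 4 < m).trans (card_out (by omega))
  refine le_trans (by omega) (h.symm.le.trans (card_le_card fun k hk => ?_))
  have h1 := (mem_filter.1 hk).2
  exact mem_filter.2 ⟨mem_univ _, by omega, by omega, fun h => by omega, fun h => by omega,
    fun h => by omega⟩

lemma ok_sum (hn : 6 ≤ n) (P : Finset (ZMod n)) (S : Finset (ZMod n ⊕ P)) :
    ∑ k, (univ.filter fun l => Ok P S k l).card + 4 * n = n * n + S.card := by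
  have h1 : ∀ k : ZMod n, (univ.filter fun l => Ok P S k l).card + 2 +
      (if Sum.inl (k + 3) ∉ S then 1 else 0) +
      (if ∃ h : k + 1 ∈ P, Sum.inr ⟨k + 1, h⟩ ∉ S then 1 else 0) +
      (if k ∉ P then 1 else 0) = n := fun k => by
    have e := card_ok (n := n) (by omega) (k ∉ P) (∃ h : k + 1 ∈ P, Sum.inr ⟨k + 1, h⟩ ∉ S)
      (Sum.inl (k + 3) ∉ S)
    rw [← card_row k] at e
    exact e
  have h2 := sum_congr rfl fun k (_ : k ∈ (univ : Finset (ZMod n))) => h1 k
  simp only [sum_add_distrib, sum_const, card_univ, ZMod.card, smul_eq_mul] at h2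
  have h3 : ∑ k : ZMod n, (if Sum.inl (k + 3) ∉ S then 1 else 0) =
      ∑ k : ZMod n, (if Sum.inl k ∉ S then 1 else 0) :=
    Equiv.sum_comp (Equiv.addRight (3 : ZMod n)) fun k => if Sum.inl k ∉ S then 1 else 0
  have h4 : ∑ k : ZMod n, (if ∃ h : k + 1 ∈ P, Sum.inr ⟨k + 1, h⟩ ∉ S then 1 else 0) =
      ∑ k : P, (if Sum.inr k ∉ S then 1 else 0) := by
    refine (Equiv.sum_comp (Equiv.addRight (1 : ZMod n))
      fun k => if ∃ h : k ∈ P, Sum.inr ⟨k, h⟩ ∉ S then 1 else 0).trans ?_
    rw [← card_filter, ← card_filter]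
    symm
    refine card_bij (fun p _ => (p : ZMod n)) (fun p hp => ?_) (fun a _ b _ h => Subtype.ext h)
      (fun k hk => ?_)
    · exact mem_filter.2 ⟨mem_univ _, p.2, (mem_filter.1 hp).2⟩
    · obtain ⟨h, h'⟩ := (mem_filter.1 hk).2
      exact ⟨⟨k, h⟩, mem_filter.2 ⟨mem_univ _, h'⟩, rfl⟩
  have h5 : ∑ k : ZMod n, (if k ∉ P then 1 else 0) + P.card = n := by
    rw [← card_filter]
    have := card_compl_add_card P
    rw [ZMod.card] at this
    convert this using 3
    ext k
    simp
  have h6 : ∑ i : ZMod n ⊕ P, (if i ∉ S then 1 else 0) + S.card = n + P.card := by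
    rw [← card_filter]
    have := card_compl_add_card S
    rw [Fintype.card_sum, ZMod.card, Fintype.card_coe] at this
    convert this using 3
    ext k
    simp
  rw [Fintype.sum_sum_type] at h6
  omega

section Build

variable (P : Finset (ZMod n)) (S : Finset (ZMod n ⊕ P)) (u w : ℕ) (f : ZMod n → ZMod n → Bool)

/-- parts -/
def pt : ZMod n ⊕ ZMod n ⊕ P → Fin 3
  | .inl _ => 0
  | .inr (.inl _) => 1
  | .inr (.inr _) => 2

/-- first hubs -/
def hbA : ZMod n ⊕ P → ZMod n ⊕ ZMod n ⊕ P
  | .inl j => .inr (.inl j)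
  | .inr q => .inr (.inr q)

/-- second hubs -/
def hbB : ZMod n ⊕ P → ZMod n ⊕ ZMod n ⊕ P
  | .inl j => if h : j ∈ P then .inr (.inr ⟨j, h⟩) else .inl j
  | .inr q => .inl q

/-- leaves of the first hub -/
def mA : ZMod n ⊕ P → ZMod n ⊕ ZMod n ⊕ P → Prop
  | .inl j, .inl k => (j - k).val = 3 ∨ (Ok P S k j ∧ f k j = false)
  | .inl _, .inr (.inl _) => False
  | .inl j, .inr (.inr p) => Wd w j p
  | .inr q, .inl k => u < (k - q).val
  | .inr _, .inr _ => False

/-- leaves of `a j` -/
def mBa (j : ZMod n) : ZMod n ⊕ ZMod n ⊕ P → Prop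
  | .inl _ => False
  | .inr (.inl l) => (l - j).val = 1 ∨ (Ok P S j l ∧ f j l = true)
  | .inr (.inr p) => Wd u (p : ZMod n) j

/-- leaves of `x j` as second hub -/
def mBx (j : ZMod n) : ZMod n ⊕ ZMod n ⊕ P → Prop
  | .inl _ => False
  | .inr (.inl l) => w < (j - l).val
  | .inr (.inr _) => False

/-- leaves of the second hub -/
def mB : ZMod n ⊕ P → ZMod n ⊕ ZMod n ⊕ P → Prop
  | .inl j, v => if j ∈ P then mBx P w j v else mBa P S u f j v
  | .inr q, v => mBa P S u f q v

/-- first end of a bridge -/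
def bx : ZMod n ⊕ P → ZMod n
  | .inl j => j - 3
  | .inr q => q - 1

/-- second end of a bridge -/
def bY : ZMod n ⊕ P → ZMod n
  | .inl j => j + 1
  | .inr q => q + 1

end Build

open Classical in
theorem core_of (hn : 6 ≤ n) (P : Finset (ZMod n)) (S : Finset (ZMod n ⊕ P)) {u w : ℕ}
    (hu : u + 2 ≤ n) (hw : w + 2 ≤ n) (huw : u + w < n) (f : ZMod n → ZMod n → Bool)
    (fa : ∀ k, (univ.filter fun l => Ok P S k l ∧ f k l = true).card +
      (univ.filter fun p : P => Wd u (p : ZMod n) k).card + w + 2 = n)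
    (fb : ∀ l, (univ.filter fun k => Ok P S k l ∧ f k l = false).card +
      (univ.filter fun p : P => Wd w l p).card + u + 2 = n)
    (hc : (n + P.card) * (u + w) + S.card = n * n) :
    Core (ZMod n ⊕ P) n P.card false (Equiv.refl _) S := by
  have v0 : ∀ k : ZMod n, (k - k).val = 0 := fun k => by rw [sub_self, ZMod.val_zero]
  have v1 : ∀ k : ZMod n, (k + 1 - k).val = 1 := fun k => (val_eq k _ (by omega)).2 (by simp)
  have v3 : ∀ k : ZMod n, (k - (k - 3)).val = 3 := fun k =>
    (val_eq _ k (by omega)).2 (by push_cast; ring)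
  have vm : ∀ k : ZMod n, (k - (k + 1)).val = n - 1 := fun k => by
    have := val_neg_add k (k + 1) (by rw [v1]; omega)
    rw [v1] at this
    omega
  have one : ∀ (k : ZMod n) (m : ℕ), m < n →
      (univ.filter fun l : ZMod n => (l - k).val = m).card = 1 := fun k m hm => by
    rw [card_row k fun x => x = m, filter_eq' (range n) m, if_pos (mem_range.2 hm), card_singleton]
  have one' : ∀ (l : ZMod n) (m : ℕ), m < n →
      (univ.filter fun k : ZMod n => (l - k).val = m).card = 1 := fun l m hm => by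
    rw [card_col l fun x => x = m, filter_eq' (range n) m, if_pos (mem_range.2 hm), card_singleton]
  have cBa : ∀ j, (univ.filter fun v => mBa P S u f j v).card = n - 1 - w := fun j => by
    rw [card3]
    have e1 : (univ.filter fun l => mBa P S u f j (.inr (.inl l))) =
        (univ.filter fun l => (l - j).val = 1) ∪ univ.filter fun l => Ok P S j l ∧ f j l = true := by
      ext l
      simp [mBa]
    have e2 : (univ.filter fun p => mBa P S u f j (.inr (.inr p))) =
        univ.filter fun p : P => Wd u (p : ZMod n) j := by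
      ext l
      simp [mBa]
    rw [e1, e2, card_union_of_disjoint (disjoint_filter.2 fun l _ h h' => h'.1.1 h),
      one j 1 (by omega)]
    have := fa j
    simp only [mBa, filter_false, card_empty]
    omega
  have tB : ∀ k, ∃ i, hbB P i = .inl k ∧ ∀ v, mBa P S u f k v → mB P S u w f i v := fun k => by
    by_cases h : k ∈ P
    · exact ⟨.inr ⟨k, h⟩, rfl, fun v hv => hv⟩
    · exact ⟨.inl k, by simp [hbB, h], fun v hv => by simpa [mB, h] using hv⟩
  refine Core.mk_sets (J := {i // i ∉ S}) false (Equiv.refl _) S (pt P) ?_ true (hbA P) (hbB P)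
    (fun i => univ.filter fun v => mA P S u w f i v) (fun i => univ.filter fun v => mB P S u w f i v)
    (n - 1 - u) (n - 1 - w) 1 Subtype.val (fun a => .inl (bx P a.1))
    (fun a => .inr (.inl (bY P a.1))) ?_ ?_ ?_ ?_ ?_ ?_ ?_ ?_ ?_ ?_ ?_ (fun h => absurd h (by simp))
    ?_ ?_ (fun h => absurd h (by simp)) (fun a b h _ => Subtype.ext h) ?_
    (fun a => by simp [pt]) ?_ ?_
  · intro Q
    rw [card3]
    fin_cases Q <;> simp [pt]
  · rintro (i | i) (j | j) h <;> simp_all [hbA]
  · rintro (i | i) (j | j) h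
    · simp only [hbB] at h
      split_ifs at h <;> simp_all
    · simp only [hbB] at h
      split_ifs at h with h1
      simp only [Sum.inl.injEq] at h
      exact absurd (h ▸ j.2) h1
    · simp only [hbB] at h
      split_ifs at h with h1
      simp only [Sum.inl.injEq] at h
      exact absurd (h ▸ i.2) h1
    · simp only [hbB, Sum.inl.injEq] at h
      rw [Subtype.ext h]
  · rintro (k | l | q)
    · simp only [pt, ne_eq, not_true_eq_false, false_iff, not_exists]
      rintro (i | i) <;> simp [hbA]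
    · exact ⟨fun _ => ⟨.inl l, rfl⟩, fun _ => by simp [pt]⟩
    · exact ⟨fun _ => ⟨.inr q, rfl⟩, fun _ => by simp [pt]⟩
  · rintro (k | l | q)
    · exact ⟨fun _ => (tB k).imp fun i hi => hi.1, fun _ => by simp [pt]⟩
    · simp only [pt, ne_eq, not_true_eq_false, false_iff, not_exists]
      rintro (i | i)
      · simp only [hbB]
        split_ifs <;> simp
      · simp [hbB]
    · exact ⟨fun _ => ⟨.inl q, by simp [hbB, q.2]⟩, fun _ => by simp [pt]⟩
  · rintro (i | i)
    · simp only [hbA, hbB]
      split_ifs <;> simp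
    · simp [hbA, hbB]
  · rintro _ (i | i)
    · simp only [hbA, hbB]
      split_ifs <;> simp [pt]
    · simp [hbA, hbB, pt]
  · rintro (j | q)
    · rw [card3]
      have e1 : (univ.filter fun k => mA P S u w f (.inl j) (.inl k)) =
          (univ.filter fun k => (j - k).val = 3) ∪
            univ.filter fun k => Ok P S k j ∧ f k j = false := by
        ext l
        simp [mA]
      have e2 : (univ.filter fun p => mA P S u w f (.inl j) (.inr (.inr p))) =
          univ.filter fun p : P => Wd w j p := by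
        ext l
        simp [mA]
      rw [e1, e2, card_union_of_disjoint (disjoint_filter.2 fun l _ h h' => h'.1.2.1 h),
        one' j 3 (by omega)]
      have := fb j
      simp only [mA, filter_false, card_empty]
      omega
    · rw [card3]
      have e1 : (univ.filter fun k => mA P S u w f (.inr q) (.inl k)) =
          univ.filter fun k => u < (k - (q : ZMod n)).val := by
        ext l
        simp [mA]
      rw [e1, out_row (by omega)]
      simp [mA]
  · rintro (j | q)
    · by_cases h : j ∈ P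
      · rw [card3]
        have e1 : (univ.filter fun l => mB P S u w f (.inl j) (.inr (.inl l))) =
            univ.filter fun l => w < (j - l).val := by
          ext l
          simp [mB, mBx, h]
        rw [e1, out_col (by omega)]
        simp [mB, mBx, h]
      · rw [← cBa j]
        congr 1
        ext v
        simp [mB, h]
    · rw [← cBa q]
      congr 1
  · intro i
    refine disjoint_filter.2 fun v _ h h' => ?_
    rcases i with j | q <;> rcases v with k | l | p
    · by_cases hj : j ∈ P <;> simp [mB, mBx, mBa, hj] at h'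
    · exact h
    · by_cases hj : j ∈ P
      · simp [mB, mBx, hj] at h'
      · simp only [mB, hj, if_false, mBa, Wd] at h'
        simp only [mA, Wd] at h
        have := val_neg_add j p (by omega)
        omega
    · exact h'
    · exact h
    · exact h
  · intro i v hv
    have h := (mem_filter.1 hv).2
    rcases i with j | q <;> rcases v with k | l | p
    · refine ⟨by simp [pt, hbA], ?_⟩
      simp only [hbB]
      split_ifs with hj
      · simp
      · rintro e
        obtain rfl : k = j := Sum.inl.inj e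
        simp only [mA, Ok, v0] at h
        tauto
    · exact h.elim
    · refine ⟨by simp [pt, hbA], ?_⟩
      simp only [hbB]
      split_ifs with hj
      · rintro e
        obtain rfl : p = ⟨j, hj⟩ := Sum.inr.inj (Sum.inr.inj e)
        simp only [mA, Wd, v0] at h
        omega
      · simp
    · refine ⟨by simp [pt, hbA], fun e => ?_⟩
      obtain rfl : k = q := Sum.inl.inj e
      simp only [mA, v0] at h
      omega
    · exact h.elim
    · exact h.elim
  · intro i v hv
    have h := (mem_filter.1 hv).2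
    rcases i with j | q
    · by_cases hj : j ∈ P
      · simp only [mB, hj, if_true] at h
        rcases v with k | l | p
        · exact h.elim
        · refine ⟨by simp [pt, hbB, hj], fun e => ?_⟩
          obtain rfl : l = j := Sum.inl.inj (Sum.inr.inj e)
          simp only [mBx, v0] at h
          omega
        · exact h.elim
      · simp only [mB, hj, if_false] at h
        rcases v with k | l | p
        · exact h.elim
        · refine ⟨by simp [pt, hbB, hj], fun e => ?_⟩
          obtain rfl : l = j := Sum.inl.inj (Sum.inr.inj e)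
          simp only [mBa, Ok, v0] at h
          tauto
        · exact ⟨by simp [pt, hbB, hj], by simp [hbA]⟩
    · rcases v with k | l | p
      · exact h.elim
      · exact ⟨by simp [pt, hbB], by simp [hbA]⟩
      · refine ⟨by simp [pt, hbB], fun e => ?_⟩
        obtain rfl : p = q := Sum.inr.inj (Sum.inr.inj e)
        simp only [mB, mBa, Wd, v0] at h
        omega
  · rintro ⟨j | q, hi⟩
    · exact mem_filter.2 ⟨mem_univ _, Or.inl (v3 j)⟩
    · refine mem_filter.2 ⟨mem_univ _, ?_⟩
      have := vm ((q : ZMod n) - 1)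
      rw [sub_add_cancel] at this
      simp only [mA, bx, this]
      omega
  · rintro _ ⟨j | q, hi⟩
    · refine mem_filter.2 ⟨mem_univ _, ?_⟩
      by_cases hj : j ∈ P
      · simp only [mB, hj, if_true, mBx, bY, vm]
        omega
      · simp only [mB, hj, if_false, mBa, bY, v1, true_or]
    · exact mem_filter.2 ⟨mem_univ _, Or.inl (v1 q)⟩
  · intro i
    by_cases hi : i ∈ S
    · rw [if_pos hi, filter_eq_empty_iff.2 fun a _ h => a.2 (h ▸ hi), card_empty]
    · rw [if_neg hi, add_zero]
      exact card_eq_one.2 ⟨⟨i, hi⟩, by ext a; simp [Subtype.ext_iff]⟩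
  · rw [Fintype.card_sum, ZMod.card, Fintype.card_coe, if_pos rfl]
    obtain ⟨d, rfl⟩ : ∃ d, n = u + w + 1 + d := ⟨n - (u + w + 1), by omega⟩
    have e1 : u + w + 1 + d - 1 - u = w + d := by omega
    have e2 : u + w + 1 + d - 1 - w = u + d := by omega
    rw [e1, e2]
    nlinarith
  · rintro (k | l | q) (k' | l' | q') h <;> simp only [pt] at h
    all_goals try (exact absurd h (by decide))
    · by_cases h1 : (l' - k).val = 1
      · obtain ⟨i, hi, hi'⟩ := tB k
        exact Or.inl ⟨i, Or.inr (Or.inr (Or.inl ⟨hi, mem_filter.2 ⟨mem_univ _,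
          hi' _ (Or.inl h1)⟩⟩))⟩
      by_cases h3 : (l' - k).val = 3
      · exact Or.inl ⟨.inl l', Or.inr (Or.inl ⟨rfl, mem_filter.2 ⟨mem_univ _, Or.inl h3⟩⟩)⟩
      by_cases h4 : (l' - k).val = 4 ∧ Sum.inl (k + 3) ∉ S
      · obtain ⟨h5, h6⟩ := h4
        refine Or.inr ⟨⟨.inl (k + 3), h6⟩, Or.inl ⟨by simp [bx], ?_⟩⟩
        rw [(val_eq k l' (by omega)).1 h5]
        simp only [bY]
        congr 2
        push_cast
        ring
      by_cases h2 : (l' - k).val = 2 ∧ ∃ h : k + 1 ∈ P, Sum.inr ⟨k + 1, h⟩ ∉ S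
      · obtain ⟨h5, h6, h7⟩ := h2
        refine Or.inr ⟨⟨.inr ⟨k + 1, h6⟩, h7⟩, Or.inl ⟨by simp [bx], ?_⟩⟩
        rw [(val_eq k l' (by omega)).1 h5]
        simp only [bY]
        congr 2
        push_cast
        ring
      by_cases h0 : (l' - k).val = 0 ∧ k ∉ P
      · have e : l' = k := by simpa using (val_eq k l' (by omega)).1 h0.1
        subst e
        exact Or.inl ⟨.inl l', Or.inr (Or.inr (Or.inr (Or.inr ⟨rfl, Or.inr ⟨rfl,
          by simp [hbB, h0.2]⟩⟩)))⟩
      have ok : Ok P S k l' := ⟨h1, h3, h4, h2, h0⟩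
      cases hf : f k l'
      · exact Or.inl ⟨.inl l', Or.inr (Or.inl ⟨rfl, mem_filter.2 ⟨mem_univ _,
          Or.inr ⟨ok, hf⟩⟩⟩)⟩
      · obtain ⟨i, hi, hi'⟩ := tB k
        exact Or.inl ⟨i, Or.inr (Or.inr (Or.inl ⟨hi, mem_filter.2 ⟨mem_univ _,
          hi' _ (Or.inr ⟨ok, hf⟩)⟩⟩))⟩
    · by_cases h0 : (k - q').val = 0
      · have e : k = q' := by simpa using (val_eq _ k (by omega)).1 h0
        subst e
        exact Or.inl ⟨.inr q', Or.inr (Or.inr (Or.inr (Or.inr ⟨rfl, Or.inr ⟨rfl, rfl⟩⟩)))⟩
      by_cases h1 : (k - q').val ≤ u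
      · obtain ⟨i, hi, hi'⟩ := tB k
        exact Or.inl ⟨i, Or.inr (Or.inr (Or.inl ⟨hi, mem_filter.2 ⟨mem_univ _,
          hi' (.inr (.inr q')) ⟨by omega, h1⟩⟩⟩))⟩
      · exact Or.inl ⟨.inr q', Or.inr (Or.inl ⟨rfl, mem_filter.2 ⟨mem_univ _, not_le.1 h1⟩⟩)⟩
    · by_cases h0 : ((q' : ZMod n) - l).val = 0
      · have e : (q' : ZMod n) = l := by simpa using (val_eq l _ (by omega)).1 h0
        subst e
        exact Or.inl ⟨.inl q', Or.inr (Or.inr (Or.inr (Or.inr ⟨rfl, Or.inl ⟨rfl,
          by simp [hbB, q'.2]⟩⟩)))⟩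
      by_cases h1 : ((q' : ZMod n) - l).val ≤ w
      · exact Or.inl ⟨.inl l, Or.inl ⟨rfl, mem_filter.2 ⟨mem_univ _, ⟨by omega, h1⟩⟩⟩⟩
      · refine Or.inl ⟨.inl q', Or.inr (Or.inr (Or.inr (Or.inl ⟨by simp [hbB, q'.2],
          mem_filter.2 ⟨mem_univ _, ?_⟩⟩)))⟩
        simp only [mB, q'.2, if_true, mBx]
        exact not_le.1 h1

end CoreAdj

end Pool.Agent.Lib.MP_351560_co
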