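import Mathlib
import Pool.Agent.Lib.MP_351560_co.AdjMain

set_option autoImplicit false
set_option linter.unusedVariables false

namespace Pool.Agent.Lib.MP_351560_co

open Finset

namespace CoreAdj

/-- The statement of the orientation lemma. -/
def OrientSt : Prop :=
  ∀ {X Y : Type} [Fintype X] [Fintype Y] [DecidableEq X] [DecidableEq Y]
    (ok : X → Y → Prop) [DecidableRel ok] (a : X → ℕ) (b : Y → ℕ)
    (htot : ∑ x, a x + ∑ y, b y = ∑ x, (univ.filter fun y => ok x y).card) (a0 b0 s0 r0 : ℕ)
    (ha : ∀ x, a0 ≤ a x) (hb : ∀ y, b0 ≤ b y)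
    (hs : ∀ x, a x + s0 ≤ (univ.filter fun y => ok x y).card)
    (hr : ∀ y, b y + r0 ≤ (univ.filter fun x => ok x y).card)
    (hw : (Fintype.card X - 1 - b0 - r0) * (Fintype.card Y - 1 - a0 - s0) ≤
      max (a0 * b0) (s0 * r0)),
    ∃ f : X → Y → Bool, (∀ x, (univ.filter fun y => ok x y ∧ f x y = true).card = a x) ∧
      ∀ y, (univ.filter fun x => ok x y ∧ f x y = false).card = b y

theorem core0_adj_of (ho : OrientSt) {t n u w : ℕ} (h : AdjP t n u w) :
    Core0 t n (t - n) (n * n % t) := by
  obtain ⟨hn, h1, h2, hq, hu, hw, g1, g2, g3, g4, hW⟩ := h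
  haveI : NeZero n := ⟨by omega⟩
  obtain ⟨c, rfl⟩ : ∃ c, t = n + c := ⟨t - n, by omega⟩
  rw [Nat.add_sub_cancel_left] at *
  obtain ⟨P, hP, hb⟩ := exists_bal (n := n) (c := c) (by omega)
  have hT : Fintype.card (ZMod n ⊕ P) = n + c := by
    rw [Fintype.card_sum, ZMod.card, Fintype.card_coe, hP]
  obtain ⟨S, -, hS⟩ := exists_subset_card_eq (s := (univ : Finset (ZMod n ⊕ P)))
    (n := n * n % (n + c)) (by rw [card_univ, hT]; exact (Nat.mod_lt _ (by omega)).le)
  have huw : u + w < n := by
    rw [hq]
    exact (Nat.div_lt_iff_lt_mul (by omega)).2 (by nlinarith)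
  have hc : (n + c) * (u + w) + S.card = n * n := by
    rw [hq, hS]
    exact Nat.div_add_mod _ _
  have bA : ∀ k : ZMod n, u * c / n ≤ (univ.filter fun p : P => Wd u (p : ZMod n) k).card ∧
      (univ.filter fun p : P => Wd u (p : ZMod n) k).card ≤ cdiv (u * c) n := fun k => by
    rw [cnt_left P (by omega)]
    exact hb _ _
  have bB : ∀ l : ZMod n, w * c / n ≤ (univ.filter fun p : P => Wd w l p).card ∧
      (univ.filter fun p : P => Wd w l p).card ≤ cdiv (w * c) n := fun l => by
    rw [cnt_right P (by omega)]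
    exact hb _ _
  have sA : ∑ k : ZMod n, (n - 2 - w - (univ.filter fun p : P => Wd u (p : ZMod n) k).card) +
      c * u + n * (w + 2) = n * n := by
    rw [← hP, ← sum_left P (L := u) (by omega), ← sum_add_distrib]
    have e : ∀ k ∈ (univ : Finset (ZMod n)),
        n - 2 - w - (univ.filter fun p : P => Wd u (p : ZMod n) k).card +
        (univ.filter fun p : P => Wd u (p : ZMod n) k).card = n - 2 - w := fun k _ => by
      have := (bA k).2
      omega
    rw [sum_congr rfl e, sum_const, card_univ, ZMod.card, smul_eq_mul, ← mul_add]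
    congr 1
    omega
  have sB : ∑ l : ZMod n, (n - 2 - u - (univ.filter fun p : P => Wd w l p).card) +
      c * w + n * (u + 2) = n * n := by
    rw [← hP, ← sum_right P (L := w) (by omega), ← sum_add_distrib]
    have e : ∀ l ∈ (univ : Finset (ZMod n)),
        n - 2 - u - (univ.filter fun p : P => Wd w l p).card +
        (univ.filter fun p : P => Wd w l p).card = n - 2 - u := fun l _ => by
      have := (bB l).2
      omega
    rw [sum_congr rfl e, sum_const, card_univ, ZMod.card, smul_eq_mul, ← mul_add]
    congr 1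
    omega
  obtain ⟨f, fa, fb⟩ := ho (Ok P S)
    (fun k => n - 2 - w - (univ.filter fun p : P => Wd u (p : ZMod n) k).card)
    (fun l => n - 2 - u - (univ.filter fun p : P => Wd w l p).card)
    (by have := ok_sum hn P S; nlinarith)
    (n - 2 - w - cdiv (u * c) n) (n - 2 - u - cdiv (w * c) n)
    (w + u * c / n - 3) (u + w * c / n - 3)
    (fun k => by have := bA k; omega) (fun l => by have := bB l; omega)
    (fun k => by have := bA k; have := ok_row hn P S k; omega)
    (fun l => by have := bB l; have := ok_col hn P S l; omega)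
    (by rw [ZMod.card]; exact hW)
  have := (core_of hn P S (u := u) (w := w) (by omega) (by omega) huw f
    (fun k => by have := bA k; rw [fa k]; omega) (fun l => by have := bB l; rw [fb l]; omega)
    (by rw [hP]; exact hc)).core0
  rwa [hT, hP, hS] at this

end CoreAdj

end Pool.Agent.Lib.MP_351560_co
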