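import Mathlib
import Pool.Agent.Lib.MP_351560_co.Comp

set_option autoImplicit false
set_option linter.unusedSimpArgs false
set_option linter.unusedVariables false
set_option linter.unusedSectionVars false

namespace Pool.Agent.Lib.MP_351560_co

open Finset

/-- Edges of a family of items. -/
def CE {V I Θ R T : Type} (τ : I → T) (ty : I → Θ) (G : Θ → R → R → Prop) (emb : I → R → V)
    (i : T) (u v : V) : Prop :=
  ∃ a r r', τ a = i ∧ (G (ty a) r r' ∨ G (ty a) r' r) ∧ emb a r = u ∧ emb a r' = v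

section Ag
variable {t : ℕ} [NeZero t] (gh nt : Fin 3 → Fin t → Prop) (spec : Fin 3 → Fin 3 → Fin t → Prop)

open Classical in
/-- Label of the agent of part `P` at offset `d`. -/
noncomputable def olab (P : Fin 3) (d : Fin t) : Fin 3 ⊕ Option (Fin 3 × Fin t) :=
  if gh P d then .inl P else if nt P d then .inr none else .inr (some (P, d))

/-- Labels of residual vertices and agents. -/
noncomputable def alab {U : Type} (pu : U → Fin 3) (i : Fin t) :
    U ⊕ Fin 3 × Fin t → Fin 3 ⊕ Option (Fin 3 × Fin t)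
  | .inl u => .inl (pu u)
  | .inr z => olab gh nt z.1 (z.2 - i)

/-- The hub of part `P` is adjacent to vertices with label `l`. -/
def hubAdj (P : Fin 3) : Fin 3 ⊕ Option (Fin 3 × Fin t) → Prop
  | .inl Q => P ≠ Q
  | .inr none => False
  | .inr (some (Q, d)) => P ≠ Q ∧
      (d = 0 ∨ (¬spec P Q d ∧ (nt P (-d) ∨ (¬gh P (-d) ∧ P < Q))))

/-- Conditions on ghost, neutral and special offsets. -/
structure OffOK : Prop where
  g0 : ∀ P, ¬gh P 0
  n0 : ∀ P, ¬nt P 0
  gn : ∀ P d, gh P d → ¬nt P d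
  ss : ∀ P Q d, spec P Q d → spec Q P (-d)
  s0 : ∀ P Q, ¬spec P Q 0
  sg : ∀ P Q d, P ≠ Q → spec P Q d → ¬gh Q d
  gg : ∀ P Q d, P ≠ Q → gh Q d → ¬gh P (-d)
  nn : ∀ P Q d, P ≠ Q → nt Q d → nt P (-d) → spec P Q d

variable {gh nt spec}

lemma olab_hub (h : OffOK gh nt spec) (P Q : Fin 3) (d : Fin t) :
    olab gh nt P d = .inr (some (Q, 0)) ↔ P = Q ∧ d = 0 := by
  unfold olab
  constructor
  · intro e
    split_ifs at e
    · simp at e
    · simpa using e
  · rintro ⟨rfl, rfl⟩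
    rw [if_neg (h.g0 P), if_neg (h.n0 P)]

lemma hubAdj_ne {P Q : Fin 3} {d : Fin t} (h : hubAdj gh nt spec P (olab gh nt Q d)) : P ≠ Q := by
  unfold olab at h
  split_ifs at h
  · exact h
  · exact h.elim
  · exact h.1

lemma hubAdj_iff {P Q : Fin 3} (hPQ : P ≠ Q) (d : Fin t) :
    hubAdj gh nt spec P (olab gh nt Q d) ↔ gh Q d ∨ (¬nt Q d ∧
      (d = 0 ∨ (¬spec P Q d ∧ (nt P (-d) ∨ (¬gh P (-d) ∧ P < Q))))) := by
  unfold olab
  split_ifs with h1 h2 <;> simp [hubAdj, *]

lemma hub_xor (h : OffOK gh nt spec) {P Q : Fin 3} (hPQ : P ≠ Q) {d : Fin t} (hd : d ≠ 0) :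
    (spec P Q d → ¬hubAdj gh nt spec P (olab gh nt Q d) ∧
      ¬hubAdj gh nt spec Q (olab gh nt P (-d))) ∧
    (¬spec P Q d → (hubAdj gh nt spec P (olab gh nt Q d) ↔
      ¬hubAdj gh nt spec Q (olab gh nt P (-d)))) := by
  rw [hubAdj_iff hPQ, hubAdj_iff hPQ.symm, neg_neg]
  have a1 := h.gn Q d
  have a2 := h.gn P (-d)
  have a3 := h.ss P Q d
  have a4 := h.ss Q P (-d)
  have a5 := h.sg P Q d hPQ
  have a6 := h.sg Q P (-d) hPQ.symm
  have a7 := h.gg P Q d hPQ
  have a8 := h.nn P Q d hPQ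
  have a9 : -d ≠ 0 := neg_ne_zero.2 hd
  have a10 : Q < P ↔ ¬P < Q := by omega
  rw [neg_neg] at a4
  rw [a10]
  by_cases b1 : spec P Q d <;> by_cases b2 : gh Q d <;> by_cases b3 : gh P (-d) <;>
    by_cases b4 : nt Q d <;> by_cases b5 : nt P (-d) <;> by_cases b6 : P < Q <;>
    by_cases b7 : spec Q P (-d) <;> simp_all

/-- Label of a role. -/
def rlab {t : ℕ} : Option (Fin 3) → Fin 3 ⊕ Option (Fin 3 × Fin t)
  | some P => .inl P
  | none => .inr none

/-- Adjacency of a label to the further cycles. -/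
def asig (nt : Fin 3 → Fin t → Prop) : Fin 3 ⊕ Option (Fin 3 × Fin t) → Fin 3 → Fin t → Prop
  | .inl P, Q, d => P ≠ Q ∧ d = 0
  | .inr none, _, _ => False
  | .inr (some (P, e)), Q, d => P ≠ Q ∧ (d = 0 ∨ (e = 0 ∧ nt P (-d)))

lemma asig_iff (h : OffOK gh nt spec) (P Q : Fin 3) (e d : Fin t) :
    asig nt (olab gh nt P e) Q d ↔ P ≠ Q ∧ ((d = 0 ∧ ¬nt P e) ∨ (e = 0 ∧ nt P (-d))) := by
  have a1 := h.gn P e
  have a2 := h.g0 P
  have a3 := h.n0 P
  unfold olab
  split_ifs with h1 h2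
  · have : e ≠ 0 := fun he => a2 (he ▸ h1)
    simp [asig, *]
  · have : e ≠ 0 := fun he => a3 (he ▸ h2)
    simp [asig, *]
  · simp [asig, *]

/-- Residual vertices together with one cycle of agents per part. -/
theorem agents (h : OffOK gh nt spec) {U I J Θ R : Type} [Fintype U] [Fintype I] [Fintype J]
    [Fintype R] [DecidableEq Θ] (pu : U → Fin 3) (use : Θ → R → Prop) (G : Θ → R → R → Prop)
    (rl : Θ → R → Option (Fin 3)) (τ : I → Fin t) (ty : I → Θ) (emb : I → R → U)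
    (τ' : J → Fin t) (ty' : J → Θ) (off : J → R → Fin 3 × Fin t)
    (hG : ∀ θ r r', G θ r r' → use θ r ∧ use θ r')
    (hl : ∀ a r, use (ty a) r → rl (ty a) r = some (pu (emb a r)))
    (hl' : ∀ a r, use (ty' a) r → (rl (ty' a) r = some (off a r).1 ∧ gh (off a r).1 (off a r).2) ∨
      (rl (ty' a) r = none ∧ nt (off a r).1 (off a r).2))
    (hdis : ∀ a b r r', τ a = τ b → use (ty a) r → use (ty b) r' → emb a r = emb b r' →
      a = b ∧ r = r')
    (hdis' : ∀ a b r r', τ' a = τ' b → use (ty' a) r → use (ty' b) r' → off a r = off b r' →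
      a = b ∧ r = r')
    (hp : ∀ a r r', G (ty a) r r' → pu (emb a r) ≠ pu (emb a r'))
    (hp' : ∀ a r r', G (ty' a) r r' → (off a r).1 ≠ (off a r').1)
    (hU : ∀ u v, pu u < pu v → ∃! i, CE τ ty G emb i u v)
    (hA : ∀ P Q x y, P < Q → spec P Q (y - x) →
      ∃! i, CE τ' ty' G off i (P, x - i) (Q, y - i))
    (hA' : ∀ P Q d e i, P < Q → CE τ' ty' G off i (P, d) (Q, e) → spec P Q (e - d))
    (hcen : ∀ θ i j, (univ.filter fun a => τ a = i ∧ ty a = θ).card +
      (univ.filter fun a => τ' a = i ∧ ty' a = θ).card =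
      (univ.filter fun a => τ a = j ∧ ty a = θ).card +
      (univ.filter fun a => τ' a = j ∧ ty' a = θ).card) (mult : Fin 3 → ℕ) :
    Good t fun P => (univ.filter fun u => pu u = P).card + t + mult P * t := by
  classical
  let p : U ⊕ Fin 3 × Fin t → Fin 3 := Sum.elim pu Prod.fst
  let κ : Fin 3 ⊕ Option (Fin 3 × Fin t) → Fin 3 ⊕ Option (Fin 3 × Fin t) → Prop :=
    fun l l' => ∃ P, l = .inr (some (P, 0)) ∧ hubAdj gh nt spec P l'
  let E : I ⊕ J → R → U ⊕ Fin 3 × Fin t := fun a r => match a with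
    | .inl a => .inl (emb a r)
    | .inr a => .inr ((off a r).1, (off a r).2 + τ' a)
  have k1 : ∀ i u l, ¬κ (alab gh nt pu i (.inl u)) l := by
    rintro i u l ⟨P, e, -⟩
    simp [alab] at e
  have k2 : ∀ i P x l, κ (alab gh nt pu i (.inr (P, x))) l ↔ x = i ∧ hubAdj gh nt spec P l := by
    intro i P x l
    simp only [κ, alab, olab_hub h, sub_eq_zero]
    exact ⟨fun ⟨Q, ⟨e1, e2⟩, e3⟩ => ⟨e2, e1 ▸ e3⟩, fun ⟨e1, e2⟩ => ⟨P, ⟨rfl, e1⟩, e2⟩⟩
  have c1 : ∀ i u v, CE (Sum.elim τ τ') (Sum.elim ty ty') G E i (.inl u) (.inl v) ↔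
      CE τ ty G emb i u v := by
    intro i u v
    simp [CE, E]
  have c2 : ∀ i u z, ¬CE (Sum.elim τ τ') (Sum.elim ty ty') G E i (.inl u) (.inr z) := by
    intro i u v
    simp [CE, E]
  have c3 : ∀ i u z, ¬CE (Sum.elim τ τ') (Sum.elim ty ty') G E i (.inr z) (.inl u) := by
    intro i u v
    simp [CE, E]
  have c4 : ∀ i P x Q y, CE (Sum.elim τ τ') (Sum.elim ty ty') G E i (.inr (P, x)) (.inr (Q, y)) ↔
      CE τ' ty' G off i (P, x - i) (Q, y - i) := by
    intro i P x Q y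
    simp only [CE, E, Sum.exists, reduceCtorEq, false_and, and_false, exists_false, false_or,
      Sum.elim_inr, Sum.inr.injEq, Prod.ext_iff]
    refine exists_congr fun a => exists_congr fun r => exists_congr fun r' =>
      and_congr_right fun e => ?_
    rw [e, eq_sub_iff_add_eq, eq_sub_iff_add_eq]
  have hLF : LF p t (alab gh nt pu) := by
    refine LF.of_comp p t _ κ (Sum.elim τ τ') (Sum.elim ty ty') use G
      (fun θ r => rlab (rl θ r)) E hG ?_ ?_ ?_ ?_ ?_ ?_ ?_
    · rintro (a | a) r hu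
      · simp only [Sum.elim_inl] at hu ⊢
        rw [hl a r hu]
        rfl
      · simp only [Sum.elim_inr] at hu ⊢
        simp only [E, alab, add_sub_cancel_right, olab]
        rcases hl' a r hu with ⟨e1, e2⟩ | ⟨e1, e2⟩
        · rw [e1, if_pos e2]
          rfl
        · rw [e1, if_neg fun e3 => h.gn _ _ e3 e2, if_pos e2]
          rfl
    · rintro (a | a) (b | b) r r' e1 e2 e3 e4
      · obtain ⟨rfl, rfl⟩ := hdis a b r r' e1 e2 e3 (Sum.inl.inj e4)
        exact ⟨rfl, rfl⟩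
      · simp [E] at e4
      · simp [E] at e4
      · simp only [Sum.elim_inr] at e1
        simp only [E, Sum.inr.injEq, Prod.mk.injEq, e1, add_left_inj] at e4
        obtain ⟨rfl, rfl⟩ := hdis' a b r r' e1 e2 e3 (Prod.ext e4.1 e4.2)
        exact ⟨rfl, rfl⟩
    · rintro i (u | ⟨P, x⟩) v e
      · exact (k1 _ _ _ e).elim
      · rcases v with v | ⟨Q, y⟩
        · exact ((k2 _ _ _ _).1 e).2
        · exact hubAdj_ne ((k2 _ _ _ _).1 e).2
    · rintro (a | a) r r' e
      · exact hp a r r' e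
      · exact hp' a r r' e
    · rintro (u | ⟨P, x⟩) (v | ⟨Q, y⟩) e
      · refine (existsUnique_congr fun i => ?_).1 (hU u v e)
        rw [← c1]
        simp only [k1, false_or]
        rfl
      · refine ⟨y, .inr (.inl ((k2 _ _ _ _).2 ⟨rfl, e.ne'⟩)), ?_⟩
        rintro i (e1 | e1 | e1)
        · exact (k1 _ _ _ e1).elim
        · exact ((k2 _ _ _ _).1 e1).1.symm
        · exact (c2 _ _ _ e1).elim
      · refine ⟨x, .inl ((k2 _ _ _ _).2 ⟨rfl, e.ne⟩), ?_⟩
        rintro i (e1 | e1 | e1)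
        · exact ((k2 _ _ _ _).1 e1).1.symm
        · exact (k1 _ _ _ e1).elim
        · exact (c3 _ _ _ e1).elim
      · have e' : P < Q := e
        have key : ∀ i, (κ (alab gh nt pu i (.inr (P, x))) (alab gh nt pu i (.inr (Q, y))) ∨
            κ (alab gh nt pu i (.inr (Q, y))) (alab gh nt pu i (.inr (P, x))) ∨
            CE (Sum.elim τ τ') (Sum.elim ty ty') G E i (.inr (P, x)) (.inr (Q, y))) ↔
            ((i = x ∧ hubAdj gh nt spec P (olab gh nt Q (y - x))) ∨
            (i = y ∧ hubAdj gh nt spec Q (olab gh nt P (-(y - x)))) ∨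
            CE τ' ty' G off i (P, x - i) (Q, y - i)) := by
          intro i
          rw [k2, k2, c4, neg_sub]
          refine or_congr ?_ (or_congr_left ?_)
          · exact ⟨fun ⟨e1, e2⟩ => ⟨e1.symm, e1 ▸ e2⟩, fun ⟨e1, e2⟩ => ⟨e1.symm, e1 ▸ e2⟩⟩
          · exact ⟨fun ⟨e1, e2⟩ => ⟨e1.symm, e1 ▸ e2⟩, fun ⟨e1, e2⟩ => ⟨e1.symm, e1 ▸ e2⟩⟩
        refine (existsUnique_congr key).2 ?_
        have hs : ∀ i, CE τ' ty' G off i (P, x - i) (Q, y - i) → spec P Q (y - x) := fun i e1 => by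
          simpa using hA' P Q _ _ i e' e1
        by_cases hd : y - x = 0
        · refine ⟨x, .inl ⟨rfl, (hubAdj_iff e'.ne _).2 (.inr ⟨hd ▸ h.n0 Q, .inl hd⟩)⟩, ?_⟩
          rintro i (e1 | e1 | e1)
          · exact e1.1
          · exact e1.1.trans (sub_eq_zero.1 hd)
          · exact (h.s0 P Q (hd ▸ hs i e1)).elim
        obtain ⟨x1, x2⟩ := hub_xor h e'.ne hd
        by_cases hsp : spec P Q (y - x)
        · refine (existsUnique_congr fun i => ?_).1 (hA P Q x y e' hsp)
          simp only [(x1 hsp).1, (x1 hsp).2, and_false, false_or]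
        · by_cases h1 : hubAdj gh nt spec P (olab gh nt Q (y - x))
          · refine ⟨x, .inl ⟨rfl, h1⟩, ?_⟩
            rintro i (e1 | e1 | e1)
            · exact e1.1
            · exact ((x2 hsp).1 h1 e1.2).elim
            · exact (hsp (hs i e1)).elim
          · refine ⟨y, .inr (.inl ⟨rfl, not_not.1 fun h2 => h1 ((x2 hsp).2 h2)⟩), ?_⟩
            rintro i (e1 | e1 | e1)
            · exact (h1 e1.2).elim
            · exact e1.1
            · exact (hsp (hs i e1)).elim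
    · intro θ i j
      have := hcen θ i j
      simp only [card_filter, Fintype.sum_sum_type, Sum.elim_inl, Sum.elim_inr] at this ⊢
      convert this using 4
    · intro l i j
      refine card_equiv (Equiv.sumCongr (Equiv.refl _)
        (Equiv.prodCongr (Equiv.refl _) (Equiv.addRight (j - i)))) ?_
      rintro (u | ⟨P, x⟩)
      · simp [alab]
      · have : x + (j - i) - j = x - i := by abel
        simp [alab, this]
  have := hLF.extend (asig nt) mult ?_ ?_
  · convert this using 3 with P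
    simp only [card_filter, Fintype.sum_sum_type, p, Sum.elim_inl, Sum.elim_inr,
      Fintype.sum_prod_type]
    congr 1
    rw [sum_eq_single P] <;> simp +contextual
  · rintro P - i (u | ⟨Q, x⟩) d e e1
    · exact e1.1 e
    · exact ((asig_iff h _ _ _ _).1 e1).1 e
  · rintro P - (u | ⟨Q, x⟩) j e
    · refine ⟨j, ⟨e, sub_self j⟩, fun i e1 => (sub_eq_zero.1 e1.2).symm⟩
    · have e' : Q ≠ P := e
      simp only [alab, asig_iff h, e', ne_eq, not_false_eq_true, true_and, sub_eq_zero, neg_sub]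
      by_cases hn : nt Q (x - j)
      · refine ⟨x, .inr ⟨rfl, hn⟩, ?_⟩
        rintro i (⟨rfl, e1⟩ | ⟨rfl, e1⟩)
        · exact (e1 hn).elim
        · rfl
      · refine ⟨j, .inl ⟨rfl, hn⟩, ?_⟩
        rintro i (⟨rfl, e1⟩ | ⟨rfl, e1⟩)
        · rfl
        · exact (hn e1).elim

end Ag

end Pool.Agent.Lib.MP_351560_co
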