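import Mathlib
import Pool.Agent.Lib.MP_351560_co.Piece

set_option autoImplicit false
set_option linter.unusedSimpArgs false
set_option linter.unusedVariables false

namespace Pool.Agent.Lib.MP_351560_co.D3

open Finset

/-- Extension lemma with times in `ZMod t`. -/
lemma good_zmod {t : ℕ} [NeZero t] {V Λ : Type} [Fintype V] (p : V → Fin 3)
    (lab : ZMod t → V → Λ) (F : ZMod t → V → V → Prop) (h2 : ∀ i u v, F i u v → F i v u)
    (h3 : ∀ i u v, F i u v → p u ≠ p v) (h4 : ∀ u v, p u ≠ p v → ∃! i, F i u v)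
    (h5 : ∀ i j, ∃ φ : V ≃ V, (∀ u v, F i u v ↔ F j (φ u) (φ v)) ∧ ∀ v, lab j (φ v) = lab i v)
    (σ : Λ → Fin 3 → ZMod t → Prop) (mult : Fin 3 → ℕ)
    (h0 : ∀ P i v d, p v = P → ¬ σ (lab i v) P d)
    (h1 : ∀ P v j, p v ≠ P → ∃! i, σ (lab i v) P (j - i)) :
    Good t fun P => (univ.filter fun v => p v = P).card + mult P * t := by
  obtain ⟨n, rfl⟩ := Nat.exists_eq_succ_of_ne_zero (NeZero.ne t)
  exact LF.extend (t := n + 1) (lab := lab) ⟨F, h2, h3, h4, h5⟩ σ mult (fun P _ => h0 P)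
    (fun P _ => h1 P)

/-- Isomorphisms of labelled graphs with private leaves of two kinds. -/
lemma iso_stars {V Λ T : Type} [Fintype V] [DecidableEq V] [DecidableEq Λ] (lab : T → V → Λ)
    (la lc : T → V → Option V) (lA lB lC : Λ) (hAB : lA ≠ lB) (hCB : lC ≠ lB) (hAC : lA ≠ lC)
    (a1 : ∀ i u v, la i u = some v → lab i u = lB ∧ lab i v = lA ∧ lc i u ≠ none)
    (c1 : ∀ i u v, lc i u = some v → lab i u = lB ∧ lab i v = lC)
    (a2 : ∀ i u u' v, la i u = some v → la i u' = some v → u = u')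
    (c2 : ∀ i u u' v, lc i u = some v → lc i u' = some v → u = u')
    (n1 n2 : ℕ) (a3 : ∀ i, (univ.filter fun u => la i u ≠ none).card = n1)
    (c3 : ∀ i, (univ.filter fun u => lc i u ≠ none).card = n2)
    (hlab : ∀ l i j, (univ.filter fun v => lab i v = l).card =
      (univ.filter fun v => lab j v = l).card) (i j : T) :
    ∃ φ : V ≃ V, (∀ u v, la i u = some v ↔ la j (φ u) = some (φ v)) ∧
      (∀ u v, lc i u = some v ↔ lc j (φ u) = some (φ v)) ∧ ∀ v, lab j (φ v) = lab i v := by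
  classical
  have k1 : ∀ i, (univ.filter fun u : {u // lc i u ≠ none} => la i u.1 ≠ none).card = n1 := by
    intro i
    rw [← a3 i, ← card_map (Function.Embedding.subtype _)]
    congr 1
    ext u
    simp only [mem_map, mem_filter, mem_univ, true_and, Function.Embedding.subtype_apply]
    refine ⟨fun ⟨v, h1, h2⟩ => h2 ▸ h1, fun h => ?_⟩
    obtain ⟨v, hv⟩ := Option.ne_none_iff_exists'.1 h
    exact ⟨⟨u, (a1 i u v hv).2.2⟩, h, rfl⟩
  have k2 : ∀ i, (univ.filter fun u : {u // lc i u ≠ none} => ¬ la i u.1 ≠ none).card + n1 = n2 := by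
    intro i
    rw [← k1 i, add_comm, card_filter_add_card_filter_not, card_univ, Fintype.card_subtype, c3]
  obtain ⟨β, hβ⟩ := fib_equiv (fun u : {u // lc i u ≠ none} => decide (la i u.1 ≠ none))
    (fun u : {u // lc j u ≠ none} => decide (la j u.1 ≠ none)) (fun l => by
      cases l
      · simp only [decide_eq_false_iff_not]
        have := k2 i
        have := k2 j
        omega
      · simp only [decide_eq_true_eq]
        rw [k1, k1])
  have hβ' : ∀ u, la j (β u).1 ≠ none ↔ la i u.1 ≠ none := fun u => decide_eq_decide.1 (hβ u)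
  let γ : T → Type := fun i => {u // lc i u ≠ none} ⊕ {u // lc i u ≠ none} ⊕
    {u : {u // lc i u ≠ none} // la i u.1 ≠ none}
  let f : ∀ i, γ i → V := fun i z => match z with
    | .inl u => u.1
    | .inr (.inl u) => (lc i u.1).getD u.1
    | .inr (.inr u) => (la i u.1.1).getD u.1.1
  have f1 : ∀ i (u : {u // lc i u ≠ none}), lc i u.1 = some (f i (.inr (.inl u))) := by
    intro i u
    obtain ⟨v, hv⟩ := Option.ne_none_iff_exists'.1 u.2
    simp only [f, hv, Option.getD_some]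
  have f2 : ∀ i (u : {u : {u // lc i u ≠ none} // la i u.1 ≠ none}),
      la i u.1.1 = some (f i (.inr (.inr u))) := by
    intro i u
    obtain ⟨v, hv⟩ := Option.ne_none_iff_exists'.1 u.2
    simp only [f, hv, Option.getD_some]
  have l1 : ∀ i u, lab i (f i (.inl u)) = lB := fun i u => (c1 i _ _ (f1 i u)).1
  have l2 : ∀ i u, lab i (f i (.inr (.inl u))) = lC := fun i u => (c1 i _ _ (f1 i u)).2
  have l3 : ∀ i u, lab i (f i (.inr (.inr u))) = lA := fun i u => (a1 i _ _ (f2 i u)).2.1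
  have finj : ∀ i, Function.Injective (f i) := by
    rintro i (u | u | u) (v | v | v) h
    · rw [Subtype.ext h]
    · exact absurd ((l2 i v).symm.trans (h ▸ l1 i u)) hCB
    · exact absurd ((l3 i v).symm.trans (h ▸ l1 i u)) hAB
    · exact absurd ((l2 i u).symm.trans (h ▸ l1 i v)) hCB
    · rw [Subtype.ext (c2 i _ _ _ (f1 i u) (h ▸ f1 i v))]
    · exact absurd ((l3 i v).symm.trans (h ▸ l2 i u)) hAC
    · exact absurd ((l3 i u).symm.trans (h ▸ l1 i v)) hAB
    · exact absurd ((l3 i u).symm.trans (h ▸ l2 i v)) hAC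
    · rw [Subtype.ext (Subtype.ext (a2 i _ _ _ (f2 i u) (h ▸ f2 i v)))]
  let e : γ i ≃ γ j := Equiv.sumCongr β (Equiv.sumCongr β (β.subtypeEquiv fun u => (hβ' u).symm))
  obtain ⟨φ, hφ, hl⟩ := lab_extend (f i) (fun z => f j (e z)) (finj i)
    ((finj j).comp e.injective) (lab i) (lab j) (by
      rintro (u | u | u)
      · exact (l1 j _).trans (l1 i _).symm
      · exact (l2 j _).trans (l2 i _).symm
      · exact (l3 j _).trans (l3 i _).symm) (fun l => hlab l i j)
  have p1 : ∀ u : {u // lc i u ≠ none}, φ u.1 = (β u).1 := fun u => hφ (.inl u)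
  refine ⟨φ, fun u v => ⟨fun h => ?_, fun h => ?_⟩, fun u v => ⟨fun h => ?_, fun h => ?_⟩, hl⟩
  · let s : {u : {u // lc i u ≠ none} // la i u.1 ≠ none} :=
      ⟨⟨u, (a1 i u v h).2.2⟩, by simp [h]⟩
    have e1 : v = f i (.inr (.inr s)) := Option.some.inj (h.symm.trans (f2 i s))
    have e2 : φ v = f j (e (.inr (.inr s))) := e1 ▸ hφ (.inr (.inr s))
    rw [e2, p1 s.1]
    exact f2 j (β.subtypeEquiv (fun u => (hβ' u).symm) s)
  · obtain ⟨s, hs⟩ := β.surjective ⟨φ u, (a1 j _ _ h).2.2⟩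
    have e0 : (β s).1 = φ u := by rw [hs]
    obtain rfl : s.1 = u := φ.injective ((p1 s).trans e0)
    let s' : {u : {u // lc i u ≠ none} // la i u.1 ≠ none} :=
      ⟨s, (hβ' s).1 (by rw [e0, h]; simp)⟩
    have e1 := f2 j (β.subtypeEquiv (fun u => (hβ' u).symm) s')
    have e2 := hφ (.inr (.inr s'))
    have e3 : φ v = φ (f i (.inr (.inr s'))) :=
      Option.some.inj ((h.symm.trans (by rw [← e0]; exact e1)).trans (congrArg some e2.symm))
    rw [φ.injective e3]
    exact f2 i s'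
  · let s : {u // lc i u ≠ none} := ⟨u, by simp [h]⟩
    have e1 : v = f i (.inr (.inl s)) := Option.some.inj (h.symm.trans (f1 i s))
    have e2 : φ v = f j (e (.inr (.inl s))) := e1 ▸ hφ (.inr (.inl s))
    rw [e2, p1 s]
    exact f1 j (β s)
  · obtain ⟨s, hs⟩ := β.surjective ⟨φ u, by simp [h]⟩
    have e0 : (β s).1 = φ u := by rw [hs]
    obtain rfl : s.1 = u := φ.injective ((p1 s).trans e0)
    have e1 := f1 j (β s)
    have e2 := hφ (.inr (.inl s))
    have e3 : φ v = φ (f i (.inr (.inl s))) :=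
      Option.some.inj ((h.symm.trans (by rw [← e0]; exact e1)).trans (congrArg some e2.symm))
    rw [φ.injective e3]
    exact f1 i s

/-- Position of the time `i` in the window starting at `r`, capped at twelve. -/
def pos {t : ℕ} (i r : ZMod t) : ℕ := min (i - r).val 12

lemma pos_lt {t : ℕ} (i r : ZMod t) : pos i r < 13 := by
  unfold pos
  omega

lemma pos_eq {t : ℕ} [NeZero t] (ht : 12 ≤ t) {i r : ZMod t} {s : ℕ} (hs : s < 12) :
    pos i r = s ↔ i = r + s := by
  unfold pos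
  constructor
  · intro h
    have : (i - r).val = s := by omega
    rw [← this, ZMod.natCast_zmod_val]
    ring
  · rintro rfl
    rw [add_sub_cancel_left, ZMod.val_cast_of_lt (by omega)]
    omega

lemma pos_self {t : ℕ} [NeZero t] (ht : 12 ≤ t) {i r : ZMod t} (hs : pos i r < 12) :
    i = r + (pos i r : ℕ) := (pos_eq ht hs).1 rfl

lemma sum_pos {t : ℕ} [NeZero t] (ht : 12 ≤ t) (i : ZMod t) (f : ℕ → ℕ) :
    ∑ r, f (pos i r) = ∑ s ∈ range 12, f s + (t - 12) * f 12 := by
  have e1 : ∑ r, f (pos i r) = ∑ d : ZMod t, f (min d.val 12) :=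
    Fintype.sum_equiv (Equiv.subLeft i) _ _ fun r => rfl
  have e2 : ∑ d : ZMod t, f (min d.val 12) = ∑ n ∈ range t, f (min n 12) := by
    obtain ⟨n, rfl⟩ := Nat.exists_eq_succ_of_ne_zero (NeZero.ne t)
    exact Fin.sum_univ_eq_sum_range (fun n => f (min n 12)) (n + 1)
  rw [e1, e2, ← sum_range_add_sum_Ico _ ht]
  have e3 : ∑ s ∈ range 12, f (min s 12) = ∑ s ∈ range 12, f s :=
    sum_congr rfl fun s hs => by rw [min_eq_left (mem_range.1 hs).le]
  have e4 : ∑ s ∈ Ico 12 t, f (min s 12) = ∑ s ∈ Ico 12 t, f 12 :=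
    sum_congr rfl fun s hs => by rw [min_eq_right (mem_Ico.1 hs).1]
  rw [e3, e4, sum_const, Nat.card_Ico, smul_eq_mul]

lemma ex_two {Z : Type} (α β : Z) (C : Prop) (E : Z → Prop)
    (h : ∀ i, E i ↔ (i = α ∧ ¬ C) ∨ (i = β ∧ C)) : ∃! i, E i := by
  by_cases hC : C
  · exact ⟨β, (h β).2 (.inr ⟨rfl, hC⟩), fun i hi => by have := (h i).1 hi; tauto⟩
  · exact ⟨α, (h α).2 (.inl ⟨rfl, hC⟩), fun i hi => by have := (h i).1 hi; tauto⟩

lemma ex_one {Z : Type} (α : Z) (E : Z → Prop) (h : ∀ i, E i ↔ i = α) : ∃! i, E i :=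
  ⟨α, (h α).2 rfl, fun i hi => (h i).1 hi⟩

lemma one_ne {t : ℕ} [NeZero t] (ht : 12 ≤ t) (i : ZMod t) : i - 1 ≠ i := by
  intro h
  have : ((1 : ℕ) : ZMod t) = 0 := by rw [Nat.cast_one]; linear_combination -h
  rw [ZMod.natCast_eq_zero_iff] at this
  have := Nat.le_of_dvd one_pos this
  omega

end Pool.Agent.Lib.MP_351560_co.D3
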