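import Mathlib

set_option autoImplicit false
set_option synthInstance.maxSize 4096

namespace Pool.Agent.Lib.MP_351560_co.D3

open Finset

/-- Label of an agent of part `P` at position `s` of its window, for the key `k`.
Labels: 0 aL, 1 bL, 2 cL, 3 Om, 4 nu, 5 DB, 6 DC, 7 lam, 8 HA, 9 HB, 10 HC, 11 dB, 12 dC, 13 g,
14 mu1, 15 mu2, 16 be, 17 be0, 18 mu3, 19 mu4, 20 oB, 21 ordA, 22 ordB, 23 ordC, 24 rC. -/
def alab (P : Fin 3) (s : ℕ) (k : Bool) : Fin 25 :=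
  ([13, 13, 21, 21, 0, 0, 8, 8, 21, 21, 21, 21, 21, 21, 18, 19, 21, 21, 21, 21, 21, 21, 21, 21, 21,
    21, 14, 15, 22, 22, 4, 1, 5, 1, 1, 1, 20, 20, 1, 1, 9, 9, 11, 11, 16, 17, 17, 16, 22, 22, 22,
    22, 7, 2, 2, 2, 10, 10, 12, 12, 24, 24, 19, 18, 24, 24, 15, 14, 2, 2, 2, 4, 2, 6, 24, 24, 23,
    23] : List (Fin 25)).getD (26 * P.val + 2 * s + k.toNat) 0

/-- Kind of the key of a position. -/
def kty (P : Fin 3) (s : ℕ) : Bool :=
  [true, true, true, true, true, true, true, false, true, true, true, true, true, true, true, true,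
    true, false, true, false, true, true, false, false, true, true, true, true, true, true, true,
    false, true, true, true, true, true, true, true].getD (13 * P.val + s) true

/-- Time offset (plus five) of the key of a position. -/
def ko (P : Fin 3) (s : ℕ) : ℕ :=
  [5, 5, 5, 5, 5, 5, 5, 0, 5, 5, 5, 5, 5, 7, 5, 5, 4, 5, 5, 4, 5, 5, 0, 0, 5, 5, 4, 5, 5, 5, 5, 0,
    5, 7, 5, 5, 4, 5, 5].getD (13 * P.val + s) 5

/-- The graph on labels. -/
def gr (l l' : Fin 25) : Bool :=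
  Nat.testBit 0x100000180000040000000000000000000000400000002000401000000800008400008800000020000020000848d00038bc3c69e00019000028000029000001000000808000c00000a00000608
    (25 * l.val + l'.val)

/-- Position of the hub. -/
def hp (P : Fin 3) : ℕ := [3, 7, 2].getD P.val 0

/-- Label of the hub. -/
def hl (P : Fin 3) : Fin 25 := ([8, 9, 10] : List (Fin 25)).getD P.val 0

/-- Position of the leaf in the first part of an agent of the second part. -/
def ma (s : ℕ) (k : Bool) : Option ℕ := if s = 4 ∧ k = true then some 2 else none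

/-- Position of the leaf in the third part of an agent of the second part. -/
def mc (s : ℕ) (k : Bool) : Option ℕ :=
  if s = 4 then some 8 else if s = 6 ∧ k = false then some 1 else
    if s = 3 ∧ k = true then some 0 else none

/-- Star edges between agents. -/
def madj (P : Fin 3) (s : ℕ) (k : Bool) (Q : Fin 3) (s' : ℕ) : Prop :=
  P = 1 ∧ ((Q = 0 ∧ ma s k = some s') ∨ (Q = 2 ∧ mc s k = some s'))

instance (P : Fin 3) (s : ℕ) (k : Bool) (Q : Fin 3) (s' : ℕ) : Decidable (madj P s k Q s') := by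
  unfold madj; infer_instance

/-- Adjacency of two agents. -/
def adj (P : Fin 3) (s : ℕ) (k : Bool) (Q : Fin 3) (s' : ℕ) (k' : Bool) : Prop :=
  gr (alab P s k) (alab Q s' k') = true ∨ madj P s k Q s' ∨ madj Q s' k' P s

instance (P : Fin 3) (s : ℕ) (k : Bool) (Q : Fin 3) (s' : ℕ) (k' : Bool) :
    Decidable (adj P s k Q s' k') := by
  unfold adj; infer_instance

/-- Key of a pair of agents. -/
def ka (P Q : Fin 3) (s : ℕ) : ℕ :=
  [20, 20, 20, 27, 20, 7, 7, 20, 20, 20, 20, 20, 20, 20, 20, 20, 20, 20, 20, 20, 20, 20, 20, 27, 20,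
    20, 20, 20, 10, 9, 27, 20, 20, 27, 20, 32, 20, 20, 20].getD (13 * (P.val + Q.val - 1) + s) 0

/-- Position at which a pair of agents is joined. -/
def sa (P Q : Fin 3) (s : ℕ) (k : Bool) : ℕ :=
  [3, 3, 3, 3, 3, 3, 0, 3, 3, 3, 7, 2, 3, 3, 3, 3, 2, 2, 3, 3, 3, 3, 3, 3, 3, 3, 3, 3, 3, 3, 3, 3,
    2, 2, 3, 3, 0, 0, 3, 3, 3, 3, 3, 3, 3, 3, 3, 0, 3, 3, 3, 3, 7, 7, 7, 7, 6, 10, 6, 6, 3, 3, 4, 4,
    3, 3, 3, 2, 7, 7, 7, 8, 7, 7, 4, 4, 7, 7].getD
    (26 * (P.val + Q.val - 1) + 2 * s + k.toNat) 0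

/-- Positions at which the hub does not meet the new cycles. -/
def cov (P : Fin 3) (u : ℕ) : Bool :=
  (([[2], [2, 3, 4, 6], [9, 10, 8, 1, 0]] : List (List ℕ)).getD P.val []).contains u

/-- Labels joined to the vertex of the current time of the new cycles of part `Q`. -/
def z0 (l : Fin 25) (Q : Fin 3) : Bool :=
  (([[1, 2, 7, 3, 4, 5, 6], [0, 2, 7, 6], [0, 1, 5]] : List (List ℕ)).getD Q.val []).contains l.val

/-- Labels joined to the vertex of the previous time of the new cycles of part `Q`. -/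
def z1 (l : Fin 25) (Q : Fin 3) : Bool :=
  (([[], [6], [5]] : List (List ℕ)).getD Q.val []).contains l.val

/-- Key of a pair agent, new vertex. -/
def kt (P Q : Fin 3) (u : ℕ) : ℕ :=
  if P = 1 ∧ Q = 2 ∧ u = 2 then 27 else if P = 2 ∧ Q = 1 ∧ u = 9 then 34 else 20

/-- Position at which an agent meets a new vertex. -/
def st (P Q : Fin 3) (u : ℕ) (k : Bool) : ℕ :=
  if P = 1 ∧ Q = 2 ∧ u = 2 ∧ k = false then 3 else if P = 2 ∧ Q = 1 ∧ u = 9 ∧ k = true then 10 else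
    if cov P u = true then u else hp P

/-- Parts that may carry a label. -/
def pt (l : Fin 25) (P : Fin 3) : Bool :=
  (([[0, 8, 13, 18, 19, 21], [1, 3, 4, 5, 9, 11, 14, 15, 16, 17, 20, 22],
    [2, 3, 4, 6, 7, 10, 12, 14, 15, 18, 19, 23, 24]] : List (List ℕ)).getD P.val []).contains l.val

/-- Census constants. -/
def cst (l : Fin 25) : ℕ :=
  [1, 2, 2, 1, 1, 1, 1, 1, 1, 1, 1, 1, 1, 1, 1, 1, 1, 1, 1, 1, 1, 8, 2, 0, 3].getD l.val 0

/-- The six flags that occur as keys. -/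
def kap (T0 T1 T2 J5 J0 J1 : Bool) (ty : Bool) (o : ℕ) : Bool :=
  if ty = true then (if o = 5 then T0 else if o = 4 then T1 else T2)
  else (if o = 0 then J5 else if o = 5 then J0 else J1)

lemma gr_symm : ∀ l l', gr l l' = true → gr l' l = true := by decide +kernel

lemma hp_lt : ∀ P, hp P < 12 := by decide

lemma gr_pt : ∀ l l', gr l l' = true → ∀ P, pt l P = true → pt l' P = false := by decide +kernel

lemma pt_alab : ∀ P, ∀ s < 13, ∀ k, pt (alab P s k) P = true := by decide +kernel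

lemma pt_sig : ∀ l Q, pt l Q = true → (∀ P, l = hl P → P = Q) ∧ z0 l Q = false ∧ z1 l Q = false := by
  decide +kernel

lemma adj_ev : ∀ P Q : Fin 3, P < Q → ∀ s < 13, ∀ s' < 13, ∀ k k', adj P s k Q s' k' →
    s = hp P ∨ (s < 12 ∧ s' < 12 ∧ s ≤ hp P + s' ∧ hp P + s' < s + 12) := by
  decide +kernel

lemma adj_tab : ∀ P Q : Fin 3, P < Q → ∀ s0 < 13, ∀ k0, sa P Q s0 k0 < 12 ∧
    (sa P Q s0 k0 = hp P ∨ (s0 < 12 ∧ hp P ≤ s0 + sa P Q s0 k0 ∧ s0 + sa P Q s0 k0 < hp P + 12)) ∧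
    ∀ s < 12, ∀ s' < 13, ((s = hp P ∧ s' = s0) ∨ (s0 < 12 ∧ s' < 12 ∧ hp P + s' = s0 + s)) →
      ∀ k k', (kty P s = decide (20 ≤ ka P Q s0) → ko P s + s = ka P Q s0 % 20 → k = k0) →
        (kty Q s' = decide (20 ≤ ka P Q s0) → ko Q s' + s = ka P Q s0 % 20 → k' = k0) →
        (adj P s k Q s' k' ↔ s = sa P Q s0 k0) := by
  decide +kernel

lemma hub_tab : ∀ P, ∀ s < 13, ∀ k, ∀ P', alab P s k = hl P' ↔ P' = P ∧ s = hp P := by
  decide +kernel

lemma z_tab : ∀ P Q, ∀ s < 13, ∀ k, (z0 (alab P s k) Q = true → s < 12 ∧ s ≠ hp P) ∧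
    (z1 (alab P s k) Q = true → 1 ≤ s ∧ s < 12 ∧ s ≠ hp P) := by
  decide +kernel

lemma tile_tab : ∀ P Q : Fin 3, P ≠ Q → ∀ u < 13, ∀ k0, st P Q u k0 < 12 ∧ ∀ s < 12, ∀ k,
    (kty P s = decide (20 ≤ kt P Q u) → ko P s + s = kt P Q u % 20 → k = k0) →
    (((s = hp P ∧ cov P u = false) ∨ (u = s ∧ z0 (alab P s k) Q = true) ∨
      (u + 1 = s ∧ z1 (alab P s k) Q = true)) ↔ s = st P Q u k0) := by
  decide +kernel

lemma key_tab : ∀ P, ∀ s < 13, (kty P s = true ∧ (ko P s = 5 ∨ ko P s = 4 ∨ ko P s = 7)) ∨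
    (kty P s = false ∧ (ko P s = 0 ∨ ko P s = 5 ∨ ko P s = 4)) := by
  decide +kernel

lemma ord_tab : ∀ P k, alab P 12 k = alab P 12 true := by decide +kernel

lemma cen_tab : ∀ T0 T1 T2 J5 J0 J1 : Bool, ∀ l : Fin 25,
    ∑ P : Fin 3, ∑ s ∈ range 12, (if alab P s (kap T0 T1 T2 J5 J0 J1 (kty P s) (ko P s)) = l then 1
      else 0) + (if 3 = l then 1 else 0) + (if (if T1 = true then 5 else 6) = l then 1 else 0) +
      (if T1 = true ∧ 7 = l then 1 else 0) =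
    cst l + (if (if T0 = true then 1 else 2) = l then 1 else 0) +
      (if (if T1 = true then 1 else 2) = l then 1 else 0) + (if T1 = true ∧ 2 = l then 1 else 0) := by
  decide +kernel

lemma star_tab : ∀ T0 T1 T2 J5 J0 J1 : Bool,
    ∑ s ∈ range 12, (if ma s (kap T0 T1 T2 J5 J0 J1 (kty 1 s) (ko 1 s)) ≠ none then 1 else 0) =
      (if J0 = true then 1 else 0) ∧
    ∑ s ∈ range 12, (if mc s (kap T0 T1 T2 J5 J0 J1 (kty 1 s) (ko 1 s)) ≠ none then 1 else 0) =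
      1 + (if J1 = true then 0 else 1) + (if T1 = true then 1 else 0) := by
  decide +kernel

lemma ma_tab : ∀ s < 13, ∀ k, ∀ s' , ma s k = some s' → s' < 12 ∧ alab 1 s k = 1 ∧ mc s k ≠ none ∧
    (∀ k', alab 0 s' k' = 0) ∧ s = 4 := by
  intro s _ k s' h
  unfold ma at h
  split_ifs at h with h1
  obtain ⟨rfl, rfl⟩ := h1
  obtain rfl : 2 = s' := by simpa using h
  decide

lemma mc_tab : ∀ s < 13, ∀ k, ∀ s' < 12, mc s k = some s' → alab 1 s k = 1 ∧
    (∀ k', (kty 2 s' = kty 1 s → ko 2 s' = ko 1 s → k' = k) → alab 2 s' k' = 2) ∧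
    ∀ s2 < 13, ∀ k2, mc s2 k2 = some s' → s2 = s := by
  decide +kernel

lemma mc_lt (s : ℕ) (k : Bool) (s' : ℕ) (h : mc s k = some s') : s' < 12 := by
  unfold mc at h
  split_ifs at h <;> simp only [Option.some.injEq] at h <;> omega

lemma real_tab : ∀ Q, ∀ s < 13, ∀ k,
    (gr 0 (alab Q s k) = true ↔ Q ≠ 0 ∧ s = hp Q) ∧
    (gr 1 (alab Q s k) = true ↔ Q ≠ 1 ∧ s = hp Q) ∧
    (gr 2 (alab Q s k) = true ↔ Q ≠ 2 ∧ s = hp Q) ∧
    (gr 3 (alab Q s k) = true ↔ Q = 0 ∧ (s = 2 ∨ s = 3)) ∧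
    ((kty Q s = true → ko Q s = 4 → k = true) → Q ≠ 1 →
      (gr 5 (alab Q s k) = true ↔ Q = 2 ∧ (s = 2 ∨ s = 3))) ∧
    (Q ≠ 2 → (gr 6 (alab Q s k) = true ↔ Q = 1 ∧ (s = 7 ∨ s = 8))) ∧
    ((kty Q s = true → ko Q s = 4 → k = true) → Q ≠ 2 →
      (gr 7 (alab Q s k) = true ↔ s = hp Q)) := by
  decide +kernel

end Pool.Agent.Lib.MP_351560_co.D3
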