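import Mathlib
import Pool.Agent.Lib.MP_351560_co.D3Tab
import Pool.Agent.Lib.MP_351560_co.D3Iso

set_option autoImplicit false
set_option linter.unusedSimpArgs false
set_option linter.unusedVariables false
set_option linter.unusedSectionVars false

namespace Pool.Agent.Lib.MP_351560_co.D3

open Finset

variable {t : ℕ} [NeZero t]

/-- Key of the position `s` at time `i`. -/
def key (fl : Bool → ZMod t → Bool) (P : Fin 3) (s : ℕ) (i : ZMod t) : Bool :=
  fl (kty P s) (i + (ko P s : ℕ) - 5)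

/-- Label at time `i` of the agent of part `P` with window starting at `r`. -/
def al (fl : Bool → ZMod t → Bool) (i : ZMod t) (P : Fin 3) (r : ZMod t) : Fin 25 :=
  alab P (pos i r) (key fl P (pos i r) i)

/-- Adjacency pattern of a label to the new cycles. -/
def sig (l : Fin 25) (Q : Fin 3) (d : ZMod t) : Prop :=
  (∃ P, l = hl P ∧ P ≠ Q ∧ cov P (pos d (-((hp P : ℕ) : ZMod t))) = false) ∨ (d = 0 ∧ z0 l Q = true) ∨
    (d = -1 ∧ z1 l Q = true)

lemma key_shift (fl : Bool → ZMod t → Bool) (P : Fin 3) (s s' m : ℕ) (r : ZMod t)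
    (h1 : kty P s' = decide (20 ≤ m)) (h2 : ko P s' + s = m % 20) :
    key fl P s' (r + (s : ZMod t)) = fl (decide (20 ≤ m)) (r + (m % 20 : ℕ) - 5) := by
  rw [key, h1, ← h2]
  congr 1
  push_cast
  ring

lemma ag_cover (ht : 12 ≤ t) (fl : Bool → ZMod t → Bool) (P Q : Fin 3) (hPQ : P < Q)
    (r r' : ZMod t) :
    ∃! i, adj P (pos i r) (key fl P (pos i r) i) Q (pos i r') (key fl Q (pos i r') i) := by
  obtain ⟨s0, hs0⟩ : ∃ s0, pos (r + ((hp P : ℕ) : ZMod t)) r' = s0 := ⟨_, rfl⟩
  have hlt : s0 < 13 := hs0 ▸ pos_lt _ _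
  obtain ⟨t1, t2, t3⟩ := adj_tab P Q hPQ s0 hlt
    (fl (decide (20 ≤ ka P Q s0)) (r + (ka P Q s0 % 20 : ℕ) - 5))
  generalize sa P Q s0 _ = S at t1 t2 t3
  have main : ∀ s : ℕ, s < 12 → (s = hp P ∨ (s0 < 12 ∧ pos (r + (s : ZMod t)) r' < 12 ∧
      hp P + pos (r + (s : ZMod t)) r' = s0 + s)) →
      (adj P s (key fl P s (r + (s : ZMod t))) Q (pos (r + (s : ZMod t)) r') (key fl Q (pos (r + (s : ZMod t)) r') (r + (s : ZMod t))) ↔
        s = S) := by
    intro s hs h
    refine t3 s hs _ (pos_lt _ _) (h.imp_left fun h => ⟨h, by rw [h, hs0]⟩) _ _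
      (key_shift fl P s s _ r) (key_shift fl Q s _ _ r)
  refine ex_one (r + (S : ZMod t)) _ fun i => ⟨fun h => ?_, ?_⟩
  · have h1 := adj_ev P Q hPQ _ (pos_lt _ _) _ (pos_lt _ _) _ _ h
    have h2 : pos i r < 12 := by
      have := hp_lt P
      omega
    have h3 := pos_self ht h2
    generalize pos i r = s at h h1 h2 h3
    subst h3
    rw [(main s h2 (h1.imp_right fun ⟨_, a2, a3, a4⟩ => ?_)).1 h]
    have h4 := pos_self ht a2
    generalize pos (r + (s : ZMod t)) r' = s' at a2 a3 a4 h4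
    obtain ⟨d, hd⟩ := Nat.exists_eq_add_of_le a3
    have h5 : ((hp P + s' : ℕ) : ZMod t) = (s + d : ℕ) := by rw [hd]
    push_cast at h5
    have : s0 = d := by
      rw [← hs0, pos_eq ht (by omega)]
      linear_combination h4 + h5
    omega
  · rintro rfl
    rw [(pos_eq ht t1).2 rfl]
    refine (main S t1 (t2.imp_right fun ⟨a1, a2, a3⟩ => ?_)).2 rfl
    obtain ⟨d, hd⟩ := Nat.exists_eq_add_of_le a2
    have h5 : ((s0 + S : ℕ) : ZMod t) = (hp P + d : ℕ) := by rw [hd]
    push_cast at h5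
    have h4 := (pos_eq ht a1).1 hs0
    have : pos (r + (S : ZMod t)) r' = d := by
      rw [pos_eq ht (by omega)]
      linear_combination h4 + h5
    omega

lemma ag_tile (ht : 12 ≤ t) (fl : Bool → ZMod t → Bool) (P Q : Fin 3) (hPQ : P ≠ Q)
    (r j : ZMod t) : ∃! i, sig (al fl i P r) Q (j - i) := by
  obtain ⟨u, hu⟩ : ∃ u, pos j r = u := ⟨_, rfl⟩
  have hlt : u < 13 := hu ▸ pos_lt _ _
  obtain ⟨t1, t3⟩ := tile_tab P Q hPQ u hlt
    (fl (decide (20 ≤ kt P Q u)) (r + (kt P Q u % 20 : ℕ) - 5))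
  generalize st P Q u _ = S at t1 t3
  have main : ∀ s : ℕ, s < 12 → (sig (alab P s (key fl P s (r + (s : ZMod t)))) Q (j - (r + (s : ZMod t))) ↔ s = S) := by
    intro s hs
    rw [← t3 s hs _ (key_shift fl P s s _ r)]
    generalize key fl P s (r + (s : ZMod t)) = k
    refine or_congr ?_ (or_congr ?_ ?_)
    · simp only [hub_tab P s (by omega)]
      have e : s = hp P → pos (j - (r + (s : ZMod t))) (-((hp P : ℕ) : ZMod t)) = u := by
        rintro rfl
        rw [← hu, pos, pos]
        congr 2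
        ring
      constructor
      · rintro ⟨_, ⟨rfl, h1⟩, -, h2⟩
        exact ⟨h1, e h1 ▸ h2⟩
      · rintro ⟨h1, h2⟩
        exact ⟨P, ⟨rfl, h1⟩, hPQ, (e h1).symm ▸ h2⟩
    · rw [← hu, pos_eq ht hs, sub_eq_zero]
    · refine and_congr_left fun h => ?_
      obtain ⟨d, rfl⟩ := Nat.exists_eq_add_of_le' ((z_tab P Q s (by omega) k).2 h).1
      rw [Nat.add_right_cancel_iff, ← hu, pos_eq ht (by omega)]
      push_cast
      constructor <;> intro h <;> linear_combination h
  refine ex_one (r + (S : ZMod t)) _ fun i => ⟨fun h => ?_, ?_⟩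
  · have h2 : pos i r < 12 := by
      have := hp_lt P
      have h1 := z_tab P Q _ (pos_lt i r) (key fl P (pos i r) i)
      rcases h with ⟨P', h, -⟩ | h | h
      · have := ((hub_tab P _ (pos_lt i r) _ P').1 h).2
        omega
      · exact (h1.1 h.2).1
      · exact (h1.2 h.2).2.1
    have h3 := pos_self ht h2
    unfold al at h
    generalize pos i r = s at h h2 h3
    subst h3
    rw [(main s h2).1 h]
  · rintro rfl
    rw [al, (pos_eq ht t1).2 rfl]
    exact (main S t1).2 rfl

lemma key_kap (fl : Bool → ZMod t → Bool) (i : ZMod t) (P : Fin 3) (s : ℕ) (hs : s < 13) :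
    key fl P s i = kap (fl true i) (fl true (i - 1)) (fl true (i + 2)) (fl false (i - 5))
      (fl false i) (fl false (i - 1)) (kty P s) (ko P s) := by
  rcases key_tab P s hs with ⟨h, h' | h' | h'⟩ | ⟨h, h' | h' | h'⟩ <;> rw [key, h, h'] <;>
    simp [kap] <;> congr 1 <;> ring

lemma ag_count (ht : 12 ≤ t) (fl : Bool → ZMod t → Bool) (i : ZMod t) (l : Fin 25) :
    ∑ P : Fin 3, ∑ r, (if al fl i P r = l then 1 else 0) + (if 3 = l then 1 else 0) +
      (if (if fl true (i - 1) = true then 5 else 6) = l then 1 else 0) +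
      (if fl true (i - 1) = true ∧ 7 = l then 1 else 0) =
    (cst l + ∑ P : Fin 3, (t - 12) * if alab P 12 true = l then 1 else 0) +
      (if (if fl true i = true then 1 else 2) = l then 1 else 0) +
      (if (if fl true (i - 1) = true then 1 else 2) = l then 1 else 0) +
      (if fl true (i - 1) = true ∧ 2 = l then 1 else 0) := by
  have e : ∀ P : Fin 3, ∑ r, (if al fl i P r = l then 1 else 0) =
      ∑ s ∈ range 12, (if alab P s (kap (fl true i) (fl true (i - 1)) (fl true (i + 2))
        (fl false (i - 5)) (fl false i) (fl false (i - 1)) (kty P s) (ko P s)) = l then 1 else 0) +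
        (t - 12) * if alab P 12 true = l then 1 else 0 := by
    intro P
    have := sum_pos ht i fun s => if alab P s (key fl P s i) = l then 1 else 0
    rw [ord_tab] at this
    refine this.trans (congrArg (· + _) (sum_congr rfl fun s hs => ?_))
    rw [key_kap fl i P s (by have := mem_range.1 hs; omega)]
  have := cen_tab (fl true i) (fl true (i - 1)) (fl true (i + 2))
    (fl false (i - 5)) (fl false i) (fl false (i - 1)) l
  rw [sum_congr rfl fun P _ => e P, sum_add_distrib]
  omega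

lemma star_count (ht : 12 ≤ t) (fl : Bool → ZMod t → Bool) (i : ZMod t) :
    ∑ r, (if ma (pos i r) (key fl 1 (pos i r) i) ≠ none then 1 else 0) =
      (if fl false i = true then 1 else 0) ∧
    ∑ r, (if mc (pos i r) (key fl 1 (pos i r) i) ≠ none then 1 else 0) =
      1 + (if fl false (i - 1) = true then 0 else 1) +
        (if fl true (i - 1) = true then 1 else 0) := by
  have h := star_tab (fl true i) (fl true (i - 1)) (fl true (i + 2))
    (fl false (i - 5)) (fl false i) (fl false (i - 1))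
  have e1 := sum_pos ht i fun s => if ma s (key fl 1 s i) ≠ none then 1 else 0
  have e2 := sum_pos ht i fun s => if mc s (key fl 1 s i) ≠ none then 1 else 0
  rw [if_neg (by simp [ma]), mul_zero, add_zero] at e1
  rw [if_neg (by simp [mc]), mul_zero, add_zero] at e2
  refine ⟨e1.trans (Eq.trans (sum_congr rfl fun s hs => ?_) h.1),
    e2.trans (Eq.trans (sum_congr rfl fun s hs => ?_) h.2)⟩ <;>
  rw [key_kap fl i 1 s (by have := mem_range.1 hs; omega)]

lemma sig_pt (l : Fin 25) (Q : Fin 3) (d : ZMod t) (h : pt l Q = true) : ¬ sig l Q d := by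
  obtain ⟨h1, h2, h3⟩ := pt_sig l Q h
  rintro (⟨P, a1, a2, -⟩ | a | a)
  · exact a2 (h1 P a1)
  · simp [h2] at a
  · simp [h3] at a

end Pool.Agent.Lib.MP_351560_co.D3
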