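import Mathlib
import Pool.Agent.Lib.MP_351560_co.Piece

set_option autoImplicit false

namespace Pool.Agent.Lib.MP_351560_co

open Finset

/-- Timetable of the residual parts `Fin a`, `B`, `Fin c` for the scheme with one mixed hub:
`om i` plays the hub at time `i`, `x v i` and `w v i` are the leaves of `v` at time `i`. -/
structure Sch (t : ℕ) [NeZero t] (a c : ℕ) (B : Type) [Fintype B] [DecidableEq B]
    (J : ZMod t → Bool) (om : ZMod t → B ⊕ Fin c) (x : B → ZMod t → Option (Fin c))
    (w : B → ZMod t → Option (Fin a)) (n1 n2 : ℕ) : Prop where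
  om_inj : ∀ i j, om i = om j → i = j
  om_surj : ∀ z, ∃ i, om i = .inr z
  x_ex : ∀ v z, ∃ i, x v i = some z
  x_un : ∀ v z i j, x v i = some z → x v j = some z → i = j
  x_inj : ∀ i v v' z, x v i = some z → x v' i = some z → v = v'
  x_free : ∀ i z v, om i = .inr z → x v i ≠ some z ∧ x v (i + 1) ≠ some z
  x_om : ∀ i y, om i = .inl y → x y i = none ∧ x y (i + 1) ≠ none ∧ ∀ j, w y j = none
  w_ex : ∀ v u, (∀ i, om i ≠ .inl v) → ∃ i, w v i = some u
  w_un : ∀ v u i j, w v i = some u → w v j = some u → i = j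
  w_inj : ∀ i v v' u, w v i = some u → w v' i = some u → v = v'
  w_x : ∀ v i, w v i ≠ none → x v i ≠ none
  cw : ∀ i, (univ.filter fun v => w v i ≠ none).card + (if J i then 1 else 0) = n1
  cx : ∀ i, (univ.filter fun v => x v i ≠ none).card + (if J (i - 1) then 0 else 1) = n2

/-- Existence of a timetable. -/
def HasSch (t : ℕ) [NeZero t] (a b c : ℕ) : Prop :=
  ∃ (B : Type) (_ : Fintype B) (_ : DecidableEq B), Fintype.card B = b ∧
    ∃ J om x w n1 n2, Sch t a c B J om x w n1 n2

end Pool.Agent.Lib.MP_351560_co
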