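import Mathlib
import Pool.Agent.Lib.MP_351560_co.D3Def
import Pool.Agent.Lib.MP_351560_co.D3Ag

set_option autoImplicit false
set_option linter.unusedSimpArgs false
set_option linter.unusedVariables false
set_option linter.unusedSectionVars false

namespace Pool.Agent.Lib.MP_351560_co.D3

open Finset

variable {t a c : ℕ} [NeZero t] {B : Type} [Fintype B] [DecidableEq B]

/-- The vertex `y` is the leaf at time `i` of the previous hub. -/
def lamc (om : ZMod t → B ⊕ Fin c) (x : B → ZMod t → Option (Fin c)) (i : ZMod t)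
    (y : B ⊕ Fin c) : Prop :=
  ∃ v z, om (i - 1) = .inl v ∧ y = .inr z ∧ x v i = some z

instance (om : ZMod t → B ⊕ Fin c) (x : B → ZMod t → Option (Fin c)) (i : ZMod t)
    (y : B ⊕ Fin c) : Decidable (lamc om x i y) := by
  unfold lamc; infer_instance

/-- Label at time `i` of a residual vertex of the second or third part. -/
def rl (om : ZMod t → B ⊕ Fin c) (x : B → ZMod t → Option (Fin c)) (i : ZMod t)
    (y : B ⊕ Fin c) : Fin 25 :=
  if om i = y then 3 else if om (i - 1) = y then (if y.isLeft = true then 5 else 6) else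
    if lamc om x i y then 7 else if y.isLeft = true then 1 else 2

/-- The flags of a timetable. -/
def fl (J : ZMod t → Bool) (om : ZMod t → B ⊕ Fin c) (ty : Bool) (i : ZMod t) : Bool :=
  if ty = true then (om i).isLeft else J i

variable {J : ZMod t → Bool} {om : ZMod t → B ⊕ Fin c} {x : B → ZMod t → Option (Fin c)}
  {w : B → ZMod t → Option (Fin a)} {n1 n2 : ℕ}

lemma rl_cases (ht : 12 ≤ t) (h : Sch t a c B J om x w n1 n2) (i : ZMod t) (y : B ⊕ Fin c) :
    (om i = y ∧ om (i - 1) ≠ y ∧ ¬ lamc om x i y ∧ rl om x i y = 3) ∨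
    (om i ≠ y ∧ om (i - 1) = y ∧ ¬ lamc om x i y ∧ y.isLeft = true ∧ rl om x i y = 5) ∨
    (om i ≠ y ∧ om (i - 1) = y ∧ ¬ lamc om x i y ∧ y.isLeft = false ∧ rl om x i y = 6) ∨
    (om i ≠ y ∧ om (i - 1) ≠ y ∧ lamc om x i y ∧ y.isLeft = false ∧ (om (i - 1)).isLeft = true ∧
      rl om x i y = 7) ∨
    (om i ≠ y ∧ om (i - 1) ≠ y ∧ ¬ lamc om x i y ∧ y.isLeft = true ∧ rl om x i y = 1) ∨
    (om i ≠ y ∧ om (i - 1) ≠ y ∧ ¬ lamc om x i y ∧ y.isLeft = false ∧ rl om x i y = 2) := by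
  unfold rl
  by_cases h1 : om i = y
  · refine .inl ⟨h1, fun h2 => one_ne ht i (h.om_inj _ _ (h2.trans h1.symm)), ?_, if_pos h1⟩
    rintro ⟨v, z, -, rfl, h3⟩
    exact (h.x_free i z v h1).1 h3
  · by_cases h2 : om (i - 1) = y
    · have h3 : ¬ lamc om x i y := by
        rintro ⟨v, z, h3, rfl, -⟩
        simp [h3] at h2
      cases h4 : y.isLeft <;> simp [h1, h2, h3, h4]
    · by_cases h3 : lamc om x i y
      · have ⟨v, z, a1, a2, _⟩ := h3
        refine .inr (.inr (.inr (.inl ⟨h1, h2, h3, by rw [a2]; rfl, by rw [a1]; rfl, ?_⟩)))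
        rw [if_neg h1, if_neg h2, if_pos h3]
      · cases h4 : y.isLeft <;> simp [h1, h2, h3, h4]

lemma lam_count (h : Sch t a c B J om x w n1 n2) (i : ZMod t) (C : Prop) [Decidable C] :
    ∑ y, (if lamc om x i y ∧ C then 1 else 0) =
      if (om (i - 1)).isLeft = true ∧ C then 1 else 0 := by
  by_cases hC : C
  · simp only [hC, and_true]
    rcases e : om (i - 1) with v | z
    · obtain ⟨z, hz⟩ := Option.ne_none_iff_exists'.1 (h.x_om _ v e).2.1
      rw [sub_add_cancel] at hz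
      have : ∀ y, lamc om x i y ↔ y = .inr z := fun y =>
        ⟨fun ⟨v', z', a1, a2, a3⟩ => by
          obtain rfl : v = v' := Sum.inl.inj (e.symm.trans a1)
          rw [a2, Option.some.inj (a3.symm.trans hz)], fun hy => ⟨v, z, e, hy, hz⟩⟩
      simp [this]
    · have : ∀ y, ¬ lamc om x i y := fun y ⟨v', z', a1, _⟩ => by simp [e] at a1
      simp [this]
  · simp [hC]

lemma real_count (ht : 12 ≤ t) (h : Sch t a c B J om x w n1 n2) (i : ZMod t) (l : Fin 25) :
    ∑ y, (if rl om x i y = l then 1 else 0) +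
      (if (if (om i).isLeft = true then 1 else 2) = l then 1 else 0) +
      (if (if (om (i - 1)).isLeft = true then 1 else 2) = l then 1 else 0) +
      (if (om (i - 1)).isLeft = true ∧ 2 = l then 1 else 0) =
    ∑ y : B ⊕ Fin c, (if (if y.isLeft = true then 1 else 2) = l then 1 else 0) +
      (if 3 = l then 1 else 0) +
      (if (if (om (i - 1)).isLeft = true then 5 else 6) = l then 1 else 0) +
      (if (om (i - 1)).isLeft = true ∧ 7 = l then 1 else 0) := by
  have e : ∀ y : B ⊕ Fin c, (if rl om x i y = l then 1 else 0) +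
      (if om i = y then (if (if y.isLeft = true then 1 else 2) = l then 1 else 0) else 0) +
      (if om (i - 1) = y then (if (if y.isLeft = true then 1 else 2) = l then 1 else 0) else 0) +
      (if lamc om x i y ∧ 2 = l then 1 else 0) =
      (if (if y.isLeft = true then 1 else 2) = l then 1 else 0) +
      (if om i = y then (if 3 = l then 1 else 0) else 0) +
      (if om (i - 1) = y then (if (if y.isLeft = true then 5 else 6) = l then 1 else 0) else 0) +
      (if lamc om x i y ∧ 7 = l then 1 else 0) := by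
    intro y
    rcases rl_cases ht h i y with ⟨a1, a2, a3, a4⟩ | ⟨a1, a2, a3, a4, a5⟩ | ⟨a1, a2, a3, a4, a5⟩ |
      ⟨a1, a2, a3, a4, -, a5⟩ | ⟨a1, a2, a3, a4, a5⟩ | ⟨a1, a2, a3, a4, a5⟩ <;>
    simp only [*, if_true, if_false, false_and, true_and, add_zero, Bool.false_eq_true] <;> omega
  have := sum_congr (s₁ := univ) rfl fun y _ => e y
  simp only [sum_add_distrib, sum_ite_eq, mem_univ, if_true, lam_count h] at this
  exact this

lemma x_count (h : Sch t a c B J om x w n1 n2) (i : ZMod t) :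
    ∑ v, (if om (i - 1) ≠ .inl v ∧ x v i ≠ none then 1 else 0) +
      (if (om (i - 1)).isLeft = true then 1 else 0) = (univ.filter fun v => x v i ≠ none).card := by
  rw [card_filter]
  rcases e : om (i - 1) with v | z
  · have hz := (h.x_om _ v e).2.1
    rw [sub_add_cancel] at hz
    have : ∀ v', (if (Sum.inl v : B ⊕ Fin c) ≠ .inl v' ∧ x v' i ≠ none then 1 else 0) +
        (if v = v' then 1 else 0) = if x v' i ≠ none then 1 else 0 := by
      intro v'
      by_cases hv : v = v'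
      · simp [← hv, hz]
      · simp [hv]
    rw [← sum_congr rfl fun v' _ => this v', sum_add_distrib]
    simp
  · simp

lemma real_ag (ht : 12 ≤ t) (h : Sch t a c B J om x w n1 n2) (y : B ⊕ Fin c) (Q : Fin 3)
    (r : ZMod t) (hQ : (if y.isLeft = true then 1 else 2) ≠ Q) :
    ∃! i, gr (rl om x i y) (al (fl J om) i Q r) = true := by
  have p2 : ∀ i, pos i r = 2 ↔ i = r + 2 := fun i => pos_eq ht (s := 2) (by omega)
  have p3 : ∀ i, pos i r = 3 ↔ i = r + 3 := fun i => pos_eq ht (s := 3) (by omega)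
  have p7 : ∀ i, pos i r = 7 ↔ i = r + 7 := fun i => pos_eq ht (s := 7) (by omega)
  have p8 : ∀ i, pos i r = 8 ↔ i = r + 8 := fun i => pos_eq ht (s := 8) (by omega)
  have hk : ∀ i s, (om (i - 1)).isLeft = true → kty Q s = true → ko Q s = 4 →
      key (fl J om) Q s i = true := by
    intro i s h1 h2 h3
    have : i + ((4 : ℕ) : ZMod t) - 5 = i - 1 := by push_cast; ring
    rw [key, h2, h3, fl, if_pos rfl, this, h1]
  have e3 : r + 3 - 1 = r + 2 := by ring
  have e8 : r + 8 - 1 = r + 7 := by ring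
  have key : ∀ i, gr (rl om x i y) (al (fl J om) i Q r) = true ↔
      if Q = 0 then (pos i r = 3 ∧ om (i - 1) ≠ y) ∨ (pos i r = 2 ∧ om i = y)
      else (pos i r = hp Q ∧ om i ≠ y) ∨ (pos i r = hp Q + 1 ∧ om (i - 1) = y) := by
    intro i
    obtain ⟨-, b1, b2, b3, b5, b6, b7⟩ := real_tab Q _ (pos_lt i r) (key (fl J om) Q (pos i r) i)
    unfold al
    rcases rl_cases ht h i y with ⟨a1, a2, a3, a4⟩ | ⟨a1, a2, a3, a4, a5⟩ | ⟨a1, a2, a3, a4, a5⟩ |
      ⟨a1, a2, a3, a4, a6, a5⟩ | ⟨a1, a2, a3, a4, a5⟩ | ⟨a1, a2, a3, a4, a5⟩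
    · rw [a4, b3]
      split_ifs with hq <;> simp [hq, a1, a2, or_comm]
    · rw [a4, if_pos rfl] at hQ
      rw [a5, b5 (hk i _ (a2 ▸ a4)) hQ.symm]
      fin_cases Q <;> simp [a1, a2, hp] at hQ ⊢
    · rw [a4, if_neg (by simp)] at hQ
      rw [a5, b6 hQ.symm]
      fin_cases Q <;> simp [a1, a2, hp] at hQ ⊢
    · rw [a4, if_neg (by simp)] at hQ
      rw [a5, b7 (hk i _ a6) hQ.symm]
      fin_cases Q <;> simp [a1, a2, hp] at hQ ⊢
    · rw [a4, if_pos rfl] at hQ
      rw [a5, b1]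
      fin_cases Q <;> simp [a1, a2, hp] at hQ ⊢
    · rw [a4, if_neg (by simp)] at hQ
      rw [a5, b2]
      fin_cases Q <;> simp [a1, a2, hp] at hQ ⊢
  fin_cases Q
  · refine ex_two (r + 3) (r + 2) (om (r + 2) = y) _ fun i => (key i).trans ?_
    simp only [Fin.zero_eta, if_true, p2, p3]
    exact or_congr (and_congr_right fun h => by rw [h, e3]) (and_congr_right fun h => by rw [h])
  · refine ex_two (r + 7) (r + 8) (om (r + 7) = y) _ fun i => (key i).trans ?_
    rw [if_neg (by decide)]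
    exact or_congr (by rw [← p7]; exact and_congr_right fun h => by rw [(p7 i).1 h])
      (by rw [← p8]; exact and_congr_right fun h => by rw [(p8 i).1 h, e8])
  · refine ex_two (r + 2) (r + 3) (om (r + 2) = y) _ fun i => (key i).trans ?_
    rw [if_neg (by decide)]
    exact or_congr (by rw [← p2]; exact and_congr_right fun h => by rw [(p2 i).1 h])
      (by rw [← p3]; exact and_congr_right fun h => by rw [(p3 i).1 h, e3])

lemma sig_real (l : Fin 25) (hl' : l.val < 8) (Q : Fin 3) (d : ZMod t) :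
    sig l Q d ↔ (d = 0 ∧ z0 l Q = true) ∨ (d = -1 ∧ z1 l Q = true) := by
  refine or_iff_right ?_
  rintro ⟨P, rfl, -⟩
  revert P
  decide

lemma real_tile (ht : 12 ≤ t) (h : Sch t a c B J om x w n1 n2) (y : B ⊕ Fin c) (Q : Fin 3)
    (j : ZMod t) (hQ : (if y.isLeft = true then 1 else 2) ≠ Q) :
    ∃! i, sig (rl om x i y) Q (j - i) := by
  have key : ∀ i d, sig (rl om x i y) Q (d : ZMod t) ↔
      if Q = 0 then d = 0 else (d = 0 ∧ om i ≠ y) ∨ (d = -1 ∧ om (i - 1) = y) := by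
    intro i d
    rcases rl_cases ht h i y with ⟨a1, a2, a3, a5⟩ | ⟨a1, a2, a3, a4, a5⟩ | ⟨a1, a2, a3, a4, a5⟩ |
      ⟨a1, a2, a3, a4, a6, a5⟩ | ⟨a1, a2, a3, a4, a5⟩ | ⟨a1, a2, a3, a4, a5⟩ <;>
    rw [a5, sig_real _ (by decide)] <;> fin_cases Q <;> simp [*, z0, z1] at hQ ⊢
  by_cases hq : Q = 0
  · exact ex_one j _ fun i => by rw [key, if_pos hq, sub_eq_zero, eq_comm]
  · refine ex_two j (j + 1) (om j = y) _ fun i => ?_
    rw [key, if_neg hq, sub_eq_zero, eq_comm]
    refine or_congr (and_congr_right fun h => by rw [h]) ?_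
    have : j - i = -1 ↔ i = j + 1 := by constructor <;> intro h <;> linear_combination -h
    rw [this]
    exact and_congr_right fun h => by rw [h, add_sub_cancel_right]

lemma real_real (ht : 12 ≤ t) (h : Sch t a c B J om x w n1 n2) (v : B) (z : Fin c) (i : ZMod t) :
    gr (rl om x i (.inl v)) (rl om x i (.inr z)) = true ↔ om (i - 1) = .inl v ∧ x v i = some z := by
  have e : (om (i - 1) = .inl v ∧ x v i = some z) ↔
      (om (i - 1) = .inl v ∧ lamc om x i (.inr z)) := and_congr_right fun h1 =>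
    ⟨fun h2 => ⟨v, z, h1, rfl, h2⟩, fun ⟨v', z', a1, a2, a3⟩ => by
      rw [Sum.inl.inj (h1.symm.trans a1), Sum.inr.inj a2, a3]⟩
  rw [e]
  rcases rl_cases ht h i (.inl v) with ⟨a1, a2, a3, a5⟩ | ⟨a1, a2, a3, a4, a5⟩ |
      ⟨a1, a2, a3, a4, a5⟩ | ⟨a1, a2, a3, a4, a6, a5⟩ | ⟨a1, a2, a3, a4, a5⟩ |
      ⟨a1, a2, a3, a4, a5⟩ <;>
  rcases rl_cases ht h i (.inr z) with ⟨b1, b2, b3, b5⟩ | ⟨b1, b2, b3, b4, b5⟩ |
      ⟨b1, b2, b3, b4, b5⟩ | ⟨b1, b2, b3, b4, b6, b5⟩ | ⟨b1, b2, b3, b4, b5⟩ |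
      ⟨b1, b2, b3, b4, b5⟩ <;>
  first
  | exact Bool.noConfusion a4
  | exact Bool.noConfusion b4
  | (rw [a5, b5]; exact iff_of_true (by decide) ⟨a2, b3⟩)
  | (rw [a5, b5]; exact iff_of_false (by decide) fun h => a2 h.1)
  | (rw [a5, b5]; exact iff_of_false (by decide) fun h => b3 h.2)

lemma rl_pt (ht : 12 ≤ t) (h : Sch t a c B J om x w n1 n2) (i : ZMod t) (y : B ⊕ Fin c) :
    pt (rl om x i y) (if y.isLeft = true then 1 else 2) = true ∧
      (gr 0 (rl om x i y) = true ↔ om i = y) := by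
  rcases rl_cases ht h i y with ⟨a1, a2, a3, a5⟩ | ⟨a1, a2, a3, a4, a5⟩ | ⟨a1, a2, a3, a4, a5⟩ |
      ⟨a1, a2, a3, a4, a6, a5⟩ | ⟨a1, a2, a3, a4, a5⟩ | ⟨a1, a2, a3, a4, a5⟩
  · rw [a5]
    simp only [a1, iff_true]
    split_ifs <;> decide
  all_goals
    rw [a5, a4]
    simp only [a1, iff_false]
    decide

end Pool.Agent.Lib.MP_351560_co.D3
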