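import Mathlib
import Pool.Agent.Lib.MP_351560_co.D3Real

set_option autoImplicit false
set_option linter.unusedSimpArgs false
set_option linter.unusedVariables false
set_option linter.unusedSectionVars false

namespace Pool.Agent.Lib.MP_351560_co.D3

open Finset

variable {t a c : ℕ} [NeZero t] {B : Type} [Fintype B] [DecidableEq B]

/-- Vertices: the three residual parts and the agents. -/
abbrev Vt (t a c : ℕ) (B : Type) : Type := (Fin a ⊕ B ⊕ Fin c) ⊕ Fin 3 × ZMod t

/-- Part of a vertex. -/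
def vp : Vt t a c B → Fin 3
  | .inl (.inl _) => 0
  | .inl (.inr y) => if y.isLeft = true then 1 else 2
  | .inr z => z.1

/-- Label of a vertex. -/
def vl (J : ZMod t → Bool) (om : ZMod t → B ⊕ Fin c) (x : B → ZMod t → Option (Fin c))
    (i : ZMod t) : Vt t a c B → Fin 25
  | .inl (.inl _) => 0
  | .inl (.inr y) => rl om x i y
  | .inr z => al (fl J om) i z.1 z.2

/-- Private leaf in the first part. -/
def vla (J : ZMod t → Bool) (om : ZMod t → B ⊕ Fin c) (w : B → ZMod t → Option (Fin a))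
    (i : ZMod t) : Vt t a c B → Option (Vt t a c B)
  | .inl (.inr (.inl v)) => (w v i).map fun u => .inl (.inl u)
  | .inl _ => none
  | .inr z => if z.1 = 1 then (ma (pos i z.2) (key (fl J om) 1 (pos i z.2) i)).map
      fun s : ℕ => .inr (0, i - s) else none

/-- Private leaf in the third part. -/
def vlc (J : ZMod t → Bool) (om : ZMod t → B ⊕ Fin c) (x : B → ZMod t → Option (Fin c))
    (i : ZMod t) : Vt t a c B → Option (Vt t a c B)
  | .inl (.inr (.inl v)) => if om (i - 1) = .inl v then none else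
      (x v i).map fun z => .inl (.inr (.inr z))
  | .inl _ => none
  | .inr z => if z.1 = 1 then (mc (pos i z.2) (key (fl J om) 1 (pos i z.2) i)).map
      fun s : ℕ => .inr (2, i - s) else none

variable {J : ZMod t → Bool} {om : ZMod t → B ⊕ Fin c} {x : B → ZMod t → Option (Fin c)}
  {w : B → ZMod t → Option (Fin a)} {n1 n2 : ℕ}

lemma map_pos (ht : 12 ≤ t) (o : Option ℕ) (ho : ∀ s, o = some s → s < 12) (i : ZMod t)
    (Q : Fin 3) (v : Vt t a c B) :
    o.map (fun s : ℕ => (.inr (Q, i - s) : Vt t a c B)) = some v ↔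
      ∃ r, v = .inr (Q, r) ∧ o = some (pos i r) ∧ pos i r < 12 := by
  constructor
  · intro h
    obtain ⟨s, rfl, rfl⟩ := Option.map_eq_some_iff.1 h
    have : pos i (i - s) = s := (pos_eq ht (ho s rfl)).2 (by ring)
    exact ⟨_, rfl, by rw [this], by rw [this]; exact ho s rfl⟩
  · rintro ⟨r, rfl, h1, h2⟩
    have := pos_self ht h2
    rw [h1, Option.map_some]
    congr 3
    linear_combination this

lemma vla_iff (ht : 12 ≤ t) (i : ZMod t) (u v : Vt t a c B) : vla J om w i u = some v ↔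
    (∃ y z, u = .inl (.inr (.inl y)) ∧ v = .inl (.inl z) ∧ w y i = some z) ∨
    ∃ r r', u = .inr (1, r) ∧ v = .inr (0, r') ∧
      ma (pos i r) (key (fl J om) 1 (pos i r) i) = some (pos i r') ∧ pos i r' < 12 := by
  rcases u with (u | y | z) | ⟨P, r⟩
  · simp [vla]
  · simp [vla, eq_comm (a := v), and_comm]
  · simp [vla]
  · by_cases hP : P = 1
    · subst hP
      simp only [vla, if_true]
      rw [map_pos ht _ fun s hs => (ma_tab _ (pos_lt _ _) _ s hs).1]
      simp
    · simp [vla, hP]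

lemma vlc_iff (ht : 12 ≤ t) (i : ZMod t) (u v : Vt t a c B) : vlc J om x i u = some v ↔
    (∃ y z, u = .inl (.inr (.inl y)) ∧ v = .inl (.inr (.inr z)) ∧ om (i - 1) ≠ .inl y ∧
      x y i = some z) ∨
    ∃ r r', u = .inr (1, r) ∧ v = .inr (2, r') ∧
      mc (pos i r) (key (fl J om) 1 (pos i r) i) = some (pos i r') ∧ pos i r' < 12 := by
  rcases u with (u | y | z) | ⟨P, r⟩
  · simp [vlc]
  · by_cases h : om (i - 1) = .inl y <;> simp [vlc, h, eq_comm (a := v), and_comm]
  · simp [vlc]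
  · by_cases hP : P = 1
    · subst hP
      simp only [vlc, if_true]
      rw [map_pos ht _ (mc_lt _ _)]
      simp
    · simp [vlc, hP]

lemma vl_pt (ht : 12 ≤ t) (h : Sch t a c B J om x w n1 n2) (i : ZMod t) (u : Vt t a c B) :
    pt (vl J om x i u) (vp u) = true := by
  rcases u with (u | y) | ⟨P, r⟩
  · exact (by decide : pt 0 0 = true)
  · exact (rl_pt ht h i y).1
  · exact pt_alab _ _ (pos_lt _ _) _

lemma vla_lab (ht : 12 ≤ t) (h : Sch t a c B J om x w n1 n2) (i : ZMod t) (u v : Vt t a c B)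
    (e : vla J om w i u = some v) :
    vl J om x i u = 1 ∧ vl J om x i v = 0 ∧ vlc J om x i u ≠ none := by
  rcases (vla_iff ht i u v).1 e with ⟨y, z, rfl, rfl, h1⟩ | ⟨r, r', rfl, rfl, h1, h2⟩
  · have h2 : ∀ j, om j ≠ .inl y := fun j hj => by simpa [h1] using (h.x_om j y hj).2.2 i
    have h3 : ¬ lamc om x i (.inl y) := fun ⟨_, _, _, h, _⟩ => by simp at h
    refine ⟨by simp [vl, rl, h2, h3], rfl, ?_⟩
    simpa [vlc, h2] using h.w_x y i (by simp [h1])
  · obtain ⟨-, a1, a2, a3, -⟩ := ma_tab _ (pos_lt _ _) _ _ h1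
    exact ⟨a1, a3 _, by simpa [vlc] using a2⟩

lemma vlc_lab (ht : 12 ≤ t) (h : Sch t a c B J om x w n1 n2) (i : ZMod t) (u v : Vt t a c B)
    (e : vlc J om x i u = some v) : vl J om x i u = 1 ∧ vl J om x i v = 2 := by
  rcases (vlc_iff ht i u v).1 e with ⟨y, z, rfl, rfl, h0, h1⟩ | ⟨r, r', rfl, rfl, h1, h2⟩
  · have h2 : om i ≠ .inl y := fun hj => by simpa [h1] using (h.x_om i y hj).1
    have h3 : ¬ lamc om x i (.inl y) := fun ⟨_, _, _, h, _⟩ => by simp at h
    have h4 : om i ≠ .inr z := fun hj => (h.x_free i z y hj).1 h1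
    have h5 : om (i - 1) ≠ .inr z := fun hj =>
      (h.x_free _ z y hj).2 (by rw [sub_add_cancel, h1])
    have h6 : ¬ lamc om x i (.inr z) := fun ⟨y', z', a1, a2, a3⟩ => by
      obtain rfl := Sum.inr.inj a2
      exact h0 (h.x_inj i _ _ _ h1 a3 ▸ a1)
    exact ⟨by simp [vl, rl, h0, h2, h3], by simp [vl, rl, h4, h5, h6]⟩
  · obtain ⟨a1, a2, -⟩ := mc_tab _ (pos_lt _ _) _ _ h2 h1
    exact ⟨a1, a2 _ fun b1 b2 => by rw [key, key, b1, b2]⟩

lemma vla_inj (ht : 12 ≤ t) (h : Sch t a c B J om x w n1 n2) (i : ZMod t) (u u' v : Vt t a c B)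
    (e : vla J om w i u = some v) (e' : vla J om w i u' = some v) : u = u' := by
  rcases (vla_iff ht i u v).1 e with ⟨y, z, rfl, rfl, h1⟩ | ⟨r, r', rfl, rfl, h1, h2⟩ <;>
  rcases (vla_iff ht i u' _).1 e' with ⟨y', z', rfl, a, a1⟩ | ⟨s, s', rfl, a, a1, a2⟩
  · obtain rfl : z = z' := by simpa using a
    rw [h.w_inj i _ _ _ h1 a1]
  · simp at a
  · simp at a
  · have b1 := (ma_tab _ (pos_lt _ _) _ _ h1).2.2.2.2
    have b2 := (ma_tab _ (pos_lt _ _) _ _ a1).2.2.2.2
    rw [pos_eq ht (by omega)] at b1 b2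
    rw [add_right_cancel (b1.symm.trans b2)]

lemma vlc_inj (ht : 12 ≤ t) (h : Sch t a c B J om x w n1 n2) (i : ZMod t) (u u' v : Vt t a c B)
    (e : vlc J om x i u = some v) (e' : vlc J om x i u' = some v) : u = u' := by
  rcases (vlc_iff ht i u v).1 e with ⟨y, z, rfl, rfl, -, h1⟩ | ⟨r, r', rfl, rfl, h1, h2⟩ <;>
  rcases (vlc_iff ht i u' _).1 e' with ⟨y', z', rfl, a, -, a1⟩ | ⟨s, s', rfl, a, a1, a2⟩
  · obtain rfl : z = z' := by simpa using a
    rw [h.x_inj i _ _ _ h1 a1]
  · simp at a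
  · simp at a
  · obtain rfl : r' = s' := by simpa using a
    have b1 := (mc_tab _ (pos_lt _ _) _ _ h2 h1).2.2 _ (pos_lt _ _) _ a1
    have b2 : pos i r < 12 := by
      by_contra hh
      have : pos i r = 12 := by have := pos_lt i r; omega
      simp [this, mc] at h1
    have b3 := pos_self ht b2
    rw [pos_eq ht b2] at b1
    rw [add_right_cancel (b1.symm.trans b3)]

lemma vla_card (ht : 12 ≤ t) (h : Sch t a c B J om x w n1 n2) (i : ZMod t) :
    (univ.filter fun u : Vt t a c B => vla J om w i u ≠ none).card = n1 := by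
  have := (star_count ht (fl J om) i).1
  rw [← h.cw i, card_filter, card_filter]
  simp only [Fintype.sum_sum_type, Fintype.sum_prod_type, Fin.sum_univ_three, vla]
  simp only [fl] at this
  simpa using this

lemma vlc_card (ht : 12 ≤ t) (h : Sch t a c B J om x w n1 n2) (i : ZMod t) :
    (univ.filter fun u : Vt t a c B => vlc J om x i u ≠ none).card = n2 + 1 := by
  have h1 := (star_count ht (fl J om) i).2
  have h2 := x_count h i
  have h3 := h.cx i
  have e : ∀ v, (if om (i - 1) = .inl v then none else (x v i).map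
      fun z => (.inl (.inr (.inr z)) : Vt t a c B)) ≠ none ↔ om (i - 1) ≠ .inl v ∧ x v i ≠ none := by
    intro v
    split_ifs with hv <;> simp [hv]
  rw [card_filter]
  simp only [Fintype.sum_sum_type, Fintype.sum_prod_type, Fin.sum_univ_three, vlc, e]
  simp only [fl, if_true, Bool.false_eq_true, if_false] at h1
  simp only [ne_eq, not_true, if_false, sum_const_zero, zero_add, add_zero, if_true,
    Option.map_eq_none_iff, Fin.reduceEq] at h1 h2 h3 ⊢
  omega

lemma vl_card (ht : 12 ≤ t) (h : Sch t a c B J om x w n1 n2) (l : Fin 25) (i j : ZMod t) :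
    (univ.filter fun u : Vt t a c B => vl J om x i u = l).card =
      (univ.filter fun u : Vt t a c B => vl J om x j u = l).card := by
  have a1 := ag_count ht (fl J om) i l
  have a2 := ag_count ht (fl J om) j l
  have a3 := real_count ht h i l
  have a4 := real_count ht h j l
  have e : ∀ i, (univ.filter fun u : Vt t a c B => vl J om x i u = l).card =
      (∑ u : Fin a, if (0 : Fin 25) = l then 1 else 0) + ∑ y, (if rl om x i y = l then 1 else 0) +
      ∑ P : Fin 3, ∑ r, (if al (fl J om) i P r = l then 1 else 0) := by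
    intro i
    rw [card_filter, Fintype.sum_sum_type, Fintype.sum_sum_type, Fintype.sum_prod_type]
    rfl
  have f : ∀ i, fl J om true i = (om i).isLeft := fun _ => rfl
  rw [f, f] at a1 a2
  rw [e, e]
  omega

/-- The factor of time `i`. -/
def Fa (J : ZMod t → Bool) (om : ZMod t → B ⊕ Fin c) (x : B → ZMod t → Option (Fin c))
    (w : B → ZMod t → Option (Fin a)) (i : ZMod t) (u v : Vt t a c B) : Prop :=
  gr (vl J om x i u) (vl J om x i v) = true ∨
    (vla J om w i u = some v ∨ vlc J om x i u = some v) ∨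
    (vla J om w i v = some u ∨ vlc J om x i v = some u)

lemma Fa_symm (i : ZMod t) (u v : Vt t a c B) (e : Fa J om x w i u v) : Fa J om x w i v u :=
  e.imp (gr_symm _ _) Or.symm

lemma Fa_cover (ht : 12 ≤ t) (h : Sch t a c B J om x w n1 n2) (u v : Vt t a c B)
    (huv : vp u ≠ vp v) : ∃! i, Fa J om x w i u v := by
  have sym : ∀ u v : Vt t a c B, (∃! i, Fa J om x w i u v) → ∃! i, Fa J om x w i v u :=
    fun u v ⟨i, h1, h2⟩ => ⟨i, Fa_symm _ _ _ h1, fun j hj => h2 j (Fa_symm _ _ _ hj)⟩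
  have c1 : ∀ u y, ∃! i, Fa J om x w i (.inl (.inl u)) (.inl (.inr y)) := by
    intro u y
    have e : ∀ i, Fa J om x w i (.inl (.inl u)) (.inl (.inr y)) ↔
        om i = y ∨ ∃ v, y = .inl v ∧ w v i = some u := by
      intro i
      simp [Fa, vla_iff ht, vlc_iff ht, vl, (rl_pt ht h i y).2]
    simp only [e]
    by_cases hy : ∃ i, om i = y
    · obtain ⟨i, hi⟩ := hy
      refine ⟨i, .inl hi, ?_⟩
      rintro j (hj | ⟨v, rfl, hj⟩)
      · exact h.om_inj _ _ (hj.trans hi.symm)
      · simp [(h.x_om i v hi).2.2 j] at hj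
    · rcases y with v | z
      · obtain ⟨i, hi⟩ := h.w_ex v u fun i hi => hy ⟨i, hi⟩
        refine ⟨i, .inr ⟨v, rfl, hi⟩, ?_⟩
        rintro j (hj | ⟨v', e', hj⟩)
        · exact absurd ⟨j, hj⟩ hy
        · obtain rfl := Sum.inl.inj e'
          exact h.w_un _ _ _ _ hj hi
      · exact absurd (h.om_surj z) hy
  have c2 : ∀ u Q r, 0 ≠ Q → ∃! i, Fa J om x w i (.inl (.inl u)) (.inr (Q, r)) := by
    intro u Q r hQ
    refine ex_one (r + (hp Q : ℕ)) _ fun i => ?_
    rw [← pos_eq ht (hp_lt Q)]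
    simp [Fa, vla_iff ht, vlc_iff ht, vl, al, (real_tab Q _ (pos_lt i r) _).1, hQ.symm]
  have c3 : ∀ v z, ∃! i, Fa J om x w i (.inl (.inr (.inl v))) (.inl (.inr (.inr z))) := by
    intro v z
    have e : ∀ i, Fa J om x w i (.inl (.inr (.inl v))) (.inl (.inr (.inr z))) ↔
        x v i = some z := by
      intro i
      simp [Fa, vla_iff ht, vlc_iff ht, vl, real_real ht h]
      tauto
    simp only [e]
    obtain ⟨i, hi⟩ := h.x_ex v z
    exact ⟨i, hi, fun j hj => h.x_un _ _ _ _ hj hi⟩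
  have c4 : ∀ (y : B ⊕ Fin c) Q r, (if y.isLeft = true then 1 else 2) ≠ Q →
      ∃! i, Fa J om x w i (.inl (.inr y)) (.inr (Q, r)) := by
    intro y Q r hQ
    refine (existsUnique_congr fun i => ?_).1 (real_ag ht h y Q r hQ)
    simp [Fa, vla_iff ht, vlc_iff ht, vl]
  have c5 : ∀ P Q r r', P < Q → ∃! i, Fa J om x w i (.inr (P, r)) (.inr (Q, r')) := by
    intro P Q r r' hQ
    refine (existsUnique_congr fun i => ?_).1 (ag_cover ht (fl J om) P Q hQ r r')
    have e : ∀ P Q r r', madj P (pos i r) (key (fl J om) P (pos i r) i) Q (pos i r') ↔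
        (vla J om w i (.inr (P, r)) = some (.inr (Q, r')) ∨
          vlc (a := a) J om x i (.inr (P, r)) = some (.inr (Q, r'))) := by
      intro P Q r r'
      rw [vla_iff ht, vlc_iff ht, madj]
      constructor
      · rintro ⟨rfl, ⟨rfl, e⟩ | ⟨rfl, e⟩⟩
        · exact .inl (.inr ⟨r, r', rfl, rfl, e, (ma_tab _ (pos_lt _ _) _ _ e).1⟩)
        · exact .inr (.inr ⟨r, r', rfl, rfl, e, mc_lt _ _ _ e⟩)
      · rintro ((⟨_, _, e, -⟩ | ⟨_, _, e, e', e2, -⟩) | (⟨_, _, e, -⟩ | ⟨_, _, e, e', e2, -⟩))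
        · simp at e
        · cases e
          cases e'
          exact ⟨rfl, .inl ⟨rfl, e2⟩⟩
        · simp at e
        · cases e
          cases e'
          exact ⟨rfl, .inr ⟨rfl, e2⟩⟩
    rw [adj, e, e]
    rfl
  rcases u with (u | y) | ⟨P, r⟩ <;> rcases v with (u' | y') | ⟨Q, r'⟩
  · exact absurd rfl huv
  · exact c1 _ _
  · exact c2 _ _ _ huv
  · exact sym _ _ (c1 _ _)
  · rcases y with v | z <;> rcases y' with v' | z'
    · exact absurd rfl huv
    · exact c3 _ _
    · exact sym _ _ (c3 _ _)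
    · exact absurd rfl huv
  · exact c4 _ _ _ huv
  · exact sym _ _ (c2 _ _ _ huv.symm)
  · exact sym _ _ (c4 _ _ _ huv.symm)
  · rcases lt_or_gt_of_ne huv with h' | h'
    · exact c5 _ _ _ _ h'
    · exact sym _ _ (c5 _ _ _ _ h')

lemma Fa_part (ht : 12 ≤ t) (h : Sch t a c B J om x w n1 n2) (i : ZMod t) (u v : Vt t a c B)
    (e : Fa J om x w i u v) : vp u ≠ vp v := by
  have m : ∀ u v : Vt t a c B, vla J om w i u = some v ∨ vlc J om x i u = some v →
      vp u ≠ vp v := by
    intro u v e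
    rw [vla_iff ht, vlc_iff ht] at e
    rcases e with (⟨_, _, rfl, rfl, -⟩ | ⟨_, _, rfl, rfl, -⟩) |
      (⟨_, _, rfl, rfl, -⟩ | ⟨_, _, rfl, rfl, -⟩) <;> simp [vp]
  rcases e with e | e | e
  · intro hp
    have h1 := gr_pt _ _ e _ (vl_pt ht h i u)
    rw [hp, vl_pt ht h i v] at h1
    exact Bool.noConfusion h1
  · exact m u v e
  · exact (m v u e).symm

end Pool.Agent.Lib.MP_351560_co.D3

namespace Pool.Agent.Lib.MP_351560_co

open D3 in
/-- A timetable gives factorisations for all larger parts with the same residues. -/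
theorem good_of_sch {t a b c : ℕ} [NeZero t] (ht : 12 ≤ t) (h : HasSch t a b c) (i j k : ℕ) :
    Good t ![a + t + i * t, b + t + j * t, c + t + k * t] := by
  classical
  obtain ⟨B, _, _, hB, J, om, x, w, n1, n2, h⟩ := h
  have := good_zmod (vp (t := t) (a := a) (c := c) (B := B)) (vl J om x) (Fa J om x w) Fa_symm
    (Fa_part ht h) (Fa_cover ht h) (fun i j => by
      obtain ⟨φ, h1, h2, h3⟩ := iso_stars (vl J om x) (vla J om w) (vlc J om x) 0 1 2 (by decide)
        (by decide) (by decide) (vla_lab ht h) (vlc_lab ht h) (vla_inj ht h) (vlc_inj ht h) n1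
        (n2 + 1) (vla_card ht h) (vlc_card ht h) (vl_card ht h) i j
      exact ⟨φ, fun u v => by rw [Fa, Fa, h3, h3, ← h1, ← h1, ← h2, ← h2], h3⟩)
    sig ![i, j, k] (fun P i v d hv => sig_pt _ _ _ (hv ▸ vl_pt ht h i v)) (by
      rintro P ((u | y) | ⟨Q, r⟩) j hv
      · refine ex_one j _ fun i => ?_
        rw [vl, sig_real _ (by decide), sub_eq_zero, eq_comm]
        fin_cases P
        · exact absurd rfl hv
        · simp [z0, z1]
        · simp [z0, z1]
      · exact real_tile ht h y P j hv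
      · exact ag_tile ht _ Q P hv r j)
  convert this using 2 with P
  rw [Finset.card_filter]
  simp only [Fintype.sum_sum_type, Fintype.sum_prod_type, Fin.sum_univ_three, vp]
  fin_cases P <;> simp [hB]

end Pool.Agent.Lib.MP_351560_co
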