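import Mathlib

set_option autoImplicit false
set_option linter.unusedSimpArgs false
set_option linter.unusedVariables false
set_option linter.unusedSectionVars false

namespace Pool.Agent.Lib.MP_351560_co

open Finset

section
variable {ι V : Type} [DecidableEq ι] [Fintype V] [DecidableEq V] (p q : ι → V)

/-- `c` is a proper colouring of the edges in `S` (edge `e` has the ends `p e`, `q e`). -/
def Prp (S : Finset ι) (c : ι → ℕ) : Prop :=
  ∀ e ∈ S, ∀ f ∈ S, ∀ x, (p e = x ∨ q e = x) → (p f = x ∨ q f = x) → c e = c f → e = f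

lemma Prp.mono {S S' : Finset ι} {c : ι → ℕ} (h : Prp p q S c) (hs : S' ⊆ S) : Prp p q S' c :=
  fun e he f hf => h e (hs he) f (hs hf)

/-- Components of a properly two-coloured graph have at most two deficiencies. -/
lemma comp_exists (c : ι → ℕ) (i j : ℕ) (S : Finset ι) (hc : Prp p q S c)
    (hS : ∀ e ∈ S, c e = i ∨ c e = j) :
    ∃ r : V → V, (∀ e ∈ S, r (p e) = r (q e)) ∧ ∀ z,
      (((univ : Finset V) ×ˢ ({i, j} : Finset ℕ)).filter fun y : V × ℕ =>
        r y.1 = z ∧ ∀ e ∈ S, (p e = y.1 ∨ q e = y.1) → c e ≠ y.2).card ≤ 2 := by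
  induction S using Finset.induction_on with
  | empty =>
    refine ⟨id, by simp, fun z => ?_⟩
    refine le_trans (card_le_card (t := {(z, i), (z, j)}) ?_) card_le_two
    rintro ⟨x, l⟩ h
    simp only [mem_filter, mem_product, mem_univ, true_and, mem_insert, mem_singleton, id] at h
    obtain ⟨rfl | rfl, rfl, -⟩ := h <;> simp
  | insert e S he ih =>
    obtain ⟨r, h1, h2⟩ := ih (hc.mono p q (subset_insert _ _))
      (fun f hf => hS f (mem_insert_of_mem hf))
    refine ⟨fun x => if r x = r (q e) then r (p e) else r x, ?_, fun z => ?_⟩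
    · intro f hf
      rcases mem_insert.1 hf with rfl | hf
      · simp
      · simp only [h1 f hf]
    · let D : V → Finset (V × ℕ) := fun z =>
        ((univ : Finset V) ×ˢ ({i, j} : Finset ℕ)).filter fun y : V × ℕ =>
          r y.1 = z ∧ ∀ e ∈ S, (p e = y.1 ∨ q e = y.1) → c e ≠ y.2
      have hm : ∀ x, (p e = x ∨ q e = x) → ((D (r x)).erase (x, c e)).card ≤ 1 := by
        intro x hx
        have hmem : (x, c e) ∈ D (r x) := by
          simp only [D, mem_filter, mem_product, mem_univ, true_and, mem_insert, mem_singleton]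
          refine ⟨hS e (mem_insert_self _ _), fun f hf hfx h => he ?_⟩
          rw [← hc f (mem_insert_of_mem hf) e (mem_insert_self _ _) x hfx hx h]
          exact hf
        rw [card_erase_of_mem hmem]
        have : (D (r x)).card ≤ 2 := h2 _
        omega
      by_cases hz : z = r (p e)
      · refine le_trans (card_le_card (t := (D (r (p e))).erase (p e, c e) ∪
          (D (r (q e))).erase (q e, c e)) ?_) ((card_union_le _ _).trans ?_)
        · rintro ⟨x, l⟩ h
          simp only [mem_filter, mem_product, mem_univ, true_and, mem_insert, mem_singleton,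
            forall_eq_or_imp] at h
          obtain ⟨a1, a2, a3, a4⟩ := h
          simp only [D, mem_union, mem_erase, mem_filter, mem_product, mem_univ, true_and,
            mem_insert, mem_singleton, ne_eq, Prod.mk.injEq, not_and]
          by_cases hx : r x = r (q e)
          · exact .inr ⟨fun h h' => a3 (.inr h.symm) h'.symm, a1, hx, a4⟩
          · rw [if_neg hx] at a2
            exact .inl ⟨fun h h' => a3 (.inl h.symm) h'.symm, a1, a2.trans hz, a4⟩
        · have a1 := hm (p e) (.inl rfl)
          have a2 := hm (q e) (.inr rfl)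
          omega
      · refine le_trans (card_le_card ?_) (h2 z)
        rintro ⟨x, l⟩ h
        simp only [mem_filter, mem_product, mem_univ, true_and, mem_insert, mem_singleton,
          forall_eq_or_imp] at h ⊢
        obtain ⟨a1, a2, a3, a4⟩ := h
        refine ⟨a1, ?_, a4⟩
        split_ifs at a2 with hx
        · exact absurd a2.symm hz
        · exact a2

/-- A colouring with colours in `K` together with sets of colours missing at the vertices. -/
def Vld (K : Finset ℕ) (S : Finset ι) (c : ι → ℕ) (Y : V → Finset ℕ) : Prop :=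
  Prp p q S c ∧ (∀ e ∈ S, c e ∈ K) ∧ (∀ x, Y x ⊆ K) ∧
    ∀ x, ∀ e ∈ S, (p e = x ∨ q e = x) → c e ∉ Y x

lemma vld_single (K : Finset ℕ) (S : Finset ι) (n : V → ℕ) (hodd : Odd (∑ x, n x))
    (hlt : ∑ x, n x < 2 * K.card) (m : ℕ) : ∀ (c : ι → ℕ) (Y : V → Finset ℕ), Vld p q K S c Y →
      (∀ x, (Y x).card = n x) → (K.filter fun i => ∀ x, i ∉ Y x).card = m →
      ∃ c' Y', Vld p q K S c' Y' ∧ (∀ x, (Y' x).card = n x) ∧
        ∃ i ∈ K, ∃ u, i ∈ Y' u ∧ ∀ x, i ∈ Y' x → x = u := by
  induction m using Nat.strong_induction_on with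
  | _ m ih =>
  intro c Y hv hn hm
  let X : ℕ → Finset V := fun i => univ.filter fun x => i ∈ Y x
  have hsum : ∑ x, n x = ∑ i ∈ K, (X i).card := by
    simp only [X, card_filter]
    rw [sum_comm]
    refine sum_congr rfl fun x _ => ?_
    rw [← card_filter, ← hn x]
    congr 1
    ext i
    simp only [mem_filter]
    exact ⟨fun h => ⟨hv.2.2.1 x h, h⟩, fun h => h.2⟩
  by_cases h1 : ∃ i ∈ K, (X i).card = 1
  · obtain ⟨i, hi, h⟩ := h1
    obtain ⟨u, hu⟩ := card_eq_one.1 h
    have hu' : ∀ x, i ∈ Y x ↔ x = u := fun x => by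
      rw [← mem_singleton, ← hu]
      simp [X]
    exact ⟨c, Y, hv, hn, i, hi, u, (hu' u).2 rfl, fun x => (hu' x).1⟩
  push Not at h1
  obtain ⟨j, hj, hj0⟩ : ∃ j ∈ K, (X j).card = 0 := by
    by_contra h
    push Not at h
    have : ∑ i ∈ K, 2 ≤ ∑ i ∈ K, (X i).card := sum_le_sum fun i hi => by
      have := h i hi
      have := h1 i hi
      omega
    simp only [sum_const, smul_eq_mul] at this
    omega
  obtain ⟨i, hi, hi3⟩ : ∃ i ∈ K, 3 ≤ (X i).card := by
    by_contra h
    push Not at h
    have : Even (∑ i ∈ K, (X i).card) := even_sum _ fun i hi => by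
      have := h i hi
      have := h1 i hi
      rw [Nat.even_iff]
      omega
    rw [← hsum] at this
    exact (Nat.not_even_iff_odd.2 hodd) this
  have hij : i ≠ j := by
    rintro rfl
    omega
  obtain ⟨r, r1, r2⟩ := comp_exists p q c i j (S.filter fun e => c e = i ∨ c e = j)
    (hv.1.mono p q (filter_subset _ _)) (fun e he => (mem_filter.1 he).2)
  obtain ⟨u, hu⟩ : (X i).Nonempty := card_pos.1 (by omega)
  have hu' : i ∈ Y u := (mem_filter.1 hu).2
  let g : V → ℕ ≃ ℕ := fun x => if r x = r u then Equiv.swap i j else Equiv.refl _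
  have hg : ∀ x l, l ≠ i → l ≠ j → g x l = l := by
    intro x l h h'
    simp only [g]
    split_ifs
    · exact Equiv.swap_apply_of_ne_of_ne h h'
    · rfl
  have hgK : ∀ x l, l ∈ K → g x l ∈ K := by
    intro x l hl
    simp only [g]
    split_ifs
    · rw [Equiv.swap_apply_def]
      split_ifs <;> assumption
    · exact hl
  have key : ∀ e ∈ S, ∀ x, (p e = x ∨ q e = x) → g (p e) (c e) = g x (c e) := by
    intro e he x hx
    by_cases h : c e = i ∨ c e = j
    · rcases hx with rfl | rfl
      · rfl
      · simp only [g, r1 e (mem_filter.2 ⟨he, h⟩)]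
    · push Not at h
      rw [hg _ _ h.1 h.2, hg _ _ h.1 h.2]
  obtain ⟨x1, hx1, hx1'⟩ : ∃ x ∈ X i, r x ≠ r u := by
    by_contra h
    push Not at h
    have := (card_le_card_of_injOn (s := X i) (fun x => (x, i)) (fun x hx => by
      simp only [coe_filter, mem_product, mem_univ, true_and, mem_insert, mem_singleton,
        Set.mem_ofPred_eq, true_or]
      refine ⟨h x hx, fun e he hx' hh => hv.2.2.2 x e (mem_filter.1 he).1 hx' ?_⟩
      rw [hh]
      exact (mem_filter.1 hx).2) (fun x _ y _ h => congrArg Prod.fst h)).trans (r2 (r u))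
    omega
  refine ih _ ?_ (fun e => g (p e) (c e)) (fun x => (Y x).map (g x).toEmbedding)
    ⟨?_, ?_, ?_, ?_⟩ (fun x => by rw [card_map, hn]) rfl
  · rw [← hm]
    refine card_lt_card ⟨fun l hl => ?_, fun h => ?_⟩
    · obtain ⟨a1, a2⟩ := mem_filter.1 hl
      refine mem_filter.2 ⟨a1, fun x hx => ?_⟩
      by_cases hli : l = i
      · refine a2 x1 (mem_map.2 ⟨i, (mem_filter.1 hx1).2, ?_⟩)
        simp [g, hx1', hli]
      by_cases hlj : l = j
      · refine a2 u (mem_map.2 ⟨i, hu', ?_⟩)
        simp [g, hlj]
      · exact a2 x (mem_map.2 ⟨l, hx, hg x l hli hlj⟩)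
    · have : j ∈ K.filter fun i => ∀ x, i ∉ Y x := by
        refine mem_filter.2 ⟨hj, fun x hx => ?_⟩
        have : x ∈ X j := mem_filter.2 ⟨mem_univ _, hx⟩
        rw [card_eq_zero.1 hj0] at this
        simp at this
      refine (mem_filter.1 (h this)).2 u (mem_map.2 ⟨i, hu', ?_⟩)
      simp [g]
  · intro e he f hf x hx hx' h
    beta_reduce at h
    rw [key e he x hx, key f hf x hx'] at h
    exact hv.1 e he f hf x hx hx' ((g x).injective h)
  · exact fun e he => hgK _ _ (hv.2.1 e he)
  · intro x l hl
    obtain ⟨l', hl', rfl⟩ := mem_map.1 hl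
    exact hgK _ _ (hv.2.2.1 x hl')
  · intro x e he hx h
    obtain ⟨l', hl', h'⟩ := mem_map.1 h
    have h'' : g x l' = g x (c e) := h'.trans (key e he x hx)
    rw [(g x).injective h''] at hl'
    exact hv.2.2.2 x e he hx hl'

/-- Adding a vertex (Ehrenfeucht, Faber, Kierstead; proof of Schrijver): the new edges `e ∈ T`
have the old end `w e`. -/
lemma vld_add (w : ι → V) (k : ℕ) : ∀ (K : Finset ℕ) (S T : Finset ι) (c : ι → ℕ)
    (Y : V → Finset ℕ) (x0 : V), K.card = k → Vld p q K S c Y → T.card ≤ k →
    (∀ x, 2 * (T.filter fun e => w e = x).card ≤ (Y x).card + if x = x0 then 1 else 0) →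
    ∃ c' d : ι → ℕ, Prp p q S c' ∧ (∀ e ∈ S, c' e ∈ K) ∧ (∀ e ∈ T, d e ∈ K) ∧
      (∀ e ∈ T, ∀ f ∈ T, d e = d f → e = f) ∧
      ∀ e ∈ T, ∀ f ∈ S, (p f = w e ∨ q f = w e) → c' f ≠ d e := by
  induction k with
  | zero =>
    intro K S T c Y x0 hK hv hT _
    obtain rfl : T = ∅ := card_eq_zero.1 (by omega)
    exact ⟨c, c, hv.1, hv.2.1, by simp, by simp, by simp⟩
  | succ k ih =>
    intro K S T c Y x0 hK hv hT hY
    rcases T.eq_empty_or_nonempty with rfl | ⟨e1, he1⟩
    · exact ⟨c, c, hv.1, hv.2.1, by simp, by simp, by simp⟩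
    let μ : V → ℕ := fun x => (T.filter fun e => w e = x).card
    obtain ⟨x1, hx1, hY1⟩ : ∃ x1, 1 ≤ μ x1 ∧
        ∀ x, 2 * μ x ≤ (Y x).card + if x = x1 then 1 else 0 := by
      by_cases h : 1 ≤ μ x0
      · exact ⟨x0, h, hY⟩
      · refine ⟨w e1, card_pos.2 ⟨e1, by simp [he1]⟩, fun x => ?_⟩
        have := hY x
        by_cases hx : x = x0
        · subst hx
          omega
        · rw [if_neg hx] at this
          exact le_trans this (by omega)
    let n : V → ℕ := fun x => 2 * μ x - if x = x1 then 1 else 0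
    have hn : ∀ x, n x + (if x = x1 then 1 else 0) = 2 * μ x := fun x => by
      simp only [n]
      split_ifs with h
      · subst h
        omega
      · omega
    have hsum : ∑ x, n x + 1 = 2 * T.card := by
      have e1 : ∑ x, μ x = T.card :=
        (card_eq_sum_card_fiberwise (f := w) (t := univ) (fun _ _ => by simp)).symm
      rw [← e1, mul_sum, ← sum_congr rfl fun x _ => hn x, sum_add_distrib]
      simp
    have hY2 : ∀ x, ∃ Z ⊆ Y x, Z.card = n x := fun x =>
      exists_subset_card_eq (by have := hY1 x; have := hn x; omega)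
    choose Y1 hY1a hY1b using hY2
    obtain ⟨c1, Y2, hv2, hn2, i, hi, u, hu, hu'⟩ := vld_single p q K S n
      (Nat.odd_iff.2 (by omega)) (by omega) _ c Y1 ⟨hv.1, hv.2.1,
        fun x => (hY1a x).trans (hv.2.2.1 x), fun x e he hx h => hv.2.2.2 x e he hx (hY1a x h)⟩
      hY1b rfl
    have hnu : 1 ≤ n u := by
      rw [← hn2]
      exact card_pos.2 ⟨i, hu⟩
    obtain ⟨e0, hm0⟩ : (T.filter fun e => w e = u).Nonempty :=
      card_pos.1 (by have := hn u; change 0 < μ u; omega)
    obtain ⟨he0, hw0⟩ := mem_filter.1 hm0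
    obtain ⟨c2, d2, b1, b2, b3, b4, b5⟩ := ih (K.erase i) (S.filter fun e => c1 e ≠ i)
      (T.erase e0) c1 (fun x => (Y2 x).erase i) x1 (by rw [card_erase_of_mem hi]; omega)
      ⟨hv2.1.mono p q (filter_subset _ _),
        fun e he => mem_erase.2 ⟨(mem_filter.1 he).2, hv2.2.1 e (mem_filter.1 he).1⟩,
        fun x => erase_subset_erase _ (hv2.2.2.1 x),
        fun x e he hx h => hv2.2.2.2 x e (mem_filter.1 he).1 hx (mem_of_mem_erase h)⟩
      (by rw [card_erase_of_mem he0]; omega) (fun x => by
        rw [filter_erase]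
        have := hn x
        by_cases hx : x = u
        · rw [hx] at this ⊢
          rw [card_erase_of_mem hm0, card_erase_of_mem hu, hn2]
          change 2 * (μ u - 1) ≤ _
          omega
        · have hm1 : e0 ∉ T.filter fun e => w e = x :=
            fun h => hx ((mem_filter.1 h).2.symm.trans hw0)
          rw [erase_eq_of_notMem hm1, erase_eq_of_notMem (fun h => hx (hu' x h)), hn2]
          exact this.ge)
    have hc2 : ∀ e ∈ S, c1 e ≠ i → c2 e ≠ i := fun e he h =>
      (mem_erase.1 (b2 e (mem_filter.2 ⟨he, h⟩))).1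
    have hd2 : ∀ e ∈ T, e ≠ e0 → d2 e ≠ i := fun e he h =>
      (mem_erase.1 (b3 e (mem_erase.2 ⟨h, he⟩))).1
    refine ⟨fun e => if c1 e = i then i else c2 e, fun e => if e = e0 then i else d2 e,
      ?_, ?_, ?_, ?_, ?_⟩
    · intro e he f hf x hx hx' h
      beta_reduce at h
      split_ifs at h with a1 a2 a2
      · exact hv2.1 e he f hf x hx hx' (a1.trans a2.symm)
      · exact absurd h.symm (hc2 f hf a2)
      · exact absurd h (hc2 e he a1)
      · exact b1 e (mem_filter.2 ⟨he, a1⟩) f (mem_filter.2 ⟨hf, a2⟩) x hx hx' h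
    · intro e he
      beta_reduce
      split_ifs with a1
      · exact hi
      · exact mem_of_mem_erase (b2 e (mem_filter.2 ⟨he, a1⟩))
    · intro e he
      beta_reduce
      split_ifs with a1
      · exact hi
      · exact mem_of_mem_erase (b3 e (mem_erase.2 ⟨a1, he⟩))
    · intro e he f hf h
      beta_reduce at h
      split_ifs at h with a1 a2 a2
      · rw [a1, a2]
      · exact absurd h.symm (hd2 f hf a2)
      · exact absurd h (hd2 e he a1)
      · exact b4 e (mem_erase.2 ⟨a1, he⟩) f (mem_erase.2 ⟨a2, hf⟩) h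
    · intro e he f hf hx
      beta_reduce
      split_ifs with a1 a2 a2
      · subst a2
        rw [hw0] at hx
        exact absurd (a1 ▸ hu) (hv2.2.2.2 u f hf hx)
      · exact (hd2 e he a2).symm
      · exact hc2 f hf a1
      · exact b5 e (mem_erase.2 ⟨a2, he⟩) f (mem_filter.2 ⟨hf, a1⟩) hx

end

/-- Vizing-Fournier colouring of loopless multigraphs: vertices are added by increasing rank. -/
theorem vizing_rank {ι V : Type} [Fintype ι] [DecidableEq ι] [Fintype V] [DecidableEq V]
    (p q : ι → V) (hpq : ∀ e, p e ≠ q e) (k : ℕ) (rk : V → ℕ)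
    (hdeg : ∀ x, (univ.filter fun e => p e = x ∨ q e = x).card ≤ k)
    (hsl : ∀ e x y, ((p e = x ∧ q e = y) ∨ (p e = y ∧ q e = x)) → rk x ≤ rk y →
      (univ.filter fun f => (p f = x ∨ q f = x) ∧ rk (p f) ≤ rk y ∧ rk (q f) ≤ rk y).card +
      (univ.filter fun f => (p f = x ∧ q f = y) ∨ (p f = y ∧ q f = x)).card ≤ k) :
    ∃ c : ι → Fin k, ∀ e f x, (p e = x ∨ q e = x) → (p f = x ∨ q f = x) → c e = c f → e = f := by
  have main : ∀ Z : Finset V, ∃ c : ι → ℕ,
      Prp p q (univ.filter fun e => p e ∈ Z ∧ q e ∈ Z) c ∧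
      ∀ e ∈ (univ.filter fun e => p e ∈ Z ∧ q e ∈ Z), c e ∈ range k := by
    intro Z
    induction Z using Finset.induction_on_max_value rk with
    | empty => exact ⟨fun _ => 0, by simp [Prp], by simp⟩
    | insert y Z hy hmax ih =>
      obtain ⟨c, c1, c2⟩ := ih
      let S : Finset ι := univ.filter fun e => p e ∈ Z ∧ q e ∈ Z
      let T : Finset ι := univ.filter fun e => (p e = y ∧ q e ∈ Z) ∨ (q e = y ∧ p e ∈ Z)
      let w : ι → V := fun e => if p e = y then q e else p e
      have hw : ∀ e ∈ T, w e ∈ Z ∧ ((p e = w e ∧ q e = y) ∨ (p e = y ∧ q e = w e)) := by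
        intro e he
        rcases (mem_filter.1 he).2 with h | h
        · simp only [w, if_pos h.1]
          exact ⟨h.2, .inr ⟨h.1, trivial⟩⟩
        · have : p e ≠ y := fun h' => hy (h' ▸ h.2)
          simp only [w, if_neg this]
          exact ⟨h.2, .inl ⟨trivial, h.1⟩⟩
      obtain ⟨c', d, b1, b2, b3, b4, b5⟩ := vld_add p q w k (range k) S T c
        (fun x => range k \ (S.filter fun e => p e = x ∨ q e = x).image c) y (card_range k)
        ⟨c1, c2, fun x => sdiff_subset, fun x e he hx h =>
          (mem_sdiff.1 h).2 (mem_image_of_mem _ (mem_filter.2 ⟨he, hx⟩))⟩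
        (le_trans (card_le_card fun e he => by
          simp only [T, mem_filter, mem_univ, true_and] at he ⊢
          exact he.imp (·.1) (·.1)) (hdeg y)) (fun x => by
          rcases (T.filter fun e => w e = x).eq_empty_or_nonempty with h | ⟨e, he'⟩
          · simp [h]
          obtain ⟨he, rfl⟩ := mem_filter.1 he'
          have a0 := hsl e (w e) y (hw e he).2 (hmax _ (hw e he).1)
          have a1 : (T.filter fun f => w f = w e).card ≤
              (univ.filter fun f => (p f = w e ∧ q f = y) ∨ (p f = y ∧ q f = w e)).card :=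
            card_le_card fun f hf => by
              obtain ⟨hf, h⟩ := mem_filter.1 hf
              refine mem_filter.2 ⟨mem_univ _, ?_⟩
              rw [← h]
              exact (hw f hf).2
          have a2 : (S.filter fun f => p f = w e ∨ q f = w e).card +
              (T.filter fun f => w f = w e).card ≤ (univ.filter fun f =>
                (p f = w e ∨ q f = w e) ∧ rk (p f) ≤ rk y ∧ rk (q f) ≤ rk y).card := by
            rw [← card_union_of_disjoint]
            · refine card_le_card fun f hf => mem_filter.2 ⟨mem_univ _, ?_⟩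
              rcases mem_union.1 hf with hf | hf
              · obtain ⟨hf, h⟩ := mem_filter.1 hf
                exact ⟨h, hmax _ (mem_filter.1 hf).2.1, hmax _ (mem_filter.1 hf).2.2⟩
              · obtain ⟨hf, h⟩ := mem_filter.1 hf
                have := hmax _ (hw f hf).1
                rcases (hw f hf).2 with h' | h'
                · exact ⟨.inl (h'.1.trans h), by rw [h'.1]; exact this, by rw [h'.2]⟩
                · exact ⟨.inr (h'.2.trans h), by rw [h'.1], by rw [h'.2]; exact this⟩
            · rw [disjoint_left]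
              intro f hf hf'
              have hf := (mem_filter.1 (mem_filter.1 hf).1).2
              rcases (mem_filter.1 (mem_filter.1 hf').1).2 with h | h
              · exact hy (h.1 ▸ hf.1)
              · exact hy (h.1 ▸ hf.2)
          have a3 := le_card_sdiff ((S.filter fun f => p f = w e ∨ q f = w e).image c) (range k)
          have a4 : ((S.filter fun f => p f = w e ∨ q f = w e).image c).card ≤
            (S.filter fun f => p f = w e ∨ q f = w e).card := card_image_le
          rw [card_range] at a3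
          omega)
      have hST : ∀ e, p e ∈ insert y Z ∧ q e ∈ insert y Z → e ∉ S → e ∈ T := by
        intro e he hS
        simp only [S, T, mem_filter, mem_univ, true_and, mem_insert] at he hS ⊢
        have := hpq e
        rcases he with ⟨h | h, h' | h'⟩
        · exact absurd (h.trans h'.symm) this
        · exact .inl ⟨h, h'⟩
        · exact .inr ⟨h', h⟩
        · exact absurd ⟨h, h'⟩ hS
      have hmix : ∀ e ∈ T, ∀ f ∈ S, ∀ x, (p e = x ∨ q e = x) → (p f = x ∨ q f = x) →
          c' f ≠ d e := by
        intro e he f hf x hx hx'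
        refine b5 e he f hf ?_
        have hxZ : x ∈ Z := by
          rcases hx' with rfl | rfl
          · exact (mem_filter.1 hf).2.1
          · exact (mem_filter.1 hf).2.2
        have hxy : x ≠ y := fun h => hy (h ▸ hxZ)
        have : w e = x := by
          rcases (hw e he).2 with h | h <;> rcases hx with h' | h'
          · exact h.1.symm.trans h'
          · exact absurd (h'.symm.trans h.2) hxy
          · exact absurd (h'.symm.trans h.1) hxy
          · exact h.2.symm.trans h'
        rw [this]
        exact hx'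
      refine ⟨fun e => if e ∈ S then c' e else d e, ?_, ?_⟩
      · intro e he f hf x hx hx' h
        beta_reduce at h
        split_ifs at h with a1 a2 a2
        · exact b1 e a1 f a2 x hx hx' h
        · exact absurd h (hmix f (hST f (mem_filter.1 hf).2 a2) e a1 x hx' hx)
        · exact absurd h.symm (hmix e (hST e (mem_filter.1 he).2 a1) f a2 x hx hx')
        · exact b4 e (hST e (mem_filter.1 he).2 a1) f (hST f (mem_filter.1 hf).2 a2) h
      · intro e he
        beta_reduce
        split_ifs with a1
        · exact b2 e a1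
        · exact b3 e (hST e (mem_filter.1 he).2 a1)
  obtain ⟨c, c1, c2⟩ := main univ
  refine ⟨fun e => ⟨c e, mem_range.1 (c2 e (by simp))⟩, fun e f x hx hx' h => ?_⟩
  exact c1 e (by simp) f (by simp) x hx hx' (congrArg Fin.val h)

end Pool.Agent.Lib.MP_351560_co
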