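import Mathlib
import Pool.Agent.Lib.MP_351560_co.Star
import Pool.Agent.Lib.MP_351560_co.Vizing

set_option autoImplicit false
set_option linter.unusedSimpArgs false
set_option linter.unusedVariables false
set_option linter.unusedSectionVars false

namespace Pool.Agent.Lib.MP_351560_co

open Finset

/-- Factors consisting of a hub of fixed degree and a fixed pattern of further edges. -/
lemma LF.of_hub {V γ : Type} [Fintype V] [Fintype γ] (p : V → Fin 3) (t : ℕ)
    (F : Fin t → V → V → Prop) (h2 : ∀ i u v, F i u v → F i v u)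
    (h3 : ∀ i u v, F i u v → p u ≠ p v) (h4 : ∀ u v, p u ≠ p v → ∃! i, F i u v)
    (r0 : γ) (nb : γ → Prop) (E : γ → γ → Prop) (d : ℕ)
    (h5 : ∀ i, ∃ f : γ → V, Function.Injective f ∧ (∀ r, F i (f r0) (f r) ↔ nb r) ∧
      Set.ncard {y | F i (f r0) y} = d ∧ (∀ r r', E r r' → F i (f r) (f r')) ∧
      ∀ x y, F i x y → x = f r0 ∨ y = f r0 ∨
        ∃ r r', (E r r' ∨ E r' r) ∧ x = f r ∧ y = f r') :
    LF p t (fun _ _ => ()) := by
  classical
  choose f f1 f2 f3 f4 f5 using h5
  have one : ∀ i j (φ : V ≃ V), (∀ r, φ (f i r) = f j r) →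
      (∀ y, F j (f j r0) (φ y) ↔ F i (f i r0) y) → ∀ x y, F i x y → F j (φ x) (φ y) := by
    intro i j φ a1 a2 x y h
    rcases f5 i x y h with rfl | rfl | ⟨r, r', hE, rfl, rfl⟩
    · rw [a1]
      exact (a2 y).2 h
    · rw [a1]
      exact h2 _ _ _ ((a2 x).2 (h2 _ _ _ h))
    · rw [a1, a1]
      exact hE.elim (f4 j r r') fun hE => h2 _ _ _ (f4 j r' r hE)
  refine ⟨F, h2, h3, h4, fun i j => ?_⟩
  have hc : ∀ i, (univ.filter fun y => F i (f i r0) y).card = d := fun i => by
    rw [← f3 i, ← Set.ncard_coe_finset]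
    simp
  obtain ⟨φ, a1, a2⟩ := lab_extend (f i) (f j) (f1 i) (f1 j)
    (fun y => decide (F i (f i r0) y)) (fun y => decide (F j (f j r0) y))
    (fun r => by simp only [f2]) (fun l => by
      cases l
      · have e1 := card_filter_add_card_filter_not (s := univ) (fun y => F i (f i r0) y)
        have e2 := card_filter_add_card_filter_not (s := univ) (fun y => F j (f j r0) y)
        rw [hc] at e1 e2
        simp only [decide_eq_false_iff_not]
        omega
      · simp only [decide_eq_true_eq, hc])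
  have a3 : ∀ y, F j (f j r0) (φ y) ↔ F i (f i r0) y := fun y => by simpa using a2 y
  refine ⟨φ, fun u v => ⟨one i j φ a1 a3 u v, fun h => ?_⟩, fun _ => rfl⟩
  have := one j i φ.symm (fun r => by rw [← a1, φ.symm_apply_apply])
    (fun y => by rw [← a3, φ.apply_symm_apply]) _ _ h
  simpa using this

lemma uniq_of_card {α : Type} [Fintype α] {P : α → Prop} [DecidablePred P]
    (h : (univ.filter P).card = 1) : ∃ x, ∀ y, P y ↔ y = x := by
  obtain ⟨x, hx⟩ := card_eq_one.1 h
  exact ⟨x, fun y => by rw [← mem_singleton (b := y), ← hx]; simp⟩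

/-- Spider factors from timetables. -/
lemma good_spider {B : Type} [Fintype B] [DecidableEq B] {t a c : ℕ}
    (st : Fin t → Option B → Option (Bool × Bool)) (cc : Option (Bool × Bool) → ℕ) (s : B → ℕ)
    (ω : Fin a → B → Fin t) (θ : Option B → Fin c → Fin t)
    (S1 : ∀ i σ, (univ.filter fun v => st i v = σ).card = cc σ) (S0 : cc none = 1)
    (S2 : ∀ i x y, st i none = some (x, y) → x = false ∧ y = false)
    (C1 : ∀ g v v', θ v g = θ v' g → v = v')
    (C2 : ∀ i, st i none = none → (univ.filter fun g => θ none g = i).card = 1)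
    (C3 : ∀ i v x y, st i v = some (x, y) →
      (univ.filter fun g => θ v g = i).card = if y then 1 else 0)
    (C4 : ∀ i v, st i (some v) = none → (univ.filter fun g => θ (some v) g = i).card = s v)
    (A1 : ∀ i v x y, st i (some v) = some (x, y) →
      (univ.filter fun u => ω u v = i).card = if x then 1 else 0)
    (A4 : ∀ i v, st i (some v) = none → (univ.filter fun u => ω u v = i).card + s v = a)
    (A2 : ∀ u v v', ω u v = ω u v' → st (ω u v) (some v) ≠ none → st (ω u v) (some v') ≠ none →
      v = v')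
    (A3 : ∀ u v h, st (ω u v) (some h) = none → ω u h = ω u v) :
    Good t ![a, Fintype.card B, c] := by
  classical
  let p : Fin a ⊕ B ⊕ Fin c → Fin 3 := fun u => match u with
    | .inl _ => 0
    | .inr (.inl _) => 1
    | .inr (.inr _) => 2
  let F : Fin t → Fin a ⊕ B ⊕ Fin c → Fin a ⊕ B ⊕ Fin c → Prop := fun i x y => match x, y with
    | .inl u, .inr (.inl v) => ω u v = i
    | .inr (.inl v), .inl u => ω u v = i
    | .inl _, .inr (.inr g) => θ none g = i
    | .inr (.inr g), .inl _ => θ none g = i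
    | .inr (.inl v), .inr (.inr g) => θ (some v) g = i
    | .inr (.inr g), .inr (.inl v) => θ (some v) g = i
    | _, _ => False
  let Z := Σ σ : Option (Bool × Bool), Fin (cc σ)
  let γ := Unit ⊕ {z : Z // ∃ y, z.1 = some (true, y)} ⊕
    {z : Z // ∃ x y, z.1 = some (x, y) ∧ (x = true ∨ y = true)} ⊕ {z : Z // ∃ x, z.1 = some (x, true)}
  let nb : γ → Prop := fun r => match r with
    | .inr (.inl _) => True
    | _ => False
  let E : γ → γ → Prop := fun r r' => match r, r' with
    | .inr (.inl z), .inr (.inr (.inl z')) => z.1 = z'.1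
    | .inr (.inr (.inl z)), .inr (.inr (.inr z')) => z.1 = z'.1
    | _, _ => False
  have hLF : LF p t (fun _ _ => ()) := by
    refine LF.of_hub p t F ?_ ?_ ?_ (.inl ()) nb E a fun i => ?_
    · rintro i (u | v | g) (u' | v' | g') h <;> exact h
    · rintro i (u | v | g) (u' | v' | g') h <;> simp [p, F] at h ⊢
    · rintro (u | v | g) (u' | v' | g') h <;> simp [p, F] at h ⊢
    obtain ⟨ψ, hψ⟩ := fib_equiv (fun z : Z => z.1) (st i) (fun l => by rw [card_sigma_fib, S1])
    obtain ⟨v0, hv0⟩ := uniq_of_card ((S1 i none).trans S0)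
    obtain ⟨H, H1, H2, H3, H4, H5, H6⟩ : ∃ H : Fin a ⊕ B ⊕ Fin c,
        (∀ g, θ none g = i → H = .inr (.inr g)) ∧
        (∀ v, st i (some v) = none → H = .inr (.inl v)) ∧ Set.ncard {y | F i H y} = a ∧
        (∀ v, st i (some v) ≠ none → H ≠ .inr (.inl v) ∧ ¬ F i H (.inr (.inl v))) ∧
        (∀ v u, ω u v = i → H ≠ .inl u ∧ F i H (.inl u)) ∧
        (∀ v g, st i (some v) ≠ none → θ (some v) g = i →
          H ≠ .inr (.inr g) ∧ ¬ F i H (.inr (.inr g))) := by
      rcases v0 with _ | h
      · obtain ⟨g0, hg'⟩ := uniq_of_card (C2 i ((hv0 _).2 rfl))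
        have hno : ∀ v, θ (some v) g0 ≠ i := fun v h => by
          simpa using C1 g0 _ _ (h.trans ((hg' g0).2 rfl).symm)
        refine ⟨.inr (.inr g0), fun g h => by rw [(hg' g).1 h], fun v h => by simp [hv0] at h, ?_,
          fun v _ => ⟨by simp, hno v⟩, fun v u _ => ⟨by simp, (hg' g0).2 rfl⟩,
          fun v g _ h => ⟨fun hh => hno v (by cases hh; exact h), id⟩⟩
        have : {y | F i (.inr (.inr g0)) y} = Set.range Sum.inl := by
          ext (u | v | g)
          · simp [F, hg']
          · simp [F, hno]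
          · simp [F]
        rw [this, Set.ncard_range_of_injective Sum.inl_injective]
        simp
      · have hh : st i (some h) = none := (hv0 _).2 rfl
        refine ⟨.inr (.inl h), fun g hg => ?_, fun v hv => by cases (hv0 _).1 hv; rfl, ?_,
          fun v hv => ⟨fun e => hv (by cases e; exact hh), id⟩,
          fun v u hu => ⟨by simp, (A3 u v h (hu ▸ hh)).trans hu⟩,
          fun v g hv hg => ⟨by simp, fun hg' => hv ?_⟩⟩
        · exfalso
          rcases hs : st i none with _ | ⟨x, y⟩
          · simp [hv0] at hs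
          · have := C3 i none x y hs
            rw [(S2 i x y hs).2] at this
            simp only [Bool.false_eq_true, if_false, card_eq_zero, filter_eq_empty_iff] at this
            exact this (mem_univ g) hg
        · have : {y | F i (.inr (.inl h)) y} =
              ((univ.filter fun u => ω u h = i).disjSum ((∅ : Finset B).disjSum
                (univ.filter fun g => θ (some h) g = i)) : Finset _) := by
            ext (u | v | g) <;> simp [F]
          rw [this, Set.ncard_coe_finset, card_disjSum, card_disjSum, C4 i h hh, card_empty,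
            zero_add, A4 i h hh]
        · have hg'' : θ (some h) g = i := hg'
          cases C1 g _ _ (hg.trans hg''.symm)
          exact hh
    have hrow : ∀ z : Z, (∃ x y, z.1 = some (x, y) ∧ (x = true ∨ y = true)) →
        ∃ v, ψ z = some v := by
      rintro z ⟨x, y, h, h'⟩
      rcases hz : ψ z with _ | v
      · have := S2 i x y (by rw [← hz, hψ, h])
        simp [this.1, this.2] at h'
      · exact ⟨v, rfl⟩
    have hA : ∀ z : {z : Z // ∃ y, z.1 = some (true, y)}, ∃ v u, ψ z.1 = some v ∧
        ∀ u', ω u' v = i ↔ u' = u := by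
      rintro ⟨z, y, h⟩
      obtain ⟨v, hv⟩ := hrow z ⟨true, y, h, .inl rfl⟩
      obtain ⟨u, hu⟩ := uniq_of_card (A1 i v true y (by rw [← hv, hψ, h]))
      exact ⟨v, u, hv, hu⟩
    have hC : ∀ z : {z : Z // ∃ x, z.1 = some (x, true)}, ∃ v g, ψ z.1 = some v ∧
        ∀ g', θ (some v) g' = i ↔ g' = g := by
      rintro ⟨z, x, h⟩
      obtain ⟨v, hv⟩ := hrow z ⟨x, true, h, .inr rfl⟩
      obtain ⟨u, hu⟩ := uniq_of_card (C3 i (some v) x true (by rw [← hv, hψ, h]))
      exact ⟨v, u, hv, hu⟩
    choose vA uA hA1 hA2 using hA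
    choose vC uC hC1 hC2 using hC
    choose vB hB1 using fun z : {z : Z // ∃ x y, z.1 = some (x, y) ∧ (x = true ∨ y = true)} =>
      hrow z.1 z.2
    have nA : ∀ z, st i (some (vA z)) ≠ none := fun z => by
      obtain ⟨y, h⟩ := z.2
      rw [← hA1, hψ, h]
      simp
    have nB : ∀ z, st i (some (vB z)) ≠ none := fun z => by
      obtain ⟨x, y, h, -⟩ := z.2
      rw [← hB1, hψ, h]
      simp
    have nC : ∀ z, st i (some (vC z)) ≠ none := fun z => by
      obtain ⟨y, h⟩ := z.2
      rw [← hC1, hψ, h]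
      simp
    let f : γ → Fin a ⊕ B ⊕ Fin c := fun r => match r with
      | .inl _ => H
      | .inr (.inl z) => .inl (uA z)
      | .inr (.inr (.inl z)) => .inr (.inl (vB z))
      | .inr (.inr (.inr z)) => .inr (.inr (uC z))
    have eAB : ∀ u v, ω u v = i → (.inr (.inl v) : Fin a ⊕ B ⊕ Fin c) = H ∨
        ∃ r r', E r r' ∧ .inl u = f r ∧ .inr (.inl v) = f r' := by
      intro u v h
      rcases hs : st i (some v) with _ | ⟨x, y⟩
      · exact .inl (H2 v hs).symm
      have hx : x = true := by
        have := A1 i v x y hs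
        by_contra hx
        rw [if_neg hx, card_eq_zero, filter_eq_empty_iff] at this
        exact this (mem_univ u) h
      subst hx
      have hz : (ψ.symm (some v)).1 = some (true, y) := by rw [← hψ, ψ.apply_symm_apply, hs]
      have e1 := hA1 ⟨_, y, hz⟩
      have e2 := hB1 ⟨_, true, y, hz, .inl rfl⟩
      simp only [Equiv.apply_symm_apply, Option.some.injEq] at e1 e2
      refine .inr ⟨.inr (.inl ⟨_, y, hz⟩), .inr (.inr (.inl ⟨_, true, y, hz, .inl rfl⟩)), rfl,
        ?_, ?_⟩
      · simp only [f]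
        rw [(hA2 _ u).1 (e1 ▸ h)]
      · simp only [f]
        rw [← e2]
    have eBC : ∀ v g, θ (some v) g = i → (.inr (.inl v) : Fin a ⊕ B ⊕ Fin c) = H ∨
        ∃ r r', E r r' ∧ .inr (.inl v) = f r ∧ .inr (.inr g) = f r' := by
      intro v g h
      rcases hs : st i (some v) with _ | ⟨x, y⟩
      · exact .inl (H2 v hs).symm
      have hy : y = true := by
        have := C3 i (some v) x y hs
        by_contra hy
        rw [if_neg hy, card_eq_zero, filter_eq_empty_iff] at this
        exact this (mem_univ g) h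
      subst hy
      have hz : (ψ.symm (some v)).1 = some (x, true) := by rw [← hψ, ψ.apply_symm_apply, hs]
      have e1 := hC1 ⟨_, x, hz⟩
      have e2 := hB1 ⟨_, x, true, hz, .inr rfl⟩
      simp only [Equiv.apply_symm_apply, Option.some.injEq] at e1 e2
      refine .inr ⟨.inr (.inr (.inl ⟨_, x, true, hz, .inr rfl⟩)), .inr (.inr (.inr ⟨_, x, hz⟩)),
        rfl, ?_, ?_⟩
      · simp only [f]
        rw [← e2]
      · simp only [f]
        rw [(hC2 _ g).1 (e1 ▸ h)]
    refine ⟨f, ?_, ?_, H3, ?_, ?_⟩
    · rintro (_ | z | z | z) (_ | z' | z' | z') h <;>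
        simp only [f, reduceCtorEq, Sum.inl.injEq, Sum.inr.injEq] at h
      · rfl
      · exact absurd h (H5 _ _ ((hA2 z' _).2 rfl)).1
      · exact absurd h (H4 _ (nB z')).1
      · exact absurd h (H6 _ _ (nC z') ((hC2 z' _).2 rfl)).1
      · exact absurd h.symm (H5 _ _ ((hA2 z _).2 rfl)).1
      · have e1 := (hA2 z _).2 rfl
        have e2 := (hA2 z' _).2 h
        have := A2 (uA z) (vA z) (vA z') (e1.trans e2.symm) (e1 ▸ nA z) (e1 ▸ nA z')
        rw [Subtype.ext (ψ.injective ((hA1 z).trans (this ▸ (hA1 z').symm)))]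
      · exact absurd h.symm (H4 _ (nB z)).1
      · rw [Subtype.ext (ψ.injective ((hB1 z).trans (h ▸ (hB1 z').symm)))]
      · exact absurd h.symm (H6 _ _ (nC z) ((hC2 z _).2 rfl)).1
      · have := C1 _ _ _ (((hC2 z _).2 rfl).trans ((hC2 z' _).2 h).symm)
        rw [Subtype.ext (ψ.injective ((hC1 z).trans (this ▸ (hC1 z').symm)))]
    · rintro (_ | z | z | z)
      · refine iff_of_false ?_ id
        change ¬ F i H H
        rcases H with u | v | g <;> exact id
      · exact iff_of_true (H5 _ _ ((hA2 z _).2 rfl)).2 trivial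
      · exact iff_of_false (H4 _ (nB z)).2 id
      · exact iff_of_false (H6 _ _ (nC z) ((hC2 z _).2 rfl)).2 id
    · rintro (_ | z | z | z) (_ | z' | z' | z') h <;> try exact h.elim
      · have e1 : z.1 = z'.1 := h
        have : vA z = vB z' := Option.some.inj ((hA1 z).symm.trans (e1 ▸ hB1 z'))
        change ω (uA z) (vB z') = i
        rw [← this]
        exact (hA2 z _).2 rfl
      · have e1 : z.1 = z'.1 := h
        have : vB z = vC z' := Option.some.inj ((hB1 z).symm.trans (e1 ▸ hC1 z'))
        change θ (some (vB z)) (uC z') = i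
        rw [this]
        exact (hC2 z' _).2 rfl
    · rintro (u | v | g) (u' | v' | g') h <;> try exact h.elim
      · exact .inr ((eAB u v' h).imp id fun ⟨r, r', a1, a2, a3⟩ => ⟨r, r', .inl a1, a2, a3⟩)
      · exact .inr (.inl (H1 g' h).symm)
      · exact (eAB u' v h).imp id fun ⟨r, r', a1, a2, a3⟩ => .inr ⟨r', r, .inr a1, a3, a2⟩
      · exact (eBC v g' h).imp id fun ⟨r, r', a1, a2, a3⟩ => .inr ⟨r, r', .inl a1, a2, a3⟩
      · exact .inl (H1 g h).symm
      · exact .inr ((eBC v' g h).imp id fun ⟨r, r', a1, a2, a3⟩ => ⟨r', r, .inr a1, a3, a2⟩)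
  convert hLF.good using 2 with P
  rw [card_filter, Fintype.sum_sum_type, Fintype.sum_sum_type]
  fin_cases P <;> simp [p]

end Pool.Agent.Lib.MP_351560_co
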