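import Mathlib
import Pool.Agent.Lib.MP_351560_co.Spider

set_option autoImplicit false
set_option linter.unusedSimpArgs false
set_option linter.unusedVariables false
set_option linter.unusedSectionVars false

namespace Pool.Agent.Lib.MP_351560_co

open Finset

/-- Scheduling with links: an item joins a centre or a time `P e` with a time `Q e`. -/
lemma sched_link {ι B T : Type} [Fintype ι] [DecidableEq ι] [Fintype B] [DecidableEq B]
    [Fintype T] [DecidableEq T] (P : ι → B ⊕ T) (Q : ι → T)
    (hinj : ∀ e f, P e = P f → Q e = Q f → e = f) (hne : ∀ e, P e ≠ .inr (Q e)) (k : ℕ)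
    (h1 : ∀ v, (univ.filter fun e => P e = .inl v).card ≤ k)
    (h2 : ∀ i, (univ.filter fun e => P e = .inr i).card +
      (univ.filter fun e => Q e = i).card + 2 ≤ k) :
    ∃ col : ι → Fin k, ∀ e f, (P e = P f ∨ Q e = Q f ∨ P e = .inr (Q f)) → col e = col f →
      e = f := by
  have hd : ∀ i, (univ.filter fun e => P e = .inr i ∨ (.inr (Q e) : B ⊕ T) = .inr i).card + 2
      ≤ k := by
    intro i
    refine le_trans ?_ (h2 i)
    rw [filter_or]
    simpa using card_union_le _ _
  obtain ⟨col, hcol⟩ := vizing_rank P (fun e => .inr (Q e)) hne k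
    (Sum.elim (fun _ => 1) (fun _ => 0)) (by
      rintro (v | i)
      · simpa using h1 v
      · exact le_trans (Nat.le_add_right _ _) (hd i)) (by
      rintro e (v | i) y h hr
      · rcases y with v' | j
        · simp at h
        · simp at hr
      · refine le_trans (Nat.add_le_add (card_le_card fun f hf => ?_) ?_) (hd i)
        · exact mem_filter.2 ⟨mem_univ _, (mem_filter.1 hf).2.1⟩
        · refine le_trans (card_le_card_of_injOn (t := {(.inr i, y), (y, .inr i)})
            (fun f => (P f, (.inr (Q f) : B ⊕ T))) (fun f hf => ?_) fun f _ g _ h => ?_) card_le_two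
          · simpa using hf
          · simp only [Prod.mk.injEq, Sum.inr.injEq] at h
            exact hinj f g h.1 h.2)
  refine ⟨col, fun e f h => ?_⟩
  rcases h with h | h | h
  · exact hcol e f (P e) (.inl rfl) (.inl h.symm)
  · exact hcol e f (.inr (Q e)) (.inr rfl) (.inr (by rw [h]))
  · exact hcol e f (P e) (.inl rfl) (.inr h.symm)

lemma sum_state {α S : Type} [Fintype α] [Fintype S] [DecidableEq S] (f : α → S) (g : S → ℕ) :
    ∑ a, g (f a) = ∑ σ, (univ.filter fun a => f a = σ).card * g σ := by
  rw [← sum_fiberwise univ f]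
  refine sum_congr rfl fun σ _ => ?_
  rw [sum_congr rfl (g := fun _ => g σ) fun a ha => by rw [(mem_filter.1 ha).2]]
  simp

theorem dense_of {B : Type} [Fintype B] [DecidableEq B] {t a c : ℕ} (pl : B → Prop)
    [DecidablePred pl] (x y z : B → ℕ) (κ κ1 κ2 : ℕ) (ht : 0 < t)
    (hpl : (univ.filter pl).card + c = t)
    (h0 : ∀ v, ¬ pl v → x v + y v = a ∧ x v + z v = c ∧ x v + y v + z v ≤ t)
    (h1 : ∀ v, pl v → x v + z v + (x v + y v) = c ∧ 1 + x v + y v + z v ≤ t)
    (hx : ∑ v, x v = t * κ) (hy : ∑ v, y v = t * κ1) (hz : ∑ v, z v = t * κ2)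
    (hA : ∀ v, pl v → κ + κ1 + (x v + y v) + 2 ≤ a) (hA' : κ + κ1 + 2 ≤ a)
    (hC : ∀ v, pl v → κ + κ2 + (x v + y v) ≤ c) (hC' : κ + κ2 + 1 ≤ c) :
    Good t ![a, Fintype.card B, c] := by
  classical
  let w : B → ℕ := fun v => (if pl v then 1 else 0) + x v + y v + z v
  have hw : ∀ v, w v ≤ t := fun v => by
    simp only [w]
    split_ifs with h
    · exact (h1 v h).2
    · have := (h0 v h).2.2
      omega
  have hw1 : ∑ v, w v = (univ.filter pl).card + t * (κ + κ1 + κ2) := by
    simp only [w, sum_add_distrib, hx, hy, hz, card_filter]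
    ring
  have hw2 : ∑ v, (t - w v) + ∑ v, w v = t * Fintype.card B := by
    rw [← sum_add_distrib, sum_congr rfl fun v _ => Nat.sub_add_cancel (hw v)]
    simp [mul_comm]
  have hκ : κ + κ1 + κ2 ≤ Fintype.card B := Nat.le_of_mul_le_mul_left (by omega) ht
  let M : Option B → Option (Bool × Bool) → ℕ := fun v σ => match v, σ with
    | none, none => c
    | none, some (false, false) => t - c
    | none, some _ => 0
    | some v, none => if pl v then 1 else 0
    | some v, some (true, true) => x v
    | some v, some (true, false) => y v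
    | some v, some (false, true) => z v
    | some v, some (false, false) => t - w v
  let cc : Option (Bool × Bool) → ℕ := fun σ => match σ with
    | none => 1
    | some (true, true) => κ
    | some (true, false) => κ1
    | some (false, true) => κ2
    | some (false, false) => Fintype.card B - (κ + κ1 + κ2)
  obtain ⟨st, s1, s2⟩ := sched_state M cc t (by
    simp only [Fintype.sum_option, Fintype.sum_prod_type, Fintype.sum_bool, cc, Fintype.card_option]
    omega) (by
    rintro (_ | v) <;>
      simp only [Fintype.sum_option, Fintype.sum_prod_type, Fintype.sum_bool, M]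
    · omega
    · have := hw v
      simp only [w] at this ⊢
      omega) (by
    rintro (_ | ⟨_ | _, _ | _⟩) <;> simp only [Fintype.sum_option, M, cc]
    · rw [← card_filter, add_comm, mul_one]
      exact hpl
    · rw [Nat.mul_sub]
      omega
    · omega
    · omega
    · omega)
  have S2 : ∀ i x y, st i none = some (x, y) → x = false ∧ y = false := by
    intro i x y h
    have : 0 < M none (some (x, y)) := by
      rw [← s1]
      exact card_pos.2 ⟨i, by simp [h]⟩
    cases x <;> cases y <;> simp [M] at this ⊢
  have hht : ∀ v, ∃ j, ∀ i, st i (some v) = none ↔ pl v ∧ i = j := by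
    intro v
    have := s1 (some v) none
    by_cases h : pl v
    · simp only [M, if_pos h] at this
      obtain ⟨j, hj⟩ := uniq_of_card this
      exact ⟨j, fun i => by simp [hj, h]⟩
    · simp only [M, if_neg h, card_eq_zero, filter_eq_empty_iff] at this
      exact ⟨⟨0, ht⟩, fun i => by simp [h, this (mem_univ i)]⟩
  choose hb hhb using hht
  have hone : ∀ i v v', st i v = none → st i v' = none → v = v' := by
    intro i v v' h h'
    obtain ⟨v0, hv0⟩ := uniq_of_card (s2 i none)
    exact ((hv0 v).1 h).trans ((hv0 v').1 h').symm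
  -- the third part
  let yC : Option B → Option (Bool × Bool) → ℕ := fun v σ => match v, σ with
    | none, none => 1
    | some v, none => x v + y v
    | _, some (_, b) => if b then 1 else 0
  obtain ⟨θ, θ1, θ2⟩ := sched (fun v i => yC v (st i v)) c (by
    intro v
    rw [sum_state (fun i => st i v) (yC v)]
    simp only [s1]
    rcases v with _ | v <;>
      simp only [Fintype.sum_option, Fintype.sum_prod_type, Fintype.sum_bool, M, yC]
    · simp
    · by_cases h : pl v
      · have := (h1 v h).1
        simp [h]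
        omega
      · have := (h0 v h).2.1
        simp [h]
        omega) (by
    intro i
    let g : Option (Bool × Bool) → ℕ := fun σ => match σ with
      | none => c - (κ + κ2)
      | some (_, b) => if b then 1 else 0
    refine le_trans (sum_le_sum (g := fun v => g (st i v)) fun v _ => ?_) ?_
    · rcases hs : st i v with _ | ⟨b', b⟩
      · rcases v with _ | v
        · simp only [yC, g]
          omega
        · have := hC v ((hhb v i).1 hs).1
          simp only [yC, g]
          omega
      · rcases v with _ | v <;> exact le_rfl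
    · rw [sum_state (st i) g]
      simp only [s2, Fintype.sum_option, Fintype.sum_prod_type, Fintype.sum_bool, cc, g]
      simp
      omega)
  -- the first part
  let ι := {e : B × Fin t // ∃ b, st e.2 (some e.1) = some (true, b)}
  let P0 : B → B ⊕ Fin t := fun v => if pl v then .inr (hb v) else .inl v
  have hP0 : Function.Injective P0 := by
    intro v v' h
    simp only [P0] at h
    split_ifs at h with a1 a2 a2
    · have e1 : hb v = hb v' := Sum.inr.inj h
      exact Option.some.inj (hone (hb v) _ _ ((hhb v _).2 ⟨a1, rfl⟩) ((hhb v' _).2 ⟨a2, e1⟩))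
    · exact Sum.inl.inj h
  let g1 : Option (Bool × Bool) → ℕ := fun σ => if ∃ b, σ = some (true, b) then 1 else 0
  have hrow : ∀ v, (univ.filter fun e : ι => e.1.1 = v).card = x v + y v := by
    intro v
    have e1 : (univ.filter fun e : ι => e.1.1 = v).card =
        (univ.filter fun i => ∃ b, st i (some v) = some (true, b)).card := by
      refine card_bij (fun e _ => e.1.2) ?_ ?_ ?_
      · rintro ⟨⟨v', i⟩, h⟩ he
        obtain rfl : v' = v := (mem_filter.1 he).2
        exact mem_filter.2 ⟨mem_univ _, h⟩
      · intro e he f hf h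
        exact Subtype.ext (Prod.ext ((mem_filter.1 he).2.trans (mem_filter.1 hf).2.symm) h)
      · intro i hi
        exact ⟨⟨(v, i), (mem_filter.1 hi).2⟩, by simp, rfl⟩
    rw [e1, card_filter]
    refine (sum_state (fun i => st i (some v)) g1).trans ?_
    simp [s1, Fintype.sum_option, Fintype.sum_prod_type, Fintype.sum_bool, M, g1]
  have hcol : ∀ i, (univ.filter fun e : ι => e.1.2 = i).card ≤ κ + κ1 := by
    intro i
    have e1 : (univ.filter fun e : ι => e.1.2 = i).card ≤
        (univ.filter fun v => ∃ b, st i v = some (true, b)).card := by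
      refine card_le_card_of_injOn (fun e => some e.1.1) ?_ ?_
      · rintro ⟨⟨v', i'⟩, h⟩ he
        obtain rfl : i' = i := (mem_filter.1 he).2
        exact mem_filter.2 ⟨mem_univ _, h⟩
      · intro e he f hf h
        exact Subtype.ext (Prod.ext (Option.some.inj h)
          ((mem_filter.1 he).2.trans (mem_filter.1 hf).2.symm))
    refine e1.trans (le_of_eq ?_)
    rw [card_filter]
    refine (sum_state (st i) g1).trans ?_
    simp [s2, Fintype.sum_option, Fintype.sum_prod_type, Fintype.sum_bool, cc, g1]
  have hne : ∀ e : ι, P0 e.1.1 ≠ .inr e.1.2 := by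
    rintro ⟨⟨v, i⟩, b, h⟩ h'
    simp only [P0] at h' h
    split_ifs at h' with a1
    rw [(hhb v i).2 ⟨a1, (Sum.inr.inj h').symm⟩] at h
    simp at h
  obtain ⟨col, hcl⟩ := sched_link (fun e : ι => P0 e.1.1) (fun e => e.1.2)
    (fun e f h h' => Subtype.ext (Prod.ext (hP0 h) h')) hne a (by
      intro v
      by_cases h : pl v
      · refine le_trans (le_of_eq (card_eq_zero.2 (filter_eq_empty_iff.2 fun e _ he => ?_)))
          (Nat.zero_le _)
        simp only [P0] at he
        split_ifs at he with a1
        exact a1 (Sum.inl.inj he ▸ h)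
      · rw [← (h0 v h).1, ← hrow v]
        refine card_le_card fun e he => mem_filter.2 ⟨mem_univ _, hP0 ?_⟩
        rw [(mem_filter.1 he).2]
        simp [P0, h]) (by
      intro i
      have := hcol i
      rcases (univ.filter fun e : ι => P0 e.1.1 = .inr i).eq_empty_or_nonempty with h | ⟨e, he⟩
      · rw [h, card_empty]
        omega
      · have he' := (mem_filter.1 he).2
        have hp : pl e.1.1 := by
          by_contra hp
          simp [P0, hp] at he'
        have a1 := hA _ hp
        have a2 : (univ.filter fun e : ι => P0 e.1.1 = .inr i).card ≤ x e.1.1 + y e.1.1 := by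
          rw [← hrow]
          exact card_le_card fun f hf => mem_filter.2 ⟨mem_univ _,
            hP0 ((mem_filter.1 hf).2.trans he'.symm)⟩
        omega)
  have hcl1 : ∀ e f : ι, e.1.1 = f.1.1 → col e = col f → e = f :=
    fun e f h => hcl e f (.inl (congrArg P0 h))
  have himg : ∀ v, ((univ.filter fun e : ι => e.1.1 = v).image col).card = x v + y v := by
    intro v
    rw [card_image_of_injOn, hrow]
    exact fun e he f hf => hcl1 e f ((mem_filter.1 he).2.trans (mem_filter.1 hf).2.symm)
  let ω : Fin a → B → Fin t := fun u v =>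
    if h : ∃ e : ι, e.1.1 = v ∧ col e = u then h.choose.1.2 else hb v
  have K1 : ∀ e : ι, ω (col e) e.1.1 = e.1.2 := by
    intro e
    have h : ∃ f : ι, f.1.1 = e.1.1 ∧ col f = col e := ⟨e, rfl, rfl⟩
    simp only [ω, dif_pos h]
    rw [hcl1 _ _ h.choose_spec.1 h.choose_spec.2]
  have K2 : ∀ u v, (∃ e : ι, e.1.1 = v ∧ col e = u ∧ ω u v = e.1.2) ∨
      ((¬ ∃ e : ι, e.1.1 = v ∧ col e = u) ∧ pl v ∧ ω u v = hb v) := by
    intro u v
    by_cases h : ∃ e : ι, e.1.1 = v ∧ col e = u
    · obtain ⟨e, rfl, rfl⟩ := h
      exact .inl ⟨e, rfl, rfl, K1 e⟩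
    · refine .inr ⟨h, ?_, by simp only [ω, dif_neg h]⟩
      by_contra hp
      have : (univ.filter fun e : ι => e.1.1 = v).image col = univ :=
        eq_univ_of_card _ (by rw [himg, (h0 v hp).1, Fintype.card_fin])
      obtain ⟨e, he, he'⟩ := mem_image.1 (this ▸ mem_univ u)
      exact h ⟨e, (mem_filter.1 he).2, he'⟩
  have K3 : ∀ u v, st (ω u v) (some v) ≠ none → ∃ e : ι, e.1.1 = v ∧ col e = u ∧ ω u v = e.1.2 :=
    fun u v h => (K2 u v).resolve_right fun h' => h ((hhb v _).2 h'.2)
  refine good_spider st cc (fun v => x v + y v) ω θ s2 rfl S2 θ2 ?_ ?_ ?_ ?_ ?_ ?_ ?_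
  · intro i h
    rw [θ1, h]
  · intro i v b' b h
    rw [θ1, h]
    rcases v with _ | v <;> rfl
  · intro i v h
    rw [θ1, h]
  · intro i v b' b h
    cases b'
    · rw [if_neg (by simp), card_eq_zero, filter_eq_empty_iff]
      intro u _ hu
      obtain ⟨⟨⟨v', i'⟩, b2, h2⟩, rfl, -, a3⟩ := K3 u v (by rw [hu, h]; simp)
      obtain rfl : i = i' := hu.symm.trans a3
      rw [h] at h2
      simp at h2
    · refine card_eq_one.2 ⟨col ⟨(v, i), b, h⟩, ?_⟩
      ext u
      simp only [mem_filter, mem_univ, true_and, mem_singleton]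
      constructor
      · intro hu
        obtain ⟨⟨⟨v', i'⟩, b2, h2⟩, rfl, rfl, a3⟩ := K3 u v (by rw [hu, h]; simp)
        obtain rfl : i = i' := hu.symm.trans a3
        rfl
      · rintro rfl
        exact K1 ⟨(v, i), b, h⟩
  · intro i v h
    obtain ⟨hp, rfl⟩ := (hhb v i).1 h
    have : (univ.filter fun u => ω u v = hb v) =
        univ \ (univ.filter fun e : ι => e.1.1 = v).image col := by
      ext u
      simp only [mem_filter, mem_univ, true_and, mem_sdiff, mem_image]
      rcases K2 u v with ⟨⟨⟨v', i'⟩, b2, h2⟩, rfl, a2, a3⟩ | ⟨a1, -, a3⟩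
      · refine iff_of_false (fun hu => ?_) (fun hu => hu ⟨_, rfl, a2⟩)
        obtain rfl : hb v' = i' := hu.symm.trans a3
        rw [h] at h2
        simp at h2
      · exact iff_of_true a3 a1
    rw [this, card_sdiff_of_subset (subset_univ _), himg, card_univ, Fintype.card_fin]
    have := hA v hp
    omega
  · intro u v v' h a1 a2
    obtain ⟨e, rfl, e2, e3⟩ := K3 u v a1
    obtain ⟨f, rfl, f2, f3⟩ := K3 u v' (h ▸ a2)
    rw [hcl e f (.inr (.inl (e3.symm.trans (h.trans f3)))) (e2.trans f2.symm)]
  · intro u v h hh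
    obtain ⟨hp, e0⟩ := (hhb h _).1 hh
    rcases K2 u h with ⟨f, rfl, f2, f3⟩ | ⟨-, -, a3⟩
    · rcases K2 u v with ⟨e, rfl, e2, e3⟩ | ⟨-, b2, b3⟩
      · have h5 : P0 f.1.1 = .inr e.1.2 := by
          rw [← e3, e0]
          simp [P0, hp]
        have := hcl f e (.inr (.inr h5)) (f2.trans e2.symm)
        rw [this]
      · rw [Option.some.inj (hone _ _ _ hh ((hhb v _).2 ⟨b2, b3⟩))]
    · rw [a3, e0]

end Pool.Agent.Lib.MP_351560_co
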