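import Mathlib
import Pool.Agent.Lib.MP_351560_co.DenseOf
import Pool.Agent.Lib.MP_351560_co.D3Def

set_option autoImplicit false
set_option linter.unusedSimpArgs false
set_option linter.unusedVariables false
set_option linter.unusedSectionVars false

namespace Pool.Agent.Lib.MP_351560_co

open Finset

/-- Colouring of row-time items and time-time links with slack one. -/
lemma sched_link1 {ι B T : Type} [Fintype ι] [DecidableEq ι] [Fintype B] [DecidableEq B]
    [Fintype T] [DecidableEq T] (P : ι → B ⊕ T) (Q : ι → T)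
    (hinj : ∀ e f, P e = P f → Q e = Q f → e = f) (hne : ∀ e, P e ≠ .inr (Q e)) (k : ℕ)
    (h1 : ∀ v, (univ.filter fun e => P e = .inl v).card ≤ k)
    (h2 : ∀ i, (univ.filter fun e => P e = .inr i).card +
      (univ.filter fun e => Q e = i).card + 1 ≤ k)
    (h3 : ∀ i, (univ.filter fun e => P e = .inr i).card +
      (univ.filter fun e => Q e = i ∧ (P e).isRight).card + 2 ≤ k) :
    ∃ col : ι → Fin k, ∀ e f, (P e = P f ∨ Q e = Q f ∨ P e = .inr (Q f)) → col e = col f →
      e = f := by
  have hd : ∀ i, (univ.filter fun e => P e = .inr i ∨ (.inr (Q e) : B ⊕ T) = .inr i).card + 1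
      ≤ k := by
    intro i
    refine le_trans ?_ (h2 i)
    rw [filter_or]
    simpa using card_union_le _ _
  obtain ⟨col, hcol⟩ := vizing_rank P (fun e => .inr (Q e)) hne k
    (Sum.elim (fun _ => 1) (fun _ => 0)) (by
      rintro (v | i)
      · simpa using h1 v
      · exact le_trans (Nat.le_add_right _ _) (hd i)) (by
      rintro e (v | i) y h hr
      · rcases y with v' | j
        · simp at h
        · simp at hr
      · rcases y with v' | j
        · refine le_trans (Nat.add_le_add (card_le_card fun f hf => ?_) ?_) (hd i)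
          · exact mem_filter.2 ⟨mem_univ _, (mem_filter.1 hf).2.1⟩
          · refine card_le_one.2 fun f hf g hg => ?_
            simp only [mem_filter, mem_univ, true_and, reduceCtorEq, and_false, false_or,
              Sum.inr.injEq] at hf hg
            exact hinj f g (hf.1.trans hg.1.symm) (hf.2.trans hg.2.symm)
        · refine le_trans (Nat.add_le_add ?_ ?_) (h3 i)
          · refine le_trans (card_le_card fun f hf => ?_) (card_union_le _ _)
            simp only [mem_filter, mem_univ, true_and, mem_union, Sum.inr.injEq] at hf ⊢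
            obtain ⟨hf | hf, hf2, -⟩ := hf
            · exact .inl hf
            · refine .inr ⟨hf, ?_⟩
              rcases hP : P f with v | j'
              · simp [hP] at hf2
              · rfl
          · refine le_trans (card_le_card_of_injOn (t := {(.inr i, .inr j), (.inr j, .inr i)})
              (fun f => (P f, (.inr (Q f) : B ⊕ T))) (fun f hf => ?_) fun f _ g _ h => ?_)
              card_le_two
            · simpa using hf
            · simp only [Prod.mk.injEq, Sum.inr.injEq] at h
              exact hinj f g h.1 h.2)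
  refine ⟨col, fun e f h => ?_⟩
  rcases h with h | h | h
  · exact hcol e f (P e) (.inl rfl) (.inl h.symm)
  · exact hcol e f (.inr (Q e)) (.inr rfl) (.inr (by rw [h]))
  · exact hcol e f (P e) (.inl rfl) (.inr h.symm)

/-- One Kempe change: a link gets a colour that no link has. -/
lemma kempe_link {ι B T C : Type} [DecidableEq C] (P : ι → B ⊕ T) (Q : ι → T) (col : ι → C)
    (h : ∀ e f, (P e = P f ∨ Q e = Q f ∨ P e = .inr (Q f)) → col e = col f → e = f)
    (e0 : ι) (he0 : (P e0).isRight) (β : C) (hβ : ∀ f, (P f).isRight → col f ≠ β) :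
    ∃ col' : ι → C,
      (∀ e f, (P e = P f ∨ Q e = Q f ∨ P e = .inr (Q f)) → col' e = col' f → e = f) ∧
      col' e0 = β ∧ ∀ f, (P f).isRight → f ≠ e0 → col' f = col f := by
  classical
  set α := col e0 with hα
  have hαβ : α ≠ β := hβ e0 he0
  let step : B ⊕ T → B ⊕ T → Prop := fun x y => ∃ f, (P f).isLeft ∧
    ((col f = β ∧ x = .inr (Q f) ∧ y = P f) ∨ (col f = α ∧ x = P f ∧ y = .inr (Q f)))
  let U : B ⊕ T → Prop := fun x =>
    ∃ s, (s = P e0 ∨ s = .inr (Q e0)) ∧ Relation.ReflTransGen step s x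
  have Ustep : ∀ x y, U x → step x y → U y := by
    rintro x y ⟨s, h1, h2⟩ h3
    exact ⟨s, h1, h2.tail h3⟩
  have Uinv : ∀ y, U y → (y = P e0 ∨ y = .inr (Q e0)) ∨ ∃ x, U x ∧ step x y := by
    rintro y ⟨s, h1, h2⟩
    rcases h2.cases_tail with h3 | ⟨x, h3, h4⟩
    · exact .inl (h3 ▸ h1)
    · exact .inr ⟨x, ⟨s, h1, h3⟩, h4⟩
  have hc : ∀ e f x, (P e = x ∨ .inr (Q e) = x) → (P f = x ∨ .inr (Q f) = x) → col e = col f →
      e = f := by
    rintro e f x (h1 | h1) (h2 | h2) h3
    · exact h e f (.inl (h1.trans h2.symm)) h3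
    · exact h e f (.inr (.inr (h1.trans h2.symm))) h3
    · exact (h f e (.inr (.inr (h2.trans h1.symm))) h3.symm).symm
    · exact h e f (.inr (.inl (Sum.inr.inj (h1.trans h2.symm)))) h3
  have key : ∀ f, (col f = α ∨ col f = β) → (U (P f) ∨ U (.inr (Q f))) →
      U (P f) ∧ U (.inr (Q f)) ∧ ((P f).isRight → f = e0) := by
    intro f hf hU
    by_cases hfe : f = e0
    · subst hfe
      exact ⟨⟨_, .inl rfl, .refl⟩, ⟨_, .inr rfl, .refl⟩, fun _ => rfl⟩
    have hT : ∀ i, (P f = .inr i ∨ .inr (Q f) = (.inr i : B ⊕ T)) → U (.inr i) → col f = α →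
        (P f).isLeft ∧ U (P f) := by
      intro i hi hUi hfα
      rcases Uinv _ hUi with h1 | ⟨x, h1, g, hg, ⟨-, -, h2⟩ | ⟨h2, h3, h4⟩⟩
      · exact absurd (hc f e0 _ hi (h1.imp Eq.symm Eq.symm) hfα) hfe
      · rw [← h2] at hg
        simp at hg
      · obtain rfl := hc f g _ hi (.inr h4.symm) (hfα.trans h2.symm)
        exact ⟨hg, h3 ▸ h1⟩
    rcases hP : P f with v | j
    · rw [← hP]
      have hl : (P f).isLeft := by rw [hP]; rfl
      have hr : (P f).isRight → f = e0 := by rw [hP]; simp
      rcases hf with hf | hf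
      · have : U (P f) := hU.elim id fun h' => (hT _ (.inr rfl) h' hf).2
        exact ⟨this, Ustep _ _ this ⟨f, hl, .inr ⟨hf, rfl, rfl⟩⟩, hr⟩
      · have : U (.inr (Q f)) := by
          refine hU.elim (fun h' => ?_) id
          rcases Uinv _ h' with (h1 | h1) | ⟨x, h1, g, hg, ⟨h2, h3, h4⟩ | ⟨-, -, h4⟩⟩
          · rw [← h1, hP] at he0
            simp at he0
          · rw [hP] at h1
            simp at h1
          · obtain rfl := hc f g _ (.inl rfl) (.inl h4.symm) (hf.trans h2.symm)
            exact h3 ▸ h1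
          · rw [hP] at h4
            simp at h4
        exact ⟨Ustep _ _ this ⟨f, hl, .inl ⟨hf, rfl, rfl⟩⟩, this, hr⟩
    · exfalso
      have hf' : col f = α := hf.resolve_right (hβ f (by rw [hP]; rfl))
      have : (P f).isLeft := by
        rcases hU with hU | hU
        · exact (hT j (.inl hP) (hP ▸ hU) hf').1
        · exact (hT _ (.inr rfl) hU hf').1
      rw [hP] at this
      simp at this
  have sw : ∀ z, z ≠ α → z ≠ β → Equiv.swap α β z = z := fun z => Equiv.swap_apply_of_ne_of_ne
  have main : ∀ e f x, (P e = x ∨ .inr (Q e) = x) → (P f = x ∨ .inr (Q f) = x) →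
      U (.inr (Q e)) → ¬ U (.inr (Q f)) → Equiv.swap α β (col e) = col f → e = f := by
    intro e f x h1 h2 h3 h4 h5
    by_cases h6 : col e = α ∨ col e = β
    · exfalso
      have h7 : col f = α ∨ col f = β := by
        rcases h6 with h6 | h6 <;> rw [h6] at h5 <;> simp [← h5]
      have h8 := key e h6 (.inr h3)
      have h9 : U x := h1.elim (fun h => h ▸ h8.1) fun h => h ▸ h8.2.1
      refine h4 (key f h7 ?_).2.1
      rcases h2 with h2 | h2
      · exact .inl (h2 ▸ h9)
      · exact .inr (h2 ▸ h9)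
    · rw [not_or] at h6
      rw [sw _ h6.1 h6.2] at h5
      exact hc e f x h1 h2 h5
  refine ⟨fun f => if U (.inr (Q f)) then Equiv.swap α β (col f) else col f, ?_, ?_, ?_⟩
  · intro e f hef
    obtain ⟨x, h1, h2⟩ : ∃ x, (P e = x ∨ .inr (Q e) = x) ∧ (P f = x ∨ .inr (Q f) = x) := by
      rcases hef with h' | h' | h'
      · exact ⟨P e, .inl rfl, .inl h'.symm⟩
      · exact ⟨.inr (Q e), .inr rfl, .inr (by rw [h'])⟩
      · exact ⟨P e, .inl rfl, .inr h'.symm⟩
    beta_reduce
    split_ifs with h3 h4 h4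
    · exact fun h5 => h e f hef ((Equiv.swap α β).injective h5)
    · exact main e f x h1 h2 h3 h4
    · exact fun h5 => (main f e x h2 h1 h4 h3 h5.symm).symm
    · exact h e f hef
  · have : U (.inr (Q e0)) := ⟨_, .inr rfl, .refl⟩
    simp only [if_pos this, ← hα, Equiv.swap_apply_left]
  · intro f hf hfe
    beta_reduce
    split_ifs with h3
    · by_cases h6 : col f = α ∨ col f = β
      · exact absurd ((key f h6 (.inr h3)).2.2 hf) hfe
      · rw [not_or] at h6
        exact sw _ h6.1 h6.2
    · rfl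

/-- At most `k` links can be given distinct colours. -/
lemma rainbow_link {ι B T : Type} [Fintype ι] (P : ι → B ⊕ T) (Q : ι → T) (k : ℕ)
    (col : ι → Fin k)
    (h : ∀ e f, (P e = P f ∨ Q e = Q f ∨ P e = .inr (Q f)) → col e = col f → e = f)
    (hk : (univ.filter fun e => (P e).isRight).card ≤ k) :
    ∃ col : ι → Fin k,
      (∀ e f, (P e = P f ∨ Q e = Q f ∨ P e = .inr (Q f)) → col e = col f → e = f) ∧
      ∀ e f, (P e).isRight → (P f).isRight → col e = col f → e = f := by
  classical
  set L := univ.filter fun e => (P e).isRight with hL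
  obtain ⟨c, hc, hmax⟩ := exists_max_image (univ.filter fun c : ι → Fin k =>
    ∀ e f, (P e = P f ∨ Q e = Q f ∨ P e = .inr (Q f)) → c e = c f → e = f)
    (fun c => (L.image c).card) ⟨col, mem_filter.2 ⟨mem_univ _, h⟩⟩
  have hc' := (mem_filter.1 hc).2
  refine ⟨c, hc', fun e f he hf hef => ?_⟩
  by_contra hne
  have hlt : (L.image c).card < k := by
    refine lt_of_lt_of_le (lt_of_le_of_ne card_image_le fun h' => ?_) hk
    exact hne (card_image_iff.1 h' (mem_filter.2 ⟨mem_univ _, he⟩)
      (mem_filter.2 ⟨mem_univ _, hf⟩) hef)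
  obtain ⟨β, -, hβ⟩ := exists_mem_notMem_of_card_lt_card (s := L.image c) (t := univ)
    (by simpa using hlt)
  obtain ⟨c', h1, h2, h3⟩ := kempe_link P Q c hc' e he β fun g hg hgβ =>
    hβ (mem_image.2 ⟨g, mem_filter.2 ⟨mem_univ _, hg⟩, hgβ⟩)
  have h4 := hmax c' (mem_filter.2 ⟨mem_univ _, h1⟩)
  have h5 : insert β (L.image c) ⊆ L.image c' := by
    intro z hz
    rcases mem_insert.1 hz with rfl | hz
    · exact mem_image.2 ⟨e, mem_filter.2 ⟨mem_univ _, he⟩, h2⟩
    · obtain ⟨g, hg, rfl⟩ := mem_image.1 hz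
      by_cases hge : g = e
      · exact mem_image.2 ⟨f, mem_filter.2 ⟨mem_univ _, hf⟩,
          (h3 f hf (Ne.symm hne)).trans (by rw [hge, hef])⟩
      · exact mem_image.2 ⟨g, hg, h3 g (mem_filter.1 hg).2 hge⟩
  have h6 := card_le_card h5
  rw [card_insert_of_notMem hβ] at h6
  omega

lemma surj_of_card {α : Type} [Fintype α] {p : α → Prop} [DecidablePred p] {k : ℕ}
    (h : (univ.filter p).card = k) (f : {i // p i} → Fin k) (hf : Function.Injective f) (z : Fin k) :
    ∃ i, f i = z :=
  ((Fintype.bijective_iff_injective_and_card f).2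
    ⟨hf, by rw [Fintype.card_subtype, h, Fintype.card_fin]⟩).2 z

/-- A timetable from its state matrix. -/
theorem sch_of {t a c : ℕ} [NeZero t] {B K : Type} [Fintype B] [DecidableEq B] [Fintype K]
    (J : ZMod t → Bool) (act both : B → ZMod t → Prop) [∀ v i, Decidable (act v i)]
    [∀ v i, Decidable (both v i)] (y : K → B) (g : K → ZMod t) (n1 n2 : ℕ)
    (hy : Function.Injective y) (hg : Function.Injective g) (hK : Fintype.card K + c = t)
    (hc : 4 ≤ c) (h1 : ∀ v, (univ.filter fun i => act v i).card = c)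
    (h2 : ∀ v, (∀ k, y k ≠ v) → (univ.filter fun i => both v i).card = a)
    (h3 : ∀ k i, ¬ both (y k) i) (h4 : ∀ k, ¬ act (y k) (g k) ∧ act (y k) (g k + 1))
    (h5 : ∀ v i, both v i → act v i)
    (h6 : ∀ i, (univ.filter fun v => both v i).card + (if J i then 1 else 0) = n1)
    (h7 : ∀ i, (univ.filter fun v => act v i).card + (if J (i - 1) then 0 else 1) = n2)
    (h8 : n2 + 3 ≤ c ∨ (n2 + 2 ≤ c ∧ ∀ i, J i = false)) (h9 : n1 ≤ a) :
    ∃ om x w, Sch t a c B J om x w n1 n2 := by
  classical
  have hX : ∀ i, (univ.filter fun v => act v i).card + 3 ≤ c := by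
    intro i
    have := h7 i
    rcases h8 with h8 | ⟨h8, h8'⟩
    · omega
    · simp only [h8', Bool.false_eq_true, if_false] at this
      omega
  have ht : Fact (1 < t) := ⟨by omega⟩
  let ι := {z : B × ZMod t // act z.1 z.2} ⊕ {i : ZMod t // ∀ k, g k ≠ i}
  let P : ι → B ⊕ ZMod t := Sum.elim (fun z => .inl z.1.1) fun i => .inr (i.1 + 1)
  let Q : ι → ZMod t := Sum.elim (fun z => z.1.2) fun i => i.1
  have one : ∀ (p : {i : ZMod t // ∀ k, g k ≠ i} → Prop) [DecidablePred p] (j : ZMod t),
      (∀ i, p i → i.1 = j) → (univ.filter p).card ≤ 1 := fun p _ j hp =>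
    card_le_one.2 fun e he f hf => Subtype.ext
      ((hp e (mem_filter.1 he).2).trans (hp f (mem_filter.1 hf).2).symm)
  have split : ∀ (p : ι → Prop) [DecidablePred p], (univ.filter p).card =
      (univ.filter fun z => p (.inl z)).card + (univ.filter fun i => p (.inr i)).card := by
    intro p _
    simp only [card_filter, Fintype.sum_sum_type, ι]
  have cP : ∀ i, (univ.filter fun e => P e = .inr i).card ≤ 1 := by
    intro i
    rw [split]
    simp only [P, Sum.elim_inl, Sum.elim_inr, reduceCtorEq, filter_false, card_empty, zero_add]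
    exact one _ (i - 1) fun j hj => eq_sub_of_add_eq (Sum.inr.inj hj)
  have cL : (univ.filter fun i : ZMod t => ∀ k, g k ≠ i).card = c := by
    have : (univ.filter fun i : ZMod t => ∀ k, g k ≠ i) = (univ.image g)ᶜ := by
      ext i
      simp
    rw [this, card_compl, card_image_of_injective _ hg, ZMod.card, card_univ]
    omega
  obtain ⟨col0, hcol0⟩ := sched_link1 P Q (by
      rintro (e | e) (f | f) h h' <;> simp only [P, Q, Sum.elim_inl, Sum.elim_inr,
        Sum.inl.injEq, reduceCtorEq] at h h'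
      · exact congrArg _ (Subtype.ext (Prod.ext h h'))
      · exact congrArg _ (Subtype.ext h')) (by
      rintro (e | e) <;> simp [P, Q]) c (fun v => by
      rw [split]
      simp only [P, Sum.elim_inl, Sum.elim_inr, reduceCtorEq, filter_false, card_empty, add_zero,
        Sum.inl.injEq]
      rw [← h1 v]
      refine card_le_card_of_injOn (fun z => z.1.2) (fun z hz => ?_) fun z hz z' hz' h => ?_
      · simp only [coe_filter, mem_univ, true_and, Set.mem_ofPred_eq] at hz ⊢
        exact hz ▸ z.2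
      · simp only [coe_filter, mem_univ, true_and, Set.mem_ofPred_eq] at hz hz'
        exact Subtype.ext (Prod.ext (hz.trans hz'.symm) h)) (fun i => by
      have e1 := cP i
      have e2 := hX i
      rw [split fun e => Q e = i]
      simp only [Q, Sum.elim_inl, Sum.elim_inr]
      have e3 := one (fun j => j.1 = i) i fun _ h => h
      have e4 : (univ.filter fun z : {z : B × ZMod t // act z.1 z.2} => z.1.2 = i).card ≤
          (univ.filter fun v => act v i).card := by
        refine card_le_card_of_injOn (fun z => z.1.1) (fun z hz => ?_) fun z hz z' hz' h => ?_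
        · simp only [coe_filter, mem_univ, true_and, Set.mem_ofPred_eq] at hz ⊢
          exact hz ▸ z.2
        · simp only [coe_filter, mem_univ, true_and, Set.mem_ofPred_eq] at hz hz'
          exact Subtype.ext (Prod.ext h (hz.trans hz'.symm))
      omega) (fun i => by
      have e1 := cP i
      rw [split fun e => Q e = i ∧ (P e).isRight]
      simp only [P, Q, Sum.elim_inl, Sum.elim_inr, Sum.isRight_inl, Bool.false_eq_true, and_false,
        filter_false, card_empty, Sum.isRight_inr, and_true] at e1 ⊢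
      have e3 := one (fun j => j.1 = i) i fun _ h => h
      omega)
  obtain ⟨col, hcol, hrb⟩ := rainbow_link P Q c col0 hcol0 (by
    rw [split]
    simp only [P, Sum.elim_inl, Sum.elim_inr, Sum.isRight_inl, Bool.false_eq_true, filter_false,
      card_empty, Sum.isRight_inr, filter_true, zero_add, card_univ, Fintype.card_subtype, cL,
      le_refl])
  obtain ⟨cw, hcw⟩ := konig_le (ι := {z : B × ZMod t // both z.1 z.2}) (fun z => z.1.1)
    (fun z => z.1.2) a (fun v => by
      by_cases hv : ∀ k, y k ≠ v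
      · rw [← h2 v hv]
        refine card_le_card_of_injOn (fun z => z.1.2) (fun z hz => ?_) fun z hz z' hz' h => ?_
        · simp only [coe_filter, mem_univ, true_and, Set.mem_ofPred_eq] at hz ⊢
          exact hz ▸ z.2
        · simp only [coe_filter, mem_univ, true_and, Set.mem_ofPred_eq] at hz hz'
          exact Subtype.ext (Prod.ext (hz.trans hz'.symm) h)
      · push Not at hv
        obtain ⟨k, rfl⟩ := hv
        rw [filter_eq_empty_iff.2 fun z _ hz => h3 k z.1.2 (hz ▸ z.2)]
        simp) (fun i => by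
      refine le_trans ?_ (le_trans (Nat.le_add_right _ _) ((h6 i).le.trans h9))
      refine card_le_card_of_injOn (fun z => z.1.1) (fun z hz => ?_) fun z hz z' hz' h => ?_
      · simp only [coe_filter, mem_univ, true_and, Set.mem_ofPred_eq] at hz ⊢
        exact hz ▸ z.2
      · simp only [coe_filter, mem_univ, true_and, Set.mem_ofPred_eq] at hz hz'
        exact Subtype.ext (Prod.ext h (hz.trans hz'.symm)))
  let om : ZMod t → B ⊕ Fin c := fun i =>
    if h : ∀ k, g k ≠ i then .inr (col (.inr ⟨i, h⟩))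
    else .inl (y (Classical.choose (not_forall_not.1 h)))
  let x : B → ZMod t → Option (Fin c) := fun v i =>
    if h : act v i then some (col (.inl ⟨(v, i), h⟩)) else none
  let w : B → ZMod t → Option (Fin a) := fun v i =>
    if h : both v i then some (cw ⟨(v, i), h⟩) else none
  have om1 : ∀ i z, om i = .inr z ↔ ∃ h, col (.inr ⟨i, h⟩) = z := by
    intro i z
    simp only [om]
    split_ifs with h
    · simp only [Sum.inr.injEq]
      exact ⟨fun h' => ⟨h, h'⟩, fun h' => h'.2⟩
    · simp only [reduceCtorEq, false_iff]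
      exact fun h' => h h'.1
  have om2 : ∀ i v, om i = .inl v ↔ ∃ k, g k = i ∧ y k = v := by
    intro i v
    simp only [om]
    split_ifs with h
    · simp only [reduceCtorEq, false_iff]
      exact fun h' => h _ h'.choose_spec.1
    · have e := Classical.choose_spec (not_forall_not.1 h)
      simp only [Sum.inl.injEq]
      refine ⟨fun h' => ⟨_, e, h'⟩, ?_⟩
      rintro ⟨k, rfl, rfl⟩
      rw [hg e]
  have x1 : ∀ v i z, x v i = some z ↔ ∃ h, col (.inl ⟨(v, i), h⟩) = z := by
    intro v i z
    simp only [x]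
    split_ifs with h
    · simp only [Option.some.injEq]
      exact ⟨fun h' => ⟨h, h'⟩, fun h' => h'.2⟩
    · simp only [reduceCtorEq, false_iff]
      exact fun h' => h h'.1
  have x2 : ∀ v i, x v i ≠ none ↔ act v i := by
    intro v i
    simp only [x]
    split_ifs with h <;> simp [h]
  have w1 : ∀ v i z, w v i = some z ↔ ∃ h, cw ⟨(v, i), h⟩ = z := by
    intro v i z
    simp only [w]
    split_ifs with h
    · simp only [Option.some.injEq]
      exact ⟨fun h' => ⟨h, h'⟩, fun h' => h'.2⟩
    · simp only [reduceCtorEq, false_iff]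
      exact fun h' => h h'.1
  have w2 : ∀ v i, w v i ≠ none ↔ both v i := by
    intro v i
    simp only [w]
    split_ifs with h <;> simp [h]
  refine ⟨om, x, w, ?_, ?_, ?_, ?_, ?_, ?_, ?_, ?_, ?_, ?_, ?_, ?_, ?_⟩
  · intro i j h
    rcases hi : om i with v | z
    · obtain ⟨k, rfl, e1⟩ := (om2 _ _).1 hi
      obtain ⟨k', rfl, e2⟩ := (om2 _ _).1 (h ▸ hi)
      rw [hy (e1.trans e2.symm)]
    · obtain ⟨e1, e2⟩ := (om1 _ _).1 hi
      obtain ⟨e3, e4⟩ := (om1 _ _).1 (h ▸ hi)
      exact congrArg Subtype.val (Sum.inr.inj (hrb _ _ rfl rfl (e2.trans e4.symm)))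
  · intro z
    obtain ⟨i, hi⟩ := surj_of_card cL (fun i => col (.inr i))
      (fun i j h => Sum.inr.inj (hrb _ _ rfl rfl h)) z
    exact ⟨i.1, (om1 _ _).2 ⟨i.2, hi⟩⟩
  · intro v z
    obtain ⟨i, hi⟩ := surj_of_card (h1 v) (fun i => col (.inl ⟨(v, i.1), i.2⟩))
      (fun i j h => Subtype.ext (by
        have := Sum.inl.inj (hcol _ _ (by exact .inl rfl) h)
        exact congrArg (fun z => z.1.2) this)) z
    exact ⟨i.1, (x1 _ _ _).2 ⟨i.2, hi⟩⟩
  · intro v z i j hi hj
    obtain ⟨e1, e2⟩ := (x1 _ _ _).1 hi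
    obtain ⟨e3, e4⟩ := (x1 _ _ _).1 hj
    exact congrArg (fun z => z.1.2) (Sum.inl.inj (hcol _ _ (by exact .inl rfl) (e2.trans e4.symm)))
  · intro i v v' z hi hj
    obtain ⟨e1, e2⟩ := (x1 _ _ _).1 hi
    obtain ⟨e3, e4⟩ := (x1 _ _ _).1 hj
    exact congrArg (fun z => z.1.1)
      (Sum.inl.inj (hcol _ _ (by exact .inr (.inl rfl)) (e2.trans e4.symm)))
  · intro i z v hi
    obtain ⟨e1, e2⟩ := (om1 _ _).1 hi
    constructor
    · intro hj
      obtain ⟨e3, e4⟩ := (x1 _ _ _).1 hj
      exact absurd (hcol _ _ (by exact .inr (.inl rfl)) (e2.trans e4.symm)) (by simp)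
    · intro hj
      obtain ⟨e3, e4⟩ := (x1 _ _ _).1 hj
      exact absurd (hcol _ _ (by exact .inr (.inr rfl)) (e2.trans e4.symm)) (by simp)
  · intro i v hi
    obtain ⟨k, rfl, rfl⟩ := (om2 _ _).1 hi
    exact ⟨not_not.1 fun h => (h4 k).1 ((x2 _ _).1 h), (x2 _ _).2 (h4 k).2,
      fun j => not_not.1 fun h => h3 k j ((w2 _ _).1 h)⟩
  · intro v u hv
    obtain ⟨i, hi⟩ := surj_of_card (h2 v fun k hk => hv (g k) ((om2 _ _).2 ⟨k, rfl, hk⟩))
      (fun i => cw ⟨(v, i.1), i.2⟩)
      (fun i j h => Subtype.ext (by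
        have := hcw _ _ (by exact .inl rfl) h
        exact congrArg (fun z => z.1.2) this)) u
    exact ⟨i.1, (w1 _ _ _).2 ⟨i.2, hi⟩⟩
  · intro v z i j hi hj
    obtain ⟨e1, e2⟩ := (w1 _ _ _).1 hi
    obtain ⟨e3, e4⟩ := (w1 _ _ _).1 hj
    exact congrArg (fun z => z.1.2) (hcw _ _ (by exact .inl rfl) (e2.trans e4.symm))
  · intro i v v' z hi hj
    obtain ⟨e1, e2⟩ := (w1 _ _ _).1 hi
    obtain ⟨e3, e4⟩ := (w1 _ _ _).1 hj
    exact congrArg (fun z => z.1.1) (hcw _ _ (by exact .inr rfl) (e2.trans e4.symm))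
  · exact fun v i h => (x2 _ _).2 (h5 _ _ ((w2 _ _).1 h))
  · intro i
    simp only [w2]
    exact h6 i
  · intro i
    simp only [x2]
    exact h7 i

end Pool.Agent.Lib.MP_351560_co
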