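import Mathlib
import Pool.Agent.Lib.MP_351560_co.D3Col

set_option autoImplicit false
set_option linter.unusedSimpArgs false
set_option linter.unusedVariables false
set_option linter.unusedSectionVars false

namespace Pool.Agent.Lib.MP_351560_co

open Finset

lemma sum_zmod {t : ℕ} [NeZero t] (f : ZMod t → ℕ) : ∑ j ∈ range t, f (j : ZMod t) = ∑ i, f i := by
  refine sum_bij (fun j _ => (j : ZMod t)) (fun _ _ => mem_univ _) (fun i hi j hj h => ?_)
    (fun i _ => ⟨i.val, mem_range.2 (ZMod.val_lt i), ZMod.natCast_zmod_val i⟩) fun _ _ => rfl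
  rw [← ZMod.val_cast_of_lt (mem_range.1 hi), h, ZMod.val_cast_of_lt (mem_range.1 hj)]

/-- Idle times of `n` rows written along a tape. -/
lemma tape {t : ℕ} [NeZero t] (n : ℕ) (io : ZMod t → ℕ) (hs : ∑ i, io i = n * n)
    (h2 : ∀ i, io i + io (i + 1) ≤ n) :
    ∃ (I : Fin n → Finset (ZMod t)) (g : Fin n → ZMod t), Function.Injective g ∧
      (∀ k, g k ∈ I k ∧ g k + 1 ∉ I k) ∧ (∀ k, (I k).card = n) ∧
      ∀ i, (univ.filter fun k => i ∈ I k).card = io i := by
  classical
  let S : ℕ → ℕ := fun i => ∑ j ∈ range i, io (j : ZMod t)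
  have S1 : ∀ i, S (i + 1) = S i + io (i : ZMod t) := fun i => sum_range_succ _ _
  have St : S t = n * n := (sum_zmod io).trans hs
  have Sm : Monotone S := monotone_nat_of_le_succ fun i => by rw [S1]; omega
  have hT : ∀ m, m < n * n → ∃ i, i < t ∧ S i ≤ m ∧ m < S (i + 1) := by
    intro m hm
    have hex : ∃ i, m < S i := ⟨t, St ▸ hm⟩
    have e1 := Nat.find_spec hex
    have e2 : Nat.find hex ≤ t := Nat.find_min' hex (St ▸ hm)
    rcases h : Nat.find hex with _ | i
    · rw [h] at e1
      simp [S] at e1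
    · exact ⟨i, by omega, not_lt.1 (Nat.find_min hex (by omega)), h ▸ e1⟩
  choose! T T1 T2 T3 using hT
  have Tu : ∀ m, m < n * n → ∀ i, S i ≤ m → m < S (i + 1) → T m = i := by
    intro m hm i e1 e2
    have e3 := T2 m hm
    have e4 := T3 m hm
    by_contra hne
    rcases lt_or_gt_of_ne hne with h | h
    · have := Sm (Nat.succ_le_of_lt h)
      simp only [Nat.succ_eq_add_one] at this
      omega
    · have := Sm (Nat.succ_le_of_lt h)
      simp only [Nat.succ_eq_add_one] at this
      omega
  have cinj : ∀ i j : ℕ, i < t → j < t → (i : ZMod t) = j → i = j := fun i j hi hj h => by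
    rw [← ZMod.val_cast_of_lt hi, h, ZMod.val_cast_of_lt hj]
  have lt : ∀ k j : Fin n, k.val + n * j.val < n * n := fun k j => by
    have := k.2
    have : n * (j.val + 1) ≤ n * n := Nat.mul_le_mul_left _ j.2
    nlinarith
  have close : ∀ m m', m < n * n → m' < n * n → (T m : ZMod t) = T m' → m' < m + io (T m) := by
    intro m m' hm hm' h
    have e := cinj _ _ (T1 m hm) (T1 m' hm') h
    have e1 := T2 m hm
    have e2 := T3 m' hm'
    rw [← e, S1] at e2
    omega
  have le : ∀ i, io i ≤ n := fun i => (Nat.le_add_right _ _).trans (h2 i)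
  have mulgap : ∀ x y : ℕ, n * x < n * y + n → x ≤ y := fun x y h => by
    by_contra hc
    have : n * (y + 1) ≤ n * x := Nat.mul_le_mul_left _ (by omega)
    rw [mul_add, mul_one] at this
    omega
  let τ : Fin n → Fin n → ZMod t := fun k j => (T (k.val + n * j.val) : ZMod t)
  have τinj : ∀ k, Function.Injective (τ k) := by
    intro k j j' h
    have e1 := close _ _ (lt k j) (lt k j') h
    have e2 := close _ _ (lt k j') (lt k j) h.symm
    have e3 := le (T (k.val + n * j.val))
    have e4 := le (T (k.val + n * j'.val))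
    exact Fin.ext (le_antisymm (mulgap _ _ (by omega)) (mulgap _ _ (by omega)))
  refine ⟨fun k => univ.image (τ k), fun k => τ k k, fun k k' h => ?_, fun k => ⟨?_, ?_⟩,
    fun k => ?_, fun i => ?_⟩
  · have e1 := close _ _ (lt k k) (lt k' k') h
    have e2 := close _ _ (lt k' k') (lt k k) h.symm
    have e3 := le (T (k.val + n * k.val))
    have e4 := le (T (k'.val + n * k'.val))
    refine Fin.ext (le_antisymm ?_ ?_)
    · by_contra hc
      have : n * (k'.val + 1) ≤ n * k.val := Nat.mul_le_mul_left _ (by omega)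
      rw [mul_add, mul_one] at this
      omega
    · by_contra hc
      have : n * (k.val + 1) ≤ n * k'.val := Nat.mul_le_mul_left _ (by omega)
      rw [mul_add, mul_one] at this
      omega
  · exact mem_image_of_mem _ (mem_univ _)
  · intro h
    obtain ⟨j, -, hj⟩ := mem_image.1 h
    simp only [τ] at hj
    have e1 := T1 _ (lt k k)
    have e2 := T2 _ (lt k k)
    have e3 := T3 _ (lt k k)
    have e4 := T1 _ (lt k j)
    have e5 := T2 _ (lt k j)
    have e6 := T3 _ (lt k j)
    have e7 := h2 (T (k.val + n * k.val))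
    rw [← hj] at e7
    rw [S1] at e3 e6
    by_cases hw : T (k.val + n * k.val) + 1 < t
    · have e8 := cinj _ _ e4 hw (by rw [hj]; push_cast; rfl)
      have e9 := S1 (T (k.val + n * k.val))
      rw [← e8] at e9
      have a1 : j.val ≤ k.val := mulgap _ _ (by omega)
      have a2 := Nat.mul_le_mul_left n a1
      omega
    · have hw' : T (k.val + n * k.val) + 1 = t := by omega
      have e8 := cinj _ 0 e4 (by omega) (by
        rw [hj, ← Nat.cast_succ, Nat.succ_eq_add_one, hw']; simp)
      have e9 := S1 (T (k.val + n * k.val))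
      rw [hw', St] at e9
      have e10 : S (T (k.val + n * j.val)) = 0 := by rw [e8]; simp [S]
      have a1 : j.val + n ≤ k.val := mulgap _ _ (by rw [mul_add]; omega)
      have := k.2
      omega
  · rw [card_image_of_injective _ (τinj k), card_univ, Fintype.card_fin]
  · have hv := ZMod.val_lt i
    have e0 : io i = (Ico (S i.val) (S (i.val + 1))).card := by
      rw [Nat.card_Ico, S1, ZMod.natCast_zmod_val]
      omega
    have e1 : S (i.val + 1) ≤ n * n := St ▸ Sm hv
    rw [e0]
    symm
    rcases Nat.eq_zero_or_pos n with rfl | hn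
    · rw [← e0]
      simpa using le i
    refine card_bij (fun m _ => ⟨m % n, Nat.mod_lt _ hn⟩) (fun m hm => ?_)
      (fun m hm m' hm' h => ?_) fun k hk => ?_
    · rw [mem_Ico] at hm
      simp only [mem_filter, mem_univ, true_and, mem_image]
      refine ⟨⟨m / n, Nat.div_lt_of_lt_mul (by omega)⟩, ?_⟩
      simp only [τ, Nat.mod_add_div]
      rw [Tu m (by omega) _ hm.1 hm.2, ZMod.natCast_zmod_val]
    · rw [mem_Ico, S1, ZMod.natCast_zmod_val] at hm hm'
      simp only [Fin.mk.injEq] at h
      have a1 := Nat.mod_add_div m n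
      have a2 := Nat.mod_add_div m' n
      have a3 := le i
      have a4 : m / n = m' / n :=
        le_antisymm (mulgap _ _ (by omega)) (mulgap _ _ (by omega))
      rw [a4] at a1
      omega
    · simp only [mem_filter, mem_univ, true_and, mem_image] at hk
      obtain ⟨j, hj⟩ := hk
      have a1 : T (k.val + n * j.val) = i.val :=
        cinj _ _ (T1 _ (lt k j)) hv (by rw [ZMod.natCast_zmod_val]; exact hj)
      refine ⟨k.val + n * j.val, mem_Ico.2 ⟨a1 ▸ T2 _ (lt k j), a1 ▸ T3 _ (lt k j)⟩, Fin.ext ?_⟩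
      simp [Nat.mod_eq_of_lt k.2]

/-- A balanced function between two almost constant bounds. -/
lemma exists_between_bal {T : Type} [Fintype T] [DecidableEq T] [Nonempty T] (L U : T → ℤ) (s : ℕ)
    (hL : ∀ i j, L i ≤ L j + 1) (hU : ∀ i j, U i ≤ U j + 1) (hLU : ∀ i, L i ≤ U i)
    (h1 : ∑ i, L i ≤ s) (h2 : (s : ℤ) ≤ ∑ i, U i) :
    ∃ io : T → ℕ, (∀ i, L i ≤ io i ∧ (io i : ℤ) ≤ U i) ∧ ∑ i, io i = s ∧
      ∀ i, Fintype.card T * io i < s + Fintype.card T := by
  have hpos : 0 < Fintype.card T := Fintype.card_pos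
  set n := Fintype.card T with hn
  obtain ⟨f, r, hr, hs⟩ : ∃ f r, r < n ∧ s = n * f + r :=
    ⟨s / n, s % n, Nat.mod_lt _ hpos, (Nat.div_add_mod s n).symm⟩
  have hs' : (s : ℤ) = n * f + r := by exact_mod_cast hs
  have cst : ∀ x : ℤ, ∑ _i : T, x = n * x := fun x => by simp [hn]
  have ind : ∀ (A : Finset T) (x : ℤ), ∑ i, (x + if i ∈ A then 1 else 0) = n * x + A.card := by
    intro A x
    rw [sum_add_distrib, cst]
    simp
  have a1 : ∀ i, L i ≤ f + 1 := by
    intro i
    by_contra hc
    have : ∑ _j : T, ((f : ℤ) + 1) ≤ ∑ j, L j := sum_le_sum fun j _ => by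
      have := hL i j
      omega
    rw [cst] at this
    have : (r : ℤ) < n := by exact_mod_cast hr
    nlinarith
  have a2 : ∀ i, (f : ℤ) ≤ U i := by
    intro i
    by_contra hc
    have : ∑ j, U j < ∑ _j : T, (f : ℤ) := sum_lt_sum (fun j _ => by
      have := hU j i
      omega) ⟨i, mem_univ _, by omega⟩
    rw [cst] at this
    omega
  have a3 : (univ.filter fun i => (f : ℤ) + 1 ≤ L i).card ≤ r := by
    rcases (univ.filter fun i => (f : ℤ) + 1 ≤ L i).eq_empty_or_nonempty with h | ⟨i, hi⟩
    · rw [h]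
      simp
    · have := (mem_filter.1 hi).2
      have e := ind (univ.filter fun i => (f : ℤ) + 1 ≤ L i) f
      have : ∑ j, ((f : ℤ) + if j ∈ (univ.filter fun i => (f : ℤ) + 1 ≤ L i) then 1 else 0) ≤
          ∑ j, L j := sum_le_sum fun j _ => by
        have := hL i j
        simp only [mem_filter, mem_univ, true_and]
        split_ifs <;> omega
      omega
  have a4 : r ≤ (univ.filter fun i => (f : ℤ) + 1 ≤ U i).card := by
    by_cases h : ∀ i, (f : ℤ) + 1 ≤ U i
    · rw [filter_true_of_mem fun i _ => h i, card_univ]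
      omega
    · push Not at h
      obtain ⟨i, hi⟩ := h
      have e := ind (univ.filter fun i => (f : ℤ) + 1 ≤ U i) f
      have : ∑ j, U j ≤
          ∑ j, ((f : ℤ) + if j ∈ (univ.filter fun i => (f : ℤ) + 1 ≤ U i) then 1 else 0) :=
        sum_le_sum fun j _ => by
          have := hU j i
          simp only [mem_filter, mem_univ, true_and]
          split_ifs <;> omega
      omega
  obtain ⟨R, r1, r2, r3⟩ := exists_subsuperset_card_eq
    (s := univ.filter fun i => (f : ℤ) + 1 ≤ L i) (t := univ.filter fun i => (f : ℤ) + 1 ≤ U i)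
    (fun i hi => mem_filter.2 ⟨mem_univ _, (mem_filter.1 hi).2.trans (hLU i)⟩) a3 a4
  refine ⟨fun i => f + if i ∈ R then 1 else 0, fun i => ?_, ?_, fun i => ?_⟩
  · have b1 := a1 i
    have b2 := a2 i
    beta_reduce
    split_ifs with h
    · have := (mem_filter.1 (r2 h)).2
      push_cast
      omega
    · have : ¬ (f : ℤ) + 1 ≤ L i := fun h' => h (r1 (mem_filter.2 ⟨mem_univ _, h'⟩))
      push_cast
      omega
  · rw [sum_add_distrib]
    simp [hs, r3, ← hn]
  · beta_reduce
    split_ifs with h
    · have : 0 < R.card := card_pos.2 ⟨i, h⟩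
      rw [mul_add]
      omega
    · rw [add_zero]
      omega

/-- A set of times without two consecutive members. -/
lemma exists_sparse {t : ℕ} [NeZero t] (r : ℕ) (h : 2 * r ≤ t) :
    ∃ S : Finset (ZMod t), S.card = r ∧ ∀ i, i - 1 ∈ S → i ∉ S := by
  have cinj : ∀ i j : ℕ, i < t → j < t → (i : ZMod t) = j → i = j := fun i j hi hj h => by
    rw [← ZMod.val_cast_of_lt hi, h, ZMod.val_cast_of_lt hj]
  refine ⟨(range r).image fun j : ℕ => ((2 * j : ℕ) : ZMod t), ?_, fun i h1 h2 => ?_⟩
  · rw [card_image_of_injOn, card_range]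
    intro i hi j hj e
    simp only [coe_range, Set.mem_Iio] at hi hj
    have := cinj _ _ (by omega) (by omega) e
    omega
  · obtain ⟨j, hj, e1⟩ := mem_image.1 h1
    obtain ⟨j', hj', e2⟩ := mem_image.1 h2
    rw [mem_range] at hj hj'
    have := cinj (2 * j + 1) (2 * j') (by omega) (by omega) (by
      rw [e2, Nat.cast_add, e1]; simp)
    omega

lemma d3_gap {t a b c c1 : ℕ} (ht : 12 ≤ t) (hba : b ≤ a) (hac : a ≤ c) (hc : t = c + c1)
    (hab : t < a + b) (hd : t ∣ a * b + b * c + c * a) (h1 : 2 ≤ c1) : c1 * c1 ≤ c1 / 2 * t := by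
  obtain ⟨h, rfl | rfl⟩ := Nat.even_or_odd' c1
  · rw [Nat.mul_div_cancel_left _ two_pos]
    have : 2 * (2 * h) ≤ t := by omega
    nlinarith
  · have e : (2 * h + 1) / 2 = h := by omega
    rw [e]
    have : 4 * h + 5 ≤ t := by
      by_contra hlt
      obtain ⟨k, hk⟩ := hd
      by_cases h3 : t = 4 * h + 3
      · obtain rfl : c = 2 * h + 2 := by omega
        obtain rfl : a = 2 * h + 2 := by omega
        obtain rfl : b = 2 * h + 2 := by omega
        have : t ∣ 3 := by
          have e1 : 4 * (t * k) = t * (3 * t + 6) + 3 := by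
            rw [← hk, h3]
            ring
          exact (Nat.dvd_add_right (Dvd.intro _ rfl)).1 (e1 ▸ (Dvd.intro k rfl).mul_left 4)
        have := Nat.le_of_dvd (by norm_num) this
        omega
      · obtain rfl : t = 4 * h + 4 := by omega
        obtain rfl : c = 2 * h + 3 := by omega
        obtain rfl : a = 2 * h + 3 := by omega
        have hb : b = 2 * h + 2 ∨ b = 2 * h + 3 := by omega
        have e1 : (4 * h + 4) * k = 2 * ((2 * h + 2) * k) := by ring
        have e2 : (2 * h + 3) * b + b * (2 * h + 3) + (2 * h + 3) * (2 * h + 3) =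
            2 * ((2 * h + 3) * b + 2 * h * h + 6 * h + 4) + 1 := by ring
        omega
    have h0 : 1 ≤ h := by omega
    nlinarith

theorem hasSch_of {t a b c : ℕ} [NeZero t] (ht : 12 ≤ t) (hba : b ≤ a) (hac : a ≤ c) (hct : c < t)
    (hab : t < a + b) (h3 : 3 * t ≤ c * (t - b)) (hd : t ∣ a * b + b * c + c * a) :
    HasSch t a b c := by
  classical
  obtain ⟨c1, hc1⟩ : ∃ c1, t = c + c1 := ⟨t - c, by omega⟩
  obtain ⟨ρ, hρ⟩ : ∃ ρ, b = c1 + ρ := ⟨b - c1, by omega⟩
  obtain ⟨d, hd'⟩ : ∃ d, c = a + d := ⟨c - a, by omega⟩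
  obtain ⟨b1, hb1⟩ : ∃ b1, t = b + b1 := ⟨t - b, by omega⟩
  have h3' : b * c + 3 * t ≤ c * t := by
    rw [show t - b = b1 by omega] at h3
    have : c * t = b * c + c * b1 := by rw [hb1]; ring
    omega
  obtain ⟨n1, xb, hxb, hn1⟩ : ∃ n1 xb, xb < t ∧ t * n1 = a * ρ + xb := by
    have e := Nat.div_add_mod (a * ρ + (t - 1)) t
    have e' := Nat.mod_lt (a * ρ + (t - 1)) (show 0 < t by omega)
    exact ⟨(a * ρ + (t - 1)) / t, t - 1 - (a * ρ + (t - 1)) % t, by omega, by omega⟩
  obtain ⟨m, hm⟩ : ∃ m, t = xb + m := ⟨t - xb, by omega⟩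
  obtain ⟨n2, hn2⟩ : t ∣ b * c + m := by
    have e : a * b + b * c + c * a + t = t * (a + n1) + (b * c + m) := by
      have : a * b + c * a = t * a + a * ρ := by rw [hc1, hρ]; ring
      rw [mul_add]
      omega
    exact (Nat.dvd_add_right (Dvd.intro _ rfl)).1 (e ▸ dvd_add hd dvd_rfl)
  have gap : ∀ x y : ℕ, t * x < t * y + t → x ≤ y := fun x y h => by
    by_contra hc
    have : t * (y + 1) ≤ t * x := Nat.mul_le_mul_left _ (by omega)
    rw [mul_add, mul_one] at this
    omega
  have n1a : n1 ≤ a := gap _ _ (by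
    have : a * ρ ≤ t * a := by rw [mul_comm]; exact Nat.mul_le_mul_right _ (by omega)
    omega)
  have n1ρ : n1 ≤ ρ := gap _ _ (by
    have : a * ρ ≤ t * ρ := Nat.mul_le_mul_right _ (by omega)
    omega)
  obtain ⟨S, hS, hS'⟩ : ∃ S : Finset (ZMod t), S.card = xb ∧
      ((∀ i, i - 1 ∈ S → i ∉ S) ∨ ∀ i, i - 1 ∉ S → i ∈ S) := by
    by_cases h : 2 * xb ≤ t
    · obtain ⟨S, h1, h2⟩ := exists_sparse xb h
      exact ⟨S, h1, .inl h2⟩
    · obtain ⟨S, h1, h2⟩ := exists_sparse (t := t) m (by omega)
      refine ⟨Sᶜ, by rw [card_compl, ZMod.card]; omega, .inr fun i hi => ?_⟩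
      rw [mem_compl, not_not] at hi
      exact mem_compl.2 (h2 i hi)
  let e1 : ZMod t → ℕ := fun i => if i ∈ S then 1 else 0
  let e2 : ZMod t → ℕ := fun i => if i - 1 ∈ S then 0 else 1
  have s1 : ∑ i, e1 i = xb := by simp [e1, hS]
  have s2 : ∑ i, e2 i = m := by
    have : ∑ i, e2 i = ∑ i : ZMod t, if i ∈ Sᶜ then 1 else 0 :=
      Fintype.sum_equiv (Equiv.subRight 1) _ _ fun i => by simp [e2]
    rw [this, sum_boole, filter_mem_eq_inter, univ_inter, Nat.cast_id, card_compl, ZMod.card]
    omega
  have s1' : ∑ i, (e1 i : ℤ) = xb := by exact_mod_cast s1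
  have s2' : ∑ i, (e2 i : ℤ) = m := by exact_mod_cast s2
  have cst : ∀ x : ℤ, ∑ _i : ZMod t, x = t * x := fun x => by simp [ZMod.card]
  have pe : ∀ i, e1 i ≤ n1 := by
    intro i
    simp only [e1]
    split_ifs with h
    · have : 0 < S.card := card_pos.2 ⟨i, h⟩
      rcases Nat.eq_zero_or_pos n1 with rfl | h'
      · omega
      · exact h'
    · omega
  let L : ZMod t → ℤ := fun i => (c1 - n2 + n1 : ℤ) + e2 i - e1 i
  let U : ZMod t → ℤ := fun i => (b - n2 : ℤ) + e2 i
  have z1 : (t : ℤ) * n1 = a * ρ + xb := by exact_mod_cast hn1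
  have z2 : (b : ℤ) * c + m = t * n2 := by exact_mod_cast hn2
  have z3 : (t : ℤ) = c + c1 := by exact_mod_cast hc1
  have z4 : (b : ℤ) = c1 + ρ := by exact_mod_cast hρ
  have z5 : (c : ℤ) = a + d := by exact_mod_cast hd'
  have sL : ∑ i, L i + ρ * d = c1 * c1 := by
    simp only [L, sum_sub_distrib, sum_add_distrib, cst, s1', s2']
    linear_combination z1 + z2 + c1 * z3 - c * z4 - ρ * z5
  have sU : ∑ i, U i = c1 * c1 + ρ * c1 := by
    simp only [U, sum_sub_distrib, sum_add_distrib, cst, s1', s2']
    linear_combination z2 + b * z3 + c1 * z4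
  obtain ⟨io, i1, i2, i3⟩ := exists_between_bal L U (c1 * c1) (fun i j => by
      simp only [L, e1, e2]
      rcases hS' with h | h
      · have := h i
        have := h j
        split_ifs <;> first | omega | tauto
      · have := h i
        have := h j
        split_ifs <;> first | omega | tauto) (fun i j => by
      simp only [U, e2]
      split_ifs <;> omega) (fun i => by
      simp only [L, U]
      omega) (by
      have : (0 : ℤ) ≤ ρ * d := by positivity
      push_cast
      omega) (by
      have : (0 : ℤ) ≤ ρ * c1 := by positivity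
      push_cast
      omega)
  rw [ZMod.card] at i3
  have ht1 : Fact (1 < t) := ⟨by omega⟩
  obtain ⟨I, g, hg, hI, rI, cI⟩ := tape c1 io i2 fun i => by
    by_cases h : 2 ≤ c1
    · have e := d3_gap ht hba hac hc1 hab hd h
      rw [mul_comm _ t] at e
      have a1 := gap (io i) (c1 / 2) (lt_of_lt_of_le (i3 _) (by omega))
      have a2 := gap (io (i + 1)) (c1 / 2) (lt_of_lt_of_le (i3 _) (by omega))
      omega
    · obtain rfl : c1 = 1 := by omega
      have := sum_le_sum_of_subset (f := io) (subset_univ {i, i + 1})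
      rw [sum_pair (by simp), i2] at this
      exact this
  have i2' : ∑ i, (io i : ℤ) = c1 * c1 := by exact_mod_cast i2
  let M : ZMod t → Fin 3 → ℕ := fun i => ![n1 - e1 i, (io i - L i).toNat, (U i - io i).toNat]
  obtain ⟨st, q1, q2⟩ := sched_state M ![a, d, c1] ρ (by
      rw [Fin.sum_univ_three, ZMod.card]
      simp only [Matrix.cons_val]
      omega) (fun i => by
      have a1 := i1 i
      have a2 := pe i
      rw [Fin.sum_univ_three]
      simp only [M, Matrix.cons_val, L, U] at a1 ⊢
      omega) (fun σ => by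
      fin_cases σ
      · have : ∑ i, (n1 - e1 i + e1 i) = t * n1 := by
          rw [sum_congr rfl fun i _ => Nat.sub_add_cancel (pe i)]
          simp [ZMod.card]
        rw [sum_add_distrib, s1, hn1, mul_comm] at this
        simpa [M] using this
      · have : ∑ i, (((io i - L i).toNat : ℕ) : ℤ) = ρ * d := by
          rw [sum_congr rfl fun i _ => Int.toNat_of_nonneg (sub_nonneg.2 (i1 i).1),
            sum_sub_distrib, i2']
          omega
        simp only [M]
        exact_mod_cast this
      · have : ∑ i, (((U i - io i).toNat : ℕ) : ℤ) = ρ * c1 := by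
          rw [sum_congr rfl fun i _ => Int.toNat_of_nonneg (sub_nonneg.2 (i1 i).2),
            sum_sub_distrib, i2']
          omega
        simp only [M]
        exact_mod_cast this)
  have hc4 : 4 ≤ c := by
    by_contra hc
    have a1 : c * t ≤ 3 * t := Nat.mul_le_mul_right _ (by omega)
    have a2 : 1 * 1 ≤ b * c := Nat.mul_le_mul (by omega) (by omega)
    omega
  have split : ∀ (p : Fin c1 ⊕ Fin ρ → Prop) [DecidablePred p], (univ.filter p).card =
      (univ.filter fun z => p (.inl z)).card + (univ.filter fun i => p (.inr i)).card := by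
    intro p _
    simp only [card_filter, Fintype.sum_sum_type]
  obtain ⟨om, x, w, h⟩ := sch_of (t := t) (a := a) (c := c) (B := Fin c1 ⊕ Fin ρ)
    (fun i => decide (i ∈ S)) (Sum.elim (fun k i => i ∉ I k) fun r i => st r i ≠ 2)
    (Sum.elim (fun _ _ => False) fun r i => st r i = 0) Sum.inl g n1 n2 Sum.inl_injective hg
    (by rw [Fintype.card_fin]; omega) hc4 (by
      rintro (k | r)
      · have a1 := card_filter_add_card_filter_not (s := univ) fun i => i ∈ I k
        rw [filter_mem_eq_inter, univ_inter, rI, card_univ, ZMod.card] at a1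
        convert (show (univ.filter fun i => i ∉ I k).card = c by omega) using 3
        simp
      · have a1 := card_filter_add_card_filter_not (s := univ) fun i => st r i = 2
        rw [q2, card_univ, ZMod.card] at a1
        simp only [Matrix.cons_val] at a1
        convert (show (univ.filter fun i => ¬ st r i = 2).card = c by omega) using 3
        simp) (by
      rintro (k | r) h
      · exact absurd rfl (h k)
      · convert q2 r 0 using 3 <;> simp) (fun _ _ => id) (fun k => ⟨not_not.2 (hI k).1, (hI k).2⟩) (by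
      rintro (k | r) i h
      · exact h.elim
      · simp only [Sum.elim_inr] at h ⊢
        rw [h]
        decide) (fun i => by
      have a1 := q1 i 0
      have a2 := pe i
      simp only [M, Matrix.cons_val] at a1
      rw [split]
      convert (show (∅ : Finset (Fin c1)).card + (univ.filter fun r => st r i = 0).card + e1 i = n1
        by rw [card_empty]; omega) using 4 <;> simp [e1]) (fun i => by
      have a1 := card_filter_add_card_filter_not (s := univ) fun k => i ∈ I k
      have a2 := card_filter_add_card_filter_not (s := univ) fun r => st r i = 2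
      rw [cI, card_univ, Fintype.card_fin] at a1
      rw [q1, card_univ, Fintype.card_fin] at a2
      have a3 := i1 i
      simp only [M, Matrix.cons_val, U] at a2 a3
      rw [split]
      convert (show (univ.filter fun k => i ∉ I k).card + (univ.filter fun r => ¬ st r i = 2).card +
        e2 i = n2 by omega) using 4 <;> simp [e2]) (by
      have e : c * t = t * c := mul_comm _ _
      rcases Nat.eq_zero_or_pos xb with rfl | h
      · refine .inr ⟨gap _ _ (by rw [mul_add]; omega), fun i => ?_⟩
        simp [card_eq_zero.1 hS]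
      · exact .inl (gap _ _ (by rw [mul_add]; omega))) n1a
  exact ⟨Fin c1 ⊕ Fin ρ, inferInstance, inferInstance, by simp [hρ], _, om, x, w, n1, n2, h⟩

end Pool.Agent.Lib.MP_351560_co
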