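import Mathlib
import Pool.Agent.Lib.MP_351560_co.D3Sch

set_option autoImplicit false
set_option linter.unusedSimpArgs false
set_option linter.unusedVariables false
set_option linter.unusedSectionVars false

namespace Pool.Agent.Lib.MP_351560_co

open Finset

/-- A balanced function between two almost constant bounds. -/
lemma exists_between_bal' {T : Type} [Fintype T] [DecidableEq T] [Nonempty T] (L U : T → ℤ) (s : ℕ)
    (hL : ∀ i j, L i ≤ L j + 1) (hU : ∀ i j, U i ≤ U j + 1) (hLU : ∀ i, L i ≤ U i)
    (h1 : ∑ i, L i ≤ s) (h2 : (s : ℤ) ≤ ∑ i, U i) :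
    ∃ io : T → ℕ, (∀ i, L i ≤ io i ∧ (io i : ℤ) ≤ U i) ∧ ∑ i, io i = s ∧
      ∀ i, Fintype.card T * io i < s + Fintype.card T ∧
        s < Fintype.card T * io i + Fintype.card T := by
  have hpos : 0 < Fintype.card T := Fintype.card_pos
  set n := Fintype.card T with hn
  obtain ⟨f, r, hr, hs⟩ : ∃ f r, r < n ∧ s = n * f + r :=
    ⟨s / n, s % n, Nat.mod_lt _ hpos, (Nat.div_add_mod s n).symm⟩
  have hs' : (s : ℤ) = n * f + r := by exact_mod_cast hs
  have cst : ∀ x : ℤ, ∑ _i : T, x = n * x := fun x => by simp [hn]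
  have ind : ∀ (A : Finset T) (x : ℤ), ∑ i, (x + if i ∈ A then 1 else 0) = n * x + A.card := by
    intro A x
    rw [sum_add_distrib, cst]
    simp
  have a1 : ∀ i, L i ≤ f + 1 := by
    intro i
    by_contra hc
    have : ∑ _j : T, ((f : ℤ) + 1) ≤ ∑ j, L j := sum_le_sum fun j _ => by
      have := hL i j
      omega
    rw [cst] at this
    have : (r : ℤ) < n := by exact_mod_cast hr
    nlinarith
  have a2 : ∀ i, (f : ℤ) ≤ U i := by
    intro i
    by_contra hc
    have : ∑ j, U j < ∑ _j : T, (f : ℤ) := sum_lt_sum (fun j _ => by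
      have := hU j i
      omega) ⟨i, mem_univ _, by omega⟩
    rw [cst] at this
    omega
  have a3 : (univ.filter fun i => (f : ℤ) + 1 ≤ L i).card ≤ r := by
    rcases (univ.filter fun i => (f : ℤ) + 1 ≤ L i).eq_empty_or_nonempty with h | ⟨i, hi⟩
    · rw [h]
      simp
    · have := (mem_filter.1 hi).2
      have e := ind (univ.filter fun i => (f : ℤ) + 1 ≤ L i) f
      have : ∑ j, ((f : ℤ) + if j ∈ (univ.filter fun i => (f : ℤ) + 1 ≤ L i) then 1 else 0) ≤
          ∑ j, L j := sum_le_sum fun j _ => by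
        have := hL i j
        simp only [mem_filter, mem_univ, true_and]
        split_ifs <;> omega
      omega
  have a4 : r ≤ (univ.filter fun i => (f : ℤ) + 1 ≤ U i).card := by
    by_cases h : ∀ i, (f : ℤ) + 1 ≤ U i
    · rw [filter_true_of_mem fun i _ => h i, card_univ]
      omega
    · push Not at h
      obtain ⟨i, hi⟩ := h
      have e := ind (univ.filter fun i => (f : ℤ) + 1 ≤ U i) f
      have : ∑ j, U j ≤
          ∑ j, ((f : ℤ) + if j ∈ (univ.filter fun i => (f : ℤ) + 1 ≤ U i) then 1 else 0) :=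
        sum_le_sum fun j _ => by
          have := hU j i
          simp only [mem_filter, mem_univ, true_and]
          split_ifs <;> omega
      omega
  obtain ⟨R, r1, r2, r3⟩ := exists_subsuperset_card_eq
    (s := univ.filter fun i => (f : ℤ) + 1 ≤ L i) (t := univ.filter fun i => (f : ℤ) + 1 ≤ U i)
    (fun i hi => mem_filter.2 ⟨mem_univ _, (mem_filter.1 hi).2.trans (hLU i)⟩) a3 a4
  refine ⟨fun i => f + if i ∈ R then 1 else 0, fun i => ?_, ?_, fun i => ?_⟩
  · have b1 := a1 i
    have b2 := a2 i
    beta_reduce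
    split_ifs with h
    · have := (mem_filter.1 (r2 h)).2
      push_cast
      omega
    · have : ¬ (f : ℤ) + 1 ≤ L i := fun h' => h (r1 (mem_filter.2 ⟨mem_univ _, h'⟩))
      push_cast
      omega
  · rw [sum_add_distrib]
    simp [hs, r3, ← hn]
  · beta_reduce
    split_ifs with h
    · have : 0 < R.card := card_pos.2 ⟨i, h⟩
      rw [mul_add]
      omega
    · rw [add_zero]
      omega

lemma d3_gap' {t a b c c1 : ℕ} (ht : 12 ≤ t) (hba : b ≤ a) (hac : a ≤ c) (hc : t = c + c1)
    (hab : t ≤ b + c) (hd : t ∣ a * b + b * c + c * a) (h1 : 2 ≤ c1) :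
    c1 * c1 ≤ c1 / 2 * t ∨ (c1 = 2 * (c1 / 2) + 1 ∧ c1 * c1 = c1 / 2 * t + 1) := by
  by_cases h0 : t < a + b
  · exact .inl (d3_gap ht hba hac hc h0 hd h1)
  obtain ⟨h, rfl | rfl⟩ := Nat.even_or_odd' c1
  · rw [Nat.mul_div_cancel_left _ two_pos]
    have : 2 * (2 * h) ≤ t := by omega
    left
    nlinarith
  · have e : (2 * h + 1) / 2 = h := by omega
    rw [e]
    by_cases h5 : 4 * h + 5 ≤ t
    · have h0 : 1 ≤ h := by omega
      left
      nlinarith
    by_cases h4 : t = 4 * h + 4
    · exact .inr ⟨rfl, by rw [h4]; ring⟩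
    exfalso
    obtain ⟨k, hk⟩ := hd
    by_cases h3 : t = 4 * h + 3
    · obtain rfl : c = 2 * h + 2 := by omega
      obtain rfl : b = 2 * h + 1 := by omega
      have ha : a = 2 * h + 1 ∨ a = 2 * h + 2 := by omega
      have : t ∣ 1 := by
        rcases ha with rfl | rfl
        · have e1 : 4 * (t * k) + 1 = t * (3 * t - 2) := by
            rw [← hk, h3, show 3 * (4 * h + 3) - 2 = 12 * h + 7 by omega]
            ring
          exact (Nat.dvd_add_right ((Dvd.intro k rfl).mul_left 4)).1 (e1 ▸ Dvd.intro _ rfl)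
        · have e1 : 4 * (t * k) + 1 = t * (3 * t + 2) := by
            rw [← hk, h3]
            ring
          exact (Nat.dvd_add_right ((Dvd.intro k rfl).mul_left 4)).1 (e1 ▸ Dvd.intro _ rfl)
      have := Nat.le_of_dvd (by norm_num) this
      omega
    · obtain rfl : t = 4 * h + 2 := by omega
      obtain rfl : c = 2 * h + 1 := by omega
      obtain rfl : a = 2 * h + 1 := by omega
      obtain rfl : b = 2 * h + 1 := by omega
      have e1 : (4 * h + 2) * k = 2 * ((2 * h + 1) * k) := by ring
      have e2 : (2 * h + 1) * (2 * h + 1) + (2 * h + 1) * (2 * h + 1) + (2 * h + 1) * (2 * h + 1) =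
          2 * (6 * h * h + 6 * h + 1) + 1 := by ring
      omega

theorem hasSch_of' {t a b c : ℕ} [NeZero t] (ht : 12 ≤ t) (hba : b ≤ a) (hac : a ≤ c) (hct : c < t)
    (hab : t ≤ b + c) (h3 : 3 * t ≤ c * (t - b)) (hd : t ∣ a * b + b * c + c * a) :
    HasSch t a b c := by
  classical
  obtain ⟨c1, hc1⟩ : ∃ c1, t = c + c1 := ⟨t - c, by omega⟩
  obtain ⟨ρ, hρ⟩ : ∃ ρ, b = c1 + ρ := ⟨b - c1, by omega⟩
  obtain ⟨d, hd'⟩ : ∃ d, c = a + d := ⟨c - a, by omega⟩
  obtain ⟨b1, hb1⟩ : ∃ b1, t = b + b1 := ⟨t - b, by omega⟩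
  have h3' : b * c + 3 * t ≤ c * t := by
    rw [show t - b = b1 by omega] at h3
    have : c * t = b * c + c * b1 := by rw [hb1]; ring
    omega
  obtain ⟨n1, xb, hxb, hn1⟩ : ∃ n1 xb, xb < t ∧ t * n1 = a * ρ + xb := by
    have e := Nat.div_add_mod (a * ρ + (t - 1)) t
    have e' := Nat.mod_lt (a * ρ + (t - 1)) (show 0 < t by omega)
    exact ⟨(a * ρ + (t - 1)) / t, t - 1 - (a * ρ + (t - 1)) % t, by omega, by omega⟩
  obtain ⟨m, hm⟩ : ∃ m, t = xb + m := ⟨t - xb, by omega⟩
  obtain ⟨n2, hn2⟩ : t ∣ b * c + m := by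
    have e : a * b + b * c + c * a + t = t * (a + n1) + (b * c + m) := by
      have : a * b + c * a = t * a + a * ρ := by rw [hc1, hρ]; ring
      rw [mul_add]
      omega
    exact (Nat.dvd_add_right (Dvd.intro _ rfl)).1 (e ▸ dvd_add hd dvd_rfl)
  have gap : ∀ x y : ℕ, t * x < t * y + t → x ≤ y := fun x y h => by
    by_contra hc
    have : t * (y + 1) ≤ t * x := Nat.mul_le_mul_left _ (by omega)
    rw [mul_add, mul_one] at this
    omega
  have n1a : n1 ≤ a := gap _ _ (by
    have : a * ρ ≤ t * a := by rw [mul_comm]; exact Nat.mul_le_mul_right _ (by omega)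
    omega)
  have n1ρ : n1 ≤ ρ := gap _ _ (by
    have : a * ρ ≤ t * ρ := Nat.mul_le_mul_right _ (by omega)
    omega)
  obtain ⟨S, hS, hS'⟩ : ∃ S : Finset (ZMod t), S.card = xb ∧
      ((∀ i, i - 1 ∈ S → i ∉ S) ∨ ∀ i, i - 1 ∉ S → i ∈ S) := by
    by_cases h : 2 * xb ≤ t
    · obtain ⟨S, h1, h2⟩ := exists_sparse xb h
      exact ⟨S, h1, .inl h2⟩
    · obtain ⟨S, h1, h2⟩ := exists_sparse (t := t) m (by omega)
      refine ⟨Sᶜ, by rw [card_compl, ZMod.card]; omega, .inr fun i hi => ?_⟩
      rw [mem_compl, not_not] at hi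
      exact mem_compl.2 (h2 i hi)
  let e1 : ZMod t → ℕ := fun i => if i ∈ S then 1 else 0
  let e2 : ZMod t → ℕ := fun i => if i - 1 ∈ S then 0 else 1
  have s1 : ∑ i, e1 i = xb := by simp [e1, hS]
  have s2 : ∑ i, e2 i = m := by
    have : ∑ i, e2 i = ∑ i : ZMod t, if i ∈ Sᶜ then 1 else 0 :=
      Fintype.sum_equiv (Equiv.subRight 1) _ _ fun i => by simp [e2]
    rw [this, sum_boole, filter_mem_eq_inter, univ_inter, Nat.cast_id, card_compl, ZMod.card]
    omega
  have s1' : ∑ i, (e1 i : ℤ) = xb := by exact_mod_cast s1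
  have s2' : ∑ i, (e2 i : ℤ) = m := by exact_mod_cast s2
  have cst : ∀ x : ℤ, ∑ _i : ZMod t, x = t * x := fun x => by simp [ZMod.card]
  have pe : ∀ i, e1 i ≤ n1 := by
    intro i
    simp only [e1]
    split_ifs with h
    · have : 0 < S.card := card_pos.2 ⟨i, h⟩
      rcases Nat.eq_zero_or_pos n1 with rfl | h'
      · omega
      · exact h'
    · omega
  let L : ZMod t → ℤ := fun i => (c1 - n2 + n1 : ℤ) + e2 i - e1 i
  let U : ZMod t → ℤ := fun i => (b - n2 : ℤ) + e2 i
  have z1 : (t : ℤ) * n1 = a * ρ + xb := by exact_mod_cast hn1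
  have z2 : (b : ℤ) * c + m = t * n2 := by exact_mod_cast hn2
  have z3 : (t : ℤ) = c + c1 := by exact_mod_cast hc1
  have z4 : (b : ℤ) = c1 + ρ := by exact_mod_cast hρ
  have z5 : (c : ℤ) = a + d := by exact_mod_cast hd'
  have sL : ∑ i, L i + ρ * d = c1 * c1 := by
    simp only [L, sum_sub_distrib, sum_add_distrib, cst, s1', s2']
    linear_combination z1 + z2 + c1 * z3 - c * z4 - ρ * z5
  have sU : ∑ i, U i = c1 * c1 + ρ * c1 := by
    simp only [U, sum_sub_distrib, sum_add_distrib, cst, s1', s2']
    linear_combination z2 + b * z3 + c1 * z4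
  obtain ⟨io, i1, i2, i3⟩ := exists_between_bal' L U (c1 * c1) (fun i j => by
      simp only [L, e1, e2]
      rcases hS' with h | h
      · have := h i
        have := h j
        split_ifs <;> first | omega | tauto
      · have := h i
        have := h j
        split_ifs <;> first | omega | tauto) (fun i j => by
      simp only [U, e2]
      split_ifs <;> omega) (fun i => by
      simp only [L, U]
      omega) (by
      have : (0 : ℤ) ≤ ρ * d := by positivity
      push_cast
      omega) (by
      have : (0 : ℤ) ≤ ρ * c1 := by positivity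
      push_cast
      omega)
  rw [ZMod.card] at i3
  have ht1 : Fact (1 < t) := ⟨by omega⟩
  obtain ⟨I, g, hg, hI, rI, cI⟩ := tape c1 io i2 fun i => by
    by_cases h : 2 ≤ c1
    · rcases d3_gap' ht hba hac hc1 hab hd h with e | ⟨e0, e⟩
      · rw [mul_comm _ t] at e
        have a1 := gap (io i) (c1 / 2) (lt_of_lt_of_le (i3 _).1 (by omega))
        have a2 := gap (io (i + 1)) (c1 / 2) (lt_of_lt_of_le (i3 _).1 (by omega))
        omega
      · rw [mul_comm _ t] at e
        have a0 : ∀ j, c1 / 2 ≤ io j := fun j => gap _ _ (by have := (i3 j).2; omega)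
        have a1 : ∑ j, (io j - c1 / 2 + c1 / 2) = c1 * c1 :=
          (sum_congr rfl fun j _ => Nat.sub_add_cancel (a0 j)).trans i2
        rw [sum_add_distrib, sum_const, card_univ, ZMod.card, smul_eq_mul] at a1
        have a2 := sum_le_sum_of_subset (f := fun j => io j - c1 / 2) (subset_univ {i, i + 1})
        rw [sum_pair (by simp)] at a2
        have := a0 i
        have := a0 (i + 1)
        omega
    · obtain rfl : c1 = 1 := by omega
      have := sum_le_sum_of_subset (f := io) (subset_univ {i, i + 1})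
      rw [sum_pair (by simp), i2] at this
      exact this
  have i2' : ∑ i, (io i : ℤ) = c1 * c1 := by exact_mod_cast i2
  let M : ZMod t → Fin 3 → ℕ := fun i => ![n1 - e1 i, (io i - L i).toNat, (U i - io i).toNat]
  obtain ⟨st, q1, q2⟩ := sched_state M ![a, d, c1] ρ (by
      rw [Fin.sum_univ_three, ZMod.card]
      simp only [Matrix.cons_val]
      omega) (fun i => by
      have a1 := i1 i
      have a2 := pe i
      rw [Fin.sum_univ_three]
      simp only [M, Matrix.cons_val, L, U] at a1 ⊢
      omega) (fun σ => by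
      fin_cases σ
      · have : ∑ i, (n1 - e1 i + e1 i) = t * n1 := by
          rw [sum_congr rfl fun i _ => Nat.sub_add_cancel (pe i)]
          simp [ZMod.card]
        rw [sum_add_distrib, s1, hn1, mul_comm] at this
        simpa [M] using this
      · have : ∑ i, (((io i - L i).toNat : ℕ) : ℤ) = ρ * d := by
          rw [sum_congr rfl fun i _ => Int.toNat_of_nonneg (sub_nonneg.2 (i1 i).1),
            sum_sub_distrib, i2']
          omega
        simp only [M]
        exact_mod_cast this
      · have : ∑ i, (((U i - io i).toNat : ℕ) : ℤ) = ρ * c1 := by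
          rw [sum_congr rfl fun i _ => Int.toNat_of_nonneg (sub_nonneg.2 (i1 i).2),
            sum_sub_distrib, i2']
          omega
        simp only [M]
        exact_mod_cast this)
  have hc4 : 4 ≤ c := by
    by_contra hc
    have a1 : c * t ≤ 3 * t := Nat.mul_le_mul_right _ (by omega)
    have a2 : 1 * 1 ≤ b * c := Nat.mul_le_mul (by omega) (by omega)
    omega
  have split : ∀ (p : Fin c1 ⊕ Fin ρ → Prop) [DecidablePred p], (univ.filter p).card =
      (univ.filter fun z => p (.inl z)).card + (univ.filter fun i => p (.inr i)).card := by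
    intro p _
    simp only [card_filter, Fintype.sum_sum_type]
  obtain ⟨om, x, w, h⟩ := sch_of (t := t) (a := a) (c := c) (B := Fin c1 ⊕ Fin ρ)
    (fun i => decide (i ∈ S)) (Sum.elim (fun k i => i ∉ I k) fun r i => st r i ≠ 2)
    (Sum.elim (fun _ _ => False) fun r i => st r i = 0) Sum.inl g n1 n2 Sum.inl_injective hg
    (by rw [Fintype.card_fin]; omega) hc4 (by
      rintro (k | r)
      · have a1 := card_filter_add_card_filter_not (s := univ) fun i => i ∈ I k
        rw [filter_mem_eq_inter, univ_inter, rI, card_univ, ZMod.card] at a1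
        convert (show (univ.filter fun i => i ∉ I k).card = c by omega) using 3
        simp
      · have a1 := card_filter_add_card_filter_not (s := univ) fun i => st r i = 2
        rw [q2, card_univ, ZMod.card] at a1
        simp only [Matrix.cons_val] at a1
        convert (show (univ.filter fun i => ¬ st r i = 2).card = c by omega) using 3
        simp) (by
      rintro (k | r) h
      · exact absurd rfl (h k)
      · convert q2 r 0 using 3 <;> simp) (fun _ _ => id) (fun k => ⟨not_not.2 (hI k).1, (hI k).2⟩) (by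
      rintro (k | r) i h
      · exact h.elim
      · simp only [Sum.elim_inr] at h ⊢
        rw [h]
        decide) (fun i => by
      have a1 := q1 i 0
      have a2 := pe i
      simp only [M, Matrix.cons_val] at a1
      rw [split]
      convert (show (∅ : Finset (Fin c1)).card + (univ.filter fun r => st r i = 0).card + e1 i = n1
        by rw [card_empty]; omega) using 4 <;> simp [e1]) (fun i => by
      have a1 := card_filter_add_card_filter_not (s := univ) fun k => i ∈ I k
      have a2 := card_filter_add_card_filter_not (s := univ) fun r => st r i = 2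
      rw [cI, card_univ, Fintype.card_fin] at a1
      rw [q1, card_univ, Fintype.card_fin] at a2
      have a3 := i1 i
      simp only [M, Matrix.cons_val, U] at a2 a3
      rw [split]
      convert (show (univ.filter fun k => i ∉ I k).card + (univ.filter fun r => ¬ st r i = 2).card +
        e2 i = n2 by omega) using 4 <;> simp [e2]) (by
      have e : c * t = t * c := mul_comm _ _
      rcases Nat.eq_zero_or_pos xb with rfl | h
      · refine .inr ⟨gap _ _ (by rw [mul_add]; omega), fun i => ?_⟩
        simp [card_eq_zero.1 hS]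
      · exact .inl (gap _ _ (by rw [mul_add]; omega))) n1a
  exact ⟨Fin c1 ⊕ Fin ρ, inferInstance, inferInstance, by simp [hρ], _, om, x, w, n1, n2, h⟩

end Pool.Agent.Lib.MP_351560_co
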