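import Mathlib
import Pool.Agent.Lib.MP_351560_co.D3Core
import Pool.Agent.Lib.MP_351560_co.D3Sch2
import Pool.Agent.Lib.MP_351560_co.D3Exc

set_option autoImplicit false
set_option synthInstance.maxSize 4096

namespace Pool.Agent.Lib.MP_351560_co

lemma d3_exc : ∀ t < 76, ∀ b1 < 6, ∀ a1 < 6, ∀ c1 < 6, (13 ≤ t ∧ 1 ≤ c1 ∧ c1 ≤ a1 ∧ a1 ≤ b1 ∧
    (a1 * b1 + b1 * c1 + c1 * a1) % t = 0 ∧ (t - c1) * b1 < 3 * t) →
    (t = 15 ∧ a1 = 3 ∧ b1 = 3 ∧ c1 = 1) ∨ (t = 16 ∧ a1 = 2 ∧ b1 = 3 ∧ c1 = 2) ∨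
    (t = 21 ∧ a1 = 3 ∧ b1 = 3 ∧ c1 = 2) ∨ (t = 27 ∧ a1 = 3 ∧ b1 = 3 ∧ c1 = 3) := by
  decide +kernel

theorem hasSch_all {t a b c : ℕ} [NeZero t] (ht : 13 ≤ t) (hba : b ≤ a) (hac : a ≤ c)
    (hct : c < t) (hbc : t ≤ b + c) (hd : t ∣ a * b + b * c + c * a) : HasSch t a b c := by
  by_cases h3 : 3 * t ≤ c * (t - b)
  · exact hasSch_of' (by omega) hba hac hct hbc h3 hd
  obtain ⟨a1, ha⟩ : ∃ a1, t = a + a1 := ⟨t - a, by omega⟩
  obtain ⟨b1, hb⟩ : ∃ b1, t = b + b1 := ⟨t - b, by omega⟩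
  obtain ⟨c1, hc⟩ : ∃ c1, t = c + c1 := ⟨t - c, by omega⟩
  rw [show t - b = b1 by omega] at h3
  have h6 : b1 < 6 := by
    by_contra h
    have : c * 6 ≤ c * b1 := Nat.mul_le_mul_left _ (by omega)
    omega
  have hq : t ∣ a1 * b1 + b1 * c1 + c1 * a1 := by
    have e : a1 * b1 + b1 * c1 + c1 * a1 + t * (2 * (a + b + c)) =
        a * b + b * c + c * a + t * (3 * t) := by
      have z1 : (a1 : ℤ) = t - a := by omega
      have z2 : (b1 : ℤ) = t - b := by omega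
      have z3 : (c1 : ℤ) = t - c := by omega
      zify
      rw [z1, z2, z3]
      ring
    exact (Nat.dvd_add_left (Dvd.intro _ rfl)).1 (e ▸ dvd_add hd (Dvd.intro _ rfl))
  have h76 : t < 76 := by
    have e1 : a1 * b1 ≤ 5 * 5 := Nat.mul_le_mul (by omega) (by omega)
    have e2 : b1 * c1 ≤ 5 * 5 := Nat.mul_le_mul (by omega) (by omega)
    have e3 : c1 * a1 ≤ 5 * 5 := Nat.mul_le_mul (by omega) (by omega)
    have e4 : 1 * 1 ≤ a1 * b1 := Nat.mul_le_mul (by omega) (by omega)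
    have := Nat.le_of_dvd (by omega) hq
    omega
  rcases d3_exc t h76 b1 h6 a1 (by omega) c1 (by omega) ⟨ht, by omega, by omega, by omega,
    Nat.mod_eq_zero_of_dvd hq, by rw [show t - c1 = c by omega]; omega⟩ with
    ⟨rfl, rfl, rfl, rfl⟩ | ⟨rfl, rfl, rfl, rfl⟩ | ⟨rfl, rfl, rfl, rfl⟩ | ⟨rfl, rfl, rfl, rfl⟩
  · obtain rfl : a = 12 := by omega
    obtain rfl : b = 12 := by omega
    obtain rfl : c = 14 := by omega
    exact hasSch_15
  · obtain rfl : a = 14 := by omega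
    obtain rfl : b = 13 := by omega
    obtain rfl : c = 14 := by omega
    exact hasSch_16
  · obtain rfl : a = 18 := by omega
    obtain rfl : b = 18 := by omega
    obtain rfl : c = 19 := by omega
    exact hasSch_21
  · obtain rfl : a = 24 := by omega
    obtain rfl : b = 24 := by omega
    obtain rfl : c = 24 := by omega
    exact hasSch_27

/-- Three parts of size at least `t ≥ 13`, largest plus smallest residue at least `t`. -/
theorem stL3d_big (t a b c : ℕ) (ht : 13 ≤ t) (ha : t ≤ a) (hb : t ≤ b) (hc : t ≤ c)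
    (hba : b % t ≤ a % t) (hac : a % t ≤ c % t) (hbc : t ≤ b % t + c % t)
    (hd : t ∣ a * b + b * c + c * a) : Good t ![a, b, c] := by
  have : NeZero t := ⟨by omega⟩
  have e : ∀ n, t ≤ n → n % t + t + (n / t - 1) * t = n := fun n hn => by
    have h1 := Nat.mod_add_div n t
    obtain ⟨k, hk⟩ := Nat.exists_eq_add_of_le' (Nat.div_pos hn (show 0 < t by omega))
    rw [hk] at h1 ⊢
    rw [Nat.add_sub_cancel, ← h1, Nat.add_mul_mod_self_left, Nat.mod_mod]
    ring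
  have hd' : t ∣ a % t * (b % t) + b % t * (c % t) + c % t * (a % t) := by
    rw [Nat.dvd_iff_mod_eq_zero] at hd ⊢
    rw [← hd]
    exact (((Nat.mod_modEq a t).mul (Nat.mod_modEq b t)).add
      ((Nat.mod_modEq b t).mul (Nat.mod_modEq c t))).add
      ((Nat.mod_modEq c t).mul (Nat.mod_modEq a t))
  have := good_of_sch (by omega) (hasSch_all ht hba hac (Nat.mod_lt _ (by omega)) hbc hd')
    (a / t - 1) (b / t - 1) (c / t - 1)
  rwa [e a ha, e b hb, e c hc] at this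

end Pool.Agent.Lib.MP_351560_co
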