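import Mathlib
import Pool.Agent.Lib.MP_351560_co.DenseNum

set_option autoImplicit false
set_option linter.unusedSimpArgs false
set_option linter.unusedVariables false
set_option linter.unusedSectionVars false

namespace Pool.Agent.Lib.MP_351560_co

open Finset

def NumK (t a b c k : ℕ) : Prop :=
  Num t a b c (b * c % t + k * t) ((a * (b + c - t) + (b * c % t + k * t)) / t)
    ((b * c - (b * c % t + k * t)) / t) (((b + c - t) * (a + c - t) + t - 1) / t)
    ((b * c % t + k * t + (t - c) - 1) / (t - c))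

instance (t a b c k : ℕ) : Decidable (NumK t a b c k) := by
  unfold NumK
  infer_instance

def NumC (t a b c : ℕ) : Prop :=
  t ≤ b + c → (a * b + b * c + c * a) % t = 0 → NumK t a b c 0 ∨ NumK t a b c 1 ∨ (t, a, b, c) ∈
    [(3, 2, 2, 2), (5, 4, 4, 3), (6, 4, 4, 4), (7, 5, 4, 4), (7, 6, 5, 3), (8, 6, 6, 3),
      (8, 6, 6, 5), (8, 7, 6, 6), (11, 9, 7, 5), (12, 8, 8, 5), (12, 10, 10, 10)]

instance (t a b c : ℕ) : Decidable (NumC t a b c) := by
  unfold NumC
  infer_instance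

lemma num_small : ∀ t < 22, ∀ a < t, ∀ b < a + 1, ∀ c < b + 1, NumC t a b c := by
  decide +kernel

lemma num_of {t a p q r ρ k0 s0 g k M2 M3 : ℕ} (ht : t = q + r + ρ) (ha : a + p = t) (hp : 1 ≤ p)
    (hpq : p ≤ q) (hqr : q ≤ r) (e1 : t * k0 + s0 = q * r) (e2 : t * g + s0 = p * ρ)
    (hk : k ≤ k0) (h2 : s0 + k * t ≤ r * M2) (h2' : M2 + k + 2 + p ≤ q + r + g)
    (h3 : s0 + k * t ≤ r * M3) (h3' : 2 * M3 ≤ q + ρ) (h4 : ρ = 0 ∨ t ≤ ρ * p + (s0 + k * t) + 1) :
    ∃ S α μ κ m, Num t a (r + ρ) (q + ρ) S α μ κ m := by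
  classical
  have hex : ∃ M, s0 + k * t ≤ r * M := ⟨_, h2⟩
  have hg : g ≤ ρ := Nat.le_of_mul_le_mul_left (show t * g ≤ t * ρ by nlinarith) (by omega)
  have hk0 : k0 < q := Nat.lt_of_mul_lt_mul_left (show t * k0 < t * q by nlinarith)
  obtain ⟨d, rfl⟩ : ∃ d, k0 = k + d := ⟨k0 - k, by omega⟩
  obtain ⟨g', rfl⟩ : ∃ g', ρ = g + g' := ⟨ρ - g, by omega⟩
  obtain ⟨q', hq'⟩ : ∃ q', q = d + q' := ⟨q - d, by omega⟩
  obtain ⟨c', hc'⟩ : ∃ c', q + (g + g') = p + c' := ⟨q + (g + g') - p, by omega⟩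
  have m1 : Nat.find hex ≤ q' := Nat.find_min' hex (by subst hq'; nlinarith)
  have m2 : Nat.find hex ≤ M2 := Nat.find_min' hex h2
  have m3 : Nat.find hex ≤ M3 := Nat.find_min' hex h3
  have f1 : r + (g + g') + (q + (g + g')) - t = g + g' := by omega
  have f2 : t - (q + (g + g')) = r := by omega
  have f3 : a + (q + (g + g')) - t = c' := by omega
  have d1 := Nat.div_add_mod ((g + g') * c' + t - 1) t
  have d2 := Nat.mod_lt ((g + g') * c' + t - 1) (show 0 < t by omega)
  refine ⟨s0 + k * t, g' + k, g + g' + d, ((g + g') * c' + t - 1) / t, Nat.find hex, ?_⟩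
  simp only [Num, f1, f2, f3]
  refine ⟨?_, ?_, Nat.find_spec hex, by omega, by omega, by omega, by omega, by omega, ?_⟩
  · have : t * (g + g') = a * (g + g') + p * (g + g') := by rw [← ha]; ring
    nlinarith
  · have : (r + (g + g')) * (q + (g + g')) = q * r + (g + g') * t := by rw [ht]; ring
    nlinarith
  · rcases h4 with h4 | h4
    · rw [h4, zero_mul, zero_add, Nat.div_eq_of_lt (by omega)]
      omega
    · rw [hc', mul_add]
      omega

lemma num_big {t a b c : ℕ} (ht : 22 ≤ t) (h1 : c ≤ b) (h2 : b ≤ a) (h3 : a < t) (h4 : t ≤ b + c)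
    (hq : t ∣ a * b + b * c + c * a) : ∃ S α μ κ m, Num t a b c S α μ κ m := by
  obtain ⟨p, ha⟩ : ∃ p, a + p = t := ⟨t - a, by omega⟩
  obtain ⟨ρ, hρ⟩ : ∃ ρ, b + c = t + ρ := ⟨b + c - t, by omega⟩
  obtain ⟨r, rfl⟩ : ∃ r, b = r + ρ := ⟨b - ρ, by omega⟩
  obtain ⟨q, rfl⟩ : ∃ q, c = q + ρ := ⟨c - ρ, by omega⟩
  have ht' : t = q + r + ρ := by omega
  have hp : 1 ≤ p := by omega
  have hpq : p ≤ q := by omega
  have hqr : q ≤ r := by omega
  have e1 := Nat.div_add_mod (q * r) t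
  have e2 := Nat.div_add_mod (p * ρ) t
  have e3 : p * ρ % t = q * r % t := by
    obtain ⟨j, hj⟩ := hq
    have : q * r + t * (a + ρ + ρ) = p * ρ + t * j := by
      rw [← hj]
      have : t * ρ = a * ρ + p * ρ := by rw [← ha]; ring
      have : t * a = a * (q + r + ρ) := by rw [← ht']; ring
      have : t * ρ = (q + r + ρ) * ρ := by rw [← ht']
      nlinarith
    rw [← Nat.add_mul_mod_self_left (p * ρ) t j, ← this, Nat.add_mul_mod_self_left]
  rw [e3] at e2
  have e4 := Nat.mod_lt (q * r) (show 0 < t by omega)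
  generalize q * r / t = k0 at *
  generalize p * ρ / t = g at *
  generalize q * r % t = s0 at *
  have b1 : s0 ≤ q * r := by omega
  have b2 : s0 ≤ p * ρ := by omega
  by_cases h5 : ρ = 0 ∨ t ≤ ρ * p + s0 + 1
  · have h3 : ∃ M3, s0 ≤ r * M3 ∧ 2 * M3 ≤ q + ρ := by
      rcases le_total q ρ with h | h
      · exact ⟨q, by nlinarith, by omega⟩
      · exact ⟨ρ, by nlinarith, by omega⟩
    obtain ⟨M3, h3, h3'⟩ := h3
    have h2 : ∃ M2, s0 ≤ r * M2 ∧ M2 + 2 + p ≤ q + r + g := by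
      by_cases h : p + 2 ≤ r + g
      · exact ⟨q, by nlinarith, by omega⟩
      have hg : g = 0 ∨ g = 1 := by omega
      have b3 : q * r ≤ (p + 1) * (p + 1) := Nat.mul_le_mul (by omega) (by omega)
      have b4 : t ≤ 3 * p + 6 := by
        by_contra hh
        rcases hg with rfl | rfl
        · have : p * (p + 5) ≤ p * ρ := Nat.mul_le_mul_left _ (by omega)
          nlinarith
        · obtain rfl : r = p := by omega
          obtain rfl : q = r := by omega
          obtain ⟨u, rfl⟩ : ∃ u, ρ = q + 7 + u := ⟨ρ - (q + 7), by omega⟩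
          obtain ⟨v, rfl⟩ : ∃ v, q = v + 1 := ⟨q - 1, by omega⟩
          rcases Nat.eq_zero_or_pos v with rfl | hv
          · omega
          · nlinarith
      obtain ⟨v, rfl⟩ : ∃ v, p = v + 6 := ⟨p - 6, by omega⟩
      refine ⟨v + 4, ?_, by omega⟩
      have : (v + 6) * (v + 4) ≤ r * (v + 4) := Nat.mul_le_mul_right _ (by omega)
      nlinarith
    obtain ⟨M2, h2, h2'⟩ := h2
    exact num_of (k := 0) (M2 := M2) (M3 := M3) ht' ha hp hpq hqr e1 e2 (Nat.zero_le _)
      (by omega) (by omega) (by omega) h3' (by omega)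
  · push Not at h5
    obtain ⟨h5, h6⟩ := h5
    rw [mul_comm] at h6
    obtain rfl : g = 0 := by
      by_contra hg
      have : t * 1 ≤ t * g := Nat.mul_le_mul_left _ (by omega)
      omega
    have b3 : p + ρ ≤ p * ρ + 1 := by
      obtain ⟨u, rfl⟩ : ∃ u, ρ = u + 1 := ⟨ρ - 1, by omega⟩
      obtain ⟨v, rfl⟩ : ∃ v, p = v + 1 := ⟨p - 1, by omega⟩
      nlinarith
    have b4 : q + r ≤ q * r + 1 := by
      obtain ⟨u, rfl⟩ : ∃ u, r = u + 1 := ⟨r - 1, by omega⟩
      obtain ⟨v, rfl⟩ : ∃ v, q = v + 1 := ⟨q - 1, by omega⟩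
      nlinarith
    have hk : 1 ≤ k0 := by
      by_contra hk
      obtain rfl : k0 = 0 := by omega
      omega
    have b5 : s0 + t ≤ q * r := by
      have : t * 1 ≤ t * k0 := Nat.mul_le_mul_left _ hk
      omega
    have h3 : ∃ M3, s0 + t ≤ r * M3 ∧ 2 * M3 ≤ q + ρ := by
      rcases le_total q ρ with h | h
      · exact ⟨q, by nlinarith, by omega⟩
      refine ⟨(q + ρ) / 2, ?_, by omega⟩
      by_cases hc : 10 ≤ q + ρ
      · have : r * 5 ≤ r * ((q + ρ) / 2) := Nat.mul_le_mul_left _ (by omega)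
        omega
      · have b6 : p * ρ ≤ q * ρ := Nat.mul_le_mul_right _ hpq
        have b7 : s0 ≤ q * ρ := by omega
        have b8 : p * ρ = s0 := by omega
        have hq9 : q ≤ 9 := by omega
        have hρ9 : ρ ≤ 9 := by omega
        have b9 : t * k0 = t ∨ t * 2 ≤ t * k0 := by
          rcases hk.eq_or_lt with rfl | hk
          · exact .inl (mul_one _)
          · exact .inr (Nat.mul_le_mul_left _ hk)
        clear b3 b6 b2 e2 e3 h6 hq
        interval_cases q <;> interval_cases ρ <;> omega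
    obtain ⟨M3, h3, h3'⟩ := h3
    refine num_of (k := 1) (M2 := 6) (M3 := M3) ht' ha hp hpq hqr e1 e2 hk
      (by omega) (by omega) (by omega) h3' (by omega)

/-- All parts smaller than `t`, all sums of two parts at least `t`. -/
theorem good_dense {t a b c : ℕ} (h1 : c ≤ b) (h2 : b ≤ a) (h3 : a < t) (h4 : t ≤ b + c)
    (hq : t ∣ a * b + b * c + c * a) : Good t ![a, b, c] := by
  by_cases ht : 22 ≤ t
  · obtain ⟨S, α, μ, κ, m, h⟩ := num_big ht h1 h2 h3 h4 hq
    exact dense_num (by omega) h3 h4 (by omega) h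
  rcases num_small t (by omega) a h3 b (by omega) c (by omega) h4 (Nat.mod_eq_zero_of_dvd hq)
    with h | h | h
  · exact dense_num (by omega) h3 h4 (by omega) h
  · exact dense_num (by omega) h3 h4 (by omega) h
  simp only [List.mem_cons, Prod.mk.injEq, List.not_mem_nil, or_false] at h
  rcases h with h | h | h | h | h | h | h | h | h | h | h <;> obtain ⟨rfl, rfl, rfl, rfl⟩ := h
  exacts [good_3_2_2_2, good_5_4_4_3, good_6_4_4_4, good_7_5_4_4, good_7_6_5_3, good_8_6_6_3,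
    good_8_6_6_5, good_8_7_6_6, good_11_9_7_5, good_12_8_8_5, good_12_10_10_10]

end Pool.Agent.Lib.MP_351560_co
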