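import Mathlib
import Pool.Agent.Lib.MP_351560_co.Piece

set_option autoImplicit false
set_option linter.unusedSimpArgs false
set_option linter.unusedVariables false
set_option linter.unusedSectionVars false
set_option linter.unnecessarySimpa false

namespace Pool.Agent.Lib.MP_351560_co

open Finset

section
variable {E X S T : Type} [Fintype E] [DecidableEq E] [Fintype X] [DecidableEq X]
  [DecidableEq S] [Fintype T] [DecidableEq T]

abbrev Item (cl : E → X) (ok : X → X → S → Prop) :=
  {a : E × E × S // ok (cl a.1) (cl a.2.1) a.2.2}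

lemma outline_step (cl : E → X) (ok : X → X → S → Prop) [Fintype (Item cl ok)] (hok : ∀ x s, ¬ ok x x s)
    (τ : Item cl ok → T) (x0 : X)
    (hload : ∀ i, (univ.filter fun a : Item cl ok =>
      (cl a.1.1 = x0 ∨ cl a.1.2.1 = x0) ∧ τ a = i).card ≤ (univ.filter fun e => cl e = x0).card) :
    ∃ π : Item cl ok ≃ Item cl ok, (∀ a, cl (π a).1.1 = cl a.1.1 ∧ cl (π a).1.2.1 = cl a.1.2.1) ∧
      (∀ a e, cl e ≠ x0 → (((π a).1.1 = e ∨ (π a).1.2.1 = e) ↔ (a.1.1 = e ∨ a.1.2.1 = e))) ∧
      ∀ a b, τ a = τ b → ∀ e, cl e = x0 → ((π a).1.1 = e ∨ (π a).1.2.1 = e) →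
        ((π b).1.1 = e ∨ (π b).1.2.1 = e) → a = b := by
  let J := {a : Item cl ok // cl a.1.1 = x0 ∨ cl a.1.2.1 = x0}
  let g := (univ.filter fun e => cl e = x0).card
  let nd : Item cl ok → Bool × E × S := fun a =>
    if cl a.1.1 = x0 then (true, a.1.2.1, a.1.2.2) else (false, a.1.1, a.1.2.2)
  have hne : ∀ a : Item cl ok, cl a.1.1 = x0 → cl a.1.2.1 ≠ x0 := fun a h h' =>
    hok x0 a.1.2.2 (by have := a.2; rwa [h, h'] at this)
  obtain ⟨c, hc⟩ := konig_le (fun a : J => nd a.1) (fun a : J => τ a.1) g (by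
    intro z
    refine card_le_card_of_injOn (fun a => if cl a.1.1.1 = x0 then a.1.1.1 else a.1.1.2.1) ?_ ?_
    · intro a _
      have := a.2
      by_cases h : cl a.1.1.1 = x0
      · simp [h]
      · simp only [h, false_or] at this
        simp [h, this]
    · intro a ha b hb hab
      simp only [coe_filter, mem_univ, true_and, Set.mem_ofPred_eq] at ha hb
      rw [← hb] at ha
      simp only [nd] at ha hab
      apply Subtype.ext
      apply Subtype.ext
      by_cases h : cl a.1.1.1 = x0 <;> by_cases h' : cl b.1.1.1 = x0 <;>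
        simp only [h, h', if_true, if_false, Prod.mk.injEq, true_and, reduceCtorEq,
          false_and] at ha hab
      · exact Prod.ext hab (Prod.ext ha.1 ha.2)
      · exact Prod.ext ha.1 (Prod.ext hab ha.2)) (by
    intro i
    refine le_trans ?_ (hload i)
    refine card_le_card_of_injOn (fun a => a.1) ?_ (fun a _ b _ h => Subtype.ext h)
    intro a ha
    simp only [coe_filter, mem_univ, true_and, Set.mem_ofPred_eq] at ha ⊢
    exact ⟨a.2, ha⟩)
  let eq : Fin g ≃ (univ.filter fun e => cl e = x0) := (Finset.equivFin _).symm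
  let col : J → E := fun a => (eq (c a)).1
  have hcol : ∀ a, cl (col a) = x0 := fun a => (mem_filter.1 (eq (c a)).2).2
  have hinj : ∀ a b : J, (nd a.1 = nd b.1 ∨ τ a.1 = τ b.1) → col a = col b → a = b :=
    fun a b h h' => hc a b h (eq.injective (Subtype.ext h'))
  let π0 : Item cl ok → Item cl ok := fun a =>
    if h : cl a.1.1 = x0 then ⟨(col ⟨a, .inl h⟩, a.1.2.1, a.1.2.2), by
      have := a.2; rw [h] at this; simpa only [hcol] using this⟩
    else if h' : cl a.1.2.1 = x0 then ⟨(a.1.1, col ⟨a, .inr h'⟩, a.1.2.2), by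
      have := a.2; rw [h'] at this; simpa only [hcol] using this⟩
    else a
  have h1 : ∀ a (h : cl a.1.1 = x0), (π0 a).1 = (col ⟨a, .inl h⟩, a.1.2.1, a.1.2.2) :=
    fun a h => by simp only [π0, dif_pos h]
  have h2 : ∀ a (h : cl a.1.1 ≠ x0) (h' : cl a.1.2.1 = x0),
      (π0 a).1 = (a.1.1, col ⟨a, .inr h'⟩, a.1.2.2) :=
    fun a h h' => by simp only [π0, dif_neg h, dif_pos h']
  have h3 : ∀ a (h : cl a.1.1 ≠ x0) (h' : cl a.1.2.1 ≠ x0), π0 a = a :=
    fun a h h' => by simp only [π0, dif_neg h, dif_neg h']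
  have hcl : ∀ a, cl (π0 a).1.1 = cl a.1.1 ∧ cl (π0 a).1.2.1 = cl a.1.2.1 := by
    intro a
    by_cases h : cl a.1.1 = x0
    · rw [h1 a h]
      exact ⟨(hcol _).trans h.symm, rfl⟩
    · by_cases h' : cl a.1.2.1 = x0
      · rw [h2 a h h']
        exact ⟨rfl, (hcol _).trans h'.symm⟩
      · rw [h3 a h h']
        exact ⟨rfl, rfl⟩
  have hπ : Function.Injective π0 := by
    intro a b hab
    have e1 : cl a.1.1 = cl b.1.1 := by rw [← (hcl a).1, hab, (hcl b).1]
    have e2 : cl a.1.2.1 = cl b.1.2.1 := by rw [← (hcl a).2, hab, (hcl b).2]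
    have hab' := congrArg Subtype.val hab
    by_cases h : cl a.1.1 = x0
    · have hb := e1 ▸ h
      rw [h1 a h, h1 b hb] at hab'
      simp only [Prod.mk.injEq] at hab'
      have := hinj ⟨a, .inl h⟩ ⟨b, .inl hb⟩ (.inl (by
        simp only [nd, h, hb, if_true, hab'.2.1, hab'.2.2])) hab'.1
      exact congrArg Subtype.val this
    · have hb : cl b.1.1 ≠ x0 := e1 ▸ h
      by_cases h' : cl a.1.2.1 = x0
      · have hb' := e2 ▸ h'
        rw [h2 a h h', h2 b hb hb'] at hab'
        simp only [Prod.mk.injEq] at hab'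
        have := hinj ⟨a, .inr h'⟩ ⟨b, .inr hb'⟩ (.inl (by
          simp only [nd, h, hb, if_false, hab'.1, hab'.2.2])) hab'.2.1
        exact congrArg Subtype.val this
      · have hb' : cl b.1.2.1 ≠ x0 := e2 ▸ h'
        rwa [h3 a h h', h3 b hb hb'] at hab
  refine ⟨Equiv.ofBijective π0 (Finite.injective_iff_bijective.1 hπ), hcl, ?_, ?_⟩
  · intro a e he
    simp only [Equiv.ofBijective_apply]
    by_cases h : cl a.1.1 = x0
    · rw [h1 a h]
      have a1 : col ⟨a, .inl h⟩ ≠ e := fun hh => he (hh ▸ hcol _)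
      have a2 : a.1.1 ≠ e := fun hh => he (hh ▸ h)
      simp [a1, a2]
    · by_cases h' : cl a.1.2.1 = x0
      · rw [h2 a h h']
        have a1 : col ⟨a, .inr h'⟩ ≠ e := fun hh => he (hh ▸ hcol _)
        have a2 : a.1.2.1 ≠ e := fun hh => he (hh ▸ h')
        simp [a1, a2]
      · rw [h3 a h h']
  · have key : ∀ a e, cl e = x0 → ((π0 a).1.1 = e ∨ (π0 a).1.2.1 = e) →
        ∃ h : cl a.1.1 = x0 ∨ cl a.1.2.1 = x0, col ⟨a, h⟩ = e := by
      intro a e he hh
      by_cases h : cl a.1.1 = x0
      · rw [h1 a h] at hh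
        rcases hh with hh | hh
        · exact ⟨_, hh⟩
        · exact absurd (by simpa only [← he, ← hh] using rfl) (hne a h)
      · by_cases h' : cl a.1.2.1 = x0
        · rw [h2 a h h'] at hh
          rcases hh with hh | hh
          · exact absurd (by simpa only [← he, ← hh] using rfl) h
          · exact ⟨_, hh⟩
        · rw [h3 a h h'] at hh
          rcases hh with hh | hh
          · exact absurd (hh ▸ he) h
          · exact absurd (hh ▸ he) h'
    intro a b hab e he ha hb
    obtain ⟨h, ha⟩ := key a e he ha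
    obtain ⟨h', hb⟩ := key b e he hb
    exact congrArg Subtype.val (hinj ⟨a, h⟩ ⟨b, h'⟩ (.inr hab) (ha.trans hb.symm))

lemma outline (cl : E → X) (ok : X → X → S → Prop) [Fintype (Item cl ok)] (hok : ∀ x s, ¬ ok x x s)
    (N : X → X → T → ℕ)
    (hsum : ∀ x y, (univ.filter fun a : Item cl ok => cl a.1.1 = x ∧ cl a.1.2.1 = y).card =
      ∑ i, N x y i)
    (hcap : ∀ x i, ∑ y, (N x y i + N y x i) ≤ (univ.filter fun e => cl e = x).card) :
    ∃ τ : Item cl ok → T, (∀ x y i, (univ.filter fun a : Item cl ok =>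
        cl a.1.1 = x ∧ cl a.1.2.1 = y ∧ τ a = i).card = N x y i) ∧
      ∀ a b, τ a = τ b → ∀ e, (a.1.1 = e ∨ a.1.2.1 = e) → (b.1.1 = e ∨ b.1.2.1 = e) → a = b := by
  have main : ∀ Z : Finset X, ∃ τ : Item cl ok → T, (∀ x y i, (univ.filter fun a : Item cl ok =>
        cl a.1.1 = x ∧ cl a.1.2.1 = y ∧ τ a = i).card = N x y i) ∧
      ∀ a b, τ a = τ b → ∀ e, cl e ∈ Z → (a.1.1 = e ∨ a.1.2.1 = e) →
        (b.1.1 = e ∨ b.1.2.1 = e) → a = b := by
    intro Z
    induction Z using Finset.induction_on with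
    | empty =>
      obtain ⟨e, he⟩ := fib_equiv (fun a : Item cl ok => (cl a.1.1, cl a.1.2.1))
        (fun b : Σ z : X × X × T, Fin (N z.1 z.2.1 z.2.2) => (b.1.1, b.1.2.1)) (by
          rintro ⟨x, y⟩
          simp only [Prod.mk.injEq]
          rw [hsum, card_eq_sum_card_fiberwise (f := fun b => b.1.2.2) (t := univ)
            (fun _ _ => by simp)]
          refine sum_congr rfl fun i _ => ?_
          rw [← card_sigma_fib (fun z : X × X × T => N z.1 z.2.1 z.2.2) (x, y, i), filter_filter]
          congr 1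
          ext ⟨⟨x', y', i'⟩, j⟩
          simp [and_assoc])
      refine ⟨fun a => (e a).1.2.2, fun x y i => ?_, by simp⟩
      rw [← card_sigma_fib (fun z : X × X × T => N z.1 z.2.1 z.2.2) (x, y, i)]
      refine card_bijective e e.bijective fun a => ?_
      have := he a
      simp only [Prod.mk.injEq] at this
      simp only [mem_filter, mem_univ, true_and, ← this.1, ← this.2, Prod.ext_iff]
    | insert x0 Z hx ih =>
      obtain ⟨τ, h1, h2⟩ := ih
      obtain ⟨π, p1, p2, p3⟩ := outline_step cl ok hok τ x0 (by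
        intro i
        refine le_trans ?_ (hcap x0 i)
        rw [sum_add_distrib]
        simp only [← h1]
        refine le_trans (card_le_card (t := (univ.biUnion fun y => univ.filter
          fun a : Item cl ok => cl a.1.1 = x0 ∧ cl a.1.2.1 = y ∧ τ a = i) ∪
          (univ.biUnion fun y => univ.filter
          fun a : Item cl ok => cl a.1.1 = y ∧ cl a.1.2.1 = x0 ∧ τ a = i)) ?_)
          ((card_union_le _ _).trans (Nat.add_le_add card_biUnion_le card_biUnion_le))
        intro a ha
        simp only [mem_filter, mem_univ, true_and, mem_union, mem_biUnion] at ha ⊢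
        rcases ha with ⟨h | h, h'⟩
        · exact .inl ⟨_, h, rfl, h'⟩
        · exact .inr ⟨_, rfl, h, h'⟩)
      refine ⟨fun a => τ (π.symm a), fun x y i => ?_, ?_⟩
      · rw [← h1 x y i]
        refine card_bijective π.symm π.symm.bijective fun a => ?_
        have := p1 (π.symm a)
        simp only [Equiv.apply_symm_apply] at this
        simp only [mem_filter, mem_univ, true_and, this.1, this.2]
      · intro a b hab e he ha hb
        apply π.symm.injective
        by_cases h : cl e = x0
        · exact p3 _ _ hab e h (by simpa using ha) (by simpa using hb)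
        · have he' : cl e ∈ Z := by simpa [h] using he
          exact h2 _ _ hab e he' ((p2 _ e h).1 (by simpa using ha))
            ((p2 _ e h).1 (by simpa using hb))
  obtain ⟨τ, h1, h2⟩ := main univ
  exact ⟨τ, h1, fun a b h e => h2 a b h e (mem_univ _)⟩

end

end Pool.Agent.Lib.MP_351560_co
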