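import Mathlib
import Pool.Agent.Lib.MP_351560_co.Outline

set_option autoImplicit false
set_option linter.unusedSimpArgs false
set_option linter.unusedVariables false

namespace Pool.Agent.Lib.MP_351560_co

open Finset

/-- Oriented type of a piece. -/
def pty {X Λ : Type} (wt : X → ℕ) (spl : X → X → Prop) [DecidableRel spl] (lab : X → Λ)
    (x y : X) : (ℕ × Λ) × (ℕ × Λ) :=
  ((if spl x y then 1 else wt x, lab x), (if spl x y then 1 else wt y, lab y))

lemma card_lt_fin (W a : ℕ) (h : a ≤ W) : (univ.filter fun i : Fin W => i.val < a).card = a := by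
  rw [Fin.card_filter_val_lt]
  omega

theorem frame {X Λ : Type} [Fintype X] [DecidableEq X] [DecidableEq Λ] (t : ℕ) [NeZero t]
    (p : X → Fin 3) (cnt wt : X → ℕ) (spl : X → X → Prop) [DecidableRel spl]
    (lab : Fin t → X → Λ) (N : X → X → Fin t → ℕ)
    (hsum : ∀ x y, ∑ i, N x y i =
      if p x < p y then cnt x * cnt y * (if spl x y then wt x * wt y else 1) else 0)
    (hcap : ∀ x i, ∑ y, (N x y i + N y x i) ≤ cnt x)
    (hcen : ∀ θ i j, ∑ x, ∑ y, (if pty wt spl (lab i) x y = θ then N x y i else 0) =
      ∑ x, ∑ y, (if pty wt spl (lab j) x y = θ then N x y j else 0))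
    (hlab : ∀ l i j, ∑ x, (if lab i x = l then cnt x * wt x else 0) =
      ∑ x, (if lab j x = l then cnt x * wt x else 0))
    (σ : Λ → Fin 3 → Fin t → Prop) (mult : Fin 3 → ℕ)
    (h0 : ∀ P, mult P ≠ 0 → ∀ i x d, cnt x ≠ 0 → p x = P → ¬ σ (lab i x) P d)
    (h1 : ∀ P, mult P ≠ 0 → ∀ x j, cnt x ≠ 0 → p x ≠ P → ∃! i, σ (lab i x) P (j - i)) :
    Good t fun P => ∑ x, (if p x = P then cnt x * wt x else 0) + mult P * t := by
  classical
  let E := Σ x, Fin (cnt x)
  let V := Σ e : E, Fin (wt e.1)
  let W := univ.sup wt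
  have hW : ∀ x, wt x ≤ W := fun x => le_sup (mem_univ x)
  let ok : X → X → Option (Fin W × Fin W) → Prop := fun x y s => p x < p y ∧
    match s with
    | none => ¬ spl x y
    | some z => spl x y ∧ z.1.val < wt x ∧ z.2.val < wt y
  have hok : ∀ x y, (univ.filter fun s => ok x y s).card =
      if p x < p y then (if spl x y then wt x * wt y else 1) else 0 := by
    intro x y
    by_cases h : p x < p y
    · by_cases h' : spl x y
      · have : (univ.filter fun s => ok x y s) =
            ((univ.filter fun i : Fin W => i.val < wt x) ×ˢ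
              (univ.filter fun i : Fin W => i.val < wt y)).map Function.Embedding.some := by
          ext (_ | ⟨a, b⟩) <;> simp [ok, h, h']
        rw [this, card_map, card_product, card_lt_fin _ _ (hW x), card_lt_fin _ _ (hW y)]
        simp [h, h']
      · have : (univ.filter fun s => ok x y s) = {none} := by
          ext (_ | ⟨a, b⟩) <;> simp [ok, h, h']
        rw [this]
        simp [h, h']
    · simp [ok, h]
  have hE : ∀ x, (univ.filter fun e : E => e.1 = x).card = cnt x := card_sigma_fib cnt
  have hV : ∀ e, (univ.filter fun v : V => v.1 = e).card = wt e.1 :=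
    card_sigma_fib fun e : E => wt e.1
  obtain ⟨τ, hτ1, hτ2⟩ := outline (E := E) Sigma.fst ok (fun x s h => lt_irrefl _ h.1) N (by
    intro x y
    rw [hsum, ← card_map (Function.Embedding.subtype _)]
    have : ((univ.filter fun a : Item (E := E) Sigma.fst ok => a.1.1.1 = x ∧ a.1.2.1.1 = y).map
        (Function.Embedding.subtype _)) = (univ.filter fun e : E => e.1 = x) ×ˢ
          (univ.filter fun e : E => e.1 = y) ×ˢ (univ.filter fun s => ok x y s) := by
      ext ⟨e, e', s⟩
      simp only [mem_map, mem_filter, mem_univ, true_and, Function.Embedding.coe_subtype,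
        Subtype.exists, exists_and_right, exists_eq_right, mem_product, exists_prop]
      constructor
      · rintro ⟨⟨h, rfl⟩, rfl⟩
        exact ⟨rfl, rfl, h⟩
      · rintro ⟨rfl, rfl, h⟩
        exact ⟨⟨h, rfl⟩, rfl⟩
    refine (congrArg card this).trans ?_
    rw [card_product, card_product, hE, hE, hok]
    split_ifs <;> ring) (fun x i => by rw [hE]; exact hcap x i)
  let L : Item (E := E) Sigma.fst ok → Finset V := fun a =>
    univ.filter fun u => u.1 = a.1.1 ∧ ∀ z, a.1.2.2 = some z → u.2.val = z.1.val
  let R : Item (E := E) Sigma.fst ok → Finset V := fun a =>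
    univ.filter fun u => u.1 = a.1.2.1 ∧ ∀ z, a.1.2.2 = some z → u.2.val = z.2.val
  have hone : ∀ (e : E) (k : ℕ), k < wt e.1 →
      (univ.filter fun u : V => u.1 = e ∧ u.2.val = k).card = 1 := by
    intro e k hk
    refine card_eq_one.2 ⟨⟨e, ⟨k, hk⟩⟩, ?_⟩
    ext ⟨e', k'⟩
    simp only [mem_filter, mem_univ, true_and, mem_singleton]
    constructor
    · rintro ⟨rfl, rfl⟩
      rfl
    · intro h
      cases h
      exact ⟨rfl, rfl⟩
  have hLF : LF (fun v : V => p v.1.1) t (fun i v => lab i v.1.1) := by
    refine LF.of_pieces _ t _ τ L R (fun a => pty wt spl (lab (τ a)) a.1.1.1 a.1.2.1.1)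
      ?_ ?_ ?_ ?_ ?_ ?_ ?_ ?_ ?_ ?_
    · rintro ⟨⟨e, e', _ | z⟩, h⟩
      · simp only [L, pty, reduceCtorEq, false_imp_iff, implies_true, and_true, if_neg h.2, hV]
      · simp only [L, pty, Option.some.injEq, forall_eq', if_pos h.2.1]
        exact hone e _ h.2.2.1
    · rintro ⟨⟨e, e', _ | z⟩, h⟩
      · simp only [R, pty, reduceCtorEq, false_imp_iff, implies_true, and_true, if_neg h.2, hV]
      · simp only [R, pty, Option.some.injEq, forall_eq', if_pos h.2.1]
        exact hone e' _ h.2.2.2
    · intro a u hu
      simp only [pty, ← (mem_filter.1 hu).2.1]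
    · intro a u hu
      simp only [pty, ← (mem_filter.1 hu).2.1]
    · intro a u hu v hv
      simp only [(mem_filter.1 hu).2.1, (mem_filter.1 hv).2.1]
      exact a.2.1.ne
    · intro a u hu hv
      have := a.2.1
      rw [← (mem_filter.1 hu).2.1, ← (mem_filter.1 hv).2.1] at this
      exact lt_irrefl _ this
    · intro a b hab u ha hb
      refine hτ2 a b hab u.1 ?_ ?_
      · exact ha.imp (fun h => (mem_filter.1 h).2.1.symm) (fun h => (mem_filter.1 h).2.1.symm)
      · exact hb.imp (fun h => (mem_filter.1 h).2.1.symm) (fun h => (mem_filter.1 h).2.1.symm)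
    · have key : ∀ u v : V, p u.1.1 < p v.1.1 → (∃! a, u ∈ L a ∧ v ∈ R a) ∧
          ∀ a, ¬ (v ∈ L a ∧ u ∈ R a) := by
        intro u v h
        constructor
        · by_cases hs : spl u.1.1 v.1.1
          · refine ⟨⟨(u.1, v.1, some (⟨u.2.val, u.2.2.trans_le (hW _)⟩,
              ⟨v.2.val, v.2.2.trans_le (hW _)⟩)), h, hs, u.2.2, v.2.2⟩, by simp [L, R], ?_⟩
            rintro ⟨⟨e, e', _ | z⟩, hz⟩ ⟨h1, h2⟩
            · simp only [L, R, mem_filter, mem_univ, true_and] at h1 h2
              obtain ⟨rfl, -⟩ := h1
              obtain ⟨rfl, -⟩ := h2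
              exact absurd hs hz.2
            · simp only [L, R, mem_filter, mem_univ, true_and, Option.some.injEq,
                forall_eq'] at h1 h2
              obtain ⟨rfl, h1⟩ := h1
              obtain ⟨rfl, h2⟩ := h2
              obtain ⟨z1, z2⟩ := z
              apply Subtype.ext
              simp only [Prod.mk.injEq, true_and, Option.some.injEq]
              exact ⟨Fin.ext h1.symm, Fin.ext h2.symm⟩
          · refine ⟨⟨(u.1, v.1, none), h, hs⟩, by simp [L, R], ?_⟩
            rintro ⟨⟨e, e', _ | z⟩, hz⟩ ⟨h1, h2⟩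
            · simp only [L, R, mem_filter, mem_univ, true_and] at h1 h2
              obtain ⟨rfl, -⟩ := h1
              obtain ⟨rfl, -⟩ := h2
              rfl
            · simp only [L, R, mem_filter, mem_univ, true_and] at h1 h2
              obtain ⟨rfl, -⟩ := h1
              obtain ⟨rfl, -⟩ := h2
              exact absurd hz.2.1 hs
        · rintro a ⟨h1, h2⟩
          have := a.2.1
          rw [← (mem_filter.1 h1).2.1, ← (mem_filter.1 h2).2.1] at this
          exact lt_asymm h this
      intro u v h
      rcases lt_or_gt_of_ne h with h | h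
      · obtain ⟨⟨a, ha, ha'⟩, h2⟩ := key u v h
        exact ⟨a, .inl ha, fun b hb => ha' b (hb.resolve_right (h2 b))⟩
      · obtain ⟨⟨a, ha, ha'⟩, h2⟩ := key v u h
        exact ⟨a, .inr ha, fun b hb => ha' b (hb.resolve_left (h2 b))⟩
    · have key : ∀ θ i, (univ.filter fun a : Item (E := E) Sigma.fst ok => τ a = i ∧
          pty wt spl (lab (τ a)) a.1.1.1 a.1.2.1.1 = θ).card =
          ∑ x, ∑ y, (if pty wt spl (lab i) x y = θ then N x y i else 0) := by
        intro θ i
        rw [card_eq_sum_card_fiberwise (f := fun a => a.1.1.1) (t := univ) (fun _ _ => by simp)]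
        refine sum_congr rfl fun x _ => ?_
        rw [card_eq_sum_card_fiberwise (f := fun a => a.1.2.1.1) (t := univ) (fun _ _ => by simp)]
        refine sum_congr rfl fun y _ => ?_
        rw [filter_filter, filter_filter, ← hτ1]
        split_ifs with h
        · congr 1
          ext a
          simp only [mem_filter, mem_univ, true_and]
          constructor
          · rintro ⟨⟨h1, h2⟩, h3, h4⟩
            exact ⟨h3, h4, h1⟩
          · rintro ⟨rfl, rfl, rfl⟩
            exact ⟨⟨rfl, h⟩, rfl, rfl⟩
        · rw [card_eq_zero, filter_eq_empty_iff]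
          rintro a _ ⟨⟨rfl, h2⟩, rfl, rfl⟩
          exact h h2
      intro θ i j
      rw [key, key, hcen θ i j]
    · have key : ∀ l i, (univ.filter fun v : V => lab i v.1.1 = l).card =
          ∑ x, (if lab i x = l then cnt x * wt x else 0) := by
        intro l i
        simp only [card_filter, V, E, Fintype.sum_sigma, sum_const, card_univ, Fintype.card_fin,
          smul_eq_mul]
        refine sum_congr rfl fun x _ => ?_
        split_ifs <;> simp
      intro l i j
      rw [key, key, hlab l i j]
  have hc : ∀ v : V, cnt v.1.1 ≠ 0 := fun v h => by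
    have := v.1.2.2
    omega
  have := hLF.extend σ mult (fun P hP i v d h => h0 P hP i _ d (hc v) h)
    (fun P hP v j h => h1 P hP _ j (hc v) h)
  convert this using 3 with P
  simp only [card_filter, V, E, Fintype.sum_sigma, sum_const, card_univ, Fintype.card_fin,
    smul_eq_mul]
  refine sum_congr rfl fun x _ => ?_
  split_ifs <;> simp

end Pool.Agent.Lib.MP_351560_co
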