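import Mathlib
import Pool.Agent.Lib.MP_351560_co.Star

set_option autoImplicit false
set_option linter.unusedSimpArgs false
set_option linter.unusedVariables false

namespace Pool.Agent.Lib.MP_351560_co

open Finset

theorem table {X Θ T : Type} [Fintype X] [DecidableEq X] [DecidableEq Θ] [Fintype T]
    [DecidableEq T] [Nonempty T] (M : X → X → ℕ) (ty : X → X → Θ) (ab : X → X → Prop)
    [DecidableRel ab] (e : Θ → ℕ) (F : X → X → Finset T) (c : X → ℕ) (δ : ℕ)
    (hM : ∀ x, M x x = 0)
    (habs : ∀ x y x' y', ab x y → ab x' y' → ty x y = ty x' y' → x = x' ∧ y = y')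
    (htot : ∀ θ, ∑ x, ∑ y, (if ty x y = θ then M x y else 0) = Fintype.card T * e θ)
    (hoth : ∀ θ, 2 * ∑ x, ∑ y, (if ¬ ab x y ∧ ty x y = θ then M x y else 0) ≤
      Fintype.card T * e θ)
    (hload : ∀ x, ∑ y, ((if ¬ ab x y then M x y else 0) + (if ¬ ab y x then M y x else 0)) ≤
      c x * δ)
    (hF : ∀ x y, M x y ≠ 0 → (F x y).card + 2 * δ + Fintype.card T / 2 < Fintype.card T) :
    ∃ N : X → X → T → ℕ, (∀ x y, ∑ i, N x y i = M x y) ∧
      (∀ x y i, ¬ ab x y → i ∈ F x y → N x y i = 0) ∧
      (∀ θ i, ∑ x, ∑ y, (if ty x y = θ then N x y i else 0) = e θ) ∧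
      (∀ x i, ∑ y, ((if ¬ ab x y then N x y i else 0) + (if ¬ ab y x then N y x i else 0)) ≤
        c x) ∧ ∀ x y i, ab x y → N x y i ≤ e (ty x y) := by
  classical
  let M1 : X × X → ℕ := fun z => if ¬ ab z.1 z.2 then M z.1 z.2 else 0
  let J := Σ z : X × X, Fin (M1 z)
  let res : J → Finset (X ⊕ Θ) := fun a => {.inl a.1.1, .inl a.1.2, .inr (ty a.1.1 a.1.2)}
  have hJ : ∀ a : J, ¬ ab a.1.1 a.1.2 ∧ M a.1.1 a.1.2 ≠ 0 := by
    intro a
    have := a.2.2
    simp only [M1] at this
    split_ifs at this with h
    · omega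
    · exact ⟨h, by omega⟩
  have hne : ∀ a : J, a.1.1 ≠ a.1.2 := fun a h => (hJ a).2 (by rw [← h, hM])
  have l1 : ∀ x, (univ.filter fun a : J => Sum.inl x ∈ res a).card ≤ c x * δ := by
    intro x
    refine le_trans ?_ (hload x)
    have : (univ.filter fun a : J => Sum.inl x ∈ res a) =
        (univ.filter fun a : J => a.1.1 = x) ∪ (univ.filter fun a : J => a.1.2 = x) := by
      ext a
      simp [res, eq_comm]
    rw [this, sum_add_distrib]
    refine (card_union_le _ _).trans (le_of_eq ?_)
    rw [card_sigma_pred M1 (fun z => z.1 = x), card_sigma_pred M1 (fun z => z.2 = x),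
      Fintype.sum_prod_type, Fintype.sum_prod_type, sum_eq_single x] <;> simp +contextual [M1]
  have l2 : ∀ θ, (univ.filter fun a : J => Sum.inr θ ∈ res a).card =
      ∑ x, ∑ y, (if ¬ ab x y ∧ ty x y = θ then M x y else 0) := by
    intro θ
    have : (univ.filter fun a : J => Sum.inr θ ∈ res a) =
        (univ.filter fun a : J => ty a.1.1 a.1.2 = θ) := by
      ext a
      simp [res, eq_comm]
    rw [this, card_sigma_pred M1 (fun z => ty z.1 z.2 = θ), Fintype.sum_prod_type]
    refine sum_congr rfl fun x _ => sum_congr rfl fun y _ => ?_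
    by_cases h : ab x y <;> simp [M1, h]
  have hpos : ∀ a : J, ∀ r ∈ res a, 0 < Sum.elim c e r := by
    intro a r hr
    have h0 : 0 < (univ.filter fun a : J => r ∈ res a).card := card_pos.2 ⟨a, by simpa using hr⟩
    rcases r with x | θ
    · have := h0.trans_le (l1 x)
      exact Nat.pos_of_mul_pos_right this |> fun h => by
        simp only [Sum.elim_inl]
        exact Nat.pos_of_ne_zero fun h' => by simp [h'] at this
    · have h1 := hoth θ
      rw [← l2] at h1
      simp only [Sum.elim_inr]
      exact Nat.pos_of_ne_zero fun h' => by rw [h'] at h1; omega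
  obtain ⟨τ, hτ1, hτ2⟩ := greedy (T := T) (univ : Finset J) res (Sum.elim c e)
    (fun a => F a.1.1 a.1.2) (fun a _ => hpos a) (by
      intro a _
      refine lt_of_le_of_lt ?_ (hF _ _ (hJ a).2)
      simp only [res]
      rw [sum_insert (by simp [hne a]), sum_insert (by simp), sum_singleton]
      have a1 : ∀ x, (univ.filter fun a : J => Sum.inl x ∈ res a).card / c x ≤ δ := fun x =>
        Nat.div_le_of_le_mul (l1 x)
      have a2 : ∀ θ, (univ.filter fun a : J => Sum.inr θ ∈ res a).card / e θ ≤
          Fintype.card T / 2 := fun θ => by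
        rw [Nat.le_div_iff_mul_le two_pos]
        rcases Nat.eq_zero_or_pos (e θ) with h | h
        · simp [h]
        · refine Nat.le_of_mul_le_mul_right (c := e θ) ?_ h
          have h1 := hoth θ
          rw [← l2] at h1
          have := Nat.div_mul_le_self (univ.filter fun a : J => Sum.inr θ ∈ res a).card (e θ)
          nlinarith
      have b1 := a1 a.1.1
      have b2 := a1 a.1.2
      have b3 := a2 (ty a.1.1 a.1.2)
      simp only [res, Sum.elim_inl, Sum.elim_inr] at b1 b2 b3 ⊢
      omega)
  let n1 : X → X → T → ℕ := fun x y i => (univ.filter fun a : J => a.1 = (x, y) ∧ τ a = i).card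
  let oth : Θ → T → ℕ := fun θ i => ∑ x, ∑ y, (if ¬ ab x y ∧ ty x y = θ then n1 x y i else 0)
  have hn1 : ∀ x y, ∑ i, n1 x y i = M1 (x, y) := by
    intro x y
    rw [← card_sigma_fib M1 (x, y),
      card_eq_sum_card_fiberwise (f := τ) (t := univ) (fun _ _ => by simp)]
    simp only [n1, filter_filter]
  have hfib : ∀ (q : X → X → Prop) [DecidableRel q] i,
      (univ.filter fun a : J => q a.1.1 a.1.2 ∧ τ a = i).card =
        ∑ x, ∑ y, (if ¬ ab x y ∧ q x y then n1 x y i else 0) := by
    intro q _ i
    rw [card_eq_sum_card_fiberwise (f := fun a => a.1) (t := univ) (fun _ _ => by simp),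
      Fintype.sum_prod_type]
    refine sum_congr rfl fun x _ => sum_congr rfl fun y _ => ?_
    rw [filter_filter]
    split_ifs with h
    · simp only [n1]
      congr 1
      ext a
      simp only [mem_filter, mem_univ, true_and]
      constructor
      · exact fun h => ⟨h.2, h.1.2⟩
      · rintro ⟨h1, h2⟩
        exact ⟨⟨by rw [h1]; exact h.2, h2⟩, h1⟩
    · rw [card_eq_zero, filter_eq_empty_iff]
      rintro a _ ⟨⟨h1, h2⟩, h3⟩
      have := (hJ a).1
      rw [h3] at h1 this
      exact h ⟨this, h1⟩
  have hoe : ∀ θ i, oth θ i ≤ e θ := by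
    intro θ i
    have := hτ2 (.inr θ) i
    simp only [oth]
    rw [← hfib (fun x y => ty x y = θ)]
    refine le_trans (le_of_eq ?_) this
    congr 1
    ext a
    simp [res, eq_comm]
  have hos : ∀ θ, ∑ i, oth θ i = ∑ x, ∑ y, (if ¬ ab x y ∧ ty x y = θ then M x y else 0) := by
    intro θ
    simp only [oth]
    rw [sum_comm]
    refine sum_congr rfl fun x _ => ?_
    rw [sum_comm]
    refine sum_congr rfl fun y _ => ?_
    split_ifs with h
    · rw [hn1]
      simp [M1, h.1]
    · simp
  have split : ∀ (g : X → X → ℕ) θ, ∑ x, ∑ y, (if ty x y = θ then g x y else 0) =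
      ∑ x, ∑ y, (if ¬ ab x y ∧ ty x y = θ then g x y else 0) +
        ∑ x, ∑ y, (if ab x y ∧ ty x y = θ then g x y else 0) := by
    intro g θ
    simp only [← sum_add_distrib]
    refine sum_congr rfl fun x _ => sum_congr rfl fun y _ => ?_
    by_cases h : ab x y <;> simp [h]
  have single : ∀ (g : X → X → ℕ) x0 y0, ab x0 y0 →
      ∑ x, ∑ y, (if ab x y ∧ ty x y = ty x0 y0 then g x y else 0) = g x0 y0 := by
    intro g x0 y0 h
    rw [sum_eq_single x0, sum_eq_single y0]
    · simp [h]
    · intro y _ hy
      rw [if_neg]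
      exact fun hh => hy (habs _ _ _ _ hh.1 h hh.2).2
    · simp
    · intro x _ hx
      refine sum_eq_zero fun y _ => ?_
      rw [if_neg]
      exact fun hh => hx (habs _ _ _ _ hh.1 h hh.2).1
    · simp
  refine ⟨fun x y i => if ab x y then e (ty x y) - oth (ty x y) i else n1 x y i,
    ?_, ?_, ?_, ?_, ?_⟩
  · intro x y
    by_cases h : ab x y
    · simp only [h, if_true]
      rw [sum_tsub_distrib _ (fun i _ => hoe _ i), hos]
      have := htot (ty x y)
      rw [split, single _ _ _ h] at this
      simp only [sum_const, card_univ, smul_eq_mul]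
      omega
    · simp only [h, if_false, hn1, M1, not_false_eq_true, if_true]
  · intro x y i h hi
    simp only [h, if_false, n1]
    rw [card_eq_zero, filter_eq_empty_iff]
    rintro a _ ⟨h1, h2⟩
    have := hτ1 a (mem_univ _)
    rw [h1, h2] at this
    exact this hi
  · intro θ i
    rw [split]
    have e1 : ∑ x, ∑ y, (if ¬ ab x y ∧ ty x y = θ then
        (if ab x y then e (ty x y) - oth (ty x y) i else n1 x y i) else 0) = oth θ i := by
      refine sum_congr rfl fun x _ => sum_congr rfl fun y _ => ?_
      by_cases h : ab x y <;> simp [h]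
    rw [e1]
    by_cases h : ∃ x y, ab x y ∧ ty x y = θ
    · obtain ⟨x, y, h, rfl⟩ := h
      rw [single _ _ _ h]
      simp only [h, if_true]
      have := hoe (ty x y) i
      omega
    · have e2 : ∀ g : X → X → ℕ, ∑ x, ∑ y, (if ab x y ∧ ty x y = θ then g x y else 0) = 0 :=
        fun g => sum_eq_zero fun x _ => sum_eq_zero fun y _ => if_neg fun hh => h ⟨x, y, hh⟩
      have e3 := htot θ
      have e4 := hoth θ
      rw [split, e2] at e3
      have e5 : Fintype.card T * e θ = 0 := by omega
      have e6 : e θ = 0 := by simpa using e5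
      have := hoe θ i
      rw [e2]
      omega
  · intro x i
    have := hτ2 (.inl x) i
    refine le_trans (le_of_eq ?_) this
    have e1 : (univ.filter fun a : J => Sum.inl x ∈ res a ∧ τ a = i) =
        (univ.filter fun a : J => a.1.1 = x ∧ τ a = i) ∪
          (univ.filter fun a : J => a.1.2 = x ∧ τ a = i) := by
      ext a
      simp [res, eq_comm, or_and_right]
    rw [e1, card_union_of_disjoint, hfib (fun a b => a = x), hfib (fun a b => b = x),
      sum_add_distrib]
    · congr 1
      · rw [sum_comm]
        refine sum_congr rfl fun y _ => ?_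
        rw [sum_eq_single x]
        · by_cases h : ab x y <;> simp [h]
        · simp +contextual
        · simp
      · refine sum_congr rfl fun y _ => ?_
        rw [sum_eq_single x]
        · by_cases h : ab y x <;> simp [h]
        · simp +contextual
        · simp
    · rw [disjoint_filter]
      exact fun a _ h h' => hne a (h.1.trans h'.1.symm)
  · intro x y i h
    simp only [h, if_true]
    omega

end Pool.Agent.Lib.MP_351560_co
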