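import Mathlib
import Pool.Agent.Lib.MP_351560_co.Table
import Pool.Agent.Lib.MP_351560_co.Frame

set_option autoImplicit false
set_option linter.unusedSimpArgs false
set_option linter.unusedVariables false

namespace Pool.Agent.Lib.MP_351560_co

open Finset

abbrev Cl (R : ℕ) := Fin 3 × Bool × Option (Fin R)

def ccnt {R : ℕ} (nr sp : Fin 3 → Bool → ℕ) (x : Cl R) : ℕ :=
  match x.2.2 with
  | none => nr x.1 x.2.1
  | some a => if a.val < sp x.1 x.2.1 then 1 else 0

def bw (w : ℕ) (b : Bool) : ℕ := if b then w else 1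

@[simp] lemma bw_true (w : ℕ) : bw w true = w := rfl
@[simp] lemma bw_false (w : ℕ) : bw w false = 1 := rfl

lemma sum_ccnt {R : ℕ} (nr sp : Fin 3 → Bool → ℕ) (hR : ∀ P b, sp P b ≤ R) (P : Fin 3) (b : Bool) :
    ∑ o : Option (Fin R), ccnt nr sp (P, b, o) = nr P b + sp P b := by
  rw [Fintype.sum_option]
  simp only [ccnt]
  rw [← card_filter, card_lt_fin _ _ (hR P b)]

lemma sum_part {R : ℕ} (f : Cl R → ℕ) (P : Fin 3) :
    ∑ x : Cl R, (if x.1 = P then f x else 0) = ∑ b, ∑ o, f (P, b, o) := by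
  rw [Fintype.sum_prod_type, sum_eq_single P]
  · simp [Fintype.sum_prod_type]
  · simp +contextual
  · simp

def Spl {R : ℕ} (U : ℕ) (ρ : Fin 3 → Fin 3 → Bool → Bool → ℕ) (x y : Cl R) : Prop :=
  ∃ a j, x.2.2 = some a ∧ y.2.2 = some j ∧ j.val < U ∧ a.val * U + j.val < ρ x.1 y.1 x.2.1 y.2.1

open Classical in
lemma card_spl {R U : ℕ} (hU : 0 < U) (ρ : Fin 3 → Fin 3 → Bool → Bool → ℕ) (P Q : Fin 3)
    (b b' : Bool) (h : ρ P Q b b' ≠ 0 → U ≤ R ∧ ρ P Q b b' ≤ U * R) :
    ∑ o : Option (Fin R), ∑ o' : Option (Fin R),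
      (if Spl U ρ (P, b, o) (Q, b', o') then 1 else 0) = ρ P Q b b' := by
  rw [← sum_product', ← card_filter]
  rcases Nat.eq_zero_or_pos (ρ P Q b b') with h0 | h0
  · rw [h0, card_eq_zero, filter_eq_empty_iff]
    rintro z _ ⟨a, j, -, -, -, h⟩
    simp only [h0] at h
    omega
  obtain ⟨h1, h2⟩ := h h0.ne'
  symm
  rw [← card_range (ρ P Q b b')]
  refine card_bij (fun k hk => (some ⟨k / U, (Nat.div_lt_iff_lt_mul hU).2
    (by have := mem_range.1 hk; rw [mul_comm]; omega)⟩,
    some ⟨k % U, (Nat.mod_lt _ hU).trans_le h1⟩)) ?_ ?_ ?_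
  · intro k hk
    simp only [mem_filter, mem_product, mem_univ, true_and]
    exact ⟨_, _, rfl, rfl, Nat.mod_lt _ hU, by
      simp only [Nat.div_add_mod']; exact mem_range.1 hk⟩
  · intro k _ l _ h
    simp only [Prod.mk.injEq, Option.some.injEq, Fin.mk.injEq] at h
    rw [← Nat.div_add_mod k U, ← Nat.div_add_mod l U, h.1, h.2]
  · rintro ⟨o, o'⟩ hz
    obtain ⟨a, j, rfl, rfl, h3, h4⟩ := (mem_filter.1 hz).2
    refine ⟨a.val * U + j.val, mem_range.2 h4, ?_⟩
    simp only [Prod.mk.injEq, Option.some.injEq, Fin.ext_iff]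
    constructor
    · rw [add_comm, Nat.add_mul_div_right _ _ hU, Nat.div_eq_of_lt h3, zero_add]
    · rw [add_comm, Nat.add_mul_mod_self_right, Nat.mod_eq_of_lt h3]

open Classical in
lemma card_spl_right {R U : ℕ} (ρ : Fin 3 → Fin 3 → Bool → Bool → ℕ) (x : Cl R) :
    ∑ y, (if Spl U ρ x y then 1 else 0) ≤ 6 * U := by
  rw [← card_filter]
  refine le_trans (card_le_card_of_injOn
    (fun y : Cl R => (y.1, y.2.1, (y.2.2.map Fin.val).getD 0))
    (t := (univ : Finset (Fin 3)) ×ˢ (univ : Finset Bool) ×ˢ range U) ?_ ?_) (by simp; omega)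
  · rintro ⟨P, b, o⟩ hy
    obtain ⟨a, j, -, rfl, h, -⟩ := (mem_filter.1 (mem_coe.1 hy)).2
    simpa using h
  · rintro ⟨P, b, o⟩ hy ⟨P', b', o'⟩ hy' h
    obtain ⟨a, j, -, rfl, -, -⟩ := (mem_filter.1 (mem_coe.1 hy)).2
    obtain ⟨a', j', -, rfl, -, -⟩ := (mem_filter.1 (mem_coe.1 hy')).2
    simpa [Fin.ext_iff] using h

open Classical in
lemma card_spl_left {R U t : ℕ} (hU : 0 < U) (ρ : Fin 3 → Fin 3 → Bool → Bool → ℕ)
    (hρ : ∀ P Q b b', ρ P Q b b' ≤ t) (x : Cl R) :
    ∑ y, (if Spl U ρ y x then 1 else 0) ≤ 6 * (t / U + 1) := by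
  rw [← card_filter]
  refine le_trans (card_le_card_of_injOn
    (fun y : Cl R => (y.1, y.2.1, (y.2.2.map Fin.val).getD 0))
    (t := (univ : Finset (Fin 3)) ×ˢ (univ : Finset Bool) ×ˢ range (t / U + 1)) ?_ ?_)
    (by simp; omega)
  · rintro ⟨P, b, o⟩ hy
    obtain ⟨a, j, rfl, -, -, h⟩ := (mem_filter.1 (mem_coe.1 hy)).2
    have := hρ P x.1 b x.2.1
    have : a.val ≤ t / U := (Nat.le_div_iff_mul_le hU).2 (by simp only at h; omega)
    simpa using Nat.lt_succ_of_le this
  · rintro ⟨P, b, o⟩ hy ⟨P', b', o'⟩ hy' h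
    obtain ⟨a, j, rfl, -, -, -⟩ := (mem_filter.1 (mem_coe.1 hy)).2
    obtain ⟨a', j', rfl, -, -, -⟩ := (mem_filter.1 (mem_coe.1 hy')).2
    simpa [Fin.ext_iff] using h

theorem mid {Λ : Type} [DecidableEq Λ] (t : ℕ) [NeZero t] (w U R φ Δ : ℕ)
    (nr sp : Fin 3 → Bool → ℕ) (hR : ∀ P b, sp P b ≤ R) (hw : 1 ≤ w) (hU : 0 < U)
    (nl : Fin 3 → Λ) (lab : Fin t → Cl R → Λ) (act : Fin 3 → Prop)
    (N0 : Cl R → Cl R → Fin t → ℕ)
    (hnl : ∀ i P b, lab i (P, b, none) = nl P)
    (hNa : ∀ x y, ∑ i, N0 x y i ≤ if x.1 < y.1 then ccnt nr sp x * ccnt nr sp y else 0)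
    (hNb : ∀ x y, x.1 < y.1 → ¬ (act x.1 ∧ act y.1) → ∑ i, N0 x y i = ccnt nr sp x * ccnt nr sp y)
    (hNc : ∀ x y i, x.2.2 = none → y.2.2 = none → N0 x y i = 0)
    (hNd : ∀ x y i, act x.1 → act y.1 → x.2.2 ≠ none → y.2.2 ≠ none →
      (x.2.1 = true ∨ y.2.1 = true) → N0 x y i = 0)
    (hcn : ∀ P b i, 4 * ∑ y, (N0 (P, b, none) y i + N0 y (P, b, none) i) ≤ nr P b)
    (hcs : ∀ x i, ∑ y, (N0 x y i + N0 y x i) ≤ ccnt nr sp x)
    (hbusy : ∀ P b a, act P → (univ.filter fun i => lab i (P, b, some a) ≠ nl P ∨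
      ∑ y, (N0 (P, b, some a) y i + N0 y (P, b, some a) i) ≠ 0).card ≤ φ)
    (hcen : ∀ θ i j, ∑ x, ∑ y, (if ((bw w x.2.1, lab i x), (bw w y.2.1, lab i y)) = θ
        then N0 x y i else 0) =
      ∑ x, ∑ y, (if ((bw w x.2.1, lab j x), (bw w y.2.1, lab j y)) = θ then N0 x y j else 0))
    (hlab : ∀ l i j, ∑ x, (if lab i x = l then ccnt nr sp x * bw w x.2.1 else 0) =
      ∑ x, (if lab j x = l then ccnt nr sp x * bw w x.2.1 else 0))
    (hdiv : ∀ P Q, P < Q → act P → act Q →
      (∑ b, (nr P b + sp P b) * bw w b) * (∑ b, (nr Q b + sp Q b) * bw w b) ≡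
      ∑ b, ∑ b', (∑ o, ∑ o', ∑ i, N0 (P, b, o) (Q, b', o') i) * (bw w b * bw w b') [MOD t])
    (hshare : ∀ P Q b b', P < Q → act P → act Q → (nr P b + sp P b) * (nr Q b' + sp Q b') +
      (if b = false ∧ b' = false then 3 * (w * w) * t else 0) ≤ 2 * (nr P b * nr Q b'))
    (hspl : ∀ P Q b b', P < Q → act P → act Q → (b = true ∨ b' = true) →
      (nr P b + sp P b) * (nr Q b' + sp Q b') ≠ 0 → U ≤ sp Q b' ∧ t ≤ U * sp P b)
    (hnr : ∀ P b, nr P b ≠ 1)
    (hΔ : ∑ Q, ∑ b, (nr Q b + sp Q b) + w * w * (6 * U + 6 * (t / U + 1)) ≤ Δ)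
    (hΔt : 16 * Δ ≤ t) (hφ : 16 * φ < t)
    (σ : Λ → Fin 3 → Fin t → Prop) (mult : Fin 3 → ℕ)
    (h0 : ∀ P, mult P ≠ 0 → ∀ i x d, ccnt nr sp x ≠ 0 → x.1 = P → ¬ σ (lab i x) P d)
    (h1 : ∀ P, mult P ≠ 0 → ∀ x j, ccnt nr sp x ≠ 0 → x.1 ≠ P → ∃! i, σ (lab i x) P (j - i)) :
    Good t fun P => ∑ b, (nr P b + sp P b) * bw w b + mult P * t := by
  classical
  have ht : 0 < t := Nat.pos_of_ne_zero (NeZero.ne t)
  set cnt : Cl R → ℕ := ccnt nr sp with hcnt
  let W : Fin 3 → Fin 3 → Bool → Bool → ℕ := fun P Q b b' =>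
    ∑ o, ∑ o', (cnt (P, b, o) * cnt (Q, b', o') - ∑ i, N0 (P, b, o) (Q, b', o') i)
  let ρ : Fin 3 → Fin 3 → Bool → Bool → ℕ := fun P Q b b' =>
    if P < Q ∧ (b = true ∨ b' = true) then W P Q b b' % t else 0
  have hW : ∀ P Q b b', P < Q → W P Q b b' + ∑ o, ∑ o', ∑ i, N0 (P, b, o) (Q, b', o') i =
      (nr P b + sp P b) * (nr Q b' + sp Q b') := by
    intro P Q b b' h
    rw [← sum_ccnt nr sp hR, ← sum_ccnt nr sp hR, sum_mul_sum]
    simp only [W, ← sum_add_distrib]
    refine sum_congr rfl fun o _ => sum_congr rfl fun o' _ => Nat.sub_add_cancel ?_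
    simpa [h] using hNa (P, b, o) (Q, b', o')
  have hW0 : ∀ P Q b b', P < Q → ¬ (act P ∧ act Q) → W P Q b b' = 0 := by
    intro P Q b b' h h'
    refine sum_eq_zero fun o _ => sum_eq_zero fun o' _ => ?_
    rw [hNb _ _ h h', Nat.sub_self]
  have hρt : ∀ P Q b b', ρ P Q b b' < t := by
    intro P Q b b'
    simp only [ρ]
    split_ifs
    exacts [Nat.mod_lt _ ht, ht]
  have hρW : ∀ P Q b b', ρ P Q b b' ≤ W P Q b b' := by
    intro P Q b b'
    simp only [ρ]
    split_ifs
    exacts [Nat.mod_le _ _, Nat.zero_le _]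
  have hρ : ∀ P Q b b', ρ P Q b b' ≠ 0 → P < Q ∧ (b = true ∨ b' = true) ∧ act P ∧ act Q ∧
      U ≤ sp Q b' ∧ t ≤ U * sp P b := by
    intro P Q b b' h
    have h2 : P < Q ∧ (b = true ∨ b' = true) := by
      by_contra hh
      simp [ρ, hh] at h
    have h3 : W P Q b b' ≠ 0 := by have := hρW P Q b b'; omega
    have h4 : act P ∧ act Q := by
      by_contra hh
      exact h3 (hW0 _ _ _ _ h2.1 hh)
    have := hW P Q b b' h2.1
    exact ⟨h2.1, h2.2, h4.1, h4.2, hspl _ _ _ _ h2.1 h4.1 h4.2 h2.2 (by omega)⟩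
  let spl : Cl R → Cl R → Prop := Spl U ρ
  have hS : ∀ x y, spl x y → x.1 < y.1 ∧ cnt x = 1 ∧ cnt y = 1 ∧ (∀ i, N0 x y i = 0) ∧
      x.2.2 ≠ none ∧ y.2.2 ≠ none := by
    rintro ⟨P, b, o⟩ ⟨Q, b', o'⟩ ⟨a, j, rfl, rfl, h3, h4⟩
    simp only at h4
    obtain ⟨a1, a2, a3, a4, a5, a6⟩ := hρ P Q b b' (by omega)
    have := hρt P Q b b'
    have : a.val < sp P b := by
      by_contra hh
      have : U * sp P b ≤ a.val * U := by rw [mul_comm]; exact Nat.mul_le_mul_right _ (by omega)
      omega
    refine ⟨a1, by simp [hcnt, ccnt, this], by simp [hcnt, ccnt]; omega,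
      fun i => hNd _ _ i a3 a4 (by simp) (by simp) a2, by simp, by simp⟩
  have hcs' : ∀ P Q b b', ∑ o, ∑ o', (if spl (P, b, o) (Q, b', o') then 1 else 0) = ρ P Q b b' :=
    fun P Q b b' => card_spl hU ρ P Q b b' fun h => by
      obtain ⟨-, -, -, -, a5, a6⟩ := hρ P Q b b' h
      have := hρt P Q b b'
      have := Nat.mul_le_mul_left U (hR P b)
      have := hR Q b'
      omega
  let M : Cl R → Cl R → ℕ := fun x y => if x.1 < y.1 then
    cnt x * cnt y * (if spl x y then bw w x.2.1 * bw w y.2.1 else 1) - ∑ i, N0 x y i else 0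
  let ty : Cl R → Cl R → Fin 3 × Fin 3 × Bool × Bool := fun x y =>
    (x.1, y.1, if spl x y then false else x.2.1, if spl x y then false else y.2.1)
  let Tot : Fin 3 × Fin 3 × Bool × Bool → ℕ := fun θ =>
    ∑ x, ∑ y, if ty x y = θ then M x y else 0
  have hT : ∀ P Q β β', Tot (P, Q, β, β') = if P < Q then W P Q β β' - ρ P Q β β' +
      (if β = false ∧ β' = false then ∑ b, ∑ b', ρ P Q b b' * (bw w b * bw w b') else 0)
      else 0 := by
    intro P Q β β'
    have e1 : Tot (P, Q, β, β') = ∑ b, ∑ o, ∑ b', ∑ o',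
        if ty (P, b, o) (Q, b', o') = (P, Q, β, β') then M (P, b, o) (Q, b', o') else 0 := by
      rw [← sum_part (fun x => ∑ b', ∑ o',
        if ty x (Q, b', o') = (P, Q, β, β') then M x (Q, b', o') else 0)]
      refine sum_congr rfl fun x _ => ?_
      rw [← sum_part (fun y => if ty x y = (P, Q, β, β') then M x y else 0)]
      split_ifs with h
      · refine sum_congr rfl fun y _ => ?_
        by_cases h' : y.1 = Q <;> simp [ty, h']
      · simp [ty, h]
    rw [e1]
    by_cases h : P < Q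
    swap
    · simp [M, h]
    have e2 : ∀ b o b' o', (if ty (P, b, o) (Q, b', o') = (P, Q, β, β')
        then M (P, b, o) (Q, b', o') else 0) =
        (if b = β then if b' = β' then cnt (P, b, o) * cnt (Q, b', o') -
          ∑ i, N0 (P, b, o) (Q, b', o') i - (if spl (P, b, o) (Q, b', o') then 1 else 0)
          else 0 else 0) + (if β = false ∧ β' = false then
          (if spl (P, b, o) (Q, b', o') then 1 else 0) * (bw w b * bw w b') else 0) := by
      intro b o b' o'
      by_cases hs : spl (P, b, o) (Q, b', o')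
      · obtain ⟨-, a1, a2, a3, -⟩ := hS _ _ hs
        simp [ty, M, hs, h, a1, a2, a3, eq_comm]
      · simp [ty, M, hs, h, ite_and]
    simp only [e2, sum_add_distrib, h, if_true]
    congr 1
    · rw [sum_eq_single β, sum_comm, sum_eq_single β', ← hcs', ← sum_tsub_distrib]
      · simp only [if_true]
        refine sum_congr rfl fun o _ => sum_tsub_distrib _ fun o' _ => ?_
        split_ifs with hs
        · obtain ⟨-, a1, a2, a3, -⟩ := hS _ _ hs
          simp [a1, a2, a3]
        · exact Nat.zero_le _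
      · refine fun o _ => sum_le_sum fun o' _ => ?_
        split_ifs with hs
        · obtain ⟨-, a1, a2, a3, -⟩ := hS _ _ hs
          simp [a1, a2, a3]
        · exact Nat.zero_le _
      all_goals simp +contextual
    · split_ifs
      · refine sum_congr rfl fun b _ => ?_
        rw [sum_comm]
        refine sum_congr rfl fun b' _ => ?_
        simp only [← sum_mul, hcs']
      · simp
  have hdv : ∀ θ, t ∣ Tot θ := by
    rintro ⟨P, Q, β, β'⟩
    rw [hT]
    by_cases h : P < Q
    swap
    · simp [h]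
    by_cases ha : act P ∧ act Q
    swap
    · have e1 : ∀ b b', W P Q b b' = 0 := fun b b' => hW0 _ _ _ _ h ha
      have e2 : ∀ b b', ρ P Q b b' = 0 := fun b b' => by have := hρW P Q b b'; have := e1 b b'; omega
      simp [e1, e2]
    by_cases hb : β = true ∨ β' = true
    · have : ¬ (β = false ∧ β' = false) := by rcases hb with rfl | rfl <;> simp
      simp only [h, if_true, this, if_false, add_zero, ρ, hb, and_self]
      exact (Nat.modEq_iff_dvd' (Nat.mod_le _ _)).1 (Nat.mod_modEq _ _)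
    · obtain ⟨rfl, rfl⟩ : β = false ∧ β' = false := by simpa using hb
      have e1 := hdiv P Q h ha.1 ha.2
      rw [sum_mul_sum] at e1
      have e2 : ∑ b, ∑ b', (nr P b + sp P b) * bw w b * ((nr Q b' + sp Q b') * bw w b') =
          ∑ b, ∑ b', W P Q b b' * (bw w b * bw w b') + ∑ b, ∑ b',
            (∑ o, ∑ o', ∑ i, N0 (P, b, o) (Q, b', o') i) * (bw w b * bw w b') := by
        simp only [← sum_add_distrib, ← add_mul, hW _ _ _ _ h]
        refine sum_congr rfl fun b _ => sum_congr rfl fun b' _ => by ring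
      rw [e2] at e1
      have e3 := Nat.ModEq.add_right_cancel' _ (e1.trans (by rw [zero_add] : _ ≡ 0 + _ [MOD t]))
      rw [← Nat.modEq_zero_iff_dvd]
      refine Nat.ModEq.trans ?_ e3
      simp only [h, if_true, and_self, ρ, Fintype.sum_bool, true_and, or_true, true_or, or_self,
        Bool.false_eq_true, if_false, Nat.sub_zero, zero_mul, add_zero, bw_false, mul_one]
      rw [add_comm, ← add_assoc]
      gcongr <;> exact Nat.mod_modEq _ _
  let ab : Cl R → Cl R → Prop := fun x y => x.2.2 = none ∧ y.2.2 = none ∧ x.1 < y.1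
  have habs : ∀ x y, ab x y → ty x y = (x.1, y.1, x.2.1, y.2.1) ∧ M x y = cnt x * cnt y := by
    intro x y h
    have : ¬ spl x y := fun hs => (hS _ _ hs).2.2.2.2.1 h.1
    simp [ty, M, this, h.2.2, hNc x y _ h.1 h.2.1]
  have hTle : ∀ P Q b b', Tot (P, Q, b, b') ≤ 2 * (nr P b * nr Q b') := by
    intro P Q β β'
    rw [hT]
    by_cases h : P < Q
    swap
    · simp [h]
    by_cases ha : act P ∧ act Q
    swap
    · have e1 : ∀ b b', W P Q b b' = 0 := fun b b' => hW0 _ _ _ _ h ha
      have e2 : ∀ b b', ρ P Q b b' = 0 := fun b b' => by have := hρW P Q b b'; have := e1 b b'; omega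
      simp [e1, e2]
    refine le_trans ?_ (hshare P Q β β' h ha.1 ha.2)
    rw [if_pos h]
    refine Nat.add_le_add (by have := hW P Q β β' h; omega) ?_
    split_ifs
    · have e0 : ρ P Q false false = 0 := by simp [ρ]
      have e1 := hρt P Q true true
      have e2 := hρt P Q true false
      have e3 := hρt P Q false true
      have e4 : w ≤ w * w := Nat.le_mul_self w
      simp only [Fintype.sum_bool, e0, bw_true, bw_false]
      nlinarith
    · exact le_rfl
  let Bz : Cl R → Finset (Fin t) := fun x => if x.2.2 = none then ∅ else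
    univ.filter fun i => lab i x ≠ nl x.1 ∨ ∑ y, (N0 x y i + N0 y x i) ≠ 0
  let c : Cl R → ℕ := fun x => if x.2.2 = none then cnt x / 2 else cnt x
  have hMact : ∀ x y, M x y ≠ 0 → act x.1 ∧ act y.1 := by
    intro x y h
    by_contra hh
    apply h
    simp only [M]
    split_ifs with h1 h2
    · obtain ⟨a, j, -, -, -, h4⟩ := h2
      have := hρ x.1 y.1 x.2.1 y.2.1 (by omega)
      exact absurd ⟨this.2.2.1, this.2.2.2.1⟩ hh
    · rw [hNb _ _ h1 hh]
      simp
    · rfl
  have hdeg : ∀ x, ∑ y, (M x y + M y x) ≤ cnt x * Δ := by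
    intro x
    have e1 : ∀ y, M x y + M y x ≤ cnt x * (cnt y + w * w * ((if spl x y then 1 else 0) +
        (if spl y x then 1 else 0))) := by
      intro y
      have hb : ∀ b, bw w b ≤ w := fun b => by cases b <;> simp [hw]
      have e2 : ∀ x y, M x y ≤ if x.1 < y.1 then
          cnt x * cnt y + (if spl x y then w * w else 0) else 0 := by
        intro x y
        simp only [M]
        split_ifs with h1 h2
        · obtain ⟨-, a1, a2, -⟩ := hS _ _ h2
          have := Nat.mul_le_mul (hb x.2.1) (hb y.2.1)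
          rw [a1, a2]
          omega
        · omega
        · exact le_rfl
      have e3 := e2 x y
      have e4 := e2 y x
      rw [mul_comm (cnt y)] at e4
      rw [mul_add]
      by_cases h1 : spl x y
      · obtain ⟨a0, a1, a2, -⟩ := hS _ _ h1
        simp only [a0, lt_asymm a0, if_true, if_false, h1, a1, one_mul, mul_add] at e3 e4 ⊢
        omega
      · by_cases h2 : spl y x
        · obtain ⟨a0, a1, a2, -⟩ := hS _ _ h2
          simp only [a0, lt_asymm a0, if_true, if_false, h2, a2, one_mul, mul_add] at e3 e4 ⊢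
          omega
        · simp only [h1, h2, if_false, add_zero] at e3 e4 ⊢
          split_ifs at e3 e4 with a1 a2
          · exact absurd a1 (lt_asymm a2)
          all_goals omega
    refine (sum_le_sum fun y _ => e1 y).trans ?_
    rw [← mul_sum]
    refine Nat.mul_le_mul_left _ (le_trans ?_ hΔ)
    rw [sum_add_distrib, ← mul_sum, sum_add_distrib]
    refine Nat.add_le_add (le_of_eq ?_) (Nat.mul_le_mul_left _ (Nat.add_le_add
      (card_spl_right ρ x) (card_spl_left hU ρ (fun _ _ _ _ => (hρt _ _ _ _).le) x)))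
    simp only [Fintype.sum_prod_type, hcnt, sum_ccnt nr sp hR]
  obtain ⟨N1, n1, n2, n3, n4, n5⟩ := table (T := Fin t) M ty ab (fun θ => Tot θ / t)
    (fun x y => Bz x ∪ Bz y) c (3 * Δ) (fun x => by simp [M]) (by
      rintro ⟨P, b, o⟩ ⟨Q, b', o'⟩ ⟨P1, b1, o1⟩ ⟨Q1, b1', o1'⟩ h h' he
      rw [(habs _ _ h).1, (habs _ _ h').1] at he
      obtain ⟨rfl, rfl, -⟩ := h
      obtain ⟨rfl, rfl, -⟩ := h'
      simp only [Prod.mk.injEq] at he ⊢
      tauto) (fun θ => by rw [Fintype.card_fin, Nat.mul_div_cancel' (hdv θ)]) (by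
      rintro ⟨P, Q, b, b'⟩
      rw [Fintype.card_fin, Nat.mul_div_cancel' (hdv _)]
      have e1 := hTle P Q b b'
      by_cases h : P < Q
      · have e2 : ∑ x, ∑ y, (if ¬ ab x y ∧ ty x y = (P, Q, b, b') then M x y else 0) +
            nr P b * nr Q b' ≤ Tot (P, Q, b, b') := by
          have hab : ab (P, b, none) (Q, b', none) := ⟨rfl, rfl, h⟩
          have e3 : nr P b * nr Q b' ≤
              ∑ x, ∑ y, (if ab x y ∧ ty x y = (P, Q, b, b') then M x y else 0) := by
            refine le_trans ?_ (single_le_sum (f := fun x => ∑ y,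
              (if ab x y ∧ ty x y = (P, Q, b, b') then M x y else 0))
              (fun _ _ => Nat.zero_le _) (mem_univ (P, b, none)))
            refine le_trans ?_ (single_le_sum (f := fun y =>
              (if ab (P, b, none) y ∧ ty (P, b, none) y = (P, Q, b, b')
                then M (P, b, none) y else 0))
              (fun _ _ => Nat.zero_le _) (mem_univ (Q, b', none)))
            simp [hab, habs _ _ hab, hcnt, ccnt]
          refine (Nat.add_le_add_left e3 _).trans (le_of_eq ?_)
          simp only [Tot, ← sum_add_distrib]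
          refine sum_congr rfl fun x _ => sum_congr rfl fun y _ => ?_
          by_cases h : ab x y <;> simp [h]
        omega
      · rw [sum_eq_zero]
        · exact Nat.zero_le _
        refine fun x _ => sum_eq_zero fun y _ => ?_
        split_ifs with hh
        · have := hh.2
          simp only [ty, Prod.mk.injEq] at this
          simp [M, this.1, this.2.1, h]
        · rfl) (by
      intro x
      refine le_trans (sum_le_sum fun y _ => ?_) ((hdeg x).trans ?_)
      · split_ifs <;> omega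
      · rw [← mul_assoc]
        refine Nat.mul_le_mul_right _ ?_
        simp only [c]
        split_ifs with h
        · have : cnt x ≠ 1 := by
            obtain ⟨P, b, o⟩ := x
            cases h
            exact hnr P b
          omega
        · omega) (by
      intro x y h
      have hb : ∀ x : Cl R, act x.1 → (Bz x).card ≤ φ := by
        rintro ⟨P, b, _ | a⟩ h
        · simp [Bz]
        · simpa [Bz] using hbusy P b a h
      have e1 := hb x (hMact x y h).1
      have e2 := hb y (hMact x y h).2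
      have := card_union_le (Bz x) (Bz y)
      rw [Fintype.card_fin]
      omega)
  have hN1 : ∀ x y i, N1 x y i ≠ 0 → lab i x = nl x.1 ∧ lab i y = nl y.1 := by
    intro x y i h
    have key : ∀ x : Cl R, i ∉ Bz x → lab i x = nl x.1 := by
      rintro ⟨P, b, _ | a⟩ h
      · exact hnl i P b
      · simp only [Bz, reduceCtorEq, if_false, mem_filter, mem_univ, true_and, not_or,
          not_not] at h
        exact h.1
    by_cases hab : ab x y
    · exact ⟨key x (by simp [Bz, hab.1]), key y (by simp [Bz, hab.2.1])⟩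
    · have : i ∉ Bz x ∪ Bz y := fun hh => h (n2 x y i hab hh)
      rw [mem_union, not_or] at this
      exact ⟨key x this.1, key y this.2⟩
  have := frame t (fun x : Cl R => x.1) cnt (fun x => bw w x.2.1) spl lab
    (fun x y i => N0 x y i + N1 x y i) ?_ ?_ ?_ hlab σ mult h0 h1
  · convert this using 3 with P
    rw [sum_part (fun x => cnt x * bw w x.2.1)]
    simp only [← sum_mul, hcnt, sum_ccnt nr sp hR]
  · intro x y
    rw [sum_add_distrib, n1]
    have := hNa x y
    simp only [M]
    split_ifs at this ⊢ with h h'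
    · simp [(hS _ _ h').2.2.2.1]
    · omega
    · omega
  · intro x i
    have e0 : ∑ y, (N0 x y i + N1 x y i + (N0 y x i + N1 y x i)) =
        ∑ y, (N0 x y i + N0 y x i) + (∑ y, ((if ¬ ab x y then N1 x y i else 0) +
          (if ¬ ab y x then N1 y x i else 0)) + ∑ y, ((if ab x y then N1 x y i else 0) +
          (if ab y x then N1 y x i else 0))) := by
      simp only [← sum_add_distrib]
      refine sum_congr rfl fun y _ => ?_
      by_cases h : ab x y <;> by_cases h' : ab y x <;> simp [h, h'] <;> omega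
    rw [e0]
    have e1 := n4 x i
    obtain ⟨P, b, _ | a⟩ := x
    · have e2 := hcn P b i
      have e3 : t * ∑ y, ((if ab (P, b, none) y then N1 (P, b, none) y i else 0) +
          (if ab y (P, b, none) then N1 y (P, b, none) i else 0)) ≤ 2 * (nr P b * Δ) := by
        have e4 : ∀ x y, t * (if ab x y then N1 x y i else 0) ≤ 2 * M x y := by
          intro x y
          split_ifs with h
          · refine (Nat.mul_le_mul_left t (n5 x y i h)).trans ?_
            rw [Nat.mul_div_cancel' (hdv _), (habs _ _ h).1, (habs _ _ h).2]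
            obtain ⟨P, b, o⟩ := x
            obtain ⟨Q, b', o'⟩ := y
            obtain ⟨rfl, rfl, -⟩ := h
            exact hTle _ _ _ _
          · simp
        rw [mul_sum]
        refine le_trans (sum_le_sum fun y _ => ?_) (Nat.mul_le_mul_left 2 (hdeg (P, b, none)) |>
          fun h => (mul_sum _ _ _).symm.le.trans h)
        rw [mul_add, mul_add]
        exact Nat.add_le_add (e4 _ _) (e4 _ _)
      have e5 : 8 * ∑ y, ((if ab (P, b, none) y then N1 (P, b, none) y i else 0) +
          (if ab y (P, b, none) then N1 y (P, b, none) i else 0)) ≤ nr P b := by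
        refine Nat.le_of_mul_le_mul_left (c := t) ?_ ht
        have := Nat.mul_le_mul_left (nr P b) hΔt
        nlinarith
      simp only [c, if_true, hcnt, ccnt] at e1 ⊢
      omega
    · have e2 := hcs (P, b, some a) i
      have e3 : ∑ y, ((if ab (P, b, some a) y then N1 (P, b, some a) y i else 0) +
          (if ab y (P, b, some a) then N1 y (P, b, some a) i else 0)) = 0 := by simp [ab]
      rw [e3]
      by_cases hz : i ∈ Bz (P, b, some a)
      · have e4 : ∑ y, ((if ¬ ab (P, b, some a) y then N1 (P, b, some a) y i else 0) +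
            (if ¬ ab y (P, b, some a) then N1 y (P, b, some a) i else 0)) = 0 := by
          refine sum_eq_zero fun y _ => ?_
          rw [n2 _ y i (by simp [ab]) (mem_union_left _ hz),
            n2 y _ i (by simp [ab]) (mem_union_right _ hz)]
          simp
        omega
      · simp only [Bz, reduceCtorEq, if_false, mem_filter, mem_univ, true_and, not_or,
          not_not] at hz
        simp only [c, reduceCtorEq, if_false] at e1
        omega
  · have key : ∀ θ i, ∑ x, ∑ y, (if pty (fun x : Cl R => bw w x.2.1) spl (lab i) x y = θ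
        then N0 x y i + N1 x y i else 0) =
        ∑ x, ∑ y, (if ((bw w x.2.1, lab i x), (bw w y.2.1, lab i y)) = θ then N0 x y i else 0) +
        ∑ z : Fin 3 × Fin 3 × Bool × Bool, if ((bw w z.2.2.1, nl z.1), (bw w z.2.2.2, nl z.2.1)) = θ
          then Tot z / t else 0 := by
      intro θ i
      have e1 : ∀ z : Fin 3 × Fin 3 × Bool × Bool,
          (if ((bw w z.2.2.1, nl z.1), (bw w z.2.2.2, nl z.2.1)) = θ then Tot z / t else 0) =
          ∑ x, ∑ y, if ty x y = z then (if ((bw w z.2.2.1, nl z.1), (bw w z.2.2.2, nl z.2.1)) = θ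
            then N1 x y i else 0) else 0 := by
        intro z
        split_ifs
        · exact (n3 z i).symm
        · simp
      simp only [e1]
      rw [sum_comm (s := (univ : Finset (Fin 3 × Fin 3 × Bool × Bool))), ← sum_add_distrib]
      refine sum_congr rfl fun x _ => ?_
      rw [sum_comm (s := (univ : Finset (Fin 3 × Fin 3 × Bool × Bool))), ← sum_add_distrib]
      refine sum_congr rfl fun y _ => ?_
      rw [sum_ite_eq, if_pos (mem_univ _)]
      have e2 : (if pty (fun x : Cl R => bw w x.2.1) spl (lab i) x y = θ then N0 x y i else 0) =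
          (if ((bw w x.2.1, lab i x), (bw w y.2.1, lab i y)) = θ then N0 x y i else 0) := by
        by_cases hs : spl x y
        · simp [(hS _ _ hs).2.2.2.1]
        · simp [pty, hs]
      have e3 : (if pty (fun x : Cl R => bw w x.2.1) spl (lab i) x y = θ then N1 x y i else 0) =
          if ((bw w (ty x y).2.2.1, nl (ty x y).1), (bw w (ty x y).2.2.2, nl (ty x y).2.1)) = θ
            then N1 x y i else 0 := by
        by_cases hn : N1 x y i = 0
        · simp [hn]
        · obtain ⟨a1, a2⟩ := hN1 x y i hn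
          by_cases hs : spl x y <;> simp [pty, ty, hs, a1, a2]
      rw [← e2, ← e3]
      split_ifs <;> rfl
    intro θ i j
    rw [key, key, hcen θ i j]

end Pool.Agent.Lib.MP_351560_co
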