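import Mathlib
import Pool.Agent.Lib.MP_351560_co.Frame

set_option autoImplicit false
set_option linter.unusedSimpArgs false
set_option linter.unusedVariables false

namespace Pool.Agent.Lib.MP_351560_co

open Finset

/-- The part not in a given pair of parts. -/
def fc (x y : Fin 3) : Fin 3 := -(x + y)

@[simp] lemma fc01 : fc 0 1 = 2 := rfl
@[simp] lemma fc02 : fc 0 2 = 1 := rfl
@[simp] lemma fc12 : fc 1 2 = 0 := rfl

lemma tri {t : ℕ} (r : Fin 3 → ℕ) (hr : ∀ k, r k < t) (h : t ∣ r 0 + r 1 + r 2) :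
    ∃ (b : Fin 3 → Fin t → ℕ) (c : ℕ), (∀ k i, b k i ≤ 1) ∧ (∀ k, ∑ i, b k i = r k) ∧
      (∀ i, b 0 i + b 1 i + b 2 i = c) ∧ c * t = r 0 + r 1 + r 2 := by
  obtain ⟨c, hc⟩ := h
  have h0 := hr 0
  have h1 := hr 1
  have h2 := hr 2
  have hc3 : c < 3 := by
    by_contra hh
    have : t * 3 ≤ t * c := Nat.mul_le_mul_left _ (by omega)
    omega
  interval_cases c
  · refine ⟨fun _ _ => 0, 0, by simp, fun k => ?_, by simp, by omega⟩
    fin_cases k <;> simp <;> omega
  · obtain ⟨f, hf⟩ := exists_fib (α := Fin t) r (by simp [Fin.sum_univ_three]; omega)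
    refine ⟨fun k i => if f i = k then 1 else 0, 1, fun k i => by beta_reduce; split_ifs <;> omega,
      fun k => by rw [← hf, card_filter], fun i => ?_, by omega⟩
    beta_reduce
    generalize f i = a
    fin_cases a <;> simp
  · obtain ⟨f, hf⟩ := exists_fib (α := Fin t) (fun k => t - r k)
      (by simp [Fin.sum_univ_three]; omega)
    refine ⟨fun k i => if f i = k then 0 else 1, 2, fun k i => by beta_reduce; split_ifs <;> omega,
      fun k => ?_, fun i => ?_, by omega⟩
    · have := hf k
      rw [card_filter] at this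
      have h3 : ∑ i : Fin t, ((if f i = k then 1 else 0) + (if f i = k then 0 else 1)) = t := by
        rw [sum_congr rfl (g := fun _ => 1) (fun i _ => by split_ifs <;> rfl)]
        simp
      rw [sum_add_distrib, this] at h3
      have := hr k
      beta_reduce
      omega
    · beta_reduce
      generalize f i = a
      fin_cases a <;> simp

lemma cap_aux {t a e1 e2 r1 r2 r3 b1 b2 b3 c : ℕ} (h : e1 * t + r1 + (e2 * t + r2) ≤ a * t)
    (h1 : r1 < t) (h2 : r2 < t) (h3 : r3 < t) (hb1 : b1 ≤ 1) (hb2 : b2 ≤ 1) (hb3 : b3 ≤ 1)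
    (hb : b1 + b2 + b3 = c) (hc : c * t = r1 + r2 + r3) (hz1 : r1 = 0 → b1 = 0)
    (hz2 : r2 = 0 → b2 = 0) : e1 + b1 + (e2 + b2) ≤ a := by
  by_contra hh
  have h4 : (a + 1) * t ≤ (e1 + b1 + (e2 + b2)) * t := Nat.mul_le_mul_right _ (by omega)
  have hc3 : c ≤ 3 := by omega
  interval_cases b1 <;> interval_cases b2 <;> interval_cases b3 <;> subst hb <;>
    simp only [add_mul, one_mul, zero_mul] at * <;> omega

theorem good_small {t m n s : ℕ} (ht : 0 < t) (h1 : m + n ≤ t) (h2 : n + s ≤ t) (h3 : m + s ≤ t)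
    (hq : t ∣ m * n + n * s + s * m) : Good t ![m, n, s] := by
  have : NeZero t := ⟨ht.ne'⟩
  obtain ⟨b, c, hb1, hb2, hb3, hb4⟩ := tri (t := t) ![n * s % t, m * s % t, m * n % t]
    (fun k => by fin_cases k <;> exact Nat.mod_lt _ ht) (by
      have e1 := Nat.div_add_mod (n * s) t
      have e2 := Nat.div_add_mod (m * s) t
      have e3 := Nat.div_add_mod (m * n) t
      have : t ∣ t * (n * s / t + m * s / t + m * n / t) +
          (n * s % t + m * s % t + m * n % t) := by
        convert hq using 1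
        rw [mul_comm s m]
        rw [mul_add, mul_add]
        omega
      exact (Nat.dvd_add_right (dvd_mul_right _ _)).1 this)
  have hz : ∀ k i, (![n * s % t, m * s % t, m * n % t] : Fin 3 → ℕ) k = 0 → b k i = 0 := by
    intro k i hk
    rw [← hb2, sum_eq_zero_iff] at hk
    exact hk i (mem_univ _)
  have := frame (X := Fin 3) (Λ := Unit) t id ![m, n, s] (fun _ => 1) (fun _ _ => False)
    (fun _ _ => ()) (fun x y i => if x < y then ![m, n, s] x * ![m, n, s] y / t + b (fc x y) i
      else 0) ?_ ?_ ?_ (by simp) (fun _ _ _ => False) (fun _ => 0) (by simp) (by simp)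
  · convert this using 2 with P
    simp
  · intro x y
    by_cases h : x < y
    · simp only [h, if_true, id, if_false, mul_one, sum_add_distrib, hb2, sum_const, card_univ,
        Fintype.card_fin, smul_eq_mul]
      fin_cases x <;> fin_cases y <;> simp at h ⊢ <;> exact Nat.div_add_mod _ _
    · simp [h]
  · intro x i
    have e1 := Nat.div_add_mod' (n * s) t
    have e2 := Nat.div_add_mod' (m * s) t
    have e3 := Nat.div_add_mod' (m * n) t
    have l1 := Nat.mod_lt (n * s) ht
    have l2 := Nat.mod_lt (m * s) ht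
    have l3 := Nat.mod_lt (m * n) ht
    have z0 := hz 0 i
    have z1 := hz 1 i
    have z2 := hz 2 i
    have b0 := hb1 0 i
    have b1 := hb1 1 i
    have b2 := hb1 2 i
    have hb := hb3 i
    simp only [Matrix.cons_val] at hb4 z0 z1 z2
    fin_cases x <;> simp [Fin.sum_univ_three]
    · exact cap_aux (b3 := b 0 i) (c := c) (by rw [e3, e2, ← mul_add]; gcongr) l3 l2 l1 b2 b1 b0
        (by omega) (by omega) z2 z1
    · exact cap_aux (b3 := b 1 i) (c := c)
        (by rw [e3, e1, mul_comm m n, ← mul_add]; gcongr) l3 l1 l2 b2 b0 b1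
        (by omega) (by omega) z2 z0
    · exact cap_aux (b3 := b 2 i) (c := c)
        (by rw [e2, e1, ← add_mul, mul_comm]; gcongr) l2 l1 l3 b1 b0 b2
        (by omega) (by omega) z1 z0
  · intro θ i j
    have hi := hb3 i
    have hj := hb3 j
    simp only [pty, if_false]
    split_ifs
    · simp [Fin.sum_univ_three]
      omega
    · simp

end Pool.Agent.Lib.MP_351560_co
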