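import Mathlib
import Pool.Agent.Lib.MP_351560_co.Mid
import Pool.Agent.Lib.MP_351560_co.Small

set_option autoImplicit false
set_option linter.unusedSimpArgs false
set_option linter.unusedVariables false

namespace Pool.Agent.Lib.MP_351560_co

open Finset

lemma exists_lab {X J T Λ : Type} [Fintype X] [Fintype J] [DecidableEq Λ] (ι : T → J → X)
    (hι : ∀ l, Function.Injective (ι l)) (g : T → J → Λ) (n0 : X → Λ) (cw : X → ℕ)
    (hcw : ∀ l j, cw (ι l j) = 1) (hn : ∀ l l' j, n0 (ι l j) = n0 (ι l' j))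
    (hg : ∀ z l l', ∑ j, (if g l j = z then 1 else 0) = ∑ j, (if g l' j = z then 1 else 0)) :
    ∃ lab : T → X → Λ, (∀ l j, lab l (ι l j) = g l j) ∧ (∀ l x, (∀ j, ι l j ≠ x) → lab l x = n0 x) ∧
      ∀ z l l', ∑ x, (if lab l x = z then cw x else 0) = ∑ x, (if lab l' x = z then cw x else 0) := by
  classical
  let lab : T → X → Λ := fun l x => if h : ∃ j, ι l j = x then g l h.choose else n0 x
  have h1 : ∀ l j, lab l (ι l j) = g l j := fun l j => by
    have h : ∃ j', ι l j' = ι l j := ⟨j, rfl⟩
    simp only [lab, dif_pos h]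
    rw [hι l h.choose_spec]
  have h2 : ∀ l x, (∀ j, ι l j ≠ x) → lab l x = n0 x := fun l x h => by
    have h' : ¬ ∃ j, ι l j = x := fun ⟨j, hj⟩ => h j hj
    simp only [lab, dif_neg h']
  refine ⟨lab, h1, h2, ?_⟩
  have key : ∀ z l, ∑ x, (if lab l x = z then cw x else 0) + ∑ j, (if n0 (ι l j) = z then 1 else 0)
      = ∑ x, (if n0 x = z then cw x else 0) + ∑ j, (if g l j = z then 1 else 0) := by
    intro z l
    have e : ∀ f : X → ℕ, ∑ x, f x = ∑ j, f (ι l j) + ∑ x ∈ (univ.image (ι l))ᶜ, f x := by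
      intro f
      rw [← sum_add_sum_compl (univ.image (ι l)), sum_image (fun a _ b _ h => hι l h)]
    rw [e, e (fun x => if n0 x = z then cw x else 0)]
    simp only [h1, hcw]
    rw [sum_congr rfl (g := fun x => if n0 x = z then cw x else 0) (s₁ := (univ.image (ι l))ᶜ)
      (fun x hx => by rw [h2 l x (by simpa using hx)])]
    omega
  intro z l l'
  have e1 := key z l
  have e2 := key z l'
  rw [hg z l l'] at e1
  simp only [hn l l'] at e1
  omega

lemma cover3 {t : ℕ} [NeZero t] (ht : 3 ≤ t) (q : Fin t → Fin t → Prop) (j : Fin t)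
    (hq : ∀ i d, q i d → d = 0 ∨ d = 1 ∨ d = 1 + 1)
    (h : (q j 0 ∧ ¬ q (j - 1) 1 ∧ ¬ q (j - 1 - 1) (1 + 1)) ∨
      (¬ q j 0 ∧ q (j - 1) 1 ∧ ¬ q (j - 1 - 1) (1 + 1)) ∨
      (¬ q j 0 ∧ ¬ q (j - 1) 1 ∧ q (j - 1 - 1) (1 + 1))) : ∃! i, q i (j - i) := by
  have e0 : j - j = 0 := sub_self j
  have e1 : j - (j - 1) = 1 := by abel
  have e2 : j - (j - 1 - 1) = 1 + 1 := by abel
  have key : ∀ i, q i (j - i) → (i = j ∧ q j 0) ∨ (i = j - 1 ∧ q (j - 1) 1) ∨
      (i = j - 1 - 1 ∧ q (j - 1 - 1) (1 + 1)) := by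
    intro i hi
    rcases hq _ _ hi with h | h | h
    · obtain rfl : i = j := by rw [sub_eq_zero] at h; exact h.symm
      exact .inl ⟨rfl, by rwa [e0] at hi⟩
    · obtain rfl : i = j - 1 := by rw [← h]; abel
      exact .inr (.inl ⟨rfl, by rwa [e1] at hi⟩)
    · obtain rfl : i = j - 1 - 1 := by rw [sub_sub, ← h]; abel
      exact .inr (.inr ⟨rfl, by rwa [e2] at hi⟩)
  rcases h with h | h | h
  · exact ⟨j, by simpa only [e0] using h.1, fun i hi => by have := key i hi; tauto⟩
  · exact ⟨j - 1, by simpa only [e1] using h.2.1, fun i hi => by have := key i hi; tauto⟩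
  · exact ⟨j - 1 - 1, by simpa only [e2] using h.2.2, fun i hi => by have := key i hi; tauto⟩

lemma val_succ {t : ℕ} [NeZero t] (ht : 2 ≤ t) (l : Fin t) :
    (l + 1).val = if l.val + 1 = t then 0 else l.val + 1 := by
  rw [Fin.val_add, Fin.val_one', Nat.mod_eq_of_lt (show 1 < t by omega)]
  split_ifs with h
  · rw [h, Nat.mod_self]
  · exact Nat.mod_eq_of_lt (by have := l.2; omega)

lemma fin_consts {t : ℕ} [NeZero t] (ht : 3 ≤ t) :
    (0 : Fin t) ≠ 1 ∧ (0 : Fin t) ≠ 1 + 1 ∧ (1 : Fin t) ≠ 1 + 1 := by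
  have e1 : (1 : Fin t).val = 1 := by rw [Fin.val_one', Nat.mod_eq_of_lt (by omega)]
  have e2 : (1 + 1 : Fin t).val = 2 := by rw [val_succ (by omega), e1, if_neg (by omega)]
  simp only [ne_eq, Fin.ext_iff, e1, e2, Fin.val_zero]
  omega

lemma card_div_eq {t U : ℕ} (hU : 0 < U) (a : ℕ) :
    (univ.filter fun l : Fin t => l.val / U = a).card ≤ U := by
  refine le_trans (card_le_card_of_injOn (fun l => l.val % U) (t := range U) ?_ ?_) (by simp)
  · exact fun l _ => by simpa using Nat.mod_lt _ hU
  · intro l hl l' hl' h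
    simp only [coe_filter, mem_univ, true_and, Set.mem_ofPred_eq] at hl hl' h
    apply Fin.ext
    rw [← Nat.div_add_mod l.val U, ← Nat.div_add_mod l'.val U, hl, hl', h]

lemma card_mod_eq {t U : ℕ} (a : ℕ) :
    (univ.filter fun l : Fin t => l.val % U = a).card ≤ t / U + 1 := by
  refine le_trans (card_le_card_of_injOn (fun l => l.val / U) (t := range (t / U + 1)) ?_ ?_)
    (by simp)
  · exact fun l _ => by simpa using Nat.lt_succ_of_le (Nat.div_le_div_right l.2.le)
  · intro l hl l' hl' h
    simp only [coe_filter, mem_univ, true_and, Set.mem_ofPred_eq] at hl hl' h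
    apply Fin.ext
    rw [← Nat.div_add_mod l.val U, ← Nat.div_add_mod l'.val U, hl, hl', h]

lemma card_shift {t : ℕ} [NeZero t] (q : Fin t → Prop) [DecidablePred q] (d : Fin t) :
    (univ.filter fun l => q (l + d)).card = (univ.filter q).card :=
  card_bijective (fun l => l + d) (Equiv.addRight d).bijective (by simp)

/-- Rotating index with rare repetitions; values at cyclic distance one or two differ. -/
def rot (U t l : ℕ) : ℕ := if l + 2 < t then l % U else U + (t - l) - 1

lemma rot_lt {U t l : ℕ} (hU : 0 < U) (hl : l < t) : rot U t l < U + 2 := by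
  have := Nat.mod_lt l hU
  unfold rot
  split_ifs <;> omega

lemma mod_succ' {U : ℕ} (hU : 0 < U) (l : ℕ) :
    (l + 1) % U = if l % U + 1 = U then 0 else l % U + 1 := by
  have := Nat.mod_lt l hU
  rw [← Nat.mod_add_mod]
  split_ifs with h
  · rw [h, Nat.mod_self]
  · exact Nat.mod_eq_of_lt (by omega)

lemma rot_ne {U t : ℕ} [NeZero t] (hU : 3 ≤ U) (ht : 5 ≤ t) (l : Fin t) :
    rot U t l.val ≠ rot U t (l + 1).val ∧ rot U t l.val ≠ rot U t (l + 1 + 1).val := by
  have h0 : 0 < U := by omega
  have e1 := mod_succ' h0 l.val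
  have e2 := mod_succ' h0 (l.val + 1)
  have e3 := Nat.mod_lt l.val h0
  have e4 : 1 % U = 1 := Nat.mod_eq_of_lt (by omega)
  have := l.2
  have a := val_succ (show 2 ≤ t by omega) l
  have b := val_succ (show 2 ≤ t by omega) (l + 1)
  generalize (l + 1 + 1).val = z at *
  generalize (l + 1).val = y at *
  generalize l.val = x at *
  by_cases h1 : x + 1 = t
  · obtain rfl : y = 0 := by simpa [h1] using a
    obtain rfl : z = 1 := by rw [b, if_neg (by omega)]
    unfold rot
    rw [if_neg (by omega), if_pos (by omega), if_pos (by omega), e4, Nat.zero_mod]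
    omega
  · obtain rfl : y = x + 1 := by simpa [h1] using a
    by_cases h2 : x + 1 + 1 = t
    · obtain rfl : z = 0 := by simpa [h2] using b
      unfold rot
      rw [if_neg (by omega), if_neg (by omega), if_pos (by omega), Nat.zero_mod]
      omega
    · obtain rfl : z = x + 1 + 1 := by simpa [h2] using b
      unfold rot
      constructor <;> split_ifs at * <;> omega

lemma card_rot {U t : ℕ} (a : ℕ) :
    (univ.filter fun l : Fin t => rot U t l.val = a).card ≤ t / U + 3 := by
  refine le_trans (card_le_card (t := (univ.filter fun l : Fin t => l.val % U = a) ∪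
    univ.filter fun l : Fin t => t ≤ l.val + 2) ?_) ((card_union_le _ _).trans ?_)
  · intro l hl
    have hl' := (mem_filter.1 hl).2
    simp only [mem_filter, mem_univ, true_and, mem_union]
    unfold rot at hl'
    split_ifs at hl' <;> omega
  · have e1 := card_mod_eq (t := t) (U := U) a
    have e2 : (univ.filter fun l : Fin t => t ≤ l.val + 2).card ≤ 2 := by
      refine le_trans (card_le_card_of_injOn (fun l => t - 1 - l.val) (t := range 2) ?_ ?_)
        (by simp)
      · intro l hl
        simp only [coe_filter, mem_univ, true_and, Set.mem_ofPred_eq, coe_range,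
          Set.mem_Iio] at hl ⊢
        omega
      · intro l _ l' _ h
        have := l.2
        have := l'.2
        exact Fin.ext (by simp only at h; omega)
    omega

end Pool.Agent.Lib.MP_351560_co
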