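import Mathlib
import Pool.Agent.Lib.MP_351560_co.Slot

set_option autoImplicit false
set_option linter.unusedSimpArgs false
set_option linter.unusedVariables false

namespace Pool.Agent.Lib.MP_351560_co

open Finset

lemma sum_pair {K X : Type} [Fintype X] [DecidableEq X] (S : Finset K) (xa ya : K → X)
    (f : X → X → ℕ) : ∑ x, ∑ y, (S.filter fun k => xa k = x ∧ ya k = y).card * f x y =
      ∑ k ∈ S, f (xa k) (ya k) := by
  simp only [card_filter, sum_mul]
  rw [sum_congr rfl fun x _ => sum_comm, sum_comm]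
  refine sum_congr rfl fun k _ => ?_
  simp [ite_and]

theorem mid2 {Λ K : Type} [DecidableEq Λ] (t : ℕ) [NeZero t] (w U R φ Δ : ℕ)
    (nr sp : Fin 3 → Bool → ℕ) (hR : ∀ P b, sp P b ≤ R) (hw : 1 ≤ w) (hU : 0 < U)
    (nl : Fin 3 → Λ) (lab : Fin t → Cl R → Λ) (act : Fin 3 → Prop)
    (S : Finset K) (xa ya : K → Cl R) (τ : K → Fin t)
    (hnl : ∀ i P b, lab i (P, b, none) = nl P)
    (hlt : ∀ k ∈ S, (xa k).1 < (ya k).1)
    (hNa : ∀ x y, (S.filter fun k => xa k = x ∧ ya k = y).card ≤ ccnt nr sp x * ccnt nr sp y)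
    (hNb : ∀ x y, x.1 < y.1 → ¬ (act x.1 ∧ act y.1) →
      (S.filter fun k => xa k = x ∧ ya k = y).card = ccnt nr sp x * ccnt nr sp y)
    (hNc : ∀ k ∈ S, (xa k).2.2 = none → (ya k).2.2 ≠ none)
    (hNd : ∀ k ∈ S, act (xa k).1 → act (ya k).1 → (xa k).2.2 ≠ none → (ya k).2.2 ≠ none →
      (xa k).2.1 = false ∧ (ya k).2.1 = false)
    (hcn : ∀ P b i, 4 * (S.filter fun k => τ k = i ∧
      (xa k = (P, b, none) ∨ ya k = (P, b, none))).card ≤ nr P b)
    (hcs : ∀ P b a i, (S.filter fun k => τ k = i ∧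
      (xa k = (P, b, some a) ∨ ya k = (P, b, some a))).card ≤ 1)
    (hbusy : ∀ P b a, act P → (univ.filter fun i => lab i (P, b, some a) ≠ nl P ∨
      ∃ k ∈ S, τ k = i ∧ (xa k = (P, b, some a) ∨ ya k = (P, b, some a))).card ≤ φ)
    (hcen : ∀ θ i j, (S.filter fun k => τ k = i ∧
        ((bw w (xa k).2.1, lab i (xa k)), (bw w (ya k).2.1, lab i (ya k))) = θ).card =
      (S.filter fun k => τ k = j ∧
        ((bw w (xa k).2.1, lab j (xa k)), (bw w (ya k).2.1, lab j (ya k))) = θ).card)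
    (hlab : ∀ l i j, ∑ x, (if lab i x = l then ccnt nr sp x * bw w x.2.1 else 0) =
      ∑ x, (if lab j x = l then ccnt nr sp x * bw w x.2.1 else 0))
    (hdiv : ∀ P Q, P < Q → act P → act Q →
      (∑ b, (nr P b + sp P b) * bw w b) * (∑ b, (nr Q b + sp Q b) * bw w b) ≡
      ∑ k ∈ S, (if (xa k).1 = P ∧ (ya k).1 = Q then bw w (xa k).2.1 * bw w (ya k).2.1 else 0)
        [MOD t])
    (hshare : ∀ P Q b b', P < Q → act P → act Q → (nr P b + sp P b) * (nr Q b' + sp Q b') +
      (if b = false ∧ b' = false then 3 * (w * w) * t else 0) ≤ 2 * (nr P b * nr Q b'))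
    (hspl : ∀ P Q b b', P < Q → act P → act Q → (b = true ∨ b' = true) →
      (nr P b + sp P b) * (nr Q b' + sp Q b') ≠ 0 → U ≤ sp Q b' ∧ t ≤ U * sp P b)
    (hnr : ∀ P b, nr P b ≠ 1)
    (hΔ : ∑ Q, ∑ b, (nr Q b + sp Q b) + w * w * (6 * U + 6 * (t / U + 1)) ≤ Δ)
    (hΔt : 16 * Δ ≤ t) (hφ : 16 * φ < t)
    (σ : Λ → Fin 3 → Fin t → Prop) (mult : Fin 3 → ℕ)
    (h0 : ∀ P, mult P ≠ 0 → ∀ i x d, ccnt nr sp x ≠ 0 → x.1 = P → ¬ σ (lab i x) P d)
    (h1 : ∀ P, mult P ≠ 0 → ∀ x j, ccnt nr sp x ≠ 0 → x.1 ≠ P → ∃! i, σ (lab i x) P (j - i)) :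
    Good t fun P => ∑ b, (nr P b + sp P b) * bw w b + mult P * t := by
  classical
  let N0 : Cl R → Cl R → Fin t → ℕ := fun x y i =>
    ((S.filter fun k => τ k = i).filter fun k => xa k = x ∧ ya k = y).card
  have e1 : ∀ x y, ∑ i, N0 x y i = (S.filter fun k => xa k = x ∧ ya k = y).card := by
    intro x y
    rw [card_eq_sum_card_fiberwise (f := τ) (t := univ) (fun _ _ => by simp)]
    refine sum_congr rfl fun i _ => ?_
    simp only [N0, filter_filter, and_comm]
  have e2 : ∀ x i, ∑ y, (N0 x y i + N0 y x i) =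
      (S.filter fun k => τ k = i ∧ (xa k = x ∨ ya k = x)).card := by
    intro x i
    have : (S.filter fun k => τ k = i ∧ (xa k = x ∨ ya k = x)) =
        (S.filter fun k => τ k = i ∧ xa k = x) ∪ (S.filter fun k => τ k = i ∧ ya k = x) := by
      ext k
      simp only [mem_filter, mem_union]
      tauto
    rw [this, card_union_of_disjoint, sum_add_distrib,
      card_eq_sum_card_fiberwise (f := ya) (t := univ) (fun _ _ => by simp),
      card_eq_sum_card_fiberwise (f := xa) (t := univ) (s := S.filter fun k => τ k = i ∧ ya k = x)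
        (fun _ _ => by simp)]
    · simp only [N0, filter_filter, and_assoc, and_comm, and_left_comm]
    · rw [disjoint_filter]
      intro k hk h h'
      have := hlt k hk
      rw [h.2, h'.2] at this
      exact lt_irrefl _ this
  have e3 : ∀ x y i, (∀ k ∈ S, ¬ (xa k = x ∧ ya k = y)) → N0 x y i = 0 := by
    intro x y i h
    simp only [N0]
    rw [card_eq_zero, filter_eq_empty_iff]
    exact fun k hk => h k (mem_filter.1 hk).1
  refine mid t w U R φ Δ nr sp hR hw hU nl lab act N0 hnl ?_ ?_ ?_ ?_ ?_ ?_ ?_ ?_ hlab ?_ hshare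
    hspl hnr hΔ hΔt hφ σ mult h0 h1
  · intro x y
    rw [e1]
    split_ifs with h
    · exact hNa x y
    · rw [Nat.le_zero, card_eq_zero, filter_eq_empty_iff]
      rintro k hk ⟨rfl, rfl⟩
      exact h (hlt k hk)
  · intro x y h h'
    rw [e1, hNb x y h h']
  · intro x y i h h'
    refine e3 _ _ _ ?_
    rintro k hk ⟨rfl, rfl⟩
    exact hNc k hk h h'
  · intro x y i a1 a2 a3 a4 a5
    refine e3 _ _ _ ?_
    rintro k hk ⟨rfl, rfl⟩
    have := hNd k hk a1 a2 a3 a4
    simp [this.1, this.2] at a5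
  · intro P b i
    rw [e2]
    exact hcn P b i
  · rintro ⟨P, b, _ | a⟩ i
    · rw [e2]
      have := hcn P b i
      simp only [ccnt]
      omega
    · rw [e2]
      by_cases h : ccnt nr sp (P, b, some a) = 0
      · rw [h, Nat.le_zero, card_eq_zero, filter_eq_empty_iff]
        rintro k hk ⟨-, h' | h'⟩
        · have := hNa (xa k) (ya k)
          rw [h', h, zero_mul, Nat.le_zero, card_eq_zero, filter_eq_empty_iff] at this
          exact this hk ⟨h', rfl⟩
        · have := hNa (xa k) (ya k)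
          rw [h', h, mul_zero, Nat.le_zero, card_eq_zero, filter_eq_empty_iff] at this
          exact this hk ⟨rfl, h'⟩
      · have := hcs P b a i
        omega
  · intro P b a h
    refine le_trans (card_le_card fun i hi => ?_) (hbusy P b a h)
    simp only [mem_filter, mem_univ, true_and] at hi ⊢
    refine hi.imp id fun hi => ?_
    rw [e2] at hi
    obtain ⟨k, hk⟩ := card_ne_zero.1 hi
    exact ⟨k, mem_filter.1 hk⟩
  · have key : ∀ θ i, ∑ x, ∑ y, (if ((bw w x.2.1, lab i x), (bw w y.2.1, lab i y)) = θ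
        then N0 x y i else 0) = (S.filter fun k => τ k = i ∧
        ((bw w (xa k).2.1, lab i (xa k)), (bw w (ya k).2.1, lab i (ya k))) = θ).card := by
      intro θ i
      rw [← filter_filter, card_filter, ← sum_pair _ xa ya
        (fun x y => if ((bw w x.2.1, lab i x), (bw w y.2.1, lab i y)) = θ then 1 else 0)]
      simp [N0]
    intro θ i j
    rw [key, key, hcen θ i j]
  · intro P Q h a1 a2
    convert hdiv P Q h a1 a2 using 1
    rw [← sum_pair S xa ya
      (fun x y => if x.1 = P ∧ y.1 = Q then bw w x.2.1 * bw w y.2.1 else 0)]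
    simp only [e1, sum_mul]
    rw [sum_congr rfl fun b _ => sum_comm, ← sum_part (fun x => ∑ b', ∑ o',
      (S.filter fun k => xa k = x ∧ ya k = (Q, b', o')).card * (bw w x.2.1 * bw w b'))]
    refine sum_congr rfl fun x _ => ?_
    rw [← sum_part (fun y =>
      (S.filter fun k => xa k = x ∧ ya k = y).card * (bw w x.2.1 * bw w y.2.1))]
    by_cases hx : x.1 = P <;> simp [hx]

end Pool.Agent.Lib.MP_351560_co
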