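import Mathlib
import Pool.Agent.Lib.MP_351560_co.Pre

set_option autoImplicit false
set_option linter.unusedSimpArgs false
set_option linter.unusedVariables false

namespace Pool.Agent.Lib.MP_351560_co

open Finset

lemma exists_ent (t U : ℕ) [NeZero t] (hU : 3 ≤ U) (ht : U + 5 ≤ t) :
    ∃ ent : Fin 3 → Fin 3 → Fin t → ℕ,
      (∀ P Q l, ent P Q l < if P = 2 then 2 * U + 4 else 4 * (t / U) + 2 * U + 4) ∧
      (∀ P Q Q' l l', P ≠ Q → P ≠ Q' → ent P Q l = ent P Q' l' → Q = Q') ∧
      (∀ P Q l, ent P Q l ≠ ent P Q (l + 1)) ∧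
      (∀ P Q a, (univ.filter fun l => ent P Q l = a).card ≤ U + t / U + 3) ∧
      ∀ P Q l l', P < Q → ent P Q l = ent P Q l' → ent Q P l = ent Q P l' → l = l' := by
  have h0 : 0 < U := by omega
  refine ⟨fun P Q l => 2 * (if P < Q then 2 * (l.val / U) + l.val % 2 else rot U t l.val) +
    (if Q = P + 1 then 0 else 1), ?_, ?_, ?_, ?_, ?_⟩
  · intro P Q l
    have e1 := rot_lt (U := U) h0 l.2
    have e2 : l.val / U ≤ t / U := Nat.div_le_div_right l.2.le
    have e3 : P = 2 → ¬ P < Q := by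
      rintro rfl
      exact not_lt.2 (Fin.le_last Q)
    beta_reduce
    split_ifs <;> omega
  · intro P Q Q' l l' h h' e
    have : (Q = P + 1 ↔ Q' = P + 1) := by
      beta_reduce at e
      generalize (if P < Q then 2 * (l.val / U) + l.val % 2 else rot U t l.val) = a at e
      generalize (if P < Q' then 2 * (l'.val / U) + l'.val % 2 else rot U t l'.val) = a' at e
      split_ifs at e <;> omega
    clear e
    revert P Q Q'
    decide
  · intro P Q l
    have e1 := (rot_ne hU (show 5 ≤ t by omega) l).1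
    have e2 := val_succ (show 2 ≤ t by omega) l
    beta_reduce
    by_cases h : P < Q
    · simp only [h, if_true]
      split_ifs at e2 with h'
      · have : 0 < l.val / U := Nat.div_pos (by omega) h0
        rw [e2, Nat.zero_div]
        omega
      · omega
    · simp only [h, if_false]
      omega
  · intro P Q a
    by_cases h : P < Q
    · refine le_trans (card_le_card fun l hl => ?_) ((card_div_eq (t := t) h0 (a / 4)).trans
        (by generalize t / U = z; omega))
      have := (mem_filter.1 hl).2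
      simp only [h, if_true] at this
      simp only [mem_filter, mem_univ, true_and]
      split_ifs at this <;> omega
    · refine le_trans (card_le_card fun l hl => ?_) ((card_rot (t := t) (U := U) (a / 2)).trans
        (by omega))
      have := (mem_filter.1 hl).2
      simp only [h, if_false] at this
      simp only [mem_filter, mem_univ, true_and]
      split_ifs at this <;> omega
  · intro P Q l l' h e1 e2
    simp only [h, if_true, lt_asymm h, if_false] at e1 e2
    have e3 : l.val / U = l'.val / U := by omega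
    have e4 : rot U t l.val = rot U t l'.val := by omega
    have a1 := Nat.div_add_mod l.val U
    have a2 := Nat.div_add_mod l'.val U
    have a3 := Nat.mod_lt l.val h0
    have a4 := Nat.mod_lt l'.val h0
    have := l.2
    have := l'.2
    rw [e3] at a1
    unfold rot at e4
    apply Fin.ext
    split_ifs at e4 <;> omega

theorem caseI (t : ℕ) [NeZero t] (w U Δ : ℕ) (nr sp : Fin 3 → Bool → ℕ) (hw : 1 ≤ w)
    (hU : 3 ≤ U) (ht : U + 5 ≤ t)
    (hsp : ∀ P, (if P = 2 then 2 * U + 4 else 4 * (t / U) + 2 * U + 4) ≤ sp P false)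
    (hshare : ∀ P Q b b', P < Q → (nr P b + sp P b) * (nr Q b' + sp Q b') +
      (if b = false ∧ b' = false then 3 * (w * w) * t else 0) ≤ 2 * (nr P b * nr Q b'))
    (hspl : ∀ P Q b b', P < Q → (b = true ∨ b' = true) →
      (nr P b + sp P b) * (nr Q b' + sp Q b') ≠ 0 → U ≤ sp Q b' ∧ t ≤ U * sp P b)
    (hnr : ∀ P b, nr P b ≠ 1)
    (hΔ : ∑ Q, ∑ b, (nr Q b + sp Q b) + w * w * (6 * U + 6 * (t / U + 1)) ≤ Δ)
    (hΔt : 16 * Δ ≤ t) (hφ : 16 * (6 * (U + t / U + 3)) < t) (mult z : Fin 3 → ℕ)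
    (hz : ∀ P, z P = ∑ b, (nr P b + sp P b) * bw w b)
    (hq : t ∣ z 0 * z 1 + z 1 * z 2 + z 2 * z 0) : Good t fun P => z P + mult P * t := by
  classical
  have ht0 : 0 < t := by omega
  obtain ⟨ent, a1, a2, a3, a4, a5⟩ := exists_ent t U hU ht
  let R := ∑ P, ∑ b, sp P b
  have hR : ∀ P b, sp P b ≤ R := fun P b =>
    (single_le_sum (f := fun b => sp P b) (fun _ _ => Nat.zero_le _) (mem_univ b)).trans
      (single_le_sum (f := fun P => ∑ b, sp P b) (fun _ _ => Nat.zero_le _) (mem_univ P))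
  have a1' : ∀ P Q l, ent P Q l < sp P false := fun P Q l => (a1 P Q l).trans_le (hsp P)
  let E : Fin 3 → Fin 3 → Fin t → Cl R := fun P Q l =>
    (P, false, some ⟨ent P Q l, (a1' P Q l).trans_le (hR _ _)⟩)
  have hE : ∀ P Q l P' Q' l', E P Q l = E P' Q' l' ↔ P = P' ∧ ent P Q l = ent P' Q' l' := by
    intro P Q l P' Q' l'
    simp [E]
  have hEc : ∀ P Q l, ccnt nr sp (E P Q l) = 1 := fun P Q l => by simp [E, ccnt, a1']
  let J := {z : Fin 3 × Fin 3 // z.1 ≠ z.2} × Bool
  let ι : Fin t → J → Cl R := fun l j => E j.1.1.1 j.1.1.2 (if j.2 then l + 1 else l)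
  obtain ⟨lab, l1, l2, l3⟩ := exists_lab (Λ := Option (Fin 3 × Bool)) ι (by
      rintro l ⟨⟨⟨P, Q⟩, h⟩, d⟩ ⟨⟨⟨P', Q'⟩, h'⟩, d'⟩ e
      obtain ⟨rfl, e⟩ := (hE _ _ _ _ _ _).1 e
      obtain rfl := a2 _ _ _ _ _ h h' e
      have := a3 P Q l
      cases d <;> cases d'
      exacts [rfl, absurd e this, absurd e.symm this, rfl])
    (fun l j => if j.2 then some (j.1.1.1, true) else none) (fun x => some (x.1, false))
    (fun x => ccnt nr sp x * bw w x.2.1) (fun l j => by simp only [ι, hEc]; simp [E])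
    (fun l l' j => rfl) (fun _ _ _ => rfl)
  have l4 : ∀ P Q l, P ≠ Q → lab l (E P Q l) = none := fun P Q l h => l1 l (⟨(P, Q), h⟩, false)
  have l5 : ∀ P Q l, P ≠ Q → lab l (E P Q (l + 1)) = some (P, true) :=
    fun P Q l h => l1 l (⟨(P, Q), h⟩, true)
  have l6 : ∀ l x, lab l x = some (x.1, false) ∨ (∃ Q, x.1 ≠ Q ∧ x = E x.1 Q l) ∨
      (∃ Q, x.1 ≠ Q ∧ x = E x.1 Q (l + 1)) := by
    intro l x
    by_cases h : ∃ j, ι l j = x
    · obtain ⟨⟨⟨⟨P, Q⟩, h⟩, _ | _⟩, rfl⟩ := h
      · exact .inr (.inl ⟨Q, h, rfl⟩)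
      · exact .inr (.inr ⟨Q, h, rfl⟩)
    · exact .inl (l2 l x fun j hj => h ⟨j, hj⟩)
  have l7 : ∀ l x, lab l x = some (x.1, false) ∨ lab l x = none ∨ lab l x = some (x.1, true) := by
    intro l x
    rcases l6 l x with h | ⟨Q, h, e⟩ | ⟨Q, h, e⟩
    · exact .inl h
    · exact .inr (.inl (by rw [e]; exact l4 _ _ _ h))
    · exact .inr (.inr (by rw [e]; exact l5 _ _ _ h))
  have l8 : ∀ l x, lab l x = some (x.1, true) ↔ lab (l + 1) x = none := by
    intro l x
    constructor
    · intro h'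
      rcases l6 l x with h | ⟨Q, h, e⟩ | ⟨Q, h, e⟩
      · simp [h] at h'
      · rw [e, l4 _ _ _ h] at h'
        simp at h'
      · rw [e]
        exact l4 _ _ _ h
    · intro h'
      rcases l6 (l + 1) x with h | ⟨Q, h, e⟩ | ⟨Q, h, e⟩
      · simp [h] at h'
      · rw [e]
        exact l5 _ _ _ h
      · rw [e, l5 _ _ _ h] at h'
        simp at h'
  obtain ⟨b, c, hb1, hb2, hb3, -⟩ := tri (t := t) ![z 1 * z 2 % t, z 0 * z 2 % t, z 0 * z 1 % t]
    (fun k => by fin_cases k <;> exact Nat.mod_lt _ ht0) (by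
      simp only [Matrix.cons_val]
      rw [← Nat.modEq_zero_iff_dvd] at hq ⊢
      refine Nat.ModEq.trans ?_ hq
      rw [show z 0 * z 1 + z 1 * z 2 + z 2 * z 0 = z 1 * z 2 + z 0 * z 2 + z 0 * z 1 by ring]
      gcongr <;> exact Nat.mod_modEq _ _)
  let lo : Fin 3 → Fin 3 := ![1, 0, 0]
  let hi : Fin 3 → Fin 3 := ![2, 2, 1]
  have f1 : ∀ k, lo k < hi k := by decide
  have f2 : ∀ k k', lo k = lo k' → hi k = hi k' → k = k' := by decide
  let S : Finset (Fin 3 × Fin t) := univ.filter fun k => b k.1 k.2 = 1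
  have hS : ∀ k i, (if (k, i) ∈ S then 1 else 0) = b k i := by
    intro k i
    have := hb1 k i
    simp only [S, mem_filter, mem_univ, true_and]
    split_ifs <;> omega
  have := mid2 t w U R (6 * (U + t / U + 3)) Δ nr sp hR hw (by omega) (fun P => some (P, false))
    lab (fun _ => True) S (fun k => E (lo k.1) (hi k.1) k.2) (fun k => E (hi k.1) (lo k.1) k.2)
    (fun k => k.2) ?_ (fun k _ => f1 k.1) ?_ (by simp) (by simp [E]) (by simp [E]) (by simp [E]) ?_
    ?_ ?_ l3 ?_ (fun P Q b b' h _ _ => hshare P Q b b' h) (fun P Q b b' h _ _ => hspl P Q b b' h)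
    hnr hΔ hΔt hφ (fun l Q d => ∃ P b, l = some (P, b) ∧ Q ≠ P ∧ (d = 0 ∨ (b = true ∧ d = 1)))
    mult ?_ ?_
  · simpa only [hz] using this
  · intro i P b
    exact l2 _ _ (by simp [ι, E])
  · intro x y
    rcases eq_empty_or_nonempty (S.filter fun k =>
      E (lo k.1) (hi k.1) k.2 = x ∧ E (hi k.1) (lo k.1) k.2 = y) with h | ⟨k, hk⟩
    · simp [h]
    · obtain ⟨-, rfl, rfl⟩ := mem_filter.1 hk
      rw [hEc, hEc]
      refine card_le_one.2 ?_
      suffices ∀ k' ∈ S.filter fun k' => E (lo k'.1) (hi k'.1) k'.2 = E (lo k.1) (hi k.1) k.2 ∧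
          E (hi k'.1) (lo k'.1) k'.2 = E (hi k.1) (lo k.1) k.2, k' = k from
        fun a ha a' ha' => (this a ha).trans (this a' ha').symm
      rintro ⟨k', l'⟩ hk'
      obtain ⟨k, l⟩ := k
      obtain ⟨-, e1, e2⟩ := mem_filter.1 hk'
      rw [hE] at e1 e2
      obtain rfl : k' = k := f2 _ _ e1.1 e2.1
      obtain rfl : l' = l := a5 _ _ _ _ (f1 _) e1.2 e2.2
      rfl
  · intro P b' a i
    refine card_le_one.2 ?_
    rintro ⟨k, l⟩ hk ⟨k', l'⟩ hk'
    obtain ⟨-, rfl, e⟩ := mem_filter.1 hk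
    obtain ⟨-, rfl, e'⟩ := mem_filter.1 hk'
    have f3 : ∀ P Q P' Q', P ≠ Q → P' ≠ Q' → E P Q l' = E P' Q' l' → P = P' ∧ Q = Q' := by
      intro P Q P' Q' h h' e
      obtain ⟨rfl, e⟩ := (hE _ _ _ _ _ _).1 e
      exact ⟨rfl, a2 _ _ _ _ _ h h' e⟩
    have g1 := f1 k
    have g2 := f1 k'
    obtain rfl : k = k' := by
      rcases e with e | e <;> rcases e' with e' | e'
      · have := f3 _ _ _ _ g1.ne g2.ne (e.trans e'.symm)
        exact f2 _ _ this.1 this.2
      · have := f3 _ _ _ _ g1.ne g2.ne' (e.trans e'.symm)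
        rw [this.1, this.2] at g1
        exact absurd g1 (lt_asymm g2)
      · have := f3 _ _ _ _ g1.ne' g2.ne (e.trans e'.symm)
        rw [this.1, this.2] at g1
        exact absurd g1 (lt_asymm g2)
      · have := f3 _ _ _ _ g1.ne' g2.ne' (e.trans e'.symm)
        exact f2 _ _ this.2 this.1
    rfl
  · intro P b' a _
    refine le_trans (card_le_card (t := univ.biUnion fun Q : Fin 3 =>
      (univ.filter fun l => ent P Q l = a.val) ∪ (univ.filter fun l => ent P Q (l + 1) = a.val))
      fun i hi => ?_) (card_biUnion_le.trans ?_)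
    · simp only [mem_biUnion, mem_univ, true_and, mem_union, mem_filter]
      have f3 : ∀ P' Q l, E P' Q l = (P, b', some a) → ent P Q l = a.val := by
        intro P' Q l e
        simp only [E, Prod.mk.injEq, Option.some.injEq] at e
        obtain ⟨rfl, -, rfl⟩ := e
        rfl
      rcases (mem_filter.1 hi).2 with h | ⟨k, -, rfl, h | h⟩
      · rcases l6 i (P, b', some a) with h' | ⟨Q, -, e⟩ | ⟨Q, -, e⟩
        · exact absurd h' h
        · exact ⟨Q, .inl (f3 _ _ _ e.symm)⟩
        · exact ⟨Q, .inr (f3 _ _ _ e.symm)⟩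
      · exact ⟨_, .inl (f3 _ _ _ h)⟩
      · exact ⟨_, .inl (f3 _ _ _ h)⟩
    · refine (sum_le_card_nsmul _ _ (2 * (U + t / U + 3)) fun Q _ => ?_).trans (by simp; omega)
      refine (card_union_le _ _).trans ?_
      rw [card_shift (fun l => ent P Q l = a.val)]
      have := a4 P Q a.val
      omega
  · have key : ∀ θ i, (S.filter fun k => k.2 = i ∧
        ((bw w (E (lo k.1) (hi k.1) k.2).2.1, lab i (E (lo k.1) (hi k.1) k.2)),
          (bw w (E (hi k.1) (lo k.1) k.2).2.1, lab i (E (hi k.1) (lo k.1) k.2))) = θ).card =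
        if ((1, none), (1, none)) = θ then c else 0 := by
      intro θ i
      rw [filter_congr (q := fun k => k.2 = i ∧ ((1, none), (1, none)) = θ) (by
        rintro ⟨k, l⟩ _
        refine and_congr_right ?_
        rintro rfl
        rw [l4 _ _ _ (f1 k).ne, l4 _ _ _ (f1 k).ne']
        rfl)]
      split_ifs with h
      · simp only [h, and_true]
        rw [← hb3 i, ← hS, ← hS, ← hS, card_filter, ← univ_inter S, ← sum_ite_mem,
          Fintype.sum_prod_type, Fin.sum_univ_three]
        have : ∀ k, ∑ y : Fin t, (if (k, y) ∈ S then if (k, y).2 = i then 1 else 0 else 0) =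
            if (k, i) ∈ S then 1 else 0 := by
          intro k
          rw [sum_eq_single i] <;> simp +contextual
        simp only [this, univ_inter]
      · simp [h]
    intro θ i j
    rw [key, key]
  · intro P Q h _ _
    rw [← hz, ← hz, ← univ_inter S, ← sum_ite_mem, Fintype.sum_prod_type]
    have : ∀ k, ∑ y : Fin t, (if (k, y) ∈ S then
        if (E (lo (k, y).1) (hi (k, y).1) (k, y).2).1 = P ∧
          (E (hi (k, y).1) (lo (k, y).1) (k, y).2).1 = Q then
          bw w (E (lo (k, y).1) (hi (k, y).1) (k, y).2).2.1 *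
            bw w (E (hi (k, y).1) (lo (k, y).1) (k, y).2).2.1 else 0 else 0) =
        if lo k = P ∧ hi k = Q then ∑ y, b k y else 0 := by
      intro k
      simp only [E, ← hS, bw_false]
      split_ifs <;> simp
    simp only [this, hb2]
    fin_cases P <;> fin_cases Q <;> simp [Fin.sum_univ_three, lo, hi] at h ⊢ <;>
      exact (Nat.mod_modEq _ _).symm
  · rintro P _ i x d _ rfl ⟨P', b', h, h', -⟩
    rcases l7 i x with e | e | e <;> rw [e] at h <;> simp [h'] at h
  · intro P _ x j _ hx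
    obtain ⟨c1, c2, c3⟩ := fin_consts (t := t) (by omega)
    refine cover3 (by omega) (fun i d => ∃ P' b, lab i x = some (P', b) ∧ P ≠ P' ∧
      (d = 0 ∨ (b = true ∧ d = 1))) j (by rintro i d ⟨_, _, -, -, h⟩; tauto) ?_
    have e1 := l8 (j - 1) x
    rw [sub_add_cancel] at e1
    have hx' := hx.symm
    have e2 := l7 (j - 1) x
    have e3 := l7 j x
    generalize lab (j - 1 - 1) x = u at *
    generalize lab (j - 1) x = v at *
    generalize lab j x = y at *
    have c1' := c1.symm
    have c2' := c2.symm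
    have c3' := c3.symm
    rcases e3 with rfl | rfl | rfl <;> rcases e2 with rfl | rfl | rfl <;>
      simp [c1, c2, c3, c1', c2', c3', hx'] at e1 ⊢

end Pool.Agent.Lib.MP_351560_co
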