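import Mathlib
import Pool.Agent.Lib.MP_351560_co.Pre

set_option autoImplicit false
set_option linter.unusedSimpArgs false
set_option linter.unusedVariables false

namespace Pool.Agent.Lib.MP_351560_co

open Finset

lemma sched_c {X T : Type} [Fintype X] [DecidableEq X] [Fintype T] [DecidableEq T] [Nonempty T]
    (s : ℕ) (M : X → ℕ) (one : X → Prop) (F : X → Finset T) (hone : ∀ x, one x → M x ≤ 1)
    (h : ∀ x, M x ≠ 0 → (F x).card + ∑ x, M x + s < Fintype.card T) :
    ∃ it : Fin s → T → Option X, (∀ j x, (univ.filter fun l => it j l = some x).card = M x) ∧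
      (∀ j l x, it j l = some x → l ∉ F x) ∧
      ∀ j j' l x, one x → it j l = some x → it j' l = some x → j = j' := by
  classical
  let I := Σ z : Fin s × X, Fin (M z.2)
  let res : I → Finset (Fin s ⊕ X) := fun a =>
    if one a.1.2 then {.inl a.1.1, .inr a.1.2} else {.inl a.1.1}
  have r1 : ∀ a j, Sum.inl j ∈ res a ↔ a.1.1 = j := by
    intro a j
    simp only [res]
    split_ifs <;> simp [eq_comm]
  have r2 : ∀ a x, Sum.inr x ∈ res a ↔ a.1.2 = x ∧ one x := by
    intro a x
    simp only [res]
    split_ifs with h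
    · simp only [mem_insert, reduceCtorEq, mem_singleton, Sum.inr.injEq, false_or]
      exact ⟨fun e => ⟨e.symm, e ▸ h⟩, fun e => e.1.symm⟩
    · simp only [mem_singleton, reduceCtorEq, false_iff]
      rintro ⟨rfl, h'⟩
      exact h h'
  obtain ⟨τ, h1, h2⟩ := greedy (T := T) (univ : Finset I) res (fun _ => 1) (fun a => F a.1.2)
    (by simp) (by
      intro a _
      have := h a.1.2 (by have := a.2.2; omega)
      have e1 : (univ.filter fun e' : I => Sum.inl a.1.1 ∈ res e').card = ∑ x, M x := by
        simp only [r1]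
        rw [card_sigma_pred (fun z : Fin s × X => M z.2) (fun z => z.1 = a.1.1),
          Fintype.sum_prod_type, sum_eq_single a.1.1] <;> simp +contextual
      have e2 : (univ.filter fun e' : I => Sum.inr a.1.2 ∈ res e').card ≤ s := by
        simp only [r2]
        rw [card_sigma_pred (fun z : Fin s × X => M z.2) (fun z => z.2 = a.1.2 ∧ one a.1.2),
          Fintype.sum_prod_type]
        refine (sum_le_card_nsmul _ _ 1 fun j _ => ?_).trans (by simp)
        by_cases ho : one a.1.2
        · simpa [ho] using hone _ ho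
        · simp [ho]
      simp only [Nat.div_one]
      by_cases ho : one a.1.2
      · rw [show res a = {.inl a.1.1, .inr a.1.2} from if_pos ho, Finset.sum_pair (by simp)]
        omega
      · rw [show res a = {.inl a.1.1} from if_neg ho, sum_singleton]
        omega)
  have u1 : ∀ a a' : I, a.1.1 = a'.1.1 → τ a = τ a' → a = a' := fun a a' e e' =>
    card_le_one.1 (h2 (.inl a.1.1) (τ a)) a (by simp [r1]) a' (by simp [r1, e, e'])
  let it : Fin s → T → Option X := fun j l =>
    if h : ∃ a : I, a.1.1 = j ∧ τ a = l then some h.choose.1.2 else none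
  have hit : ∀ j l x, it j l = some x ↔ ∃ a : I, a.1 = (j, x) ∧ τ a = l := by
    intro j l x
    simp only [it]
    split_ifs with h
    · have := h.choose_spec
      simp only [Option.some.injEq]
      constructor
      · rintro rfl
        exact ⟨_, Prod.ext this.1 rfl, this.2⟩
      · rintro ⟨a, e, e'⟩
        rw [u1 h.choose a (by rw [this.1, e]) (by rw [this.2, e']), e]
    · simp only [false_iff]
      rintro ⟨a, e, e'⟩
      exact h ⟨a, by rw [e], e'⟩
  refine ⟨it, fun j x => ?_, fun j l x h => ?_, fun j j' l x ho h h' => ?_⟩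
  · rw [← card_sigma_fib (fun z : Fin s × X => M z.2) (j, x)]
    symm
    refine card_bij (fun a _ => τ a) (fun a ha => ?_) (fun a ha a' ha' e => ?_) fun l hl => ?_
    · exact mem_filter.2 ⟨mem_univ _, (hit _ _ _).2 ⟨a, (mem_filter.1 ha).2, rfl⟩⟩
    · exact u1 _ _ (by rw [(mem_filter.1 ha).2, (mem_filter.1 ha').2]) e
    · obtain ⟨a, e, e'⟩ := (hit _ _ _).1 (mem_filter.1 hl).2
      exact ⟨a, by simpa using e, e'⟩
  · obtain ⟨a, e, rfl⟩ := (hit _ _ _).1 h
    have := h1 a (mem_univ _)
    rwa [e] at this
  · obtain ⟨a, e, rfl⟩ := (hit _ _ _).1 h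
    obtain ⟨a', e', e''⟩ := (hit _ _ _).1 h'
    have := card_le_one.1 (h2 (.inr x) (τ a)) a (by simp [r2, e, ho]) a'
      (by simp [r2, e', e'', ho])
    rw [this, e'] at e
    exact (congrArg Prod.fst e).symm

lemma val_pred {t : ℕ} [NeZero t] (ht : 2 ≤ t) (l : Fin t) :
    (l - 1).val = if l.val = 0 then t - 1 else l.val - 1 := by
  have := val_succ ht (l - 1)
  rw [sub_add_cancel] at this
  have := (l - 1).2
  split_ifs at * <;> omega

/-- Admissible windows of three consecutive labels of a vertex of the small part. -/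
def win : Finset ((Fin 3 × Fin 3) × (Fin 3 × Fin 3) × (Fin 3 × Fin 3)) :=
  {((2, 1), (0, 1), (2, 1)), ((0, 1), (2, 1), (0, 1)), ((0, 1), (2, 1), (0, 2)),
    ((2, 1), (0, 2), (2, 0)), ((0, 2), (2, 0), (2, 1)), ((2, 0), (2, 1), (0, 1))}

lemma exists_cl (t : ℕ) [NeZero t] (ht : 6 ≤ t) : ∃ cl : Fin t → Fin 3 × Fin 3,
    (∀ l, (cl (l - 1 - 1), cl (l - 1), cl l) ∈ win) ∧
    ∀ P, P ≠ 1 → (univ.filter fun l => cl l ≠ (P, 1)).card ≤ t / 2 + 3 := by
  let f : ℕ → Fin 3 × Fin 3 := fun l => if t % 2 = 1 ∧ l + 1 = t then (2, 0)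
    else if t % 2 = 1 ∧ l + 2 = t then (0, 2) else if l % 2 = 0 then (2, 1) else (0, 1)
  refine ⟨fun l => f l.val, fun l => ?_, fun P hP => ?_⟩
  · have a := val_pred (show 2 ≤ t by omega) l
    have b := val_pred (show 2 ≤ t by omega) (l - 1)
    have := l.2
    beta_reduce
    generalize (l - 1 - 1).val = z at *
    generalize (l - 1).val = y at *
    generalize l.val = x at *
    simp only [f]
    split_ifs at * <;> first | omega | decide
  · refine le_trans (card_le_card (t := (univ.filter fun l : Fin t =>
      l.val % 2 = if P = 0 then 0 else 1) ∪ univ.filter fun l : Fin t => t ≤ l.val + 2) ?_)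
      ((card_union_le _ _).trans ?_)
    · intro l hl
      have hl' := (mem_filter.1 hl).2
      simp only [mem_filter, mem_univ, true_and, mem_union]
      simp only [f] at hl'
      fin_cases P <;> split_ifs at * <;> first | omega | simp_all
    · have e1 := card_mod_eq (t := t) (U := 2) (if P = 0 then 0 else 1)
      have e2 : (univ.filter fun l : Fin t => t ≤ l.val + 2).card ≤ 2 := by
        refine le_trans (card_le_card_of_injOn (fun l => t - 1 - l.val) (t := range 2) ?_ ?_)
          (by simp)
        · intro l hl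
          simp only [coe_filter, mem_univ, true_and, Set.mem_ofPred_eq, coe_range,
            Set.mem_Iio] at hl ⊢
          omega
        · intro l _ l' _ h
          have := l.2
          have := l'.2
          exact Fin.ext (by simp only at h; omega)
      omega

end Pool.Agent.Lib.MP_351560_co
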