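import Mathlib
import Pool.Agent.Lib.MP_351560_co.Few

set_option autoImplicit false
set_option linter.unusedSimpArgs false
set_option linter.unusedVariables false

namespace Pool.Agent.Lib.MP_351560_co

open Finset

def pt (b : Bool) : Fin 3 := if b then 0 else 2

def ext (r : Fin 4) : Fin 3 := if r = 3 then 2 else 1

/-- Label of a slot with side `b`, role `r`, phase `p`, when the small vertex had label `c` at
the starting time. -/
def slab (b : Bool) (r : Fin 4) (p : Fin 3) (c : Fin 3 × Fin 3) : Option (Fin 3 × Fin 3) :=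
  if r = 1 ∨ r = 2 ∨ c ≠ (pt b, ext r) then
    (if p = 0 then some (pt b, ext r) else if p ≤ ext r then none else some (pt b, 0))
  else some (pt b, 0)

lemma slab_count : ∀ u ∈ win, ∀ v ∈ win, ∀ z : Option (Fin 3 × Fin 3),
    (if some u.2.2 = z then 1 else 0) + ∑ b, ∑ r, ∑ p,
      (if slab b r p (![u.2.2, u.2.1, u.1] p) = z then 1 else 0) =
    (if some v.2.2 = z then 1 else 0) + ∑ b, ∑ r, ∑ p,
      (if slab b r p (![v.2.2, v.2.1, v.1] p) = z then 1 else 0) := by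
  decide +kernel

lemma win_cover : ∀ u ∈ win, ∀ P : Fin 3, P ≠ 1 →
    (P ≠ u.2.2.1 ∧ ¬ (P ≠ u.2.1.1 ∧ u.2.1.2 ≠ 0) ∧ ¬ (P ≠ u.1.1 ∧ u.1.2 = 2)) ∨
    (¬ P ≠ u.2.2.1 ∧ (P ≠ u.2.1.1 ∧ u.2.1.2 ≠ 0) ∧ ¬ (P ≠ u.1.1 ∧ u.1.2 = 2)) ∨
    (¬ P ≠ u.2.2.1 ∧ ¬ (P ≠ u.2.1.1 ∧ u.2.1.2 ≠ 0) ∧ (P ≠ u.1.1 ∧ u.1.2 = 2)) := by
  decide +kernel

lemma ext_ne : ∀ r, ext r ≠ 0 := by decide

/-- Adjacency pattern of a label to the cycles. -/
def sig {t : ℕ} [NeZero t] (l : Option (Fin 3 × Fin 3)) (Q : Fin 3) (d : Fin t) : Prop :=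
  ∃ P k, l = some (P, k) ∧ Q ≠ P ∧ (d = 0 ∨ (k ≠ 0 ∧ d = 1) ∨ (k = 2 ∧ d = 1 + 1))

lemma sig_cover {t : ℕ} [NeZero t] (ht : 3 ≤ t) (f : Fin t → Option (Fin 3 × Fin 3)) (Q : Fin 3)
    (j : Fin t) (A B C : Prop) (hA : A ↔ ∃ P k, f j = some (P, k) ∧ Q ≠ P)
    (hB : B ↔ ∃ P k, f (j - 1) = some (P, k) ∧ Q ≠ P ∧ k ≠ 0)
    (hC : C ↔ ∃ P, f (j - 1 - 1) = some (P, 2) ∧ Q ≠ P)
    (h : (A ∧ ¬ B ∧ ¬ C) ∨ (¬ A ∧ B ∧ ¬ C) ∨ (¬ A ∧ ¬ B ∧ C)) : ∃! i, sig (f i) Q (j - i) := by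
  obtain ⟨c1, c2, c3⟩ := fin_consts (t := t) ht
  refine cover3 ht (fun i d => sig (f i) Q d) j (by rintro i d ⟨_, _, -, -, h⟩; tauto) ?_
  have e1 : sig (f j) Q (0 : Fin t) ↔ A := by
    rw [hA]
    simp [sig]
  have e2 : sig (f (j - 1)) Q (1 : Fin t) ↔ B := by
    rw [hB]
    simp [sig, c1.symm, c3]
  have e3 : sig (f (j - 1 - 1)) Q (1 + 1 : Fin t) ↔ C := by
    rw [hC]
    simp only [sig, c2.symm, c3.symm, and_false, and_true, false_or]
    exact ⟨fun ⟨P, k, a, b, c⟩ => ⟨P, c ▸ a, b⟩, fun ⟨P, a, b⟩ => ⟨P, 2, a, b, rfl⟩⟩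
  simpa only [e1, e2, e3] using h

lemma exists_labs (t : ℕ) [NeZero t] (w U R s : ℕ) (nr sp : Fin 3 → Bool → ℕ)
    (hR : ∀ P b, sp P b ≤ R) (hU : 3 ≤ U) (ht : 6 ≤ t) (hs : sp 1 false = s)
    (hsp : ∀ b, s * 4 * (U + 2) ≤ sp (pt b) false) :
    ∃ (lab : Fin t → Cl R → Option (Fin 3 × Fin 3)) (cl : Fin t → Fin 3 × Fin 3)
      (E : Bool → Fin s → Bool → Fin t → Cl R),
      (∀ i P b, lab i (P, b, none) = some (P, 0)) ∧
      (∀ l (a : Fin R), a.val < s → lab l (1, false, some a) = some (cl l)) ∧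
      (∀ P, P ≠ 1 → (univ.filter fun l => cl l ≠ (P, 1)).card ≤ t / 2 + 3) ∧
      (∀ d j b l, ∃ a : Fin R, E d j b l = (pt d, false, some a) ∧ a.val < sp (pt d) false) ∧
      (∀ d j b l, lab l (E d j b l) = some (pt d, 1)) ∧
      (∀ d j b j' b' l l', E d j b l = E d j' b' l' → j = j' ∧ b = b') ∧
      (∀ d j b y, (univ.filter fun l => E d j b l = y).card ≤ t / U + 3) ∧
      (∀ x, x.1 ≠ 1 → (univ.filter fun l => lab l x ≠ some (x.1, 0)).card ≤ 3 * (t / U + 3)) ∧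
      (∀ z i j, ∑ x, (if lab i x = z then ccnt nr sp x * bw w x.2.1 else 0) =
        ∑ x, (if lab j x = z then ccnt nr sp x * bw w x.2.1 else 0)) ∧
      (∀ (i : Fin t) x (d : Fin t), x.1 ≠ 1 → ¬ sig (lab i x) x.1 d) ∧
      (∀ P x j, x.1 ≠ 1 → x.1 ≠ P → ∃! i, sig (lab i x) P (j - i)) ∧
      ∀ P j, P ≠ 1 → ∃! i, sig (some (cl i)) P (j - i) := by
  classical
  have h0 : 0 < U := by omega
  obtain ⟨cl, c1, c2⟩ := exists_cl t ht
  have a1 : ∀ d (j : Fin s) (r : Fin 4) (l : Fin t),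
      (j.val * 4 + r.val) * (U + 2) + rot U t l.val < sp (pt d) false := by
    intro d j r l
    have e1 := rot_lt (U := U) h0 l.2
    have e2 : (j.val * 4 + r.val + 1) * (U + 2) ≤ s * 4 * (U + 2) :=
      Nat.mul_le_mul_right _ (by have := j.2; have := r.2; omega)
    have := hsp d
    rw [add_mul _ 1] at e2
    omega
  let E : Bool → Fin s → Fin 4 → Fin t → Cl R := fun d j r l =>
    (pt d, false, some ⟨_, (a1 d j r l).trans_le (hR _ _)⟩)
  have hpt : ∀ d d', pt d = pt d' → d = d' := by decide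
  have hpt1 : ∀ d, pt d ≠ 1 := by decide
  have hE : ∀ d j r l d' j' r' l', E d j r l = E d' j' r' l' →
      d = d' ∧ j = j' ∧ r = r' ∧ rot U t l.val = rot U t l'.val := by
    intro d j r l d' j' r' l' e
    simp only [E, Prod.mk.injEq, Option.some.injEq, Fin.mk.injEq, true_and] at e
    have e1 := rot_lt (U := U) h0 l.2
    have e2 := rot_lt (U := U) h0 l'.2
    have e3 := congrArg (· / (U + 2)) e.2
    simp only [add_comm (_ * (U + 2)), Nat.add_mul_div_right _ _ (show 0 < U + 2 by omega),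
      Nat.div_eq_of_lt e1, Nat.div_eq_of_lt e2, zero_add] at e3
    have e4 := e.2
    rw [e3] at e4
    have := r.2
    have := r'.2
    exact ⟨hpt _ _ e.1, Fin.ext (by omega), Fin.ext (by omega), by omega⟩
  let sh : Fin t → Fin 3 → Fin t := fun l => ![l, l - 1, l - 1 - 1]
  have hsh : ∀ l p p', rot U t (sh l p).val = rot U t (sh l p').val → p = p' := by
    intro l p p' e
    have e1 := rot_ne hU (show 5 ≤ t by omega) (l - 1 - 1)
    have e2 := (rot_ne hU (show 5 ≤ t by omega) (l - 1)).1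
    simp only [sub_add_cancel] at e1 e2
    fin_cases p <;> fin_cases p' <;> simp [sh] at e ⊢ <;> omega
  let ι : Fin t → Fin s × Option (Bool × Fin 4 × Fin 3) → Cl R := fun l z => match z.2 with
    | none => (1, false, some ⟨z.1.val, z.1.2.trans_le (hs ▸ hR 1 false)⟩)
    | some u => E u.1 z.1 u.2.1 (sh l u.2.2)
  let g : Fin t → Fin s × Option (Bool × Fin 4 × Fin 3) → Option (Fin 3 × Fin 3) := fun l z =>
    match z.2 with
    | none => some (cl l)
    | some u => slab u.1 u.2.1 u.2.2 (cl (sh l u.2.2))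
  obtain ⟨lab, l1, l2, l3⟩ := exists_lab ι (by
      rintro l ⟨j, _ | ⟨d, r, p⟩⟩ ⟨j', _ | ⟨d', r', p'⟩⟩ e
      · simpa [ι, Fin.ext_iff] using e
      · exact absurd (congrArg Prod.fst e).symm (hpt1 _)
      · exact absurd (congrArg Prod.fst e) (hpt1 _)
      · obtain ⟨rfl, rfl, rfl, e⟩ := hE _ _ _ _ _ _ _ _ e
        obtain rfl : p = p' := hsh _ _ _ e
        rfl)
    g (fun x => some (x.1, 0)) (fun x => ccnt nr sp x * bw w x.2.1) (by
      rintro l ⟨j, _ | ⟨d, r, p⟩⟩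
      · simp [ι, ccnt, hs]
      · simp [ι, E, ccnt, a1]) (by rintro l l' ⟨j, _ | ⟨d, r, p⟩⟩ <;> rfl) (by
      intro z l l'
      have := slab_count _ (c1 l) _ (c1 l') z
      have e : ∀ l p, (![cl l, cl (l - 1), cl (l - 1 - 1)] : Fin 3 → _) p = cl (sh l p) := by
        intro l p
        fin_cases p <;> rfl
      simp only [e] at this
      simp only [Fintype.sum_prod_type, Fintype.sum_option, g, this])
  have l4 : ∀ l d j r p, lab l (E d j r (sh l p)) = slab d r p (cl (sh l p)) :=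
    fun l d j r p => l1 l (j, some (d, r, p))
  have l5 : ∀ l x, x.1 ≠ 1 → lab l x = some (x.1, 0) ∨ ∃ d j r p, x = E d j r (sh l p) := by
    intro l x hx
    by_cases h : ∃ j, ι l j = x
    · obtain ⟨⟨j, _ | ⟨d, r, p⟩⟩, rfl⟩ := h
      · exact absurd rfl hx
      · exact .inr ⟨d, j, r, p, rfl⟩
    · exact .inl (l2 l x fun j hj => h ⟨j, hj⟩)
  have s1 : ∀ d r p c, slab d r p c = none ∨ ∃ k, slab d r p c = some (pt d, k) := by
    decide +kernel
  have l6 : ∀ l x, x.1 ≠ 1 → lab l x = none ∨ ∃ k, lab l x = some (x.1, k) := by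
    intro l x hx
    rcases l5 l x hx with h | ⟨d, j, r, p, rfl⟩
    · exact .inr ⟨_, h⟩
    · rw [l4]
      exact s1 _ _ _ _
  have s2 : ∀ d r p c k, k ≠ 0 → slab d r p c = some (pt d, k) → p = 0 ∧ slab d r 1 c = none ∧
      (k = 2 → slab d r 2 c = none) := by decide +kernel
  have s3 : ∀ d r p c, slab d r p c = none → (p = 1 ∧ slab d r 0 c = some (pt d, ext r)) ∨
      (p = 2 ∧ slab d r 0 c = some (pt d, 2)) := by decide +kernel
  have l7 : ∀ l x k, x.1 ≠ 1 → k ≠ 0 → lab (l - 1) x = some (x.1, k) → lab l x = none := by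
    intro l x k hx hk h
    rcases l5 (l - 1) x hx with h' | ⟨d, j, r, p, rfl⟩
    · rw [h'] at h
      simp [hk.symm] at h
    · rw [l4] at h
      obtain ⟨rfl, e, -⟩ := s2 _ _ _ _ _ hk h
      exact (l4 l d j r 1).trans e
  have l8 : ∀ l x, x.1 ≠ 1 → lab (l - 1 - 1) x = some (x.1, 2) → lab l x = none := by
    intro l x hx h
    rcases l5 (l - 1 - 1) x hx with h' | ⟨d, j, r, p, rfl⟩
    · rw [h'] at h
      simp at h
    · rw [l4] at h
      obtain ⟨rfl, -, e⟩ := s2 _ _ _ _ _ (by decide) h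
      exact (l4 l d j r 2).trans (e rfl)
  have l9 : ∀ l x, x.1 ≠ 1 → lab l x = none → (∃ k, k ≠ 0 ∧ lab (l - 1) x = some (x.1, k)) ∨
      lab (l - 1 - 1) x = some (x.1, 2) := by
    intro l x hx h
    rcases l5 l x hx with h' | ⟨d, j, r, p, rfl⟩
    · rw [h'] at h
      simp at h
    · rw [l4] at h
      rcases s3 _ _ _ _ h with ⟨rfl, e⟩ | ⟨rfl, e⟩
      · exact .inl ⟨ext r, ext_ne r, (l4 (l - 1) d j r 0).trans e⟩
      · exact .inr ((l4 (l - 1 - 1) d j r 0).trans e)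
  refine ⟨lab, cl, fun d j b l => E d j (if b then 1 else 2) l, fun i P b => l2 _ _ ?_,
    fun l a ha => l1 l (⟨a.val, ha⟩, none), c2, fun d j b l => ⟨_, rfl, a1 _ _ _ _⟩,
    fun d j b l => (l4 l d j _ 0).trans (by cases b <;> simp [slab, ext]), ?_, ?_, ?_, l3, ?_, ?_,
    ?_⟩
  · rintro ⟨j, _ | ⟨d, r, p⟩⟩ <;> simp [ι, E]
  · intro d j b j' b' l l' e
    obtain ⟨-, rfl, e, -⟩ := hE _ _ _ _ _ _ _ _ e
    refine ⟨rfl, ?_⟩
    cases b <;> cases b' <;> first | rfl | simp at e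
  · intro d j b y
    rcases eq_empty_or_nonempty (univ.filter fun l => E d j (if b then 1 else 2) l = y)
      with h | ⟨l, hl⟩
    · simp [h]
    · refine le_trans (card_le_card fun l' hl' => ?_) (card_rot (t := t) (U := U) (rot U t l.val))
      exact mem_filter.2 ⟨mem_univ _, (hE _ _ _ _ _ _ _ _ ((mem_filter.1 hl').2.trans
        (mem_filter.1 hl).2.symm)).2.2.2⟩
  · intro x hx
    rcases eq_empty_or_nonempty (univ.filter fun l => lab l x ≠ some (x.1, 0)) with h | ⟨l, hl⟩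
    · simp [h]
    obtain ⟨d, j, r, p, e⟩ := (l5 l x hx).resolve_left (mem_filter.1 hl).2
    let q : Fin t → Prop := fun l' => rot U t l'.val = rot U t (sh l p).val
    refine le_trans (card_le_card (t := (univ.filter q ∪ univ.filter fun l' => q (l' + (-1))) ∪
      univ.filter fun l' => q (l' + (-1 - 1))) fun l' hl' => ?_) ?_
    · obtain ⟨d', j', r', p', e'⟩ := (l5 l' x hx).resolve_left (mem_filter.1 hl').2
      have := (hE _ _ _ _ _ _ _ _ (e'.symm.trans e)).2.2.2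
      simp only [mem_union, mem_filter, mem_univ, true_and, q, ← this]
      have e1 : l' + (-1) = l' - 1 := by abel
      have e2 : l' + (-1 - 1) = l' - 1 - 1 := by abel
      rw [e1, e2]
      fin_cases p' <;> simp [sh]
    · refine (card_union_le _ _).trans ((Nat.add_le_add_right (card_union_le _ _) _).trans ?_)
      rw [card_shift q, card_shift q]
      have := card_rot (t := t) (U := U) (rot U t (sh l p).val)
      simp only [q]
      omega
  · rintro i x d hx ⟨P, k, e, h, -⟩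
    rcases l6 i x hx with h' | ⟨k', h'⟩ <;> rw [h'] at e <;> simp [h] at e
  · intro P x j hx hP
    have e1 := l7 j x
    have e2 := l8 j x hx
    have e3 := l9 j x hx
    have e4 := l7 (j - 1) x 2 hx (by decide)
    refine sig_cover (by omega) (fun i => lab i x) P j (lab j x ≠ none)
      (∃ k, k ≠ 0 ∧ lab (j - 1) x = some (x.1, k)) (lab (j - 1 - 1) x = some (x.1, 2)) ?_ ?_ ?_ ?_
    · rcases l6 j x hx with h | ⟨k, h⟩ <;> simp [h, hP.symm]
    · rcases l6 (j - 1) x hx with h | ⟨k, h⟩ <;> simp [h, hP.symm]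
    · rcases l6 (j - 1 - 1) x hx with h | ⟨k, h⟩ <;> simp [h, hP.symm]
    · by_cases h : lab j x = none
      · rcases e3 h with h' | h'
        · refine .inr (.inl ⟨by simp [h], h', fun h'' => ?_⟩)
          obtain ⟨k, -, h'⟩ := h'
          simp [e4 h''] at h'
        · exact .inr (.inr ⟨by simp [h], by simp [e4 h'], h'⟩)
      · exact .inl ⟨h, fun ⟨k, a, b⟩ => h (e1 k hx a b), fun a => h (e2 a)⟩
  · intro P j hP
    refine sig_cover (by omega) (fun i => some (cl i)) P j (P ≠ (cl j).1)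
      (P ≠ (cl (j - 1)).1 ∧ (cl (j - 1)).2 ≠ 0)
      (P ≠ (cl (j - 1 - 1)).1 ∧ (cl (j - 1 - 1)).2 = 2) ?_ ?_ ?_ ?_
    · simp [Prod.ext_iff]
    · simp [Prod.ext_iff]
    · simp [Prod.ext_iff, and_comm]
    · exact win_cover _ (c1 j) P hP

end Pool.Agent.Lib.MP_351560_co
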