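import Mathlib
import Pool.Agent.Lib.MP_351560_co.Labs

set_option autoImplicit false
set_option linter.unusedSimpArgs false
set_option linter.unusedVariables false

namespace Pool.Agent.Lib.MP_351560_co

open Finset

theorem caseII (t : ℕ) [NeZero t] (w U Δ s : ℕ) (nr sp : Fin 3 → Bool → ℕ) (hw : 1 ≤ w)
    (hU : 3 ≤ U) (ht : 100 ≤ t) (hs : sp 1 false = s) (hs' : sp 1 true = 0) (hn1 : ∀ b, nr 1 b = 0)
    (hsp : ∀ d, s * 4 * (U + 2) ≤ sp (pt d) false)
    (hbig : ∀ d b, 16 * s + (t / U + 3) ≤ nr (pt d) b)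
    (hshare : ∀ b b', (nr 0 b + sp 0 b) * (nr 2 b' + sp 2 b') +
      (if b = false ∧ b' = false then 3 * (w * w) * t else 0) ≤ 2 * (nr 0 b * nr 2 b'))
    (hspl : ∀ b, U ≤ sp 2 b ∧ t ≤ U * sp 0 b)
    (hΔ : ∑ Q, ∑ b, (nr Q b + sp Q b) + w * w * (6 * U + 6 * (t / U + 1)) ≤ Δ)
    (hΔt : 16 * Δ ≤ t) (hφ : 16 * (3 * (t / U + 3) + s) < t) (mult z : Fin 3 → ℕ)
    (hm : mult 1 = 0) (hz : ∀ P, z P = ∑ b, (nr P b + sp P b) * bw w b)
    (hq : t ∣ z 0 * z 1 + z 1 * z 2 + z 2 * z 0) : Good t fun P => z P + mult P * t := by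
  classical
  let R := ∑ P, ∑ b, sp P b
  have hR : ∀ P b, sp P b ≤ R := fun P b =>
    (single_le_sum (f := fun b => sp P b) (fun _ _ => Nat.zero_le _) (mem_univ b)).trans
      (single_le_sum (f := fun P => ∑ b, sp P b) (fun _ _ => Nat.zero_le _) (mem_univ P))
  obtain ⟨lab, cl, E, l1, l2, l3, l4, l5, l6, l7, l8, l9, l10, l11, l12⟩ :=
    exists_labs t w U R s nr sp hR hU (by omega) hs hsp
  set cnt : Cl R → ℕ := ccnt nr sp with hcnt
  have hpt : ∀ d d', pt d = pt d' → d = d' := by decide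
  have hpt1 : ∀ d, pt d ≠ 1 := by decide
  have hpt2 : ∀ P : Fin 3, P ≠ 1 → ∃ d, P = pt d ∧ 2 - P = pt (!d) := by decide
  have hpt3 : ∀ d, 2 - pt d = pt (!d) := by decide
  have hC : ∀ x : Cl R, x.1 = 1 → cnt x ≠ 0 → ∃ a : Fin R, a.val < s ∧ x = (1, false, some a) := by
    rintro ⟨P, b, _ | a⟩ rfl h
    · simp [hcnt, ccnt, hn1] at h
    · cases b
      · exact ⟨a, by simpa [hcnt, ccnt, hs] using h, rfl⟩
      · simp [hcnt, ccnt, hs'] at h
  have hz1 : z 1 = s := by simp [hz, hn1, hs, hs']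
  have hsumc : ∀ P, ∑ x : Cl R, (if x.1 = P then cnt x * bw w x.2.1 else 0) = z P := by
    intro P
    rw [sum_part (fun x => cnt x * bw w x.2.1), hz]
    simp only [← sum_mul, hcnt, sum_ccnt nr sp hR]
  obtain ⟨it, i1, i2, i3⟩ := sched_c (T := Fin t) s (fun x : Cl R => if x.1 = 1 then 0 else cnt x)
    (fun x => x.2.2 ≠ none) (fun x => (univ.filter fun l => cl l ≠ (2 - x.1, 1)) ∪
      (univ.filter fun l => lab l x ≠ some (x.1, 0))) (by
      rintro ⟨P, b, _ | a⟩ h
      · exact absurd rfl h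
      · simp only [hcnt, ccnt]
        split_ifs <;> omega) (by
      intro x hx
      have hx1 : x.1 ≠ 1 := fun h => hx (if_pos h)
      obtain ⟨d, -, e⟩ := hpt2 _ hx1
      have e1 := l3 (2 - x.1) (e ▸ hpt1 _)
      have e2 := l8 x hx1
      have e3 : ∑ x : Cl R, (if x.1 = 1 then 0 else cnt x) ≤ ∑ Q, ∑ b, (nr Q b + sp Q b) := by
        refine (sum_le_sum (g := cnt) fun x _ => by split_ifs <;> omega).trans (le_of_eq ?_)
        simp only [Fintype.sum_prod_type, hcnt, sum_ccnt nr sp hR]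
      have e4 := card_union_le (univ.filter fun l => cl l ≠ (2 - x.1, 1))
        (univ.filter fun l => lab l x ≠ some (x.1, 0))
      rw [Fintype.card_fin]
      omega)
  have i4 : ∀ j l x, it j l = some x → cl l = (2 - x.1, 1) ∧ lab l x = some (x.1, 0) := by
    intro j l x h
    simpa using i2 j l x h
  let C : Fin s → Cl R := fun j => (1, false, some ⟨j.val, j.2.trans_le (hs ▸ hR 1 false)⟩)
  have hCi : ∀ j j', C j = C j' → j = j' := fun j j' h => by simpa [C, Fin.ext_iff] using h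
  let K := Fin s × Bool × Bool × Fin t
  let hit : K → Prop := fun k => ∃ o, it k.1 k.2.2.2 = some (pt k.2.1, k.2.2.1, o)
  let par : K → Cl R := fun k => (pt k.2.1, k.2.2.1, if h : hit k then h.choose else none)
  let cen : K → Cl R := fun k => if hit k then C k.1 else E (!k.2.1) k.1 k.2.2.1 k.2.2.2
  have p1 : ∀ k, hit k → it k.1 k.2.2.2 = some (par k) ∧ cen k = C k.1 := by
    intro k h
    simp only [par, cen, dif_pos h, if_pos h, and_true]
    exact h.choose_spec
  have p2 : ∀ k, ¬ hit k → par k = (pt k.2.1, k.2.2.1, none) ∧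
      cen k = E (!k.2.1) k.1 k.2.2.1 k.2.2.2 := by
    intro k h
    simp only [par, cen, dif_neg h, if_neg h, and_true]
  have p3 : ∀ k, (par k).1 = pt k.2.1 ∧ (par k).2.1 = k.2.2.1 := fun k => ⟨rfl, rfl⟩
  have p4 : ∀ k, (cen k).2.1 = false ∧ (cen k).2.2 ≠ none ∧ cnt (cen k) = 1 ∧
      (cen k).1 = if hit k then 1 else pt (!k.2.1) := by
    intro k
    by_cases h : hit k
    · simp [(p1 k h).2, C, hcnt, ccnt, hs, h]
    · obtain ⟨a, e, e'⟩ := l4 (!k.2.1) k.1 k.2.2.1 k.2.2.2
      simp [(p2 k h).2, e, hcnt, ccnt, e', h]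
  have p5 : ∀ k, lab k.2.2.2 (par k) = some (pt k.2.1, 0) ∧
      lab k.2.2.2 (cen k) = some (pt (!k.2.1), 1) := by
    intro k
    by_cases h : hit k
    · obtain ⟨e1, e2⟩ := p1 k h
      obtain ⟨e3, e4⟩ := i4 _ _ _ e1
      refine ⟨e4, ?_⟩
      rw [e2, l2 _ _ k.1.2, e3, (p3 k).1, hpt3]
    · rw [(p2 k h).1, (p2 k h).2, l1, l5]
      exact ⟨rfl, rfl⟩
  have p6 : ∀ k, (cen k).1 = 1 ↔ hit k := by
    intro k
    rw [(p4 k).2.2.2]
    by_cases h : hit k <;> simp [h, hpt1]
  have q1 : ∀ x y, x.1 ≠ 1 → y.1 = 1 →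
      (univ.filter fun k => par k = x ∧ cen k = y).card = cnt x * cnt y := by
    intro x y hx hy
    by_cases h : cnt y = 0
    · rw [h, mul_zero, card_eq_zero, filter_eq_empty_iff]
      rintro k _ ⟨-, rfl⟩
      simp [(p4 k).2.2.1] at h
    obtain ⟨a, ha, rfl⟩ := hC y hy h
    have e := i1 ⟨a.val, ha⟩ x
    rw [if_neg hx] at e
    rw [show cnt (1, false, some a) = 1 by simp [hcnt, ccnt, hs, ha], mul_one, ← e]
    obtain ⟨d, hd, -⟩ := hpt2 _ hx
    refine card_bij (fun k _ => k.2.2.2) (fun k hk => ?_) (fun k hk k' hk' e => ?_) fun l hl => ?_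
    · obtain ⟨-, rfl, e2⟩ := mem_filter.1 hk
      obtain ⟨e3, e4⟩ := p1 k ((p6 k).1 (by rw [e2]))
      rw [← hCi k.1 ⟨a.val, ha⟩ (e4.symm.trans e2)]
      exact mem_filter.2 ⟨mem_univ _, e3⟩
    · obtain ⟨-, e1, e2⟩ := mem_filter.1 hk
      obtain ⟨-, e1', e2'⟩ := mem_filter.1 hk'
      have e3 := (p1 k ((p6 k).1 (by rw [e2]))).2
      have e4 := (p1 k' ((p6 k').1 (by rw [e2']))).2
      have e5 := e1.trans e1'.symm
      exact Prod.ext (hCi _ _ (by rw [← e3, ← e4, e2, e2'])) (Prod.ext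
        (hpt _ _ (congrArg Prod.fst e5)) (Prod.ext (congrArg (·.2.1) e5) e))
    · have e1 := (mem_filter.1 hl).2
      have e2 : hit (⟨a.val, ha⟩, d, x.2.1, l) := ⟨x.2.2, by rw [e1, ← hd]⟩
      obtain ⟨e3, e4⟩ := p1 _ e2
      exact ⟨_, mem_filter.2 ⟨mem_univ _, Option.some.inj (e3.symm.trans e1), e4⟩, rfl⟩
  have q2 : ∀ x y, (univ.filter fun k => par k = x ∧ cen k = y).card ≤ cnt x * cnt y := by
    intro x y
    rcases eq_empty_or_nonempty (univ.filter fun k => par k = x ∧ cen k = y) with h | ⟨k, hk⟩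
    · simp [h]
    obtain ⟨-, rfl, rfl⟩ := mem_filter.1 hk
    by_cases h : hit k
    · exact (q1 _ _ (hpt1 _) ((p6 k).2 h)).le
    rw [(p4 k).2.2.1, mul_one]
    have e0 : ∀ k' ∈ univ.filter fun k' => par k' = par k ∧ cen k' = cen k,
        k' = (k.1, k.2.1, k.2.2.1, k'.2.2.2) ∧ E (!k.2.1) k.1 k.2.2.1 k'.2.2.2 = cen k := by
      intro k' hk'
      obtain ⟨-, e1, e2⟩ := mem_filter.1 hk'
      have h' : ¬ hit k' := by rw [← p6, e2, p6]; exact h
      have e3 : k'.2.1 = k.2.1 := hpt _ _ (congrArg Prod.fst e1)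
      have e4 := e2
      rw [(p2 k h).2, (p2 k' h').2, e3] at e4
      obtain ⟨e5, e6⟩ := l6 _ _ _ _ _ _ _ e4
      exact ⟨Prod.ext e5 (Prod.ext e3 (Prod.ext e6 rfl)), by rw [← e2, (p2 k' h').2, e3, e5, e6]⟩
    refine le_trans (card_le_card_of_injOn (fun k' => k'.2.2.2) (fun k' hk' => ?_)
      fun k1 h1 k2 h2 e => ?_) ((l7 (!k.2.1) k.1 k.2.2.1 (cen k)).trans ?_)
    · simpa using (e0 k' hk').2
    · rw [(e0 k1 h1).1, (e0 k2 h2).1]
      exact congrArg (fun l => (k.1, k.2.1, k.2.2.1, l)) e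
    · have := hbig k.2.1 k.2.2.1
      rw [(p2 k h).1]
      simp only [hcnt, ccnt]
      omega
  let xa : K → Cl R := fun k => if k.2.1 then par k else cen k
  let ya : K → Cl R := fun k => if k.2.1 then cen k else par k
  have r1 : ∀ k x, (xa k = x ∨ ya k = x) ↔ (par k = x ∨ cen k = x) := by
    rintro ⟨j, _ | _, b, l⟩ x
    exacts [or_comm, Iff.rfl]
  have r2 : ∀ k x y, (xa k = x ∧ ya k = y) ↔
      (x.1 = 0 ∧ par k = x ∧ cen k = y) ∨ (y.1 = 2 ∧ par k = y ∧ cen k = x) := by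
    rintro ⟨j, _ | _, b, l⟩ x y
    · simp only [xa, ya, Bool.false_eq_true, if_false]
      constructor
      · rintro ⟨rfl, rfl⟩
        exact .inr ⟨rfl, rfl, rfl⟩
      · rintro (⟨h, rfl, rfl⟩ | ⟨-, rfl, rfl⟩)
        · exact absurd h (by decide : (2 : Fin 3) ≠ 0)
        · exact ⟨rfl, rfl⟩
    · simp only [xa, ya, if_true]
      constructor
      · rintro ⟨rfl, rfl⟩
        exact .inl ⟨rfl, rfl, rfl⟩
      · rintro (⟨-, rfl, rfl⟩ | ⟨h, rfl, rfl⟩)
        · exact ⟨rfl, rfl⟩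
        · exact absurd h (by decide : (0 : Fin 3) ≠ 2)
  have r3 : ∀ k, (par k).2.2 ≠ none → hit k := fun k h => by
    by_contra h'
    exact h (by rw [(p2 k h').1])
  have r4 : ∀ (q : Bool → Bool → Prop) [∀ d b, Decidable (q d b)] (i : Fin t),
      (univ.filter fun k : K => k.2.2.2 = i ∧ q k.2.1 k.2.2.1).card =
        s * ∑ d, ∑ b, if q d b then 1 else 0 := by
    intro q _ i
    rw [card_filter, Fintype.sum_prod_type, sum_congr rfl
      (g := fun _ : Fin s => ∑ d, ∑ b, if q d b then 1 else 0)]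
    · rw [sum_const, card_univ, Fintype.card_fin, smul_eq_mul]
    · intro j _
      simp only [Fintype.sum_prod_type, ite_and, sum_ite_eq', mem_univ, if_true]
  have := mid2 t w U R (3 * (t / U + 3) + s) Δ nr sp hR hw (by omega) (fun P => some (P, 0))
    lab (fun P => P ≠ 1) univ xa ya (fun k => k.2.2.2) l1 ?_ ?_ ?_ ?_ ?_ ?_ ?_ ?_ ?_ l9 ?_ ?_ ?_ ?_
    hΔ hΔt hφ sig mult ?_ ?_
  · simpa only [hz] using this
  · rintro ⟨j, d, b, l⟩ _
    have := (p4 (j, d, b, l)).2.2.2
    cases d <;> simp only [xa, ya, Bool.false_eq_true, if_false, if_true, this, (p3 _).1] <;>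
      split_ifs <;> decide
  · intro x y
    rcases eq_empty_or_nonempty (univ.filter fun k => xa k = x ∧ ya k = y) with h | ⟨k, hk⟩
    · simp [h]
    rcases (r2 _ _ _).1 (mem_filter.1 hk).2 with ⟨h, rfl, rfl⟩ | ⟨h, rfl, rfl⟩
    · refine le_trans (card_le_card fun k' hk' => ?_) (q2 _ _)
      rcases (r2 _ _ _).1 (mem_filter.1 hk').2 with ⟨-, h'⟩ | ⟨h', e1, e2⟩
      · exact mem_filter.2 ⟨mem_univ _, h'⟩
      · have := (p6 k).2 (r3 k (e2 ▸ (p4 k').2.1))
        rw [this] at h'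
        exact absurd h' (by decide)
    · refine le_trans (card_le_card fun k' hk' => ?_) ((q2 _ _).trans (mul_comm _ _).le)
      rcases (r2 _ _ _).1 (mem_filter.1 hk').2 with ⟨h', e1, e2⟩ | ⟨-, h'⟩
      · have := (p6 k).2 (r3 k (e2 ▸ (p4 k').2.1))
        rw [this] at h'
        exact absurd h' (by decide)
      · exact mem_filter.2 ⟨mem_univ _, h'⟩
  · intro x y h h'
    have : (x.1 = 0 ∧ y.1 = 1) ∨ (x.1 = 1 ∧ y.1 = 2) := by
      revert h h'
      generalize x.1 = a
      generalize y.1 = b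
      revert a b
      decide
    rcases this with ⟨h1, h2⟩ | ⟨h1, h2⟩
    · rw [← q1 x y (by simp [h1]) h2]
      simp only [r2, h1, h2]
      simp
    · rw [mul_comm, ← q1 y x (by simp [h2]) h1]
      simp only [r2, h1, h2]
      simp
  · rintro ⟨j, _ | _, b, l⟩ _ h
    · exact absurd h (p4 _).2.1
    · exact (p4 _).2.1
  · rintro ⟨j, _ | _, b, l⟩ _ a1 a2 a3 a4
    · exact absurd ((p6 _).2 (r3 _ a4)) a1
    · exact absurd ((p6 _).2 (r3 _ a3)) a2
  · intro P b i
    by_cases hP : P = 1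
    · rw [filter_eq_empty_iff.2]
      · simp
      · rintro k _ ⟨-, h⟩
        rcases (r1 _ _).1 h with h | h
        · exact hpt1 _ ((congrArg Prod.fst h).trans hP)
        · exact (p4 k).2.1 (by rw [h])
    · obtain ⟨d, rfl, -⟩ := hpt2 P hP
      have e1 := r4 (fun _ _ => True) i
      have e2 := hbig d b
      have e3 : (univ.filter fun k : K => k.2.2.2 = i ∧
          (xa k = (pt d, b, none) ∨ ya k = (pt d, b, none))).card ≤
          (univ.filter fun k : K => k.2.2.2 = i ∧ True).card :=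
        card_le_card fun k hk => mem_filter.2 ⟨mem_univ _, (mem_filter.1 hk).2.1, trivial⟩
      simp only [if_true, sum_const, card_univ, Fintype.card_bool, smul_eq_mul] at e1
      generalize t / U = v at e2
      omega
  · intro P b a i
    refine card_le_one.2 fun k hk k' hk' => ?_
    obtain ⟨-, e1, e2⟩ := mem_filter.1 hk
    obtain ⟨-, e1', e2'⟩ := mem_filter.1 hk'
    have e0 : k.2.2.2 = k'.2.2.2 := e1.trans e1'.symm
    have f1 := p5 k
    have f2 := p5 k'
    rw [← e0] at f2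
    rcases (r1 _ _).1 e2 with h | h <;> rcases (r1 _ _).1 e2' with h' | h'
    · have g1 := (p1 k (r3 k (by simp [h]))).1
      have g2 := (p1 k' (r3 k' (by simp [h']))).1
      rw [h] at g1
      rw [h', ← e0] at g2
      have e5 := h.trans h'.symm
      exact Prod.ext (i3 _ _ _ _ (by simp) g1 g2) (Prod.ext
        (hpt _ _ (congrArg Prod.fst e5)) (Prod.ext (congrArg (·.2.1) e5) e0))
    · have := f1.1
      rw [h, ← h', f2.2] at this
      simp at this
    · have := f2.1
      rw [h', ← h, f1.2] at this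
      simp at this
    · have e5 := h.trans h'.symm
      by_cases hh : hit k
      · have hh' : hit k' := by rw [← p6, ← e5, p6]; exact hh
        obtain ⟨g1, g2⟩ := p1 k hh
        obtain ⟨g3, g4⟩ := p1 k' hh'
        have e6 : k.1 = k'.1 := hCi _ _ (by rw [← g2, ← g4, e5])
        rw [e6, e0, g3] at g1
        have e7 := (Option.some.inj g1).symm
        exact Prod.ext e6 (Prod.ext
          (hpt _ _ (congrArg Prod.fst e7)) (Prod.ext (congrArg (·.2.1) e7) e0))
      · have hh' : ¬ hit k' := by rw [← p6, ← e5, p6]; exact hh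
        have e6 := f1.2
        rw [e5, f2.2] at e6
        have e7 : k.2.1 = k'.2.1 := by
          simpa using hpt _ _ (congrArg Prod.fst (Option.some.inj e6)).symm
        rw [(p2 k hh).2, (p2 k' hh').2, e7] at e5
        obtain ⟨e8, e9⟩ := l6 _ _ _ _ _ _ _ e5
        exact Prod.ext e8 (Prod.ext e7 (Prod.ext e9 e0))
  · intro P b a hP
    refine le_trans (card_le_card (t := (univ.filter fun l => lab l (P, b, some a) ≠ some (P, 0)) ∪
      univ.biUnion fun j => univ.filter fun l => it j l = some (P, b, some a)) fun i hi => ?_)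
      ((card_union_le _ _).trans (Nat.add_le_add (l8 (P, b, some a) hP)
        (card_biUnion_le.trans ?_)))
    · simp only [mem_union, mem_filter, mem_univ, true_and, mem_biUnion]
      rcases (mem_filter.1 hi).2 with h | ⟨k, -, rfl, h⟩
      · exact .inl h
      · rcases (r1 _ _).1 h with h | h
        · exact .inr ⟨k.1, h ▸ (p1 k (r3 k (by simp [h]))).1⟩
        · left
          rw [← h, (p5 k).2]
          simp
    · refine (sum_le_card_nsmul _ _ 1 fun j _ => ?_).trans (by simp)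
      rw [i1]
      simp only [hcnt, ccnt]
      split_ifs <;> omega
  · have key : ∀ θ i, (univ.filter fun k : K => k.2.2.2 = i ∧
        ((bw w (xa k).2.1, lab i (xa k)), (bw w (ya k).2.1, lab i (ya k))) = θ) =
        univ.filter fun k : K => k.2.2.2 = i ∧ (if k.2.1 then
          ((bw w k.2.2.1, some (0, 0)), (1, some (2, 1))) else
          ((1, some (0, 1)), (bw w k.2.2.1, some (2, 0)))) = θ := by
      intro θ i
      refine filter_congr fun k _ => and_congr_right ?_
      rintro rfl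
      have f1 := p5 k
      obtain ⟨j, _ | _, b, l⟩ := k <;>
        simp only [xa, ya, Bool.false_eq_true, if_false, if_true, (p4 _).1, (p3 _).2] <;>
        simp only at f1 <;> rw [f1.1, f1.2] <;> rfl
    intro θ i j
    rw [key, key, r4 (fun d b => (if d then ((bw w b, some (0, 0)), (1, some (2, 1))) else
          ((1, some (0, 1)), (bw w b, some (2, 0)))) = θ), r4 (fun d b => (if d then
          ((bw w b, some (0, 0)), (1, some (2, 1))) else
          ((1, some (0, 1)), (bw w b, some (2, 0)))) = θ)]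
  · intro P Q h hP hQ
    obtain ⟨rfl, rfl⟩ : P = 0 ∧ Q = 2 := by revert P Q; decide
    rw [← hz, ← hz]
    have e1 : ∑ k : K, (if (xa k).1 = 0 ∧ (ya k).1 = 2 then bw w (xa k).2.1 * bw w (ya k).2.1 else 0)
        + ∑ k : K, (if (cen k).1 = 1 then bw w (par k).2.1 else 0) = s * (2 * (w + 1)) * t := by
      rw [← sum_add_distrib, sum_congr rfl (g := fun k : K => bw w k.2.2.1)]
      · simp [K, Fintype.sum_prod_type]
        ring
      · rintro ⟨j, d, b, l⟩ _
        have := (p4 (j, d, b, l)).2.2.2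
        by_cases hh : hit (j, d, b, l) <;> cases d <;>
          simp [xa, ya, this, (p3 _).1, (p3 _).2, (p4 _).1, hh, pt]
    have e2 : ∑ k : K, (if (cen k).1 = 1 then bw w (par k).2.1 else 0) = (z 0 + z 2) * s := by
      rw [← sum_pair univ par cen (fun x y => if y.1 = 1 then bw w x.2.1 else 0), ← hsumc 0,
        ← hsumc 2, ← sum_add_distrib]
      conv_rhs => rw [← hz1, ← hsumc 1, sum_mul_sum]
      refine sum_congr rfl fun x _ => sum_congr rfl fun y _ => ?_
      by_cases hy : y.1 = 1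
      · by_cases hx : x.1 = 1
        · rw [filter_eq_empty_iff.2]
          · simp [hx]
          · rintro k _ ⟨rfl, -⟩
            exact hpt1 _ hx
        · rw [q1 x y hx hy]
          by_cases hc : cnt y = 0
          · simp [hc]
          · obtain ⟨a, -, rfl⟩ := hC y hy hc
            obtain ⟨_ | _, e, -⟩ := hpt2 _ hx <;> simp [e, pt] <;> ring
      · simp [hy]
    refine Nat.ModEq.add_right_cancel' ((z 0 + z 2) * s) ?_
    rw [← e2, e1, e2]
    refine ((Nat.modEq_zero_iff_dvd.2 ?_).trans (Nat.modEq_zero_iff_dvd.2 (dvd_mul_left _ _)).symm)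
    convert hq using 1
    rw [hz1]
    ring
  · intro P Q b b' h hP hQ
    obtain ⟨rfl, rfl⟩ : P = 0 ∧ Q = 2 := by revert P Q; decide
    exact hshare b b'
  · intro P Q b b' h hP hQ h1 h2
    clear h1 h2
    obtain ⟨rfl, rfl⟩ : P = 0 ∧ Q = 2 := by revert P Q; decide
    exact ⟨(hspl b').1, (hspl b).2⟩
  · intro P b
    by_cases hP : P = 1
    · simp [hP, hn1]
    · obtain ⟨d, rfl, -⟩ := hpt2 P hP
      have := hbig d b
      generalize t / U = v at this
      omega
  · rintro P hP i x d _ rfl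
    exact l10 i x d fun h => hP (h ▸ hm)
  · intro P hP x j hc hx
    by_cases h : x.1 = 1
    · obtain ⟨a, ha, rfl⟩ := hC x h hc
      simp only [l2 _ a ha]
      exact l12 P j (Ne.symm hx)
    · exact l11 P x j h hx

end Pool.Agent.Lib.MP_351560_co
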