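import Mathlib
import Pool.Agent.Lib.MP_351560_co.Small
import Pool.Agent.Lib.MP_351560_co.Star

set_option autoImplicit false
set_option linter.unusedSimpArgs false
set_option linter.unusedVariables false

namespace Pool.Agent.Lib.MP_351560_co

open Finset

lemma good_of_embed {T γ V : Type} [Fintype T] [Fintype γ] [Fintype V] {t : ℕ}
    (hT : Fintype.card T = t) (p : V → Fin 3) (ψ : T → γ → V) (R : γ → γ → Prop)
    (hψ : ∀ i, Function.Injective (ψ i)) (hR : ∀ a b, R a b → R b a)
    (hp : ∀ i a b, R a b → p (ψ i a) ≠ p (ψ i b))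
    (hc : ∀ u v, p u < p v → ∃! i, ∃ a b, R a b ∧ ψ i a = u ∧ ψ i b = v) :
    Good t fun P => (univ.filter fun v => p v = P).card := by
  let e := (Fintype.equivFinOfCardEq hT).symm
  have hs : ∀ i u v, (∃ a b, R a b ∧ ψ i a = u ∧ ψ i b = v) →
      ∃ a b, R a b ∧ ψ i a = v ∧ ψ i b = u := fun i u v ⟨a, b, h, h1, h2⟩ =>
    ⟨b, a, hR _ _ h, h2, h1⟩
  refine LF.good (lab := fun _ _ => ())
    ⟨fun i u v => ∃ a b, R a b ∧ ψ (e i) a = u ∧ ψ (e i) b = v, fun i => hs _, ?_, ?_, ?_⟩
  · rintro i u v ⟨a, b, h, rfl, rfl⟩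
    exact hp _ a b h
  · intro u v h
    rcases lt_or_gt_of_ne h with h | h
    · obtain ⟨i, hi, hi'⟩ := hc u v h
      exact ⟨e.symm i, by simpa using hi, fun j hj => by rw [← hi' _ hj]; simp⟩
    · obtain ⟨i, hi, hi'⟩ := hc v u h
      exact ⟨e.symm i, by simpa using hs _ _ _ hi, fun j hj => by rw [← hi' _ (hs _ _ _ hj)]; simp⟩
  · intro i j
    obtain ⟨φ, hφ, -⟩ := lab_extend (ψ (e i)) (ψ (e j)) (hψ _) (hψ _) (fun _ => ()) (fun _ => ())
      (fun _ => rfl) (fun _ => rfl)
    refine ⟨φ, fun u v => ⟨?_, ?_⟩, fun _ => rfl⟩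
    · rintro ⟨a, b, h, rfl, rfl⟩
      exact ⟨a, b, h, (hφ a).symm, (hφ b).symm⟩
    · rintro ⟨a, b, h, h1, h2⟩
      rw [← hφ] at h1 h2
      exact ⟨a, b, h, φ.injective h1, φ.injective h2⟩

theorem good_11 {x : ℕ} (hx : 0 < x) : Good (2 * x + 1) ![3 * x + 1, 1, 1] := by
  let p : (Fin (x + 1) ⊕ Fin x ⊕ Fin x) ⊕ Bool → Fin 3 := fun z => match z with
    | .inl _ => 0
    | .inr true => 1
    | .inr false => 2
  let ψ : Unit ⊕ Fin x ⊕ Fin x → Fin 4 → (Fin (x + 1) ⊕ Fin x ⊕ Fin x) ⊕ Bool := fun i =>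
    match i with
    | .inl _ => ![.inl (.inl 0), .inr true, .inr false, .inl (.inl (Fin.last x))]
    | .inr (.inl j) => ![.inl (.inl j.succ), .inr true, .inl (.inr (.inl j)), .inr false]
    | .inr (.inr j) => ![.inl (.inl j.castSucc), .inr false, .inl (.inr (.inr j)), .inr true]
  have h0 : (0 : Fin (x + 1)) ≠ Fin.last x := by
    simp [Fin.ext_iff]
    omega
  have := good_of_embed (t := 2 * x + 1) (by simp; ring) p ψ
    (fun a b => a.val + 1 = b.val ∨ b.val + 1 = a.val) ?_ (fun a b h => h.symm) ?_ ?_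
  · convert this using 2 with P
    rw [card_filter, Fintype.sum_sum_type, Fintype.sum_bool]
    fin_cases P <;> simp [p]
    ring
  · rintro (i | j | j) a b <;> fin_cases a <;> fin_cases b <;> simp [ψ, h0, h0.symm]
  · rintro (i | j | j) a b <;> fin_cases a <;> fin_cases b <;> simp [ψ, p]
  · have key : ∀ (q : Unit ⊕ Fin x ⊕ Fin x → Prop), (∃! i, q i) ↔
        (q (.inl ()) ∧ (∀ j, ¬ q (.inr (.inl j))) ∧ ∀ j, ¬ q (.inr (.inr j))) ∨
        (¬ q (.inl ()) ∧ (∃! j, q (.inr (.inl j))) ∧ ∀ j, ¬ q (.inr (.inr j))) ∨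
        (¬ q (.inl ()) ∧ (∀ j, ¬ q (.inr (.inl j))) ∧ ∃! j, q (.inr (.inr j))) := by
      intro q
      constructor
      · rintro ⟨i | j | j, h, h'⟩
        · exact .inl ⟨h, fun j hj => by simpa using h' _ hj, fun j hj => by simpa using h' _ hj⟩
        · exact .inr (.inl ⟨fun hj => by simpa using h' _ hj,
            ⟨j, h, fun j hj => by simpa using h' _ hj⟩, fun j hj => by simpa using h' _ hj⟩)
        · exact .inr (.inr ⟨fun hj => by simpa using h' _ hj, fun j hj => by simpa using h' _ hj,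
            ⟨j, h, fun j hj => by simpa using h' _ hj⟩⟩)
      · rintro (⟨h1, h2, h3⟩ | ⟨h1, ⟨j, h2, h2'⟩, h3⟩ | ⟨h1, h2, j, h3, h3'⟩)
        · refine ⟨_, h1, ?_⟩
          rintro (i | i | i) h
          exacts [rfl, absurd h (h2 _), absurd h (h3 _)]
        · refine ⟨_, h2, ?_⟩
          rintro (i | i | i) h
          exacts [absurd h h1, by rw [h2' _ h], absurd h (h3 _)]
        · refine ⟨_, h3, ?_⟩
          rintro (i | i | i) h
          exacts [absurd h h1, absurd h (h2 _), by rw [h3' _ h]]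
    rintro ((w | a | a) | _ | _) (v | _ | _) h <;> simp only [p] at h <;>
      first
      | exact absurd h (by decide)
      | (rw [key]; simp [ψ, Fin.exists_fin_succ])
    · refine Fin.lastCases ?_ (fun j => ?_) w
      · simp [Fin.castSucc_ne_last]
      · simp [(Fin.castSucc_ne_last j).symm]
    · refine Fin.cases ?_ (fun j => ?_) w
      · simp [Fin.succ_ne_zero]
      · simp [(Fin.succ_ne_zero j).symm]

theorem nec_11 {V : Type} [Fintype V] {G : SimpleGraph V} {t m : ℕ} (ht : 2 ≤ t) (u v : V)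
    (huv : G.Adj u v) (hG : ∀ x y, G.Adj x y → x = u ∨ x = v ∨ y = u ∨ y = v)
    (hu : (G.neighborSet u).ncard = m + 1) (hv : (G.neighborSet v).ncard = m + 1)
    (h : Divisible G t) : 2 * m + 1 = t ∨ 2 * m + 1 = 3 * t := by
  classical
  obtain ⟨H, h1, h2, h3⟩ := h
  let d : Fin t → V → ℕ := fun i x => (univ.filter fun y => (H i).Adj x y).card
  have hsum : ∀ x, ∑ i, d i x = (G.neighborSet x).ncard := by
    intro x
    rw [Set.ncard_eq_toFinset_card', ← card_biUnion]
    · congr 1
      ext y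
      simp only [mem_biUnion, mem_univ, mem_filter, true_and, Set.mem_toFinset,
        SimpleGraph.mem_neighborSet]
      exact ⟨fun ⟨i, hi⟩ => h1 i hi, fun h => (h2 x y h).exists⟩
    · intro i _ j _ hij
      rw [Function.onFun, disjoint_filter]
      exact fun y _ hi hj => hij ((h2 x y (h1 i hi)).unique hi hj)
  obtain ⟨i0, hi0, hi0'⟩ := h2 u v huv
  have hne := huv.ne
  have key : ∀ i, i ≠ i0 → ∀ x y, (H i).Adj x y →
      (∀ a b, (H i).Adj a b → a = x ∨ a = y ∨ b = x ∨ b = y) → (x = u ∨ x = v) →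
      d i y ≤ 2 ∧ ((d i u = d i x ∧ d i v + 1 = d i y) ∨ (d i v = d i x ∧ d i u + 1 = d i y)) := by
    have aux : ∀ i (u v y : V), u ≠ v → ¬ (H i).Adj u v → (H i).Adj u y →
        (∀ x y, G.Adj x y → x = u ∨ x = v ∨ y = u ∨ y = v) →
        (∀ a b, (H i).Adj a b → a = u ∨ a = y ∨ b = u ∨ b = y) →
        d i y ≤ 2 ∧ d i v + 1 = d i y := by
      intro i u v y hne hn hy hG hc
      have hyv : y ≠ v := fun h => hn (h ▸ hy)
      have hyu : y ≠ u := hy.ne.symm
      by_cases hvy : (H i).Adj v y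
      · have e1 : (univ.filter fun z => (H i).Adj y z) = {u, v} := by
          ext z
          simp only [mem_filter, mem_univ, true_and, mem_insert, mem_singleton]
          constructor
          · intro h
            have := hG _ _ (h1 i h)
            tauto
          · rintro (rfl | rfl)
            exacts [hy.symm, hvy.symm]
        have e2 : (univ.filter fun z => (H i).Adj v z) = {y} := by
          ext z
          simp only [mem_filter, mem_univ, true_and, mem_singleton]
          constructor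
          · intro h
            rcases hc _ _ h with h' | h' | h' | h'
            exacts [absurd h'.symm hne, absurd h'.symm hyv, absurd (h' ▸ h).symm hn, h']
          · rintro rfl
            exact hvy
        simp only [d, e1, e2, card_pair hne, card_singleton, le_refl, and_self]
      · have e1 : (univ.filter fun z => (H i).Adj y z) = {u} := by
          ext z
          simp only [mem_filter, mem_univ, true_and, mem_singleton]
          constructor
          · intro h
            rcases hG _ _ (h1 i h) with h' | h' | h' | h'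
            exacts [absurd h' hyu, absurd h' hyv, h', absurd (h' ▸ h).symm hvy]
          · rintro rfl
            exact hy.symm
        have e2 : (univ.filter fun z => (H i).Adj v z) = ∅ := by
          rw [filter_eq_empty_iff]
          intro z _ h
          rcases hc _ _ h with h' | h' | h' | h'
          exacts [absurd h'.symm hne, absurd h'.symm hyv, absurd (h' ▸ h).symm hn, hvy (h' ▸ h)]
        simp [d, e1, e2]
    intro i hi x y hxy hc hx
    have hn : ¬ (H i).Adj u v := fun h => hi (hi0' i h)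
    rcases hx with rfl | rfl
    · obtain ⟨a1, a2⟩ := aux i x v y hne hn hxy hG hc
      exact ⟨a1, .inl ⟨rfl, a2⟩⟩
    · obtain ⟨a1, a2⟩ := aux i x u y hne.symm (fun h => hn h.symm) hxy
        (fun a b h => by have := hG a b h; tauto) hc
      exact ⟨a1, .inr ⟨rfl, a2⟩⟩
  have main : ∀ i, i ≠ i0 →
      (d i0 v ≤ 2 ∧ ((d i u = d i0 u ∧ d i v + 1 = d i0 v) ∨
        (d i v = d i0 u ∧ d i u + 1 = d i0 v))) ∨
      (d i0 u ≤ 2 ∧ ((d i u = d i0 v ∧ d i v + 1 = d i0 u) ∨
        (d i v = d i0 v ∧ d i u + 1 = d i0 u))) := by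
    intro i hi
    obtain ⟨φ⟩ := h3 i0 i
    have hd : ∀ x, d i (φ x) = d i0 x := fun x =>
      (card_bijective φ φ.bijective (fun y => by simp [φ.map_rel_iff])).symm
    have hadj : (H i).Adj (φ u) (φ v) := φ.map_rel_iff.2 hi0
    have hc : ∀ a b, (H i).Adj a b → a = φ u ∨ a = φ v ∨ b = φ u ∨ b = φ v := by
      intro a b hab
      obtain ⟨a, rfl⟩ := φ.surjective a
      obtain ⟨b, rfl⟩ := φ.surjective b
      simpa using hG a b (h1 i0 (φ.map_rel_iff.1 hab))
    rw [← hd u, ← hd v]
    rcases hG _ _ (h1 i hadj) with h | h | h | h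
    · exact .inl (key i hi _ _ hadj hc (.inl h))
    · exact .inl (key i hi _ _ hadj hc (.inr h))
    · exact .inr (key i hi _ _ hadj.symm (fun a b h => by have := hc a b h; tauto) (.inl h))
    · exact .inr (key i hi _ _ hadj.symm (fun a b h => by have := hc a b h; tauto) (.inr h))
  have su := (hsum u).trans hu
  have sv := (hsum v).trans hv
  rw [← add_sum_erase _ _ (mem_univ i0)] at su sv
  have e1 : ∑ i ∈ univ.erase i0, (d i u + d i v + 1) = (t - 1) * (d i0 u + d i0 v) := by
    rw [sum_congr rfl (g := fun _ => d i0 u + d i0 v)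
      (fun i hi => by have := main i (ne_of_mem_erase hi); omega)]
    simp
  rw [sum_add_distrib, sum_add_distrib] at e1
  simp only [sum_const, card_erase_of_mem (mem_univ i0), card_univ, Fintype.card_fin,
    smul_eq_mul, mul_one] at e1
  have pu : 0 < d i0 u := card_pos.2 ⟨v, by simpa using hi0⟩
  have pv : 0 < d i0 v := card_pos.2 ⟨u, by simpa using hi0.symm⟩
  have hdiv : ∀ c : ℤ, (∀ i, i ≠ i0 → c ∣ (d i u : ℤ) - d i v) → c ∣ (d i0 v : ℤ) - d i0 u := by
    intro c hc
    have : (d i0 v : ℤ) - d i0 u = ∑ i ∈ univ.erase i0, ((d i u : ℤ) - d i v) := by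
      rw [sum_sub_distrib, ← Nat.cast_sum, ← Nat.cast_sum]
      omega
    rw [this]
    exact dvd_sum fun i hi => hc i (ne_of_mem_erase hi)
  obtain ⟨i1, hi1⟩ : ∃ i1 : Fin t, i1 ≠ i0 := by
    have : Nontrivial (Fin t) := Fin.nontrivial_iff_two_le.2 ht
    exact exists_ne i0
  have hle : d i0 u ≤ 2 ∧ d i0 v ≤ 2 := by
    by_contra hh
    rcases main i1 hi1 with ⟨a, -⟩ | ⟨a, -⟩
    · have := hdiv ((d i0 u : ℤ) - d i0 v + 1) (fun i hi => by
        rcases main i hi with ⟨-, b | b⟩ | ⟨b, -⟩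
        · exact ⟨1, by omega⟩
        · exact ⟨-1, by omega⟩
        · omega)
      have h' : ((d i0 u : ℤ) - d i0 v + 1) ∣ 1 := by
        have := dvd_add this (dvd_refl _)
        rwa [show (d i0 v : ℤ) - d i0 u + ((d i0 u : ℤ) - d i0 v + 1) = 1 by ring] at this
      have := Int.le_of_dvd one_pos h'
      omega
    · have := hdiv ((d i0 v : ℤ) - d i0 u + 1) (fun i hi => by
        rcases main i hi with ⟨b, -⟩ | ⟨-, b | b⟩
        · omega
        · exact ⟨1, by omega⟩
        · exact ⟨-1, by omega⟩)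
      have h' : ((d i0 v : ℤ) - d i0 u + 1) ∣ 1 := by
        have := dvd_sub (dvd_refl _) this
        rwa [show (d i0 v : ℤ) - d i0 u + 1 - ((d i0 v : ℤ) - d i0 u) = 1 by ring] at this
      have := Int.le_of_dvd one_pos h'
      omega
  obtain ⟨l1, l2⟩ := hle
  generalize d i0 u = a at *
  generalize d i0 v = b at *
  interval_cases a <;> interval_cases b <;> omega

theorem one_one {t m : ℕ} (ht : 2 ≤ t) (hm : 1 ≤ m) :
    Divisible (K m 1 1) t ↔ 2 * m + 1 = t ∨ 2 * m + 1 = 3 * t := by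
  constructor
  · have hn : ∀ u : Σ i : Fin 3, Fin (![m, 1, 1] i), u.1 ≠ 0 →
        ((K m 1 1).neighborSet u).ncard = m + 1 := by
      intro u hu
      have : (K m 1 1).neighborSet u = ↑(univ.filter fun w : Σ i : Fin 3, Fin (![m, 1, 1] i) =>
          u.1 ≠ w.1) := by
        ext w
        simp [K]
      rw [this, Set.ncard_coe_finset, card_sigma_pred ![m, 1, 1] (fun z => u.1 ≠ z)]
      obtain ⟨i, j⟩ := u
      fin_cases i <;> simp [Fin.sum_univ_three] at hu ⊢
    refine nec_11 ht ⟨1, (0 : Fin 1)⟩ ⟨2, (0 : Fin 1)⟩ (by simp [K]) ?_ (hn _ (by simp))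
      (hn _ (by simp))
    have hs : ∀ u : Σ i : Fin 3, Fin (![m, 1, 1] i), u.1 = 0 ∨ u = ⟨1, (0 : Fin 1)⟩ ∨
        u = ⟨2, (0 : Fin 1)⟩ := by
      rintro ⟨i, j⟩
      fin_cases i
      · exact .inl rfl
      · exact .inr (.inl (by rw [Subsingleton.elim (α := Fin 1) j 0]; rfl))
      · exact .inr (.inr (by rw [Subsingleton.elim (α := Fin 1) j 0]; rfl))
    intro x y hxy
    have : x.1 ≠ y.1 := by simpa [K] using hxy
    rcases hs x with h | h | h
    · rcases hs y with h' | h' | h'
      · exact absurd (h.trans h'.symm) this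
      · tauto
      · tauto
    · tauto
    · tauto
  · rintro (h | h)
    · exact (good_small (by omega) (by omega) (by omega) (by omega) ⟨1, by omega⟩).divisible
    · obtain ⟨x, rfl, rfl⟩ : ∃ x, t = 2 * x + 1 ∧ m = 3 * x + 1 := ⟨t / 2, by omega, by omega⟩
      exact (good_11 (by omega)).divisible

end Pool.Agent.Lib.MP_351560_co
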