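import Mathlib
import Pool.Agent.Lib.MP_351560_co.Star

set_option autoImplicit false
set_option linter.unusedSimpArgs false
set_option linter.unusedVariables false

namespace Pool.Agent.Lib.MP_351560_co

open Finset

lemma state_fill {D S : Type} [Fintype D] [DecidableEq D] [Fintype S] [DecidableEq S]
    (c : S → ℕ) (hc : ∑ σ, c σ = Fintype.card D) (σ0 σ1 : S) (hne : σ0 ≠ σ1) (S0 S1 : Finset D)
    (hd : ∀ v, v ∈ S0 → v ∉ S1) (h0 : S0.card ≤ c σ0) (h1 : S1.card ≤ c σ1) :
    ∃ f : D → S, (∀ σ, (univ.filter fun v => f v = σ).card = c σ) ∧ (∀ v ∈ S0, f v = σ0) ∧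
      ∀ v ∈ S1, f v = σ1 := by
  let f : S0 ⊕ S1 → D := Sum.elim Subtype.val Subtype.val
  let g : S0 ⊕ S1 → Σ σ, Fin (c σ) :=
    Sum.elim (fun a => ⟨σ0, Fin.castLE h0 (S0.equivFin a)⟩)
      (fun a => ⟨σ1, Fin.castLE h1 (S1.equivFin a)⟩)
  obtain ⟨e, he, -⟩ := lab_extend f g (by
      rintro (a | a) (b | b) h <;> simp only [f, Sum.elim_inl, Sum.elim_inr] at h
      · rw [Subtype.ext h]
      · exact absurd (h ▸ b.2) (hd _ a.2)
      · exact absurd (h ▸ a.2) (hd _ b.2)
      · rw [Subtype.ext h]) (by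
      rintro (a | a) (b | b) h <;> simp only [g, Sum.elim_inl, Sum.elim_inr] at h
      · simpa using h
      · exact absurd (congrArg Sigma.fst h) hne
      · exact absurd (congrArg Sigma.fst h) hne.symm
      · simpa using h) (fun _ => ()) (fun _ => ()) (fun _ => rfl) (by simp [hc])
  refine ⟨fun v => (e v).1, fun σ => ?_, fun v hv => ?_, fun v hv => ?_⟩
  · rw [← card_sigma_fib c σ]
    exact card_bijective e e.bijective (by simp)
  · exact congrArg Sigma.fst (he (.inl ⟨v, hv⟩))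
  · exact congrArg Sigma.fst (he (.inr ⟨v, hv⟩))

theorem core3 {S : Type} [Fintype S] [DecidableEq S] {t m n s : ℕ} (sz c : S → ℕ) (σ0 σ1 : S)
    (h0 : sz σ0 = 0) (h1 : 1 ≤ sz σ1) (g t1 : ℕ) (hg : 0 < g) (hg0 : g ≤ c σ0) (hg1 : g ≤ c σ1)
    (ht1 : s + n + n * s / g < t1) (ht : t1 ≤ t) (hc : ∑ σ, c σ = n + s)
    (Tot : Fin n ⊕ Fin s → S → ℕ) (hT : ∀ v σ, t1 ≤ Tot v σ) (hrow : ∀ v, ∑ σ, Tot v σ = t)
    (hcol : ∀ σ, ∑ v, Tot v σ = t * c σ) (hB : ∀ b, ∑ σ, Tot (.inl b) σ * sz σ = m)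
    (hC : ∀ b, ∑ σ, Tot (.inr b) σ * sz σ = m + n) (hk : ∑ σ, c σ * sz σ ≤ m) :
    Good t ![m, n, s] := by
  classical
  have : Nonempty (Fin t1) := ⟨⟨0, lt_of_le_of_lt (Nat.zero_le _) ht1⟩⟩
  obtain ⟨τ, -, hτ⟩ := greedy (T := Fin t1) (univ : Finset (Fin n × Fin s))
    (fun e => ({some (.inl e.1), some (.inr e.2), none} : Finset (Option (Fin n ⊕ Fin s))))
    (fun r => if r = none then g else 1) (fun _ => ∅)
    (fun e _ r _ => by split_ifs <;> omega) (by
      rintro ⟨b, d⟩ _
      rw [sum_insert (by simp), sum_insert (by simp), sum_singleton]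
      have e1 : (univ.filter fun e' : Fin n × Fin s => b = e'.1).card = s := by
        rw [card_filter, Fintype.sum_prod_type, sum_eq_single b] <;> simp +contextual [eq_comm]
      have e2 : (univ.filter fun e' : Fin n × Fin s => d = e'.2).card = n := by
        rw [card_filter, Fintype.sum_prod_type]
        simp
      simp [e1, e2]
      omega)
  have hτ1 : ∀ b d d', τ (b, d) = τ (b, d') → d = d' := by
    intro b d d' h
    have := card_le_one.1 (by simpa using hτ (some (.inl b)) (τ (b, d))) (b, d) (by simp) (b, d')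
      (by simp [h])
    exact congrArg Prod.snd this
  have hτ2 : ∀ b b' d, τ (b, d) = τ (b', d) → b = b' := by
    intro b b' d h
    have := card_le_one.1 (by simpa using hτ (some (.inr d)) (τ (b, d))) (b, d) (by simp) (b', d)
      (by simp [h])
    exact congrArg Prod.fst this
  have hτ3 : ∀ i, (univ.filter fun e => τ e = i).card ≤ g := fun i => by simpa using hτ none i
  have hne : σ0 ≠ σ1 := fun h => by rw [← h] at h1; omega
  have hs1 : ∀ i, ∃ f : Fin n ⊕ Fin s → S, (∀ σ, (univ.filter fun v => f v = σ).card = c σ) ∧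
      (∀ v ∈ (univ.filter fun e => τ e = i).image (fun e => Sum.inl e.1), f v = σ0) ∧
      ∀ v ∈ (univ.filter fun e => τ e = i).image (fun e => Sum.inr e.2), f v = σ1 := fun i =>
    state_fill c (by simp [hc]) σ0 σ1 hne _ _ (by simp +contextual)
      (card_image_le.trans ((hτ3 i).trans hg0)) (card_image_le.trans ((hτ3 i).trans hg1))
  choose st1 hs1 hs2 hs3 using hs1
  have hu : ∀ v σ, (univ.filter fun i => st1 i v = σ).card ≤ Tot v σ := fun v σ =>
    (card_le_univ _).trans (by simpa using hT v σ)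
  obtain ⟨st2, hs4, hs5⟩ := sched_state
    (fun v σ => Tot v σ - (univ.filter fun i => st1 i v = σ).card) c (t - t1) (by simp [hc])
    (fun v => by
      rw [sum_tsub_distrib _ (fun σ _ => hu v σ), hrow, sum_fib]
      simp) (fun σ => by
      rw [sum_tsub_distrib _ (fun v _ => hu v σ), hcol, Nat.sub_mul]
      congr 1
      simp only [card_filter]
      rw [sum_comm]
      simp only [← card_filter, hs1]
      simp)
  let st : Fin t1 ⊕ Fin (t - t1) → Fin n ⊕ Fin s → S := Sum.elim st1 st2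
  have hst1 : ∀ i σ, (univ.filter fun v => st i v = σ).card = c σ := by
    rintro (i | i) σ
    · exact hs1 i σ
    · exact hs5 i σ
  have hst2 : ∀ v, ∑ i, sz (st i v) = ∑ σ, Tot v σ * sz σ := by
    intro v
    rw [← sum_fiberwise (s := univ) (g := fun i => st i v)]
    refine sum_congr rfl fun σ _ => ?_
    rw [sum_congr rfl (g := fun _ => sz σ) (fun i hi => by rw [(mem_filter.1 hi).2]), sum_const,
      smul_eq_mul, card_filter, Fintype.sum_sum_type]
    have e1 := Nat.add_sub_cancel' (hu v σ)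
    rw [← hs4, card_filter, card_filter] at e1
    exact congrArg (· * sz σ) e1
  refine good_star (T := Fin t1 ⊕ Fin (t - t1)) (by simp; omega) (fun v i => sz (st i v))
    (fun b d => .inl (τ (b, d))) ?_ ?_ ?_ ?_ (fun b => by rw [hst2, hB])
    (fun b => by rw [hst2, hC]) ?_ ?_
  · intro b d
    simp only [st, Sum.elim_inl]
    rw [hs2 _ _ (mem_image.2 ⟨(b, d), by simp, rfl⟩), h0]
  · intro b d
    simp only [st, Sum.elim_inl]
    rw [hs3 _ _ (mem_image.2 ⟨(b, d), by simp, rfl⟩)]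
    exact h1
  · exact fun b d d' h => hτ1 b d d' (Sum.inl.inj h)
  · exact fun b b' d h => hτ2 b b' d (Sum.inl.inj h)
  · intro i
    rw [← sum_fiberwise (s := univ) (g := fun v => st i v)]
    refine le_trans (le_of_eq (sum_congr rfl fun σ _ => ?_)) hk
    rw [sum_congr rfl (g := fun _ => sz σ) (fun i hi => by rw [(mem_filter.1 hi).2]), sum_const,
      smul_eq_mul, hst1]
  · have key : ∀ k i, (univ.filter fun v => sz (st i v) = k).card =
        ∑ σ, if sz σ = k then c σ else 0 := by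
      intro k i
      rw [card_eq_sum_card_fiberwise (f := fun v => st i v) (t := univ) (fun _ _ => by simp)]
      refine sum_congr rfl fun σ _ => ?_
      rw [filter_filter, ← hst1 i σ]
      split_ifs with h
      · congr 1
        ext v
        simp only [mem_filter, mem_univ, true_and, and_iff_right_iff_imp]
        intro hv
        rw [hv, h]
      · rw [card_eq_zero, filter_eq_empty_iff]
        rintro v _ ⟨h1, h2⟩
        exact h (h2 ▸ h1)
    intro k i j
    rw [key, key]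

/-- The family `K(m,2,1)`. -/
theorem good_21 {t m : ℕ} (ht : 30 ≤ t) (hm : t ≤ m + 2) (hq : t ∣ m * 2 + 2 * 1 + 1 * m) :
    Good t ![m, 2, 1] := by
  obtain ⟨k, hk⟩ := hq
  obtain ⟨x, b, e, he, hx, hb⟩ : ∃ x b e, (e = 1 ∨ e = 2) ∧ t = 3 * x + e ∧
      m = (3 - e) * x + b * t := by
    have h3 : t % 3 = 0 ∨ t % 3 = 1 ∨ t % 3 = 2 := by omega
    have h4 : k % 3 = 0 ∨ k % 3 = 1 ∨ k % 3 = 2 := by omega
    obtain ⟨x, hx⟩ : ∃ x, t = 3 * x + t % 3 := ⟨t / 3, by omega⟩
    obtain ⟨b, hb⟩ : ∃ b, k = 3 * b + k % 3 := ⟨k / 3, by omega⟩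
    have hh : t * k = 3 * (b * t) + (k % 3) * t := by
      conv_lhs => rw [hb]
      ring
    rcases h3 with h3 | h3 | h3 <;> rcases h4 with h4 | h4 | h4 <;> rw [h4] at hh <;>
      first
      | omega
      | exact ⟨x, b, 1, by omega, by omega, by omega⟩
      | exact ⟨x, b, 2, by omega, by omega, by omega⟩
  refine core3 (S := Fin 3) ![0, 2 * b + (3 - e), b] (fun _ => 1) 0 1 rfl (by simp; omega) 1 6
    one_pos le_rfl le_rfl (by norm_num) (by omega) (by simp)
    (Sum.elim (fun _ => ![x, x, t - 2 * x]) (fun _ => ![x + e, x + e, t - 2 * (x + e)]))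
    ?_ ?_ ?_ ?_ ?_ ?_
  · rintro (v | v) σ <;> fin_cases σ <;> simp <;> omega
  · rintro (v | v) <;> simp [Fin.sum_univ_three] <;> omega
  · intro σ
    fin_cases σ <;> simp [Fintype.sum_sum_type] <;> omega
  · intro v
    simp only [Fin.sum_univ_three, Sum.elim_inl, Matrix.cons_val]
    obtain rfl : t = 2 * x + (x + e) := by omega
    rw [Nat.add_sub_cancel_left, hb]
    ring
  · intro v
    simp only [Fin.sum_univ_three, Sum.elim_inr, Matrix.cons_val]
    obtain ⟨y, rfl⟩ : ∃ y, x = y + e := ⟨x - e, by omega⟩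
    obtain rfl : t = 2 * (y + e + e) + y := by omega
    rw [Nat.add_sub_cancel_left, hb]
    rcases he with rfl | rfl <;> norm_num <;> ring
  · simp only [Fin.sum_univ_three, Matrix.cons_val]
    have : b * 3 ≤ b * t := Nat.mul_le_mul_left _ (by omega)
    rcases he with rfl | rfl <;> omega

lemma three_num {t d g a h x0 r y z m0 q : ℕ} (ht : 4000 ≤ t) (hd : 100 * d ≤ t) (hd4 : 4 ≤ d)
    (hns : 4 * q ≤ d * d) (hg : g = d / 16 + 1) (ha : a ≤ 32) (hh1 : g ≤ h)
    (hgh : 4 * (2 * g + h) ≤ 3 * d) (hx0 : g * t = d * x0 + r) (hr : r < d)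
    (hk : m0 * d + q = t * (g * a + h)) (e1 : x0 ≤ y) (e1' : y ≤ x0 + 1) (e2 : z ≤ d) :
    5 * d + 1 ≤ y ∧ a * y + (5 * d + 1) ≤ m0 + z ∧
      2 * y + (m0 + z) + (5 * d + 1) ≤ t + a * y := by
  have hdt : d * (100 * d) ≤ d * t := Nat.mul_le_mul_left _ hd
  have e3' := Nat.mul_le_mul_left d e1'
  have e4' := Nat.mul_le_mul_left d e1
  have e3 : d * y ≤ g * t + d := by linarith
  have e4 : g * t ≤ d * y + d := by linarith
  have e5 : d * t ≤ (16 * g) * t := Nat.mul_le_mul_right _ (by omega)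
  have e6 := Nat.mul_le_mul_left a e3
  have e7 := Nat.mul_le_mul_left a e4
  have e8 := Nat.mul_le_mul_right d ha
  have e9 : g * t ≤ h * t := Nat.mul_le_mul_right _ hh1
  have e10 := Nat.mul_le_mul_right t hgh
  have e11 := Nat.mul_le_mul_left d ht
  have e12 : d * z ≤ d * d := Nat.mul_le_mul_left _ e2
  have e13 : 0 ≤ d * z := Nat.zero_le _
  have e14 : 0 ≤ q := Nat.zero_le _
  refine ⟨?_, ?_, ?_⟩ <;> refine Nat.le_of_mul_le_mul_left (c := d) ?_ (by omega) <;> linarith

theorem good_three {t m n s : ℕ} (ht : 4000 ≤ t) (hd : 100 * (n + s) ≤ t) (hd4 : 4 ≤ n + s)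
    (hm : t ≤ 2 * m) (hq : t ∣ m * n + n * s + s * m) : Good t ![m, n, s] := by
  obtain ⟨d, hdd⟩ : ∃ d, d = n + s := ⟨_, rfl⟩
  rw [← hdd] at hd hd4
  obtain ⟨l, m0, hm0, hm1, hm2⟩ : ∃ l m0, m = m0 + l * t ∧ t ≤ 2 * m0 ∧ 2 * m0 ≤ 3 * t := by
    refine ⟨(m - (t + 1) / 2) / t, (t + 1) / 2 + (m - (t + 1) / 2) % t, ?_, by omega, ?_⟩
    · have := Nat.div_add_mod' (m - (t + 1) / 2) t
      omega
    · have := Nat.mod_lt (m - (t + 1) / 2) (show 0 < t by omega)
      omega
  obtain ⟨k, hk⟩ : t ∣ m0 * d + n * s := by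
    have : m * n + n * s + s * m = t * (l * d) + (m0 * d + n * s) := by
      rw [hm0, hdd]
      ring
    rw [this] at hq
    exact (Nat.dvd_add_right (dvd_mul_right _ _)).1 hq
  have hns : 4 * (n * s) ≤ d * d := by rw [hdd]; nlinarith [sq_nonneg ((n : ℤ) - s)]
  have hdt : 100 * (d * d) ≤ t * d := by nlinarith
  have hk1 : d ≤ 2 * k := by
    refine Nat.le_of_mul_le_mul_left (c := t) ?_ (by omega)
    nlinarith
  have hk2 : k ≤ 2 * d := by
    refine Nat.le_of_mul_le_mul_left (c := t) ?_ (by omega)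
    nlinarith
  obtain ⟨g, hg⟩ : ∃ g, g = d / 16 + 1 := ⟨_, rfl⟩
  have hg0 : 0 < g := by omega
  obtain ⟨a, h, hah, hh1, hh2⟩ : ∃ a h, k = g * a + h ∧ g ≤ h ∧ h < 2 * g := by
    refine ⟨(k - g) / g, g + (k - g) % g, ?_, by omega, ?_⟩
    · have := Nat.div_add_mod (k - g) g
      omega
    · have := Nat.mod_lt (k - g) hg0
      omega
  have ha : a ≤ 32 := by
    refine Nat.le_of_mul_le_mul_left (c := g) ?_ hg0
    omega
  have hgh : 4 * (2 * g + h) ≤ 3 * d := by
    rcases lt_or_ge d 16 with h16 | h16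
    · obtain rfl : g = 1 := by omega
      omega
    · omega
  obtain ⟨x0, r, hx0, hr⟩ : ∃ x0 r, g * t = d * x0 + r ∧ r < d :=
    ⟨g * t / d, g * t % d, (Nat.div_add_mod _ _).symm, Nat.mod_lt _ (by omega)⟩
  obtain ⟨Z, -, hZ⟩ := exists_subset_card_eq (s := (univ : Finset (Fin n ⊕ Fin s))) (n := r)
    (by simp; omega)
  let x : Fin n ⊕ Fin s → ℕ := fun v => x0 + if v ∈ Z then 1 else 0
  let o : Fin n ⊕ Fin s → ℕ := Sum.elim (fun _ => 0) (fun _ => n)
  have hx : ∑ v, x v = t * g := by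
    simp only [x, sum_add_distrib, sum_const, card_univ, Fintype.card_sum, Fintype.card_fin,
      smul_eq_mul, ← hdd, sum_boole, filter_mem_eq_inter, univ_inter, hZ, Nat.cast_id]
    linarith
  have ho : ∑ v, o v = n * s := by simp [o, Fintype.sum_sum_type, mul_comm]
  have hb : ∀ v, 5 * d + 1 ≤ x v ∧ a * x v + (5 * d + 1) ≤ m0 + o v ∧
      2 * x v + (m0 + o v) + (5 * d + 1) ≤ t + a * x v := by
    intro v
    have e1 : x0 ≤ x v ∧ x v ≤ x0 + 1 := by
      simp only [x]
      split_ifs <;> omega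
    have e2 : o v ≤ d := by
      rcases v with v | v <;> simp [o]
      omega
    exact three_num ht hd hd4 hns hg ha hh1 hgh hx0 hr (by rw [hk, hah]) e1.1 e1.2 e2
  refine core3 (S := Fin 4) ![0, a + 2 * l, 1 + l, l] ![g, g, h, d - 2 * g - h] 0 2 rfl
    (by simp) g (5 * d + 1) hg0 le_rfl hh1 ?_ (by omega) (by simp [Fin.sum_univ_four]; omega)
    (fun v => ![x v, x v, m0 + o v - a * x v, t - 2 * x v - (m0 + o v - a * x v)])
    ?_ ?_ ?_ ?_ ?_ ?_
  · have : n * s / g ≤ 4 * d := by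
      rw [Nat.div_le_iff_le_mul_add_pred hg0]
      have : d * d ≤ d * (16 * g) := Nat.mul_le_mul_left _ (by omega)
      have : n * s ≤ g * (4 * d) := by nlinarith
      omega
    omega
  · intro v σ
    have := hb v
    fin_cases σ <;> simp <;> omega
  · intro v
    have := hb v
    simp [Fin.sum_univ_four]
    omega
  · have e1 : ∑ v, (m0 + o v - a * x v) = t * h := by
      rw [sum_tsub_distrib _ (fun v _ => by have := hb v; omega), sum_add_distrib, ← mul_sum, hx,
        ho]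
      simp only [sum_const, card_univ, Fintype.card_sum, Fintype.card_fin, smul_eq_mul, ← hdd]
      have : d * m0 + n * s = a * (t * g) + t * h := by rw [mul_comm d, hk, hah]; ring
      omega
    intro σ
    fin_cases σ
    · exact hx
    · exact hx
    · exact e1
    · simp only [Fin.reduceFinMk, Matrix.cons_val]
      rw [sum_tsub_distrib _ (fun v _ => by have := hb v; omega),
        sum_tsub_distrib _ (fun v _ => by have := hb v; omega), e1, ← mul_sum, hx]
      simp only [sum_const, card_univ, Fintype.card_sum, Fintype.card_fin, smul_eq_mul, ← hdd]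
      rw [Nat.mul_sub, Nat.mul_sub]
      congr 2 <;> ring
  · intro v
    have := hb (.inl v)
    simp only [Fin.sum_univ_four, Matrix.cons_val, o, Sum.elim_inl, add_zero] at this ⊢
    generalize x (.inl v) = y at this
    obtain ⟨z, hz⟩ : ∃ z, m0 = a * y + z := ⟨m0 - a * y, by omega⟩
    obtain ⟨u, hu⟩ : ∃ u, t = 2 * y + z + u := ⟨t - 2 * y - z, by omega⟩
    rw [show m0 - a * y = z by omega, show t - 2 * y - z = u by omega, hm0, hz, hu]
    ring
  · intro v
    have := hb (.inr v)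
    simp only [Fin.sum_univ_four, Matrix.cons_val, o, Sum.elim_inr, add_zero] at this ⊢
    generalize x (.inr v) = y at this
    obtain ⟨z, hz⟩ : ∃ z, m0 + n = a * y + z := ⟨m0 + n - a * y, by omega⟩
    obtain ⟨u, hu⟩ : ∃ u, t = 2 * y + z + u := ⟨t - 2 * y - z, by omega⟩
    rw [show m0 + n - a * y = z by omega, show t - 2 * y - z = u by omega, hm0, add_right_comm m0,
      hz, hu]
    ring
  · simp only [Fin.sum_univ_four, Matrix.cons_val]
    obtain ⟨u, hu⟩ : ∃ u, d = 2 * g + h + u := ⟨d - 2 * g - h, by omega⟩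
    rw [show d - 2 * g - h = u by omega]
    have e1 : l * d ≤ l * t := Nat.mul_le_mul_left _ (by omega)
    have e2 : g * 0 + g * (a + 2 * l) + h * (1 + l) + u * l = k + l * d := by
      rw [hah, hu]
      ring
    omega

end Pool.Agent.Lib.MP_351560_co
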