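import Mathlib
import Pool.Agent.Lib.MP_351560_co.CaseI
import Pool.Agent.Lib.MP_351560_co.CaseII
import Pool.Agent.Lib.MP_351560_co.Three
import Pool.Agent.Lib.MP_351560_co.One

set_option autoImplicit false
set_option linter.unusedSimpArgs false
set_option linter.unusedVariables false

namespace Pool.Agent.Lib.MP_351560_co

open Finset

lemma big_part {t S n : ℕ} (ht : 10 ^ 23 ≤ t) (hS : 10 ^ 7 * S ≤ 14 * t) (hn : t ≤ 200 * n) :
    ∃ a0 a1 k, (a1 + S) * 100 + (a0 + S) + k * t = n ∧ t ≤ 1000 * a0 ∧ 1000 * a0 ≤ t + 10 ^ 6 ∧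
      t ≤ 30000 * a1 ∧ 1000 * a1 ≤ 11 * t := by
  have e1 := Nat.div_add_mod' (n - (t + 199) / 200) t
  have e2 := Nat.mod_lt (n - (t + 199) / 200) (show 0 < t by omega)
  generalize (n - (t + 199) / 200) % t = r at *
  refine ⟨t / 1000 + 1 + ((t + 199) / 200 + r - 101 * S - (t / 1000 + 1)) % 100,
    ((t + 199) / 200 + r - 101 * S - (t / 1000 + 1)) / 100, (n - (t + 199) / 200) / t, ?_⟩
  generalize (n - (t + 199) / 200) / t * t = z at *
  omega

lemma share {a S a' S' c : ℕ} (h : 4 * S ≤ a) (h' : 4 * S' ≤ a') (hc : 16 * c ≤ 7 * (a * a')) :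
    (a + S) * (a' + S') + c ≤ 2 * (a * a') := by
  have : (4 * (a + S)) * (4 * (a' + S')) ≤ (5 * a) * (5 * a') :=
    Nat.mul_le_mul (by omega) (by omega)
  nlinarith

lemma share' {t a S a' S' : ℕ} {q : Prop} [Decidable q] (h : 4 * S ≤ a) (h' : 4 * S' ≤ a')
    (hc : q → t ≤ 1000 * a ∧ 10 ^ 8 ≤ a') :
    (a + S) * (a' + S') + (if q then 3 * (100 * 100) * t else 0) ≤ 2 * (a * a') := by
  refine share h h' ?_
  split_ifs with hq
  · have := Nat.mul_le_mul_left a (hc hq).2
    have := (hc hq).1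
    omega
  · omega

lemma dvd_red {t a b c k l j : ℕ}
    (h : t ∣ (a + k * t) * (b + l * t) + (b + l * t) * (c + j * t) + (c + j * t) * (a + k * t)) :
    t ∣ a * b + b * c + c * a := by
  rw [← Nat.modEq_zero_iff_dvd] at h ⊢
  refine Nat.ModEq.trans ?_ h
  have : ∀ a k, a ≡ a + k * t [MOD t] := fun a k => by simp [Nat.ModEq]
  gcongr <;> exact this _ _

lemma dlt {t : ℕ} (ht : 10 ^ 23 ≤ t) :
    100 * (100 * 100 * (6 * 10 ^ 7 + 6 * (t / 10 ^ 7 + 1))) ≤ t := by
  have := Nat.div_mul_le_self t (10 ^ 7)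
  generalize t / 10 ^ 7 = u at *
  linarith

lemma dlt' {t : ℕ} (x : ℕ) (ht : 10 ^ 23 ≤ t) (hx : 20 * x ≤ t) :
    x + 100 * 100 * (6 * 10 ^ 7 + 6 * (t / 10 ^ 7 + 1)) ≤ t / 16 := by
  have := dlt ht
  rw [Nat.le_div_iff_mul_le (by norm_num)]
  linarith

theorem good_big {t m n s : ℕ} (ht : 10 ^ 23 ≤ t) (hm : t ≤ 200 * m) (hn : t ≤ 200 * n)
    (hq : t ∣ m * n + n * s + s * m) : Good t ![m, n, s] := by
  have : NeZero t := ⟨by omega⟩
  obtain ⟨S, hS⟩ : ∃ S, S = 4 * (t / 10 ^ 7) + 10 ^ 17 := ⟨_, rfl⟩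
  have hS' : 10 ^ 7 * S ≤ 14 * t := by omega
  obtain ⟨a0, a1, k, rfl, a2, a3, a4, a5⟩ := big_part ht hS' hm
  obtain ⟨b0, b1, l, rfl, b2, b3, b4, b5⟩ := big_part ht hS' hn
  by_cases hs : t ≤ 200 * s
  · obtain ⟨c0, c1, j, rfl, c2, c3, c4, c5⟩ := big_part ht hS' hs
    have := caseI t 100 (10 ^ 7) (t / 16)
      (fun P b => if b then ![a1, b1, c1] P else ![a0, b0, c0] P)
      (fun _ _ => S) (by omega) (by omega) (by omega) ?_ ?_ ?_ ?_ ?_ (by omega) (by omega)
      ![k, l, j] ![(a1 + S) * 100 + (a0 + S), (b1 + S) * 100 + (b0 + S), (c1 + S) * 100 + (c0 + S)]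
      ?_ (dvd_red hq)
    · convert this using 2 with P
      fin_cases P <;> rfl
    · intro P
      split_ifs <;> omega
    · intro P Q b b' _
      refine share' ?_ ?_ ?_
      · fin_cases P <;> cases b <;> simp <;> omega
      · fin_cases Q <;> cases b' <;> simp <;> omega
      · rintro ⟨rfl, rfl⟩
        fin_cases P <;> fin_cases Q <;> simp <;> omega
    · intro P Q b b' _ _ _
      omega
    · intro P b
      fin_cases P <;> cases b <;> simp <;> omega
    · simp only [Fin.sum_univ_three, Fintype.sum_bool, if_true, Bool.false_eq_true, if_false,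
        Matrix.cons_val]
      exact dlt' _ ht (by linarith)
    · intro P
      fin_cases P <;> simp
  by_cases hs' : 10 ^ 9 ≤ s
  · obtain ⟨c0, rfl⟩ : ∃ c0, s = c0 + (2 * 10 ^ 7 + 4) + 0 * t := ⟨s - (2 * 10 ^ 7 + 4), by omega⟩
    have := caseI t 100 (10 ^ 7) (t / 16)
      (fun P b => if b then ![a1, b1, 0] P else ![a0, b0, c0] P)
      (fun P b => if b then ![S, S, 0] P else ![S, S, 2 * 10 ^ 7 + 4] P) (by omega) (by omega)
      (by omega) ?_ ?_ ?_ ?_ ?_ (by omega) (by omega)
      ![k, l, 0] ![(a1 + S) * 100 + (a0 + S), (b1 + S) * 100 + (b0 + S), c0 + (2 * 10 ^ 7 + 4)]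
      ?_ (dvd_red hq)
    · convert this using 2 with P
      fin_cases P <;> rfl
    · intro P
      fin_cases P <;> simp <;> omega
    · intro P Q b b' h
      refine share' ?_ ?_ ?_
      · fin_cases P <;> cases b <;> simp <;> omega
      · fin_cases Q <;> cases b' <;> simp <;> omega
      · rintro ⟨rfl, rfl⟩
        fin_cases P <;> fin_cases Q <;> simp at h ⊢ <;> omega
    · intro P Q b b' h _ h'
      fin_cases P <;> fin_cases Q <;> cases b <;> cases b' <;> simp at h h' ⊢ <;> omega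
    · intro P b
      fin_cases P <;> cases b <;> simp <;> omega
    · simp only [Fin.sum_univ_three, Fintype.sum_bool, if_true, Bool.false_eq_true, if_false,
        Matrix.cons_val]
      exact dlt' _ ht (by linarith)
    · intro P
      fin_cases P <;> simp
  · have := caseII t 100 (10 ^ 7) (t / 16) s
      (fun P b => if b then ![a1, 0, b1] P else ![a0, 0, b0] P)
      (fun P b => if b then ![S, 0, S] P else ![S, s, S] P) (by omega) (by omega)
      (by omega) rfl rfl (by simp) ?_ ?_ ?_ ?_ ?_ (by omega) (by omega)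
      ![k, 0, l] ![(a1 + S) * 100 + (a0 + S), s, (b1 + S) * 100 + (b0 + S)] rfl
      ?_ (dvd_red (k := k) (l := 0) (j := l) (by simp only [Matrix.cons_val]; convert hq using 1; ring))
    · convert this.perm (Equiv.swap 1 2) using 2 with P
      fin_cases P <;> simp [Equiv.swap_apply_def]
    · intro d
      cases d <;> simp [pt] <;> omega
    · intro d b
      cases d <;> cases b <;> simp [pt] <;> omega
    · intro b b'
      refine share' ?_ ?_ ?_
      · cases b <;> simp <;> omega
      · cases b' <;> simp <;> omega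
      · rintro ⟨rfl, rfl⟩
        simp
        omega
    · intro b
      cases b <;> simp <;> omega
    · simp only [Fin.sum_univ_three, Fintype.sum_bool, if_true, Bool.false_eq_true, if_false,
        Matrix.cons_val]
      exact dlt' _ ht (by linarith)
    · intro P
      fin_cases P <;> simp

theorem good_sorted {t m n s : ℕ} (ht : 10 ^ 23 ≤ t) (h1 : n ≤ m) (h2 : s ≤ n) (hs : 1 ≤ s)
    (hn : 2 ≤ n) (hq : t ∣ m * n + n * s + s * m) : Good t ![m, n, s] := by
  by_cases h : m + n ≤ t
  · exact good_small (by omega) h (by omega) (by omega) hq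
  by_cases h' : t ≤ 200 * n
  · exact good_big ht (by omega) h' hq
  by_cases h4 : 4 ≤ n + s
  · exact good_three (by omega) (by omega) h4 (by omega) hq
  obtain ⟨rfl, rfl⟩ : n = 2 ∧ s = 1 := by omega
  exact good_21 (by omega) (by omega) hq

lemma Divisible.good {t m n s : ℕ} (h : Divisible (K m n s) t) : Good t ![m, n, s] := by
  obtain ⟨H, h1, h2, h3⟩ := h
  refine ⟨_, inferInstance, Sigma.fst, card_sigma_fib _, fun i => (H i).Adj,
    fun i u v h => h.symm, fun i u v h => h1 i h, fun u v h => h2 u v h, fun i j => ?_⟩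
  obtain ⟨φ⟩ := h3 i j
  exact ⟨φ.toEquiv, fun u v => φ.map_rel_iff.symm, fun _ => rfl⟩

lemma Good.dvd {t m n s : ℕ} (h : Good t ![m, n, s]) : t ∣ m * n + n * s + s * m := by
  classical
  obtain ⟨V, _, p, h1, F, h2, h3, h4, h5⟩ := h
  let c : Fin t → ℕ := fun i => (univ.filter fun z : V × V => F i z.1 z.2 ∧ p z.1 < p z.2).card
  have e1 : ∀ i, (univ.filter fun z : V × V => F i z.1 z.2).card = 2 * c i := by
    intro i
    rw [← card_filter_add_card_filter_not (fun z : V × V => p z.1 < p z.2), filter_filter,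
      filter_filter, two_mul]
    congr 1
    refine card_bijective Prod.swap Prod.swap_bijective fun z => ?_
    simp only [mem_filter, mem_univ, true_and, Prod.fst_swap, Prod.snd_swap]
    exact ⟨fun h => ⟨h2 _ _ _ h.1, lt_of_le_of_ne (not_lt.1 h.2) (h3 _ _ _ h.1).symm⟩,
      fun h => ⟨h2 _ _ _ h.1, h.2.le.not_gt⟩⟩
  have e2 : ∀ i j, c i = c j := by
    intro i j
    obtain ⟨φ, hφ, -⟩ := h5 i j
    have : (univ.filter fun z : V × V => F i z.1 z.2).card =
        (univ.filter fun z : V × V => F j z.1 z.2).card :=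
      card_bijective (Prod.map φ φ) (φ.prodCongr φ).bijective fun z => by simp [hφ]
    rw [e1, e1] at this
    omega
  have e3 : ∑ i, c i = (univ.filter fun z : V × V => p z.1 < p z.2).card := by
    rw [← card_biUnion]
    · congr 1
      ext z
      simp only [mem_biUnion, mem_univ, mem_filter, true_and]
      exact ⟨fun ⟨i, h⟩ => h.2, fun h => (h4 _ _ h.ne).exists.imp fun i hi => ⟨hi, h⟩⟩
    · intro i _ j _ hij
      rw [Function.onFun, disjoint_filter]
      exact fun z _ hi hj => hij ((h4 _ _ hi.2.ne).unique hi.1 hj.1)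
  have e4 : (univ.filter fun z : V × V => p z.1 < p z.2).card = m * n + n * s + s * m := by
    rw [card_filter, ← sum_pair univ (fun z : V × V => p z.1) (fun z => p z.2)
      (fun P Q => if P < Q then 1 else 0)]
    have : ∀ P Q, (univ.filter fun z : V × V => p z.1 = P ∧ p z.2 = Q).card =
        ![m, n, s] P * ![m, n, s] Q := by
      intro P Q
      rw [← h1, ← h1, ← card_product]
      congr 1
      ext z
      simp
    simp [this, Fin.sum_univ_three]
    ring
  rw [← e4, ← e3]
  rcases Nat.eq_zero_or_pos t with rfl | ht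
  · simp
  · rw [sum_congr rfl fun i _ => e2 i ⟨0, ht⟩]
    simp

lemma Good.swap01 {t m n s : ℕ} (h : Good t ![m, n, s]) : Good t ![n, m, s] := by
  convert h.perm (Equiv.swap 0 1) using 2 with P
  fin_cases P <;> simp [Equiv.swap_apply_def]

lemma Good.swap12 {t m n s : ℕ} (h : Good t ![m, n, s]) : Good t ![m, s, n] := by
  convert h.perm (Equiv.swap 1 2) using 2 with P
  fin_cases P <;> simp [Equiv.swap_apply_def]

theorem large_t {t m n s : ℕ} (ht : 10 ^ 23 ≤ t) (hm : 1 ≤ m) (hn : 1 ≤ n) (hs : 1 ≤ s) :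
    Divisible (K m n s) t ↔ t ∣ m * n + n * s + s * m ∧
      ((m = 1 ∧ n = 1) ∨ (n = 1 ∧ s = 1) ∨ (s = 1 ∧ m = 1) →
        m * n + n * s + s * m = t ∨ m * n + n * s + s * m = 3 * t) := by
  have key : ∀ m, 1 ≤ m → (Good t ![m, 1, 1] ↔ 2 * m + 1 = t ∨ 2 * m + 1 = 3 * t) :=
    fun m hm => ⟨fun h => (one_one (by omega) hm).1 h.divisible,
      fun h => ((one_one (by omega) hm).2 h).good⟩
  constructor
  · intro h
    refine ⟨h.good.dvd, ?_⟩
    rintro (⟨rfl, rfl⟩ | ⟨rfl, rfl⟩ | ⟨rfl, rfl⟩)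
    · have := (key s hs).1 h.good.swap12.swap01
      omega
    · have := (key m hm).1 h.good
      omega
    · have := (key n hn).1 h.good.swap01
      omega
  · rintro ⟨hq, h⟩
    refine Good.divisible ?_
    by_cases h' : (m = 1 ∧ n = 1) ∨ (n = 1 ∧ s = 1) ∨ (s = 1 ∧ m = 1)
    · have := h h'
      rcases h' with ⟨rfl, rfl⟩ | ⟨rfl, rfl⟩ | ⟨rfl, rfl⟩
      · exact ((key s hs).2 (by omega)).swap01.swap12
      · exact (key m hm).2 (by omega)
      · exact ((key n hn).2 (by omega)).swap01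
    · have g : ∀ a b c, b ≤ a → c ≤ b → 1 ≤ c → 2 ≤ b →
          a * b + b * c + c * a = m * n + n * s + s * m → Good t ![a, b, c] :=
        fun a b c h1 h2 h3 h4 e => good_sorted ht h1 h2 h3 h4 (e ▸ hq)
      rcases le_total m n with h1 | h1 <;> rcases le_total n s with h2 | h2 <;>
        rcases le_total m s with h3 | h3
      · exact (g s n m h2 h1 hm (by omega) (by ring)).swap01.swap12.swap01
      · exact (g s n m h2 h1 hm (by omega) (by ring)).swap01.swap12.swap01
      · exact (g n s m h2 h3 hm (by omega) (by ring)).swap12.swap01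
      · exact (g n m s h1 h3 hs (by omega) (by ring)).swap01
      · exact (g s m n h3 h1 hn (by omega) (by ring)).swap01.swap12
      · exact (g m s n h3 h2 hn (by omega) (by ring)).swap12
      · exact g m n s h1 h2 hs (by omega) rfl
      · exact g m n s h1 h2 hs (by omega) rfl

end Pool.Agent.Lib.MP_351560_co
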