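import Mathlib
import Pool.Agent.Lib.MP_351560_co.DenseNum

set_option autoImplicit false
set_option linter.unusedSimpArgs false
set_option linter.unusedVariables false
set_option linter.unusedSectionVars false

namespace Pool.Agent.Lib.MP_351560_co

open Finset

/-- Star forests: as `good_star`, but only the leaves in the first part are bounded. -/
theorem good_star2 {T : Type} [Fintype T] [DecidableEq T] {t m n s : ℕ} (hT : Fintype.card T = t)
    (X : Fin n ⊕ Fin s → T → ℕ) (τ : Fin n → Fin s → T)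
    (h1 : ∀ b c, X (.inl b) (τ b c) = 0) (h2 : ∀ b c, 1 ≤ X (.inr c) (τ b c))
    (h3 : ∀ b c c', τ b c = τ b c' → c = c') (h4 : ∀ b b' c, τ b c = τ b' c → b = b')
    (hB : ∀ b, ∑ i, X (.inl b) i = m) (hC : ∀ c, ∑ i, X (.inr c) i = m + n)
    (hcol : ∀ i, ∑ v, X v i ≤ m + (univ.filter fun e : Fin n × Fin s => τ e.1 e.2 = i).card)
    (hcen : ∀ k i j, (univ.filter fun v => X v i = k).card =
      (univ.filter fun v => X v j = k).card) : Good t ![m, n, s] := by
  classical
  let G : Fin n ⊕ Fin s → T → Finset (Fin n) := fun v i =>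
    univ.filter fun b => ∃ c, v = .inr c ∧ τ b c = i
  have hG : ∀ v i, (G v i).card ≤ X v i := by
    intro v i
    rcases (G v i).eq_empty_or_nonempty with h | ⟨b, hb⟩
    · simp [h]
    · obtain ⟨c, rfl, rfl⟩ := (mem_filter.1 hb).2
      refine le_trans (card_le_one.2 fun a ha a' ha' => ?_) (h2 b c)
      obtain ⟨c1, e1, e1'⟩ := (mem_filter.1 ha).2
      obtain ⟨c2, e2, e2'⟩ := (mem_filter.1 ha').2
      cases e1
      cases e2
      exact h4 _ _ _ (e1'.trans e2'.symm)
  obtain ⟨θ, hθ1, hθ2⟩ := sched (fun v i => X v i - (G v i).card) m (by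
    intro v
    have e1 : ∑ i, (X v i - (G v i).card) + ∑ i, (G v i).card = ∑ i, X v i := by
      rw [← sum_add_distrib]
      exact sum_congr rfl fun i _ => Nat.sub_add_cancel (hG v i)
    rcases v with b | c
    · simp only [G, reduceCtorEq, false_and, exists_false, filter_false, card_empty, Nat.sub_zero]
      exact hB b
    · have e2 : ∑ i, (G (.inr c) i).card = n := by
        simp only [G, Sum.inr.injEq, exists_eq_left']
        rw [← card_eq_sum_card_fiberwise (f := fun b => τ b c) (t := univ) (fun _ _ => by simp)]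
        simp
      rw [e2, hC] at e1
      omega) (fun i => by
    have e1 : ∑ v, (X v i - (G v i).card) + ∑ v, (G v i).card = ∑ v, X v i := by
      rw [← sum_add_distrib]
      exact sum_congr rfl fun v _ => Nat.sub_add_cancel (hG v i)
    have e2 : ∑ v, (G v i).card = (univ.filter fun e : Fin n × Fin s => τ e.1 e.2 = i).card := by
      simp only [G, Fintype.sum_sum_type, reduceCtorEq, false_and, exists_false, filter_false,
        card_empty, sum_const_zero, zero_add, Sum.inr.injEq, exists_eq_left', card_filter,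
        Fintype.sum_prod_type, if_false]
      rw [sum_comm]
    have := hcol i
    omega)
  let e := Fintype.equivFinOfCardEq hT
  let p : Fin m ⊕ Fin n ⊕ Fin s → Fin 3 := fun u => match u with
    | .inl _ => 0
    | .inr (.inl _) => 1
    | .inr (.inr _) => 2
  let I := {z : (Fin n ⊕ Fin s) × T // X z.1 z.2 ≠ 0}
  let R : I → Finset (Fin m ⊕ Fin n ⊕ Fin s) := fun z =>
    (univ.filter fun a => θ z.1.1 a = z.1.2).disjSum ((G z.1.1 z.1.2).disjSum ∅)
  have hR : ∀ (z : I) u, u ∈ R z ↔ (∃ a, u = .inl a ∧ θ z.1.1 a = z.1.2) ∨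
      ∃ b c, u = .inr (.inl b) ∧ z.1.1 = .inr c ∧ τ b c = z.1.2 := by
    rintro z (a | b | c) <;> simp [R, G]
  have hLF : LF p t (fun _ _ => ()) := by
    refine LF.of_pieces p t _ (fun z : I => e z.1.2) (fun z => {.inr z.1.1}) R
      (fun z => ((1, ()), (X z.1.1 z.1.2, ()))) (by simp) ?_ (by simp) (by simp) ?_ ?_ ?_ ?_ ?_
      (by simp)
    · intro z
      simp only [R, card_disjSum, hθ1, card_empty, add_zero]
      exact Nat.sub_add_cancel (hG _ _)
    · rintro ⟨⟨v, i⟩, hz⟩ u hu w hw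
      rw [mem_singleton] at hu
      subst hu
      rcases (hR _ _).1 hw with ⟨a, rfl, -⟩ | ⟨b, c, rfl, rfl, -⟩
      · rcases v with b | c <;> simp [p]
      · simp [p]
    · rintro ⟨⟨v, i⟩, hz⟩ u hu hw
      rw [mem_singleton] at hu
      subst hu
      rcases (hR _ _).1 hw with ⟨a, h, -⟩ | ⟨b, c, h, rfl, -⟩ <;> simp at h
    · rintro ⟨⟨v, i⟩, hz⟩ ⟨⟨v', i'⟩, hz'⟩ hi u hu hu'
      obtain rfl : i = i' := e.injective hi
      suffices v = v' by subst this; rfl
      simp only [mem_singleton, hR] at hu hu'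
      rcases hu with rfl | ⟨a, rfl, ha⟩ | ⟨b, c, rfl, rfl, ha⟩
      · rcases hu' with h | ⟨a, h, ha⟩ | ⟨b, c, h, rfl, rfl⟩
        · simpa using h
        · simp at h
        · cases h
          exact absurd (h1 _ _) hz
      · rcases hu' with h | ⟨a', h, ha'⟩ | ⟨b, c, h, -⟩
        · simp at h
        · cases h
          exact hθ2 _ _ _ (ha.trans ha'.symm)
        · simp at h
      · rcases hu' with h | ⟨a', h, ha'⟩ | ⟨b', c', h, rfl, ha'⟩
        · cases h
          subst ha
          exact absurd (h1 _ _) hz'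
        · simp at h
        · cases h
          rw [h3 _ _ _ (ha.trans ha'.symm)]
    · have k1 : ∀ a v, ∃! z : I, (Sum.inr v : Fin m ⊕ Fin n ⊕ Fin s) ∈ ({.inr z.1.1} : Finset _) ∧
          .inl a ∈ R z := by
        intro a v
        have hne : X v (θ v a) ≠ 0 := by
          have h0 : 0 < (univ.filter fun a' => θ v a' = θ v a).card := card_pos.2 ⟨a, by simp⟩
          rw [hθ1] at h0
          omega
        refine ⟨⟨(v, θ v a), hne⟩, by simp [hR], ?_⟩
        rintro ⟨⟨v', i⟩, hz⟩ ⟨ha, hb⟩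
        simp only [hR, mem_singleton, Sum.inr.injEq, Sum.inl.injEq, exists_eq_left',
          reduceCtorEq, false_and, exists_false, or_false] at ha hb
        subst ha
        subst hb
        rfl
      have k2 : ∀ b c, ∃! z : I, (Sum.inr (.inr c) : Fin m ⊕ Fin n ⊕ Fin s) ∈
          ({.inr z.1.1} : Finset _) ∧ .inr (.inl b) ∈ R z := by
        intro b c
        refine ⟨⟨(.inr c, τ b c), by have := h2 b c; simp only; omega⟩, by simp [hR], ?_⟩
        rintro ⟨⟨v', i⟩, hz⟩ ⟨ha, hb⟩
        simp only [hR, mem_singleton, Sum.inr.injEq, Sum.inl.injEq, exists_eq_left',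
          reduceCtorEq, false_and, exists_false, false_or] at ha hb
        subst ha
        obtain ⟨b', c', rfl, h, rfl⟩ := hb
        cases h
        rfl
      have k3 : ∀ (z : I) a, (Sum.inl a : Fin m ⊕ Fin n ⊕ Fin s) ∉ ({.inr z.1.1} : Finset _) := by
        simp
      have k4 : ∀ (z : I) c, (Sum.inr (.inr c) : Fin m ⊕ Fin n ⊕ Fin s) ∉ R z := by
        simp [hR]
      rintro (a | b | c) (a' | b' | c') h <;> simp only [p, ne_eq, not_true_eq_false] at h <;>
        simp only [k3, k4, false_and, and_false, false_or, or_false]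
      exacts [k1 _ _, k1 _ _, k1 _ _, k2 _ _, k1 _ _, k2 _ _]
    · have key : ∀ θ' i, (univ.filter fun z : I => e z.1.2 = i ∧
          (((1, ()), (X z.1.1 z.1.2, ())) : (ℕ × Unit) × (ℕ × Unit)) = θ').card =
          if θ'.1.1 = 1 ∧ θ'.2.1 ≠ 0 then (univ.filter fun v => X v (e.symm i) = θ'.2.1).card
          else 0 := by
        rintro ⟨⟨a, ⟨⟩⟩, ⟨k, ⟨⟩⟩⟩ i
        split_ifs with h
        · refine card_bij (fun z _ => z.1.1) ?_ ?_ ?_
          · rintro ⟨⟨v, j⟩, hz⟩ hz'
            simp only [mem_filter, mem_univ, true_and, Prod.mk.injEq, and_true] at hz' ⊢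
            rw [← hz'.1, e.symm_apply_apply, hz'.2.2]
          · rintro ⟨⟨v, j⟩, hz⟩ hz' ⟨⟨v', j'⟩, hw⟩ hw' rfl
            simp only [mem_filter, mem_univ, true_and] at hz' hw'
            obtain rfl : j = j' := e.injective (hz'.1.trans hw'.1.symm)
            rfl
          · intro v hv
            simp only [mem_filter, mem_univ, true_and] at hv h
            exact ⟨⟨(v, e.symm i), by rw [hv]; exact h.2⟩, by simp [hv, h.1], rfl⟩
        · rw [card_eq_zero, filter_eq_empty_iff]
          rintro ⟨⟨v, j⟩, hz⟩ _ ⟨-, hz'⟩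
          simp only [Prod.mk.injEq, and_true] at hz' h
          exact h ⟨hz'.1.symm, hz'.2 ▸ hz⟩
      intro θ' i j
      rw [key, key, hcen _ (e.symm i) (e.symm j)]
  convert hLF.good using 2 with P
  rw [card_filter, Fintype.sum_sum_type, Fintype.sum_sum_type]
  fin_cases P <;> simp [p]

/-- Star forests from a state matrix. -/
theorem star_of {S : Type} [Fintype S] [DecidableEq S] {t a b c : ℕ} (sz cc : S → ℕ) (sP sX : S)
    (M : Fin b ⊕ Fin c → S → ℕ) (x : Fin b → ℕ)
    (hP : sz sP = 0) (hX : sz sX = 0) (hPX : sP ≠ sX) (hX1 : cc sX ≤ 1)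
    (hcc : ∑ σ, cc σ = b + c) (hrow : ∀ v, ∑ σ, M v σ = t) (hcol : ∀ σ, ∑ v, M v σ = t * cc σ)
    (hB : ∀ β, ∑ σ, M (.inl β) σ * sz σ = a) (hC : ∀ γ, ∑ σ, M (.inr γ) σ * sz σ = a + b)
    (hx : ∀ β, M (.inl β) sP + x β = c ∧ x β ≤ M (.inl β) sX)
    (hz : ∀ γ σ, M (.inr γ) σ ≠ 0 → sz σ = 0 → σ = sX ∧ cc sP = 0)
    (hcap : ∑ σ, cc σ * sz σ ≤ a + cc sP) (hcap' : cc sP + cc sX ≤ c) : Good t ![a, b, c] := by
  classical
  obtain ⟨st, s1, s2⟩ := sched_state M cc t (by simp [hcc]) hrow hcol
  have hJ : ∀ β, ∃ J ⊆ univ.filter fun i => st i (.inl β) = sX, J.card = x β := fun β =>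
    exists_subset_card_eq (by rw [s1]; exact (hx β).2)
  choose J J1 J2 using hJ
  have J3 : ∀ β i, i ∈ J β → st i (.inl β) = sX := fun β i h => (mem_filter.1 (J1 β h)).2
  let y : Fin b → Fin t → ℕ := fun β i =>
    (if st i (.inl β) = sP then 1 else 0) + if i ∈ J β then 1 else 0
  have y1 : ∀ β i, y β i ≤ 1 := by
    intro β i
    simp only [y]
    split_ifs with h h'
    · exact absurd (h.symm.trans (J3 β i h')) hPX
    all_goals omega
  have hcount : ∀ i σ, (univ.filter fun β => st i (.inl β) = σ).card +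
      (univ.filter fun γ => st i (.inr γ) = σ).card = cc σ := by
    intro i σ
    rw [← s2 i σ]
    simp only [card_filter, Fintype.sum_sum_type]
  have hCz : ∀ i γ, sz (st i (.inr γ)) = 0 → st i (.inr γ) = sX ∧ cc sP = 0 := by
    intro i γ h
    refine hz γ _ ?_ h
    rw [← s1]
    exact (card_pos.2 ⟨i, by simp⟩).ne'
  have hPc : ∀ i, (univ.filter fun β => st i (.inl β) = sP).card = cc sP := by
    intro i
    have : (univ.filter fun γ => st i (.inr γ) = sP).card = 0 :=
      card_eq_zero.2 (filter_eq_empty_iff.2 fun γ _ h =>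
        hPX (h.symm.trans (hCz i γ (by rw [h, hP])).1))
    rw [← hcount i sP, this, add_zero]
  obtain ⟨τ, τ1, τ2⟩ := sched y c (fun β => by
    simp only [y, sum_add_distrib, ← card_filter, s1, filter_mem_eq_inter, univ_inter, J2]
    exact (hx β).1) (fun i => by
    simp only [y, sum_add_distrib, ← card_filter, hPc]
    refine le_trans (Nat.add_le_add_left ?_ _) hcap'
    rw [← hcount i sX]
    exact le_trans (card_le_card fun β h => mem_filter.2 ⟨mem_univ _, J3 β i (mem_filter.1 h).2⟩)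
      (Nat.le_add_right _ _))
  have τ3 : ∀ β γ, st (τ β γ) (.inl β) = sP ∨ st (τ β γ) (.inl β) = sX := by
    intro β γ
    have : 0 < y β (τ β γ) := by
      rw [← τ1]
      exact card_pos.2 ⟨γ, by simp⟩
    simp only [y] at this
    by_contra h
    rw [if_neg fun h' => h (.inl h'), if_neg fun h' => h (.inr (J3 _ _ h'))] at this
    omega
  refine good_star2 (T := Fin t) (by simp) (fun v i => sz (st i v)) τ ?_ ?_ ?_ (fun β β' γ => τ2 γ β β')
    (fun β => by rw [sum_state (fun i => st i (.inl β)) sz, ← hB β]; simp only [s1])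
    (fun γ => by rw [sum_state (fun i => st i (.inr γ)) sz, ← hC γ]; simp only [s1]) ?_ ?_
  · intro β γ
    rcases τ3 β γ with h | h <;> simp only [h, hP, hX]
  · intro β γ
    by_contra h
    obtain ⟨a1, a2⟩ := hCz (τ β γ) γ (by omega)
    rcases τ3 β γ with h | h
    · have : 0 < cc sP := by
        rw [← hPc (τ β γ)]
        exact card_pos.2 ⟨β, by simp [h]⟩
      omega
    · have e1 := hcount (τ β γ) sX
      have e2 : 0 < (univ.filter fun β' => st (τ β γ) (.inl β') = sX).card :=
        card_pos.2 ⟨β, by simp [h]⟩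
      have e3 : 0 < (univ.filter fun γ' => st (τ β γ) (.inr γ') = sX).card :=
        card_pos.2 ⟨γ, by simp [a1]⟩
      omega
  · intro β γ γ' h
    exact card_le_one.1 ((τ1 β (τ β γ)).le.trans (y1 _ _)) γ (by simp) γ' (by simp [h])
  · intro i
    rw [sum_state (st i) sz]
    simp only [s2]
    refine hcap.trans (Nat.add_le_add_left ?_ _)
    rw [card_filter, Fintype.sum_prod_type]
    simp only [← card_filter, τ1, y, sum_add_distrib, hPc]
    omega
  · have key : ∀ k i, (univ.filter fun v => sz (st i v) = k).card =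
        ∑ σ, cc σ * if sz σ = k then 1 else 0 := by
      intro k i
      rw [card_filter, sum_state (st i) fun σ => if sz σ = k then 1 else 0]
      simp only [s2]
    intro k i j
    rw [key, key]

/-- Star forests from a matrix of non-zero states and numbers `z` of idle times. -/
theorem star_z {S : Type} [Fintype S] [DecidableEq S] {t a b c : ℕ} (sz : S → ℕ)
    (M : Fin b ⊕ Fin c → S → ℕ) (z : Fin b ⊕ Fin c → ℕ) (hbc : b + c ≤ t) (hc : 0 < c)
    (hrow : ∀ v, z v + ∑ σ, M v σ = t) (hcol : ∀ σ, t ∣ ∑ v, M v σ)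
    (hB : ∀ β, ∑ σ, M (.inl β) σ * sz σ = a) (hC : ∀ γ, ∑ σ, M (.inr γ) σ * sz σ = a + b)
    (hzB : ∀ β, c ≤ z (.inl β)) (hzC : (∀ γ, z (.inr γ) = 0) ∨ ∑ v, z v = t)
    (hz : ∀ γ σ, M (.inr γ) σ ≠ 0 → sz σ ≠ 0) : Good t ![a, b, c] := by
  classical
  have ht : 0 < t := by omega
  choose cc hcc using hcol
  have e0 : ∑ v, z v + t * ∑ σ, cc σ = t * (b + c) := by
    rw [mul_sum, ← sum_congr rfl fun σ _ => hcc σ, sum_comm, ← sum_add_distrib,
      sum_congr rfl fun v _ => hrow v]
    simp [mul_comm]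
  have e1 : ∑ σ, cc σ ≤ b + c := Nat.le_of_mul_le_mul_left (by omega) ht
  obtain ⟨n0, hn0⟩ : ∃ n0, n0 + ∑ σ, cc σ = b + c := ⟨b + c - ∑ σ, cc σ, by omega⟩
  have e2 : ∑ β, z (.inl β) + ∑ γ, z (.inr γ) = t * n0 := by
    rw [← hn0, mul_add, Fintype.sum_sum_type] at e0
    omega
  have e3 : ∑ β, (z (.inl β) - c) + b * c = ∑ β, z (.inl β) := by
    rw [← sum_congr rfl fun β _ => Nat.sub_add_cancel (hzB β), sum_add_distrib]
    simp
  have e4 := Nat.div_add_mod (b * c) t
  have e5 := Nat.mod_lt (b * c) ht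
  have e6 : b * c < t * c := Nat.mul_lt_mul_of_pos_right (by omega) hc
  have e7 : t * ∑ σ, cc σ * sz σ = a * (b + c) + b * c := by
    have : ∑ v, ∑ σ, M v σ * sz σ = b * a + c * (a + b) := by
      simp [Fintype.sum_sum_type, hB, hC]
    rw [sum_comm] at this
    simp only [← sum_mul, hcc, mul_assoc, ← mul_sum] at this
    rw [this]
    ring
  have e8 : a * (b + c) ≤ a * t := Nat.mul_le_mul_left _ hbc
  generalize b * c / t = μ at *
  generalize b * c % t = r at *
  obtain ⟨k, k1, k2, k3, k4⟩ : ∃ k, k ≤ 1 ∧ r + ∑ γ, z (.inr γ) ≤ t * k ∧ μ + k ≤ n0 ∧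
      μ + k ≤ c ∧ (∑ γ, z (.inr γ) ≠ 0 → μ = 0) := by
    have a1 : μ < c := Nat.lt_of_mul_lt_mul_left (show t * μ < t * c by omega)
    by_cases h : r + ∑ γ, z (.inr γ) = 0
    · exact ⟨0, by omega, by omega, Nat.le_of_mul_le_mul_left (show t * μ ≤ t * n0 by omega) ht,
        by omega, by omega⟩
    · have a2 : μ < n0 := Nat.lt_of_mul_lt_mul_left (show t * μ < t * n0 by omega)
      rcases hzC with h' | h'
      · simp only [h', sum_const_zero] at *
        exact ⟨1, by omega, by omega, by omega, by omega, by simp⟩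
      · rw [Fintype.sum_sum_type] at h'
        have a3 : μ < 1 := Nat.lt_of_mul_lt_mul_left (show t * μ < t * 1 by omega)
        exact ⟨1, by omega, by omega, by omega, by omega, by omega⟩
  obtain ⟨n1, rfl⟩ : ∃ n1, n0 = μ + k + n1 := ⟨n0 - (μ + k), by omega⟩
  rw [mul_add, mul_add] at e2
  obtain ⟨x, x1, x2⟩ := exists_between (B := Fin b) (fun _ => 0) (fun _ => c)
    (fun _ => Nat.zero_le _) r (by simp) (by simp; omega)
  obtain ⟨y, y1, y2⟩ := exists_between (B := Fin b) (fun _ => 0) (fun β => z (.inl β) - c)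
    (fun _ => Nat.zero_le _) (t * k - (r + ∑ γ, z (.inr γ))) (by simp) (by omega)
  have e9 : ∑ β, (c - x β) + r = b * c := by
    rw [← x2, ← sum_add_distrib, sum_congr rfl fun β _ => Nat.sub_add_cancel (x1 β).2]
    simp
  have e10 : ∑ β, (z (.inl β) - c - y β) + ∑ β, y β = ∑ β, (z (.inl β) - c) := by
    rw [← sum_add_distrib]
    exact sum_congr rfl fun β _ => Nat.sub_add_cancel (y1 β).2
  refine star_of (S := Fin 3 ⊕ S) (Sum.elim (fun _ => 0) sz) (Sum.elim ![μ, k, n1] cc) (.inl 0)
    (.inl 1) (fun v => Sum.elim (Sum.elim (fun β => ![c - x β, x β + y β, z (.inl β) - c - y β])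
      (fun γ => ![0, z (.inr γ), 0]) v) (M v)) x rfl rfl (by simp) k1 ?_ ?_ ?_ ?_ ?_ ?_ ?_ ?_ k4.1
  · simp [Fintype.sum_sum_type, Fin.sum_univ_three]
    omega
  · rintro (β | γ)
    · have := hrow (.inl β)
      have := (x1 β).2
      have := (y1 β).2
      have := hzB β
      simp [Fintype.sum_sum_type, Fin.sum_univ_three]
      omega
    · have := hrow (.inr γ)
      simp [Fintype.sum_sum_type, Fin.sum_univ_three]
      omega
  · rintro (j | σ)
    · fin_cases j <;> simp [Fintype.sum_sum_type, sum_add_distrib] <;> omega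
    · exact hcc σ
  · intro β
    simp [Fintype.sum_sum_type, hB]
  · intro γ
    simp [Fintype.sum_sum_type, hC]
  · intro β
    have := (x1 β).2
    simp
    omega
  · rintro γ (j | σ) h h'
    · fin_cases j <;> simp at h ⊢
      exact k4.2 fun h0 => h (sum_eq_zero_iff.1 h0 γ (mem_univ _))
    · exact absurd h' (hz γ σ h)
  · simp only [Fintype.sum_sum_type, Sum.elim_inl, Sum.elim_inr, mul_zero, sum_const_zero,
      zero_add, Matrix.cons_val]
    have : t * ∑ σ, cc σ * sz σ < t * (a + μ + 1) := by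
      rw [mul_add, mul_add, mul_comm t a]
      omega
    exact Nat.lt_succ_iff.1 (Nat.lt_of_mul_lt_mul_left this)

end Pool.Agent.Lib.MP_351560_co
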