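import Mathlib
import Pool.Agent.Lib.MP_351560_co.StarZ

set_option autoImplicit false
set_option linter.unusedSimpArgs false
set_option linter.unusedVariables false
set_option linter.unusedSectionVars false

namespace Pool.Agent.Lib.MP_351560_co

open Finset

/-- Explicit star matrices with weights and two kinds of rows in each part. -/
def StarOK (k t a b c : ℕ) (sz w r1 r2 r3 r4 : Fin k → ℕ) (k1 k2 : ℕ) : Prop :=
  let M : Fin b ⊕ Fin c → Fin k → ℕ :=
    Sum.elim (fun β => if β.val < k1 then r1 else r2) fun γ => if γ.val < k2 then r3 else r4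
  b + c ≤ t ∧ 0 < c ∧ (∀ v, ∑ σ, M v σ ≤ t) ∧ (∀ σ, t ∣ ∑ v, M v σ) ∧
    (∀ β, ∑ σ, M (.inl β) σ * sz σ = a) ∧ (∀ γ, ∑ σ, M (.inr γ) σ * sz σ = a + b) ∧
    (∀ β, c ≤ t - ∑ σ, M (.inl β) σ) ∧
    ((∀ γ, t - ∑ σ, M (.inr γ) σ = 0) ∨ ∑ v, (t - ∑ σ, M v σ) = t) ∧ (∀ σ, sz σ ≠ 0) ∧
    ∀ v, ∑ σ, M v σ * w σ = t

instance (k t a b c : ℕ) (sz w r1 r2 r3 r4 : Fin k → ℕ) (k1 k2 : ℕ) :
    Decidable (StarOK k t a b c sz w r1 r2 r3 r4 k1 k2) := by
  unfold StarOK
  infer_instance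

lemma good_of_starOK {k t a b c : ℕ} (sz w r1 r2 r3 r4 : Fin k → ℕ) (k1 k2 : ℕ)
    (h : StarOK k t a b c sz w r1 r2 r3 r4 k1 k2) (j : ℕ) : Good t ![a + j * t, b, c] := by
  obtain ⟨h1, h2, h3, h4, h5, h6, h7, h8, h9, h10⟩ := h
  refine star_z (fun σ => sz σ + j * w σ) _ _ h1 h2 (fun v => Nat.sub_add_cancel (h3 v)) h4
    (fun β => ?_) (fun γ => ?_) h7 h8 (fun γ σ _ => by have := h9 σ; omega)
  · simp only [mul_add, sum_add_distrib, h5, mul_left_comm _ j, ← mul_sum, h10]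
  · simp only [mul_add, sum_add_distrib, h6, mul_left_comm _ j, ← mul_sum, h10]
    ring

def GRow (t a p w s v : ℕ) : Prop :=
  w * v ≤ t ∧ p * (t - w * v) + s * v ≤ a ∧ a ≤ p * (t - w * v) + s * v + (t - w * v + v)

def Glo (t a p w s v : ℕ) : ℕ := a - (p * (t - w * v) + s * v) - v

def Ghi (t a p w s v : ℕ) : ℕ := min (t - w * v) (a - (p * (t - w * v) + s * v))

/-- Rows of the second part: `(w-1) v` idle times, `v` large stars, the others ordinary stars. -/
lemma fam_G {t a b c p w n s N : ℕ} (hbc : b + c ≤ t) (hc : 0 < c) (hp : 1 ≤ p) (hw : 1 ≤ w)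
    (hq : t ∣ a * b + b * c + c * a) (h1 : p * t ≤ a + b) (h2 : a + b ≤ p * t + t)
    (v : Fin b → ℕ) (hv : ∑ β, v β = n * t) (h3 : ∀ β, c ≤ (w - 1) * v β ∧ GRow t a p w s (v β))
    (h4 : ∑ β, Glo t a p w s (v β) ≤ N) (h5 : N ≤ ∑ β, Ghi t a p w s (v β))
    (h6 : t ∣ N + c * (a + b - p * t)) (j : ℕ) : Good t ![a + j * t, b, c] := by
  obtain ⟨w, rfl⟩ : ∃ w', w = w' + 1 := ⟨w - 1, by omega⟩
  obtain ⟨m, hm⟩ : ∃ m, a + b = p * t + m := ⟨a + b - p * t, by omega⟩
  rw [hm, Nat.add_sub_cancel_left] at h6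
  obtain ⟨x, x1, x2⟩ := exists_between (fun β => Glo t a p (w + 1) s (v β))
    (fun β => Ghi t a p (w + 1) s (v β)) (fun β => by
      obtain ⟨-, a1, a2, a3⟩ := h3 β
      simp only [Glo, Ghi]
      omega) N h4 h5
  have hu : ∀ β, ∃ u y, u + (w + 1) * v β = t ∧ p * u + s * v β + x β + y = a ∧ x β ≤ u ∧
      y ≤ v β := by
    intro β
    obtain ⟨-, a1, a2, a3⟩ := h3 β
    have := x1 β
    simp only [Glo, Ghi] at this
    exact ⟨t - (w + 1) * v β, a - (p * (t - (w + 1) * v β) + s * v β) - x β, by omega, by omega,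
      by omega, by omega⟩
  choose u y u1 u2 u3 u4 using hu
  have e1 : ∑ β, u β + (w + 1) * (n * t) = b * t := by
    rw [← hv, mul_sum, ← sum_add_distrib, sum_congr rfl fun β _ => u1 β]
    simp
  have e2 : p * ∑ β, u β + s * (n * t) + N + ∑ β, y β = b * a := by
    rw [← hv, ← x2, mul_sum, mul_sum, ← sum_add_distrib, ← sum_add_distrib, ← sum_add_distrib,
      sum_congr rfl fun β _ => u2 β]
    simp
  have e3 : ∑ β, (u β - x β) + N = ∑ β, u β := by
    rw [← x2, ← sum_add_distrib]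
    exact sum_congr rfl fun β _ => Nat.sub_add_cancel (u3 β)
  have e4 : ∑ β, (v β - y β) + ∑ β, y β = n * t := by
    rw [← hv, ← sum_add_distrib]
    exact sum_congr rfl fun β _ => Nat.sub_add_cancel (u4 β)
  have d1 : t ∣ ∑ β, u β :=
    (Nat.dvd_add_left (Dvd.intro_left ((w + 1) * n) (mul_assoc _ _ _))).1 (e1 ▸ dvd_mul_left _ _)
  have d2 : t ∣ ∑ β, y β := by
    have a1 : ∑ β, y β + ((N + c * m) + (p * ∑ β, u β + (s * n + c * p) * t)) =
        a * b + b * c + c * a := by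
      have : c * (a + b) = c * (p * t + m) := by rw [hm]
      nlinarith
    exact (Nat.dvd_add_left (h6.add ((d1.mul_left p).add (dvd_mul_left _ _)))).1 (a1 ▸ hq)
  refine star_z (S := Fin 4) ![p + j, p + j + 1, s + (w + 1) * j, s + (w + 1) * j + 1]
    (Sum.elim (fun β => ![u β - x β, x β, v β - y β, y β]) fun _ => ![t - m, m, 0, 0])
    (Sum.elim (fun β => w * v β) fun _ => 0) hbc hc ?_ ?_ ?_ ?_ (fun β => (h3 β).1)
    (.inl fun _ => rfl) ?_
  · rintro (β | γ)
    · have := u1 β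
      have := u3 β
      have := u4 β
      simp only [Sum.elim_inl, Fin.sum_univ_four, Matrix.cons_val, add_mul, one_mul] at *
      omega
    · simp [Fin.sum_univ_four]
      omega
  · intro σ
    fin_cases σ <;> simp [Fintype.sum_sum_type]
    · have a1 : ∑ β, (u β - x β) + c * (t - m) + (N + c * m) = ∑ β, u β + c * t := by
        have : c * (t - m) + c * m = c * t := by
          rw [← mul_add]
          congr 1
          omega
        omega
      exact (Nat.dvd_add_left h6).1 (a1 ▸ d1.add (dvd_mul_left _ _))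
    · rwa [x2]
    · exact (Nat.dvd_add_left d2).1 (e4 ▸ dvd_mul_left _ _)
    · exact d2
  · intro β
    obtain ⟨x', hx'⟩ := Nat.exists_eq_add_of_le (u3 β)
    obtain ⟨y', hy'⟩ := Nat.exists_eq_add_of_le (u4 β)
    have a1 := u1 β
    have a2 := u2 β
    simp only [Sum.elim_inl, Fin.sum_univ_four, Matrix.cons_val]
    rw [← a2]
    conv_rhs => rw [← a1]
    rw [hx', hy', Nat.add_sub_cancel_left, Nat.add_sub_cancel_left]
    ring
  · intro γ
    obtain ⟨m', hm'⟩ := Nat.exists_eq_add_of_le (show m ≤ t by omega)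
    simp only [Sum.elim_inr, Fin.sum_univ_four, Matrix.cons_val]
    rw [add_right_comm a, hm, hm', Nat.add_sub_cancel_left]
    ring
  · intro γ σ
    fin_cases σ <;> simp <;> omega

lemma sum_two (b r : ℕ) (h : r ≤ b) (f g : ℕ) :
    ∑ β : Fin b, (if β.val < r then f else g) = r * f + (b - r) * g := by
  have e1 : (univ.filter fun β : Fin b => β.val < r).card = r := by
    rw [Fin.card_filter_val_lt]
    omega
  have e2 := card_filter_add_card_filter_not (s := univ) (fun β : Fin b => β.val < r)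
  rw [e1, card_univ, Fintype.card_fin] at e2
  rw [sum_ite, sum_const, sum_const, e1, smul_eq_mul, smul_eq_mul]
  congr 2
  omega

def GOK (t a b c p w n s N : ℕ) : Prop :=
  p * t ≤ a + b ∧ a + b ≤ p * t + t ∧ c ≤ (w - 1) * (n * t / b) ∧ GRow t a p w s (n * t / b) ∧
    (n * t % b = 0 ∨ GRow t a p w s (n * t / b + 1)) ∧
    n * t % b * Glo t a p w s (n * t / b + 1) + (b - n * t % b) * Glo t a p w s (n * t / b) ≤ N ∧
    N ≤ n * t % b * Ghi t a p w s (n * t / b + 1) + (b - n * t % b) * Ghi t a p w s (n * t / b) ∧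
    (N + c * (a + b - p * t)) % t = 0

lemma good_of_GOK {t a b c p w n s N : ℕ} (hbc : b + c ≤ t) (hc : 0 < c) (hb : 0 < b) (hp : 1 ≤ p)
    (hw : 1 ≤ w) (hq : t ∣ a * b + b * c + c * a) (h : GOK t a b c p w n s N) (j : ℕ) :
    Good t ![a + j * t, b, c] := by
  obtain ⟨h1, h2, h3, h4, h5, h6, h7, h8⟩ := h
  have e1 := Nat.div_add_mod (n * t) b
  have e2 := Nat.mod_lt (n * t) hb
  generalize n * t / b = q at *
  generalize n * t % b = r at *
  refine fam_G (n := n) (s := s) (N := N) hbc hc hp hw hq h1 h2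
    (fun β => if β.val < r then q + 1 else q) ?_ (fun β => ?_) ?_ ?_ (Nat.dvd_of_mod_eq_zero h8) j
  · obtain ⟨d, rfl⟩ := Nat.exists_eq_add_of_le e2.le
    rw [sum_two _ _ e2.le, ← e1, Nat.add_sub_cancel_left]
    ring
  · split_ifs with h
    · exact ⟨h3.trans (Nat.mul_le_mul_left _ (Nat.le_succ _)), h5.resolve_left (by omega)⟩
    · exact ⟨h3, h4⟩
  · simpa only [apply_ite (Glo t a p w s), sum_two _ _ e2.le] using h6
  · simpa only [apply_ite (Ghi t a p w s), sum_two _ _ e2.le] using h7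

def FRow (t A p s z : ℕ) : Prop :=
  2 * z ≤ t ∧ p * (t - 2 * z) + s * z ≤ A ∧ A ≤ p * (t - 2 * z) + s * z + (t - 2 * z)

def FOK (t a b c p s l1 e1 l2 e2 : ℕ) : Prop :=
  c ≤ l1 ∧ FRow t a p s l1 ∧ FRow t a p s (l1 + e1) ∧ FRow t (a + b) p s l2 ∧
    FRow t (a + b) p s (l2 + e2) ∧ b * l1 + c * l2 ≤ t ∧ t ≤ b * (l1 + e1) + c * (l2 + e2)

/-- One idle vertex and one large star at each time. -/
lemma good_of_FOK {t a b c p s l1 e1 l2 e2 : ℕ} (hbc : b + c ≤ t) (hc : 0 < c) (hp : 1 ≤ p)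
    (hs : 1 ≤ s) (he1 : e1 ≤ 1) (he2 : e2 ≤ 1) (hq : t ∣ a * b + b * c + c * a)
    (h : FOK t a b c p s l1 e1 l2 e2) (j : ℕ) : Good t ![a + j * t, b, c] := by
  obtain ⟨h1, h2, h3, h4, h5, h6, h7⟩ := h
  obtain ⟨z, z1, z2⟩ := exists_between (B := Fin b ⊕ Fin c) (Sum.elim (fun _ => l1) fun _ => l2)
    (Sum.elim (fun _ => l1 + e1) fun _ => l2 + e2) (by rintro (v | v) <;> simp) t
    (by simpa using h6) (by simpa using h7)
  let A : Fin b ⊕ Fin c → ℕ := Sum.elim (fun _ => a) fun _ => a + b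
  have hu : ∀ v, ∃ u x, u + x + 2 * z v = t ∧ p * (u + x) + s * z v + x = A v := by
    intro v
    have : FRow t (A v) p s (z v) := by
      have := z1 v
      rcases v with v | v <;> simp only [Sum.elim_inl, Sum.elim_inr, A] at this ⊢
      · rcases (show z (.inl v) = l1 ∨ z (.inl v) = l1 + e1 by omega) with h | h <;> rwa [h]
      · rcases (show z (.inr v) = l2 ∨ z (.inr v) = l2 + e2 by omega) with h | h <;> rwa [h]
    obtain ⟨a1, a2, a3⟩ := this
    refine ⟨t - 2 * z v - (A v - (p * (t - 2 * z v) + s * z v)),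
      A v - (p * (t - 2 * z v) + s * z v), by omega, ?_⟩
    rw [Nat.sub_add_cancel (by omega)]
    omega
  choose u x u1 u2 using hu
  have e1 : ∑ v, (u v + x v) + 2 * t = (b + c) * t := by
    conv_lhs => rw [← z2]
    rw [mul_sum, ← sum_add_distrib, sum_congr rfl fun β _ => u1 β]
    simp
  have e2 : p * ∑ v, (u v + x v) + s * t + ∑ v, x v = a * b + b * c + c * a := by
    conv_lhs => rw [← z2]
    rw [mul_sum, mul_sum, ← sum_add_distrib, ← sum_add_distrib, sum_congr rfl fun β _ => u2 β]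
    simp [A]
    ring
  have d1 : t ∣ ∑ v, (u v + x v) :=
    (Nat.dvd_add_left (dvd_mul_left _ _)).1 (e1 ▸ dvd_mul_left _ _)
  have d2 : t ∣ ∑ v, x v :=
    (Nat.dvd_add_right ((d1.mul_left p).add (dvd_mul_left _ _))).1 (e2 ▸ hq)
  have hA : ∀ v, u v * (p + j) + x v * (p + j + 1) + z v * (s + 2 * j) = A v + j * t := by
    intro v
    rw [← u2 v]
    conv_rhs => rw [← u1 v]
    ring
  refine star_z (S := Fin 3) ![p + j, p + j + 1, s + 2 * j] (fun v => ![u v, x v, z v]) z hbc hc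
    ?_ ?_ ?_ ?_ (fun β => h1.trans (z1 (.inl β)).1) (.inr z2) ?_
  · intro v
    have := u1 v
    simp only [Fin.sum_univ_three, Matrix.cons_val]
    omega
  · intro σ
    fin_cases σ <;> simp only [Matrix.cons_val, Fin.zero_eta, Fin.mk_one, Fin.reduceFinMk]
    · rw [sum_add_distrib] at d1
      exact (Nat.dvd_add_left d2).1 d1
    · exact d2
    · rw [z2]
  · intro β
    simpa only [Fin.sum_univ_three, Matrix.cons_val, A, Sum.elim_inl] using hA (.inl β)
  · intro γ
    have := hA (.inr γ)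
    simp only [Fin.sum_univ_three, Matrix.cons_val, A, Sum.elim_inr] at this ⊢
    omega
  · intro γ σ _
    fin_cases σ <;> simp <;> omega

end Pool.Agent.Lib.MP_351560_co
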