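import Mathlib
import Pool.Agent.Lib.MP_351560_co.Piece

set_option autoImplicit false
set_option linter.unusedSimpArgs false
set_option linter.unusedVariables false
set_option linter.unusedSectionVars false

namespace Pool.Agent.Lib.MP_351560_co

open Finset

/-- A factorisation given by a role graph `H` and the roles `ρ i` of the vertices at time `i`. -/
lemma LF.of_roles {V : Type} [Fintype V] (p : V → Fin 3) (t : ℕ) (H : V → V → Prop)
    (ρ : Fin t → V → V) (hs : ∀ r r', H r r' → H r' r) (hinj : ∀ i, Function.Injective (ρ i))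
    (h0 : ∀ i u v, H (ρ i u) (ρ i v) → p u ≠ p v)
    (h1 : ∀ u v, p u ≠ p v → ∃! i, H (ρ i u) (ρ i v)) : LF p t ρ := by
  refine ⟨fun i u v => H (ρ i u) (ρ i v), fun i u v => hs _ _, h0, h1, fun i j => ?_⟩
  let e : Fin t → V ≃ V := fun i =>
    Equiv.ofBijective (ρ i) (Finite.injective_iff_bijective.1 (hinj i))
  have he : ∀ v, ρ j ((e j).symm (e i v)) = ρ i v := fun v => (e j).apply_symm_apply _
  exact ⟨(e i).trans (e j).symm, fun u v => by simp only [Equiv.trans_apply, he], he⟩

/-- Part of the vertex `v` when the parts are `[0,a)`, `[a,a+b)`, `[a+b,a+b+c)`. -/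
def cpart (a b v : ℕ) : ℕ := if v < a then 0 else if v < a + b then 1 else 2

/-- Role of the vertex `v` at time `i` (bytes of `R`). -/
def crole (n R i v : ℕ) : ℕ := (R >>> (8 * (i * n + v))) % 256

/-- Adjacency of two roles (bits of `G`). -/
def cadj (n G r r' : ℕ) : Bool := G.testBit (r * n + r') || G.testBit (r' * n + r)

/-- Certificate check: `G` encodes the common factor, `R` the roles. -/
def cert (t a b c G R : ℕ) : Bool :=
  (List.range (a + b + c)).all fun u =>
    ((List.range t).all fun i => decide (crole (a + b + c) R i u < a + b + c)) &&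
    (List.range (u + 1)).all fun v =>
      ((List.range t).all fun i =>
        decide (v = u) || decide (crole (a + b + c) R i u ≠ crole (a + b + c) R i v)) &&
      decide (((List.range t).filter fun i =>
        cadj (a + b + c) G (crole (a + b + c) R i u) (crole (a + b + c) R i v)).length =
        if cpart a b u = cpart a b v then 0 else 1)

lemma cpart_lt (a b v : ℕ) : cpart a b v < 3 := by
  unfold cpart
  split_ifs <;> omega

lemma cadj_comm (n G r r' : ℕ) : cadj n G r r' = cadj n G r' r := Bool.or_comm _ _

lemma card_cpart (a b c : ℕ) (P : Fin 3) :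
    (univ.filter fun v : Fin (a + b + c) => (⟨cpart a b v, cpart_lt _ _ _⟩ : Fin 3) = P).card =
      ![a, b, c] P := by
  have key : ∀ l u, u ≤ a + b + c →
      (univ.filter fun v : Fin (a + b + c) => l ≤ v.val ∧ v.val < u).card = u - l := by
    intro l u h
    rw [← Nat.card_Ico, ← card_map Fin.valEmbedding]
    congr 1
    ext x
    simp only [mem_map, mem_filter, mem_univ, true_and, Fin.valEmbedding_apply, mem_Ico]
    exact ⟨fun ⟨v, h1, h2⟩ => h2 ▸ h1, fun h1 => ⟨⟨x, by omega⟩, h1, rfl⟩⟩
  fin_cases P
  · refine (congrArg card (filter_congr fun v _ => ?_)).trans ((key 0 a (by omega)).trans rfl)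
    simp only [cpart, Fin.ext_iff]
    split_ifs <;> simp <;> omega
  · refine (congrArg card (filter_congr fun v _ => ?_)).trans
      ((key a (a + b) (by omega)).trans (by simp))
    simp only [cpart, Fin.ext_iff]
    split_ifs <;> simp <;> omega
  · refine (congrArg card (filter_congr fun v _ => ?_)).trans
      ((key (a + b) (a + b + c) le_rfl).trans (by simp))
    have := v.2
    simp only [cpart, Fin.ext_iff]
    split_ifs <;> simp <;> omega

lemma length_filter_range (t : ℕ) (f : ℕ → Bool) :
    ((List.range t).filter f).length = (univ.filter fun i : Fin t => f i = true).card := by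
  rw [← card_map Fin.valEmbedding, ← List.toFinset_card_of_nodup (List.nodup_range.filter _)]
  congr 1
  ext x
  simp only [List.mem_toFinset, List.mem_filter, List.mem_range, mem_map, mem_filter, mem_univ,
    true_and, Fin.valEmbedding_apply]
  exact ⟨fun h => ⟨⟨x, h.1⟩, h.2, rfl⟩, fun ⟨v, h1, h2⟩ => h2 ▸ ⟨v.2, h1⟩⟩

lemma LF.of_cert {t a b c G R : ℕ} (h : cert t a b c G R = true) :
    ∃ ρ : Fin t → Fin (a + b + c) → Fin (a + b + c),
      (∀ i v, (ρ i v).val = crole (a + b + c) R i v) ∧
      LF (fun v : Fin (a + b + c) => (⟨cpart a b v, cpart_lt _ _ _⟩ : Fin 3)) t ρ := by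
  simp only [cert, List.all_eq_true, List.mem_range, Bool.and_eq_true, decide_eq_true_eq,
    Bool.or_eq_true, length_filter_range] at h
  let ρ : Fin t → Fin (a + b + c) → Fin (a + b + c) := fun i v =>
    ⟨crole (a + b + c) R i v, (h v v.2).1 i i.2⟩
  have key : ∀ u v : Fin (a + b + c), (univ.filter fun i : Fin t =>
      cadj (a + b + c) G (ρ i u) (ρ i v) = true).card =
      if cpart a b u = cpart a b v then 0 else 1 := by
    intro u v
    rcases le_total v.val u.val with hl | hl
    · exact ((h u u.2).2 v (by omega)).2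
    · simp only [cadj_comm _ _ (ρ _ u), eq_comm (a := cpart a b u)]
      exact ((h v v.2).2 u (by omega)).2
  refine ⟨ρ, fun _ _ => rfl, LF.of_roles _ t
    (fun r r' : Fin (a + b + c) => cadj (a + b + c) G r r' = true) ρ
    (fun r r' h => by rwa [cadj_comm]) (fun i u v huv => ?_) (fun i u v huv hp => ?_)
    fun u v hp => ?_⟩
  · have e : crole (a + b + c) R i u = crole (a + b + c) R i v := congrArg Fin.val huv
    rcases le_total v.val u.val with hl | hl
    · exact Fin.ext ((((h u u.2).2 v (by omega)).1 i i.2).resolve_right fun h => h e).symm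
    · exact Fin.ext ((((h v v.2).2 u (by omega)).1 i i.2).resolve_right fun h => h e.symm)
  · have := key u v
    rw [if_pos (congrArg Fin.val hp), card_eq_zero, filter_eq_empty_iff] at this
    exact this (mem_univ i) huv
  · have := key u v
    rw [if_neg fun h => hp (Fin.ext h)] at this
    obtain ⟨i, hi⟩ := card_eq_one.1 this
    have hi' : ∀ j, cadj (a + b + c) G (ρ j u) (ρ j v) = true ↔ j = i := fun j => by
      rw [← mem_singleton (b := j), ← hi]
      simp
    exact ⟨i, (hi' i).2 rfl, fun j => (hi' j).1⟩

theorem good_of_cert {t a b c : ℕ} (G R : ℕ) (h : cert t a b c G R = true) :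
    Good t ![a, b, c] := by
  obtain ⟨ρ, -, h⟩ := LF.of_cert h
  convert h.good using 2 with P
  exact (card_cpart a b c P).symm

end Pool.Agent.Lib.MP_351560_co
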