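import Mathlib
import Pool.Agent.Lib.MP_351560_co.Star
import Pool.Agent.Lib.MP_351560_co.Cert

set_option autoImplicit false
set_option linter.unusedSimpArgs false
set_option linter.unusedVariables false
set_option linter.unusedSectionVars false

namespace Pool.Agent.Lib.MP_351560_co

open Finset

/-- Extension of the part `P` by `k` new vertices that are leaves (or isolated) in every factor:
a vertex with label `l` gets `w l` new leaves. -/
lemma LF.extend_leaves {V Λ : Type} [Fintype V] {p : V → Fin 3} {t : ℕ}
    {lab : Fin t → V → Λ} (h : LF p t lab) (P : Fin 3) (w : Λ → ℕ) (k : ℕ)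
    (h0 : ∀ i v, p v = P → w (lab i v) = 0) (h1 : ∀ v, p v ≠ P → ∑ i, w (lab i v) = k)
    (h2 : ∀ i, ∑ v, w (lab i v) ≤ k) :
    Good t fun Q => (univ.filter fun v => p v = Q).card + if Q = P then k else 0 := by
  classical
  obtain ⟨F, f2, f3, f4, f5⟩ := h
  obtain ⟨θ, θ1, θ2⟩ := sched (D := {v // p v ≠ P}) (fun v i => w (lab i v.1)) k
    (fun v => h1 v.1 v.2) (fun i => by
      refine le_trans ?_ (h2 i)
      rw [← sum_subtype (univ.filter fun v => p v ≠ P) (by simp) fun v => w (lab i v)]
      exact sum_le_sum_of_subset (subset_univ _))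
  let par : Fin t → Fin k → Option V := fun i x =>
    if h : ∃ v, θ v x = i then some h.choose.1 else none
  have hpar : ∀ i x v, par i x = some v ↔ ∃ h : p v ≠ P, θ ⟨v, h⟩ x = i := by
    intro i x v
    simp only [par]
    split_ifs with h
    · constructor
      · intro e
        obtain rfl := Option.some.inj e
        exact ⟨h.choose.2, h.choose_spec⟩
      · rintro ⟨hv, e⟩
        rw [θ2 x _ _ (h.choose_spec.trans e.symm)]
    · exact iff_of_false (by simp) fun ⟨hv, e⟩ => h ⟨_, e⟩
  have hcard : ∀ i v, (univ.filter fun x => par i x = some v).card = w (lab i v) := by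
    intro i v
    by_cases hv : p v = P
    · simp [hpar, hv, h0 i v hv]
    · rw [← θ1 ⟨v, hv⟩ i]
      simp [hpar, hv]
  let p' : V ⊕ Fin k → Fin 3 := Sum.elim p fun _ => P
  let F' : Fin t → V ⊕ Fin k → V ⊕ Fin k → Prop := fun i z z' => match z, z' with
    | .inl u, .inl v => F i u v
    | .inl v, .inr x => par i x = some v
    | .inr x, .inl v => par i x = some v
    | .inr _, .inr _ => False
  refine ⟨V ⊕ Fin k, inferInstance, p', fun Q => ?_, F', ?_, ?_, ?_, ?_⟩
  · simp only [card_filter, Fintype.sum_sum_type, p', Sum.elim_inl, Sum.elim_inr]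
    by_cases hQ : Q = P
    · simp [hQ]
    · simp only [if_neg hQ, if_neg (Ne.symm hQ), sum_const_zero]
      congr
  · rintro i (u | x) (v | y) h
    exacts [f2 i u v h, h, h, h]
  · rintro i (u | x) (v | y) h
    · exact f3 i u v h
    · exact ((hpar _ _ _).1 h).1
    · exact ((hpar _ _ _).1 h).1.symm
    · exact h.elim
  · rintro (u | x) (v | y) h
    · exact f4 u v h
    · exact ⟨θ ⟨u, h⟩ y, (hpar _ _ _).2 ⟨h, rfl⟩, fun i hi => ((hpar _ _ _).1 hi).2.symm⟩
    · exact ⟨θ ⟨v, h.symm⟩ x, (hpar _ _ _).2 ⟨h.symm, rfl⟩,
        fun i hi => ((hpar _ _ _).1 hi).2.symm⟩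
    · exact absurd rfl h
  · intro i j
    obtain ⟨φ, hφ, hl⟩ := f5 i j
    have e1 : ∀ v, (univ.filter fun x => (par i x).map φ = some (φ v)).card =
        (univ.filter fun x => par j x = some (φ v)).card := by
      intro v
      rw [hcard, hl, ← hcard]
      simp
    obtain ⟨ψ, hψ⟩ := fib_equiv (fun x => (par i x).map φ) (par j) (by
      rintro (_ | v)
      · have a1 := sum_fib fun x => (par i x).map φ
        have a2 := sum_fib (par j)
        rw [Fintype.sum_option, ← φ.sum_comp] at a1 a2
        simp only [e1] at a1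
        omega
      · obtain ⟨v, rfl⟩ := φ.surjective v
        exact e1 v)
    refine ⟨Equiv.sumCongr φ ψ, ?_, fun _ => rfl⟩
    rintro (u | x) (v | y)
    · exact hφ u v
    · change _ ↔ par j (ψ y) = some (φ u)
      rw [hψ]
      simp [F']
    · change _ ↔ par j (ψ x) = some (φ v)
      rw [hψ]
      simp [F']
    · exact Iff.rfl

/-- Certificate with weights (bytes of `W`) for extending the first part by leaves. -/
def certL (t a b c G R W k : ℕ) : Bool :=
  cert t a b c G R &&
  ((List.range (a + b + c)).all fun v =>
    decide (((List.range t).map fun i => crole 0 W 0 (crole (a + b + c) R i v)).sum =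
      if v < a then 0 else k)) &&
  (List.range t).all fun i =>
    decide (((List.range (a + b + c)).map fun v => crole 0 W 0 (crole (a + b + c) R i v)).sum ≤ k)

theorem good_of_certL {t a b c : ℕ} (G R W k : ℕ) (h : certL t a b c G R W k = true) (j : ℕ) :
    Good t ![a + j * k, b, c] := by
  simp only [certL, List.all_eq_true, List.mem_range, Bool.and_eq_true, decide_eq_true_eq,
    ← List.sum_toFinset _ List.nodup_range, List.toFinset_range, Finset.sum_range] at h
  obtain ⟨⟨h0, h1⟩, h2⟩ := h
  obtain ⟨ρ, hρ, h⟩ := LF.of_cert h0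
  have := h.extend_leaves 0 (fun r => j * crole 0 W 0 r) (j * k) (fun i v hv => by
    have := h1 v v.2
    rw [if_pos (by
      by_contra hh
      have : cpart a b v = 0 := congrArg Fin.val hv
      simp only [cpart, if_neg hh] at this
      split_ifs at this), sum_eq_zero_iff] at this
    rw [hρ, this i (mem_univ _), mul_zero]) (fun v hv => by
    have := h1 v v.2
    rw [if_neg fun hh => hv (Fin.ext (by simp [cpart, hh]))] at this
    simp only [hρ, ← mul_sum, this]) (fun i => by
    simp only [hρ, ← mul_sum]
    exact Nat.mul_le_mul_left _ (h2 i i.2))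
  convert this using 2 with P
  rw [card_cpart]
  fin_cases P <;> simp

lemma good_7_3_3 (j : ℕ) : Good 7 ![2 + j * 7, 3, 3] :=
  good_of_certL 0x2000080800
    0x306050704000201040700060305010200040703060502010703040106050200050006040703020104000306050702010603050401070002
    0x101010102000000 7 (by decide +kernel) j

lemma good_5_3_3_1 : Good 5 ![3, 3, 1] :=
  good_of_cert 0xe 0x503020104000600020501040603040302010506000006020501030405030201000604
    (by decide +kernel)

end Pool.Agent.Lib.MP_351560_co
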