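import Mathlib
import Pool.Agent.Lib.MP_351560_co.Fam
import Pool.Agent.Lib.MP_351560_co.Leaves

set_option autoImplicit false
set_option linter.unusedSimpArgs false
set_option linter.unusedVariables false
set_option linter.unusedSectionVars false

namespace Pool.Agent.Lib.MP_351560_co

open Finset

lemma star_4_3_2_2 (j : ℕ) : Good 4 ![3 + j * 4, 2, 2] :=
  good_of_starOK ![1, 2] ![0, 4] ![1, 1] ![1, 1]
    ![3, 1] ![3, 1] 0 0 (by decide +kernel) j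

lemma star_4_5_2_2 (j : ℕ) : Good 4 ![5 + j * 4, 2, 2] :=
  good_of_starOK ![1, 4] ![0, 4] ![1, 1] ![1, 1]
    ![3, 1] ![3, 1] 0 0 (by decide +kernel) j

lemma star_9_6_4_3 (j : ℕ) : Good 9 ![6 + j * 9, 4, 3] :=
  good_of_starOK ![1, 1, 2] ![0, 2, 3] ![0, 0, 3] ![1, 3, 1]
    ![5, 3, 1] ![5, 3, 1] 1 0 (by decide +kernel) j

lemma star_9_7_4_4 (j : ℕ) : Good 9 ![7 + j * 9, 4, 4] :=
  good_of_starOK ![1, 1, 2] ![0, 1, 3] ![0, 3, 2] ![1, 0, 3]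
    ![4, 3, 2] ![4, 3, 2] 2 0 (by decide +kernel) j

lemma star_11_14_5_5 (j : ℕ) : Good 11 ![14 + j * 11, 5, 5] :=
  good_of_starOK ![1, 1, 3, 5] ![0, 1, 2, 4] ![0, 1, 1, 2] ![0, 3, 2, 1]
    ![4, 3, 4, 0] ![5, 3, 2, 1] 4 3 (by decide +kernel) j

lemma star_11_13_6_4 (j : ℕ) : Good 11 ![13 + j * 11, 6, 4] :=
  good_of_starOK ![1, 2, 2, 3] ![0, 0, 2, 3] ![0, 1, 1, 3] ![2, 0, 1, 3]
    ![4, 2, 4, 1] ![4, 2, 4, 1] 3 0 (by decide +kernel) j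

lemma star_12_7_6_6 (j : ℕ) : Good 12 ![7 + j * 12, 6, 6] :=
  good_of_starOK ![1, 2, 1] ![0, 0, 3] ![1, 1, 4] ![1, 1, 4]
    ![7, 1, 4] ![7, 1, 4] 0 0 (by decide +kernel) j

lemma star_12_9_6_6 (j : ℕ) : Good 12 ![9 + j * 12, 6, 6] :=
  good_of_starOK ![1, 2] ![0, 4] ![3, 3] ![3, 3]
    ![9, 3] ![9, 3] 0 0 (by decide +kernel) j

lemma star_12_11_6_6 (j : ℕ) : Good 12 ![11 + j * 12, 6, 6] :=
  good_of_starOK ![1, 2, 2] ![0, 0, 3] ![1, 1, 4] ![1, 1, 4]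
    ![7, 1, 4] ![7, 1, 4] 0 0 (by decide +kernel) j

lemma star_12_13_6_6 (j : ℕ) : Good 12 ![13 + j * 12, 6, 6] :=
  good_of_starOK ![1, 2, 3] ![0, 0, 4] ![0, 2, 3] ![2, 1, 3]
    ![8, 1, 3] ![8, 1, 3] 0 0 (by decide +kernel) j

lemma star_12_15_6_6 (j : ℕ) : Good 12 ![15 + j * 12, 6, 6] :=
  good_of_starOK ![1, 4] ![0, 4] ![3, 3] ![3, 3]
    ![9, 3] ![9, 3] 0 0 (by decide +kernel) j

lemma star_12_17_6_6 (j : ℕ) : Good 12 ![17 + j * 12, 6, 6] :=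
  good_of_starOK ![1, 2, 4] ![0, 0, 4] ![1, 2, 3] ![1, 2, 3]
    ![7, 2, 3] ![7, 2, 3] 0 0 (by decide +kernel) j

lemma star_13_11_4_4 (j : ℕ) : Good 13 ![11 + j * 13, 4, 4] :=
  good_of_starOK ![1, 1, 3] ![0, 1, 4] ![0, 5, 2] ![1, 1, 3]
    ![3, 9, 1] ![3, 9, 1] 3 0 (by decide +kernel) j

lemma star_13_15_6_5 (j : ℕ) : Good 13 ![15 + j * 13, 6, 5] :=
  good_of_starOK ![1, 3, 4] ![1, 1, 4] ![0, 1, 3] ![4, 1, 2]
    ![9, 4, 0] ![9, 4, 0] 1 0 (by decide +kernel) j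

lemma star_13_10_6_6 (j : ℕ) : Good 13 ![10 + j * 13, 6, 6] :=
  good_of_starOK ![1, 1, 2] ![0, 1, 3] ![0, 4, 3] ![1, 1, 4]
    ![6, 4, 3] ![6, 4, 3] 3 0 (by decide +kernel) j

lemma star_13_9_7_5 (j : ℕ) : Good 13 ![9 + j * 13, 7, 5] :=
  good_of_starOK ![1, 1, 2] ![0, 2, 3] ![1, 2, 3] ![2, 5, 1]
    ![8, 2, 3] ![8, 2, 3] 2 0 (by decide +kernel) j

lemma star_14_10_6_5 (j : ℕ) : Good 14 ![10 + j * 14, 6, 5] :=
  good_of_starOK ![1, 1, 2] ![0, 1, 4] ![0, 6, 2] ![2, 2, 3]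
    ![6, 6, 2] ![6, 6, 2] 0 0 (by decide +kernel) j

lemma star_14_11_6_6 (j : ℕ) : Good 14 ![11 + j * 14, 6, 6] :=
  good_of_starOK ![1, 1, 2] ![0, 1, 3] ![0, 5, 3] ![1, 2, 4]
    ![6, 5, 3] ![6, 5, 3] 0 0 (by decide +kernel) j

lemma star_14_18_6_6 (j : ℕ) : Good 14 ![18 + j * 14, 6, 6] :=
  good_of_starOK ![1, 2, 3] ![0, 2, 2] ![0, 3, 4] ![0, 3, 4]
    ![7, 4, 3] ![7, 4, 3] 0 0 (by decide +kernel) j

lemma star_15_12_6_6 (j : ℕ) : Good 15 ![12 + j * 15, 6, 6] :=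
  good_of_starOK ![1, 1, 2] ![0, 1, 3] ![1, 3, 4] ![2, 0, 5]
    ![6, 6, 3] ![6, 6, 3] 3 0 (by decide +kernel) j

lemma star_15_17_6_6 (j : ℕ) : Good 15 ![17 + j * 15, 6, 6] :=
  good_of_starOK ![1, 2, 3] ![0, 2, 3] ![2, 0, 5] ![2, 3, 3]
    ![8, 6, 1] ![8, 6, 1] 3 0 (by decide +kernel) j

lemma star_15_22_6_6 (j : ℕ) : Good 15 ![22 + j * 15, 6, 6] :=
  good_of_starOK ![1, 3, 4] ![0, 3, 3] ![2, 0, 5] ![3, 1, 4]
    ![10, 2, 3] ![10, 2, 3] 3 0 (by decide +kernel) j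

lemma star_16_13_6_6 (j : ℕ) : Good 16 ![13 + j * 16, 6, 6] :=
  good_of_starOK ![1, 4, 1] ![0, 0, 4] ![1, 2, 4] ![5, 1, 4]
    ![11, 1, 4] ![11, 1, 4] 4 0 (by decide +kernel) j

lemma star_16_17_6_6 (j : ℕ) : Good 16 ![17 + j * 16, 6, 6] :=
  good_of_starOK ![1, 4, 2] ![0, 0, 4] ![1, 2, 4] ![5, 1, 4]
    ![11, 1, 4] ![11, 1, 4] 4 0 (by decide +kernel) j

lemma star_16_21_6_6 (j : ℕ) : Good 16 ![21 + j * 16, 6, 6] :=
  good_of_starOK ![1, 4, 3] ![0, 0, 4] ![1, 2, 4] ![5, 1, 4]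
    ![11, 1, 4] ![11, 1, 4] 4 0 (by decide +kernel) j

lemma star_16_25_6_6 (j : ℕ) : Good 16 ![25 + j * 16, 6, 6] :=
  good_of_starOK ![1, 4, 4] ![0, 0, 4] ![1, 2, 4] ![5, 1, 4]
    ![11, 1, 4] ![11, 1, 4] 4 0 (by decide +kernel) j

lemma star_17_14_6_6 (j : ℕ) : Good 17 ![14 + j * 17, 6, 6] :=
  good_of_starOK ![2, 1, 2] ![0, 1, 3] ![0, 8, 3] ![1, 2, 5]
    ![2, 14, 1] ![2, 14, 1] 1 0 (by decide +kernel) j

lemma star_19_24_9_9 (j : ℕ) : Good 19 ![24 + j * 19, 9, 9] :=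
  good_of_starOK ![1, 3, 3] ![0, 2, 3] ![0, 5, 3] ![3, 2, 5]
    ![12, 2, 5] ![12, 2, 5] 7 0 (by decide +kernel) j

lemma star_21_13_9_9 (j : ℕ) : Good 21 ![13 + j * 21, 9, 9] :=
  good_of_starOK ![1, 2, 1] ![0, 0, 3] ![2, 2, 7] ![4, 1, 7]
    ![13, 1, 7] ![13, 1, 7] 3 0 (by decide +kernel) j

lemma star_21_16_10_10 (j : ℕ) : Good 21 ![16 + j * 21, 10, 10] :=
  good_of_starOK ![1, 1, 2] ![0, 1, 3] ![0, 6, 5] ![1, 3, 6]
    ![10, 6, 5] ![10, 6, 5] 5 0 (by decide +kernel) j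

lemma star_22_17_10_10 (j : ℕ) : Good 22 ![17 + j * 22, 10, 10] :=
  good_of_starOK ![1, 1, 2] ![0, 1, 3] ![0, 7, 5] ![1, 4, 6]
    ![10, 7, 5] ![10, 7, 5] 0 0 (by decide +kernel) j

lemma star_24_19_10_10 (j : ℕ) : Good 24 ![19 + j * 24, 10, 10] :=
  good_of_starOK ![1, 6, 1] ![0, 0, 4] ![1, 2, 6] ![7, 1, 6]
    ![17, 1, 6] ![17, 1, 6] 4 0 (by decide +kernel) j

lemma star_24_25_10_10 (j : ℕ) : Good 24 ![25 + j * 24, 10, 10] :=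
  good_of_starOK ![1, 6, 2] ![0, 0, 4] ![1, 2, 6] ![7, 1, 6]
    ![17, 1, 6] ![17, 1, 6] 4 0 (by decide +kernel) j

lemma star_32_25_14_14 (j : ℕ) : Good 32 ![25 + j * 32, 14, 14] :=
  good_of_starOK ![1, 1, 2] ![0, 1, 3] ![0, 11, 7] ![2, 5, 9]
    ![14, 11, 7] ![14, 11, 7] 0 0 (by decide +kernel) j

lemma star_5_8_3_1 (j : ℕ) : Good 5 ![8 + j * 5, 3, 1] :=
  good_of_starOK ![1, 5] ![1, 2] ![3, 1] ![3, 1]
    ![1, 2] ![1, 2] 0 0 (by decide +kernel) j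

def U4 (t b c : ℕ) : Prop := 4 ≤ b + c ∧ b ≤ t / (b + c) ∧ 3 * (t / (b + c)) + b + 2 ≤ t

def uq (t b c w : ℕ) : ℕ :=
  max ((c + w - 2) / (w - 1)) (max (((t + b - 1) / b + min b (t / 2) + w - 1) / w)
    (((t + b - 1) / b + b + 2 * w - 1) / (2 * w)))

def UW (t b c w : ℕ) : Prop :=
  w * ((b * uq t b c w + t - 1) / t * t / b) + 2 * ((t + b - 1) / b) + 2 * w + 2 ≤ t

def GN (t a b c p w n s : ℕ) : ℕ :=
  n * t % b * Glo t a p w s (n * t / b + 1) + (b - n * t % b) * Glo t a p w s (n * t / b) +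
    (t - (n * t % b * Glo t a p w s (n * t / b + 1) + (b - n * t % b) * Glo t a p w s (n * t / b) +
      c * (a + b - p * t)) % t) % t

def GK (t a b c p w n s : ℕ) : Prop := GOK t a b c p w n s (GN t a b c p w n s)

def ExtG (t a b c p : ℕ) : Prop :=
  ∃ w < 2, ∃ i < 3, ∃ s < (w + 2) * p + 3,
    GK t a b c p (w + 2) ((b * ((c + w) / (w + 1)) + t - 1) / t + i) s

def ExtF (t a b c p : ℕ) : Prop :=
  ∃ s < 2 * p + 2, ∃ l1 < t / b + 1, ∃ e1 < 2, ∃ e2 < 2,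
    FOK t a b c p (s + 1) l1 e1 ((t - b * l1) / c) e2

def SpExc : List (ℕ × ℕ × ℕ × ℕ) :=
  [(4, 3, 2, 2), (4, 5, 2, 2), (5, 3, 3, 1), (7, 9, 3, 3), (9, 6, 4, 3), (9, 7, 4, 4),
    (11, 14, 5, 5), (11, 13, 6, 4), (12, 7, 6, 6), (12, 9, 6, 6), (12, 11, 6, 6), (12, 13, 6, 6),
    (12, 15, 6, 6), (12, 17, 6, 6), (13, 11, 4, 4), (13, 15, 6, 5), (13, 10, 6, 6), (13, 9, 7, 5),
    (14, 10, 6, 5), (14, 11, 6, 6), (14, 18, 6, 6), (15, 12, 6, 6), (15, 17, 6, 6), (15, 22, 6, 6),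
    (16, 13, 6, 6), (16, 17, 6, 6), (16, 21, 6, 6), (16, 25, 6, 6), (17, 14, 6, 6), (19, 24, 9, 9),
    (21, 13, 9, 9), (21, 16, 10, 10), (22, 17, 10, 10), (24, 19, 10, 10), (24, 25, 10, 10),
    (32, 25, 14, 14)]

def SpA (t a b c : ℕ) : Prop :=
  (a * b + b * c + c * a) % t = 0 → ExtG t a b c 1 ∨ ExtF t a b c 1 ∨
    (a < b ∧ (ExtG t (a + t) b c 2 ∨ ExtF t (a + t) b c 2)) ∨ (t, a, b, c) ∈ SpExc

def SpC (t b c : ℕ) : Prop :=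
  2 ≤ b → 0 < c → b + c ≤ t → U4 t b c ∨ UW t b c 3 ∨ UW t b c 2 ∨ (b = 2 ∧ c = 1 ∧ 7 ≤ t) ∨
    ∀ a < t, SpA t (t - b + a) b c

instance (t b c : ℕ) : Decidable (U4 t b c) := by unfold U4; infer_instance
instance (t b c w : ℕ) : Decidable (UW t b c w) := by unfold UW; infer_instance
instance (t a p w s v : ℕ) : Decidable (GRow t a p w s v) := by unfold GRow; infer_instance
instance (t a p s v : ℕ) : Decidable (FRow t a p s v) := by unfold FRow; infer_instance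
instance (t a b c p w n s : ℕ) : Decidable (GK t a b c p w n s) := by
  unfold GK GOK; infer_instance
instance (t a b c p s l1 e1 l2 e2 : ℕ) : Decidable (FOK t a b c p s l1 e1 l2 e2) := by
  unfold FOK; infer_instance
instance (t a b c p : ℕ) : Decidable (ExtG t a b c p) := by unfold ExtG; infer_instance
instance (t a b c p : ℕ) : Decidable (ExtF t a b c p) := by unfold ExtF; infer_instance
instance (t a b c : ℕ) : Decidable (SpA t a b c) := by unfold SpA; infer_instance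
instance (t b c : ℕ) : Decidable (SpC t b c) := by unfold SpC; infer_instance

end Pool.Agent.Lib.MP_351560_co
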