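import Mathlib
import Pool.Agent.Lib.MP_351560_co.SparseTab

set_option autoImplicit false

namespace Pool.Agent.Lib.MP_351560_co

lemma sp_small1 : ∀ t < 40, ∀ b < t, ∀ c < min b (t - b) + 1, SpC t b c := by
  decide +kernel

lemma sp_small2 : ∀ t < 50, ∀ b < t + 40, ∀ c < min b (t + 40 - b) + 1, SpC (t + 40) b c := by
  decide +kernel

end Pool.Agent.Lib.MP_351560_co
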