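import Mathlib
import Pool.Agent.Lib.MP_351560_co.SparseTab

set_option autoImplicit false

namespace Pool.Agent.Lib.MP_351560_co

lemma sp_small3 : ∀ t < 30, ∀ b < t + 90, ∀ c < min b (t + 90 - b) + 1, SpC (t + 90) b c := by
  decide +kernel

end Pool.Agent.Lib.MP_351560_co
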