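import Mathlib
import Pool.Agent.Lib.MP_351560_co.SparseT1
import Pool.Agent.Lib.MP_351560_co.SparseT2

set_option autoImplicit false
set_option linter.unusedSimpArgs false
set_option linter.unusedVariables false
set_option linter.unusedSectionVars false

namespace Pool.Agent.Lib.MP_351560_co

open Finset

lemma ladder (P : ℕ → Prop) (K : ℕ) (h : P K) : ∃ k ≤ K, P k ∧ ∀ l, k = l + 1 → ¬ P l := by
  classical
  exact ⟨Nat.find ⟨K, h⟩, Nat.find_min' _ h, Nat.find_spec (⟨K, h⟩ : ∃ k, P k),
    fun l hl => Nat.find_min ⟨K, h⟩ (by omega)⟩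

lemma frow_of {t A p s z k : ℕ} (hz : 2 * z ≤ t) (hs : s + 1 = 2 * p + k)
    (h1 : p * t + k * z ≤ A + z) (h2 : A + 3 * z ≤ p * t + t + k * z) : FRow t A p s z := by
  obtain ⟨u, rfl⟩ := Nat.exists_eq_add_of_le hz
  have e1 : s * z + z = 2 * (p * z) + k * z := by
    have : (s + 1) * z = (2 * p + k) * z := by rw [hs]
    linarith
  have e2 : p * (2 * z + u) = 2 * (p * z) + p * u := by ring
  unfold FRow
  rw [Nat.add_sub_cancel_left]
  omega

lemma good_U4 {t a b c : ℕ} (hcb : c ≤ b) (hc : 0 < c) (hbc : b + c ≤ t) (hab : t ≤ a + b)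
    (hq : t ∣ a * b + b * c + c * a) (h : U4 t b c) : Good t ![a, b, c] := by
  obtain ⟨h1, h2, h3⟩ := h
  have ht : 0 < t := by omega
  have e1 := Nat.div_add_mod (a + b) t
  have e2 := Nat.mod_lt (a + b) ht
  have hp : 1 ≤ (a + b) / t := (Nat.le_div_iff_mul_le ht).2 (by omega)
  have e3 := Nat.div_add_mod t (b + c)
  have e4 := Nat.mod_lt t (show 0 < b + c by omega)
  generalize (a + b) / t = p at *
  generalize t / (b + c) = z at *
  rw [mul_comm] at e1
  rw [add_mul] at e3
  have e5 : b * z + c * z ≤ t := by omega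
  have e6 : t ≤ b * (z + 1) + c * (z + 1) := by
    simp only [mul_add, mul_one]
    omega
  have key : ∀ k, k ≤ 3 → p * t + k * z ≤ a + z → p * t + k * (z + 1) ≤ a + z + 1 →
      a + b + 3 * z ≤ p * t + t + k * z → a + b + 3 * (z + 1) ≤ p * t + t + k * (z + 1) →
      Good t ![a, b, c] := by
    intro k hk a1 a2 a3 a4
    have hs : 2 * p + k - 1 + 1 = 2 * p + k := by omega
    simpa using good_of_FOK (p := p) (s := 2 * p + k - 1) (l1 := z) (e1 := 1) (l2 := z) (e2 := 1)
      hbc hc hp (by omega) le_rfl le_rfl hq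
      ⟨by omega, frow_of (by omega) hs (by omega) (by omega),
        frow_of (by omega) hs (by omega) (by omega), frow_of (by omega) hs (by omega) (by omega),
        frow_of (by omega) hs (by omega) (by omega), e5, e6⟩ 0
  by_cases c1 : p * t + 2 * z + 2 ≤ a
  · exact key 3 (by omega) (by omega) (by omega) (by omega) (by omega)
  by_cases c2 : p * t + z + 1 ≤ a
  · exact key 2 (by omega) (by omega) (by omega) (by omega) (by omega)
  by_cases c3 : p * t ≤ a
  · exact key 1 (by omega) (by omega) (by omega) (by omega) (by omega)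
  · exact key 0 (by omega) (by omega) (by omega) (by omega) (by omega)

lemma good_two_one {t a : ℕ} (ht : 7 ≤ t) (hab : t ≤ a + 2) (hq : t ∣ a * 2 + 2 * 1 + 1 * a) :
    Good t ![a, 2, 1] := by
  have e1 := Nat.div_add_mod a t
  have e2 := Nat.mod_lt a (show 0 < t by omega)
  generalize a / t = p at *
  generalize a % t = r at *
  obtain ⟨m, hm⟩ : t ∣ 3 * r + 2 := by
    have : a * 2 + 2 * 1 + 1 * a = t * (3 * p) + (3 * r + 2) := by
      rw [← e1]
      ring
    exact (Nat.dvd_add_right (dvd_mul_right _ _)).1 (this ▸ hq)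
  have hm2 : m < 3 := by
    by_contra h
    have := Nat.mul_le_mul_left t (not_lt.1 h)
    omega
  rw [mul_comm] at e1
  have hs : 2 * p + 1 + 1 = 2 * p + 2 := rfl
  have hp : 1 ≤ p := by
    rcases p with _ | p
    · interval_cases m <;> omega
    · omega
  interval_cases m
  · omega
  · simpa using good_of_FOK (p := p) (s := 2 * p + 1) (l1 := r) (e1 := 0) (l2 := r + 2) (e2 := 0)
      (by omega) one_pos hp (by omega) zero_le_one zero_le_one hq
      ⟨by omega, frow_of (by omega) hs (by omega) (by omega),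
        frow_of (by omega) hs (by omega) (by omega), frow_of (by omega) hs (by omega) (by omega),
        frow_of (by omega) hs (by omega) (by omega), by omega, by omega⟩ 0
  · simpa using good_of_FOK (p := p) (s := 2 * p + 1) (l1 := r / 2 + 1) (e1 := 0) (l2 := r / 2 - 1)
      (e2 := 0) (by omega) one_pos hp (by omega) zero_le_one zero_le_one hq
      ⟨by omega, frow_of (by omega) hs (by omega) (by omega),
        frow_of (by omega) hs (by omega) (by omega), frow_of (by omega) hs (by omega) (by omega),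
        frow_of (by omega) hs (by omega) (by omega), by omega, by omega⟩ 0

lemma grow_of {t a p w s v W R : ℕ} (h1 : w * v + W ≤ t) (h2 : p * t + s * v + R = a + p * w * v)
    (h3 : W ≤ R) (h4 : R + w * v + W ≤ t + v) :
    GRow t a p w s v ∧ Glo t a p w s v + min v W ≤ Ghi t a p w s v := by
  obtain ⟨u, rfl⟩ := Nat.exists_eq_add_of_le (show w * v ≤ t by omega)
  have e : p * (w * v + u) = p * w * v + p * u := by ring
  unfold GRow Glo Ghi
  rw [Nat.add_sub_cancel_left]
  omega

lemma uw_s {t a b p w q W : ℕ} (hw : w = 2 ∨ w = 3) (hb : 2 ≤ b) (hp : 1 ≤ p)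
    (h1 : p * t ≤ a + b) (h2 : a + b < p * t + t) (hW : W ≤ q + 1)
    (h3 : w * q + 2 * W + 2 * w + 2 ≤ t) (h4 : p = 1 → W + t ≤ a + w * q)
    (h5 : W + b ≤ 2 * w * q) :
    ∃ s R R', p * t + s * q + R = a + p * w * q ∧ p * t + s * (q + 1) + R' = a + p * w * (q + 1) ∧
      W ≤ R ∧ W ≤ R' ∧ R + w * q + W ≤ t + q ∧ R' + w * (q + 1) + W ≤ t + (q + 1) := by
  by_cases h : p * t + W ≤ a
  · obtain ⟨k, k1, k2, k3⟩ := ladder
      (fun k => a + w * (q + 1) + W ≤ p * t + t + (q + 1) + k * q) (w + 1) (by
        rcases hw with rfl | rfl <;> omega)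
    have k4 : p * t + k * q + k + W ≤ a := by
      rcases k with _ | l
      · omega
      · have := k3 l rfl
        simp only [add_mul, mul_add, one_mul, mul_one] at *
        omega
    refine ⟨p * w + k, a - p * t - k * q, a - p * t - k * q - k, ?_⟩
    simp only [add_mul, mul_add, one_mul, mul_one] at *
    omega
  · obtain ⟨K, K1, K2, K3⟩ : ∃ K, K ≤ p * w ∧ K ≤ 2 * w ∧ p * t + W ≤ a + K * q := by
      by_cases h' : p = 1
      · have := h4 h'
        subst h'
        exact ⟨w, by omega, by omega, by omega⟩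
      · exact ⟨2 * w, Nat.mul_le_mul_right _ (by omega), le_rfl, by omega⟩
    obtain ⟨k, k1, k2, k3⟩ := ladder (fun k => p * t + W ≤ a + k * q) K K3
    obtain ⟨s, hs⟩ := Nat.exists_eq_add_of_le (k1.trans K1)
    have k4 : a + k * q < p * t + W + q := by
      rcases k with _ | l
      · omega
      · have := k3 l rfl
        simp only [add_mul, one_mul] at *
        omega
    refine ⟨s, a + k * q - p * t, a + k * q + k - p * t, ?_⟩
    rw [hs]
    simp only [add_mul, mul_add, one_mul, mul_one] at *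
    omega

lemma good_UW {t a b c w : ℕ} (hw : w = 2 ∨ w = 3) (hcb : c ≤ b) (hba : b ≤ a) (hc : 0 < c)
    (hb : 2 ≤ b) (hbc : b + c ≤ t) (hab : t ≤ a + b) (hq : t ∣ a * b + b * c + c * a)
    (h : UW t b c w) : Good t ![a, b, c] := by
  have ht : 0 < t := by omega
  have e1 := Nat.div_add_mod (a + b) t
  have e2 := Nat.mod_lt (a + b) ht
  have hp : 1 ≤ (a + b) / t := (Nat.le_div_iff_mul_le ht).2 (by omega)
  have e3 := Nat.div_add_mod (t + b - 1) b
  have e4 := Nat.mod_lt (t + b - 1) (show 0 < b by omega)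
  have e5 := Nat.div_add_mod (b * uq t b c w + t - 1) t
  have e6 := Nat.mod_lt (b * uq t b c w + t - 1) ht
  have u1 : (c + w - 2) / (w - 1) ≤ uq t b c w := le_max_left _ _
  have u2 : ((t + b - 1) / b + min b (t / 2) + w - 1) / w ≤ uq t b c w :=
    (le_max_left _ _).trans (le_max_right _ _)
  have u3 : ((t + b - 1) / b + b + 2 * w - 1) / (2 * w) ≤ uq t b c w :=
    (le_max_right _ _).trans (le_max_right _ _)
  unfold UW at h
  generalize (a + b) / t = p at *
  generalize uq t b c w = u at *
  generalize (b * u + t - 1) / t = n at *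
  generalize (t + b - 1) / b = W at *
  have hu : 1 ≤ u := by rcases hw with rfl | rfl <;> omega
  have e7 := Nat.div_add_mod (n * t) b
  have e8 := Nat.mod_lt (n * t) (show 0 < b by omega)
  have hn : t ≤ n * t := by
    rcases n with _ | n
    · have := Nat.mul_le_mul_left b hu
      omega
    · simp [add_mul]
  have hqu : u ≤ n * t / b := (Nat.le_div_iff_mul_le (by omega)).2 (by
    rw [mul_comm u, mul_comm n]
    omega)
  have hW : W ≤ n * t / b + 1 := by
    by_contra h'
    have := Nat.mul_le_mul_left b (show n * t / b + 2 ≤ W by omega)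
    rw [mul_add] at this
    omega
  rw [mul_comm] at e1
  obtain ⟨s, R, R', r1, r2, r3, r4, r5, r6⟩ := uw_s (a := a) hw hb hp (by omega) (by omega) hW h
    (fun _ => by rcases hw with rfl | rfl <;> omega) (by rcases hw with rfl | rfl <;> omega)
  obtain ⟨g1, g2⟩ := grow_of (by omega) r1 r3 r5
  obtain ⟨g3, g4⟩ := grow_of (by rw [mul_add]; omega) r2 r4 r6
  have g5 : n * t % b * Glo t a p w s (n * t / b + 1) + (b - n * t % b) * Glo t a p w s (n * t / b)
      + t ≤ n * t % b * Ghi t a p w s (n * t / b + 1) +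
        (b - n * t % b) * Ghi t a p w s (n * t / b) := by
    have a1 := Nat.mul_le_mul_left (n * t % b) g4
    have a2 := Nat.mul_le_mul_left (b - n * t % b) g2
    have a3 : t ≤ n * t % b * min (n * t / b + 1) W + (b - n * t % b) * min (n * t / b) W := by
      generalize n * t / b = q at *
      generalize n * t % b = r at *
      obtain ⟨d, rfl⟩ := Nat.exists_eq_add_of_le e8.le
      rw [Nat.add_sub_cancel_left, min_eq_right hW]
      rcases le_total W q with h' | h'
      · rw [min_eq_right h', ← add_mul]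
        omega
      · rw [min_eq_left h']
        rcases (show W = q ∨ W = q + 1 by omega) with rfl | rfl
        · rw [← add_mul]
          omega
        · simp only [add_mul, mul_add, mul_one] at *
          omega
    simp only [mul_add] at a1 a2
    omega
  generalize hL : n * t % b * Glo t a p w s (n * t / b + 1) +
    (b - n * t % b) * Glo t a p w s (n * t / b) = L at g5
  have e9 := Nat.div_add_mod (L + c * (a + b - p * t)) t
  have e10 := Nat.mod_lt (L + c * (a + b - p * t)) ht
  simpa using good_of_GOK (n := n) (s := s) (w := w)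
    (N := L + (t - (L + c * (a + b - p * t)) % t)) hbc hc (by omega) hp (by omega) hq
    ⟨by omega, by omega, by rcases hw with rfl | rfl <;> omega, g1, .inr g3, by omega, by omega,
      Nat.mod_eq_zero_of_dvd ⟨(L + c * (a + b - p * t)) / t + 1, by rw [mul_add]; omega⟩⟩ 0

lemma sp_large {t b c : ℕ} (ht : 120 ≤ t) (hcb : c ≤ b) : SpC t b c := by
  intro hb hc hbc
  by_cases h : b * (b + c) ≤ t
  · by_cases h4 : 4 ≤ b + c
    · have e1 : b ≤ t / (b + c) := (Nat.le_div_iff_mul_le (by omega)).2 h
      have e2 := Nat.mul_div_le t (b + c)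
      refine .inl ⟨h4, e1, ?_⟩
      by_cases h5 : 5 ≤ b + c
      · have := Nat.mul_le_mul_right (t / (b + c)) h5
        omega
      · have := Nat.mul_le_mul_right (t / (b + c)) h4
        omega
    · exact .inr (.inr (.inr (.inl (by omega))))
  · refine .inr (.inl ?_)
    have h8 : 8 ≤ b := by
      by_contra h'
      have := Nat.mul_le_mul (show b ≤ 7 by omega) (show b + c ≤ 14 by omega)
      omega
    have e1 : (t + b - 1) / b = (t - 1) / b + 1 := by
      rw [show t + b - 1 = t - 1 + b by omega, Nat.add_div_right _ (by omega)]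
    have e2 : (b * uq t b c 3 + t - 1) / t * t / b ≤ uq t b c 3 + (t - 1) / b := by
      rw [← Nat.mul_add_div (by omega), Nat.add_sub_assoc (by omega)]
      exact Nat.div_le_div_right (Nat.div_mul_le_self _ _)
    have e3 := Nat.mul_div_le (t - 1) b
    have e4 : 3 * uq t b c 3 + 5 * ((t - 1) / b) + 10 ≤ t := by
      unfold uq
      rw [e1]
      generalize (t - 1) / b = V at *
      have a1 := Nat.mul_le_mul_right V h8
      by_cases c1 : 9 ≤ V
      · have := Nat.mul_le_mul_left b c1
        omega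
      by_cases c2 : 3 ≤ V
      · have := Nat.mul_le_mul_left b c2
        omega
      · omega
    unfold UW
    omega

lemma sp_all {t b c : ℕ} (hcb : c ≤ b) : SpC t b c := by
  intro hb hc hbc
  by_cases h1 : t < 40
  · exact sp_small1 t h1 b (by omega) c (by omega) hb hc hbc
  by_cases h2 : t < 90
  · obtain ⟨t, rfl⟩ : ∃ u, t = u + 40 := ⟨t - 40, by omega⟩
    exact sp_small2 t (by omega) b (by omega) c (by omega) hb hc hbc
  by_cases h3 : t < 120
  · obtain ⟨t, rfl⟩ : ∃ u, t = u + 90 := ⟨t - 90, by omega⟩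
    exact sp_small3 t (by omega) b (by omega) c (by omega) hb hc hbc
  · exact sp_large (by omega) hcb hb hc hbc

lemma good_exc : ∀ x ∈ SpExc, ∀ j, Good x.1 ![x.2.1 + j * x.1, x.2.2.1, x.2.2.2] := by
  simp only [SpExc, List.mem_cons, List.not_mem_nil, or_false, forall_eq_or_imp, forall_eq]
  refine ⟨star_4_3_2_2, star_4_5_2_2, fun j => ?_, fun j => ?_, star_9_6_4_3, star_9_7_4_4,
    star_11_14_5_5, star_11_13_6_4, star_12_7_6_6, star_12_9_6_6, star_12_11_6_6, star_12_13_6_6,
    star_12_15_6_6, star_12_17_6_6, star_13_11_4_4, star_13_15_6_5, star_13_10_6_6, star_13_9_7_5,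
    star_14_10_6_5, star_14_11_6_6, star_14_18_6_6, star_15_12_6_6, star_15_17_6_6, star_15_22_6_6,
    star_16_13_6_6, star_16_17_6_6, star_16_21_6_6, star_16_25_6_6, star_17_14_6_6, star_19_24_9_9,
    star_21_13_9_9, star_21_16_10_10, star_22_17_10_10, star_24_19_10_10, star_24_25_10_10,
    star_32_25_14_14⟩
  · rcases j with _ | j
    · exact good_5_3_3_1
    · rw [show 3 + (j + 1) * 5 = 8 + j * 5 by ring]
      exact star_5_8_3_1 j
  · rw [show 9 + j * 7 = 2 + (j + 1) * 7 by ring]
    exact good_7_3_3 (j + 1)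

lemma good_ext {t a b c p : ℕ} (hbc : b + c ≤ t) (hc : 0 < c) (hb : 0 < b) (hp : 1 ≤ p)
    (hq : t ∣ a * b + b * c + c * a) (h : ExtG t a b c p ∨ ExtF t a b c p) (j : ℕ) :
    Good t ![a + j * t, b, c] := by
  rcases h with ⟨w, -, i, -, s, -, h⟩ | ⟨s, -, l, -, e1, h1, e2, h2, h⟩
  · exact good_of_GOK hbc hc hb hp (by omega) hq h j
  · exact good_of_FOK hbc hc hp (by omega) (by omega) (by omega) hq h j

/-- The two smaller parts together have at most `t` vertices. -/
theorem good_sparse {t a b c : ℕ} (hcb : c ≤ b) (hba : b ≤ a) (hc : 0 < c) (hb : 2 ≤ b)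
    (hbc : b + c ≤ t) (hab : t ≤ a + b) (hq : t ∣ a * b + b * c + c * a) : Good t ![a, b, c] := by
  rcases sp_all hcb hb hc hbc with h | h | h | ⟨rfl, rfl, h⟩ | h
  · exact good_U4 hcb hc hbc hab hq h
  · exact good_UW (.inr rfl) hcb hba hc hb hbc hab hq h
  · exact good_UW (.inl rfl) hcb hba hc hb hbc hab hq h
  · exact good_two_one h hab hq
  have e1 := Nat.div_add_mod (a - (t - b)) t
  have h' := h _ (Nat.mod_lt (a - (t - b)) (show 0 < t by omega))
  obtain ⟨j, a, rfl, h''⟩ : ∃ j a', a = a' + j * t ∧ SpA t a' b c :=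
    ⟨(a - (t - b)) / t, _, by rw [mul_comm]; omega, h'⟩
  have hq' : ∀ i ≤ j, t ∣ (a + i * t) * b + b * c + c * (a + i * t) := by
    intro i hi
    obtain ⟨k, rfl⟩ := Nat.exists_eq_add_of_le hi
    refine (Nat.dvd_add_left (dvd_mul_left t (k * (b + c)))).1 ?_
    convert hq using 1
    ring
  have hq0 := hq' 0 j.zero_le
  simp only [zero_mul, add_zero] at hq0
  rcases h'' (Nat.mod_eq_zero_of_dvd hq0) with h1 | h1 | ⟨h1, h2⟩ | h1
  · exact good_ext hbc hc (by omega) le_rfl hq0 (.inl h1) j
  · exact good_ext hbc hc (by omega) le_rfl hq0 (.inr h1) j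
  · rcases j with _ | j
    · omega
    · rw [show a + (j + 1) * t = a + t + j * t by ring]
      exact good_ext hbc hc (by omega) one_le_two (by simpa using hq' 1 (by omega)) h2 j
  · exact good_exc _ h1 j

end Pool.Agent.Lib.MP_351560_co
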