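import Mathlib
import Pool.Agent.Lib.MP_351560_co.Main
import Pool.Agent.Lib.MP_351560_co.Sparse
import Pool.Agent.Lib.MP_351560_co.Dense

set_option autoImplicit false

namespace Pool.Agent.Lib.MP_351560_co

/-- One part of size at least `t`, the two others smaller with sum above `t`. -/
def StR2 : Prop := ∀ t a b c : ℕ, t ≤ a → c ≤ b → b < t → t < b + c →
  t ∣ a * b + b * c + c * a → Good t ![a, b, c]

/-- Two parts of size at least `t`. -/
def StL2 : Prop := ∀ t a b c : ℕ, t ≤ a → t ≤ b → 0 < c → c < t →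
  t ∣ a * b + b * c + c * a → Good t ![a, b, c]

/-- Three parts of size at least `t`, largest plus smallest residue below `t`. -/
def StL3s : Prop := ∀ t a b c : ℕ, 2 ≤ t → t ≤ a → t ≤ b → t ≤ c → b % t ≤ a % t →
  a % t ≤ c % t → b % t + c % t < t → t ∣ a * b + b * c + c * a → Good t ![a, b, c]

/-- Three parts of size at least `t`, largest plus smallest residue at least `t`. -/
def StL3d : Prop := ∀ t a b c : ℕ, 2 ≤ t → t ≤ a → t ≤ b → t ≤ c → b % t ≤ a % t →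
  a % t ≤ c % t → t ≤ b % t + c % t → t ∣ a * b + b * c + c * a → Good t ![a, b, c]

lemma good_of_sorted {t : ℕ} (f : ℕ → ℕ) (Q : ℕ → ℕ → ℕ → Prop) {m n s : ℕ}
    (g : ∀ a b c, f b ≤ f a → f c ≤ f b → a * b + b * c + c * a = m * n + n * s + s * m →
      Q a b c → Good t ![a, b, c]) (h : Q m n s) (h01 : ∀ a b c, Q a b c → Q b a c)
    (h12 : ∀ a b c, Q a b c → Q a c b) : Good t ![m, n, s] := by
  rcases le_total (f m) (f n) with h1 | h1 <;> rcases le_total (f n) (f s) with h2 | h2 <;>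
    rcases le_total (f m) (f s) with h3 | h3
  · exact (g s n m h2 h1 (by ring) (h01 _ _ _ (h12 _ _ _ (h01 _ _ _ h)))).swap01.swap12.swap01
  · exact (g s n m h2 h1 (by ring) (h01 _ _ _ (h12 _ _ _ (h01 _ _ _ h)))).swap01.swap12.swap01
  · exact (g n s m h2 h3 (by ring) (h12 _ _ _ (h01 _ _ _ h))).swap12.swap01
  · exact (g n m s h1 h3 (by ring) (h01 _ _ _ h)).swap01
  · exact (g s m n h3 h1 (by ring) (h01 _ _ _ (h12 _ _ _ h))).swap01.swap12
  · exact (g m s n h3 h2 (by ring) (h12 _ _ _ h)).swap12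
  · exact g m n s h1 h2 rfl h
  · exact g m n s h1 h2 rfl h

lemma good_L3 (h3 : StL3s) (h4 : StL3d) {t a b c : ℕ} (ht : 2 ≤ t) (ha : t ≤ a) (hb : t ≤ b)
    (hc : t ≤ c) (hq : t ∣ a * b + b * c + c * a) : Good t ![a, b, c] := by
  refine good_of_sorted (· % t) (fun a b c => t ≤ a ∧ t ≤ b ∧ t ≤ c)
    (fun x y z h1 h2 e h => ?_) ⟨ha, hb, hc⟩ (by tauto) (by tauto)
  have hq' : t ∣ y * z + z * x + x * y := by
    rw [show y * z + z * x + x * y = x * y + y * z + z * x by ring, e]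
    exact hq
  rcases lt_or_ge (z % t + x % t) t with h5 | h5
  · exact (h3 t y z x ht h.2.1 h.2.2 h.1 h2 h1 h5 hq').swap12.swap01
  · exact (h4 t y z x ht h.2.1 h.2.2 h.1 h2 h1 h5 hq').swap12.swap01

lemma good_all (h1 : StR2) (h2 : StL2) (h3 : StL3s) (h4 : StL3d) {t m n s : ℕ} (ht : 2 ≤ t)
    (k1 : n ≤ m) (k2 : s ≤ n) (hs : 1 ≤ s) (hn : 2 ≤ n) (hq : t ∣ m * n + n * s + s * m) :
    Good t ![m, n, s] := by
  by_cases c1 : m + n ≤ t
  · exact good_small (by omega) c1 (by omega) (by omega) hq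
  by_cases c2 : n + s ≤ t
  · exact good_sparse k2 k1 hs hn c2 (by omega) hq
  by_cases c3 : m < t
  · exact good_dense k2 k1 c3 (by omega) hq
  by_cases c4 : n < t
  · exact h1 t m n s (by omega) k2 c4 (by omega) hq
  by_cases c5 : s < t
  · exact h2 t m n s (by omega) (by omega) hs c5 hq
  · exact good_L3 h3 h4 ht (by omega) (by omega) (by omega) hq

theorem full_of (h1 : StR2) (h2 : StL2) (h3 : StL3s) (h4 : StL3d) {t m n s : ℕ} (ht : 2 ≤ t)
    (hm : 1 ≤ m) (hn : 1 ≤ n) (hs : 1 ≤ s) :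
    Divisible (K m n s) t ↔ t ∣ m * n + n * s + s * m ∧
      ((m = 1 ∧ n = 1) ∨ (n = 1 ∧ s = 1) ∨ (s = 1 ∧ m = 1) →
        m * n + n * s + s * m = t ∨ m * n + n * s + s * m = 3 * t) := by
  have key : ∀ m, 1 ≤ m → (Good t ![m, 1, 1] ↔ 2 * m + 1 = t ∨ 2 * m + 1 = 3 * t) :=
    fun m hm => ⟨fun h => (one_one ht hm).1 h.divisible, fun h => ((one_one ht hm).2 h).good⟩
  constructor
  · intro h
    refine ⟨h.good.dvd, ?_⟩
    rintro (⟨rfl, rfl⟩ | ⟨rfl, rfl⟩ | ⟨rfl, rfl⟩)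
    · have := (key s hs).1 h.good.swap12.swap01
      omega
    · have := (key m hm).1 h.good
      omega
    · have := (key n hn).1 h.good.swap01
      omega
  · rintro ⟨hq, h⟩
    refine Good.divisible ?_
    by_cases h' : (m = 1 ∧ n = 1) ∨ (n = 1 ∧ s = 1) ∨ (s = 1 ∧ m = 1)
    · have := h h'
      rcases h' with ⟨rfl, rfl⟩ | ⟨rfl, rfl⟩ | ⟨rfl, rfl⟩
      · exact ((key s hs).2 (by omega)).swap01.swap12
      · exact (key m hm).2 (by omega)
      · exact ((key n hn).2 (by omega)).swap01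
    · refine good_of_sorted id (fun a b c => 1 ≤ a ∧ 1 ≤ b ∧ 1 ≤ c ∧
        ¬((a = 1 ∧ b = 1) ∨ (b = 1 ∧ c = 1) ∨ (c = 1 ∧ a = 1)))
        (fun a b c k1 k2 e k => good_all h1 h2 h3 h4 ht k1 k2 k.2.2.1 ?_ (e ▸ hq))
        ⟨hm, hn, hs, h'⟩ (by tauto) (by tauto)
      simp only [id] at k1 k2
      omega

end Pool.Agent.Lib.MP_351560_co
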