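import Mathlib
import Pool.Agent.Lib.MP_351560_co.LeA
import Pool.Agent.Lib.MP_351560_co.LeB
import Pool.Agent.Lib.MP_351560_co.LeC
import Pool.Agent.Lib.MP_351560_co.LeD

set_option autoImplicit false

namespace Pool.Agent.Lib.MP_351560_co

/-- All small `t` except `t = 3`. -/
theorem good_le_ne3 {t a b c : ℕ} (h2 : 2 ≤ t) (h12 : t ≤ 12) (h3 : t ≠ 3) (ha : t ≤ a)
    (hb : t ≤ b) (hc : 0 < c) (hq : t ∣ a * b + b * c + c * a) : Good t ![a, b, c] := by
  interval_cases t
  · exact good_le_2 ha hb hc hq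
  · exact absurd rfl h3
  · exact good_le_4 ha hb hc hq
  · exact good_le_5 ha hb hc hq
  · exact good_le_6 ha hb hc hq
  · exact good_le_7 ha hb hc hq
  · exact good_le_8 ha hb hc hq
  · exact good_le_9 ha hb hc hq
  · exact good_le_10 ha hb hc hq
  · exact good_le_11 ha hb hc hq
  · exact good_le_12 ha hb hc hq

end Pool.Agent.Lib.MP_351560_co
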