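import Mathlib

set_option autoImplicit false
set_option linter.unusedVariables false

namespace Pool.Agent.Lib.MP_351560_co

open Finset

namespace Orient91

variable {X Y : Type} [Fintype X] [Fintype Y] [DecidableEq X] [DecidableEq Y]

lemma num {i j i' j' a0 b0 s0 r0 : ℕ}
    (hw : (i + i' - 1 - b0 - r0) * (j + j' - 1 - a0 - s0) ≤ max (a0 * b0) (s0 * r0)) :
    i * j ≤ i * a0 + j * b0 ∨ i' * j' ≤ i' * s0 + j' * r0 := by
  by_cases h1 : j ≤ a0
  · exact Or.inl (le_add_right (Nat.mul_le_mul_left _ h1))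
  by_cases h2 : i ≤ b0
  · exact Or.inl (le_add_left (by rw [mul_comm]; exact Nat.mul_le_mul_left _ h2))
  by_cases h3 : j' ≤ s0
  · exact Or.inr (le_add_right (Nat.mul_le_mul_left _ h3))
  by_cases h4 : i' ≤ r0
  · exact Or.inr (le_add_left (by rw [mul_comm]; exact Nat.mul_le_mul_left _ h4))
  obtain ⟨p, rfl⟩ : ∃ p, j = a0 + 1 + p := ⟨j - a0 - 1, by omega⟩
  obtain ⟨q, rfl⟩ : ∃ q, i = b0 + 1 + q := ⟨i - b0 - 1, by omega⟩
  obtain ⟨p', rfl⟩ : ∃ p, j' = s0 + 1 + p := ⟨j' - s0 - 1, by omega⟩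
  obtain ⟨q', rfl⟩ : ∃ q, i' = r0 + 1 + q := ⟨i' - r0 - 1, by omega⟩
  have e1 : b0 + 1 + q + (r0 + 1 + q') - 1 - b0 - r0 = q + q' + 1 := by omega
  have e2 : a0 + 1 + p + (s0 + 1 + p') - 1 - a0 - s0 = p + p' + 1 := by omega
  rw [e1, e2] at hw
  rcases le_max_iff.1 hw with h | h
  · left
    nlinarith [Nat.zero_le (q * p'), Nat.zero_le (q' * p), Nat.zero_le (q' * p')]
  · right
    nlinarith [Nat.zero_le (q * p'), Nat.zero_le (q' * p), Nat.zero_le (q * p)]

lemma cut (ok : X → Y → Prop) [DecidableRel ok] (a : X → ℕ) (b : Y → ℕ)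
    (htot : ∑ x, a x + ∑ y, b y = ∑ x, (univ.filter fun y => ok x y).card) (a0 b0 s0 r0 : ℕ)
    (ha : ∀ x, a0 ≤ a x) (hb : ∀ y, b0 ≤ b y)
    (hs : ∀ x, a x + s0 ≤ (univ.filter fun y => ok x y).card)
    (hr : ∀ y, b y + r0 ≤ (univ.filter fun x => ok x y).card)
    (hw : (Fintype.card X - 1 - b0 - r0) * (Fintype.card Y - 1 - a0 - s0) ≤
      max (a0 * b0) (s0 * r0)) (A : Finset X) (B : Finset Y) :
    ∑ x ∈ A, ∑ y ∈ B, (if ok x y then 1 else 0) ≤ ∑ x ∈ A, a x + ∑ y ∈ B, b y := by
  rw [← card_add_card_compl A, ← card_add_card_compl B] at hw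
  have le1 : ∀ (A : Finset X) (B : Finset Y),
      ∑ x ∈ A, ∑ y ∈ B, (if ok x y then 1 else 0) ≤ A.card * B.card := fun A B => by
    refine (sum_le_card_nsmul A _ B.card fun x _ => ?_).trans_eq (smul_eq_mul _ _)
    refine (sum_le_card_nsmul B _ 1 fun y _ => ?_).trans_eq (by simp)
    split_ifs <;> simp
  rcases num hw with h | h
  · have h1 := card_nsmul_le_sum A a a0 fun x _ => ha x
    have h2 := card_nsmul_le_sum B b b0 fun y _ => hb y
    rw [smul_eq_mul] at h1 h2
    exact (le1 A B).trans (h.trans (add_le_add h1 h2))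
  · have h0 := le1 Aᶜ Bᶜ
    have h1 : ∑ x ∈ Aᶜ, a x + Aᶜ.card * s0 ≤ ∑ x ∈ Aᶜ, ∑ y, (if ok x y then 1 else 0) := by
      rw [← smul_eq_mul, ← sum_const, ← sum_add_distrib]
      exact sum_le_sum fun x _ => (hs x).trans_eq (card_filter _ _)
    have h2 : ∑ y ∈ Bᶜ, b y + Bᶜ.card * r0 ≤ ∑ x, ∑ y ∈ Bᶜ, (if ok x y then 1 else 0) := by
      rw [← smul_eq_mul, ← sum_const, ← sum_add_distrib, sum_comm]
      exact sum_le_sum fun y _ => (hr y).trans_eq (card_filter _ _)
    simp only [card_filter] at htot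
    rw [← sum_add_sum_compl A a, ← sum_add_sum_compl B b, ← sum_add_sum_compl A] at htot
    rw [← sum_add_sum_compl A] at h2
    simp only [← sum_add_sum_compl B, sum_add_distrib] at htot h1
    omega

end Orient91

open Orient91 in
/-- Orientation of an almost complete bipartite graph with prescribed in-degrees. -/
theorem orient91 {X Y : Type} [Fintype X] [Fintype Y] [DecidableEq X] [DecidableEq Y]
    (ok : X → Y → Prop) [DecidableRel ok] (a : X → ℕ) (b : Y → ℕ)
    (htot : ∑ x, a x + ∑ y, b y = ∑ x, (univ.filter fun y => ok x y).card) (a0 b0 s0 r0 : ℕ)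
    (ha : ∀ x, a0 ≤ a x) (hb : ∀ y, b0 ≤ b y)
    (hs : ∀ x, a x + s0 ≤ (univ.filter fun y => ok x y).card)
    (hr : ∀ y, b y + r0 ≤ (univ.filter fun x => ok x y).card)
    (hw : (Fintype.card X - 1 - b0 - r0) * (Fintype.card Y - 1 - a0 - s0) ≤
      max (a0 * b0) (s0 * r0)) :
    ∃ f : X → Y → Bool, (∀ x, (univ.filter fun y => ok x y ∧ f x y = true).card = a x) ∧
      ∀ y, (univ.filter fun x => ok x y ∧ f x y = false).card = b y := by
  classical
  let d : X ⊕ Y → ℕ := Sum.elim a b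
  let t : {e : X × Y // ok e.1 e.2} → Finset ((X ⊕ Y) × ℕ) := fun e =>
    {Sum.inl e.1.1} ×ˢ range (a e.1.1) ∪ {Sum.inr e.1.2} ×ˢ range (b e.1.2)
  have hall : ∀ s : Finset {e : X × Y // ok e.1 e.2}, s.card ≤ (s.biUnion t).card := by
    intro s
    set A := s.image fun e => e.1.1 with hA
    set B := s.image fun e => e.1.2 with hB
    have h1 : s.card ≤ ∑ x ∈ A, ∑ y ∈ B, (if ok x y then 1 else 0) := by
      rw [← sum_product', ← card_filter]
      refine card_le_card_of_injOn Subtype.val (fun e he => ?_) Subtype.val_injective.injOn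
      exact mem_coe.2 (mem_filter.2 ⟨mem_product.2 ⟨mem_image_of_mem _ he,
        mem_image_of_mem _ he⟩, e.2⟩)
    have h2 : s.biUnion t = (A.biUnion fun x => {Sum.inl x} ×ˢ range (a x)) ∪
        B.biUnion fun y => {Sum.inr y} ×ˢ range (b y) := by
      rw [hA, hB, image_biUnion, image_biUnion, ← biUnion_union]
    rw [h2, card_union_of_disjoint, card_biUnion, card_biUnion]
    · simp only [card_product, card_singleton, card_range, one_mul]
      exact h1.trans (cut ok a b htot a0 b0 s0 r0 ha hb hs hr hw A B)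
    · intro x _ y _ h
      exact disjoint_product.2 (Or.inl (by simpa using h))
    · intro x _ y _ h
      exact disjoint_product.2 (Or.inl (by simpa using h))
    · rw [disjoint_biUnion_left]
      intro x _
      rw [disjoint_biUnion_right]
      intro y _
      exact disjoint_product.2 (Or.inl (by simp))
  obtain ⟨g, hg, hg'⟩ := (all_card_le_biUnion_card_iff_exists_injective t).1 hall
  let f : X → Y → Bool := fun x y => if h : ok x y then (g ⟨(x, y), h⟩).1.isLeft else true
  have m1 : ∀ x y (h : ok x y), f x y = true → g ⟨(x, y), h⟩ ∈ {Sum.inl x} ×ˢ range (a x) := by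
    intro x y h hf
    simp only [f, dif_pos h] at hf
    rcases mem_union.1 (hg' ⟨(x, y), h⟩) with k | k
    · exact k
    · rw [mem_singleton.1 (mem_product.1 k).1] at hf
      simp at hf
  have m2 : ∀ x y (h : ok x y), f x y = false → g ⟨(x, y), h⟩ ∈ {Sum.inr y} ×ˢ range (b y) := by
    intro x y h hf
    simp only [f, dif_pos h] at hf
    rcases mem_union.1 (hg' ⟨(x, y), h⟩) with k | k
    · rw [mem_singleton.1 (mem_product.1 k).1] at hf
      simp at hf
    · exact k
  have l1 : ∀ x, (univ.filter fun y => ok x y ∧ f x y = true).card ≤ a x := fun x => by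
    have := card_le_card_of_injOn (s := (univ.filter fun y => ok x y ∧ f x y = true).attach)
      (t := ({Sum.inl x} : Finset (X ⊕ Y)) ×ˢ range (a x))
      (fun y => g ⟨(x, y.1), (mem_filter.1 y.2).2.1⟩)
      (fun y _ => mem_coe.2 (m1 x _ _ (mem_filter.1 y.2).2.2))
      (fun y _ z _ h => Subtype.ext (congrArg (fun e => e.1.2) (hg h)))
    simpa using this
  have l2 : ∀ y, (univ.filter fun x => ok x y ∧ f x y = false).card ≤ b y := fun y => by
    have := card_le_card_of_injOn (s := (univ.filter fun x => ok x y ∧ f x y = false).attach)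
      (t := ({Sum.inr y} : Finset (X ⊕ Y)) ×ˢ range (b y))
      (fun x => g ⟨(x.1, y), (mem_filter.1 x.2).2.1⟩)
      (fun x _ => mem_coe.2 (m2 _ y _ (mem_filter.1 x.2).2.2))
      (fun x _ z _ h => Subtype.ext (congrArg (fun e => e.1.1) (hg h)))
    simpa using this
  have tot : ∑ x, (univ.filter fun y => ok x y ∧ f x y = true).card +
      ∑ y, (univ.filter fun x => ok x y ∧ f x y = false).card = ∑ x, a x + ∑ y, b y := by
    rw [htot]
    simp only [card_filter]
    rw [sum_comm (s := (univ : Finset Y)), ← sum_add_distrib]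
    refine sum_congr rfl fun x _ => ?_
    rw [← sum_add_distrib]
    refine sum_congr rfl fun y _ => ?_
    by_cases h : ok x y <;> cases f x y <;> simp [h]
  have s1 := sum_le_sum fun x (_ : x ∈ (univ : Finset X)) => l1 x
  have s2 := sum_le_sum fun y (_ : y ∈ (univ : Finset Y)) => l2 y
  exact ⟨f, fun x => (sum_eq_sum_iff_of_le fun x _ => l1 x).1 (by omega) x (mem_univ _),
    fun y => (sum_eq_sum_iff_of_le fun y _ => l2 y).1 (by omega) y (mem_univ _)⟩

end Pool.Agent.Lib.MP_351560_co
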