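import Mathlib
import Pool.Agent.Lib.MP_351560_co.AdjOf
import Pool.Agent.Lib.MP_351560_co.Orient91

set_option autoImplicit false

namespace Pool.Agent.Lib.MP_351560_co

/-- ADJ: the core with adjacent hubs. -/
theorem core0_adj {t n u w : ℕ} (h : AdjP t n u w) : Core0 t n (t - n) (n * n % t) :=
  CoreAdj.core0_adj_of (fun ok _ a b => orient91 ok a b) h

end Pool.Agent.Lib.MP_351560_co
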