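import Mathlib
import Pool.Agent.Lib.MP_351560_co.L2Def
import Pool.Agent.Lib.MP_351560_co.CoreCert1
import Pool.Agent.Lib.MP_351560_co.CoreCert2
import Pool.Agent.Lib.MP_351560_co.CoreCert3
import Pool.Agent.Lib.MP_351560_co.CoreCert4

set_option autoImplicit false
set_option maxRecDepth 4096

namespace Pool.Agent.Lib.MP_351560_co

theorem core0_list : ∀ z ∈ CoreList, Core0 z.1 z.2 (z.1 - z.2) (z.2 * z.2 % z.1) := by
  simp only [CoreList, List.forall_mem_cons]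
  exact ⟨cc_13_4, cc_14_4, cc_15_4, cc_16_4, cc_17_4, cc_18_4, cc_19_4, cc_13_5, cc_14_5, 
    cc_15_5, cc_16_5, cc_17_5, cc_18_5, cc_26_5, cc_27_5, cc_13_6, cc_14_6, cc_15_6, cc_16_6, 
    cc_17_6, cc_18_6, cc_19_6, cc_20_6, cc_21_6, cc_22_6, cc_23_6, cc_13_7, cc_14_7, cc_15_7, 
    cc_16_7, cc_17_7, cc_18_7, cc_19_7, cc_20_7, cc_21_7, cc_22_7, cc_23_7, cc_24_7, cc_25_7, 
    cc_26_7, cc_27_7, cc_28_7, cc_29_7, cc_30_7, cc_31_7, cc_13_8, cc_14_8, cc_15_8, cc_16_8, 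
    cc_17_8, cc_18_8, cc_19_8, cc_21_8, cc_22_8, cc_23_8, cc_24_8, cc_25_8, cc_26_8, cc_27_8, 
    cc_28_8, cc_29_8, cc_30_8, cc_33_8, cc_34_8, cc_35_8, cc_36_8, cc_37_8, cc_38_8, cc_39_8, 
    cc_13_9, cc_14_9, cc_15_9, cc_16_9, cc_17_9, cc_18_9, cc_19_9, cc_20_9, cc_21_9, cc_22_9, 
    cc_23_9, cc_24_9, cc_25_9, cc_26_9, cc_28_9, cc_29_9, cc_30_9, cc_31_9, cc_32_9, cc_33_9, 
    cc_34_9, cc_41_9, cc_42_9, cc_43_9, cc_44_9, cc_46_9, cc_47_9, cc_48_9, cc_49_9, cc_13_10, 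
    cc_14_10, cc_15_10, cc_16_10, cc_17_10, cc_18_10, cc_19_10, cc_20_10, cc_21_10, cc_22_10, 
    cc_23_10, cc_24_10, cc_26_10, cc_27_10, cc_28_10, cc_29_10, cc_34_10, cc_35_10, cc_36_10, 
    cc_37_10, cc_38_10, cc_39_10, cc_13_11, cc_14_11, cc_15_11, cc_16_11, cc_17_11, cc_18_11, 
    cc_19_11, cc_20_11, cc_21_11, cc_23_11, cc_24_11, cc_25_11, cc_26_11, cc_27_11, cc_28_11, 
    cc_31_11, cc_32_11, cc_34_11, cc_35_11, cc_43_11, cc_45_11, cc_46_11, cc_47_11, cc_13_12, 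
    cc_14_12, cc_15_12, cc_16_12, cc_17_12, cc_19_12, cc_20_12, cc_21_12, cc_22_12, cc_23_12, 
    cc_25_12, cc_26_12, cc_27_12, cc_29_12, cc_30_12, cc_31_12, cc_32_12, cc_33_12, cc_37_12, 
    cc_38_12, cc_39_12, cc_40_12, cc_41_12, cc_49_12, cc_50_12, cc_51_12, cc_53_12, cc_54_12, 
    cc_55_12, cc_14_13, cc_15_13, cc_16_13, cc_17_13, cc_18_13, cc_20_13, cc_21_13, cc_22_13, 
    cc_23_13, cc_24_13, cc_27_13, cc_29_13, cc_30_13, cc_31_13, cc_32_13, cc_34_13, cc_35_13, 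
    cc_36_13, cc_43_13, cc_44_13, cc_45_13, cc_46_13, cc_47_13, cc_48_13, cc_15_14, cc_17_14, 
    cc_29_14, cc_31_14, cc_33_14, cc_34_14, cc_50_14, cc_51_14, cc_52_14, cc_31_15, fun _ h => absurd h List.not_mem_nil⟩

end Pool.Agent.Lib.MP_351560_co
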