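import Mathlib
import Pool.Agent.Lib.MP_351560_co.CoreMk

set_option autoImplicit false
set_option linter.unusedSimpArgs false
set_option linter.unusedVariables false

namespace Pool.Agent.Lib.MP_351560_co

open Finset Sum

namespace Ch2

lemma card3 {A B C : Type} [Fintype A] [Fintype B] [Fintype C] (q : A ⊕ B ⊕ C → Prop)
    [DecidablePred q] (qa : A → Prop) [DecidablePred qa] (qb : B → Prop) [DecidablePred qb]
    (qc : C → Prop) [DecidablePred qc] (ha : ∀ a, q (inl a) ↔ qa a)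
    (hb : ∀ b, q (inr (inl b)) ↔ qb b) (hc : ∀ c, q (inr (inr c)) ↔ qc c) :
    (univ.filter q).card =
      (univ.filter qa).card + (univ.filter qb).card + (univ.filter qc).card := by
  simp only [card_filter, Fintype.sum_sum_type, ha, hb, hc, add_assoc]

variable {Z R : Type}

/-- The part of a vertex. -/
def part : Z ⊕ Z ⊕ Z ⊕ R → Fin 3
  | inl _ => 0
  | inr (inl _) => 1
  | inr (inr _) => 2

/-- The second hub. -/
def hubB (σ : Equiv.Perm (Z ⊕ R)) : Z ⊕ Z ⊕ R → Z ⊕ Z ⊕ Z ⊕ R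
  | inl l => inr (inr (σ (inl l)))
  | inr (inl k) => inl k
  | inr (inr j) => inr (inr (σ (inr j)))

/-- The leaves of the first hub. -/
def la (σ : Equiv.Perm (Z ⊕ R)) (MA MB : Z ⊕ R → Z → Prop) (sA : Z → Z → Prop) :
    Z ⊕ Z ⊕ R → Z ⊕ Z ⊕ Z ⊕ R → Prop
  | inl l, inl k => sA k l
  | inl _, inr (inl _) => False
  | inl l, inr (inr v) => MB (σ.symm v) l ∧ σ.symm v ≠ inl l
  | inr v, inl k => ¬ MA v k
  | inr _, inr _ => False

/-- The leaves of the second hub. -/
def lb (MA MB : Z ⊕ R → Z → Prop) (sB : Z → Z → Prop) : Z ⊕ Z ⊕ R → Z ⊕ Z ⊕ Z ⊕ R → Prop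
  | _, inl _ => False
  | inl l, inr (inl k) => ¬ MB (inl l) k
  | inr (inl k), inr (inl l) => sB k l
  | inr (inr j), inr (inl k) => ¬ MB (inr j) k
  | inl _, inr (inr _) => False
  | inr (inl k), inr (inr v) => MA v k ∧ v ≠ inl k
  | inr (inr _), inr (inr _) => False

/-- The number of chain bridges at a time. -/
def chain : Z ⊕ Z ⊕ R → ℕ
  | inl _ => 1
  | inr (inl _) => 1
  | inr (inr _) => 0

/-- The core of the two step chain from the missed vertices and the status of the cells. -/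
lemma assemble [Fintype Z] [DecidableEq Z] [Fintype R] [DecidableEq R] {n r dA dB κ : ℕ}
    (hZ : Fintype.card Z = n) (hR : Fintype.card R = r) (nx : Equiv.Perm Z) (hnx : ∀ k, nx k ≠ k)
    (σ : Equiv.Perm (Z ⊕ R)) (hσ : ∀ x, σ x ≠ x) (MA MB : Z ⊕ R → Z → Prop) [DecidableRel MA]
    [DecidableRel MB] (sA sB : Z → Z → Prop) [DecidableRel sA] [DecidableRel sB]
    (has : Z ⊕ Z ⊕ R → Prop) [DecidablePred has] (ca cb : Z ⊕ Z ⊕ R → Z) (S : Finset (Z ⊕ Z ⊕ R))
    (A1 : ∀ x, (univ.filter fun y => ¬ MA x y).card = dA)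
    (A2 : ∀ k, MA (inl k) k ∧ MA (inl k) (nx k) ∧ ¬ MA (inl (nx k)) k)
    (A3 : ∀ x, has (inr x) → ¬ MA x (ca (inr x)))
    (A4 : ∀ y, (univ.filter fun x => MA x y ∧ x ≠ inl y).card +
      (univ.filter fun l => sB y l).card = dB)
    (B1 : ∀ x, (univ.filter fun y => ¬ MB x y).card = dB)
    (B2 : ∀ k, MB (inl k) k ∧ MB (inl k) (nx k) ∧ ¬ MB (inl (nx k)) k)
    (B3 : ∀ l, has (inl l) → ¬ MB (inl l) (cb (inl l)))
    (B3' : ∀ j, has (inr (inr j)) → ¬ MB (inr j) (cb (inr (inr j))))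
    (B4 : ∀ y, (univ.filter fun x => MB x y ∧ x ≠ inl y).card +
      (univ.filter fun k => sA k y).card = dA)
    (hP : ∀ l, has (inl l) → sA (ca (inl l)) l ∧ nx (cb (inl l)) ≠ l)
    (hQ : ∀ k, has (inr (inl k)) → sB k (cb (inr (inl k))) ∧ nx (ca (inr (inl k))) ≠ k)
    (hc : ∀ k l, sA k l ∨ sB k l ∨ ∃ i, has i ∧ ca i = k ∧ cb i = l)
    (hκ : ∀ i, chain i + (if has i then 1 else 0) + (if i ∈ S then 1 else 0) = κ)
    (hcount : (2 * n + r) * (dA + dB + κ) = n * n + 2 * (n * (n + r)) + S.card) :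
    Core (Z ⊕ Z ⊕ R) n (n + r) false 1 S := by
  classical
  refine Core.mk_sets (J := Z ⊕ Z ⊕ {i // has i}) false 1 S part ?_ false inr (hubB σ)
    (fun i => univ.filter (la σ MA MB sA i)) (fun i => univ.filter (lb MA MB sB i)) dA dB κ
    (Sum.elim (fun l => inl (nx l)) (Sum.elim (fun k => inr (inl (nx k))) fun i => i.1))
    (Sum.elim (fun l => inr (inr (σ (inl l)))) (Sum.elim (fun k => inl k) fun i => inl (ca i.1)))
    (Sum.elim (fun l => inr (inl l))
      (Sum.elim (fun k => inr (inr (inl k))) fun i => inr (inl (cb i.1))))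
    inr_injective ?_ ?_ ?_ ?_ (by simp) ?_ ?_ ?_ ?_ ?_ (by simp) ?_ ?_ (by simp) ?_ ?_ ?_ ?_ ?_
  · intro P
    rw [card3 _ (fun _ => 0 = P) (fun _ => 1 = P) (fun _ => 2 = P) (fun _ => Iff.rfl)
      (fun _ => Iff.rfl) (fun _ => Iff.rfl)]
    fin_cases P <;> simp [hZ, hR]
  · rintro (l | k | j) (l' | k' | j') h <;> simp_all [hubB]
  · rintro (k | l | v) <;> simp [part]
  · rintro (k | l | v)
    · exact ⟨fun _ => ⟨inr (inl k), rfl⟩, fun _ => by simp [part]⟩
    · refine ⟨fun h => absurd rfl h, ?_⟩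
      rintro ⟨l' | k' | j', h⟩ <;> simp [hubB] at h
    · refine ⟨fun _ => ?_, fun _ => by simp [part]⟩
      obtain ⟨l | j, rfl⟩ := σ.surjective v
      · exact ⟨inl l, rfl⟩
      · exact ⟨inr (inr j), rfl⟩
  · rintro (l | k | j)
    · simp [hubB]
    · simp [hubB]
    · simpa [hubB] using (hσ (inr j)).symm
  · rintro (l | v)
    · rw [card3 _ (fun k => sA k l) (fun _ => False)
        (fun v => MB (σ.symm v) l ∧ σ.symm v ≠ inl l) (fun _ => Iff.rfl) (fun _ => Iff.rfl)
        (fun _ => Iff.rfl), ← B4 l, filter_false, card_empty, add_zero, add_comm]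
      congr 1
      exact card_equiv σ.symm (by simp)
    · rw [card3 _ (fun k => ¬ MA v k) (fun _ => False) (fun _ => False) (fun _ => Iff.rfl)
        (fun _ => Iff.rfl) (fun _ => Iff.rfl), A1 v]
      simp
  · rintro (l | k | j)
    · rw [card3 _ (fun _ => False) (fun k => ¬ MB (inl l) k) (fun _ => False) (fun _ => Iff.rfl)
        (fun _ => Iff.rfl) (fun _ => Iff.rfl), B1]
      simp
    · rw [card3 _ (fun _ => False) (fun l => sB k l) (fun v => MA v k ∧ v ≠ inl k)
        (fun _ => Iff.rfl) (fun _ => Iff.rfl) (fun _ => Iff.rfl), ← A4 k, filter_false, card_empty,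
        zero_add, add_comm]
    · rw [card3 _ (fun _ => False) (fun k => ¬ MB (inr j) k) (fun _ => False) (fun _ => Iff.rfl)
        (fun _ => Iff.rfl) (fun _ => Iff.rfl), B1]
      simp
  · intro i
    refine disjoint_filter.2 ?_
    rcases i with l | k | j <;> rintro (k | l | v) - h1 h2 <;> first | exact h1 | exact h2
  · intro i v hv
    have h := (mem_filter.1 hv).2
    rcases i with l | k | j <;> rcases v with k' | l' | v' <;> try exact False.elim h
    · simp [part, hubB]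
    · refine ⟨by simp [part], fun e => h.2 ?_⟩
      rw [inr_injective (inr_injective e), Equiv.symm_apply_apply]
    · refine ⟨by simp [part, hubB], fun e => h ?_⟩
      rw [inl_injective e]
      exact (A2 k).1
    · simp [part, hubB]
  · intro i v hv
    have h := (mem_filter.1 hv).2
    rcases i with l | k | j <;> rcases v with k' | l' | v' <;> try exact False.elim h
    · refine ⟨by simp [part, hubB], fun e => h ?_⟩
      rw [inl_injective (inr_injective e)]
      exact (B2 l).1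
    · simp [part, hubB]
    · exact ⟨by simp [part, hubB], fun e => h.2 (inr_injective (inr_injective e))⟩
    · simp [part, hubB]
  · rintro (l | k | ⟨l | v, h⟩) <;> refine mem_filter.2 ⟨mem_univ _, ?_⟩
    · simpa [la] using ⟨(B2 l).2.1, (hnx l).symm⟩
    · exact (A2 k).2.2
    · exact (hP l h).1
    · exact A3 v h
  · rintro - (l | k | ⟨l | k | j, h⟩) <;> refine mem_filter.2 ⟨mem_univ _, ?_⟩
    · exact (B2 l).2.2
    · exact ⟨(A2 k).2.1, fun e => (hnx k).symm (inl_injective e)⟩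
    · exact B3 l h
    · exact (hQ k h).1
    · exact B3' j h
  · rintro (l | k | ⟨i, h⟩) (l' | k' | ⟨i', h'⟩) h1 h2 <;>
      simp only [elim_inl, elim_inr, inl.injEq, inr.injEq, reduceCtorEq, false_or, or_false,
        Subtype.mk.injEq, EmbeddingLike.apply_eq_iff_eq] at h1 h2 ⊢
    · exact h1
    · subst h1
      exact (hP _ h').2 (by rw [← h2])
    · exact h1
    · subst h1
      exact (hQ _ h').2 (by rw [← h2])
    · subst h1
      exact (hP _ h).2 (by rw [h2])
    · subst h1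
      exact (hQ _ h).2 (by rw [h2])
    · exact h1
  · intro i
    rw [← hκ i, card3 _ (fun l => inl (nx l) = i) (fun k => inr (inl (nx k)) = i)
      (fun a : {i // has i} => a.1 = i) (fun _ => Iff.rfl) (fun _ => Iff.rfl) (fun _ => Iff.rfl)]
    have b1 : ∀ l, (univ.filter fun k => nx k = l).card = 1 := fun l =>
      card_eq_one.2 ⟨nx.symm l, by ext k; simp [Equiv.eq_symm_apply]⟩
    congr 2
    · rcases i with l | k | j <;> simp [chain, b1]
    · split_ifs with h
      · exact card_eq_one.2 ⟨⟨i, h⟩, by ext a; simp [Subtype.ext_iff]⟩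
      · exact card_eq_zero.2 (filter_eq_empty_iff.2 fun a _ e => h (e ▸ a.2))
  · rintro (l | k | i) <;> simp [part]
  · simp only [Fintype.card_sum, hZ, hR, Bool.false_eq_true, if_false, add_zero]
    rw [← hcount]
    ring
  · have m1 : ∀ i v, la σ MA MB sA i v → v ∈ univ.filter (la σ MA MB sA i) := fun i v h =>
      mem_filter.2 ⟨mem_univ _, h⟩
    have m2 : ∀ i v, lb MA MB sB i v → v ∈ univ.filter (lb MA MB sB i) := fun i v h =>
      mem_filter.2 ⟨mem_univ _, h⟩
    rintro (k | l | v) (k' | l' | v') h <;> try (simp [part] at h; done)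
    · rcases hc k l' with g | g | ⟨i, g, rfl, rfl⟩
      · exact Or.inl ⟨inl l', Or.inr (Or.inl ⟨rfl, m1 _ _ g⟩)⟩
      · exact Or.inl ⟨inr (inl k), Or.inr (Or.inr (Or.inl ⟨rfl, m2 _ _ g⟩))⟩
      · exact Or.inr ⟨inr (inr ⟨i, g⟩), Or.inl ⟨rfl, rfl⟩⟩
    · by_cases h1 : MA v' k
      · by_cases h2 : v' = inl k
        · exact Or.inr ⟨inr (inl k), Or.inl ⟨rfl, by rw [h2]; rfl⟩⟩
        · exact Or.inl ⟨inr (inl k), Or.inr (Or.inr (Or.inl ⟨rfl, m2 _ _ ⟨h1, h2⟩⟩))⟩
      · exact Or.inl ⟨inr v', Or.inr (Or.inl ⟨rfl, m1 _ _ h1⟩)⟩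
    · obtain ⟨v, rfl⟩ := σ.surjective v'
      by_cases h1 : MB v l
      · by_cases h2 : v = inl l
        · exact Or.inr ⟨inl l, Or.inr ⟨by rw [h2]; rfl, rfl⟩⟩
        · refine Or.inl ⟨inl l, Or.inl ⟨rfl, m1 _ _ ?_⟩⟩
          simpa [la] using ⟨h1, h2⟩
      · rcases v with l' | j
        · exact Or.inl ⟨inl l', Or.inr (Or.inr (Or.inr (Or.inl ⟨rfl, m2 _ _ h1⟩)))⟩
        · exact Or.inl ⟨inr (inr j), Or.inr (Or.inr (Or.inr (Or.inl ⟨rfl, m2 _ _ h1⟩)))⟩

end Ch2

end Pool.Agent.Lib.MP_351560_co
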