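import Mathlib
import Pool.Agent.Lib.MP_351560_co.L2Def

set_option autoImplicit false
set_option linter.unusedSimpArgs false
set_option linter.unusedVariables false

namespace Pool.Agent.Lib.MP_351560_co

open Finset

namespace Ch2

variable {n : ℕ} [NeZero n]

lemma cast_ne {j : ℕ} (h0 : 0 < j) (h1 : j < n) : (j : ZMod n) ≠ 0 := fun h =>
  absurd (Nat.le_of_dvd h0 ((ZMod.natCast_eq_zero_iff j n).1 h)) (by omega)

/-- counting residues through their values -/
lemma card_val (o : ZMod n ≃ ZMod n) (q : ℕ → Prop) [DecidablePred q] :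
    (univ.filter fun y => q (o y).val).card = ((range n).filter q).card := by
  refine card_bij (fun y _ => (o y).val) (fun y hy => ?_) (fun y _ z _ h => ?_) fun i hi => ?_
  · exact mem_filter.2 ⟨mem_range.2 (ZMod.val_lt _), (mem_filter.1 hy).2⟩
  · exact o.injective (ZMod.val_injective n h)
  · have h1 : (o (o.symm (i : ZMod n))).val = i := by
      rw [Equiv.apply_symm_apply, ZMod.val_cast_of_lt (mem_range.1 (mem_filter.1 hi).1)]
    exact ⟨o.symm i, mem_filter.2 ⟨mem_univ _, by rw [h1]; exact (mem_filter.1 hi).2⟩, h1⟩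

lemma card_tail (o : ZMod n ≃ ZMod n) (a b : ℕ) :
    (univ.filter fun y => a ≤ (o y).val + b).card = n - (a - b) := by
  rw [card_val o fun i => a ≤ i + b, ← Nat.card_Ico]
  congr 1
  ext i
  simp only [mem_filter, mem_range, mem_Ico]
  omega

/-- The number of a cell. -/
def idx (k l : ZMod n) : ℕ := (l - k).val * n + k.val

/-- The cell with a given number. -/
def cell (n m : ℕ) : ZMod n × ZMod n := ((m : ZMod n), (m : ZMod n) + ((m / n : ℕ) : ZMod n))

lemma idx_lt (k l : ZMod n) : idx k l < n * n := by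
  have h1 := ZMod.val_lt (l - k)
  have h2 := ZMod.val_lt k
  have h3 := Nat.mul_le_mul_right n (Nat.succ_le_of_lt h1)
  rw [Nat.succ_mul] at h3
  unfold idx
  omega

lemma idx_cell {m : ℕ} (h : m < n * n) : idx (cell n m).1 (cell n m).2 = m := by
  have h1 : m / n < n := Nat.div_lt_of_lt_mul h
  simp only [idx, cell, add_sub_cancel_left, ZMod.val_natCast, Nat.mod_eq_of_lt h1]
  exact Nat.div_add_mod' m n

lemma cell_idx (k l : ZMod n) : cell n (idx k l) = (k, l) := by
  have h0 : 0 < n := Nat.pos_of_ne_zero (NeZero.ne n)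
  have h1 : idx k l / n = (l - k).val := by
    rw [idx, add_comm, Nat.add_mul_div_right _ _ h0, Nat.div_eq_of_lt (ZMod.val_lt k), zero_add]
  have h2 : ((idx k l : ℕ) : ZMod n) = k := by simp [idx]
  simp only [cell, h1, h2, ZMod.natCast_zmod_val, add_sub_cancel]

lemma card_cells {a b : ℕ} (hb : b ≤ n * n) :
    (univ.filter fun e : ZMod n × ZMod n => a ≤ idx e.1 e.2 ∧ idx e.1 e.2 < b).card = b - a := by
  rw [← Nat.card_Ico]
  refine card_bij (fun e _ => idx e.1 e.2) (fun e he => mem_Ico.2 (mem_filter.1 he).2)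
    (fun e _ e' _ h => ?_) fun i hi => ?_
  · have := congrArg (cell n) h
    rwa [cell_idx, cell_idx] at this
  · have h1 : i < n * n := lt_of_lt_of_le (mem_Ico.1 hi).2 hb
    exact ⟨cell n i, mem_filter.2 ⟨mem_univ _, by rw [idx_cell h1]; exact mem_Ico.1 hi⟩,
      idx_cell h1⟩

lemma sum_rows {a b : ℕ} (hb : b ≤ n * n) :
    ∑ k : ZMod n, (univ.filter fun l => a ≤ idx k l ∧ idx k l < b).card = b - a := by
  rw [← card_cells (n := n) hb]
  simp only [card_filter, Fintype.sum_prod_type]

lemma sum_cols {a b : ℕ} (hb : b ≤ n * n) :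
    ∑ l : ZMod n, (univ.filter fun k => a ≤ idx k l ∧ idx k l < b).card = b - a := by
  rw [← sum_rows (n := n) hb]
  simp only [card_filter]
  exact sum_comm

lemma row_card {a L : ℕ} (hb : a + L ≤ n * n) (k : ZMod n) :
    L / n ≤ (univ.filter fun l => a ≤ idx k l ∧ idx k l < a + L).card ∧
      (univ.filter fun l => a ≤ idx k l ∧ idx k l < a + L).card ≤ cdiv L n := by
  have h0 : 0 < n := Nat.pos_of_ne_zero (NeZero.ne n)
  have h2 := ZMod.val_lt k
  have h1 : ∀ x i, i * n + k.val < x ↔ i < (x + (n - 1 - k.val)) / n := fun x i => by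
    rw [Nat.lt_iff_add_one_le (m := i), Nat.le_div_iff_mul_le h0, add_mul]
    omega
  have h3 : (univ.filter fun l => a ≤ idx k l ∧ idx k l < a + L).card
      = (a + L + (n - 1 - k.val)) / n - (a + (n - 1 - k.val)) / n := by
    rw [← Nat.card_Ico]
    refine (card_val (Equiv.subRight k) fun i => a ≤ i * n + k.val ∧ i * n + k.val < a + L).trans ?_
    congr 1
    ext i
    rw [mem_filter, mem_range, mem_Ico, ← h1, ← not_lt (a := i), ← h1, not_lt]
    refine ⟨fun h => h.2, fun h => ⟨?_, h⟩⟩
    exact Nat.lt_of_mul_lt_mul_right (a := n) (by omega)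
  rw [h3, add_right_comm a L]
  generalize a + (n - 1 - k.val) = x
  have h4 := Nat.div_add_div_le_add_div (x := x) (y := L) (z := n)
  have h5 : (x + L) / n ≤ x / n + cdiv L n := by
    have h6 := Nat.div_add_mod' x n
    have h7 := Nat.mod_lt x h0
    rw [cdiv, add_comm (x / n), ← Nat.add_mul_div_right _ _ h0]
    exact Nat.div_le_div_right (by omega)
  omega

lemma col_card {a b : ℕ} (hb : b ≤ n * n) (l : ZMod n) :
    b / n - cdiv a n ≤ (univ.filter fun k => a ≤ idx k l ∧ idx k l < b).card ∧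
      (univ.filter fun k => a ≤ idx k l ∧ idx k l < b).card ≤ cdiv b n - a / n := by
  have h0 : 0 < n := Nat.pos_of_ne_zero (NeZero.ne n)
  have h1 : ∀ x i, i * n < x ↔ i < cdiv x n := fun x i => by
    rw [Nat.lt_iff_add_one_le (m := i), cdiv, Nat.le_div_iff_mul_le h0, add_mul]
    omega
  have h2 : ∀ x i, i * n + n ≤ x ↔ i < x / n := fun x i => by
    rw [Nat.lt_iff_add_one_le (m := i), Nat.le_div_iff_mul_le h0, add_mul, one_mul]
  constructor
  · rw [← Nat.card_Ico]
    have h3 : b / n ≤ n := Nat.div_le_of_le_mul hb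
    have h4 : Ico (cdiv a n) (b / n) = (range n).filter fun i => cdiv a n ≤ i ∧ i < b / n := by
      ext i
      simp only [mem_filter, mem_range, mem_Ico]
      omega
    rw [h4, ← card_val (Equiv.subLeft l)]
    refine card_le_card fun k hk => mem_filter.2 ⟨mem_univ _, ?_⟩
    have h5 := (mem_filter.1 hk).2
    have h6 := ZMod.val_lt k
    rw [Equiv.subLeft_apply, ← h2, ← not_lt, ← h1] at h5
    unfold idx
    omega
  · rw [← Nat.card_Ico]
    refine le_trans (b := ((range n).filter fun i => a / n ≤ i ∧ i < cdiv b n).card) ?_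
      (card_le_card fun i hi => mem_Ico.2 (mem_filter.1 hi).2)
    rw [← card_val (Equiv.subLeft l)]
    refine card_le_card fun k hk => mem_filter.2 ⟨mem_univ _, ?_⟩
    have h5 := (mem_filter.1 hk).2
    have h6 := ZMod.val_lt k
    rw [Equiv.subLeft_apply, ← h1, ← not_lt, ← h2]
    unfold idx at h5
    omega

/-- at most `cdiv R n` of the first `R` cells lie in a line -/
lemma line_card {r : ℕ} (R : ℕ) (q : Fin r → Prop) [DecidablePred q] (h1 : ∀ j, q j → j.1 < R)
    (h2 : ∀ i j, q i → q j → i.1 / n = j.1 / n → ((i.1 : ℕ) : ZMod n) = (j.1 : ℕ)) :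
    (univ.filter q).card ≤ cdiv R n := by
  have h0 : 0 < n := Nat.pos_of_ne_zero (NeZero.ne n)
  rw [← card_range (cdiv R n)]
  refine card_le_card_of_injOn (fun j => j.1 / n) (fun j hj => ?_) fun i hi j hj h => ?_
  · have h3 := h1 j (mem_filter.1 hj).2
    have h4 := Nat.div_mul_le_self j.1 n
    refine mem_coe.2 (mem_range.2 ?_)
    beta_reduce
    rw [Nat.lt_iff_add_one_le, cdiv, Nat.le_div_iff_mul_le h0, add_mul]
    omega
  · have h3 := (ZMod.natCast_eq_natCast_iff' _ _ _).1
      (h2 i j (mem_filter.1 hi).2 (mem_filter.1 hj).2 h)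
    have h4 := Nat.div_add_mod i.1 n
    have h5 := Nat.div_add_mod j.1 n
    have h6 : i.1 / n = j.1 / n := h
    rw [h3, h6] at h4
    exact Fin.ext (h4.symm.trans h5)

end Ch2

end Pool.Agent.Lib.MP_351560_co
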