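import Mathlib
import Pool.Agent.Lib.MP_351560_co.Base

set_option autoImplicit false
set_option linter.unusedSimpArgs false
set_option linter.unusedVariables false

namespace Pool.Agent.Lib.MP_351560_co

open Finset

lemma orient_num {i j i' j' a0 b0 s0 r0 : ℕ}
    (hw : (i + i' - 1 - b0 - r0) * (j + j' - 1 - a0 - s0) ≤ max (a0 * b0) (s0 * r0)) :
    i * j ≤ i * a0 + j * b0 ∨ i' * j' ≤ i' * s0 + j' * r0 := by
  have key : ∀ i j a b W : ℕ, (i ≤ b ∨ j ≤ a ∨ (i - b) * (j - a) ≤ a * b) → i * j ≤ i * a + j * b := by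
    rintro i j a b - h
    by_cases h1 : i ≤ b
    · nlinarith [Nat.mul_le_mul_left j h1]
    by_cases h2 : j ≤ a
    · nlinarith [Nat.mul_le_mul_left i h2]
    obtain ⟨u, rfl⟩ := Nat.exists_eq_add_of_le (not_le.1 h1).le
    obtain ⟨v, rfl⟩ := Nat.exists_eq_add_of_le (not_le.1 h2).le
    have := (h.resolve_left h1).resolve_left h2
    rw [Nat.add_sub_cancel_left, Nat.add_sub_cancel_left] at this
    nlinarith
  by_cases h : i ≤ b0 ∨ j ≤ a0
  · exact .inl (key i j a0 b0 0 (by tauto))
  by_cases h' : i' ≤ r0 ∨ j' ≤ s0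
  · exact .inr (key i' j' s0 r0 0 (by tauto))
  rcases le_max_iff.1 hw with hw | hw
  · exact .inl (key i j a0 b0 0 (.inr (.inr ((Nat.mul_le_mul (by omega) (by omega)).trans hw))))
  · exact .inr (key i' j' s0 r0 0 (.inr (.inr ((Nat.mul_le_mul (by omega) (by omega)).trans hw))))

/-- HALLW: orientation of an almost complete bipartite graph with prescribed in-degrees. -/
theorem orient {X Y : Type} [Fintype X] [Fintype Y] [DecidableEq X] [DecidableEq Y]
    (ok : X → Y → Prop) [DecidableRel ok] (a : X → ℕ) (b : Y → ℕ)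
    (htot : ∑ x, a x + ∑ y, b y = ∑ x, (univ.filter fun y => ok x y).card) (a0 b0 s0 r0 : ℕ)
    (ha : ∀ x, a0 ≤ a x) (hb : ∀ y, b0 ≤ b y)
    (hs : ∀ x, a x + s0 ≤ (univ.filter fun y => ok x y).card)
    (hr : ∀ y, b y + r0 ≤ (univ.filter fun x => ok x y).card)
    (hw : (Fintype.card X - 1 - b0 - r0) * (Fintype.card Y - 1 - a0 - s0) ≤
      max (a0 * b0) (s0 * r0)) :
    ∃ f : X → Y → Bool, (∀ x, (univ.filter fun y => ok x y ∧ f x y = true).card = a x) ∧
      ∀ y, (univ.filter fun x => ok x y ∧ f x y = false).card = b y := by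
  classical
  let o : X → Y → ℕ := fun x y => if ok x y then 1 else 0
  have hall : ∀ (U : Finset X) (V : Finset Y),
      ∑ x ∈ U, ∑ y ∈ V, o x y ≤ ∑ x ∈ U, a x + ∑ y ∈ V, b y := by
    intro U V
    have le1 : ∀ (U : Finset X) (V : Finset Y), ∑ x ∈ U, ∑ y ∈ V, o x y ≤ U.card * V.card :=
      fun U V => (sum_le_card_nsmul _ _ V.card fun x _ => (sum_le_card_nsmul V _ 1 fun y _ => by
        simp only [o]; split_ifs <;> omega).trans (by simp)).trans (by simp)
    rw [← card_add_card_compl U, ← card_add_card_compl V] at hw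
    rcases orient_num hw with h | h
    · have h1 : U.card * a0 ≤ ∑ x ∈ U, a x := card_nsmul_le_sum U a a0 fun x _ => ha x
      have h2 : V.card * b0 ≤ ∑ y ∈ V, b y := card_nsmul_le_sum V b b0 fun x _ => hb x
      have := le1 U V
      omega
    · have h1 : ∑ x ∈ Uᶜ, (a x + s0) ≤ ∑ x ∈ Uᶜ, (∑ y ∈ V, o x y + ∑ y ∈ Vᶜ, o x y) :=
        sum_le_sum fun x _ => by rw [sum_add_sum_compl, ← card_filter]; exact hs x
      have h2 : ∑ y ∈ Vᶜ, (b y + r0) ≤ ∑ y ∈ Vᶜ, (∑ x ∈ U, o x y + ∑ x ∈ Uᶜ, o x y) :=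
        sum_le_sum fun y _ => by rw [sum_add_sum_compl, ← card_filter]; exact hr y
      have h3 : ∑ x, (univ.filter fun y => ok x y).card =
          ∑ x, (∑ y ∈ V, o x y + ∑ y ∈ Vᶜ, o x y) :=
        sum_congr rfl fun x _ => by rw [sum_add_sum_compl, ← card_filter]
      have h4 := le1 Uᶜ Vᶜ
      rw [h3, ← sum_add_sum_compl U, ← sum_add_sum_compl V, ← sum_add_sum_compl U] at htot
      simp only [sum_add_distrib, sum_const, smul_eq_mul] at h1 h2 htot
      rw [sum_comm (s := Vᶜ), sum_comm (s := Vᶜ)] at h2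
      omega
  let E := {z : X × Y // ok z.1 z.2}
  let R : E → (Σ x, Fin (a x)) ⊕ (Σ y, Fin (b y)) → Prop := fun e s =>
    Sum.elim (fun s => s.1 = e.1.1) (fun s => s.1 = e.1.2) s
  obtain ⟨f, f1, f2⟩ := (Fintype.all_card_le_filter_rel_iff_exists_injective R).1 fun A => by
    let U := A.image fun e => e.1.1
    let V := A.image fun e => e.1.2
    have e1 : (univ.filter fun s => ∃ e ∈ A, R e s).card = ∑ x ∈ U, a x + ∑ y ∈ V, b y := by
      rw [show (univ.filter fun s => ∃ e ∈ A, R e s) =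
          (U.sigma fun _ => univ).disjSum (V.sigma fun _ => univ) by
        ext (s | s) <;> simp [U, V, R, eq_comm], card_disjSum, card_sigma, card_sigma]
      simp
    have e2 : A.card ≤ ∑ x ∈ U, ∑ y ∈ V, o x y := by
      rw [← sum_product', ← card_filter, ← card_map (Function.Embedding.subtype _)]
      refine card_le_card fun z hz => ?_
      obtain ⟨e, he, rfl⟩ := mem_map.1 hz
      exact mem_filter.2 ⟨mem_product.2 ⟨mem_image_of_mem _ he, mem_image_of_mem _ he⟩, e.2⟩
    exact e2.trans ((hall U V).trans e1.ge)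
  have hb : Function.Bijective f := (Fintype.bijective_iff_injective_and_card f).2 ⟨f1, by
    simp only [E, Fintype.card_sum, Fintype.card_sigma, Fintype.card_fin, htot,
      Fintype.card_subtype, card_filter, Fintype.sum_prod_type]⟩
  let e := Equiv.ofBijective f hb
  have he : ∀ s, R (e.symm s) s := fun s => by
    have := f2 (e.symm s)
    rwa [show f (e.symm s) = s from e.apply_symm_apply s] at this
  have hl : ∀ s, f (e.symm s) = s := e.apply_symm_apply
  refine ⟨fun x y => if h : ok x y then (f ⟨(x, y), h⟩).isLeft else true, fun x => ?_, fun y => ?_⟩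
  · rw [← card_sigma_fib a x]
    refine (card_bij (fun s _ => (e.symm (.inl s)).1.2) ?_ ?_ ?_).symm
    · intro s hs
      obtain rfl : (e.symm (.inl s)).1.1 = x := (he (.inl s)).symm.trans (mem_filter.1 hs).2
      simp [(e.symm (.inl s)).2, hl]
    · intro s hs s' hs' h
      exact Sum.inl.inj (e.symm.injective (Subtype.ext (Prod.ext ((he (.inl s)).symm.trans
        ((mem_filter.1 hs).2.trans ((mem_filter.1 hs').2.symm.trans (he (.inl s'))))) h)))
    · intro y hy
      obtain ⟨h1, h2⟩ := (mem_filter.1 hy).2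
      simp only [dif_pos h1, Sum.isLeft_iff] at h2
      obtain ⟨s, hs⟩ := h2
      have : e.symm (.inl s) = ⟨(x, y), h1⟩ := e.symm_apply_eq.2 hs.symm
      exact ⟨s, by simpa [R, this] using he (.inl s), by rw [this]⟩
  · rw [← card_sigma_fib b y]
    refine (card_bij (fun s _ => (e.symm (.inr s)).1.1) ?_ ?_ ?_).symm
    · intro s hs
      obtain rfl : (e.symm (.inr s)).1.2 = y := (he (.inr s)).symm.trans (mem_filter.1 hs).2
      simp [(e.symm (.inr s)).2, hl]
    · intro s hs s' hs' h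
      exact Sum.inr.inj (e.symm.injective (Subtype.ext (Prod.ext h ((he (.inr s)).symm.trans
        ((mem_filter.1 hs).2.trans ((mem_filter.1 hs').2.symm.trans (he (.inr s'))))))))
    · intro x hx
      obtain ⟨h1, h2⟩ := (mem_filter.1 hx).2
      simp only [dif_pos h1, Sum.isLeft_eq_false, Sum.isRight_iff] at h2
      obtain ⟨s, hs⟩ := h2
      have : e.symm (.inr s) = ⟨(x, y), h1⟩ := e.symm_apply_eq.2 hs.symm
      exact ⟨s, by simpa [R, this] using he (.inr s), by rw [this]⟩

end Pool.Agent.Lib.MP_351560_co
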