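import Mathlib
import Pool.Agent.Lib.MP_351560_co.Ch2Cell
import Pool.Agent.Lib.MP_351560_co.Orient

set_option autoImplicit false
set_option linter.unusedSimpArgs false
set_option linter.unusedVariables false

namespace Pool.Agent.Lib.MP_351560_co

open Finset Sum

namespace Ch2

variable {n : ℕ} [NeZero n]

/-- The cells that are decided in advance. -/
def fb {r : ℕ} : ZMod n ⊕ Fin r → ZMod n → Prop
  | inl k, y => y = k ∨ y = k + 1 ∨ y = k - 1
  | inr _, _ => False

lemma card_split {Y : Type} [Fintype Y] (p q : Y → Prop) [DecidablePred p] [DecidablePred q] :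
    Fintype.card Y ≤ (univ.filter fun y => ¬ p y ∧ ¬ q y).card + (univ.filter p).card +
      (univ.filter q).card := by
  simp only [card_filter, ← sum_add_distrib]
  rw [← card_univ, card_eq_sum_ones]
  refine sum_le_sum fun y _ => ?_
  by_cases h1 : p y <;> by_cases h2 : q y <;> simp [h1, h2]

/-- The missed vertices of one side. -/
lemma side {r t k0 u d lo hi g : ℕ} (hn : 3 ≤ n) (ht : t = 2 * n + r)
    (h : Ch2Side t n k0 u d lo hi g) (hs : ZMod n ⊕ Fin r → Prop) [DecidablePred hs]
    (fx : ZMod n ⊕ Fin r → ZMod n) (h0 : k0 = 0 → ∀ k, ¬ hs (inl k))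
    (h1 : ∀ k, fx (inl k) ≠ k ∧ fx (inl k) ≠ k + 1)
    (hg : ∀ y, (univ.filter fun x => hs x ∧ y = fx x).card ≤ g) (st : ZMod n → ℕ)
    (hst : ∀ y, lo ≤ st y ∧ st y ≤ hi) (htot : ∑ y, st y + n * (u - 2) + r * u = n * (d - 1)) :
    ∃ M : ZMod n ⊕ Fin r → ZMod n → Prop, ∃ _ : DecidableRel M,
      (∀ x, (univ.filter fun y => ¬ M x y).card = n - u) ∧
      (∀ k, M (inl k) k ∧ M (inl k) (k + 1) ∧ ¬ M (inl (k + 1)) k) ∧ (∀ x, hs x → ¬ M x (fx x)) ∧
      ∀ y, (univ.filter fun x => M x y ∧ x ≠ inl y).card + st y = d := by
  classical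
  obtain ⟨a1, a2, a3, a4, a5⟩ := h
  have one : (1 : ZMod n) ≠ 0 := by simpa using cast_ne (n := n) (j := 1) (by omega) (by omega)
  have cX : Fintype.card (ZMod n ⊕ Fin r) = t - n := by
    rw [Fintype.card_sum, ZMod.card, Fintype.card_fin]
    omega
  set ok : ZMod n ⊕ Fin r → ZMod n → Prop := fun x y => ¬ (hs x ∧ y = fx x) ∧ ¬ fb x y with hok
  have d1 : ∀ y, t - n ≤ (univ.filter fun x => ok x y).card + g + 3 := fun y => by
    have b1 := card_split (fun x => hs x ∧ y = fx x) (fun x => fb x y)
    have b2 : (univ.filter fun x : ZMod n ⊕ Fin r => fb x y).card ≤ 3 := by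
      refine le_trans (card_le_card (t := {inl y, inl (y - 1), inl (y + 1)}) fun x hx => ?_)
        card_le_three
      have b3 := (mem_filter.1 hx).2
      rcases x with k | j
      · rcases b3 with rfl | rfl | rfl <;> simp
      · exact b3.elim
    have b3 := hg y
    rw [cX] at b1
    exact b1.trans (add_le_add (add_le_add le_rfl b3) b2)
  have d2 : ∀ x, (univ.filter fun y => hs x ∧ y = fx x).card ≤ 1 := fun x =>
    card_le_one.2 fun y hy z hz => (mem_filter.1 hy).2.2.trans (mem_filter.1 hz).2.2.symm
  have d3 : ∀ x : ZMod n ⊕ Fin r, Sum.elim (fun _ => u - 2) (fun _ => u) x + (n - 1 - k0 - u) ≤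
      (univ.filter fun y => ok x y).card := fun x => by
    have b1 := card_split (fun y => hs x ∧ y = fx x) (fun y => fb x y)
    have b2 := d2 x
    rw [ZMod.card] at b1
    change n ≤ (univ.filter fun y => ok x y).card + _ + _ at b1
    rcases x with k | j
    · have b3 : (univ.filter fun y => fb (r := r) (inl k) y).card ≤ 3 := by
        refine le_trans (card_le_card (t := {k, k + 1, k - 1}) fun x hx => ?_) card_le_three
        simpa [fb] using hx
      rw [elim_inl]
      rcases Nat.eq_zero_or_pos k0 with b4 | b4
      · have b5 : (univ.filter fun y => hs (inl k) ∧ y = fx (inl k)).card = 0 := by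
          simp [h0 b4 k]
        omega
      · omega
    · have b3 : (univ.filter fun y => fb (n := n) (inr j) y).card = 0 := by simp [fb]
      rw [elim_inr]
      omega
  have d4 : ∀ y, (univ.filter fun x => ok x y).card - (d - 1 - st y) + (d - 1 - st y) =
      (univ.filter fun x => ok x y).card := fun y => by
    have := d1 y
    have := hst y
    omega
  obtain ⟨f, f1, f2⟩ := orient ok (Sum.elim (fun _ => u - 2) (fun _ => u))
    (fun y => (univ.filter fun x => ok x y).card - (d - 1 - st y)) (by
      have b1 : ∑ x, (univ.filter fun y => ok x y).card = ∑ y, (univ.filter fun x => ok x y).card := by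
        simp only [card_filter]
        exact sum_comm
      have b2 : ∑ y, (d - 1 - st y + st y) = ∑ y : ZMod n, (d - 1) :=
        sum_congr rfl fun y _ => by
          have := hst y
          omega
      rw [b1, ← sum_congr rfl fun y _ => d4 y, sum_add_distrib]
      rw [sum_add_distrib] at b2
      simp only [Fintype.sum_sum_type, elim_inl, elim_inr, sum_const, card_univ, ZMod.card,
        Fintype.card_fin, smul_eq_mul] at b2 ⊢
      omega)
    (u - 2) (t - n - 3 - g - (d - 1 - lo)) (n - 1 - k0 - u) (d - 1 - hi)
    (by rintro (k | j) <;> simp) (fun y => by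
      have := d1 y
      have := hst y
      omega) d3 (fun y => by
      have := d4 y
      have := hst y
      omega) (by rw [cX, ZMod.card]; exact a5)
  have f3 : ∀ y, (univ.filter fun x => ok x y ∧ f x y = true).card = d - 1 - st y := fun y => by
    have b1 := card_filter_add_card_filter_not (s := univ.filter fun x => ok x y)
      (fun x => f x y = true)
    have b2 := f2 y
    have b3 := d4 y
    simp only [filter_filter, Bool.not_eq_true] at b1
    beta_reduce at b2
    omega
  refine ⟨fun x y => (ok x y ∧ f x y = true) ∨ x = inl y ∨ x = inl (y - 1), inferInstance,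
    fun x => ?_, fun k => ⟨Or.inr (Or.inl rfl), Or.inr (Or.inr (by simp)), ?_⟩, fun x hx => ?_,
    fun y => ?_⟩
  · have b1 := card_filter_add_card_filter_not (s := (univ : Finset (ZMod n)))
      (fun y => (ok x y ∧ f x y = true) ∨ x = inl y ∨ x = inl (y - 1))
    have b2 : (univ.filter fun y => (ok x y ∧ f x y = true) ∨ x = inl y ∨ x = inl (y - 1)).card
        = u := by
      rw [filter_or, card_union_of_disjoint, f1]
      · rcases x with k | j
        · have b3 : (univ.filter fun y : ZMod n => (inl k : ZMod n ⊕ Fin r) = inl y ∨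
              (inl k : ZMod n ⊕ Fin r) = inl (y - 1)) = {k, k + 1} := by
            ext y
            simp [eq_comm (a := k), sub_eq_iff_eq_add]
          rw [b3, card_pair (by simpa using one), elim_inl]
          omega
        · simp
      · refine disjoint_filter.2 fun y _ hy hy' => hy.1.2 ?_
        rcases hy' with rfl | rfl
        · exact Or.inl rfl
        · exact Or.inr (Or.inl (by simp))
    rw [card_univ, ZMod.card, b2] at b1
    exact Nat.eq_sub_of_add_eq' b1
  · rintro (b | b | b)
    · exact b.1.2 (Or.inr (Or.inr (by simp)))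
    · exact one (by simpa using b)
    · refine cast_ne (n := n) (j := 2) (by omega) (by omega) ?_
      have b' := inl_injective b
      push_cast
      linear_combination b'
  · rintro (b | b | b)
    · exact b.1.1 ⟨hx, rfl⟩
    · rcases x with k | j
      · exact (h1 k).1 (inl_injective b).symm
      · simp at b
    · rcases x with k | j
      · exact (h1 k).2 (sub_eq_iff_eq_add.1 (inl_injective b).symm)
      · simp at b
  · have b1 : (univ.filter fun x => ((ok x y ∧ f x y = true) ∨ x = inl y ∨ x = inl (y - 1)) ∧
        x ≠ inl y) = insert (inl (y - 1)) (univ.filter fun x => ok x y ∧ f x y = true) := by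
      ext x
      simp only [mem_filter, mem_univ, true_and, mem_insert]
      constructor
      · rintro ⟨b | b | b, b'⟩
        · exact Or.inr b
        · exact absurd b b'
        · exact Or.inl b
      · rintro (rfl | b)
        · exact ⟨Or.inr (Or.inr rfl), fun b => one (by simpa using b)⟩
        · exact ⟨Or.inl b, fun b' => b.1.2 (b' ▸ Or.inl rfl)⟩
    rw [b1, card_insert_of_notMem fun b => (mem_filter.1 b).2.1.2 (Or.inr (Or.inl (by simp))), f3]
    have := hst y
    omega

end Ch2

end Pool.Agent.Lib.MP_351560_co
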