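import Mathlib
import Pool.Agent.Lib.MP_351560_co.Ch2Miss
import Pool.Agent.Lib.MP_351560_co.Ch2Asm

set_option autoImplicit false
set_option linter.unusedSimpArgs false
set_option linter.unusedVariables false

namespace Pool.Agent.Lib.MP_351560_co

open Finset Sum

namespace Ch2

lemma exists_perm {X : Type} [Fintype X] (h : 2 ≤ Fintype.card X) :
    ∃ σ : Equiv.Perm X, ∀ x, σ x ≠ x := by
  have : NeZero (Fintype.card X) := ⟨by omega⟩
  have e : X ≃ ZMod (Fintype.card X) := Fintype.equivOfCardEq (ZMod.card _).symm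
  refine ⟨(e.trans (Equiv.addRight 1)).trans e.symm, fun x hx => ?_⟩
  refine cast_ne (n := Fintype.card X) (j := 1) (by omega) (by omega) ?_
  simpa [Equiv.symm_apply_eq] using hx

variable {n : ℕ} [NeZero n]

lemma gbound {r k0 : ℕ} (R : ℕ) (hs : ZMod n ⊕ Fin r → Prop) [DecidablePred hs]
    (fx : ZMod n ⊕ Fin r → ZMod n) (h0 : k0 = 0 → ∀ k, ¬ hs (inl k))
    (h1 : ∀ k k', fx (inl k) = fx (inl k') → k = k') (h2 : ∀ j, hs (inr j) → j.1 < R)
    (h3 : ∀ i j : Fin r, fx (inr i) = fx (inr j) → i.1 / n = j.1 / n →
      ((i.1 : ℕ) : ZMod n) = (j.1 : ℕ)) (y : ZMod n) :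
    (univ.filter fun x => hs x ∧ y = fx x).card ≤ cdiv R n + k0 := by
  have b1 : (univ.filter fun x => hs x ∧ y = fx x).card =
      (univ.filter fun k => hs (inl k) ∧ y = fx (inl k)).card +
        (univ.filter fun j => hs (inr j) ∧ y = fx (inr j)).card := by
    simp only [card_filter, Fintype.sum_sum_type]
  have b2 := line_card (n := n) R (fun j => hs (inr j) ∧ y = fx (inr j)) (fun j h => h2 j h.1)
    fun i j hi hj => h3 i j (hi.2.symm.trans hj.2)
  have b3 : (univ.filter fun k => hs (inl k) ∧ y = fx (inl k)).card ≤ 1 :=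
    card_le_one.2 fun a ha b hb => h1 a b ((mem_filter.1 ha).2.2.symm.trans (mem_filter.1 hb).2.2)
  rcases Nat.eq_zero_or_pos k0 with b4 | b4
  · have b5 : (univ.filter fun k => hs (inl k) ∧ y = fx (inl k)).card = 0 := by simp [h0 b4]
    omega
  · omega

lemma val_of {a : ℕ} (h : a < n) {x : ZMod n} (hx : x = (a : ZMod n)) : x.val = a := by
  rw [hx, ZMod.val_cast_of_lt h]

lemma of_val {a : ℕ} {x : ZMod n} (hx : x.val + a = n) : x + (a : ZMod n) = 0 := by
  have := congrArg (Nat.cast : ℕ → ZMod n) hx
  simpa using this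

end Ch2

open Ch2 in
/-- CH2: the core given by the two step chain. -/
theorem core0_ch2 {t n k u w R1 R2 TB : ℕ} (h : Ch2P t n k u w R1 R2 TB) :
    Core0 t n (t - n) (n * n % t) := by
  classical
  obtain ⟨a1, a2, a3, a4, a5, a6, a7, a8, a9⟩ := h
  have : NeZero n := ⟨by omega⟩
  obtain ⟨r, ht⟩ : ∃ r, t = 2 * n + r := ⟨t - 2 * n, by omega⟩
  have e0 : t - 2 * n = r := by omega
  have e1 : t - n = n + r := by omega
  have e2 := Nat.div_add_mod (n * n) t
  have e3 : 6 * n ≤ n * n := Nat.mul_le_mul_right n a1
  rw [e0] at a6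
  generalize n * n / t = q at a4 e2
  generalize n * n % t = s at a5 e2
  have c1 : R1 ≤ r := by omega
  have c2 : R2 ≤ 2 * n := by omega
  have c3 : 2 * n + R1 + R2 + s = t * (k + 1) := by
    rcases a5 with ⟨rfl, b⟩ | ⟨rfl, b⟩ <;> omega
  have ne : ∀ j : ℕ, 0 < j → j < 6 → (j : ZMod n) ≠ 0 := fun j b1 b2 => cast_ne b1 (by omega)
  obtain ⟨σ, hσ⟩ := exists_perm (X := ZMod n ⊕ Fin r) (by
    rw [Fintype.card_sum, ZMod.card]
    omega)
  set has : ZMod n ⊕ ZMod n ⊕ Fin r → Prop := Sum.elim (fun l => n ≤ (l + 3).val + R2)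
    (Sum.elim (fun k => 2 * n ≤ (k + 4).val + R2) fun j => j.1 < R1) with hh
  have z1 : k = 0 → ∀ l, ¬ has (inl l) := fun b l b' => by
    have b1 : n ≤ (l + 3).val + R2 := b'
    have := ZMod.val_lt (l + 3)
    omega
  have z2 : k = 0 → ∀ l, ¬ has (inr (inl l)) := fun b l b' => by
    have b1 : 2 * n ≤ (l + 4).val + R2 := b'
    have := ZMod.val_lt (l + 4)
    omega
  obtain ⟨MA, _, A1, A2, A3, A4⟩ := side (n := n) (r := r) (by omega) ht a8 (fun x => has (inr x))
    (Sum.elim (fun k => k + 4) fun j => (cell n j).1) z2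
    (fun k => ⟨fun b => ne 4 (by omega) (by omega) (by
      rw [elim_inl] at b
      push_cast
      linear_combination b), fun b => ne 3 (by omega) (by omega) (by
      rw [elim_inl] at b
      push_cast
      linear_combination b)⟩)
    (gbound R1 _ _ z2 (fun k k' b => add_right_cancel b) (fun j b => b) fun i j b _ => b)
    (fun y => (univ.filter fun l => R1 ≤ idx y l ∧ idx y l < R1 + TB).card)
    (row_card (by omega)) (by
      rw [sum_rows (by omega), Nat.add_sub_cancel_left]
      exact a6)
  obtain ⟨MB, _, B1, B2, B3, B4⟩ := side (n := n) (r := r) (by omega) ht a9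
    (Sum.elim (fun l => has (inl l)) fun j => has (inr (inr j)))
    (Sum.elim (fun k => k + 2) fun j => (cell n j).2) z1
    (fun k => ⟨fun b => ne 2 (by omega) (by omega) (by
      rw [elim_inl] at b
      push_cast
      linear_combination b), fun b => ne 1 (by omega) (by omega) (by
      rw [elim_inl] at b
      push_cast
      linear_combination b)⟩)
    (gbound R1 _ _ z1 (fun k k' b => add_right_cancel b) (fun j b => b) fun i j b b' => by
      simp only [elim_inr, cell, b'] at b
      exact add_right_cancel b)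
    (fun y => (univ.filter fun k => R1 + TB ≤ idx k y ∧ idx k y < n * n - R2).card)
    (col_card (by omega)) (by
      rw [sum_cols (by omega)]
      have b1 := a8.1
      have b2 := a8.2.1
      have b3 := a9.1
      have b4 := a9.2.1
      zify [b1, b3, show R1 + TB ≤ n * n - R2 by omega, show R2 ≤ n * n by omega,
        show 1 ≤ n - u by omega, show u ≤ n by omega, show 1 ≤ n - w by omega,
        show w ≤ n by omega] at a4 a6 e2 c3 ht ⊢
      rw [ht] at e2 c3
      linear_combination -a6 + (2 * n + r) * a4 + e2 - c3)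
  have hκ : ∀ i, chain i + (if has i then 1 else 0) +
      (if i ∈ univ.filter (fun i => chain i + (if has i then 1 else 0) = k) then 1 else 0)
        = k + 1 := fun i => by
    have b1 : chain i + (if has i then 1 else 0) = k ∨
        chain i + (if has i then 1 else 0) = k + 1 := by
      rcases a5 with b | b
      · rcases i with l | l | j
        · simp [chain, z1 b.1 l, b.1]
        · simp [chain, z2 b.1 l, b.1]
        · split_ifs <;> simp [chain, b.1]
      · rcases i with l | l | j
        · split_ifs <;> simp [chain, b.1]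
        · split_ifs <;> simp [chain, b.1]
        · have b2 : has (inr (inr j)) := show j.1 < R1 by omega
          simp [chain, b.1, b2]
    simp only [mem_filter, mem_univ, true_and]
    generalize chain i + (if has i then 1 else 0) = z at b1
    split_ifs <;> omega
  generalize univ.filter (fun i => chain i + (if has i then 1 else 0) = k) = S at hκ
  have cT : Fintype.card (ZMod n ⊕ ZMod n ⊕ Fin r) = t := by
    simp only [Fintype.card_sum, ZMod.card, Fintype.card_fin]
    omega
  have cS : S.card = s := by
    have b1 := sum_congr rfl fun i (_ : i ∈ univ) => hκ i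
    have b2 : ∑ i : ZMod n ⊕ ZMod n ⊕ Fin r, chain i = 2 * n := by
      simp [Fintype.sum_sum_type, chain, two_mul]
    have b3 : (univ.filter fun j : Fin r => j.1 < R1).card = R1 := by
      rw [Fin.card_filter_val_lt, min_eq_right c1]
    rw [sum_add_distrib, sum_add_distrib, b2, ← card_filter, ← card_filter, filter_mem_eq_inter,
      univ_inter, sum_const, card_univ, cT, smul_eq_mul,
      card3 has (fun l => n ≤ ((Equiv.addRight 3) l).val + R2)
        (fun l => 2 * n ≤ ((Equiv.addRight 4) l).val + R2) (fun j => j.1 < R1) (fun _ => Iff.rfl)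
        (fun _ => Iff.rfl) (fun _ => Iff.rfl), card_tail, card_tail, b3] at b1
    omega
  have main := assemble (dA := n - u) (dB := n - w) (κ := k + 1) (ZMod.card n) (Fintype.card_fin r)
    (Equiv.addRight 1) (fun k b => ne 1 (by omega) (by omega) (by simpa using b)) σ hσ MA MB
    (fun k l => R1 + TB ≤ idx k l ∧ idx k l < n * n - R2)
    (fun k l => R1 ≤ idx k l ∧ idx k l < R1 + TB) has
    (Sum.elim (fun l => l + 3) (Sum.elim (fun k => k + 4) fun j => (cell n j).1))
    (Sum.elim (fun l => l + 2) (Sum.elim (fun k => k + 2) fun j => (cell n j).2)) S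
    A1 A2 A3 A4 B1 B2 (fun l => B3 (inl l)) (fun j => B3 (inr j)) B4 (fun l b => ?_)
    (fun l b => ?_) (fun k l => ?_) hκ ?_
  · have := main.core0
    rwa [cT, cS, ← e1] at this
  · have b1 : k ≠ 0 := fun e => z1 e l b
    have b2 : (l - (l + 3)).val = n - 3 := val_of (by omega) (by
      rw [Nat.cast_sub (by omega)]
      simp)
    have b3 := ZMod.val_lt (l + 3)
    refine ⟨?_, fun e => ne 3 (by omega) (by omega) ?_⟩
    · simp only [elim_inl, idx, b2, Nat.sub_mul]
      omega
    · simp only [elim_inl, Equiv.coe_addRight] at e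
      push_cast
      linear_combination e
  · have b1 : k ≠ 0 := fun e => z2 e l b
    have b2 : (l + 2 - l).val = 2 := val_of (by omega) (by simp)
    have b3 := ZMod.val_lt l
    refine ⟨?_, fun e => ne 5 (by omega) (by omega) ?_⟩
    · simp only [elim_inl, elim_inr, idx, b2]
      omega
    · simp only [elim_inl, elim_inr, Equiv.coe_addRight] at e
      push_cast
      linear_combination e
  · by_cases b1 : idx k l < R1
    · refine Or.inr (Or.inr ⟨inr (inr ⟨idx k l, by omega⟩), b1, ?_⟩)
      simp [cell_idx]
    by_cases b2 : idx k l < R1 + TB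
    · exact Or.inr (Or.inl ⟨by omega, b2⟩)
    by_cases b3 : idx k l < n * n - R2
    · exact Or.inl ⟨by omega, b3⟩
    refine Or.inr (Or.inr ?_)
    have b4 := ZMod.val_lt (l - k)
    have b5 := ZMod.val_lt k
    have b6 : n < (l - k).val + 3 := Nat.lt_of_mul_lt_mul_right (a := n) (by
      rw [add_mul]
      unfold idx at b3
      omega)
    unfold idx at b3
    by_cases b7 : (l - k).val + 1 = n
    · have b8 : n * n = (l - k).val * n + n := by rw [← Nat.succ_mul, Nat.succ_eq_add_one, b7]
      have b9 := of_val b7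
      refine ⟨inl (k - 3), ?_, by simp, ?_⟩
      · show n ≤ (k - 3 + 3).val + R2
        rw [sub_add_cancel]
        omega
      · rw [elim_inl]
        push_cast at b9
        linear_combination -b9
    · have b7' : (l - k).val + 2 = n := by omega
      have b8 : n * n = (l - k).val * n + 2 * n := by rw [← add_mul, b7']
      have b9 := of_val b7'
      refine ⟨inr (inl (k - 4)), ?_, by simp, ?_⟩
      · show 2 * n ≤ (k - 4 + 4).val + R2
        rw [sub_add_cancel]
        omega
      · rw [elim_inr, elim_inl]
        push_cast at b9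
        linear_combination -b9
  · have b2 := a8.2.1
    have b4 := a9.2.1
    rw [cS]
    zify [show u ≤ n by omega, show w ≤ n by omega] at a4 e2 ht ⊢
    rw [ht] at e2
    linear_combination -(2 * n + r) * a4 - e2

end Pool.Agent.Lib.MP_351560_co
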