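import Mathlib
import Pool.Agent.Lib.MP_351560_co.CoreMk

set_option autoImplicit false
set_option linter.unusedVariables false

namespace Pool.Agent.Lib.MP_351560_co

open Finset

namespace CoreFar

/-- the flag permutation on the times `0, …, c + n - 1` -/
def pm (N n c i : ℕ) : ℕ :=
  if c ≤ i then (if i = c then 0 else N - n + (i - c)) else
    if i = 0 then (if c = N then N - n else c - 1) else
      if i < n then c + i else if i = n then c else if i ≤ N then i - n else i - 1

/-- its inverse -/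
def pmi (N n c i : ℕ) : ℕ :=
  if c ≤ i then (if i = c then n else i - c) else
    if i = 0 then c else if i + n ≤ N then (if i + n = c then 0 else i + n) else
      if i < N then c + (i + n - N) else if i + 1 = c then 0 else i + 1

/-- the second hub -/
def hb (n c i : ℕ) : ℕ := if c ≤ i then i + n else if i + 1 = c then 0 else i + 1

/-- the next time -/
def nx (n c i : ℕ) : ℕ := if i + 1 = c then 0 else if i + 1 = c + n then c else i + 1

/-- the index of the missed vertex of the part `0` -/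
def al (N n c i : ℕ) : ℕ := if c ≤ i then i - c else if i < N then i % n else (c - i) % 2

/-- the class of the multiples of `n` -/
def rt (N c : ℕ) : ℕ := if c = N then c else if N + 1 = c then 0 else N + 1

/-- the classes -/
def cl (N n c i : ℕ) : ℕ :=
  if c < i then i else if i = c then rt N c else if i = 0 then c else
    if i ≤ N then (if i % n = 0 then rt N c else c + i % n) else if i + 1 = c then 0 else i + 1

/-- the position inside a class -/
def ps (N n c i : ℕ) : ℕ :=
  if c ≤ i then (if i = c ∧ c ≠ N then 0 else n) else if i ≤ N then i / n else 0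

/-- the parts -/
def pt (n c : ℕ) (v : Fin (c + n + n)) : Fin 3 :=
  if v.1 < c then 2 else if v.1 < c + n then 1 else 0

lemma pm_s (N n c i : ℕ) : (i = c ∧ pm N n c i = 0) ∨ (c < i ∧ pm N n c i = N - n + (i - c)) ∨
    (i < c ∧ i = 0 ∧ c = N ∧ pm N n c i = N - n) ∨ (i < c ∧ i = 0 ∧ c ≠ N ∧ pm N n c i = c - 1) ∨
    (i < c ∧ i ≠ 0 ∧ i < n ∧ pm N n c i = c + i) ∨ (i < c ∧ i ≠ 0 ∧ i = n ∧ pm N n c i = c) ∨
    (i < c ∧ n < i ∧ i ≤ N ∧ pm N n c i = i - n) ∨
    (i < c ∧ n < i ∧ N < i ∧ pm N n c i = i - 1) := by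
  unfold pm
  split_ifs <;> first
    | (left; omega)
    | (right; left; omega)
    | (right; right; left; omega)
    | (right; right; right; left; omega)
    | (right; right; right; right; left; omega)
    | (right; right; right; right; right; left; omega)
    | (right; right; right; right; right; right; left; omega)
    | (right; right; right; right; right; right; right; omega)

lemma pmi_s (N n c i : ℕ) : (i = c ∧ pmi N n c i = n) ∨ (c < i ∧ pmi N n c i = i - c) ∨
    (i < c ∧ i = 0 ∧ pmi N n c i = c) ∨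
    (i < c ∧ i ≠ 0 ∧ i + n ≤ N ∧ i + n = c ∧ pmi N n c i = 0) ∨
    (i < c ∧ i ≠ 0 ∧ i + n ≤ N ∧ i + n ≠ c ∧ pmi N n c i = i + n) ∨
    (i < c ∧ i ≠ 0 ∧ N < i + n ∧ i < N ∧ pmi N n c i = c + (i + n - N)) ∨
    (i < c ∧ i ≠ 0 ∧ N < i + n ∧ N ≤ i ∧ i + 1 = c ∧ pmi N n c i = 0) ∨
    (i < c ∧ i ≠ 0 ∧ N < i + n ∧ N ≤ i ∧ i + 1 ≠ c ∧ pmi N n c i = i + 1) := by
  unfold pmi
  split_ifs <;> first
    | (left; omega)
    | (right; left; omega)
    | (right; right; left; omega)
    | (right; right; right; left; omega)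
    | (right; right; right; right; left; omega)
    | (right; right; right; right; right; left; omega)
    | (right; right; right; right; right; right; left; omega)
    | (right; right; right; right; right; right; right; omega)

lemma hb_s (n c i : ℕ) : (c ≤ i ∧ hb n c i = i + n) ∨ (i + 1 = c ∧ hb n c i = 0) ∨
    (i + 1 < c ∧ hb n c i = i + 1) := by
  unfold hb
  split_ifs <;> omega

lemma nx_s (n c i : ℕ) : (i + 1 = c ∧ nx n c i = 0) ∨
    (i + 1 ≠ c ∧ i + 1 = c + n ∧ nx n c i = c) ∨
    (i + 1 ≠ c ∧ i + 1 ≠ c + n ∧ nx n c i = i + 1) := by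
  unfold nx
  split_ifs <;> omega

lemma al_s (N n c i : ℕ) : (c ≤ i ∧ al N n c i = i - c) ∨ (i < c ∧ i < N ∧ al N n c i = i % n) ∨
    (i < c ∧ N ≤ i ∧ al N n c i = (c - i) % 2) := by
  unfold al
  split_ifs <;> omega

lemma rt_s (N c : ℕ) : (c = N ∧ rt N c = c) ∨ (N + 1 = c ∧ rt N c = 0) ∨
    (c ≠ N ∧ N + 1 ≠ c ∧ rt N c = N + 1) := by
  unfold rt
  split_ifs <;> omega

lemma cl_s (N n c i : ℕ) : (c < i ∧ cl N n c i = i) ∨ (i = c ∧ cl N n c i = rt N c) ∨
    (i < c ∧ i = 0 ∧ cl N n c i = c) ∨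
    (i < c ∧ i ≠ 0 ∧ i ≤ N ∧ i % n = 0 ∧ cl N n c i = rt N c) ∨
    (i < c ∧ i ≠ 0 ∧ i ≤ N ∧ i % n ≠ 0 ∧ cl N n c i = c + i % n) ∨
    (N < i ∧ i + 1 = c ∧ cl N n c i = 0) ∨ (N < i ∧ i + 1 < c ∧ cl N n c i = i + 1) := by
  unfold cl
  split_ifs <;> first
    | (left; omega)
    | (right; left; omega)
    | (right; right; left; omega)
    | (right; right; right; left; omega)
    | (right; right; right; right; left; omega)
    | (right; right; right; right; right; left; omega)
    | (right; right; right; right; right; right; omega)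

lemma ps_s (N n c i : ℕ) : (i = c ∧ c ≠ N ∧ ps N n c i = 0) ∨
    (c ≤ i ∧ (i ≠ c ∨ c = N) ∧ ps N n c i = n) ∨ (i < c ∧ i ≤ N ∧ ps N n c i = i / n) ∨
    (i < c ∧ N < i ∧ ps N n c i = 0) := by
  unfold ps
  split_ifs <;> first
    | (left; omega)
    | (right; left; omega)
    | (right; right; left; omega)
    | (right; right; right; omega)

lemma md_s {n : ℕ} (hn : 2 ≤ n) (i : ℕ) : i % n < n ∧ (i < n → i % n = i) ∧
    (i = n → i % n = 0) ∧ (i = n + 1 → i % n = 1) ∧ (i = n * n → i % n = 0) ∧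
    (n * n - n ≤ i → i < n * n → i % n = i - (n * n - n)) := by
  refine ⟨Nat.mod_lt _ (by omega), Nat.mod_eq_of_lt, fun h => by rw [h, Nat.mod_self],
    fun h => by rw [h, Nat.add_mod_left, Nat.mod_eq_of_lt (by omega)],
    fun h => by rw [h, Nat.mul_mod_right], fun h1 h2 => ?_⟩
  have h3 : n * n - n = n * (n - 1) := by rw [Nat.mul_sub_one]
  obtain ⟨k, rfl⟩ := Nat.exists_eq_add_of_le h1
  rw [Nat.add_sub_cancel_left, h3, Nat.mul_add_mod, Nat.mod_eq_of_lt (by omega)]

lemma dv_s {n : ℕ} (hn : 2 ≤ n) (i : ℕ) : (i < n * n → i / n < n) ∧ (i ≤ n * n → i / n ≤ n) ∧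
    (i ≠ 0 → i % n = 0 → 1 ≤ i / n) := by
  refine ⟨fun h => Nat.div_lt_of_lt_mul h, fun h => Nat.div_le_of_le_mul h, fun h1 h2 => ?_⟩
  have := Nat.div_add_mod i n
  rcases Nat.eq_zero_or_pos (i / n) with h | h
  · rw [h] at this
    omega
  · exact h

def perm (N n c : ℕ) (hn : 2 ≤ n) (hN : 2 * n ≤ N) (hc : N ≤ c) : Equiv.Perm (Fin (c + n)) where
  toFun i := ⟨pm N n c i, by have := i.2; have := pm_s N n c i; omega⟩
  invFun i := ⟨pmi N n c i, by have := i.2; have := pmi_s N n c i; omega⟩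
  left_inv i := by
    have := i.2
    have := pm_s N n c i
    have := pmi_s N n c (pm N n c i)
    apply Fin.ext
    show pmi N n c (pm N n c i) = i
    omega
  right_inv i := by
    have := i.2
    have := pmi_s N n c i
    have := pm_s N n c (pmi N n c i)
    apply Fin.ext
    show pm N n c (pmi N n c i) = i
    omega

lemma cardF {M : ℕ} (P : ℕ → Prop) [DecidablePred P] (s : Finset ℕ)
    (h : ∀ v, v ∈ s ↔ v < M ∧ P v) : (univ.filter fun v : Fin M => P v.1).card = s.card :=
  card_bij (fun v _ => v.1) (fun v hv => (h _).2 ⟨v.2, (mem_filter.1 hv).2⟩)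
    (fun _ _ _ _ e => Fin.ext e)
    fun v hv => ⟨⟨v, ((h v).1 hv).1⟩, mem_filter.2 ⟨mem_univ _, ((h v).1 hv).2⟩, rfl⟩

lemma pt_s (n c : ℕ) (v : Fin (c + n + n)) : (v.1 < c ∧ (pt n c v).1 = 2) ∨
    (c ≤ v.1 ∧ v.1 < c + n ∧ (pt n c v).1 = 1) ∨ (c + n ≤ v.1 ∧ (pt n c v).1 = 0) := by
  unfold pt
  split_ifs <;> simp <;> omega

lemma pt_card (n c : ℕ) (P : Fin 3) :
    (univ.filter fun v => pt n c v = P).card = ![n, n, c] P := by
  have h : ∀ (Q : ℕ → Prop) [DecidablePred Q], (∀ v, pt n c v = P ↔ Q v.1) →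
      (univ.filter fun v => pt n c v = P) = univ.filter fun v => Q v.1 :=
    fun Q _ hQ => filter_congr fun v _ => hQ v
  fin_cases P
  · rw [h (fun v => c + n ≤ v) (fun v => by have := pt_s n c v; simp only [Fin.ext_iff]; omega),
      cardF (fun v => c + n ≤ v) (Ico (c + n) (c + n + n)) (fun v => by rw [mem_Ico]; omega)]
    simp
  · rw [h (fun v => c ≤ v ∧ v < c + n)
      (fun v => by have := pt_s n c v; simp only [Fin.ext_iff]; omega),
      cardF (fun v => c ≤ v ∧ v < c + n) (Ico c (c + n)) (fun v => by rw [mem_Ico]; omega)]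
    simp
  · rw [h (fun v => v < c) (fun v => by have := pt_s n c v; simp only [Fin.ext_iff]; omega),
      cardF (fun v => v < c) (range c) (fun v => by rw [mem_range]; omega)]
    simp

/-- the times without an extra edge -/
def SS (N n c : ℕ) : Finset (Fin (c + n)) :=
  univ.filter fun i => (1 ≤ i.1 ∧ i.1 ≤ N ∧ i.1 < c) ∨ (i.1 = 0 ∧ c = N)

lemma mem_SS {N n c : ℕ} (i : Fin (c + n)) :
    i ∈ SS N n c ↔ (1 ≤ i.1 ∧ i.1 ≤ N ∧ i.1 < c) ∨ (i.1 = 0 ∧ c = N) := by
  simp only [SS, mem_filter, mem_univ, true_and]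

lemma card_SS {N n c : ℕ} (hN : 1 ≤ N) (hc : N ≤ c) : (SS N n c).card = N := by
  unfold SS
  by_cases h : c = N
  · rw [cardF (fun i => (1 ≤ i ∧ i ≤ N ∧ i < c) ∨ (i = 0 ∧ c = N)) (range N)
      (fun v => by rw [mem_range]; omega), card_range]
  · rw [cardF (fun i => (1 ≤ i ∧ i ≤ N ∧ i < c) ∨ (i = 0 ∧ c = N)) (Icc 1 N)
      (fun v => by rw [mem_Icc]; omega)]
    simp

/-- the leaves of the first hub -/
def LA (N n c i : ℕ) : Finset (Fin (c + n + n)) :=
  univ.filter fun v => c + n ≤ v.1 ∧ v.1 ≠ c + n + al N n c i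

/-- the leaves of the second hub -/
def LB (N n c i : ℕ) : Finset (Fin (c + n + n)) :=
  univ.filter fun v => (i < c ∧ c ≤ v.1 ∧ v.1 < c + n) ∨ (c ≤ i ∧ v.1 < N ∧ v.1 % n = i - c)

lemma mem_LA {N n c i : ℕ} (v : Fin (c + n + n)) :
    v ∈ LA N n c i ↔ c + n ≤ v.1 ∧ v.1 ≠ c + n + al N n c i := by
  simp only [LA, mem_filter, mem_univ, true_and]

lemma mem_LB {N n c i : ℕ} (v : Fin (c + n + n)) : v ∈ LB N n c i ↔
    (i < c ∧ c ≤ v.1 ∧ v.1 < c + n) ∨ (c ≤ i ∧ v.1 < N ∧ v.1 % n = i - c) := by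
  simp only [LB, mem_filter, mem_univ, true_and]

lemma card_LA {N n c i : ℕ} (h : al N n c i < n) : (LA N n c i).card = n - 1 := by
  unfold LA
  rw [cardF (fun v => c + n ≤ v ∧ v ≠ c + n + al N n c i)
    ((Ico (c + n) (c + n + n)).erase (c + n + al N n c i))
    (fun v => by rw [mem_erase, mem_Ico]; omega), card_erase_of_mem (by rw [mem_Ico]; omega)]
  simp

lemma card_LB {n c i : ℕ} (hn : 2 ≤ n) (hc : n * n ≤ c) (hi : i < c + n) :
    (LB (n * n) n c i).card = n := by
  unfold LB
  by_cases h : i < c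
  · rw [cardF (fun v => (i < c ∧ c ≤ v ∧ v < c + n) ∨ (c ≤ i ∧ v < n * n ∧ v % n = i - c))
      (Ico c (c + n)) (fun v => by rw [mem_Ico]; omega)]
    simp
  · rw [cardF (fun v => (i < c ∧ c ≤ v ∧ v < c + n) ∨ (c ≤ i ∧ v < n * n ∧ v % n = i - c))
      ((range n).image fun m => n * m + (i - c)) (fun v => ?_), card_image_of_injective,
      card_range]
    · intro a b hab
      exact Nat.eq_of_mul_eq_mul_left (by omega : 0 < n) (Nat.add_right_cancel hab)
    · rw [mem_image]
      constructor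
      · rintro ⟨m, hm, rfl⟩
        have h1 : n * (m + 1) ≤ n * n := Nat.mul_le_mul_left _ (mem_range.1 hm)
        rw [Nat.mul_add_one] at h1
        refine ⟨by omega, Or.inr ⟨by omega, by omega, ?_⟩⟩
        rw [Nat.mul_add_mod, Nat.mod_eq_of_lt (by omega)]
      · rintro ⟨_, h1 | ⟨_, h1, h2⟩⟩
        · omega
        · exact ⟨v / n, mem_range.2 (Nat.div_lt_of_lt_mul h1), by rw [← h2, Nat.div_add_mod]⟩

lemma flag {n c i : ℕ} (hn : 2 ≤ n) (hN : 2 * n ≤ n * n) (hc : n * n ≤ c) (hi : i < c + n) :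
    ¬hb n c i = pm (n * n) n c i ∧ ¬hb n c i = hb n c (pm (n * n) n c i) ∧
    ¬(c + n ≤ hb n c i ∧ ¬hb n c i = c + n + al (n * n) n c (pm (n * n) n c i)) ∧
    ¬((pm (n * n) n c i < c ∧ c ≤ hb n c i ∧ hb n c i < c + n) ∨
      (c ≤ pm (n * n) n c i ∧ hb n c i < n * n ∧ hb n c i % n = pm (n * n) n c i - c)) := by
  have h1 := hb_s n c i
  have h2 := pm_s (n * n) n c i
  refine ⟨by omega, ?_, ?_, ?_⟩
  · have := hb_s n c (pm (n * n) n c i)
    omega
  · have := al_s (n * n) n c (pm (n * n) n c i)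
    have := (md_s hn (pm (n * n) n c i)).2.1
    have := (md_s hn (pm (n * n) n c i)).2.2.2.2.2
    omega
  · have := (md_s hn (hb n c i)).2.1
    have := (md_s hn (hb n c i)).2.2.1
    have := (md_s hn (hb n c i)).2.2.2.1
    omega

lemma cl_in {n c i : ℕ} (hn : 2 ≤ n) (hN : 2 * n ≤ n * n) (hc : n * n ≤ c)
    (h : (1 ≤ i ∧ i ≤ n * n ∧ i < c) ∨ (i = 0 ∧ c = n * n)) :
    cl (n * n) n c (pm (n * n) n c i) = cl (n * n) n c i := by
  have hr := rt_s (n * n) c
  have h1 := cl_s (n * n) n c i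
  have h2 := cl_s (n * n) n c (pm (n * n) n c i)
  rcases pm_s (n * n) n c i with k | k | k | k | k | k | k | k
  · omega
  · omega
  · have := (md_s hn (pm (n * n) n c i)).2.2.2.2.2
    omega
  · omega
  · have := (md_s hn i).2.1
    omega
  · have := (md_s hn i).2.2.1
    omega
  · have h3 : pm (n * n) n c i % n = i % n := by
      have h4 : i = pm (n * n) n c i + n := by omega
      conv_rhs => rw [h4, Nat.add_mod_right]
    clear hr
    omega
  · omega

lemma cl_out {n c i : ℕ} (hn : 2 ≤ n) (hN : 2 * n ≤ n * n) (hc : n * n ≤ c) (hi : i < c + n)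
    (h : ¬((1 ≤ i ∧ i ≤ n * n ∧ i < c) ∨ (i = 0 ∧ c = n * n))) :
    cl (n * n) n c (pm (n * n) n c i) = i := by
  have hr := rt_s (n * n) c
  have h2 := cl_s (n * n) n c (pm (n * n) n c i)
  rcases pm_s (n * n) n c i with k | k | k | k | k | k | k | k
  · omega
  · have := (md_s hn (pm (n * n) n c i)).2.2.2.2.2
    omega
  · omega
  · have := (md_s hn (pm (n * n) n c i)).2.2.2.2.1
    omega
  · omega
  · omega
  · omega
  · have := (md_s hn (pm (n * n) n c i)).2.2.2.2.1
    omega

lemma cl_inj {n c a b : ℕ} (hn : 2 ≤ n) (hN : 2 * n ≤ n * n) (hc : n * n ≤ c) (ha : a < c + n)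
    (hb : b < c + n) (h1 : cl (n * n) n c a = cl (n * n) n c b)
    (h2 : ps (n * n) n c a = ps (n * n) n c b) : a = b := by
  have key : ∀ i, i < c + n → (c < i ∧ cl (n * n) n c i = i ∧ ps (n * n) n c i = n) ∨
      (i = c ∧ cl (n * n) n c i = rt (n * n) c ∧
        ((c ≠ n * n ∧ ps (n * n) n c i = 0) ∨ (c = n * n ∧ ps (n * n) n c i = n))) ∨
      (i = 0 ∧ c ≠ n * n ∧ cl (n * n) n c i = c) ∨
      (i < c ∧ i % n = 0 ∧ cl (n * n) n c i = rt (n * n) c ∧ ps (n * n) n c i = i / n ∧
        ((c ≠ n * n ∧ 1 ≤ i / n) ∨ (c = n * n ∧ i / n < n))) ∨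
      (i < c ∧ i % n ≠ 0 ∧ cl (n * n) n c i = c + i % n ∧ ps (n * n) n c i = i / n ∧ i / n < n) ∨
      (n * n < i ∧ i + 1 = c ∧ cl (n * n) n c i = 0) ∨
      (n * n < i ∧ i + 1 < c ∧ cl (n * n) n c i = i + 1) := fun i hi => by
    have k1 := ps_s (n * n) n c i
    obtain ⟨d1, -, d3⟩ := dv_s hn i
    rcases cl_s (n * n) n c i with k | k | k | k | k | k | k
    · left
      omega
    · right; left
      omega
    · by_cases h : c = n * n
      · have := rt_s (n * n) c
        have := (md_s hn i).2.1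
        right; right; right; left
        omega
      · right; right; left
        omega
    · right; right; right; left
      omega
    · have := (md_s hn i).2.2.2.2.1
      right; right; right; right; left
      omega
    · right; right; right; right; right; left
      omega
    · right; right; right; right; right; right
      omega
  have hr := rt_s (n * n) c
  have h3 : a / n = b / n → a % n = b % n → a = b := fun h2 h3 => by
    rw [← Nat.div_add_mod a n, h2, h3, Nat.div_add_mod]
  rcases key a ha with k | k | k | k | k | k | k <;>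
    rcases key b hb with l | l | l | l | l | l | l <;> omega

lemma core {n c : ℕ} (hn : 2 ≤ n) (hN : 2 * n ≤ n * n) (hc : n * n ≤ c) :
    Core (Fin (c + n)) n c true (perm (n * n) n c hn hN hc) (SS (n * n) n c) := by
  have e1 : ∀ i, (perm (n * n) n c hn hN hc i).1 = pm (n * n) n c i := fun _ => rfl
  have e2 : ∀ i, ((perm (n * n) n c hn hN hc).symm i).1 = pmi (n * n) n c i := fun _ => rfl
  have ha : ∀ i, i < c + n → al (n * n) n c i < n := fun i hi => by
    have := al_s (n * n) n c i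
    have := (md_s hn i).1
    omega
  refine Core.mk_sets (V := Fin (c + n + n)) (J := {j : Fin (c + n) // n * n ≤ j.1}) true
    (perm (n * n) n c hn hN hc) (SS (n * n) n c) (pt n c) (pt_card n c) false
    (fun i => ⟨i.1, by omega⟩) (fun i => ⟨hb n c i, by have := i.2; have := hb_s n c i; omega⟩)
    (fun i => LA (n * n) n c i) (fun i => LB (n * n) n c i) (n - 1) n 1
    (fun a => ⟨nx n c a.1, by have := a.1.2; have := nx_s n c a.1; omega⟩)
    (fun a => ⟨c + n + al (n * n) n c a.1, by have := ha _ a.1.2; omega⟩)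
    (fun a => ⟨a.1.1, by omega⟩)
    (fun i j h => ?_) (fun i j h => ?_) (fun v => ?_) (fun v => ?_) (fun i => ?_)
    (fun h => absurd h (by decide)) (fun i => card_LA (ha _ i.2)) (fun i => card_LB hn hc i.2)
    (fun i => ?_) (fun i v hv => ?_) (fun i v hv => ?_)
    (fun _ i => ?_) (fun a => ?_) (fun h => absurd h (by decide))
    (fun _ a => ?_) (fun a b h _ => ?_) (fun i => ?_) (fun a => ?_) ?_ (fun u v huv => ?_)
  · exact Fin.ext (by simpa using h)
  · have := i.2
    have := j.2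
    have := hb_s n c i
    have := hb_s n c j
    apply Fin.ext
    simp only [Fin.mk.injEq] at h
    omega
  · have := pt_s n c v
    simp only [ne_eq, Fin.ext_iff, Fin.val_zero]
    constructor
    · intro h
      exact ⟨⟨v.1, by omega⟩, rfl⟩
    · rintro ⟨i, hi⟩
      have := i.2
      omega
  · have := pt_s n c v
    have := v.2
    simp only [ne_eq, Fin.ext_iff, Fin.val_one]
    constructor
    · intro h
      obtain ⟨k, hk, hk2⟩ : ∃ k, k < c + n ∧ hb n c k = v.1 := by
        by_cases h2 : c ≤ v.1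
        · exact ⟨v.1 - n, by omega, by have := hb_s n c (v.1 - n); omega⟩
        by_cases h3 : v.1 = 0
        · exact ⟨c - 1, by omega, by have := hb_s n c (c - 1); omega⟩
        · exact ⟨v.1 - 1, by omega, by have := hb_s n c (v.1 - 1); omega⟩
      exact ⟨⟨k, hk⟩, hk2⟩
    · rintro ⟨i, hi⟩
      have := i.2
      have := hb_s n c i
      omega
  · have := i.2
    have := hb_s n c i
    simp only [ne_eq, Fin.mk.injEq]
    omega
  · refine disjoint_left.2 fun v h1 h2 => ?_
    rw [mem_LA] at h1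
    rw [mem_LB] at h2
    omega
  · have := i.2
    have := hb_s n c i
    have := al_s (n * n) n c i
    have := pt_s n c v
    have h1 := pt_s n c ⟨i.1, by omega⟩
    rw [mem_LA] at hv
    simp only [ne_eq, Fin.ext_iff] at h1 ⊢
    omega
  · have h0 := i.2
    have h2 := hb_s n c i
    have := pt_s n c v
    have h1 := pt_s n c ⟨hb n c i, by omega⟩
    rw [mem_LB] at hv
    simp only [ne_eq, Fin.ext_iff] at h1 ⊢
    omega
  · simp only [ne_eq, Fin.mk.injEq, mem_LA, mem_LB, e1]
    exact flag hn hN hc i.2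
  · have := a.1.2
    have := a.2
    have := nx_s n c a.1
    have := al_s (n * n) n c a.1
    have := al_s (n * n) n c (nx n c a.1)
    have := (md_s hn (nx n c a.1)).2.1
    simp only [mem_LA]
    omega
  · have := a.1.2
    have := a.2
    have := nx_s n c a.1
    have := hb_s n c (nx n c a.1)
    have := pmi_s (n * n) n c (nx n c a.1)
    have := hb_s n c (pmi (n * n) n c (nx n c a.1))
    simp only [ne_eq, Fin.mk.injEq, mem_LA, mem_LB, e2]
    omega
  · have := a.1.2
    have := b.1.2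
    have := nx_s n c a.1
    have := nx_s n c b.1
    apply Subtype.ext
    apply Fin.ext
    simp only [Fin.mk.injEq] at h
    omega
  · have := i.2
    by_cases h : i ∈ SS (n * n) n c
    · rw [if_pos h, filter_eq_empty_iff.2, card_empty]
      intro a _ ha
      rw [mem_SS] at h
      have := a.1.2
      have := a.2
      have := nx_s n c a.1
      have := congrArg Fin.val ha
      simp only at this
      omega
    · rw [if_neg h, add_zero]
      rw [mem_SS] at h
      obtain ⟨k, hk, hk1, hk2⟩ : ∃ k, k < c + n ∧ n * n ≤ k ∧ nx n c k = i.1 := by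
        by_cases h2 : i.1 = c
        · exact ⟨c + n - 1, by omega, by omega, by have := nx_s n c (c + n - 1); omega⟩
        by_cases h3 : i.1 = 0
        · exact ⟨c - 1, by omega, by omega, by have := nx_s n c (c - 1); omega⟩
        · exact ⟨i.1 - 1, by omega, by omega, by have := nx_s n c (i.1 - 1); omega⟩
      refine card_eq_one.2 ⟨⟨⟨k, hk⟩, hk1⟩, ?_⟩
      ext a
      have := a.1.2
      have := nx_s n c a.1
      have := nx_s n c k
      simp only [mem_filter, mem_univ, true_and, mem_singleton, Subtype.ext_iff, Fin.ext_iff]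
      omega
  · have h0 := a.1.2
    have h3 := ha _ a.1.2
    have h1 := pt_s n c ⟨c + n + al (n * n) n c a.1, by omega⟩
    have h2 := pt_s n c ⟨a.1.1, by omega⟩
    simp only [ne_eq, Fin.ext_iff] at h1 h2 ⊢
    omega
  · rw [card_SS (by omega) hc, Fintype.card_fin]
    obtain ⟨m, rfl⟩ : ∃ m, n = m + 1 := ⟨n - 1, by omega⟩
    simp only [Nat.add_sub_cancel, Bool.false_eq_true, if_false]
    ring
  · have := pt_s n c u
    have := pt_s n c v
    have := u.2
    rw [Fin.lt_def] at huv
    simp only [mem_LA, mem_LB, Bool.false_eq_true, false_and, or_false, Fin.ext_iff]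
    by_cases h1 : u.1 < c + n
    · obtain ⟨k, hk, hk2⟩ : ∃ k, k < c ∧ hb n c k = v.1 := by
        by_cases h3 : v.1 = 0
        · exact ⟨c - 1, by omega, by have := hb_s n c (c - 1); omega⟩
        · exact ⟨v.1 - 1, by omega, by have := hb_s n c (v.1 - 1); omega⟩
      refine Or.inl ⟨⟨k, by omega⟩, Or.inr (Or.inr (Or.inr ⟨hk2, Or.inl ?_⟩))⟩
      simp only
      omega
    by_cases h2 : u.1 = c + n + al (n * n) n c v.1
    · by_cases h3 : n * n ≤ v.1
      · exact Or.inr ⟨⟨⟨v.1, by omega⟩, h3⟩, Or.inl ⟨h2.symm, rfl⟩⟩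
      · have := al_s (n * n) n c v.1
        have := hb_s n c (u.1 - n)
        refine Or.inl ⟨⟨u.1 - n, by omega⟩, Or.inr (Or.inr (Or.inl ?_))⟩
        simp only
        omega
    · exact Or.inl ⟨⟨v.1, by omega⟩, Or.inr (Or.inl ⟨rfl, by omega, h2⟩)⟩

end CoreFar

open CoreFar in
/-- FAR: the core for `t ≥ n * n + n`. -/
theorem core_far {t n : ℕ} (hn : 2 ≤ n) (ht : n * n + n ≤ t) :
    ∃ (π : Equiv.Perm (Fin t)) (S : Finset (Fin t)) (cl : Fin t → Fin t),
      Core (Fin t) n (t - n) true π S ∧ S.card = n * n ∧ (∀ i, π i ≠ i) ∧ (∀ i, π (π i) ≠ i) ∧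
      (∀ i ∈ S, cl (π i) = cl i) ∧ (∀ i, i ∉ S → cl (π i) = i) ∧ (∀ i, cl i ∉ S) ∧
      ∀ j, (univ.filter fun i => cl i = j).card ≤ n + 1 := by
  obtain ⟨c, rfl⟩ : ∃ c, t = c + n := ⟨t - n, by omega⟩
  have hN : 2 * n ≤ n * n := Nat.mul_le_mul_right _ hn
  have hc : n * n ≤ c := by omega
  have e1 : ∀ i, (perm (n * n) n c hn hN hc i).1 = pm (n * n) n c i := fun _ => rfl
  have hr := rt_s (n * n) c
  refine ⟨perm (n * n) n c hn hN hc, SS (n * n) n c, fun i => ⟨cl (n * n) n c i, by
      have := i.2; have := cl_s (n * n) n c i; have := (md_s hn i).1; omega⟩,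
    ?_, card_SS (by omega) hc, fun i h => ?_, fun i h => ?_, fun i h => ?_, fun i h => ?_,
    fun i h => ?_, fun j => ?_⟩
  · rw [Nat.add_sub_cancel]
    exact core hn hN hc
  · have := i.2
    have h1 := congrArg Fin.val h
    rw [e1] at h1
    have := pm_s (n * n) n c i
    omega
  · have := i.2
    have h1 := congrArg Fin.val h
    rw [e1, e1] at h1
    have := pm_s (n * n) n c i
    have := pm_s (n * n) n c (pm (n * n) n c i)
    omega
  · exact Fin.ext (cl_in hn hN hc ((mem_SS i).1 h))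
  · exact Fin.ext (cl_out hn hN hc i.2 (mt (mem_SS i).2 h))
  · rw [mem_SS] at h
    have := cl_s (n * n) n c i
    simp only at h
    omega
  · refine (card_le_card_of_injOn (t := range (n + 1)) (fun i => ps (n * n) n c i.1)
      (fun i _ => ?_) fun a ha b hb h => ?_).trans (card_range _).le
    · have := ps_s (n * n) n c i
      have := (dv_s hn i).2.1
      rw [coe_range, Set.mem_Iio]
      beta_reduce
      omega
    · exact Fin.ext (cl_inj hn hN hc a.2 b.2
        (congrArg Fin.val ((mem_filter.1 ha).2.trans (mem_filter.1 hb).2.symm)) h)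

end Pool.Agent.Lib.MP_351560_co
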