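import Mathlib
import Pool.Agent.Lib.MP_351560_co.Ch2Cell

set_option autoImplicit false
set_option linter.unusedVariables false
set_option linter.unusedSectionVars false

namespace Pool.Agent.Lib.MP_351560_co

open Finset

namespace G3

open Ch2

variable {n e : ℕ} [NeZero n] [NeZero e]

/-- bridge cells -/
def BB (n : ℕ) [NeZero n] (R1 R2 : ℕ) : Finset (ZMod n × ZMod n) :=
  univ.filter fun c => idx c.1 c.2 < R1 ∨ n * n - R2 ≤ idx c.1 c.2

lemma mem_BB {R1 R2 : ℕ} {c : ZMod n × ZMod n} :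
    c ∈ BB n R1 R2 ↔ idx c.1 c.2 < R1 ∨ n * n - R2 ≤ idx c.1 c.2 := by
  simp [BB]

/-- the time of a bridge cell -/
def bt (e R1 : ℕ) (c : ZMod n × ZMod n) : ZMod n ⊕ ZMod e :=
  if idx c.1 c.2 < R1 then
    if idx c.1 c.2 < n then .inl (c.1 - 4) else .inr ((idx c.1 c.2 - n : ℕ) : ZMod e)
  else if n * n - n ≤ idx c.1 c.2 then .inl (c.1 - 3) else .inr ((c.1.val - 1 : ℕ) : ZMod e)

lemma diag {k l : ZMod n} {i : ℕ} (h1 : i * n ≤ idx k l) (h2 : idx k l < i * n + n) :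
    l = k + (i : ZMod n) ∧ idx k l = i * n + k.val := by
  have h3 := ZMod.val_lt k
  have h4 : (l - k).val = i := by
    unfold idx at h1 h2
    refine le_antisymm (Nat.lt_succ_iff.1 (Nat.lt_of_mul_lt_mul_right (a := n) ?_))
      (Nat.lt_succ_iff.1 (Nat.lt_of_mul_lt_mul_right (a := n) ?_)) <;> rw [Nat.succ_mul] <;> omega
  refine ⟨?_, by rw [idx, h4]⟩
  rw [← h4, ZMod.natCast_zmod_val]
  ring

lemma idx_inj {c c' : ZMod n × ZMod n} (h : idx c.1 c.2 = idx c'.1 c'.2) : c = c' := by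
  have := congrArg (cell n) h
  rwa [cell_idx, cell_idx] at this

lemma types {R1 R2 : ℕ} (hn : 5 ≤ n) (hR2 : R2 < 2 * n) {c : ZMod n × ZMod n}
    (hc : c ∈ BB n R1 R2) :
    (idx c.1 c.2 < R1 ∧ c.2 = c.1 ∧ bt e R1 c = .inl (c.1 - 4)) ∨
    (idx c.1 c.2 < R1 ∧ n ≤ idx c.1 c.2 ∧ bt e R1 c = .inr ((idx c.1 c.2 - n : ℕ) : ZMod e)) ∨
    (¬ idx c.1 c.2 < R1 ∧ c.2 = c.1 - 1 ∧ bt e R1 c = .inl (c.1 - 3)) ∨
    (¬ idx c.1 c.2 < R1 ∧ c.2 = c.1 - 2 ∧ 1 ≤ c.1.val ∧
      bt e R1 c = .inr ((c.1.val - 1 : ℕ) : ZMod e)) := by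
  have h0 := idx_lt c.1 c.2
  have e1 : (n - 1) * n + n = n * n := by
    obtain ⟨m, rfl⟩ : ∃ m, n = m + 1 := ⟨n - 1, by omega⟩
    rw [Nat.add_sub_cancel]
    ring
  have e2 : (n - 2) * n + 2 * n = n * n := by
    obtain ⟨m, rfl⟩ : ∃ m, n = m + 2 := ⟨n - 2, by omega⟩
    rw [Nat.add_sub_cancel]
    ring
  by_cases h1 : idx c.1 c.2 < R1
  · by_cases h2 : idx c.1 c.2 < n
    · refine Or.inl ⟨h1, ?_, by rw [bt, if_pos h1, if_pos h2]⟩
      simpa using (diag (k := c.1) (l := c.2) (i := 0) (by omega) (by omega)).1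
    · exact Or.inr (Or.inl ⟨h1, by omega, by rw [bt, if_pos h1, if_neg h2]⟩)
  · have h3 := (mem_BB.1 hc).resolve_left h1
    by_cases h2 : n * n - n ≤ idx c.1 c.2
    · refine Or.inr (Or.inr (Or.inl ⟨h1, ?_, by rw [bt, if_neg h1, if_pos h2]⟩))
      rw [(diag (k := c.1) (l := c.2) (i := n - 1) (by omega) (by omega)).1,
        Nat.cast_sub (by omega), ZMod.natCast_self]
      push_cast
      ring
    · obtain ⟨h4, h5⟩ := diag (k := c.1) (l := c.2) (i := n - 2) (by omega) (by omega)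
      refine Or.inr (Or.inr (Or.inr ⟨h1, ?_, by omega, by rw [bt, if_neg h1, if_neg h2]⟩))
      rw [h4, Nat.cast_sub (by omega), ZMod.natCast_self]
      push_cast
      ring

lemma cast_inj {a b : ℕ} (ha : a < e) (hb : b < e) (h : (a : ZMod e) = b) : a = b := by
  rw [← ZMod.val_cast_of_lt ha, h, ZMod.val_cast_of_lt hb]

lemma small (hn : 5 ≤ n) : (1 : ZMod n) ≠ 0 ∧ (2 : ZMod n) ≠ 0 ∧ (3 : ZMod n) ≠ 0 ∧
    (4 : ZMod n) ≠ 0 :=
  ⟨by simpa using cast_ne (n := n) (j := 1) (by omega) (by omega),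
    by simpa using cast_ne (n := n) (j := 2) (by omega) (by omega),
    by simpa using cast_ne (n := n) (j := 3) (by omega) (by omega),
    by simpa using cast_ne (n := n) (j := 4) (by omega) (by omega)⟩

lemma bt_inl {R1 R2 : ℕ} (hn : 5 ≤ n) (hR2 : R2 < 2 * n) {c : ZMod n × ZMod n}
    (hc : c ∈ BB n R1 R2) {j : ZMod n} (h : bt e R1 c = .inl j) :
    c.1 ≠ j ∧ c.1 ≠ j + 1 ∧ c.2 ≠ j ∧ c.2 ≠ j + 1 := by
  obtain ⟨s1, s2, s3, s4⟩ := small (n := n) hn
  rcases types (e := e) hn hR2 hc with ⟨-, a, b⟩ | ⟨-, -, b⟩ | ⟨-, a, b⟩ | ⟨-, -, -, b⟩ <;>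
    rw [b] at h
  · obtain rfl := Sum.inl.inj h
    rw [a]
    exact ⟨fun h => s4 (by linear_combination h), fun h => s3 (by linear_combination h),
      fun h => s4 (by linear_combination h), fun h => s3 (by linear_combination h)⟩
  · cases h
  · obtain rfl := Sum.inl.inj h
    rw [a]
    exact ⟨fun h => s3 (by linear_combination h), fun h => s2 (by linear_combination h),
      fun h => s2 (by linear_combination h), fun h => s1 (by linear_combination h)⟩
  · cases h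

lemma bt_same {R1 R2 : ℕ} (hn : 5 ≤ n) (he : n ≤ e + 1) (hR1 : R1 ≤ n + e) (hR2 : R2 < 2 * n)
    {c c' : ZMod n × ZMod n} (hc : c ∈ BB n R1 R2) (hc' : c' ∈ BB n R1 R2)
    (h : bt e R1 c = bt e R1 c')
    (h' : (idx c.1 c.2 < R1 ↔ idx c'.1 c'.2 < R1) ∨ c.1 = c'.1 ∨ c.2 = c'.2) : c = c' := by
  obtain ⟨s1, s2, s3, s4⟩ := small (n := n) hn
  have key : ∀ c c' : ZMod n × ZMod n, idx c.1 c.2 < R1 → n ≤ idx c.1 c.2 → c'.2 = c'.1 - 2 →
      1 ≤ c'.1.val → ((idx c.1 c.2 - n : ℕ) : ZMod e) = (c'.1.val - 1 : ℕ) →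
      c.1 ≠ c'.1 ∧ c.2 ≠ c'.2 := by
    intro c c' a1 a2 b1 b2 h
    have h1 := ZMod.val_lt c'.1
    have h2 := cast_inj (by omega) (by omega) h
    obtain ⟨h3, h4⟩ := diag (k := c.1) (l := c.2) (i := 1) (by omega) (by omega)
    have h5 : c'.1 = c.1 + 1 := by
      rw [← ZMod.natCast_zmod_val c'.1, show c'.1.val = c.1.val + 1 by omega]
      simp
    rw [b1, h3, h5]
    exact ⟨fun h => s1 (by linear_combination -h), fun h => s2 (by
      push_cast at h
      linear_combination h)⟩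
  rcases types (e := e) hn hR2 hc with ⟨a0, a, b⟩ | ⟨a0, a, b⟩ | ⟨a0, a, b⟩ | ⟨a0, a, a', b⟩ <;>
    rcases types (e := e) hn hR2 hc' with ⟨c0, c1, d⟩ | ⟨c0, c1, d⟩ | ⟨c0, c1, d⟩ |
      ⟨c0, c1, c2, d⟩ <;> rw [b, d] at h <;> try cases h
  · have := sub_left_inj.1 (Sum.inl.inj h)
    exact Prod.ext this (by rw [a, c1, this])
  · have h1 := Sum.inl.inj h
    rcases h' with h' | h' | h'
    · exact absurd (h'.1 a0) c0
    · exact absurd (by linear_combination h' - h1) s1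
    · exact absurd (by linear_combination h' - h1 - a + c1) s2
  · exact idx_inj (by have := cast_inj (by omega) (by omega) (Sum.inr.inj h); omega)
  · obtain ⟨k1, k2⟩ := key c c' a0 a c1 c2 (Sum.inr.inj h)
    rcases h' with h' | h' | h'
    · exact absurd (h'.1 a0) c0
    · exact absurd h' k1
    · exact absurd h' k2
  · have h1 := Sum.inl.inj h
    rcases h' with h' | h' | h'
    · exact absurd (h'.2 c0) a0
    · exact absurd (by linear_combination h1 - h') s1
    · exact absurd (by linear_combination h1 - h' + a - c1) s2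
  · have := sub_left_inj.1 (Sum.inl.inj h)
    exact Prod.ext this (by rw [a, c1, this])
  · obtain ⟨k1, k2⟩ := key c' c c0 c1 a a' (Sum.inr.inj h).symm
    rcases h' with h' | h' | h'
    · exact absurd (h'.2 c0) a0
    · exact absurd h'.symm k1
    · exact absurd h'.symm k2
  · have h1 := ZMod.val_lt c.1
    have h2 := ZMod.val_lt c'.1
    have h3 := cast_inj (by omega) (by omega) (Sum.inr.inj h)
    have : c.1 = c'.1 := ZMod.val_injective n (by omega)
    exact Prod.ext this (by rw [a, c1, this])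

lemma bt_count {k R1 R2 : ℕ} (hn : 5 ≤ n) (he : n ≤ e + 1)
    (hk : k = 0 ∧ R1 ≤ n + e ∧ R2 = 0 ∨ k = 1 ∧ R1 = n + e ∧ R2 < 2 * n) (hR : R1 ≤ n * n)
    (κ : ZMod n ⊕ ZMod e) : k ≤ ((BB n R1 R2).filter fun c => bt e R1 c = κ).card ∧
      ((BB n R1 R2).filter fun c => bt e R1 c = κ).card ≤ k + 1 := by
  rcases hk with ⟨rfl, h1, rfl⟩ | ⟨rfl, h1, h2⟩
  · refine ⟨Nat.zero_le _, card_le_one.2 fun c hc c' hc' => ?_⟩
    obtain ⟨a1, a2⟩ := mem_filter.1 hc
    obtain ⟨b1, b2⟩ := mem_filter.1 hc'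
    have a3 := mem_BB.1 a1
    have b3 := mem_BB.1 b1
    have a4 := idx_lt c.1 c.2
    have b4 := idx_lt c'.1 c'.2
    exact bt_same hn he h1 (by omega) a1 b1 (a2.trans b2.symm) (Or.inl (by omega))
  · constructor
    · refine card_pos.2 ?_
      rcases κ with j | j
      · have h3 : idx (j + 4) (j + 4) < n := by simpa [idx] using ZMod.val_lt (j + 4)
        refine ⟨(j + 4, j + 4), mem_filter.2 ⟨mem_BB.2 (Or.inl (by dsimp only; omega)), ?_⟩⟩
        rw [bt, if_pos (by dsimp only; omega), if_pos h3]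
        simp
      · have h3 := ZMod.val_lt j
        have h4 := idx_cell (n := n) (m := n + j.val) (by omega)
        refine ⟨cell n (n + j.val), mem_filter.2 ⟨mem_BB.2 (Or.inl (by omega)), ?_⟩⟩
        rw [bt, h4, if_pos (by omega), if_neg (by omega)]
        simp
    · refine le_trans (card_le_card_of_injOn (t := (univ : Finset Bool))
        (fun c => decide (idx c.1 c.2 < R1)) (fun _ _ => mem_coe.2 (mem_univ _))
        fun c hc c' hc' h => ?_) (by simp)
      obtain ⟨a1, a2⟩ := mem_filter.1 (mem_coe.1 hc)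
      obtain ⟨b1, b2⟩ := mem_filter.1 (mem_coe.1 hc')
      exact bt_same hn he h1.le h2 a1 b1 (a2.trans b2.symm) (Or.inl (decide_eq_decide.1 h))

lemma card_BB {R1 R2 : ℕ} (h : R1 + R2 ≤ n * n) : (BB n R1 R2).card = R1 + R2 := by
  have h1 := card_cells (n := n) (a := R1) (b := n * n - R2) (by omega)
  have h2 := card_filter_add_card_filter_not (s := (univ : Finset (ZMod n × ZMod n)))
    (fun c => R1 ≤ idx c.1 c.2 ∧ idx c.1 c.2 < n * n - R2)
  rw [h1, card_univ, Fintype.card_prod, ZMod.card] at h2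
  have h3 : BB n R1 R2 = univ.filter fun c : ZMod n × ZMod n =>
      ¬ (R1 ≤ idx c.1 c.2 ∧ idx c.1 c.2 < n * n - R2) := filter_congr fun c _ => by omega
  rw [h3]
  omega

lemma row_BB {R1 R2 : ℕ} (h : R1 + R2 ≤ n * n) (y : ZMod n) :
    ((BB n R1 R2).filter fun c => c.1 = y).card ≤ cdiv R1 n + cdiv R2 n := by
  have h1 := (row_card (n := n) (a := 0) (L := R1) (by omega) y).2
  have h2 := (row_card (n := n) (a := n * n - R2) (L := R2) (by omega) y).2
  refine le_trans ?_ ((card_union_le _ _).trans (add_le_add h1 h2))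
  refine card_le_card_of_injOn (fun c => c.2) (fun c hc => ?_) fun c hc c' hc' h => ?_
  · obtain ⟨a1, rfl⟩ := mem_filter.1 (mem_coe.1 hc)
    have a2 := mem_BB.1 a1
    have a3 := idx_lt c.1 c.2
    simp only [coe_union, coe_filter, mem_univ, true_and, Set.mem_union, Set.mem_setOf_eq]
    omega
  · exact Prod.ext ((mem_filter.1 (mem_coe.1 hc)).2.trans (mem_filter.1 (mem_coe.1 hc')).2.symm) h

lemma col_BB {R1 R2 : ℕ} (h : R1 + R2 ≤ n * n) (y : ZMod n) :
    ((BB n R1 R2).filter fun c => c.2 = y).card ≤ cdiv R1 n + cdiv R2 n := by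
  have h0 : 0 < n := Nat.pos_of_ne_zero (NeZero.ne n)
  have h1 := (col_card (n := n) (a := 0) (b := R1) (by omega) y).2
  have h2 := (col_card (n := n) (a := n * n - R2) (b := n * n) le_rfl y).2
  have h3 : cdiv (n * n) n - (n * n - R2) / n ≤ cdiv R2 n := by
    have h4 : cdiv (n * n) n ≤ n := by
      rw [cdiv, Nat.div_le_iff_le_mul_add_pred h0]
      omega
    have h5 : R2 ≤ cdiv R2 n * n := by
      have h6 := Nat.div_add_mod' (R2 + n - 1) n
      have h7 := Nat.mod_lt (R2 + n - 1) h0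
      unfold cdiv
      omega
    have h8 : n - cdiv R2 n ≤ (n * n - R2) / n := by
      rw [Nat.le_div_iff_mul_le h0, Nat.sub_mul]
      omega
    omega
  rw [Nat.zero_div, Nat.sub_zero] at h1
  refine le_trans ?_ ((card_union_le _ _).trans (add_le_add h1 (h2.trans h3)))
  refine card_le_card_of_injOn (fun c => c.1) (fun c hc => ?_) fun c hc c' hc' h => ?_
  · obtain ⟨a1, rfl⟩ := mem_filter.1 (mem_coe.1 hc)
    have a2 := mem_BB.1 a1
    have a3 := idx_lt c.1 c.2
    simp only [coe_union, coe_filter, mem_univ, true_and, Set.mem_union, Set.mem_setOf_eq]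
    omega
  · exact Prod.ext h ((mem_filter.1 (mem_coe.1 hc)).2.trans (mem_filter.1 (mem_coe.1 hc')).2.symm)

end G3

end Pool.Agent.Lib.MP_351560_co
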