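import Mathlib
import Pool.Agent.Lib.MP_351560_co.L2Def
import Pool.Agent.Lib.MP_351560_co.Orient91

set_option autoImplicit false
set_option linter.unusedVariables false

namespace Pool.Agent.Lib.MP_351560_co

open Finset

namespace G3

/-- a 0/1 matrix with prescribed line sums avoiding forbidden cells -/
lemma pick {X Y : Type} [Fintype X] [Fintype Y] [DecidableEq X] [DecidableEq Y]
    (F : X → Finset Y) (a : X → ℕ) (c : Y → ℕ) (htot : ∑ x, a x = ∑ y, c y) (a0 b0 s0 r0 : ℕ)
    (ha : ∀ x, a0 ≤ a x)
    (hb : ∀ y, b0 + c y + (univ.filter fun x => y ∈ F x).card ≤ Fintype.card X)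
    (hs : ∀ x, a x + s0 + (F x).card ≤ Fintype.card Y) (hr : ∀ y, r0 ≤ c y)
    (hw : Win (Fintype.card X) (Fintype.card Y) a0 b0 s0 r0) :
    ∃ m : X → Finset Y, (∀ x, ∀ y ∈ m x, y ∉ F x) ∧ (∀ x, (m x).card = a x) ∧
      ∀ y, (univ.filter fun x => y ∈ m x).card = c y := by
  have d1 : ∀ y, (univ.filter fun x => y ∉ F x).card + (univ.filter fun x => y ∈ F x).card
      = Fintype.card X := fun y => by
    rw [add_comm, card_filter_add_card_filter_not, card_univ]
  have d2 : ∀ x, (univ.filter fun y => y ∉ F x).card + (F x).card = Fintype.card Y := fun x => by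
    have := card_filter_add_card_filter_not (s := (univ : Finset Y)) (fun y => y ∈ F x)
    rw [filter_mem_eq_inter, univ_inter, card_univ] at this
    omega
  have d3 : ∀ y, (univ.filter fun x => y ∉ F x).card - c y + c y
      = (univ.filter fun x => y ∉ F x).card := fun y => by
    have := d1 y
    have := hb y
    omega
  obtain ⟨f, f1, f2⟩ := orient91 (fun x y => y ∉ F x) a
    (fun y => (univ.filter fun x => y ∉ F x).card - c y) (by
      rw [htot, add_comm, ← sum_add_distrib, sum_congr rfl fun y _ => d3 y]
      simp only [card_filter]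
      exact sum_comm) a0 b0 s0 r0 ha
    (fun y => by have := d1 y; have := hb y; omega)
    (fun x => by have := d2 x; have := hs x; omega)
    (fun y => by have := d3 y; have := hr y; omega) hw
  refine ⟨fun x => univ.filter fun y => y ∉ F x ∧ f x y = true,
    fun x y hy => (mem_filter.1 hy).2.1, f1, fun y => ?_⟩
  have h1 := card_filter_add_card_filter_not (s := univ.filter fun x => y ∉ F x)
    (fun x => f x y = true)
  rw [filter_filter, filter_filter] at h1
  have h2 := f2 y
  have h3 := d3 y
  simp only [Bool.not_eq_true] at h1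
  simp only [mem_filter, mem_univ, true_and]
  omega

/-- the third part -/
abbrev CC (n e : ℕ) := ZMod n ⊕ ZMod n ⊕ ZMod e

variable {n e : ℕ} [NeZero n] [NeZero e]

/-- forced cells -/
def base : CC n e → Finset (ZMod n)
  | .inl j => {j, j + 1}
  | .inr (.inl j) => {j, j + 1}
  | .inr (.inr _) => ∅

/-- number of free misses -/
def dem (u : ℕ) : CC n e → ℕ
  | .inl _ => u - 1
  | .inr (.inl _) => u - 1
  | .inr (.inr _) => u

lemma card_CC : Fintype.card (CC n e) = 2 * n + e := by
  simp only [Fintype.card_sum, ZMod.card]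
  omega

lemma base_col (y : ZMod n) : (univ.filter fun v : CC n e => y ∈ base v).card ≤ 4 := by
  refine (card_le_card (t := {.inl y, .inl (y - 1), .inr (.inl y), .inr (.inl (y - 1))}) ?_).trans
    card_le_four
  rintro (j | j | j) hj <;> simp only [mem_filter, mem_univ, true_and, base, mem_insert,
    mem_singleton, notMem_empty] at hj
  · rcases hj with rfl | rfl <;> simp
  · rcases hj with rfl | rfl <;> simp

lemma side {t k u d lo hi g : ℕ} (ht : t = 3 * n + e) (h : G3Side t n k u d lo hi g)
    (st : ZMod n → ℕ) (h1 : ∀ y, lo ≤ st y) (h2 : ∀ y, st y ≤ hi)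
    (hsum : ∑ y, st y + 2 * n * (u - 1) + e * u = n * (d - 1)) (br : CC n e → Finset (ZMod n))
    (hb : ∀ v, (br v).card ≤ k + 1) (hc : ∀ y, (univ.filter fun v => y ∈ br v).card ≤ g) :
    ∃ m : CC n e → Finset (ZMod n), (∀ v, ∀ y ∈ m v, y ∉ base v ∧ y ∉ br v) ∧
      (∀ v, (m v).card = dem u v) ∧ ∀ y, (univ.filter fun v => y ∈ m v).card + st y + 1 = d := by
  obtain ⟨a1, a2, a3, a4⟩ := h
  have e1 : t - 3 * n = e := by omega
  have e2 : t - n = 2 * n + e := by omega
  have hc' : ∑ y : ZMod n, (d - 1 - st y) = 2 * n * (u - 1) + e * u := by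
    have : ∑ y : ZMod n, (d - 1 - st y + st y) = n * (d - 1) := by
      rw [sum_congr rfl (g := fun _ => d - 1) (fun y _ => by have := h2 y; omega)]
      simp
    rw [sum_add_distrib] at this
    omega
  split_ifs at a4 with hu
  · subst hu
    rw [e1] at a4
    obtain ⟨m, m1, m2, m3⟩ := pick (X := ZMod e) (fun j => br (.inr (.inr j))) (fun _ => 1)
      (fun y => d - 1 - st y) (by rw [hc']; simp) 1 (e - g - (d - 1 - lo)) (n - 2 - k) (d - 1 - hi)
      (fun _ => le_rfl) (fun y => by
        have b1 : (univ.filter fun j : ZMod e => y ∈ br (.inr (.inr j))).card ≤ g := by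
          refine le_trans ?_ (hc y)
          exact card_le_card_of_injOn (fun j => .inr (.inr j))
            (fun j hj => by simpa using hj) (fun i _ j _ h => by simpa using h)
        have := h1 y
        have := a4.1
        rw [ZMod.card]
        omega) (fun j => by have := hb (.inr (.inr j)); rw [ZMod.card]; omega)
      (fun y => by have := h2 y; omega) (by rw [ZMod.card, ZMod.card]; exact a4.2)
    refine ⟨Sum.elim (fun _ => ∅) (Sum.elim (fun _ => ∅) m), ?_, ?_, fun y => ?_⟩
    · rintro (j | j | j) y hy
      · simp at hy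
      · simp at hy
      · exact ⟨notMem_empty _, m1 j y hy⟩
    · rintro (j | j | j)
      · rfl
      · rfl
      · exact m2 j
    · have b1 := m3 y
      have b2 := h2 y
      have b3 : (univ.filter fun v : CC n e =>
          y ∈ Sum.elim (fun _ => ∅) (Sum.elim (fun _ => ∅) m) v).card
          = (univ.filter fun j => y ∈ m j).card := by
        rw [card_filter, card_filter, Fintype.sum_sum_type, Fintype.sum_sum_type]
        simp only [Sum.elim_inl, Sum.elim_inr, notMem_empty, if_false, sum_const_zero, zero_add]
        exact sum_congr rfl fun _ _ => by congr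
      omega
  · rw [e2] at a4
    obtain ⟨m, m1, m2, m3⟩ := pick (X := CC n e) (fun v => base v ∪ br v) (dem u)
      (fun y => d - 1 - st y) (by
        rw [hc']
        simp only [Fintype.sum_sum_type, dem, sum_const, card_univ, ZMod.card, smul_eq_mul]
        ring) (u - 1) (2 * n + e - 4 - g - (d - 1 - lo)) (n - 2 - k - u) (d - 1 - hi)
      (by rintro (j | j | j) <;> simp [dem]) (fun y => by
        have b1 : (univ.filter fun v : CC n e => y ∈ base v ∪ br v).card ≤ 4 + g := by
          simp only [mem_union, filter_or]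
          exact (card_union_le _ _).trans (add_le_add (base_col y) (hc y))
        have := h1 y
        have := a4.1
        rw [card_CC]
        omega) (fun v => by
        have b1 := hb v
        have b2 := card_union_le (base v) (br v)
        rw [ZMod.card]
        rcases v with j | j | j
        · have : (base (.inl j : CC n e)).card ≤ 2 := card_le_two
          simp only [dem]
          omega
        · have : (base (.inr (.inl j) : CC n e)).card ≤ 2 := card_le_two
          simp only [dem]
          omega
        · have : (base (.inr (.inr j) : CC n e)).card = 0 := rfl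
          simp only [dem]
          omega)
      (fun y => by have := h2 y; omega) (by rw [card_CC, ZMod.card]; exact a4.2)
    refine ⟨m, fun v y hy => ?_, m2, fun y => ?_⟩
    · simpa [not_or] using m1 v y hy
    · have b1 := m3 y
      have b2 := h2 y
      omega

/-- forbidden bridge ends -/
lemma ends {K : Type} [DecidableEq K] {k g : ℕ} (B : Finset (ZMod n × ZMod n))
    (bt : ZMod n × ZMod n → K) (vv : K → CC n e) (hv : Function.Injective vv)
    (pr : ZMod n × ZMod n → ZMod n) (h1 : ∀ κ, (B.filter fun c => bt c = κ).card ≤ k + 1)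
    (h2 : ∀ y, (B.filter fun c => pr c = y).card ≤ g) :
    ∃ br : CC n e → Finset (ZMod n), (∀ c ∈ B, pr c ∈ br (vv (bt c))) ∧
      (∀ v, (br v).card ≤ k + 1) ∧ ∀ y, (univ.filter fun v => y ∈ br v).card ≤ g := by
  refine ⟨fun v => (B.filter fun c => vv (bt c) = v).image pr,
    fun c hc => mem_image_of_mem _ (mem_filter.2 ⟨hc, rfl⟩), fun v => card_image_le.trans ?_,
    fun y => le_trans ?_ (h2 y)⟩
  · by_cases h : ∃ κ, vv κ = v
    · obtain ⟨κ, rfl⟩ := h
      simpa only [hv.eq_iff] using h1 κ
    · rw [filter_false_of_mem fun c _ h' => h ⟨_, h'⟩]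
      simp
  · refine le_trans (card_le_card ?_) (card_image_le (f := fun c => vv (bt c)))
    intro v hv
    obtain ⟨c, c1, c2⟩ := mem_image.1 (mem_filter.1 hv).2
    exact mem_image.2 ⟨c, mem_filter.2 ⟨(mem_filter.1 c1).1, c2⟩, (mem_filter.1 c1).2⟩

end G3

end Pool.Agent.Lib.MP_351560_co
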