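import Mathlib
import Pool.Agent.Lib.MP_351560_co.CoreMk
import Pool.Agent.Lib.MP_351560_co.G3Side
import Pool.Agent.Lib.MP_351560_co.G3Br

set_option autoImplicit false
set_option linter.unusedVariables false
set_option linter.unusedSectionVars false
set_option linter.unusedSimpArgs false

namespace Pool.Agent.Lib.MP_351560_co

open Finset

namespace G3

open Ch2

variable {n e : ℕ} [NeZero n] [NeZero e]

/-- vertices -/
abbrev VV (n e : ℕ) := ZMod n ⊕ ZMod n ⊕ CC n e

/-- times -/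
abbrev TT (n e : ℕ) := ZMod n ⊕ ZMod n ⊕ ZMod n ⊕ ZMod e

/-- parts -/
def pp : VV n e → Fin 3
  | .inl _ => 0
  | .inr (.inl _) => 1
  | .inr (.inr _) => 2

/-- first hub at a time with both hubs in the third part -/
def vA : ZMod n ⊕ ZMod e → CC n e
  | .inl j => .inl j
  | .inr j => .inr (.inr j)

/-- second hub at a time with both hubs in the third part -/
def vB : ZMod n ⊕ ZMod e → CC n e
  | .inl j => .inr (.inl j)
  | .inr j => .inr (.inr (j + 1))

/-- first hub -/
def hA : TT n e → VV n e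
  | .inl l => .inr (.inl l)
  | .inr (.inl k) => .inr (.inr (.inr (.inl k)))
  | .inr (.inr κ) => .inr (.inr (vA κ))

/-- second hub -/
def hB : TT n e → VV n e
  | .inl l => .inr (.inr (.inl l))
  | .inr (.inl k) => .inl k
  | .inr (.inr κ) => .inr (.inr (vB κ))

/-- leaves of the first hub -/
def la (Ac : ZMod n → ZMod n → Prop) (mA mB : CC n e → Finset (ZMod n)) : TT n e → VV n e → Prop
  | .inl l, .inl j => Ac j l
  | .inl _, .inr (.inl _) => False
  | .inl l, .inr (.inr v) => v = .inr (.inl l) ∨ l ∈ mB v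
  | .inr (.inl k), .inl j => j ≠ k ∧ j ∉ mA (.inr (.inl k))
  | .inr (.inl _), .inr _ => False
  | .inr (.inr κ), .inl j => j ∉ base (vA κ) ∧ j ∉ mA (vA κ)
  | .inr (.inr κ), .inr (.inl j) => κ = .inl j
  | .inr (.inr _), .inr (.inr _) => False

/-- leaves of the second hub -/
def lb (Bc : ZMod n → ZMod n → Prop) (mA mB : CC n e → Finset (ZMod n)) : TT n e → VV n e → Prop
  | .inl _, .inl _ => False
  | .inl l, .inr (.inl j) => j ≠ l ∧ j ∉ mB (.inl l)
  | .inl _, .inr (.inr _) => False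
  | .inr (.inl _), .inl _ => False
  | .inr (.inl k), .inr (.inl j) => Bc k j
  | .inr (.inl k), .inr (.inr v) => v = .inl k ∨ k ∈ mA v
  | .inr (.inr κ), .inl j => κ = .inl j
  | .inr (.inr κ), .inr (.inl j) => j ∉ base (vB κ) ∧ j ∉ mB (vB κ)
  | .inr (.inr _), .inr (.inr _) => False

lemma vA_inj : Function.Injective (vA : ZMod n ⊕ ZMod e → CC n e) := by
  rintro (i | i) (j | j) h <;> simp_all [vA]

lemma vB_inj : Function.Injective (vB : ZMod n ⊕ ZMod e → CC n e) := by
  rintro (i | i) (j | j) h <;> simp_all [vB]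

lemma hA_inj : Function.Injective (hA : TT n e → VV n e) := by
  rintro (i | i | i | i) (j | j | j | j) h <;> simp_all [hA, vA]

lemma hB_inj : Function.Injective (hB : TT n e → VV n e) := by
  rintro (i | i | i | i) (j | j | j | j) h <;> simp_all [hB, vB]

lemma card3 {α β γ : Type} [Fintype α] [Fintype β] [Fintype γ] (q : α ⊕ β ⊕ γ → Prop)
    [DecidablePred q] (s₁ : Finset α) (s₂ : Finset β) (s₃ : Finset γ)
    (h1 : ∀ a, q (.inl a) ↔ a ∈ s₁) (h2 : ∀ a, q (.inr (.inl a)) ↔ a ∈ s₂)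
    (h3 : ∀ a, q (.inr (.inr a)) ↔ a ∈ s₃) :
    (univ.filter q).card = s₁.card + s₂.card + s₃.card := by
  rw [add_assoc, ← card_disjSum, ← card_disjSum]
  congr 1
  ext (a | a | a) <;> simp [h1, h2, h3]

lemma card_out (s m : Finset (ZMod n)) (h : ∀ y ∈ m, y ∉ s) :
    (univ \ (s ∪ m)).card + s.card + m.card = n := by
  rw [card_univ_diff, add_assoc, ← card_union_of_disjoint (disjoint_right.2 h),
    Nat.sub_add_cancel (card_le_univ _), ZMod.card]

lemma card_ins (m : CC n e → Finset (ZMod n)) (v : CC n e) (y : ZMod n) (h : y ∉ m v) :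
    (insert v (univ.filter fun v => y ∈ m v)).card = (univ.filter fun v => y ∈ m v).card + 1 :=
  card_insert_of_notMem fun h' => h (mem_filter.1 h').2

open Classical in
lemma card_la {u : ℕ} (hn : 5 ≤ n) (hu : 1 ≤ u) (Ac : ZMod n → ZMod n → Prop)
    (al : ZMod n → Finset (ZMod n)) (hal : ∀ j l, Ac j l ↔ j ∈ al l)
    (mA mB : CC n e → Finset (ZMod n)) (a1 : ∀ v, ∀ y ∈ mA v, y ∉ base v)
    (a2 : ∀ v, (mA v).card = dem u v) (b1 : ∀ v, ∀ y ∈ mB v, y ∉ base v)
    (b3 : ∀ y, (univ.filter fun v => y ∈ mB v).card + (al y).card + 1 = n - u) (i : TT n e) :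
    (univ.filter (la Ac mA mB i)).card = n - u := by
  have s1 : ∀ j : ZMod n, ({j, j + 1} : Finset (ZMod n)).card = 2 := fun j =>
    card_pair fun h => (small hn).1 (by linear_combination -h)
  rcases i with l | k | j | j
  · rw [card3 _ (al l) ∅ (insert (.inr (.inl l)) (univ.filter fun v => l ∈ mB v))
      (fun a => hal a l) (by simp [la]) (by simp [la]),
      card_ins _ _ _ fun h => b1 _ _ h (by simp [base]), ← b3 l, card_empty]
    omega
  · rw [card3 _ (univ \ ({k} ∪ mA (.inr (.inl k)))) ∅ ∅ (by simp [la]) (by simp [la])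
      (by simp [la])]
    have h1 := card_out {k} (mA (.inr (.inl k))) fun y hy h => a1 _ y hy (by
      simp [base, mem_singleton.1 h])
    rw [a2, card_singleton] at h1
    simp only [dem, card_empty] at h1 ⊢
    omega
  · rw [card3 _ (univ \ (base (.inl j : CC n e) ∪ mA (.inl j))) {j} ∅ (by simp [la, vA])
      (by simp [la, eq_comm]) (by simp [la])]
    have h1 := card_out _ _ (a1 (.inl j))
    rw [a2] at h1
    simp only [dem, card_empty, base, s1, card_singleton] at h1 ⊢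
    omega
  · rw [card3 _ (univ \ (base (.inr (.inr j) : CC n e) ∪ mA (.inr (.inr j)))) ∅ ∅
      (by simp [la, vA]) (by simp [la]) (by simp [la])]
    have h1 := card_out _ _ (a1 (.inr (.inr j)))
    rw [a2] at h1
    simp only [dem, card_empty, base] at h1 ⊢
    omega

open Classical in
lemma card_lb {w : ℕ} (hn : 5 ≤ n) (hu : 1 ≤ w) (Bc : ZMod n → ZMod n → Prop)
    (be : ZMod n → Finset (ZMod n)) (hbe : ∀ k j, Bc k j ↔ j ∈ be k)
    (mA mB : CC n e → Finset (ZMod n)) (a1 : ∀ v, ∀ y ∈ mA v, y ∉ base v)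
    (b1 : ∀ v, ∀ y ∈ mB v, y ∉ base v) (b2 : ∀ v, (mB v).card = dem w v)
    (a3 : ∀ y, (univ.filter fun v => y ∈ mA v).card + (be y).card + 1 = n - w) (i : TT n e) :
    (univ.filter (lb Bc mA mB i)).card = n - w := by
  have s1 : ∀ j : ZMod n, ({j, j + 1} : Finset (ZMod n)).card = 2 := fun j =>
    card_pair fun h => (small hn).1 (by linear_combination -h)
  rcases i with l | k | j | j
  · rw [card3 _ ∅ (univ \ ({l} ∪ mB (.inl l))) ∅ (by simp [lb]) (by simp [lb]) (by simp [lb])]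
    have h1 := card_out {l} (mB (.inl l)) fun y hy h => b1 _ y hy (by
      simp [base, mem_singleton.1 h])
    rw [b2, card_singleton] at h1
    simp only [dem, card_empty] at h1 ⊢
    omega
  · rw [card3 _ ∅ (be k) (insert (.inl k) (univ.filter fun v => k ∈ mA v))
      (by simp [lb]) (fun a => hbe k a) (by simp [lb]),
      card_ins _ _ _ fun h => a1 _ _ h (by simp [base]), ← a3 k, card_empty]
    omega
  · rw [card3 _ {j} (univ \ (base (.inr (.inl j) : CC n e) ∪ mB (.inr (.inl j)))) ∅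
      (by simp [lb, eq_comm]) (by simp [lb, vB]) (by simp [lb])]
    have h1 := card_out _ _ (b1 (.inr (.inl j)))
    rw [b2] at h1
    simp only [dem, card_empty, base, s1, card_singleton] at h1 ⊢
    omega
  · rw [card3 _ ∅ (univ \ (base (.inr (.inr (j + 1)) : CC n e) ∪ mB (.inr (.inr (j + 1))))) ∅
      (by simp [lb]) (by simp [lb, vB]) (by simp [lb])]
    have h1 := card_out _ _ (b1 (.inr (.inr (j + 1))))
    rw [b2] at h1
    simp only [dem, card_empty, base] at h1 ⊢
    omega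

/-- times of the bridges -/
def jt {B : Finset (ZMod n × ZMod n)} (bt : ZMod n × ZMod n → ZMod n ⊕ ZMod e) :
    B ⊕ ZMod n ⊕ ZMod n → TT n e
  | .inl c => .inr (.inr (bt c))
  | .inr (.inl k) => .inl k
  | .inr (.inr k) => .inr (.inl k)

/-- first ends of the bridges -/
def jx (e : ℕ) {B : Finset (ZMod n × ZMod n)} : B ⊕ ZMod n ⊕ ZMod n → VV n e
  | .inl c => .inl c.1.1
  | .inr (.inl k) => .inr (.inr (.inr (.inl k)))
  | .inr (.inr k) => .inl (k + 1)

/-- second ends of the bridges -/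
def jy (e : ℕ) {B : Finset (ZMod n × ZMod n)} : B ⊕ ZMod n ⊕ ZMod n → VV n e
  | .inl c => .inr (.inl c.1.2)
  | .inr (.inl k) => .inr (.inl (k + 1))
  | .inr (.inr k) => .inr (.inr (.inl k))

lemma assemble {k u w s : ℕ} (hn : 5 ≤ n) (he : 2 ≤ e) (hk : k ≤ 1) (hu : 1 ≤ u) (hw : 1 ≤ w)
    (B : Finset (ZMod n × ZMod n)) (bt : ZMod n × ZMod n → ZMod n ⊕ ZMod e)
    (al be : ZMod n → Finset (ZMod n)) (mA mB : CC n e → Finset (ZMod n))
    (hcell : ∀ a b, (a, b) ∈ B ∨ a ∈ al b ∨ b ∈ be a)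
    (t1 : ∀ c ∈ B, ∀ j, bt c = .inl j → c.1 ≠ j ∧ c.1 ≠ j + 1 ∧ c.2 ≠ j ∧ c.2 ≠ j + 1)
    (t2 : ∀ c ∈ B, ∀ c' ∈ B, bt c = bt c' → c.1 = c'.1 ∨ c.2 = c'.2 → c = c')
    (t3 : ∀ κ, k ≤ (B.filter fun c => bt c = κ).card ∧ (B.filter fun c => bt c = κ).card ≤ k + 1)
    (a0 : ∀ c ∈ B, c.1 ∉ mA (vA (bt c))) (b0 : ∀ c ∈ B, c.2 ∉ mB (vB (bt c)))
    (a1 : ∀ v, ∀ y ∈ mA v, y ∉ base v) (b1 : ∀ v, ∀ y ∈ mB v, y ∉ base v)
    (a2 : ∀ v, (mA v).card = dem u v) (b2 : ∀ v, (mB v).card = dem w v)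
    (a3 : ∀ y, (univ.filter fun v => y ∈ mA v).card + (be y).card + 1 = n - w)
    (b3 : ∀ y, (univ.filter fun v => y ∈ mB v).card + (al y).card + 1 = n - u)
    (hs : (3 * n + e) * (k + 1) = B.card + 2 * n + s)
    (hc : (3 * n + e) * (n - u + (n - w) + (k + 1)) = n * n + 2 * (n * (2 * n + e)) + s) :
    Core0 (3 * n + e) n (2 * n + e) s := by
  classical
  have s1 := (small hn).1
  have s2 : (1 : ZMod e) ≠ 0 := by simpa using cast_ne (n := e) (j := 1) (by omega) (by omega)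
  have hT : Fintype.card (TT n e) = 3 * n + e := by
    simp only [Fintype.card_sum, ZMod.card]
    omega
  have cnt : ∀ i : TT n e, k ≤ (univ.filter fun a => jt (B := B) bt a = i).card ∧
      (univ.filter fun a => jt (B := B) bt a = i).card ≤ k + 1 := by
    rintro (l | l | κ)
    · rw [card3 _ ∅ {l} ∅ (by simp [jt]) (by simp [jt]) (by simp [jt])]
      simp only [card_empty, card_singleton]
      omega
    · rw [card3 _ ∅ ∅ {l} (by simp [jt]) (by simp [jt]) (by simp [jt])]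
      simp only [card_empty, card_singleton]
      omega
    · rw [card3 _ (univ.filter fun c : B => bt c = κ) ∅ ∅ (by simp [jt]) (by simp [jt])
        (by simp [jt]), card_empty, add_zero, add_zero, univ_eq_attach,
          filter_attach (fun c => bt c = κ) B, card_map, card_attach]
      exact t3 κ
  set S : Finset (TT n e) :=
    univ.filter fun i => (univ.filter fun a => jt (B := B) bt a = i).card = k with hS
  have hκ : ∀ i, (univ.filter fun a => jt (B := B) bt a = i).card + (if i ∈ S then 1 else 0)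
      = k + 1 := fun i => by
    have := cnt i
    simp only [hS, mem_filter, mem_univ, true_and]
    split_ifs <;> omega
  have hSc : S.card = s := by
    have h1 := sum_congr (rfl : (univ : Finset (TT n e)) = univ) fun i _ => hκ i
    rw [sum_add_distrib, ← card_eq_sum_card_fiberwise (fun _ _ => mem_coe.2 (mem_univ _)),
      sum_const, card_univ, card_univ, hT, smul_eq_mul, hs] at h1
    simp only [Fintype.card_sum, ZMod.card, Fintype.card_coe, sum_ite_mem, univ_inter, sum_const,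
      smul_eq_mul, mul_one] at h1
    omega
  rw [← hT, ← hSc]
  refine Core.core0 (π := 1) (Core.mk_sets false 1 S pp ?_ false hA hB
    (fun i => univ.filter (la (fun j l => j ∈ al l) mA mB i))
    (fun i => univ.filter (lb (fun k j => j ∈ be k) mA mB i)) (n - u) (n - w) (k + 1)
    (jt bt) (jx e) (jy e) ?_ ?_ ?_ ?_ ?_ (by simp)
    (card_la hn hu _ al (fun _ _ => Iff.rfl) mA mB a1 a2 b1 b3)
    (card_lb hn hw _ be (fun _ _ => Iff.rfl) mA mB a1 b1 b2 a3) ?_ ?_ ?_ (by simp) ?_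
    (fun _ => ?_) (by simp) ?_ hκ ?_ (by rw [hT, hSc, ← hc]; simp) ?_)
  · intro P
    fin_cases P
    · rw [card3 _ univ ∅ ∅ (by simp [pp]) (by simp [pp]) (by simp [pp])]
      simp
    · rw [card3 _ ∅ univ ∅ (by simp [pp]) (by simp [pp]) (by simp [pp])]
      simp
    · rw [card3 _ ∅ ∅ univ (by simp [pp]) (by simp [pp]) (by simp [pp]), card_univ, card_CC]
      simp
  · exact hA_inj
  · exact hB_inj
  · rintro (j | j | j | j | j)
    · refine ⟨fun h => absurd rfl h, ?_⟩
      rintro ⟨i | i | i, h⟩ <;> simp [hA] at h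
    · exact ⟨fun _ => ⟨.inl j, rfl⟩, fun _ => by simp [pp]⟩
    · exact ⟨fun _ => ⟨.inr (.inr (.inl j)), rfl⟩, fun _ => by simp [pp]⟩
    · exact ⟨fun _ => ⟨.inr (.inl j), rfl⟩, fun _ => by simp [pp]⟩
    · exact ⟨fun _ => ⟨.inr (.inr (.inr j)), rfl⟩, fun _ => by simp [pp]⟩
  · rintro (j | j | j | j | j)
    · exact ⟨fun _ => ⟨.inr (.inl j), rfl⟩, fun _ => by simp [pp]⟩
    · refine ⟨fun h => absurd rfl h, ?_⟩
      rintro ⟨i | i | i, h⟩ <;> simp [hB] at h
    · exact ⟨fun _ => ⟨.inl j, rfl⟩, fun _ => by simp [pp]⟩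
    · exact ⟨fun _ => ⟨.inr (.inr (.inl j)), rfl⟩, fun _ => by simp [pp]⟩
    · exact ⟨fun _ => ⟨.inr (.inr (.inr (j - 1))), by simp [hB, vB]⟩, fun _ => by simp [pp]⟩
  · rintro (i | i | i | i) <;> simp [hA, hB, vA, vB, s2]
  · intro i
    rw [disjoint_filter]
    rcases i with i | i | i | i <;> rintro (j | j | j) - <;> simp [la, lb, vA, vB, base]
    · rintro h - - rfl
      exact h rfl
    · rintro rfl h
      exact absurd rfl h
  · have := fun j => b1 (.inl j) j
    rintro (i | i | i | i) (j | j | j) <;> simp [la, pp, hA, hB]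
    · rintro (rfl | h)
      · simp
      · rintro rfl
        exact this i h (by simp [base])
    · exact fun h _ => h
  · have := fun j => a1 (.inr (.inl j)) j
    rintro (i | i | i | i) (j | j | j) <;> simp [lb, pp, hA, hB]
    · exact fun h _ => h
    · rintro (rfl | h)
      · simp
      · rintro rfl
        exact this i h (by simp [base])
  · rintro (⟨c, hc⟩ | j | j) <;> simp only [jt, jx, mem_filter, mem_univ, true_and, la]
    · refine ⟨?_, a0 c hc⟩
      rcases h : bt c with j | j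
      · have := t1 c hc j h
        simp [vA, base, this]
      · simp [vA, base]
    · exact Or.inl trivial
    · exact ⟨by simpa using s1, fun h => a1 _ _ h (by simp [base])⟩
  · rintro (⟨c, hc⟩ | j | j) <;> simp only [jt, jy, mem_filter, mem_univ, true_and, lb]
    · refine ⟨?_, b0 c hc⟩
      rcases h : bt c with j | j
      · have := t1 c hc j h
        simp [vB, base, this]
      · simp [vB, base]
    · exact ⟨by simpa using s1, fun h => b1 _ _ h (by simp [base])⟩
    · exact Or.inl trivial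
  · rintro (⟨c, hc⟩ | j | j) (⟨c', hc'⟩ | j' | j') h h' <;>
      simp only [jt, jx, jy, Sum.inr.injEq, Sum.inl.injEq, reduceCtorEq, Subtype.mk.injEq] at h h' ⊢
    · exact t2 c hc c' hc' h h'
    · exact h
    · exact h
  · rintro (c | j | j) <;> simp [jx, jy, pp]
  · rintro (a | a | a) (b | b | b) h <;> simp only [pp] at h <;> try exact absurd h (by decide)
    · rcases hcell a b with h | h | h
      · exact Or.inr ⟨.inl ⟨_, h⟩, Or.inl ⟨rfl, rfl⟩⟩
      · exact Or.inl ⟨.inl b, Or.inr (Or.inl ⟨rfl, by simpa [la] using h⟩)⟩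
      · exact Or.inl ⟨.inr (.inl a), Or.inr (Or.inr (Or.inl ⟨rfl, by simpa [lb] using h⟩))⟩
    · by_cases h1 : a ∈ mA b
      · exact Or.inl ⟨.inr (.inl a), Or.inr (Or.inr (Or.inl ⟨rfl, by simp [lb, h1]⟩))⟩
      rcases b with j | j | j
      · by_cases h2 : a = j
        · exact Or.inl ⟨.inr (.inl a), Or.inr (Or.inr (Or.inl ⟨rfl, by simp [lb, h2]⟩))⟩
        by_cases h3 : a = j + 1
        · exact Or.inr ⟨.inr (.inr j), Or.inl ⟨by rw [h3]; rfl, rfl⟩⟩
        · exact Or.inl ⟨.inr (.inr (.inl j)),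
            Or.inr (Or.inl ⟨rfl, by simp [la, vA, base, h1, h2, h3]⟩)⟩
      · by_cases h2 : a = j
        · exact Or.inl ⟨.inr (.inr (.inl j)),
            Or.inr (Or.inr (Or.inr (Or.inl ⟨rfl, by simp [lb, h2]⟩)))⟩
        · exact Or.inl ⟨.inr (.inl j), Or.inr (Or.inl ⟨rfl, by simp [la, h1, h2]⟩)⟩
      · exact Or.inl ⟨.inr (.inr (.inr j)), Or.inr (Or.inl ⟨rfl, by simp [la, vA, base, h1]⟩)⟩
    · by_cases h1 : a ∈ mB b
      · exact Or.inl ⟨.inl a, Or.inl ⟨rfl, by simp [la, h1]⟩⟩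
      rcases b with j | j | j
      · by_cases h2 : a = j
        · exact Or.inl ⟨.inr (.inr (.inl j)), Or.inr (Or.inl ⟨rfl, by simp [la, h2]⟩)⟩
        · exact Or.inl ⟨.inl j, Or.inr (Or.inr (Or.inr (Or.inl ⟨rfl, by simp [lb, h1, h2]⟩)))⟩
      · by_cases h2 : a = j
        · exact Or.inl ⟨.inl a, Or.inl ⟨rfl, by simp [la, h2]⟩⟩
        by_cases h3 : a = j + 1
        · exact Or.inr ⟨.inr (.inl j), Or.inr ⟨rfl, by rw [h3]; rfl⟩⟩
        · exact Or.inl ⟨.inr (.inr (.inl j)),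
            Or.inr (Or.inr (Or.inr (Or.inl ⟨rfl, by simp [lb, vB, base, h1, h2, h3]⟩)))⟩
      · exact Or.inl ⟨.inr (.inr (.inr (j - 1))), Or.inr (Or.inr (Or.inr (Or.inl
          ⟨by simp [hB, vB], by simp [lb, vB, base, h1]⟩)))⟩

end G3

open G3 Ch2 in
/-- G3: the three step chain core. -/
theorem core0_g3 {t n k u w R1 R2 TB : ℕ} (h : G3P t n k u w R1 R2 TB) :
    Core0 t n (t - n) (n * n % t) := by
  obtain ⟨hn, ht, huw, hk, hTB, hR, sA, sB⟩ := h
  obtain ⟨e, rfl⟩ : ∃ e, t = 3 * n + e := ⟨t - 3 * n, by omega⟩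
  have : NeZero n := ⟨by omega⟩
  have : NeZero e := ⟨by omega⟩
  have hq := Nat.div_add_mod (n * n) (3 * n + e)
  generalize n * n / (3 * n + e) = q at hq huw
  generalize n * n % (3 * n + e) = s at hq hk ⊢
  have u1 := sA.1
  have u2 := sA.2.1
  have w1 := sB.1
  have w2 := sB.2.1
  have hk' : k = 0 ∧ R1 ≤ n + e ∧ R2 = 0 ∨ k = 1 ∧ R1 = n + e ∧ R2 < 2 * n := by omega
  have hs : (3 * n + e) * (k + 1) = R1 + R2 + 2 * n + s := by
    rcases hk with ⟨rfl, h1, h2⟩ | ⟨rfl, h1, h2, h3⟩ <;> omega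
  have cnt := bt_count (n := n) (e := e) hn (by omega) hk' (by omega)
  obtain ⟨brA, p1, p2, p3⟩ := ends (BB n R1 R2) (bt e R1) vA vA_inj Prod.fst
    (fun κ => (cnt κ).2) (row_BB (by omega))
  obtain ⟨brB, q1, q2, q3⟩ := ends (BB n R1 R2) (bt e R1) vB vB_inj Prod.snd
    (fun κ => (cnt κ).2) (col_BB (by omega))
  rw [show 3 * n + e - 3 * n = e by omega] at hTB
  obtain ⟨u, rfl⟩ : ∃ u', u = u' + 1 := ⟨u - 1, by omega⟩
  obtain ⟨w, rfl⟩ : ∃ w', w = w' + 1 := ⟨w - 1, by omega⟩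
  obtain ⟨dA, hdA⟩ : ∃ d, n = d + u + 2 := ⟨n - u - 2, by omega⟩
  obtain ⟨dB, hdB⟩ : ∃ d, n = d + w + 2 := ⟨n - w - 2, by omega⟩
  have f1 : n - (u + 1) = dA + 1 := by omega
  have f2 : n - (w + 1) = dB + 1 := by omega
  obtain ⟨mA, a1, a2, a3⟩ := side rfl sA
    (fun y => (univ.filter fun l => R1 ≤ idx y l ∧ idx y l < R1 + TB).card)
    (fun y => (row_card (by omega) y).1) (fun y => (row_card (by omega) y).2)
    (by rw [sum_rows (by omega), Nat.add_sub_cancel_left]; exact hTB) brA p2 p3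
  obtain ⟨mB, b1, b2, b3⟩ := side rfl sB
    (fun y => (univ.filter fun l => R1 + TB ≤ idx l y ∧ idx l y < n * n - R2).card)
    (fun y => (col_card (by omega) y).1) (fun y => (col_card (by omega) y).2)
    (by
      rw [sum_cols (by omega), f1, Nat.add_sub_cancel, Nat.add_sub_cancel]
      rw [f2, Nat.add_sub_cancel, Nat.add_sub_cancel] at hTB
      obtain ⟨TA, hTA⟩ : ∃ x, n * n = R1 + TB + R2 + x := ⟨n * n - (R1 + TB + R2), by omega⟩
      rw [show n * n - R2 - (R1 + TB) = TA by omega]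
      zify at hTA hTB hs hq huw hdA hdB ⊢
      linear_combination (-1 : ℤ) * hTA - hTB + hs + hq + (3 * n + e : ℤ) * huw
        + (n : ℤ) * hdA + (n : ℤ) * hdB) brB q2 q3
  rw [show 3 * n + e - n = 2 * n + e by omega]
  refine assemble hn (by omega) (by omega) u1 w1 (BB n R1 R2) (bt e R1)
    (fun y => univ.filter fun l => R1 + TB ≤ idx l y ∧ idx l y < n * n - R2)
    (fun y => univ.filter fun l => R1 ≤ idx y l ∧ idx y l < R1 + TB) mA mB (fun a b => ?_)
    (fun c hc j h => bt_inl hn (by omega) hc h)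
    (fun c hc c' hc' h h' => bt_same hn (by omega) (by omega) (by omega) hc hc' h (Or.inr h')) cnt
    (fun c hc h => (a1 _ _ h).2 (p1 c hc)) (fun c hc h => (b1 _ _ h).2 (q1 c hc))
    (fun v y h => (a1 v y h).1) (fun v y h => (b1 v y h).1) a2 b2 a3 b3
    (by rw [card_BB (by omega)]; exact hs) ?_
  · simp only [mem_BB, mem_filter, mem_univ, true_and]
    omega
  · rw [f1, f2]
    zify at hq huw hdA hdB ⊢
    linear_combination (-1 : ℤ) * hq - (3 * n + e : ℤ) * (hdA + hdB + huw)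

end Pool.Agent.Lib.MP_351560_co
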