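import Mathlib
import Pool.Agent.Lib.MP_351560_co.L2Def

set_option autoImplicit false

namespace Pool.Agent.Lib.MP_351560_co

namespace CoreNum

theorem cdiv_le {a n D : ℕ} (hn : 0 < n) (h : a ≤ n * D) : cdiv a n ≤ D := by
  unfold cdiv
  have : (a + n - 1) / n < D + 1 := by
    rw [Nat.div_lt_iff_lt_mul hn]
    have : (D + 1) * n = n * D + n := by ring
    omega
  omega

theorem cdiv_le_succ {a n : ℕ} (hn : 0 < n) : cdiv a n ≤ a / n + 1 := by
  apply cdiv_le hn
  have h1 := Nat.div_add_mod a n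
  have h2 := Nat.mod_lt a hn
  have : n * (a / n + 1) = n * (a / n) + n := by ring
  omega

/-- The upper count of the second side. -/
theorem hi_le {n X T D : ℕ} (hn : 0 < n) (h : T + n ≤ n * D + 1) :
    cdiv (X + T) n - X / n ≤ D := by
  have h1 := Nat.div_add_mod X n
  have h2 := Nat.mod_lt X hn
  have h3 : cdiv (X + T) n ≤ X / n + D := by
    apply cdiv_le hn
    have : n * (X / n + D) = n * (X / n) + n * D := by ring
    omega
  omega

theorem win_of {nx ny a0 b0 s0 r0 A B : ℕ} (h1 : nx - 1 - b0 - r0 ≤ A) (h2 : ny - 1 - a0 - s0 ≤ B)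
    (h3 : A * B ≤ a0 * b0 ∨ A * B ≤ s0 * r0) : Win nx ny a0 b0 s0 r0 := by
  unfold Win
  have := Nat.mul_le_mul h1 h2
  rcases h3 with h | h
  · exact le_trans (le_trans this h) (le_max_left _ _)
  · exact le_trans (le_trans this h) (le_max_right _ _)

theorem adj_big {t n : ℕ} (hn : 16 ≤ n) (h1 : n < t) (h2 : t ≤ 2 * n) :
    AdjP t n ((n * n / t + 1) / 2) (n * n / t / 2) := by
  have ht : 0 < t := by omega
  have hn0 : 0 < n := by omega
  have hq : 6 ≤ n * n / t := by
    rw [Nat.le_div_iff_mul_le ht]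
    nlinarith
  have hqt : n * n / t * t ≤ n * n := Nat.div_mul_le_self _ _
  generalize hqd : n * n / t = q at hq hqt
  obtain ⟨c, rfl⟩ : ∃ c, t = n + c := ⟨t - n, by omega⟩
  have hc : n + c - n = c := by omega
  generalize hw : q / 2 = w
  generalize hu : (q + 1) / 2 = u
  have hw3 : 3 ≤ w := by omega
  have huw : w ≤ u := by omega
  have huw' : u ≤ w + 1 := by omega
  have hwq : 2 * w ≤ q := by omega
  have hcn : c ≤ n := by omega
  have k1 : 2 * w * (n + c) ≤ n * n := le_trans (Nat.mul_le_mul_right _ hwq) hqt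
  have hwn : 2 * w ≤ n := by nlinarith
  obtain ⟨D, hD⟩ : ∃ D, D + w + 7 = n := ⟨n - w - 7, by omega⟩
  obtain ⟨E, hE⟩ : ∃ E, E + u + 7 = n := ⟨n - u - 7, by omega⟩
  have e1 : cdiv (u * c) n ≤ D := by
    apply cdiv_le hn0
    have : u * c ≤ (w + 1) * c := Nat.mul_le_mul_right _ huw'
    nlinarith
  have e2 : cdiv (w * c) n ≤ E := by
    apply cdiv_le hn0
    have : n * u ≤ n * (w + 1) := Nat.mul_le_mul_left _ huw'
    nlinarith
  have f1 := cdiv_le_succ (a := u * c) hn0
  have f2 := cdiv_le_succ (a := w * c) hn0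
  unfold AdjP
  rw [hc, hqd]
  generalize u * c / n = l at f1 ⊢
  generalize w * c / n = m at f2 ⊢
  refine ⟨by omega, h1, h2, by omega, by omega, by omega, by omega, by omega, by omega, by omega, ?_⟩
  refine win_of (A := 5) (B := 5) (by omega) (by omega) (Or.inl ?_)
  exact Nat.mul_le_mul (by omega) (by omega)

theorem ch2Side {t n k u d lo hi g : ℕ} (hu : 2 ≤ u) (hk : k ≤ 1) (h1 : u + k + 22 ≤ n)
    (h2 : hi + 2 ≤ d) (h3 : hi ≤ lo + 2) (h4 : g ≤ 3) (h5 : d + 4 ≤ n) (h6 : 2 * n < t) :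
    Ch2Side t n k u d lo hi g := by
  refine ⟨hu, by omega, by omega, by omega, ?_⟩
  refine win_of (A := 7) (B := 3) (by omega) (by omega) (Or.inr ?_)
  calc 7 * 3 = 21 * 1 := by norm_num
    _ ≤ _ := Nat.mul_le_mul (by omega) (by omega)

theorem g3Side {t n k u d lo hi g : ℕ} (hn : 22 ≤ n) (hu : 1 ≤ u) (hk : k ≤ 1) (h1 : u + 3 ≤ n)
    (h2 : hi + 1 ≤ d) (h3 : hi ≤ lo + 2) (h4 : g ≤ t / n + 1) (h5 : d + 1 ≤ n)
    (h6 : 4 * n ≤ t + 1) (h7 : t < n * n + n) (h8 : u = 1 → n * n < 3 * t) :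
    G3Side t n k u d lo hi g := by
  have hn0 : 0 < n := by omega
  have hm : t / n * n ≤ t := Nat.div_mul_le_self _ _
  refine ⟨hu, by omega, h2, ?_⟩
  split_ifs with h
  · have h9 := h8 h
    have hm2 : t / n < n + 1 := by
      rw [Nat.div_lt_iff_lt_mul hn0]
      nlinarith
    have h10 : 22 * n ≤ n * n := Nat.mul_le_mul_right _ hn
    refine ⟨by omega, ?_⟩
    refine win_of (A := g + 1) (B := 1) (by omega) (by omega) (Or.inl (by omega))
  · have h9 : 4 * (t / n) + 21 + 2 * n ≤ t := by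
      generalize t / n = m at hm
      rcases Nat.lt_or_ge m 5 with h5 | h5
      · omega
      · nlinarith
    refine ⟨by omega, ?_⟩
    refine win_of (A := g + 5) (B := 3) (by omega) (by omega) (Or.inl ?_)
    calc (g + 5) * 3 = 1 * ((g + 5) * 3) := by ring
      _ ≤ _ := Nat.mul_le_mul (by omega) (by omega)

def kk (t n : ℕ) : ℕ := if 2 * n + n * n % t ≤ t then 0 else 1
def uu (t n : ℕ) : ℕ := (n * n / t + 2 + kk t n) / 2
def ww (t n : ℕ) : ℕ := (n * n / t + 1 + kk t n) / 2
def r1 (t n : ℕ) : ℕ := if kk t n = 0 then t - n * n % t - 2 * n else t - 2 * n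
def r2 (t n : ℕ) : ℕ := kk t n * (t - n * n % t)

/-- The common arithmetic of the two chain cores. -/
theorem base {t n : ℕ} (h1 : 2 * n < t) (h2 : t < n * n + n) :
    ∃ q k u w R1 R2 TB TA : ℕ, q = n * n / t ∧ k ≤ 1 ∧ u + w = q + 1 + k ∧ w ≤ u ∧ u ≤ w + 1 ∧
      1 ≤ w ∧ (k = 0 ∧ R1 + 2 * n + n * n % t = t ∧ R2 = 0 ∨
        k = 1 ∧ R1 + 2 * n = t ∧ R2 + n * n % t = t ∧ R2 < 2 * n) ∧
      TB + t * u + n * w = n * n + n + n * u ∧ TA + t * w + n * u = n * n + n + n * w ∧
      R1 + TB + TA + R2 = n * n := by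
  have ht : 0 < t := by omega
  have hd := Nat.div_add_mod (n * n) t
  have hs := Nat.mod_lt (n * n) ht
  generalize n * n / t = q at hd
  generalize n * n % t = s at hd hs
  have hq0 : q = 0 → t < 2 * n + s := by
    rintro rfl
    omega
  by_cases hk : 2 * n + s ≤ t
  · have hq1 : 1 ≤ q := by
      rcases Nat.eq_zero_or_pos q with h | h
      · have := hq0 h
        omega
      · exact h
    rcases Nat.even_or_odd' q with ⟨w, rfl | rfl⟩
    · have e1 : t * (w + 1) = t * w + t := by ring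
      have e2 : n * (w + 1) = n * w + n := by ring
      have e3 : t * (2 * w) = 2 * (t * w) := by ring
      have e4 : t * 1 ≤ t * w := Nat.mul_le_mul_left _ (by omega)
      refine ⟨2 * w, 0, w + 1, w, t - s - 2 * n, 0, n * n + 2 * n - t * (w + 1), n * n - t * w, rfl,
        by omega, by omega, by omega, by omega, by omega, Or.inl ⟨rfl, by omega, rfl⟩, by omega,
        by omega, by omega⟩
    · have e1 : t * (w + 1) = t * w + t := by ring
      have e3 : t * (2 * w + 1) = 2 * (t * w) + t := by ring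
      refine ⟨2 * w + 1, 0, w + 1, w + 1, t - s - 2 * n, 0, n * n + n - t * (w + 1),
        n * n + n - t * (w + 1), rfl,
        by omega, by omega, by omega, by omega, by omega, Or.inl ⟨rfl, by omega, rfl⟩, by omega,
        by omega, by omega⟩
  · rcases Nat.even_or_odd' q with ⟨w, rfl | rfl⟩
    · have e1 : t * (w + 1) = t * w + t := by ring
      have e3 : t * (2 * w) = 2 * (t * w) := by ring
      have e4 : w = 0 ∨ t * 1 ≤ t * w := by
        rcases Nat.eq_zero_or_pos w with h | h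
        · exact Or.inl h
        · exact Or.inr (Nat.mul_le_mul_left _ h)
      have e5 : w = 0 → t * w = 0 := by
        rintro rfl
        rfl
      refine ⟨2 * w, 1, w + 1, w + 1, t - 2 * n, t - s, n * n + n - t * (w + 1),
        n * n + n - t * (w + 1), rfl,
        by omega, by omega, by omega, by omega, by omega,
        Or.inr ⟨rfl, by omega, by omega, by omega⟩, by omega, by omega, by omega⟩
    · have e1 : t * (w + 1) = t * w + t := by ring
      have e1' : t * (w + 2) = t * w + 2 * t := by ring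
      have e2 : n * (w + 2) = n * (w + 1) + n := by ring
      have e3 : t * (2 * w + 1) = 2 * (t * w) + t := by ring
      have e4 : w = 0 ∨ t * 1 ≤ t * w := by
        rcases Nat.eq_zero_or_pos w with h | h
        · exact Or.inl h
        · exact Or.inr (Nat.mul_le_mul_left _ h)
      have e5 : w = 0 → t * w = 0 := by
        rintro rfl
        rfl
      refine ⟨2 * w + 1, 1, w + 2, w + 1, t - 2 * n, t - s, n * n + 2 * n - t * (w + 2),
        n * n - t * (w + 1), rfl,
        by omega, by omega, by omega, by omega, by omega,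
        Or.inr ⟨rfl, by omega, by omega, by omega⟩, by omega, by omega, by omega⟩

theorem sub_eq {n w : ℕ} (h : w + 1 ≤ n) : n * (n - w - 1) + n * w + n = n * n := by
  obtain ⟨d, rfl⟩ : ∃ d, n = d + w + 1 := ⟨n - w - 1, by omega⟩
  have : d + w + 1 - w - 1 = d := by omega
  rw [this]
  ring

theorem sub_mul' {t m u : ℕ} (h : m ≤ t) : (t - m) * u + m * u = t * u := by
  rw [← Nat.add_mul, Nat.sub_add_cancel h]

theorem mul_sub' {n u j : ℕ} (h : j ≤ u) : n * (u - j) + n * j = n * u := by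
  rw [← Nat.mul_add, Nat.sub_add_cancel h]

theorem second {A X n : ℕ} (hn : 0 < n) : cdiv A n - X / n ≤ A / n - cdiv X n + 2 := by
  have g5 := cdiv_le_succ (a := A) hn
  have g6 := cdiv_le_succ (a := X) hn
  generalize A / n = a at g5 ⊢
  generalize X / n = b at g6 ⊢
  omega

theorem ch2_big {t n : ℕ} (hn : 34 ≤ n) (h1 : 2 * n < t) (h2 : t + 1 < 4 * n) :
    ∃ k u w R1 R2 TB, Ch2P t n k u w R1 R2 TB := by
  have hn0 : 0 < n := by omega
  have ht : 0 < t := by omega
  have h34 : 34 * n ≤ n * n := Nat.mul_le_mul_right _ hn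
  obtain ⟨q, k, u, w, R1, R2, TB, TA, hq, hk, huw, hwu, huw1, hw1, hR, hB, hA, hS⟩ :=
    base h1 (by omega)
  have hq7 : 7 ≤ q := by
    rw [hq, Nat.le_div_iff_mul_le ht]
    clear * - h34 h2
    omega
  have hqt : q * t ≤ n * n := hq ▸ Nat.div_mul_le_self _ _
  have hqn : 2 * q < n := by
    by_contra hc
    have e : n * (2 * n + 1) ≤ (2 * q) * t := Nat.mul_le_mul (by omega) h1
    have e' : n * (2 * n + 1) = 2 * (n * n) + n := by ring
    have e'' : 2 * q * t = 2 * (q * t) := by ring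
    clear * - e e' e'' hqt hn0
    omega
  have huw' : u + w = n * n / t + 1 + k := by rw [← hq]; exact huw
  have hR1 : R1 + 2 * n ≤ t := by
    rcases hR with h | h
    · exact le_trans (Nat.le_add_right _ _) h.2.1.le
    · exact h.2.1.le
  have hw4 : 4 ≤ w := by clear * - huw huw1 hq7; omega
  have hu : 4 * u ≤ n + 5 := by clear * - huw hwu huw1 hk hqn; omega
  have hu2 : 2 * u ≤ q + 3 := by clear * - huw hwu huw1 hk; omega
  have hun : u + k + 22 ≤ n := by clear * - hu hn hk; omega
  clear hq huw hq7 hqn hw1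
  have e1 := sub_eq (n := n) (w := w) (by clear * - hun hwu; omega)
  have e2 := sub_eq (n := n) (w := u) (by clear * - hun; omega)
  have e3 := sub_mul' (t := t) (m := 2 * n) (u := u) h1.le
  have e5 := mul_sub' (n := n) (u := u) (j := 2) (by clear * - hw4 hwu; omega)
  have e7 : 2 * n * u = 2 * (n * u) := by ring
  have e9 : n * w ≤ n * u := Nat.mul_le_mul_left _ hwu
  have e10 : n * u ≤ n * (w + 1) := Nat.mul_le_mul_left _ huw1
  have e11 : n * (w + 1) = n * w + n := by ring
  have e12 : n * 4 ≤ n * w := Nat.mul_le_mul_left _ hw4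
  have e13 : 2 * (t * u) ≤ n * n + 3 * t := by
    have e : t * (2 * u) ≤ t * (q + 3) := Nat.mul_le_mul_left _ hu2
    have e' : t * (2 * u) = 2 * (t * u) := by ring
    have e'' : t * (q + 3) = q * t + 3 * t := by ring
    clear * - e e' e'' hqt
    omega
  have e14 : t * w ≤ t * u := Nat.mul_le_mul_left _ hwu
  have e15 : 2 * n * w ≤ t * w := Nat.mul_le_mul_right _ h1.le
  have e16 : 2 * n * u ≤ t * u := Nat.mul_le_mul_right _ h1.le
  have e17 : 2 * n * w = 2 * (n * w) := by ring
  have e18 := mul_sub' (n := n) (u := n - w - 1) (j := 1) (by clear * - hun hwu; omega)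
  have e19 := mul_sub' (n := n) (u := n - u - 1) (j := 1) (by clear * - hun; omega)
  have g1 : cdiv R1 n ≤ 2 := cdiv_le hn0 (by clear * - hR1 h2; omega)
  have g2 : cdiv TB n ≤ n - w - 1 - 1 := cdiv_le hn0 (by
    clear * - e18 e1 hB e16 e7 e9 e12
    generalize n * (n - w - 1 - 1) = a at *
    generalize n * (n - w - 1) = b at *
    omega)
  have g3 := cdiv_le_succ (a := TB) hn0
  have hX : n * n - R2 = R1 + TB + TA := by clear * - hS; omega
  have g4 : cdiv (R1 + TB + TA) n - (R1 + TB) / n ≤ n - u - 1 - 1 := hi_le hn0 (by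
    clear * - e19 e2 hA e15 e17 e12
    generalize n * (n - u - 1 - 1) = a at *
    generalize n * (n - u - 1) = b at *
    omega)
  have hTB : 3 * n ≤ TB := by clear * - hB e9 e13 h34 h2; omega
  have hTA : 3 * n ≤ TA := by clear * - hA e10 e11 e13 e14 h34 h2; omega
  refine ⟨k, u, w, R1, R2, TB, by clear * - hn; omega, h1, by clear * - h2; omega, huw', ?_, ?_,
    by clear * - hS; omega, ?_, ?_⟩
  · rcases hR with h | ⟨h, h', h'', h3⟩
    · exact Or.inl h
    · exact Or.inr ⟨h, h', h'', h3.le, by clear * - hTB; omega, by clear * - hS hTA; omega⟩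
  · clear * - hB e1 e3 e5 e7
    generalize n * (n - w - 1) = b at *
    generalize (t - 2 * n) * u = c at *
    generalize n * (u - 2) = d at *
    omega
  · exact ch2Side (by clear * - hw4 hwu; omega) hk hun (by clear * - g2 hun hwu; omega)
      (le_trans g3 (Nat.le_succ _)) (by clear * - g1 hk; omega) (by clear * - hw4 hun hwu; omega) h1
  · rw [hX]
    refine ch2Side (by clear * - hw4; omega) hk (by clear * - hun hwu; omega) ?_ (second hn0)
      (by clear * - g1 hk; omega) (by clear * - hw4 hun hwu; omega) h1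
    clear * - g4 hun
    generalize cdiv (R1 + TB + TA) n - (R1 + TB) / n = a at *
    omega

theorem g3_big {t n : ℕ} (hn : 22 ≤ n) (h1 : 4 * n ≤ t + 1) (h2 : t < n * n + n) :
    ∃ k u w R1 R2 TB, G3P t n k u w R1 R2 TB := by
  have hn0 : 0 < n := by omega
  have ht : 0 < t := by omega
  have h3n : 3 * n ≤ t := by omega
  obtain ⟨q, k, u, w, R1, R2, TB, TA, hq, hk, huw, hwu, huw1, hw1, hR, hB, hA, hS⟩ :=
    base (by omega) h2
  have hqt : q * t ≤ n * n := hq ▸ Nat.div_mul_le_self _ _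
  have hqn : 3 * q ≤ n := by
    by_contra hc
    have e : (n + 1) * (3 * n) ≤ (3 * q) * t := Nat.mul_le_mul (by clear * - hc; omega) h3n
    have e' : (n + 1) * (3 * n) = 3 * (n * n) + 3 * n := by ring
    have e'' : 3 * q * t = 3 * (q * t) := by ring
    clear * - e e' e'' hqt hn0
    omega
  have hq3 : q ≤ 2 → n * n < 3 * t := by
    intro h
    have : n * n / t < 3 := by rw [← hq]; exact Nat.lt_succ_of_le h
    rwa [Nat.div_lt_iff_lt_mul ht] at this
  have huw' : u + w = n * n / t + 1 + k := by rw [← hq]; exact huw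
  have hR1 : R1 + 2 * n ≤ t := by
    rcases hR with h | h
    · exact le_trans (Nat.le_add_right _ _) h.2.1.le
    · exact h.2.1.le
  have hR2 : R2 ≤ n * 2 := by
    rcases hR with h | h
    · rw [h.2.2]
      exact Nat.zero_le _
    · rw [Nat.mul_comm]
      exact h.2.2.2.le
  have hun : u + 3 ≤ n := by clear * - huw huw1 hk hqn hn; omega
  have hu1 : 1 ≤ u := le_trans hw1 hwu
  have hq4 : u = 1 → n * n < 3 * t := fun h => hq3 (by clear * - h huw hwu; omega)
  have hq5 : w = 1 → n * n < 3 * t := fun h => hq3 (by clear * - h huw huw1; omega)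
  clear hq huw hqn hq3 hqt
  have e1 := sub_eq (n := n) (w := w) (by clear * - hun hwu; omega)
  have e2 := sub_eq (n := n) (w := u) (by clear * - hun; omega)
  have e3 := sub_mul' (t := t) (m := 3 * n) (u := u) h3n
  have e4 := sub_mul' (t := t) (m := 3 * n) (u := w) h3n
  have e5 := mul_sub' (n := 2 * n) (u := u) (j := 1) hu1
  have e7 : 2 * n * u = 2 * (n * u) := by ring
  have e7' : 3 * n * u = 3 * (n * u) := by ring
  have e8' : 3 * n * w = 3 * (n * w) := by ring
  have e9 : (t - 3 * n) * 1 ≤ (t - 3 * n) * w := Nat.mul_le_mul_left _ hw1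
  have e9' : n * 1 ≤ n * w := Nat.mul_le_mul_left _ hw1
  have hd := Nat.div_add_mod t n
  have hm := Nat.mod_lt t hn0
  have hm3 : 3 ≤ t / n := by
    rw [Nat.le_div_iff_mul_le hn0]
    exact h3n
  have e10 := mul_sub' (n := n) (u := t / n) (j := 1) (le_trans (by norm_num) hm3)
  have g1 : cdiv R1 n ≤ t / n - 1 := cdiv_le hn0 (by
    clear * - e10 hd hm hR1
    generalize n * (t / n - 1) = a at *
    generalize n * (t / n) = b at *
    generalize t % n = c at *
    omega)
  have g1' : cdiv R2 n ≤ 2 := cdiv_le hn0 hR2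
  have hg : cdiv R1 n + cdiv R2 n ≤ t / n + 1 := by
    clear * - g1 g1' hm3
    generalize t / n = a at *
    omega
  have hE : TB + 2 * n * (u - 1) + (t - 3 * n) * u = n * (n - w - 1) := by
    clear * - hB e1 e3 e5 e7 e7'
    generalize n * (n - w - 1) = b at *
    generalize (t - 3 * n) * u = c at *
    generalize 2 * n * (u - 1) = d at *
    omega
  have g2 : cdiv TB n ≤ n - w - 1 :=
    cdiv_le hn0 (hE ▸ le_trans (Nat.le_add_right _ _) (Nat.le_add_right _ _))
  have g3 := cdiv_le_succ (a := TB) hn0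
  have hX : n * n - R2 = R1 + TB + TA := by clear * - hS; omega
  have g4 : cdiv (R1 + TB + TA) n - (R1 + TB) / n ≤ n - u - 1 := hi_le hn0 (by
    have e : t ≤ t - 3 * n + 3 * n := by clear * - h3n; omega
    clear * - e e2 hA e4 e8' e9 e9' h1
    generalize n * (n - u - 1) = b at *
    generalize (t - 3 * n) * w = c at *
    generalize t - 3 * n = d at *
    omega)
  refine ⟨k, u, w, R1, R2, TB, by clear * - hn; omega, h1, huw', hR, hE, by clear * - hS; omega,
    ?_, ?_⟩
  · exact g3Side hn hu1 hk hun (by clear * - g2 hun hwu; omega) (le_trans g3 (Nat.le_succ _)) hg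
      (by clear * - hw1 hun hwu; omega) h1 h2 hq4
  · rw [hX]
    refine g3Side hn hw1 hk (by clear * - hun hwu; omega) ?_ (second hn0) hg
      (by clear * - hu1 hun; omega) h1 h2 hq5
    clear * - g4 hun
    generalize cdiv (R1 + TB + TA) n - (R1 + TB) / n = a at *
    omega

set_option synthInstance.maxSize 2000 in
theorem small1 : ∀ n < 22, ∀ t < n * n + n, 13 ≤ t → n < t →
    AdjP t n ((n * n / t + 1) / 2) (n * n / t / 2) ∨
    G3P t n (kk t n) (uu t n) (ww t n) (r1 t n) (r2 t n)
      (n * (n - ww t n - 1) - (2 * n * (uu t n - 1) + (t - 3 * n) * uu t n)) ∨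
    Ch2P t n (kk t n) (uu t n) (ww t n) (r1 t n) (r2 t n)
      (n * (n - ww t n - 1) - (n * (uu t n - 2) + (t - 2 * n) * uu t n)) ∨ (t, n) ∈ CoreList := by
  decide +kernel

set_option synthInstance.maxSize 2000 in
theorem small2 : ∀ n < 34, ∀ t < 4 * n, 22 ≤ n → 2 * n < t → t + 1 < 4 * n →
    Ch2P t n (kk t n) (uu t n) (ww t n) (r1 t n) (r2 t n)
      (n * (n - ww t n - 1) - (n * (uu t n - 2) + (t - 2 * n) * uu t n)) := by
  decide +kernel

end CoreNum

open CoreNum in
theorem core_num {t n : ℕ} (ht : 13 ≤ t) (h1 : n < t) (h2 : t < n * n + n) :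
    (t, n) ∈ CoreList ∨ (∃ u w, AdjP t n u w) ∨ (∃ k u w R1 R2 TB, G3P t n k u w R1 R2 TB) ∨
      ∃ k u w R1 R2 TB, Ch2P t n k u w R1 R2 TB := by
  rcases Nat.lt_or_ge n 22 with hn | hn
  · rcases small1 n hn t h2 ht h1 with h | h | h | h
    · exact Or.inr (Or.inl ⟨_, _, h⟩)
    · exact Or.inr (Or.inr (Or.inl ⟨_, _, _, _, _, _, h⟩))
    · exact Or.inr (Or.inr (Or.inr ⟨_, _, _, _, _, _, h⟩))
    · exact Or.inl h
  · rcases Nat.lt_or_ge (2 * n) t with h3 | h3
    · rcases Nat.lt_or_ge (t + 1) (4 * n) with h4 | h4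
      · refine Or.inr (Or.inr (Or.inr ?_))
        rcases Nat.lt_or_ge n 34 with h5 | h5
        · exact ⟨_, _, _, _, _, _, small2 n h5 t (by omega) hn h3 h4⟩
        · exact ch2_big h5 h3 h4
      · exact Or.inr (Or.inr (Or.inl (g3_big hn h4 h2)))
    · exact Or.inr (Or.inl ⟨_, _, adj_big (by omega) h1 h3⟩)

end Pool.Agent.Lib.MP_351560_co
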