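import Mathlib
import Pool.Agent.Lib.MP_351560_co.CoreMk

set_option autoImplicit false
set_option linter.unusedVariables false

namespace Pool.Agent.Lib.MP_351560_co

open Finset

namespace CoreOne

/-- the flag permutation on the times `0, …, c` -/
def pm (c i : ℕ) : ℕ := if i = c then 3 else if i = 4 then c else if i = 0 then c - 1 else i - 1

/-- its inverse -/
def pmi (c i : ℕ) : ℕ := if i = 3 then c else if i = c then 4 else if i = c - 1 then 0 else i + 1

/-- the second hub -/
def hb (c i : ℕ) : ℕ := if i = c then c + 1 else if i = c - 1 then 0 else i + 1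

/-- the leaf of the first hub -/
def lf (c i : ℕ) : ℕ := if i = c then 0 else if i % 2 = 0 then c + 1 else c

/-- the idle end of the extra edge -/
def ye (c i : ℕ) : ℕ :=
  if i = 0 then (if c % 2 = 0 then c - 1 else c) else
    if i = 1 then (if c % 2 = 0 then c + 1 else c - 1) else i - 1

/-- the parts -/
def pt (c : ℕ) (v : Fin (c + 2)) : Fin 3 := if v.1 = c + 1 then 0 else if v.1 = c then 1 else 2

lemma pm_s (c i : ℕ) : (i = c ∧ pm c i = 3) ∨ (i ≠ c ∧ i = 4 ∧ pm c i = c) ∨
    (i ≠ c ∧ i ≠ 4 ∧ i = 0 ∧ pm c i = c - 1) ∨ (i ≠ c ∧ i ≠ 4 ∧ i ≠ 0 ∧ pm c i = i - 1) := by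
  unfold pm
  split_ifs <;> omega

lemma pmi_s (c i : ℕ) : (i = 3 ∧ pmi c i = c) ∨ (i ≠ 3 ∧ i = c ∧ pmi c i = 4) ∨
    (i ≠ 3 ∧ i ≠ c ∧ i = c - 1 ∧ pmi c i = 0) ∨
    (i ≠ 3 ∧ i ≠ c ∧ i ≠ c - 1 ∧ pmi c i = i + 1) := by
  unfold pmi
  split_ifs <;> omega

lemma hb_s (c i : ℕ) : (i = c ∧ hb c i = c + 1) ∨ (i ≠ c ∧ i = c - 1 ∧ hb c i = 0) ∨
    (i ≠ c ∧ i ≠ c - 1 ∧ hb c i = i + 1) := by
  unfold hb
  split_ifs <;> omega

lemma lf_s (c i : ℕ) : (i = c ∧ lf c i = 0) ∨ (i ≠ c ∧ i % 2 = 0 ∧ lf c i = c + 1) ∨
    (i ≠ c ∧ i % 2 = 1 ∧ lf c i = c) := by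
  unfold lf
  split_ifs <;> omega

lemma ye_s (c i : ℕ) : (i = 0 ∧ c % 2 = 0 ∧ ye c i = c - 1) ∨ (i = 0 ∧ c % 2 = 1 ∧ ye c i = c) ∨
    (i = 1 ∧ c % 2 = 0 ∧ ye c i = c + 1) ∨ (i = 1 ∧ c % 2 = 1 ∧ ye c i = c - 1) ∨
    (2 ≤ i ∧ ye c i = i - 1) := by
  unfold ye
  split_ifs <;> omega

def perm (c : ℕ) (hc : 6 ≤ c) : Equiv.Perm (Fin (c + 1)) where
  toFun i := ⟨pm c i, by have := i.2; have := pm_s c i; omega⟩
  invFun i := ⟨pmi c i, by have := i.2; have := pmi_s c i; omega⟩
  left_inv i := by
    have := i.2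
    have := pm_s c i
    have := pmi_s c (pm c i)
    apply Fin.ext
    show pmi c (pm c i) = i
    omega
  right_inv i := by
    have := i.2
    have := pmi_s c i
    have := pm_s c (pmi c i)
    apply Fin.ext
    show pm c (pmi c i) = i
    omega

lemma pt_ne (c : ℕ) (u v : Fin (c + 2)) :
    pt c u ≠ pt c v ↔ u.1 ≠ v.1 ∧ (c ≤ u.1 ∨ c ≤ v.1) := by
  have := u.2
  have := v.2
  unfold pt
  split_ifs <;> simp <;> omega

lemma pt_lt (c : ℕ) (u v : Fin (c + 2)) (h : pt c u < pt c v) : c ≤ u.1 ∧ v.1 < u.1 := by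
  have := u.2
  have := v.2
  unfold pt at h
  split_ifs at h <;> omega

lemma pt_card (c : ℕ) (P : Fin 3) :
    (univ.filter fun v => pt c v = P).card = ![1, 1, c] P := by
  have h0 : (univ.filter fun v => pt c v = 0).card = 1 := by
    refine card_eq_one.2 ⟨⟨c + 1, by omega⟩, ?_⟩
    ext v
    simp only [mem_filter, mem_univ, true_and, mem_singleton, Fin.ext_iff (a := v), pt]
    split_ifs <;> simp <;> omega
  have h1 : (univ.filter fun v => pt c v = 1).card = 1 := by
    refine card_eq_one.2 ⟨⟨c, by omega⟩, ?_⟩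
    ext v
    simp only [mem_filter, mem_univ, true_and, mem_singleton, Fin.ext_iff (a := v), pt]
    split_ifs <;> simp <;> omega
  have h := card_eq_sum_card_fiberwise (f := pt c) (s := univ) (t := univ) (fun _ _ => by simp)
  rw [Fin.sum_univ_three, h0, h1, card_univ, Fintype.card_fin] at h
  fin_cases P
  · exact h0
  · exact h1
  · show (univ.filter fun v => pt c v = 2).card = c
    omega

end CoreOne

open CoreOne in
/-- ONE: the core for `n = 1`. -/
theorem core_one {t : ℕ} (ht : 7 ≤ t) :
    ∃ (π : Equiv.Perm (Fin t)) (S : Finset (Fin t)),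
      Core (Fin t) 1 (t - 1) true π S ∧ S.card = 1 ∧ (∀ i, π i ≠ i) ∧ ∀ i, π (π i) ≠ i := by
  obtain ⟨c, rfl⟩ : ∃ c, t = c + 1 := ⟨t - 1, by omega⟩
  have hc : 6 ≤ c := by omega
  have e1 : ∀ i, (perm c hc i).1 = pm c i := fun _ => rfl
  have e2 : ∀ i, ((perm c hc).symm i).1 = pmi c i := fun _ => rfl
  refine ⟨perm c hc, {Fin.last c}, ?_, card_singleton _, fun i h => ?_, fun i h => ?_⟩
  · rw [Nat.add_sub_cancel]
    refine Core.mk_sets (V := Fin (c + 2)) (J := Fin c) true (perm c hc) {Fin.last c} (pt c)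
      (pt_card c) false (fun i => ⟨i.1, by omega⟩)
      (fun i => ⟨hb c i, by have := i.2; have := hb_s c i; omega⟩)
      (fun i => {⟨lf c i, by have := lf_s c i; omega⟩}) (fun _ => ∅) 1 0 1
      (fun a => ⟨a.1, by omega⟩) (fun a => ⟨lf c a, by have := lf_s c a; omega⟩)
      (fun a => ⟨ye c a, by have := a.2; have := ye_s c a; omega⟩)
      (fun i j h => ?_) (fun i j h => ?_) (fun v => ?_) (fun v => ?_) (fun i => ?_)
      (fun h => absurd h (by decide)) (fun i => card_singleton _) (fun i => card_empty)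
      (fun i => disjoint_empty_right _) (fun i v hv => ?_) (fun i v hv => absurd hv (notMem_empty _))
      (fun _ i => ?_) (fun a => mem_singleton_self _) (fun h => absurd h (by decide))
      (fun _ a => ?_) (fun a b h _ => ?_) (fun i => ?_) (fun a => ?_) ?_ (fun u v huv => ?_)
    · exact Fin.ext (by simpa using h)
    · have := i.2
      have := j.2
      have := hb_s c i
      have := hb_s c j
      apply Fin.ext
      simp only [Fin.mk.injEq] at h
      omega
    · have := v.2
      constructor
      · intro h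
        have h1 : v.1 ≠ c + 1 := fun h1 => h (by simp [pt, h1])
        exact ⟨⟨v.1, by omega⟩, rfl⟩
      · rintro ⟨i, rfl⟩
        have := i.2
        simp only [pt]
        split_ifs <;> omega
    · have := v.2
      constructor
      · intro h
        have h1 : v.1 ≠ c := fun h1 => h (by simp [pt, h1])
        obtain ⟨k, hk, hk2⟩ : ∃ k, k < c + 1 ∧ hb c k = v.1 := by
          by_cases h2 : v.1 = c + 1
          · exact ⟨c, by omega, by have := hb_s c c; omega⟩
          by_cases h3 : v.1 = 0
          · exact ⟨c - 1, by omega, by have := hb_s c (c - 1); omega⟩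
          · exact ⟨v.1 - 1, by omega, by have := hb_s c (v.1 - 1); omega⟩
        exact ⟨⟨k, hk⟩, Fin.ext hk2⟩
      · rintro ⟨i, rfl⟩
        have := i.2
        have := hb_s c i
        simp only [pt]
        split_ifs <;> omega
    · have := i.2
      have := hb_s c i
      simp only [ne_eq, Fin.mk.injEq]
      omega
    · have := i.2
      have := hb_s c i
      have := lf_s c i
      rw [mem_singleton.1 hv, pt_ne]
      simp only [ne_eq, Fin.mk.injEq]
      omega
    · have := i.2
      have := hb_s c i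
      have := pm_s c i
      have := hb_s c (pm c i)
      have := lf_s c (pm c i)
      simp only [ne_eq, Fin.mk.injEq, mem_singleton, notMem_empty, not_false_eq_true, and_true, e1]
      omega
    · have := a.2
      have := hb_s c a
      have := pmi_s c a
      have := hb_s c (pmi c a)
      have := lf_s c a
      have := ye_s c a
      simp only [ne_eq, Fin.mk.injEq, mem_singleton, notMem_empty, not_false_eq_true, true_and, e2]
      omega
    · exact Fin.ext (by simpa using h)
    · have := i.2
      by_cases h : i.1 = c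
      · rw [if_pos (mem_singleton.2 (Fin.ext h)), filter_eq_empty_iff.2, card_empty]
        intro a _ ha
        have := a.2
        have := congrArg Fin.val ha
        simp only at this
        omega
      · rw [if_neg (fun h1 => h (congrArg Fin.val (mem_singleton.1 h1))), add_zero]
        refine card_eq_one.2 ⟨⟨i.1, by omega⟩, ?_⟩
        ext a
        simp [Fin.ext_iff]
    · have := a.2
      have := lf_s c a
      have := ye_s c a
      rw [pt_ne]
      simp only
      omega
    · simp only [Fintype.card_fin, card_singleton, Bool.false_eq_true, if_false]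
      ring
    · obtain ⟨h1, h2⟩ := pt_lt c u v huv
      clear huv
      have := u.2
      have := lf_s c v
      simp only [mem_singleton, notMem_empty, and_false, Bool.false_eq_true, false_and, or_false,
        Fin.ext_iff]
      by_cases h3 : v.1 = c
      · by_cases h6 : c % 2 = 0
        · refine Or.inr ⟨⟨1, by omega⟩, ?_⟩
          have := lf_s c 1
          have := ye_s c 1
          simp only
          omega
        · refine Or.inr ⟨⟨0, by omega⟩, ?_⟩
          have := lf_s c 0
          have := ye_s c 0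
          simp only
          omega
      by_cases h4 : u.1 = c ∧ v.1 = 0
      · refine Or.inl ⟨⟨c, by omega⟩, Or.inl ?_⟩
        have := lf_s c c
        simp only
        omega
      by_cases h5 : u.1 = lf c v.1
      · exact Or.inl ⟨⟨v.1, by omega⟩, Or.inr ⟨rfl, h5⟩⟩
      · obtain ⟨k, hk, hk2⟩ : ∃ k, k < c ∧ lf c k = u.1 ∧ ye c k = v.1 := by
          by_cases h6 : v.1 = c - 1
          · by_cases h7 : c % 2 = 0
            · exact ⟨0, by omega, by have := lf_s c 0; have := ye_s c 0; omega⟩
            · exact ⟨1, by omega, by have := lf_s c 1; have := ye_s c 1; omega⟩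
          · exact ⟨v.1 + 1, by omega,
              by have := lf_s c (v.1 + 1); have := ye_s c (v.1 + 1); omega⟩
        exact Or.inr ⟨⟨k, hk⟩, Or.inl hk2⟩
  · have := i.2
    have h1 := congrArg Fin.val h
    rw [e1] at h1
    have := pm_s c i
    omega
  · have := i.2
    have h1 := congrArg Fin.val h
    rw [e1, e1] at h1
    have := pm_s c i
    have := pm_s c (pm c i)
    omega

end Pool.Agent.Lib.MP_351560_co
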