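import Mathlib
import Pool.Agent.Lib.MP_351560_co.CoreDef

set_option autoImplicit false
set_option linter.unusedSimpArgs false
set_option linter.unusedVariables false

namespace Pool.Agent.Lib.MP_351560_co

open Finset

/-- A function with two marked points has fibre sizes independent of the marked points. -/
lemma two_pt {X Λ : Type} [Fintype X] [DecidableEq X] [DecidableEq Λ] (A B C : Λ)
    (a b a' b' : X) (h : a ≠ b) (h' : a' ≠ b') (l : Λ) :
    (univ.filter fun u => (if u = a then A else if u = b then B else C) = l).card =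
      (univ.filter fun u => (if u = a' then A else if u = b' then B else C) = l).card := by
  obtain ⟨e, he⟩ := Equiv.Perm.exists_extending_pair (f := fun q : Bool => cond q a b)
    (g := fun q : Bool => cond q a' b')
    (by rintro (_ | _) (_ | _) hh <;> simp_all) (by rintro (_ | _) (_ | _) hh <;> simp_all)
  have e1 : e a = a' := he true
  have e2 : e b = b' := he false
  refine card_bijective e e.bijective fun u => ?_
  simp only [mem_filter, mem_univ, true_and, ← e1, ← e2, e.injective.eq_iff]

/-- A map on the times with prescribed fibres and prescribed fibres inside `S`. -/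
lemma exists_row {t α : ℕ} (S : Finset (Fin t)) (o f : Fin α → ℕ) (ho : ∑ u, o u = t)
    (hf : ∑ u, f u = S.card) (hfo : ∀ u, f u ≤ o u) :
    ∃ r : Fin t → Fin α, (∀ u, (univ.filter fun i => r i = u).card = o u) ∧
      ∀ u, (univ.filter fun i => r i = u ∧ i ∈ S).card = f u := by
  obtain ⟨g1, hg1⟩ := exists_fib (α := {i // i ∈ S}) f (by simp [hf])
  obtain ⟨g2, hg2⟩ := exists_fib (α := {i // i ∉ S}) (fun u => o u - f u) (by
    have e1 : ∑ u, (o u - f u) + ∑ u, f u = ∑ u, o u := by
      rw [← sum_add_distrib]
      exact sum_congr rfl fun u _ => Nat.sub_add_cancel (hfo u)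
    rw [Fintype.card_subtype_compl]
    simp only [Fintype.card_fin, Fintype.card_coe]
    omega)
  let r : Fin t → Fin α := fun i => if h : i ∈ S then g1 ⟨i, h⟩ else g2 ⟨i, h⟩
  have r1 : ∀ u, (univ.filter fun i => r i = u ∧ i ∈ S).card = f u := fun u => by
    rw [← hg1 u, ← card_map (Function.Embedding.subtype _)]
    congr 1
    ext i
    by_cases h : i ∈ S <;> simp [r, h]
  have r2 : ∀ u, (univ.filter fun i => r i = u ∧ i ∉ S).card = o u - f u := fun u => by
    rw [← hg2 u, ← card_map (Function.Embedding.subtype _)]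
    congr 1
    ext i
    by_cases h : i ∈ S <;> simp [r, h]
  refine ⟨r, fun u => ?_, r1⟩
  rw [← card_filter_add_card_filter_not (s := univ.filter fun i => r i = u) (fun i => i ∈ S),
    filter_filter, filter_filter, r1, r2]
  have := hfo u
  omega

/-- The schedule of the outside edges for OUT-B. -/
lemma outB_sched {t α β N ε : ℕ} (S : Finset (Fin t)) (hα : α < t)
    (hN : α * β = N * t + S.card) (o f : Fin α → ℕ) (hε : ε ≤ 1) (ho : ∑ u, o u = t)
    (hf : ∑ u, f u = S.card) (hfo : ∀ u, f u ≤ o u) (hE : ∀ u, f u + ε * o u ≤ β)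
    (hI : ∀ u, 2 * o u + β ≤ t + f u + ε * o u) :
    ∃ (r : Fin t → Fin α) (δ : Fin t ≃ Fin t) (θ : Fin α → Fin β → Fin t),
      (∀ i, r i ≠ r (δ i)) ∧ (∀ u b b', θ u b = θ u b' → b = b') ∧
      (∀ b u u', θ u b = θ u' b → u = u') ∧
      (∀ i, (univ.filter fun z : Fin α × Fin β => θ z.1 z.2 = i ∧ z.1 = r i).card =
        if i ∈ S then 1 else 0) ∧
      (∀ i, (univ.filter fun z : Fin α × Fin β => θ z.1 z.2 = i ∧ z.1 = r (δ i)).card = ε) ∧
      ∀ i, (univ.filter fun z : Fin α × Fin β =>
        θ z.1 z.2 = i ∧ z.1 ≠ r i ∧ z.1 ≠ r (δ i)).card = N - ε := by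
  have ht : 0 < t := by omega
  let E : Fin α → ℕ := fun u => β - (f u + ε * o u)
  let I : Fin α → ℕ := fun u => t - (2 * o u + E u)
  have hE1 : ∀ u, E u + (f u + ε * o u) = β := fun u => Nat.sub_add_cancel (hE u)
  have hI1 : ∀ u, I u + (2 * o u + E u) = t := fun u => Nat.sub_add_cancel (by
    have := hE1 u
    have := hI u
    omega)
  have sE : ∑ u, E u + ε * t = N * t := by
    have : ∑ u, (E u + (f u + ε * o u)) = α * β := by simp [hE1]
    rw [sum_add_distrib, sum_add_distrib, ← mul_sum, ho, hf, hN] at this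
    omega
  have hεN : ε ≤ N := Nat.le_of_mul_le_mul_right (by omega) ht
  have sE' : ∑ u, E u = t * (N - ε) := by
    rw [mul_comm, Nat.sub_mul]
    omega
  have sI : ∑ u, I u + (2 + (N - ε)) * t = α * t := by
    have : ∑ u, (I u + (2 * o u + E u)) = α * t := by simp [hI1]
    rw [sum_add_distrib, sum_add_distrib, ← mul_sum, ho, sE'] at this
    rw [← this]
    ring
  have hαN : 2 + (N - ε) ≤ α := Nat.le_of_mul_le_mul_right (by omega) ht
  have sI' : ∑ u, I u = t * (α - (2 + (N - ε))) := by
    rw [mul_comm, Nat.sub_mul]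
    omega
  obtain ⟨st0, hs1, hs2⟩ := sched_state (D := Fin α) (S := Fin 4)
    (fun u => ![o u, o u, E u, I u]) ![1, 1, N - ε, α - (2 + (N - ε))] t
    (by simp [Fin.sum_univ_four]; omega)
    (fun u => by have := hI1 u; simp [Fin.sum_univ_four]; omega)
    (fun σ => by fin_cases σ <;> simp [ho, sE', sI'])
  have hO : ∀ i, ∃ u, ∀ u', st0 i u' = 0 ↔ u' = u := fun i => by
    obtain ⟨u, hu⟩ := card_eq_one.1 (hs2 i 0)
    exact ⟨u, fun u' => by simpa using congrArg (u' ∈ ·) hu⟩
  have hD : ∀ i, ∃ u, ∀ u', st0 i u' = 1 ↔ u' = u := fun i => by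
    obtain ⟨u, hu⟩ := card_eq_one.1 (hs2 i 1)
    exact ⟨u, fun u' => by simpa using congrArg (u' ∈ ·) hu⟩
  choose rO hrO using hO
  choose rD hrD using hD
  have cO : ∀ u, (univ.filter fun i => rO i = u).card = o u := fun u => by
    rw [← show _ = o u from hs1 u 0]
    simp only [hrO, eq_comm]
  have cD : ∀ u, (univ.filter fun i => rD i = u).card = o u := fun u => by
    rw [← show _ = o u from hs1 u 1]
    simp only [hrD, eq_comm]
  obtain ⟨r, hr1, hr2⟩ := exists_row S o f ho hf hfo
  obtain ⟨e, he⟩ := fib_equiv r rO fun u => by rw [hr1, cO]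
  obtain ⟨δ0, hδ0⟩ := fib_equiv rD rO fun u => by rw [cD, cO]
  let δ : Fin t ≃ Fin t := e.trans (δ0.trans e.symm)
  let st : Fin t → Fin α → Fin 4 := fun i => st0 (e i)
  have k0 : ∀ i u, st i u = 0 ↔ u = r i := fun i u => by rw [← he]; exact hrO _ _
  have k1 : ∀ i u, st i u = 1 ↔ u = r (δ i) := fun i u => by
    rw [← he]
    simp only [δ, Equiv.trans_apply, Equiv.apply_symm_apply, hδ0]
    exact hrD _ _
  have k2 : ∀ u σ, (univ.filter fun i => st i u = σ).card = ![o u, o u, E u, I u] σ :=
    fun u σ => by
      rw [← hs1 u σ]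
      exact card_bijective e e.bijective (by simp [st])
  have k3 : ∀ i σ, (univ.filter fun u => st i u = σ).card =
      ![1, 1, N - ε, α - (2 + (N - ε))] σ := fun i σ => hs2 _ σ
  let y : Fin α → Fin t → ℕ := fun u i => (if st i u = 2 then 1 else 0) +
    ε * (if st i u = 1 then 1 else 0) + if u = r i ∧ i ∈ S then 1 else 0
  have hβ : ∀ i, N + (if i ∈ S then 1 else 0) ≤ β := fun i => by
    rcases Nat.eq_zero_or_pos β with rfl | hb
    · have h0 : N * t + S.card = 0 := by rw [← hN, mul_zero]
      have h1 : N = 0 := by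
        rcases Nat.mul_eq_zero.1 (show N * t = 0 by omega) with h | h <;> omega
      have h2 : S = ∅ := card_eq_zero.1 (by omega)
      simp [h1, h2]
    · have h1 : N * t < β * t := by
        have := Nat.mul_lt_mul_of_pos_right hα hb
        rw [mul_comm β]
        omega
      have := Nat.lt_of_mul_lt_mul_right h1
      split_ifs <;> omega
  obtain ⟨θ, hθ1, hθ2⟩ := sched y β (fun u => by
    simp only [y, sum_add_distrib, ← mul_sum, ← card_filter, k2]
    rw [show (univ.filter fun i => u = r i ∧ i ∈ S).card = f u by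
      rw [← hr2 u]; simp only [eq_comm]]
    have := hE1 u
    simp only [Matrix.cons_val]
    omega) (fun i => by
    simp only [y, sum_add_distrib, ← mul_sum, ← card_filter, k3]
    rw [show (univ.filter fun u => u = r i ∧ i ∈ S).card = if i ∈ S then 1 else 0 by
      split_ifs with h <;> simp [h, filter_eq']]
    have := hβ i
    simp only [Matrix.cons_val]
    omega)
  have hne : ∀ i, r i ≠ r (δ i) := fun i h => by
    have a1 := (k0 i _).2 rfl
    have a2 := (k1 i _).2 h
    rw [a1] at a2
    exact absurd a2 (by decide)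
  have hy : ∀ u i, y u i ≤ 1 := fun u i => by
    simp only [y, ← k0]
    generalize st i u = σ
    fin_cases σ <;> simp <;> first | omega | (split_ifs <;> omega)
  have cnt : ∀ i (q : Fin α → Prop) [DecidablePred q],
      (univ.filter fun z : Fin α × Fin β => θ z.1 z.2 = i ∧ q z.1).card =
        ∑ u, if q u then y u i else 0 := fun i q _ => by
    rw [card_filter, Fintype.sum_prod_type]
    refine sum_congr rfl fun u _ => ?_
    split_ifs with h
    · simp only [h, and_true, ← card_filter, hθ1]
    · simp [h]
  refine ⟨r, δ, θ, hne, fun u b b' h => ?_, hθ2, fun i => ?_, fun i => ?_, fun i => ?_⟩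
  · have := (hθ1 u (θ u b')).trans_le (hy _ _)
    exact card_le_one.1 this b (by simp [h]) b' (by simp)
  · rw [cnt i fun u => u = r i]
    simp [y, (k0 i _).2 rfl]
  · rw [cnt i fun u => u = r (δ i)]
    simp [y, (k1 i _).2 rfl, (hne i).symm]
  · rw [cnt i fun u => u ≠ r i ∧ u ≠ r (δ i), ← show _ = N - ε from k3 i 2, card_filter]
    refine sum_congr rfl fun u _ => ?_
    simp only [y, ne_eq, ← k0 i u, ← k1 i u]
    generalize st i u = σ
    fin_cases σ <;> simp

/-- OUT-B: bridges, off and double lines on the real vertices of the first part. -/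
theorem outB {t n c α β N s ε : ℕ} (h : Core0 t n c s) (hα : α < t) (hN : α * β = N * t + s)
    (o f : Fin α → ℕ) (hε : ε ≤ 1) (ho : ∑ u, o u = t) (hf : ∑ u, f u = s) (hfo : ∀ u, f u ≤ o u)
    (hE : ∀ u, f u + ε * o u ≤ β) (hI : ∀ u, 2 * o u + β ≤ t + f u + ε * o u) (ν : ℕ) :
    Good t ![n + α, n + β + ν * t, c] := by
  classical
  obtain ⟨S, rfl, hS⟩ := h
  obtain ⟨V, J, _, _, p, adj, lt, τ, x, y, κ, h1, h2, h3, h4, h5, h6, -, h8, h9, h10, h11, h12,
    h13⟩ := hS 1
  obtain ⟨r, δ, θ, hr, hθ1, hθ2, c1, c2, c3⟩ := outB_sched S hα hN o f hε ho hf hfo hE hI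
  let p' : V ⊕ Fin α ⊕ Fin β → Fin 3 := fun z => match z with
    | .inl v => p v
    | .inr (.inl _) => 0
    | .inr (.inr _) => 1
  let lb : Fin t → Fin α → Fin 6 ⊕ Bool := fun i u =>
    if u = r i then .inl 2 else if u = r (δ i) then .inr true else .inr false
  let lab : Fin t → V ⊕ Fin α ⊕ Fin β → Fin 6 ⊕ Bool := fun i z => match z with
    | .inl v => .inl (lt i v)
    | .inr (.inl u) => lb i u
    | .inr (.inr _) => .inl 3
  let k : Fin 6 ⊕ Bool → Fin 6 ⊕ Bool → Prop := fun l l' => match l, l' with
    | .inl a, .inl b => kc adj a b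
    | .inl a, .inr _ => a = 0
    | .inr _, _ => False
  let τ' : J ⊕ Fin α × Fin β → Fin t := Sum.elim τ fun z => θ z.1 z.2
  let x' : J ⊕ Fin α × Fin β → V ⊕ Fin α ⊕ Fin β :=
    Sum.elim (fun a => .inl (x a)) fun z => .inr (.inl z.1)
  let y' : J ⊕ Fin α × Fin β → V ⊕ Fin α ⊕ Fin β :=
    Sum.elim (fun a => .inl (y a)) fun z => .inr (.inr z.2)
  have q1 : ∀ i u l, ¬ k (lb i u) l := fun i u l => by
    simp only [lb]
    split_ifs
    · rcases l with l | l <;> simp [k, kc]
    · exact id
    · exact id
  have q2 : ∀ i u a, k (.inl a) (lb i u) ↔ a = 0 := fun i u a => by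
    simp only [lb]
    split_ifs <;> simp [k, kc]
  have q3 : ∀ a, k (.inl a) (.inl 3) ↔ a = 1 := fun a => by simp [k, kc]
  have q4 : ∀ l, ¬ k (.inl 3) l := by
    rintro (l | l) <;> simp [k, kc]
  have hLF : LF p' t lab := by
    refine LF.of_match p' t lab k τ' x' y' ?_ ?_ ?_ ?_ ?_ ?_ ?_ ?_
    · rintro (a | ⟨u, b⟩) (a' | ⟨u', b'⟩) e1 e2 <;> simp [x', τ'] at e1 e2 ⊢
      · exact h9 _ _ e1 (.inl e2)
      · subst e2
        exact ⟨rfl, hθ1 _ _ _ e1⟩
    · rintro (a | ⟨u, b⟩) (a' | ⟨u', b'⟩) e1 e2 <;> simp [y', τ'] at e1 e2 ⊢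
      · exact h9 _ _ e1 (.inr e2)
      · subst e2
        exact ⟨hθ2 _ _ _ e1, rfl⟩
    · rintro (a | ⟨u, b⟩) (a' | ⟨u', b'⟩) e1 <;> simp [x', y', τ'] at e1 ⊢
      intro e2
      have a1 := (h8 a).1
      have a2 := (h8 a').2
      rw [e1, e2, a2] at a1
      simp at a1
    · rintro i (v | u | b) (v' | u' | b') hk
      · exact h11 i v v' hk
      · exact h3 i v ((q2 _ _ _).1 hk)
      · exact h5 i v ((q3 _).1 hk)
      · exact absurd hk (q1 i u (lab i (.inl v')))
      · exact absurd hk (q1 i u (lab i (.inr (.inl u'))))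
      · exact absurd hk (q1 i u (lab i (.inr (.inr b'))))
      · exact absurd hk (q4 (lab i (.inl v')))
      · exact absurd hk (q4 (lab i (.inr (.inl u'))))
      · exact absurd hk (q4 (lab i (.inr (.inr b'))))
    · rintro (a | ⟨u, b⟩)
      · exact h12 a
      · simp [x', y', p']
    · rintro (v | u | b) (v' | u' | b') hk
      · refine (existsUnique_congr fun i => ?_).1 (h13 v v' hk)
        simp [lab, k, x', y', τ']
      · simp [p'] at hk
      · refine (existsUnique_congr fun i => ?_).1 (h6 v hk.ne)
        simp [lab, q3, q4, x', y', τ']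
      · refine (existsUnique_congr fun i => ?_).1 (h4 v' hk.ne')
        simp [lab, q1, q2, x', y', τ']
      · simp [p'] at hk
      · refine ⟨θ u b', by simp [x', y', τ'], fun i => ?_⟩
        simp [lab, q1, q4, x', y', τ', eq_comm]
      · refine (existsUnique_congr fun i => ?_).1 (h6 v' hk.ne')
        simp [lab, q3, q4, x', y', τ']
      · simp [p'] at hk
      · simp [p'] at hk
    · have key : ∀ l l' i, (univ.filter fun a => τ' a = i ∧ lab i (x' a) = l ∧
          lab i (y' a) = l').card = if l' = .inl 3 then (if l = .inl 2 then κ else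
            if l = .inr true then ε else if l = .inr false then N - ε else 0) else 0 := by
        intro l l' i
        have e1 : (univ.filter fun a : J => τ a = i ∧ lab i (.inl (x a)) = l ∧
            lab i (.inl (y a)) = l') = univ.filter fun a : J => τ a = i ∧ .inl 2 = l ∧
              .inl 3 = l' := filter_congr fun a _ => and_congr_right fun e => by
          subst e
          simp only [lab, (h8 a).1, (h8 a).2, Bool.false_eq_true, if_false]
        rw [card_filter, Fintype.sum_sum_type, ← card_filter, ← card_filter]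
        simp only [τ', x', y', Sum.elim_inl, Sum.elim_inr]
        rw [e1]
        split_ifs with a1 a2 a3 a4
        · subst a1 a2
          rw [← h10 i, ← c1 i]
          congr 2
          · simp
          · ext z
            simp only [lab, lb, mem_filter, mem_univ, true_and, and_true]
            split_ifs with b1 b2 <;> simp [b1]
        · subst a1 a3
          rw [← c2 i]
          simp only [reduceCtorEq, false_and, and_false, filter_false, card_empty, zero_add]
          congr 1
          ext z
          simp only [lab, lb, mem_filter, mem_univ, true_and, and_true]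
          split_ifs with b1 b2
          · simp [b1, hr i]
          · simp [b2]
          · simp [b2]
        · subst a1 a4
          rw [← c3 i]
          simp only [reduceCtorEq, false_and, and_false, filter_false, card_empty, zero_add]
          congr 1
          ext z
          simp only [lab, lb, mem_filter, mem_univ, true_and, and_true]
          split_ifs with b1 b2
          · simp [b1]
          · simp [b2]
          · simp [b1, b2]
        · rw [Nat.add_eq_zero_iff, card_eq_zero, card_eq_zero, filter_eq_empty_iff,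
            filter_eq_empty_iff]
          refine ⟨fun a _ hh => a2 hh.2.1.symm, fun z _ hh => ?_⟩
          have := hh.2.1
          simp only [lab, lb] at this
          split_ifs at this
          exacts [a2 this.symm, a3 this.symm, a4 this.symm]
        · rw [Nat.add_eq_zero_iff, card_eq_zero, card_eq_zero, filter_eq_empty_iff,
            filter_eq_empty_iff]
          exact ⟨fun a _ hh => a1 hh.2.2.symm, fun z _ hh => a1 hh.2.2.symm⟩
      intro l l' i j
      rw [key, key]
    · intro l i j
      simp only [card_filter, Fintype.sum_sum_type, lab]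
      simp only [← card_filter]
      rw [two_pt _ _ _ _ _ _ _ (hr i) (hr j)]
      congr 1
      rcases l with l | l
      · simpa using h2 l i j
      · simp
  have hδ : ∀ i, i ≠ δ i := fun i e => hr i (congrArg r e)
  have := hLF.extend_role (fun _ i x => if x = i then (0 : Fin 3) else if x = δ i then 1 else 2) 0
    (fun l _ ρ => match l with
      | .inl a => a = 1
      | .inr false => ρ = 0
      | .inr true => ρ = 0 ∨ ρ = 1) ![0, ν, 0]
    (fun _ ρ i j => two_pt _ _ _ _ _ _ _ (hδ i) (hδ j) ρ) (fun _ x => by
      refine ⟨x, by simp, fun i hi => ?_⟩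
      by_contra hne
      simp only [if_neg (Ne.symm hne)] at hi
      split_ifs at hi <;> simp at hi) (by
      intro P hP
      obtain rfl : P = 1 := by fin_cases P <;> simp_all
      rintro i (v | u | b) ρ hv
      · exact fun hh => h5 i v hh hv
      · simp [p'] at hv
      · simp [lab]) (by
      intro P hP
      obtain rfl : P = 1 := by fin_cases P <;> simp_all
      rintro (v | u | b) x hv
      · exact h6 v hv
      · by_cases hu : u = r x
        · obtain ⟨i, rfl⟩ := δ.surjective x
          refine ⟨i, ?_, fun j hj => ?_⟩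
          · simp [lab, lb, hu, (hr i).symm, (hδ i).symm]
          · simp only [lab, lb] at hj
            split_ifs at hj <;> simp_all
        · refine ⟨x, ?_, fun j hj => ?_⟩
          · simp only [lab, lb, if_neg hu]
            split_ifs <;> simp
          · simp only [lab, lb] at hj
            split_ifs at hj <;> simp_all
      · simp [p'] at hv)
  convert this using 2 with P
  rw [card_filter, Fintype.sum_sum_type, Fintype.sum_sum_type, ← card_filter, h1]
  fin_cases P <;> simp [p']

end Pool.Agent.Lib.MP_351560_co
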