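import Mathlib
import Pool.Agent.Lib.MP_351560_co.OutB
import Pool.Agent.Lib.MP_351560_co.DenseNum
import Pool.Agent.Lib.MP_351560_co.Main

set_option autoImplicit false
set_option linter.unusedSimpArgs false
set_option linter.unusedVariables false

namespace Pool.Agent.Lib.MP_351560_co

open Finset

/-- Two parts that are unions of cycles. -/
lemma good_triv {t : ℕ} (ht : 0 < t) (μ ν c : ℕ) : Good t ![μ * t, ν * t, c] := by
  have : NeZero t := ⟨ht.ne'⟩
  have h : LF (fun _ : Fin c => (2 : Fin 3)) t (fun _ _ => ()) :=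
    ⟨fun _ _ _ => False, fun _ _ _ => id, fun _ _ _ => False.elim, fun _ _ h => (h rfl).elim,
      fun _ _ => ⟨Equiv.refl _, fun _ _ => Iff.rfl, fun _ => rfl⟩⟩
  have := h.extend (fun _ _ d => d = 0) ![μ, ν, 0] (fun P hP i v d e => by
    subst e
    exact absurd rfl hP) fun P _ v j _ =>
      ⟨j, sub_self j, fun i e => (sub_eq_zero.1 e).symm⟩
  convert this using 2 with P
  fin_cases P <;> simp

lemma pick_xy {α A B SA SB : ℕ} (hα : 0 < α) (h1 : SA ≤ α * A) (h2 : SA + 2 * SB + α ≤ α * B) :
    ∃ x y : Fin α → ℕ, ∑ u, x u = SA ∧ ∑ u, y u = SB ∧ ∀ u, x u ≤ A ∧ 2 * y u + x u ≤ B := by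
  obtain ⟨x, x1, x2⟩ := exists_between (B := Fin α) (fun _ => 0) (fun _ => min A B) (by simp) SA
    (by simp) (by
      simp only [sum_const, card_univ, Fintype.card_fin, smul_eq_mul]
      rcases le_total A B with h | h
      · rwa [min_eq_left h]
      · rw [min_eq_right h]
        omega)
  obtain ⟨y, y1, y2⟩ := exists_between (B := Fin α) (fun _ => 0) (fun u => (B - x u) / 2) (by simp)
    SB (by simp) (by
      have : ∑ u : Fin α, B ≤ ∑ u, (2 * ((B - x u) / 2) + x u + 1) :=
        sum_le_sum fun u _ => by omega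
      simp only [sum_add_distrib, ← mul_sum, sum_const, card_univ, Fintype.card_fin, smul_eq_mul,
        x2] at this
      omega)
  exact ⟨x, y, x2, y2, fun u => by have := x1 u; have := y1 u; omega⟩

/-- The case of a core with bridges when the first part has no further cycle. -/
lemma outB_all {t n c α β : ℕ} (ht : 7 ≤ t) (hc : 0 < c) (hcα : c ≤ α) (hn : n + c = t)
    (h : Core0 t n c (c * c % t)) (hα : α < t) (hβ : β < t) (hN : α * β % t = c * c % t)
    (h1 : ∀ k ν, t = 2 * k + 1 → Good (2 * k + 1) ![2 * k + 2, k + ν * (2 * k + 1), 1]) (ν : ℕ) :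
    Good t ![n + α, n + β + ν * t, c] := by
  have e1 := (Nat.div_add_mod' (α * β) t).symm
  rw [hN] at e1
  have e2 : c * c % t < t := Nat.mod_lt _ (by omega)
  generalize α * β / t = N at e1
  have e3 : N < α := Nat.lt_of_mul_lt_mul_right (a := t) (by
    have := Nat.mul_lt_mul_of_pos_left hβ (show 0 < α by omega)
    omega)
  obtain ⟨γ, hγ⟩ : ∃ γ, t = β + γ := ⟨t - β, by omega⟩
  have e4 : α * t = α * β + α * γ := by rw [hγ, mul_add]
  have one : ∀ f g : Fin α → ℕ, ∑ u, g u = t - c * c % t → ∑ u, f u = c * c % t →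
      (∀ u, g u ≤ γ ∧ 2 * f u + g u ≤ β) → Good t ![n + α, n + β + ν * t, c] :=
    fun f g a1 a2 a3 => outB (ε := 1) h hα e1 (fun u => f u + g u) f le_rfl
      (by rw [sum_add_distrib]; omega) a2 (fun u => by omega) (fun u => by have := a3 u; omega)
      (fun u => by have := a3 u; omega) ν
  by_cases c1 : 2 ≤ N
  · have := Nat.mul_le_mul_right t c1
    have := Nat.mul_le_mul_right t (show N + 1 ≤ α from e3)
    rw [add_mul] at this
    obtain ⟨g, f, a1, a2, a3⟩ := pick_xy (α := α) (A := γ) (B := β) (SA := t - c * c % t)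
      (SB := c * c % t) (by omega) (by omega) (by omega)
    exact one f g a1 a2 a3
  by_cases c2 : N + 3 ≤ α
  · have := Nat.mul_le_mul_right t c2
    rw [add_mul] at this
    obtain ⟨f, g, a1, a2, a3⟩ := pick_xy (α := α) (A := β) (B := γ) (SA := c * c % t)
      (SB := t - c * c % t) (by omega) (by omega) (by omega)
    exact outB (ε := 0) h hα e1 (fun u => f u + g u) f (by omega)
      (by rw [sum_add_distrib]; omega) a1 (fun u => by omega) (fun u => by have := a3 u; omega)
      (fun u => by have := a3 u; omega) ν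
  have triv : α = c → β = c → Good t ![n + α, n + β + ν * t, c] := by
    rintro rfl rfl
    have := good_triv (t := t) (by omega) 1 (ν + 1) β
    rw [one_mul] at this
    rwa [hn, show t + ν * t = (ν + 1) * t by ring]
  by_cases c3 : c = 3 ∧ t ≤ 9
  · obtain ⟨rfl, c4⟩ := c3
    obtain rfl : α = 3 := by omega
    obtain rfl : N = 1 := by omega
    refine triv rfl ?_
    obtain rfl | rfl | rfl : t = 7 ∨ t = 8 ∨ t = 9 := by omega
    all_goals omega
  have hs : c * c % t = c * c := Nat.mod_eq_of_lt (by
    obtain rfl | rfl | rfl : c = 1 ∨ c = 2 ∨ c = 3 := by omega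
    all_goals omega)
  rw [hs] at one e1
  obtain rfl | rfl | rfl : α = 1 ∨ α = 2 ∨ α = 3 := by omega
  · obtain rfl : c = 1 := by omega
    obtain rfl : N = 0 := by omega
    exact triv rfl (by omega)
  · obtain rfl | rfl : c = 1 ∨ c = 2 := by omega
    · obtain rfl : N = 1 := by
        by_contra hne
        obtain rfl : N = 0 := by omega
        omega
      obtain ⟨k, rfl⟩ : ∃ k, β = k + 1 := ⟨β - 1, by omega⟩
      obtain rfl : t = 2 * k + 1 := by omega
      obtain rfl : n = 2 * k := by omega
      have := h1 k (ν + 1) rfl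
      rwa [show k + (ν + 1) * (2 * k + 1) = 2 * k + (k + 1) + ν * (2 * k + 1) by ring] at this
    · obtain rfl | rfl : N = 0 ∨ N = 1 := by omega
      · exact triv rfl (by omega)
      · exact one (fun _ => 2) (fun _ => β - 4) (by simp; omega) (by simp) fun u => by omega
  · obtain rfl : N = 1 := by omega
    obtain rfl | rfl | rfl : c = 1 ∨ c = 2 ∨ c = 3 := by omega
    · exact one ![1, 0, 0] ![β - 2, β, β] (by simp [Fin.sum_univ_three]; omega)
        (by simp [Fin.sum_univ_three]) fun u => by fin_cases u <;> simp <;> omega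
    · exact one ![2, 1, 1] ![β - 4, β - 2, β - 2] (by simp [Fin.sum_univ_three]; omega)
        (by simp [Fin.sum_univ_three]) fun u => by fin_cases u <;> simp <;> omega
    · exact one (fun _ => 3) (fun _ => β - 6) (by simp; omega) (by simp) fun u => by omega

end Pool.Agent.Lib.MP_351560_co
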