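import Mathlib
import Pool.Agent.Lib.MP_351560_co.CoreDef

set_option autoImplicit false
set_option linter.unusedSimpArgs false
set_option linter.unusedVariables false

namespace Pool.Agent.Lib.MP_351560_co

open Finset

namespace OutC

/-- States carrying an edge. -/
def cell (ε : ℕ) (s : Fin 4) : Prop := s = 2 ∨ (ε = 1 ∧ s = 1)

instance (ε : ℕ) : DecidablePred (cell ε) := fun s => by unfold cell; infer_instance

lemma uniq_of_card {α : Type} [Fintype α] {q : α → Prop} [DecidablePred q]
    (h : (univ.filter q).card = 1) : ∃ a, ∀ u, q u ↔ u = a := by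
  obtain ⟨a, ha⟩ := card_eq_one.1 h
  refine ⟨a, fun u => ?_⟩
  have := Finset.ext_iff.1 ha u
  simpa using this

lemma card_cell {X : Type} [Fintype X] {ε : ℕ} (hε : ε ≤ 1) (f : X → Fin 4) :
    (univ.filter fun x => cell ε (f x)).card =
      (univ.filter fun x => f x = 2).card + ε * (univ.filter fun x => f x = 1).card := by
  classical
  rcases Nat.le_one_iff_eq_zero_or_eq_one.1 hε with rfl | rfl
  · simp [cell]
  · rw [one_mul, ← card_union_of_disjoint]
    · congr 1
      ext x
      simp [cell]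
    · rw [disjoint_filter]
      intro x _ h h'
      rw [h] at h'
      exact absurd h' (by decide)

/-- The states of the rows. -/
lemma states {t α β N ε s : ℕ} (hα : α < t) (hN : α * β = N * t + s) (row : Fin t → Fin α)
    (k : Fin α → ℕ) (hks : ∑ u, k u + s = t) (hε : ε ≤ 1)
    (hE : ∀ u, ε * (univ.filter fun i => row i = u).card ≤ β + k u)
    (hI : ∀ u, (2 - ε) * (univ.filter fun i => row i = u).card + β + k u ≤ t) :
    ∃ (st : Fin t → Fin α → Fin 4) (δ : Equiv.Perm (Fin t)),
      (∀ i u, st i u = 0 ↔ u = row i) ∧ (∀ i u, st i u = 1 ↔ u = row (δ i)) ∧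
      (∀ i j, ∃ φ : Fin α ≃ Fin α, ∀ u, st j (φ u) = st i u) ∧
      (∀ u, (univ.filter fun i => cell ε (st i u)).card = β + k u) ∧
      ∀ i, (univ.filter fun u => cell ε (st i u)).card = N + 1 := by
  set o : Fin α → ℕ := fun u => (univ.filter fun i => row i = u).card with ho
  have hso : ∑ u, o u = t := (sum_fib row).trans (by simp)
  let e : Fin α → ℕ := fun u => β + k u - ε * o u
  let r : Fin α → ℕ := fun u => t - (2 * o u + e u)
  have he : ∀ u, e u + ε * o u = β + k u := fun u => Nat.sub_add_cancel (hE u)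
  have hr : ∀ u, o u + o u + e u + r u = t := by
    intro u
    have h1 := he u
    have h2 : (2 - ε) * o u + β + k u ≤ t := hI u
    have h3 : (2 - ε) * o u + ε * o u = 2 * o u := by
      rw [← add_mul]; congr 1; omega
    simp only [r]
    omega
  have hse : ∑ u, e u = t * (N + 1 - ε) := by
    have h1 : ∑ u, (e u + ε * o u) = ∑ u, (β + k u) := sum_congr rfl fun u _ => he u
    rw [sum_add_distrib, sum_add_distrib, ← mul_sum, hso] at h1
    simp only [sum_const, card_univ, Fintype.card_fin, smul_eq_mul] at h1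
    have h2 : t * (N + 1 - ε) + ε * t = t * (N + 1) := by
      rw [mul_comm ε, ← mul_add]; congr 1; omega
    nlinarith
  have hsr : t + t + t * (N + 1 - ε) + ∑ u, r u = α * t := by
    have h1 : ∑ u, (o u + o u + e u + r u) = ∑ u : Fin α, t := sum_congr rfl fun u _ => hr u
    simp only [sum_add_distrib, hso, hse, sum_const, card_univ, Fintype.card_fin,
      smul_eq_mul] at h1
    exact h1
  have ht : 0 < t := by omega
  have hc : 2 + (N + 1 - ε) ≤ α := by
    refine Nat.le_of_mul_le_mul_right ?_ ht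
    nlinarith [Nat.zero_le (∑ u, r u)]
  obtain ⟨c, hc'⟩ := Nat.exists_eq_add_of_le hc
  obtain ⟨st0, s1, s2⟩ := sched_state (D := Fin α) (S := Fin 4)
    (fun u => ![o u, o u, e u, r u]) ![1, 1, N + 1 - ε, c] t
    (by simp [Fin.sum_univ_four]; omega) (fun u => by simpa [Fin.sum_univ_four] using hr u)
    (fun σ => by
      fin_cases σ
      · simpa using hso
      · simpa using hso
      · simpa using hse
      · simp only [Fin.reduceFinMk, Matrix.cons_val]
        have h9 : α * t = (2 + (N + 1 - ε) + c) * t := congrArg (· * t) hc'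
        nlinarith)
  choose rO hO using fun a => uniq_of_card (q := fun u => st0 a u = 0) (by simpa using s2 a 0)
  choose rD hD using fun a => uniq_of_card (q := fun u => st0 a u = 1) (by simpa using s2 a 1)
  obtain ⟨g, hg⟩ := fib_equiv row rO (fun u => by
    have := s1 u 0
    simp only [hO, Matrix.cons_val_zero] at this
    rw [show (univ.filter fun b => rO b = u) = univ.filter fun b => u = rO b from
      filter_congr fun b _ => eq_comm, this])
  obtain ⟨δ, hδ⟩ := fib_equiv rD row (fun u => by
    have := s1 u 1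
    simp only [hD, Matrix.cons_val_one, Matrix.cons_val_zero] at this
    rw [show (univ.filter fun b => rD b = u) = univ.filter fun b => u = rD b from
      filter_congr fun b _ => eq_comm, this])
  refine ⟨fun i => st0 (g i), g.trans δ, fun i u => ?_, fun i u => ?_, fun i j => ?_,
    fun u => ?_, fun i => ?_⟩
  · rw [hO, hg]
  · rw [hD, Equiv.trans_apply, hδ]
  · exact fib_equiv _ _ fun l => by rw [s2, s2]
  · rw [card_bijective g g.bijective (t := univ.filter fun i => cell ε (st0 i u))
      (fun i => by simp), card_cell hε (fun i => st0 i u), s1, s1]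
    simpa using he u
  · rw [card_cell hε (st0 (g i)), s2, s2]
    simp only [Matrix.cons_val, Matrix.cons_val_one, Matrix.cons_val_zero]
    omega

/-- The schedule of the outside edges. -/
lemma schedule {t α β N ε : ℕ} {π : Equiv.Perm (Fin t)} {S : Finset (Fin t)}
    (hα : α < t) (hβ : 1 ≤ β)
    (hN : α * β = N * t + S.card) (row : Fin t → Fin α)
    (hk : ∀ i i', i ∉ S → i' ∉ S → row (π i) = row (π i') → i = i') (hε : ε ≤ 1)
    (hE : ∀ u, ε * (univ.filter fun i => row i = u).card ≤ β + 1)
    (hI : ∀ u, (2 - ε) * (univ.filter fun i => row i = u).card + β + 1 ≤ t)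
    (hrow : ∀ i, ∃ j, j ∉ S ∧ row (π j) = row i) :
    ∃ (st : Fin t → Fin α → Fin 4) (δ : Equiv.Perm (Fin t)) (θ : Fin α → Fin β → Fin t)
      (T : Fin t → Fin t),
      (∀ i u, st i u = 0 ↔ u = row i) ∧ (∀ i u, st i u = 1 ↔ u = row (δ i)) ∧
      (∀ i j, ∃ φ : Fin α ≃ Fin α, ∀ u, st j (φ u) = st i u) ∧
      (∀ u b, cell ε (st (θ u b) u)) ∧ (∀ u b b', θ u b = θ u b' → b = b') ∧
      (∀ b u u', θ u b = θ u' b → u = u') ∧ (∀ j ∈ S, T j = j) ∧
      (∀ j, j ∉ S → T j ≠ j ∧ cell ε (st (T j) (row (π j))) ∧ ∀ b, θ (row (π j)) b ≠ T j) ∧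
      ∀ i u, cell ε (st i u) → (∃ b, θ u b = i) ∨ ∃ j, j ∉ S ∧ row (π j) = u ∧ T j = i := by
  classical
  let K : Fin α → Finset (Fin t) := fun u => univ.filter fun j => j ∉ S ∧ row (π j) = u
  have hK1 : ∀ u, (K u).card ≤ 1 := fun u => card_le_one.2 fun a ha b hb => by
    simp only [K, mem_filter, mem_univ, true_and] at ha hb
    exact hk a b ha.1 hb.1 (ha.2.trans hb.2.symm)
  have hK2 : ∀ j, j ∉ S → (K (row (π j))).card = 1 := fun j hj =>
    le_antisymm (hK1 _) (card_pos.2 ⟨j, by simp [K, hj]⟩)
  obtain ⟨st, δ, s1, s2, s3, s4, s5⟩ := states (k := fun u => (K u).card) hα hN row (by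
      have h1 := card_eq_sum_card_fiberwise (f := fun j => row (π j)) (s := Sᶜ) (t := univ)
        (fun _ _ => by simp)
      have h2 : ∀ u, (Sᶜ.filter fun j => row (π j) = u) = K u := fun u => by
        ext j
        simp [K]
      simp only [h2] at h1
      rw [← h1, card_compl, Fintype.card_fin]
      have := card_le_univ S
      rw [Fintype.card_fin] at this
      omega) hε (fun u => by
      rcases (univ.filter fun i => row i = u).eq_empty_or_nonempty with h | ⟨i, hi⟩
      · simp [h]
      · obtain ⟨j, hj, hj'⟩ := hrow i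
        have h1 := hK2 j hj
        rw [hj', (mem_filter.1 hi).2] at h1
        rw [h1]
        exact hE u) (fun u => by
      have h1 := hK1 u
      have h2 := hI u
      omega)
  have hw : ∀ j, ∃ w, j ∉ S → w ≠ j ∧ cell ε (st w (row (π j))) := by
    intro j
    by_cases hj : j ∈ S
    · exact ⟨j, fun h => absurd hj h⟩
    · have h1 := s4 (row (π j))
      rw [hK2 j hj] at h1
      obtain ⟨w, hw1, hw2⟩ := exists_mem_ne
        (s := univ.filter fun i => cell ε (st i (row (π j)))) (by omega) j
      exact ⟨w, fun _ => ⟨hw2, (mem_filter.1 hw1).2⟩⟩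
  choose w hw using hw
  let ag : Fin α → Fin t → Prop := fun u i => ∃ j, j ∉ S ∧ row (π j) = u ∧ w j = i
  have hNβ : N + 1 ≤ β := by
    have h1 : N * t < β * t := by nlinarith
    exact Nat.lt_of_mul_lt_mul_right h1
  obtain ⟨θ, θ1, θ2⟩ := sched (fun u i => if cell ε (st i u) ∧ ¬ ag u i then 1 else 0) β
    (fun u => by
      rw [← card_filter]
      have h1 : (univ.filter fun i => cell ε (st i u) ∧ ¬ ag u i) =
          (univ.filter fun i => cell ε (st i u)) \ (K u).image w := by
        ext i
        simp [K, ag, and_assoc]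
      have h2 : (K u).image w ⊆ univ.filter fun i => cell ε (st i u) := by
        intro i hi
        obtain ⟨j, hj, rfl⟩ := mem_image.1 hi
        obtain ⟨-, hj1, rfl⟩ := mem_filter.1 hj
        exact mem_filter.2 ⟨mem_univ _, (hw j hj1).2⟩
      rw [h1, card_sdiff_of_subset h2, s4, card_image_of_injOn
        (fun a ha b hb _ => card_le_one.1 (hK1 u) a ha b hb)]
      omega) (fun i => by
      rw [← card_filter]
      refine le_trans (card_le_card ?_) ((s5 i).le.trans hNβ)
      intro u hu
      exact mem_filter.2 ⟨mem_univ _, (mem_filter.1 hu).2.1⟩)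
  have θ3 : ∀ u b, cell ε (st (θ u b) u) ∧ ¬ ag u (θ u b) := by
    intro u b
    by_contra h
    have h1 := θ1 u (θ u b)
    rw [if_neg h, card_eq_zero] at h1
    exact absurd (h1 ▸ mem_filter.2 ⟨mem_univ b, rfl⟩ : b ∈ (∅ : Finset (Fin β))) (notMem_empty _)
  refine ⟨st, δ, θ, fun j => if j ∈ S then j else w j, s1, s2, s3, fun u b => (θ3 u b).1,
    fun u b b' h => ?_, θ2, fun j hj => if_pos hj, fun j hj => ?_, fun i u h => ?_⟩
  · have h1 := θ1 u (θ u b)
    rw [if_pos (θ3 u b)] at h1
    exact card_le_one.1 h1.le b (by simp) b' (by simp [h])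
  · simp only [if_neg hj]
    exact ⟨(hw j hj).1, (hw j hj).2, fun b hb => (θ3 _ b).2 ⟨j, hj, rfl, hb.symm⟩⟩
  · by_cases ha : ag u i
    · obtain ⟨j, h1, h2, h3⟩ := ha
      exact .inr ⟨j, h1, h2, by simp only [if_neg h1, h3]⟩
    · have h1 := θ1 u i
      rw [if_pos ⟨h, ha⟩] at h1
      obtain ⟨b, hb⟩ := card_pos.1 (h1 ▸ Nat.one_pos)
      exact .inl ⟨b, (mem_filter.1 hb).2⟩

/-- Roles in a cycle: the hub, the second special vertex, the others. -/
def role {t : ℕ} (δ : Equiv.Perm (Fin t)) (i x : Fin t) : Fin 3 :=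
  if x = i then 0 else if x = δ i then 1 else 2

lemma role_equiv {t : ℕ} (δ : Equiv.Perm (Fin t)) (hδ : ∀ i, δ i ≠ i) (i j : Fin t) :
    ∃ e : Fin t ≃ Fin t, ∀ x, role δ j (e x) = role δ i x := by
  have hinj : ∀ i, Function.Injective fun b : Bool => if b then i else δ i := by
    rintro i (_ | _) (_ | _) h
    · rfl
    · exact absurd h (hδ i)
    · exact absurd h.symm (hδ i)
    · rfl
  obtain ⟨e, he, -⟩ := lab_extend _ _ (hinj i) (hinj j) (fun _ => ()) (fun _ => ())
    (fun _ => rfl) (fun _ => rfl)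
  have h1 : e i = j := he true
  have h2 : e (δ i) = δ j := he false
  refine ⟨e, fun x => ?_⟩
  have h3 : e x = j ↔ x = i := by rw [← h1]; exact e.injective.eq_iff
  have h4 : e x = δ j ↔ x = δ i := by rw [← h2]; exact e.injective.eq_iff
  simp only [role, h3, h4]

lemma role_zero {t : ℕ} (δ : Equiv.Perm (Fin t)) (i x : Fin t) : role δ i x = 0 ↔ x = i := by
  unfold role
  split_ifs with h1 h2 <;> simp [h1]

lemma role_one {t : ℕ} (δ : Equiv.Perm (Fin t)) (hδ : ∀ i, δ i ≠ i) (i x : Fin t) :
    role δ i x = 1 ↔ x = δ i := by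
  unfold role
  split_ifs with h1 h2
  · subst h1
    simpa using (hδ x).symm
  · simp [h2]
  · simp [h2]

end OutC

end Pool.Agent.Lib.MP_351560_co
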