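import Mathlib
import Pool.Agent.Lib.MP_351560_co.OutCa

set_option autoImplicit false
set_option linter.unusedSimpArgs false
set_option linter.unusedVariables false

namespace Pool.Agent.Lib.MP_351560_co

open Finset

namespace OutC

/-- Labels of the core. -/
def up (a : Fin 6) : Fin 9 := ![0, 1, 2, 3, 4, 5] a

/-- Labels of the rows. -/
def lA (s : Fin 4) : Fin 9 := ![2, 7, 6, 6] s

/-- Labels of the outside vertices of the second part. -/
def lB (r : Fin 3) : Fin 9 := ![8, 4, 3] r

/-- Label-complete edges. -/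
def kp (adj : Prop) (l l' : Fin 9) : Prop :=
  (l = 0 ∧ l' = 2) ∨ (l = 1 ∧ l' = 3) ∨ (adj ∧ l = 0 ∧ l' = 1) ∨ (l = 0 ∧ l' = 6) ∨
    (l = 0 ∧ l' = 7) ∨ (l = 8 ∧ l' = 6) ∨ (l = 8 ∧ l' = 7) ∨ (l = 1 ∧ l' = 8) ∨ (l = 8 ∧ l' = 5)

/-- Adjacency to the further cycles. -/
def sg (l : Fin 9) (r : Fin 3) : Prop := l = 1 ∨ (l = 6 ∧ r = 0) ∨ (l = 7 ∧ r ≠ 2)

lemma kp_uu (adj : Prop) (a b : Fin 6) : kp adj (up a) (up b) ↔ kc adj a b := by
  fin_cases a <;> fin_cases b <;> simp [kp, kc, up]

lemma kp_uA (adj : Prop) (a : Fin 6) (s : Fin 4) : kp adj (up a) (lA s) ↔ a = 0 := by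
  fin_cases a <;> fin_cases s <;> simp [kp, up, lA]

lemma kp_A (adj : Prop) (s : Fin 4) (l : Fin 9) : ¬ kp adj (lA s) l := by
  fin_cases s <;> simp [kp, lA]

lemma kp_uB (adj : Prop) (a : Fin 6) (r : Fin 3) : kp adj (up a) (lB r) ↔ a = 1 ∧ r ≠ 1 := by
  fin_cases a <;> fin_cases r <;> simp [kp, up, lB]

lemma kp_Bu (adj : Prop) (a : Fin 6) (r : Fin 3) : kp adj (lB r) (up a) ↔ r = 0 ∧ a = 5 := by
  fin_cases a <;> fin_cases r <;> simp [kp, up, lB]

lemma kp_BA (adj : Prop) (s : Fin 4) (r : Fin 3) : kp adj (lB r) (lA s) ↔ r = 0 ∧ s ≠ 0 := by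
  fin_cases s <;> fin_cases r <;> simp [kp, lA, lB]

lemma kp_BB (adj : Prop) (r r' : Fin 3) : ¬ kp adj (lB r) (lB r') := by
  fin_cases r' <;> fin_cases r <;> simp [kp, lB]

lemma sg_u (a : Fin 6) (r : Fin 3) : sg (up a) r ↔ a = 1 := by
  fin_cases a <;> simp [sg, up]

lemma sg_A (s : Fin 4) (r : Fin 3) : sg (lA s) r ↔ (s ≠ 0 ∧ r = 0) ∨ (s = 1 ∧ r = 1) := by
  fin_cases s <;> fin_cases r <;> simp [sg, lA]

lemma sg_B (r r' : Fin 3) : ¬ sg (lB r) r' := by
  fin_cases r <;> simp [sg, lB]

lemma cell_ne {ε : ℕ} {s : Fin 4} (h : cell ε s) : s ≠ 0 := by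
  rintro rfl
  rcases h with h | h
  · exact absurd h (by decide)
  · exact absurd h.2 (by decide)

lemma card_eqv {X Y : Type} [Fintype X] {f g : X → Y} (e : X ≃ X) (he : ∀ x, g (e x) = f x)
    (q : Y → Prop) [DecidablePred q] :
    (univ.filter fun x => q (f x)).card = (univ.filter fun x => q (g x)).card :=
  card_bijective e e.bijective fun x => by simp [he]

lemma card_sum {X Y : Type} [Fintype X] [Fintype Y] (q : X ⊕ Y → Prop) [DecidablePred q] :
    (univ.filter q).card =
      (univ.filter fun x => q (.inl x)).card + (univ.filter fun y => q (.inr y)).card := by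
  simp only [card_filter, Fintype.sum_sum_type]

end OutC

open OutC in
/-- OUT-C: flagged core, agents in the second part only. -/
theorem outC {t n c α β N ε : ℕ} {π : Equiv.Perm (Fin t)} {S : Finset (Fin t)}
    (h : Core (Fin t) n c true π S) (hπ : ∀ i, π i ≠ i) (hα : α < t) (hβ : 1 ≤ β)
    (hN : α * β = N * t + S.card) (row : Fin t → Fin α) (hS : ∀ i ∈ S, row (π i) = row i)
    (hk : ∀ i i', i ∉ S → i' ∉ S → row (π i) = row (π i') → i = i') (hε : ε ≤ 1)
    (hE : ∀ u, ε * (univ.filter fun i => row i = u).card ≤ β + 1)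
    (hI : ∀ u, (2 - ε) * (univ.filter fun i => row i = u).card + β + 1 ≤ t)
    (hrow : ∀ i, ∃ j, j ∉ S ∧ row (π j) = row i) (ν : ℕ) :
    Good t ![n + α, n + β + t + ν * t, c] := by
  classical
  obtain ⟨V, J, _, _, p, adj, lt, τ, x, y, κ, h1, h2, h3, h4, h5, h6, h7, h8, h9, h10, h11, h12,
    h13⟩ := h
  obtain ⟨st, δ, θ, T, s1, s2, s3, s4, s5, s6, s7, s8, s9⟩ :=
    schedule hα hβ hN row hk hε hE hI hrow
  have hδ : ∀ i, δ i ≠ i := by
    intro i hi
    have a1 := (s2 i (row i)).2 (by rw [hi])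
    rw [(s1 i (row i)).2 rfl] at a1
    exact absurd a1 (by decide)
  have hnc : ∀ i, ¬ cell ε (st i (row i)) := fun i hc => cell_ne hc ((s1 i _).2 rfl)
  let rB : Fin t → Fin β ⊕ Fin t → Fin 3 := fun i => Sum.elim (fun _ => 2) (role π i)
  let τo : (Fin α × Fin β) ⊕ Fin t → Fin t := Sum.elim (fun z => θ z.1 z.2) T
  let xo : (Fin α × Fin β) ⊕ Fin t → Fin α := Sum.elim Prod.fst (fun j => row (π j))
  let yo : (Fin α × Fin β) ⊕ Fin t → Fin β ⊕ Fin t := Sum.map Prod.snd π
  have O0 : ∀ (u : Fin α) (b : Fin β) (j : Fin t), θ u b = T j → u = row (π j) → False := by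
    intro u b j e1 e2
    by_cases hj : j ∈ S
    · have a1 := s4 u b
      rw [e1, s7 j hj, e2, hS j hj] at a1
      exact hnc j a1
    · exact (s8 j hj).2.2 b (e2 ▸ e1)
  have O0' : ∀ j j', j ∈ S → j' ∉ S → T j = T j' → row (π j) = row (π j') → False := by
    intro j j' hj hj' e1 e2
    have a1 := (s8 j' hj').2.1
    rw [← e1, ← e2, s7 j hj, hS j hj] at a1
    exact hnc j a1
  have O1 : ∀ a b, τo a = τo b → xo a = xo b → a = b := by
    rintro (⟨u, b⟩ | j) (⟨u', b'⟩ | j') e1 e2
    · obtain rfl : u = u' := e2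
      rw [s5 u b b' e1]
    · exact (O0 u b j' e1 e2).elim
    · exact (O0 u' b' j e1.symm e2.symm).elim
    · by_cases hj : j ∈ S <;> by_cases hj' : j' ∈ S
      · rw [← s7 j hj, ← s7 j' hj']
        exact congrArg _ e1
      · exact (O0' j j' hj hj' e1 e2).elim
      · exact (O0' j' j hj' hj e1.symm e2.symm).elim
      · rw [hk j j' hj hj' e2]
  have O2 : ∀ a b, τo a = τo b → yo a = yo b → a = b := by
    rintro (⟨u, b⟩ | j) (⟨u', b'⟩ | j') e1 e2
    · obtain rfl : b = b' := Sum.inl.inj e2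
      rw [s6 b u u' e1]
    · cases e2
    · cases e2
    · rw [π.injective (Sum.inr.inj e2)]
  have O3 : ∀ a b, xo a = xo b → yo a = yo b → a = b := by
    rintro (⟨u, b⟩ | j) (⟨u', b'⟩ | j') e1 e2
    · obtain rfl : b = b' := Sum.inl.inj e2
      obtain rfl : u = u' := e1
      rfl
    · cases e2
    · cases e2
    · rw [π.injective (Sum.inr.inj e2)]
  have O4 : ∀ a, rB (τo a) (yo a) = if st (τo a) (xo a) = 0 then 1 else 2 := by
    rintro (⟨u, b⟩ | j)
    · exact (if_neg (cell_ne (s4 u b))).symm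
    · change role π (T j) (π j) = if st (T j) (row (π j)) = 0 then 1 else 2
      by_cases hj : j ∈ S
      · rw [s7 j hj, hS j hj, if_pos ((s1 j _).2 rfl), role_one π hπ]
      · obtain ⟨a1, a2, -⟩ := s8 j hj
        rw [if_neg (cell_ne a2), role, if_neg, if_neg]
        · exact fun e => a1 (π.injective e).symm
        · exact fun e => hnc (π j) (by rwa [← e] at a2)
  have O5 : ∀ i u, (∃ a, τo a = i ∧ xo a = u) ↔ cell ε (st i u) ∨ (i ∈ S ∧ st i u = 0) := by
    intro i u
    constructor
    · rintro ⟨⟨u, b⟩ | j, rfl, rfl⟩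
      · exact .inl (s4 u b)
      · by_cases hj : j ∈ S
        · refine .inr ?_
          change T j ∈ S ∧ st (T j) (row (π j)) = 0
          rw [s7 j hj, hS j hj]
          exact ⟨hj, (s1 j _).2 rfl⟩
        · exact .inl (s8 j hj).2.1
    · rintro (hc | ⟨hi, h0⟩)
      · rcases s9 i u hc with ⟨b, hb⟩ | ⟨j, -, e1, e2⟩
        · exact ⟨.inl (u, b), hb, rfl⟩
        · exact ⟨.inr j, e2, e1⟩
      · exact ⟨.inr i, s7 i hi, (hS i hi).trans ((s1 i u).1 h0).symm⟩
  have VB : ∀ v z, p v ≠ 1 →
      ∃! i, (lt i v = 1 ∧ rB i z ≠ 1) ∨ (rB i z = 0 ∧ lt i v = 5) := by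
    intro v z hv
    obtain ⟨i0, a1, a2⟩ := h6 v hv
    have a3 : ∀ i, lt i v = 5 → i = π i0 := by
      intro i hi
      obtain ⟨i', rfl⟩ := π.surjective i
      rw [a2 i' ((h7 i' v).1 hi).2]
    by_cases hz : rB i0 z = 1
    · rcases z with b | j
      · exact absurd hz (by simp [rB])
      · obtain rfl : j = π i0 := (role_one π hπ _ _).1 hz
        refine ⟨π i0, .inr ⟨(role_zero π _ _).2 rfl, (h7 i0 v).2 ⟨rfl, a1⟩⟩, ?_⟩
        rintro i (hi | hi)
        · exact absurd (a2 i hi.1 ▸ hz) hi.2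
        · exact a3 i hi.2
    · refine ⟨i0, .inl ⟨a1, hz⟩, ?_⟩
      rintro i (hi | hi)
      · exact a2 i hi.1
      · rcases z with b | j
        · exact absurd hi.1 (by simp [rB])
        · obtain rfl : j = i := (role_zero π _ _).1 hi.1
          exact absurd ((role_one π hπ _ _).2 (a3 j hi.2)) hz
  have AB : ∀ u z, ∃! i, (rB i z = 0 ∧ st i u ≠ 0) ∨ ∃ a, τo a = i ∧ xo a = u ∧ yo a = z := by
    rintro u (b | j)
    · refine ⟨θ u b, .inr ⟨.inl (u, b), rfl, rfl, rfl⟩, ?_⟩
      rintro i (hi | ⟨a, rfl, e1, e2⟩)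
      · exact absurd hi.1 (by simp [rB])
      · rw [O3 a (.inl (u, b)) e1 e2]
        rfl
    · obtain ⟨j, rfl⟩ := π.surjective j
      by_cases hu : u = row (π j)
      · refine ⟨T j, .inr ⟨.inr j, rfl, hu.symm, rfl⟩, ?_⟩
        rintro i (hi | ⟨a, rfl, e1, e2⟩)
        · obtain rfl : π j = i := (role_zero π _ _).1 hi.1
          exact absurd ((s1 _ u).2 hu) hi.2
        · rw [O3 a (.inr j) (e1.trans hu) e2]
          rfl
      · refine ⟨π j, .inl ⟨(role_zero π _ _).2 rfl, fun e => hu ((s1 _ u).1 e)⟩, ?_⟩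
        rintro i (hi | ⟨⟨u', b⟩ | j', -, e1, e2⟩)
        · exact ((role_zero π _ _).1 hi.1).symm
        · cases e2
        · obtain rfl : j' = j := π.injective (Sum.inr.inj e2)
          exact absurd e1.symm hu
  let pw : V ⊕ Fin α ⊕ Fin β ⊕ Fin t → Fin 3 := Sum.elim p (Sum.elim (fun _ => 0) fun _ => 1)
  let lab : Fin t → V ⊕ Fin α ⊕ Fin β ⊕ Fin t → Fin 9 := fun i =>
    Sum.elim (fun v => up (lt i v)) (Sum.elim (fun u => lA (st i u)) fun z => lB (rB i z))
  have hLF : LF pw t lab := by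
    refine LF.of_match (I := J ⊕ (Fin α × Fin β) ⊕ Fin t) pw t lab (kp adj) (Sum.elim τ τo)
      (Sum.elim (fun a => .inl (x a)) fun a => .inr (.inl (xo a)))
      (Sum.elim (fun a => .inl (y a)) fun a => .inr (.inr (yo a))) ?_ ?_ ?_ ?_ ?_ ?_ ?_ ?_
    · rintro (a | a) (b | b) e1 e2
      · rw [h9 a b e1 (.inl (Sum.inl.inj e2))]
      · cases e2
      · cases e2
      · rw [O1 a b e1 (Sum.inl.inj (Sum.inr.inj e2))]
    · rintro (a | a) (b | b) e1 e2
      · rw [h9 a b e1 (.inr (Sum.inl.inj e2))]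
      · cases e2
      · cases e2
      · rw [O2 a b e1 (Sum.inr.inj (Sum.inr.inj e2))]
    · rintro (a | a) (b | b) e1 e2
      · have a1 := (h8 a).1
        have a2 := (h8 b).2
        rw [show τ a = τ b from e1, show x a = y b from Sum.inl.inj e2, a2] at a1
        exact absurd a1 (by decide)
      · cases e2
      · cases e2
      · cases e2
    · rintro i (v | u | z) (v' | u' | z') hκ
      · exact h11 i v v' ((kp_uu adj _ _).1 hκ)
      · exact h3 i v ((kp_uA adj _ _).1 hκ)
      · exact h5 i v ((kp_uB adj _ _).1 hκ).1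
      · exact absurd hκ (kp_A adj _ _)
      · exact absurd hκ (kp_A adj _ _)
      · exact absurd hκ (kp_A adj _ _)
      · obtain ⟨i', rfl⟩ := π.surjective i
        exact (h5 i' v' ((h7 i' v').1 ((kp_Bu adj _ _).1 hκ).2).2).symm
      · exact (by decide : (1 : Fin 3) ≠ 0)
      · exact absurd hκ (kp_BB adj _ _)
    · rintro (a | a)
      · exact h12 a
      · exact (by decide : (0 : Fin 3) ≠ 1)
    · rintro (v | u | z) (v' | u' | z') hlt
      · refine (existsUnique_congr fun i => ?_).1 (h13 v v' hlt)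
        simp [lab, kp_uu, Sum.exists]
      · exact absurd hlt (Fin.not_lt_zero _)
      · refine (existsUnique_congr fun i => ?_).1 (VB v z' (ne_of_lt hlt))
        simp [lab, kp_uB, kp_Bu, Sum.exists]
      · refine (existsUnique_congr fun i => ?_).1 (h4 v' (ne_of_gt hlt))
        simp [lab, kp_uA, kp_A, Sum.exists]
      · exact absurd hlt (lt_irrefl _)
      · refine (existsUnique_congr fun i => ?_).1 (AB u z')
        simp only [lab, kp_BA, kp_A, Sum.elim_inl, Sum.elim_inr, false_or]
        refine or_congr_right ⟨?_, ?_⟩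
        · rintro ⟨a, e1, e2, e3⟩
          exact ⟨.inr a, e1, .inl ⟨by simp [e2], by simp [e3]⟩⟩
        · rintro ⟨a | a, e1, e2 | e2⟩
          · cases e2.1
          · cases e2.1
          · exact ⟨a, e1, Sum.inl.inj (Sum.inr.inj e2.1), Sum.inr.inj (Sum.inr.inj e2.2)⟩
          · cases e2.1
      · refine (existsUnique_congr fun i => ?_).1 (VB v' z (ne_of_gt hlt))
        simp [lab, kp_uB, kp_Bu, Sum.exists, or_comm]
      · exact absurd hlt (Fin.not_lt_zero _)
      · exact absurd hlt (lt_irrefl _)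
    · intro l l' i j
      have key : ∀ i, (univ.filter fun a : J ⊕ (Fin α × Fin β) ⊕ Fin t => Sum.elim τ τo a = i ∧
          lab i (Sum.elim (fun a => .inl (x a)) (fun a => .inr (.inl (xo a))) a) = l ∧
          lab i (Sum.elim (fun a => .inl (y a)) (fun a => .inr (.inr (yo a))) a) = l').card =
          (if 2 = l ∧ 4 = l' then κ else 0) +
            (univ.filter fun u => cell ε (st i u) ∧ lA (st i u) = l ∧ 3 = l').card := by
        intro i
        rw [card_sum]
        change (univ.filter fun a => τ a = i ∧ up (lt i (x a)) = l ∧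
            up (lt i (y a)) = l').card + (univ.filter fun a => τo a = i ∧
            lA (st i (xo a)) = l ∧ lB (rB i (yo a)) = l').card = _
        have c1 : (univ.filter fun a => τ a = i ∧ up (lt i (x a)) = l ∧ up (lt i (y a)) = l') =
            univ.filter fun a => τ a = i ∧ 2 = l ∧ 4 = l' := by
          refine filter_congr fun a _ => and_congr_right ?_
          rintro rfl
          rw [(h8 a).1, (h8 a).2]
          rfl
        have c2 : (univ.filter fun a => τo a = i ∧ lA (st i (xo a)) = l ∧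
            lB (rB i (yo a)) = l').card = (univ.filter fun u => (cell ε (st i u) ∨
              (i ∈ S ∧ st i u = 0)) ∧ lA (st i u) = l ∧
              lB (if st i u = 0 then 1 else 2) = l').card := by
          refine card_bij (fun a _ => xo a) ?_ ?_ ?_
          · intro a ha
            obtain ⟨-, rfl, e1, e2⟩ := mem_filter.1 ha
            rw [O4] at e2
            exact mem_filter.2 ⟨mem_univ _, (O5 _ _).1 ⟨a, rfl, rfl⟩, e1, e2⟩
          · intro a ha b hb e
            exact O1 a b ((mem_filter.1 ha).2.1.trans (mem_filter.1 hb).2.1.symm) e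
          · intro u hu
            obtain ⟨-, e1, e2, e3⟩ := mem_filter.1 hu
            obtain ⟨a, rfl, rfl⟩ := (O5 i u).2 e1
            exact ⟨a, mem_filter.2 ⟨mem_univ _, rfl, e2, by rw [O4]; exact e3⟩, rfl⟩
        have c3 : (univ.filter fun u => (cell ε (st i u) ∨
              (i ∈ S ∧ st i u = 0)) ∧ lA (st i u) = l ∧ lB (if st i u = 0 then 1 else 2) = l') =
            (univ.filter fun u => u = row i ∧ i ∈ S ∧ 2 = l ∧ 4 = l') ∪
              univ.filter fun u => cell ε (st i u) ∧ lA (st i u) = l ∧ 3 = l' := by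
          ext u
          simp only [mem_union, mem_filter, mem_univ, true_and, ← s1]
          by_cases h0 : st i u = 0
          · have a1 : ¬ cell ε (st i u) := fun hc => cell_ne hc h0
            simp only [a1, false_or, false_and, or_false]
            rw [h0]
            simp [lA, lB]
          · simp [h0, lB]
        rw [c1, c2, c3, card_union_of_disjoint, ← add_assoc]
        · congr 1
          by_cases hl : 2 = l ∧ 4 = l'
          · rw [if_pos hl, ← h10 i]
            simp only [hl, and_true]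
            congr 1
            by_cases hi : i ∈ S
            · simp [hi, filter_eq']
            · simp [hi]
          · simp [hl]
        · rw [disjoint_filter]
          rintro u - ⟨rfl, -⟩ hc
          exact hnc i hc.1
      rw [key, key]
      obtain ⟨φ, hφ⟩ := s3 i j
      rw [card_eqv φ hφ fun s => cell ε s ∧ lA s = l ∧ 3 = l']
    · intro l i j
      obtain ⟨φ, hφ⟩ := s3 i j
      obtain ⟨ψ, hψ⟩ := role_equiv π hπ i j
      obtain ⟨χ, hχ⟩ := fib_equiv (lt i) (lt j) fun l => h2 l i j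
      refine card_eqv (f := lab i) (g := lab j)
        (Equiv.sumCongr χ (Equiv.sumCongr φ (Equiv.sumCongr (Equiv.refl _) ψ))) ?_ (· = l)
      rintro (v | u | b | z)
      · exact congrArg up (hχ v)
      · exact congrArg lA (hφ u)
      · rfl
      · exact congrArg lB (hψ z)
  have hP : ∀ P : Fin 3, ![0, ν, 0] P ≠ 0 → P = 1 := by
    intro P hP
    fin_cases P
    · exact absurd rfl hP
    · rfl
    · exact absurd rfl hP
  have main := hLF.extend_role (fun _ => role δ) 0 (fun l _ r => sg l r) ![0, ν, 0]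
    (fun P r i j => by
      obtain ⟨ψ, hψ⟩ := role_equiv δ hδ i j
      exact card_eqv ψ hψ (· = r))
    (fun P z => ⟨z, (role_zero δ _ _).2 rfl, fun i hi => ((role_zero δ _ _).1 hi).symm⟩)
    (by
      intro P hP' i v r hv
      obtain rfl := hP P hP'
      rcases v with v | u | z
      · exact fun hs => h5 i v ((sg_u _ _).1 hs) hv
      · exact absurd hv (by decide : (0 : Fin 3) ≠ 1)
      · exact sg_B _ _)
    (by
      intro P hP' v z hv
      obtain rfl := hP P hP'
      rcases v with v | u | z'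
      · exact (existsUnique_congr fun i => (sg_u _ _).symm).1 (h6 v hv)
      · refine (existsUnique_congr fun i => (sg_A (st i u) (role δ i z)).symm).1 ?_
        simp only [role_zero, role_one δ hδ, s1, s2, ne_eq]
        by_cases hu : u = row z
        · refine ⟨δ.symm z, .inr ⟨by simpa using hu, by simp⟩, ?_⟩
          rintro i (hi | hi)
          · exact absurd (hi.2 ▸ hu) hi.1
          · rw [hi.2, Equiv.symm_apply_apply]
        · refine ⟨z, .inl ⟨hu, rfl⟩, ?_⟩
          rintro i (hi | hi)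
          · exact hi.2.symm
          · exact absurd (hi.2 ▸ hi.1) hu
      · exact absurd rfl hv)
  convert main using 1
  funext P
  rw [card_sum, card_sum]
  change _ = (univ.filter fun v => p v = P).card +
    ((univ.filter fun _ : Fin α => (0 : Fin 3) = P).card +
      (univ.filter fun _ : Fin β ⊕ Fin t => (1 : Fin 3) = P).card) + _
  rw [h1]
  fin_cases P <;> simp [add_assoc]

end Pool.Agent.Lib.MP_351560_co
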