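import Mathlib
import Pool.Agent.Lib.MP_351560_co.L2Pick
import Pool.Agent.Lib.MP_351560_co.OutC
import Pool.Agent.Lib.MP_351560_co.Sparse

set_option autoImplicit false
set_option linter.unusedSimpArgs false
set_option linter.unusedVariables false

namespace Pool.Agent.Lib.MP_351560_co

open Finset

lemma prod_eq {t n c i j α β : ℕ} (h1 : α + i = t) (h2 : β + j = t) (h3 : n + c = t)
    (h : α * β % t = c * c % t) (h4 : i * j < n * n + t) (h5 : n * n < i * j + t) :
    i * j = n * n := by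
  obtain ⟨k, hk⟩ := Nat.modEq_iff_dvd.1 h
  have e1 : (α : ℤ) = t - i := by omega
  have e2 : (β : ℤ) = t - j := by omega
  have e3 : (c : ℤ) = t - n := by omega
  have : (t : ℤ) ∣ (n * n : ℕ) - (i * j : ℕ) := ⟨k + 2 * n - i - j, by
    push_cast at hk ⊢
    rw [e1, e2, e3] at hk
    linear_combination hk⟩
  have := Int.eq_zero_of_abs_lt_dvd this (by rw [abs_lt]; omega)
  omega

lemma sq_mod {t n c : ℕ} (h : n + c = t) : n * n % t = c * c % t := by
  refine Nat.modEq_iff_dvd.2 ⟨(c : ℤ) - n, ?_⟩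
  push_cast [← h]
  ring

lemma eq_of_prod {n i j : ℕ} (hi : i ≤ n) (hj : j ≤ n + 1) (hn : 0 < n) (h : i * j = n * n) :
    i = n ∧ j = n := by
  have e1 : n ≤ j := Nat.le_of_mul_le_mul_left ((h ▸ Nat.mul_le_mul_right j hi :) : n * n ≤ n * j) hn
  obtain rfl | rfl : j = n ∨ j = n + 1 := by omega
  · exact ⟨Nat.eq_of_mul_eq_mul_right hn h, rfl⟩
  · exfalso
    rcases lt_or_ge i n with h' | h'
    · have := Nat.mul_le_mul_right (n + 1) (show i + 1 ≤ n from h')
      rcases lt_or_ge (i + 1) n with h'' | h''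
      · have := Nat.mul_le_mul_right (n + 1) (show i + 2 ≤ n from h'')
        nlinarith
      · obtain rfl : n = i + 1 := by omega
        nlinarith
    · nlinarith

/-- The case of a flagged core when the first part has no further cycle. -/
lemma outC_all {t n c α β : ℕ} (ht : 7 ≤ t) (hn0 : 0 < n) (hcα : c ≤ α) (hn : n + c = t)
    (hf : n * n + n ≤ t) (hα : α < t) (hβ : β < t) (hN : α * β % t = c * c % t)
    (hfar : 2 ≤ n → ∃ (π : Equiv.Perm (Fin t)) (S : Finset (Fin t)) (cl : Fin t → Fin t),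
      Core (Fin t) n c true π S ∧ S.card = n * n ∧ (∀ i, π i ≠ i) ∧ (∀ i, π (π i) ≠ i) ∧
      (∀ i ∈ S, cl (π i) = cl i) ∧ (∀ i, i ∉ S → cl (π i) = i) ∧ (∀ i, cl i ∉ S) ∧
      ∀ j, (univ.filter fun i => cl i = j).card ≤ n + 1) (ν : ℕ) (hν : ν = 0 → c ≤ β) :
    Good t ![n + α, n + β + ν * t, c] := by
  classical
  obtain ⟨i, hi⟩ : ∃ i, α + i = t := ⟨t - α, by omega⟩
  obtain ⟨j, hj⟩ : ∃ j, β + j = t := ⟨t - β, by omega⟩
  have e0 : n ≤ n * n := Nat.le_mul_self n
  by_cases hj1 : j ≤ n + 1 ∨ n = 1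
  · have e1 : i * j ≤ n * j := Nat.mul_le_mul_right j (by omega)
    have e2 : 0 < i * j := Nat.mul_pos (by omega) (by omega)
    have e3 : i = n ∧ j = n := by
      rcases hj1 with h | rfl
      · have := Nat.mul_le_mul_left n h
        rw [mul_add] at this
        exact eq_of_prod (by omega) h hn0 (prod_eq hi hj hn hN (by omega) (by omega))
      · have := prod_eq hi hj hn hN (by omega) (by omega)
        obtain rfl : i = 1 := by omega
        omega
    have := good_triv (t := t) (by omega) 1 (ν + 1) c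
    rwa [show 1 * t = n + α by omega, show (ν + 1) * t = n + β + ν * t by rw [add_mul]; omega]
      at this
  obtain ⟨π, S, cl, a1, a2, a3, -, a5, a6, a7, a8⟩ := hfar (by omega)
  obtain ⟨ν, rfl⟩ : ∃ k, ν = k + 1 := ⟨ν - 1, by omega⟩
  have e1 : α * β = α * β / t * t + S.card := by
    rw [a2, ← Nat.mod_eq_of_lt (show n * n < t by omega), sq_mod hn, ← hN, Nat.div_add_mod']
  have e2 : 1 ≤ β := by
    rcases Nat.eq_zero_or_pos β with rfl | h
    · simp [a2] at e1
      omega
    · exact h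
  obtain ⟨e⟩ : Nonempty ({j // j ∉ S} ↪ Fin α) := Function.Embedding.nonempty_of_card_le (by
    rw [Fintype.card_subtype_compl, Fintype.card_coe, Fintype.card_fin, Fintype.card_fin]
    omega)
  have hsz : ∀ u, (univ.filter fun i => e ⟨cl i, a7 i⟩ = u).card ≤ n + 1 := by
    intro u
    by_cases h : ∃ j, e j = u
    · obtain ⟨j, rfl⟩ := h
      simpa [Subtype.ext_iff] using a8 j.1
    · rw [filter_false_of_mem fun i _ h' => h ⟨_, h'⟩]
      simp
  have main : ∀ ε, ε ≤ 1 → ε * (n + 1) ≤ β + 1 → (2 - ε) * (n + 1) + β + 1 ≤ t →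
      Good t ![n + α, n + β + t + ν * t, c] := fun ε b1 b2 b3 =>
    outC (ε := ε) a1 a3 hα e2 e1 (fun i => e ⟨cl i, a7 i⟩) (fun i h => by simp only [a5 i h])
      (fun i i' h h' e' => by simpa [a6 i h, a6 i' h'] using e') b1
      (fun u => (Nat.mul_le_mul_left ε (hsz u)).trans b2)
      (fun u => by have := Nat.mul_le_mul_left (2 - ε) (hsz u); omega)
      (fun i => ⟨cl i, a7 i, by simp only [a6 _ (a7 i)]⟩) ν
  rw [show n + β + (ν + 1) * t = n + β + t + ν * t by ring]
  rcases le_or_gt n β with h | h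
  · exact main 1 le_rfl (by omega) (by omega)
  · refine main 0 (by omega) (by omega) ?_
    rcases le_or_gt n 2 with h' | h'
    · by_contra hc
      obtain rfl : t = 7 := by omega
      obtain rfl : β = 1 := by omega
      obtain rfl : c = 5 := by omega
      omega
    · have := Nat.mul_le_mul_right n h'
      omega

/-- The case of two large parts from the cores. -/
theorem stL2_of {t a b c : ℕ}
    (hA : ∀ (n α β N : ℕ) (md : Bool) (π : Equiv.Perm (Fin t)) (S : Finset (Fin t)),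
      Core (Fin t) n c md π S → (∀ i, π i ≠ i) → (∀ i, π (π i) ≠ i) → α < t → β < t →
      α * β = N * t + S.card → ∀ μ ν, Good t ![n + α + t + μ * t, n + β + t + ν * t, c])
    (h0 : ∀ n, n < t → t < n * n + n → Core0 t n (t - n) (n * n % t))
    (hfar : ∀ n, 2 ≤ n → n * n + n ≤ t →
      ∃ (π : Equiv.Perm (Fin t)) (S : Finset (Fin t)) (cl : Fin t → Fin t),
      Core (Fin t) n (t - n) true π S ∧ S.card = n * n ∧ (∀ i, π i ≠ i) ∧ (∀ i, π (π i) ≠ i) ∧
      (∀ i ∈ S, cl (π i) = cl i) ∧ (∀ i, i ∉ S → cl (π i) = i) ∧ (∀ i, cl i ∉ S) ∧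
      ∀ j, (univ.filter fun i => cl i = j).card ≤ n + 1)
    (hone : ∃ (π : Equiv.Perm (Fin t)) (S : Finset (Fin t)),
      Core (Fin t) 1 (t - 1) true π S ∧ S.card = 1 ∧ (∀ i, π i ≠ i) ∧ ∀ i, π (π i) ≠ i)
    (hsp : ∀ β, 2 * β = t + 1 → ∀ ν, Good t ![t + 1, t - 1 + β + ν * t, 1])
    (ht : 7 ≤ t) (ha : t ≤ a) (hb : t ≤ b) (hc0 : 0 < c) (hc : c < t)
    (hd : t ∣ a * b + b * c + c * a) : Good t ![a, b, c] := by
  obtain ⟨n, hn⟩ : ∃ n, n + c = t := ⟨t - c, by omega⟩
  have hc' : t - n = c := by omega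
  have dec : ∀ a, t ≤ a → ∃ α μ, α < t ∧ a = n + α + μ * t ∧ (μ = 0 → c ≤ α) := fun a h => by
    have := Nat.div_add_mod' (a - n) t
    refine ⟨(a - n) % t, (a - n) / t, Nat.mod_lt _ (by omega), by omega, fun h => ?_⟩
    rw [h] at this
    omega
  obtain ⟨α, μ, hα, rfl, hμ⟩ := dec a ha
  obtain ⟨β, ν, hβ, rfl, hν⟩ := dec b hb
  have hN : α * β % t = c * c % t := by
    obtain ⟨k, hk⟩ := hd
    refine Nat.modEq_iff_dvd.2 ⟨(μ + 1) * β + (ν + 1) * α + (μ + 1) * (ν + 1) * t - k, ?_⟩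
    have e : (n : ℤ) = t - c := by omega
    zify at hk
    rw [e] at hk
    push_cast
    linear_combination -hk
  have side : ∀ α β ν, c ≤ α → α < t → β < t → α * β % t = c * c % t → (ν = 0 → c ≤ β) →
      Good t ![n + α, n + β + ν * t, c] := by
    intro α β ν b1 b2 b3 b4 b5
    rcases lt_or_ge t (n * n + n) with h | h
    · refine outB_all ht hc0 b1 hn ?_ b2 b3 b4 (fun k ν e => ?_) ν
      · rw [← sq_mod hn, ← hc']
        exact h0 n (by omega) h
      · subst e
        rcases ν with _ | ν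
        · exact good_sparse (by omega) (by omega) one_pos (by omega) (by omega) (by omega)
            ⟨k + 2, by ring⟩
        · have := hsp (k + 1) (by omega) ν
          rwa [show 2 * k + 1 - 1 + (k + 1) + ν * (2 * k + 1) = k + (ν + 1) * (2 * k + 1) by
            rw [Nat.add_sub_cancel]; ring] at this
    · exact outC_all (by omega) (by omega) b1 hn h b2 b3 b4 (fun h2 => hc' ▸ hfar n h2 h) ν b5
  rcases μ with _ | μ
  · simpa using side α β ν (hμ rfl) hα hβ hN hν
  rcases ν with _ | ν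
  · simpa using (side β α (μ + 1) (hν rfl) hβ hα (mul_comm α β ▸ hN) (by simp)).swap01
  have e1 := (Nat.div_add_mod' (α * β) t).symm
  rw [hN, ← sq_mod hn] at e1
  rw [show n + α + (μ + 1) * t = n + α + t + μ * t by ring,
    show n + β + (ν + 1) * t = n + β + t + ν * t by ring]
  rcases lt_or_ge t (n * n + n) with h | h
  · obtain ⟨S, a1, a2⟩ := h0 n (by omega) h
    obtain ⟨m, rfl⟩ : ∃ m, t = m + 3 := ⟨t - 3, by omega⟩
    refine hA n α β _ false (Equiv.addRight 1) S (hc' ▸ a2 _) (fun i => by simp) (fun i => ?_)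
      hα hβ (a1 ▸ e1) μ ν
    simp only [Equiv.coe_addRight, add_assoc, ne_eq, add_eq_left]
    simp [Fin.ext_iff, Fin.val_add, Nat.mod_eq_of_lt (show 2 < m + 3 by omega)]
  · rw [Nat.mod_eq_of_lt (show n * n < t by omega)] at e1
    rcases lt_or_ge n 2 with h' | h'
    · obtain rfl : n = 1 := by omega
      obtain ⟨π, S, a1, a2, a3, a4⟩ := hone
      exact hA 1 α β _ true π S (hc' ▸ a1) a3 a4 hα hβ (by rw [a2]; exact e1) μ ν
    · obtain ⟨π, S, cl, a1, a2, a3, a4, -⟩ := hfar n h' h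
      exact hA n α β _ true π S (hc' ▸ a1) a3 a4 hα hβ (a2 ▸ e1) μ ν

end Pool.Agent.Lib.MP_351560_co
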