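import Mathlib
import Pool.Agent.Lib.MP_351560_co.Comp

set_option autoImplicit false
set_option linter.unusedSimpArgs false
set_option linter.unusedVariables false
set_option linter.unusedSectionVars false

namespace Pool.Agent.Lib.MP_351560_co

open Finset

namespace L2One

/-- Players, two further vertices of the first part, the second part. -/
abbrev Vt (k : ℕ) : Type := (Fin (2 * k + 1) ⊕ Bool) ⊕ Fin k

/-- Parts. -/
def vp {k : ℕ} : Vt k → Fin 3
  | .inl (.inl r) => if r.val + 1 = 2 * k then 2 else 0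
  | .inl (.inr _) => 0
  | .inr _ => 1

/-- Labels: `0` hub, `1` row, `2` neighbour of the hub, `3` idle. -/
def lab {k : ℕ} (i : Fin (2 * k + 1)) : Vt k → Fin 4
  | .inl (.inl r) => if r.val = i.val then 0 else
      if r.val + 1 = i.val ∨ (r.val = 2 * k ∧ i.val = 0) then 1 else
      if r.val + 1 = 2 * k ∨ (r.val = 2 * k ∧ i.val + 1 = 2 * k) then 2 else 3
  | .inl (.inr _) => 1
  | .inr v => if v.val = i.val ∨ v.val + k = i.val then 3 else 2

/-- Row ends of the extra edges. -/
def ex {k : ℕ} : Fin (2 * k + 1) ⊕ Fin (2 * k + 1) → Vt k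
  | .inl i => if i.val = 0 then .inl (.inr true) else .inl (.inl ⟨i.val - 1, by omega⟩)
  | .inr i => .inl (.inr (decide (k < i.val)))

/-- Neighbour ends of the extra edges. -/
def ey {k : ℕ} (hk : 3 ≤ k) : Fin (2 * k + 1) ⊕ Fin (2 * k + 1) → Vt k
  | .inl i => if i.val = 0 then .inl (.inl ⟨2 * k - 1, by omega⟩) else
      .inr ⟨if i.val ≤ k then i.val - 1 else i.val - 1 - k, by split_ifs <;> omega⟩
  | .inr i => if i.val = k then .inl (.inl ⟨2 * k - 1, by omega⟩) else
      .inr ⟨if i.val + 1 < k then i.val + 1 else if i.val + 1 < 2 * k then i.val + 1 - k else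
        i.val + 1 - 2 * k, by split_ifs <;> omega⟩

variable {k : ℕ} (hk : 3 ≤ k) (i r : Fin (2 * k + 1)) (b : Bool) (v : Fin k)

lemma x1 : ex (.inl i) = .inl (.inl r) ↔ r.val + 1 = i.val := by
  simp only [ex]
  split_ifs <;> simp [Fin.ext_iff] <;> omega

lemma x2 : ex (.inl i) = .inl (.inr b) ↔ i.val = 0 ∧ b = true := by
  simp only [ex]
  split_ifs with h <;> simp [h, eq_comm]

lemma x3 (a : Fin (2 * k + 1) ⊕ Fin (2 * k + 1)) : ex a = .inr v ↔ False := by
  rcases a with i | i <;> simp only [ex]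
  · split_ifs <;> simp
  · simp

lemma x4 : ex (.inr i) = .inl (.inl r) ↔ False := by simp [ex]

lemma x5 : ex (.inr i) = .inl (.inr b) ↔ (k < i.val ↔ b = true) := by
  cases b <;> simp [ex]

lemma y1 : ey hk (.inl i) = .inl (.inl r) ↔ i.val = 0 ∧ r.val + 1 = 2 * k := by
  simp only [ey]
  split_ifs <;> simp only [Fin.ext_iff, Sum.inl.injEq, Sum.inr.injEq, reduceCtorEq, false_iff] <;>
    omega

lemma y2 (a : Fin (2 * k + 1) ⊕ Fin (2 * k + 1)) : ey hk a = .inl (.inr b) ↔ False := by
  rcases a with i | i <;> simp only [ey] <;> split_ifs <;> simp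

lemma y3 : ey hk (.inl i) = .inr v ↔ v.val + 1 = i.val ∨ v.val + k + 1 = i.val := by
  simp only [ey]
  split_ifs <;> simp only [Fin.ext_iff, Sum.inl.injEq, Sum.inr.injEq, reduceCtorEq, false_iff] <;>
    omega

lemma y4 : ey hk (.inr i) = .inl (.inl r) ↔ i.val = k ∧ r.val + 1 = 2 * k := by
  simp only [ey]
  split_ifs <;> simp only [Fin.ext_iff, Sum.inl.injEq, Sum.inr.injEq, reduceCtorEq, false_iff] <;>
    omega

lemma y5 : ey hk (.inr i) = .inr v ↔
    i.val ≠ k ∧ (v.val = i.val + 1 ∨ v.val + k = i.val + 1 ∨ v.val + 2 * k = i.val + 1) := by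
  simp only [ey]
  split_ifs <;> simp only [Fin.ext_iff, Sum.inl.injEq, Sum.inr.injEq, reduceCtorEq, false_iff] <;>
    omega

lemma l0 : lab i (.inl (.inl r)) = 0 ↔ r.val = i.val := by
  simp only [lab]
  split_ifs <;> simp only [Fin.reduceEq, true_iff, false_iff] <;> omega

include hk in
lemma l1 : lab i (.inl (.inl r)) = 1 ↔ r.val + 1 = i.val ∨ (r.val = 2 * k ∧ i.val = 0) := by
  simp only [lab]
  split_ifs <;> simp only [Fin.reduceEq, true_iff, false_iff] <;> omega

include hk in
lemma l2 : lab i (.inl (.inl r)) = 2 ↔ (r.val + 1 = 2 * k ∧ i.val + 1 ≠ 2 * k ∧ i.val ≠ 2 * k) ∨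
    (r.val = 2 * k ∧ i.val + 1 = 2 * k) := by
  simp only [lab]
  split_ifs <;> simp only [Fin.reduceEq, true_iff, false_iff] <;> omega

lemma l3 (l : Fin 4) : lab i (.inl (.inr b)) = l ↔ 1 = l := Iff.rfl

lemma l4 : lab i (.inr v) = 0 ↔ False := by
  simp only [lab]
  split_ifs <;> simp

lemma l5 : lab i (.inr v) = 1 ↔ False := by
  simp only [lab]
  split_ifs <;> simp

lemma l6 : lab i (.inr v) = 2 ↔ v.val ≠ i.val ∧ v.val + k ≠ i.val := by
  simp only [lab]
  split_ifs <;> simp only [Fin.reduceEq, true_iff, false_iff] <;> omega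

lemma lab_x (a : Fin (2 * k + 1) ⊕ Fin (2 * k + 1)) : lab (Sum.elim id id a) (ex a) = 1 := by
  rcases a with i | i <;> simp only [ex, Sum.elim_inl, Sum.elim_inr, id]
  · split_ifs with h
    · rfl
    · simp only [lab]
      rw [if_neg (by omega), if_pos (by omega)]
  · rfl

lemma lab_y (a : Fin (2 * k + 1) ⊕ Fin (2 * k + 1)) : lab (Sum.elim id id a) (ey hk a) = 2 := by
  rcases a with i | i <;> simp only [ey, Sum.elim_inl, Sum.elim_inr, id] <;> split_ifs <;>
    simp only [l2 hk, l6] <;> omega

include hk in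
lemma lab_count (n : Fin 4 → ℕ) :
    ∑ u : Vt k, n (lab i u) + 2 * n 3 = (2 * k + 1) * n 3 + n 0 + 3 * n 1 + k * n 2 := by
  obtain ⟨e1, h1⟩ : ∃ e : Fin (2 * k + 1), e.val + 1 = i.val ∨ (e.val = 2 * k ∧ i.val = 0) := by
    by_cases h : i.val = 0
    · exact ⟨⟨2 * k, by omega⟩, .inr ⟨rfl, h⟩⟩
    · exact ⟨⟨i.val - 1, by omega⟩, .inl (by simp only; omega)⟩
  obtain ⟨e2, h2⟩ : ∃ e : Fin (2 * k + 1), (e.val + 1 = 2 * k ∧ i.val + 1 ≠ 2 * k) ∨
      (e.val = 2 * k ∧ i.val + 1 = 2 * k) := by
    by_cases h : i.val + 1 = 2 * k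
    · exact ⟨⟨2 * k, by omega⟩, .inr ⟨rfl, h⟩⟩
    · exact ⟨⟨2 * k - 1, by omega⟩, .inl ⟨by simp only; omega, h⟩⟩
  obtain ⟨e3, h3⟩ : ∃ e : Fin k, i.val ≠ 2 * k → (e.val = i.val ∨ e.val + k = i.val) := by
    by_cases h : i.val < k
    · exact ⟨⟨i.val, h⟩, fun _ => .inl rfl⟩
    · by_cases h' : i.val < 2 * k
      · exact ⟨⟨i.val - k, by omega⟩, fun _ => .inr (by simp only; omega)⟩
      · exact ⟨⟨0, by omega⟩, fun _ => by omega⟩
  have a1 : ∀ r, n (lab i (.inl (.inl r))) + (if i = r then n 3 else 0) +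
      (if e1 = r then n 3 else 0) + (if e2 = r then (if i.val = 2 * k then 0 else n 3) else 0) =
      n 3 + (if i = r then n 0 else 0) + (if e1 = r then n 1 else 0) +
      (if e2 = r then (if i.val = 2 * k then 0 else n 2) else 0) := by
    intro r
    simp only [lab, Fin.ext_iff]
    split_ifs <;> omega
  have a2 : ∀ v, n (lab i (.inr v)) + (if e3 = v then (if i.val = 2 * k then 0 else n 2) else 0) =
      n 2 + (if e3 = v then (if i.val = 2 * k then 0 else n 3) else 0) := by
    intro v
    simp only [lab, Fin.ext_iff]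
    split_ifs <;> omega
  have b1 := sum_congr (s₁ := univ) rfl fun r _ => a1 r
  have b2 := sum_congr (s₁ := univ) rfl fun r _ => a2 r
  simp only [sum_add_distrib, sum_ite_eq, mem_univ, if_true, sum_const, card_univ,
    Fintype.card_fin, smul_eq_mul] at b1 b2
  rw [Fintype.sum_sum_type, Fintype.sum_sum_type, Fintype.sum_bool]
  have e : ∀ b, lab i (.inl (.inr b)) = 1 := fun _ => rfl
  simp only [e]
  omega

lemma one (n : ℕ) (hn : n < 2 * k + 1) (E : Fin (2 * k + 1) → Prop) (h : ∀ i, E i ↔ i.val = n) :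
    ∃! i, E i :=
  ⟨⟨n, hn⟩, (h _).2 rfl, fun j hj => Fin.ext ((h j).1 hj)⟩

include hk in
lemma base : LF (vp (k := k)) (2 * k + 1) lab := by
  refine LF.of_match vp _ lab (fun l l' => l = 0 ∧ l' = 2) (Sum.elim id id) ex (ey hk) ?_ ?_ ?_ ?_
    ?_ ?_ ?_ fun l i j => ?_
  · rintro (i | i) (j | j) h e <;> simp only [Sum.elim_inl, Sum.elim_inr, id] at h <;> subst h
    · rfl
    · simp only [ex.eq_2, x2, decide_eq_true_eq] at e
      omega
    · have := e.symm
      simp only [ex.eq_2, x2, decide_eq_true_eq] at this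
      omega
    · rfl
  · have key : ∀ i, ey hk (.inl i) ≠ ey hk (.inr i) := by
      intro i e
      rcases h : ey hk (.inr i) with (r | b) | v <;> rw [h] at e <;>
        simp only [y1, y2, y3, y4, y5] at e h <;> omega
    rintro (i | i) (j | j) h e <;> simp only [Sum.elim_inl, Sum.elim_inr, id] at h <;> subst h
    · rfl
    · exact absurd e (key _)
    · exact absurd e.symm (key _)
    · rfl
  · intro a b h e
    have h1 := lab_x a
    rw [h, e, lab_y] at h1
    exact absurd h1 (by decide)
  · rintro i ((r | b) | v) ((r' | b') | v') ⟨h1, h2⟩ <;>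
      simp only [l0, l2 hk, l3, l4, l6, Fin.reduceEq] at h1 h2 <;> simp only [vp] <;>
      split_ifs <;> first | decide | omega
  · rintro (i | i) <;> simp only [ex, ey] <;> split_ifs <;> simp only [vp] <;>
      (try split_ifs) <;> first | decide | omega
  · have key : ∀ (i : Fin (2 * k + 1)) (u v : Vt k), (∃ a, Sum.elim id id a = i ∧
        ((ex a = u ∧ ey hk a = v) ∨ (ex a = v ∧ ey hk a = u))) ↔
        ((ex (.inl i) = u ∧ ey hk (.inl i) = v) ∨ (ex (.inl i) = v ∧ ey hk (.inl i) = u)) ∨
        ((ex (.inr i) = u ∧ ey hk (.inr i) = v) ∨ (ex (.inr i) = v ∧ ey hk (.inr i) = u)) := by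
      intro i u v
      simp only [Sum.exists, Sum.elim_inl, Sum.elim_inr, id, exists_eq_left]
    simp only [key]
    rintro ((r | b) | v) ((r' | b') | v') h <;> simp only [vp] at h <;>
      simp only [l0, l2 hk, l3, l4, l6, x1, x2, x3, x4, x5, y1, y2, y3, y4, y5, Fin.reduceEq,
        false_and, and_false, or_false, false_or]
    · have h1 : r.val + 1 ≠ 2 * k ∧ r'.val + 1 = 2 * k := by
        split_ifs at h <;> omega
      exact one (if r.val = 2 * k then 2 * k - 1 else r.val) (by split_ifs <;> omega) _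
        fun i => by split_ifs <;> omega
    · split_ifs at h <;> exact absurd h (by decide)
    · exact one (if v'.val = r.val ∨ v'.val + k = r.val then r.val + 1 else r.val)
        (by split_ifs <;> omega) _ fun i => by split_ifs <;> omega
    · have h1 : r'.val + 1 = 2 * k := by
        split_ifs at h <;> omega
      cases b
      · exact one k (by omega) _ fun i => by
          simp only [Bool.false_eq_true, iff_false, and_false, false_and, false_or]
          omega
      · exact one 0 (by omega) _ fun i => by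
          simp only [iff_true, and_true]
          omega
    · exact absurd h (by decide)
    · cases b
      · exact one (if v'.val = 0 then k - 1 else v'.val - 1) (by split_ifs <;> omega) _
          fun i => by simp only [Bool.false_eq_true, iff_false]; split_ifs <;> omega
      · exact one (if v'.val < 2 then 2 * k - 1 + v'.val else v'.val + k - 1)
          (by split_ifs <;> omega) _ fun i => by simp only [iff_true]; split_ifs <;> omega
    · exact one (if v.val = r'.val ∨ v.val + k = r'.val then r'.val + 1 else r'.val)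
        (by split_ifs <;> omega) _ fun i => by split_ifs <;> omega
    · exact absurd h (by decide)
    · exact absurd h (by decide)
  · have key : ∀ l l' i, (univ.filter fun a => Sum.elim id id a = i ∧ lab i (ex a) = l ∧
        lab i (ey hk a) = l').card = 2 * if 1 = l ∧ 2 = l' then 1 else 0 := by
      intro l l' i
      have : ∀ a, (Sum.elim id id a = i ∧ lab i (ex a) = l ∧ lab i (ey hk a) = l') ↔
          (Sum.elim id id a = i ∧ 1 = l ∧ 2 = l') := fun a =>
        and_congr_right fun h => by rw [← h, lab_x, lab_y]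
      simp only [this, card_filter, Fintype.sum_sum_type, Sum.elim_inl, Sum.elim_inr, id]
      split_ifs with h <;> simp [h]
    intro l l' i j
    rw [key, key]
  · have h1 := lab_count hk i fun m => if m = l then 1 else 0
    have h2 := lab_count hk j fun m => if m = l then 1 else 0
    rw [card_filter, card_filter]
    omega

end L2One

open L2One in
theorem good_l2one {k : ℕ} (hk : 3 ≤ k) (ν : ℕ) :
    Good (2 * k + 1) ![2 * k + 2, k + ν * (2 * k + 1), 1] := by
  have s1 : ∀ r i : Fin (2 * k + 1), i = r + 1 ↔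
      r.val + 1 = i.val ∨ (r.val = 2 * k ∧ i.val = 0) := by
    intro r i
    have := r.2
    have := i.2
    rw [Fin.ext_iff, Fin.val_add_one]
    split_ifs with h <;> simp only [Fin.ext_iff, Fin.val_last] at h <;> omega
  have := (base hk).extend (fun l Q d => Q = 1 ∧ ((l = 0 ∧ d ≠ 1) ∨ (l = 1 ∧ d = 0))) ![0, ν, 0]
    (by
      rintro P - i ((r | b) | v) d h ⟨rfl, h'⟩
      · simp only [vp] at h
        split_ifs at h <;> exact absurd h (by decide)
      · exact absurd h (by simp [vp])
      · simp [l4, l5] at h') (by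
      intro P hP
      obtain rfl : P = 1 := by fin_cases P <;> simp at hP ⊢
      rintro ((r | b) | v) j h
      · have e : ∀ i, lab i (.inl (.inl r)) = 0 ↔ i = r := fun i => by
          rw [l0, Fin.ext_iff, eq_comm]
        simp only [e, l1 hk, ← s1, true_and, sub_eq_zero]
        by_cases hj : j = r + 1
        · refine ⟨r + 1, .inr ⟨rfl, hj⟩, ?_⟩
          rintro i (⟨rfl, h1⟩ | ⟨h1, -⟩)
          · exact absurd (by rw [hj, add_sub_cancel_left]) h1
          · exact h1
        · refine ⟨r, .inl ⟨rfl, fun h => hj (by rw [← h, add_sub_cancel])⟩, ?_⟩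
          rintro i (⟨h, -⟩ | ⟨h, h'⟩)
          · exact h
          · exact absurd (h'.trans h) hj
      · simp [l3, sub_eq_zero]
      · exact absurd rfl h)
  convert this using 2 with P
  have e : (univ.filter fun r : Fin (2 * k + 1) => r.val + 1 = 2 * k).card = 1 :=
    card_eq_one.2 ⟨⟨2 * k - 1, by omega⟩, by ext r; simp [Fin.ext_iff]; omega⟩
  have e' := card_filter_add_card_filter_not (s := univ)
    fun r : Fin (2 * k + 1) => r.val + 1 = 2 * k
  rw [e, card_univ, Fintype.card_fin] at e'
  have e0 : ∀ r : Fin (2 * k + 1), vp (.inl (.inl r)) = 0 ↔ ¬ r.val + 1 = 2 * k := fun r => by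
    simp only [vp]
    split_ifs with h <;> simp [h]
  have e1 : ∀ r : Fin (2 * k + 1), vp (.inl (.inl r)) = 1 ↔ False := fun r => by
    simp only [vp]
    split_ifs with h <;> simp [h]
  have e2 : ∀ r : Fin (2 * k + 1), vp (.inl (.inl r)) = 2 ↔ r.val + 1 = 2 * k := fun r => by
    simp only [vp]
    split_ifs with h <;> simp [h]
  rw [card_filter, Fintype.sum_sum_type, Fintype.sum_sum_type, ← card_filter]
  fin_cases P
  · simp only [Fin.zero_eta, e0]
    simp [vp]
    omega
  · simp only [Fin.mk_one, e1]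
    simp [vp]
  · simp only [Fin.reduceFinMk, e2, e]
    simp [vp]

end Pool.Agent.Lib.MP_351560_co
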