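import Mathlib
import Pool.Agent.Lib.MP_351560_co.CoreDef

set_option autoImplicit false
set_option linter.unusedSimpArgs false
set_option linter.unusedVariables false
set_option linter.unusedSectionVars false

namespace Pool.Agent.Lib.MP_351560_co

open Finset

/-- Matchings of prescribed almost equal sizes in a complete bipartite graph. -/
lemma exists_matchings {t α β : ℕ} (M : Fin t → ℕ) (hβ : β ≤ t) (h : ∑ i, M i = α * β)
    (h1 : ∀ i, M i ≤ α) (h2 : ∀ i, M i ≤ β) :
    ∃ θ : Fin α → Fin β → Fin t, (∀ u w w', θ u w = θ u w' → w = w') ∧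
      (∀ u u' w, θ u w = θ u' w → u = u') ∧
      ∀ i, (univ.filter fun z : Fin α × Fin β => θ z.1 z.2 = i).card = M i := by
  obtain ⟨st, q1, q2⟩ := sched_state (D := Fin t) (S := Bool)
    (fun i σ => if σ then M i else α - M i) (fun σ => if σ then β else t - β) α
    (by simp; omega) (fun i => by have := h1 i; simp; omega) (fun σ => by
      cases σ
      · have : ∑ i, (α - M i + M i) = t * α := by
          rw [sum_congr rfl fun i _ => Nat.sub_add_cancel (h1 i)]
          simp
        rw [sum_add_distrib, h] at this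
        simp only [Bool.false_eq_true, if_false, Nat.mul_sub, mul_comm α t]
        omega
      · simpa using h)
  have e : ∀ i, ∑ u, (if st u i = true then 1 else 0) = M i := fun i => by
    rw [← card_filter, q1]
    simp
  obtain ⟨θ, r1, r2⟩ := sched (fun u i => if st u i = true then 1 else 0) β (fun u => by
    rw [← card_filter, q2]
    simp) fun i => (e i).le.trans (h2 i)
  refine ⟨θ, fun u w w' hw => ?_, fun u u' w => r2 w u u', fun i => ?_⟩
  · refine card_le_one.1 (show (univ.filter fun a => θ u a = θ u w').card ≤ 1 from ?_) w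
      (by simp [hw]) w' (by simp)
    rw [r1]
    split_ifs <;> omega
  · rw [← e, card_filter, Fintype.sum_prod_type]
    exact sum_congr rfl fun u _ => by rw [← card_filter, r1]

lemma card_two {t : ℕ} {L : Type} [DecidableEq L] (a b c l : L) {x y : Fin t} (h : y ≠ x) :
    (univ.filter fun j => (if j = x then a else if j = y then b else c) = l).card =
      (if a = l then 1 else 0) + (if b = l then 1 else 0) + (t - 2) * if c = l then 1 else 0 := by
  rw [card_filter, ← add_sum_erase _ _ (mem_univ x),
    ← add_sum_erase _ _ (mem_erase.2 ⟨h, mem_univ y⟩), if_pos rfl, if_neg h, if_pos rfl, add_assoc]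
  congr 2
  rw [sum_congr rfl (g := fun _ => if c = l then 1 else 0) fun j hj => by
    simp only [mem_erase] at hj
    rw [if_neg hj.2.1, if_neg hj.1]]
  rw [sum_const, card_erase_of_mem (mem_erase.2 ⟨h, mem_univ y⟩), card_erase_of_mem (mem_univ x)]
  simp [Nat.sub_sub]

lemma card_filter_sum {A B : Type} [Fintype A] [Fintype B] (p : A ⊕ B → Prop) [DecidablePred p] :
    (univ.filter p).card =
      (univ.filter fun a => p (.inl a)).card + (univ.filter fun b => p (.inr b)).card := by
  simp only [card_filter, Fintype.sum_sum_type]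

lemma ex1 {T : Type} {q : T → Prop} (i0 : T) (h : ∀ i, q i ↔ i = i0) : ∃! i, q i :=
  ⟨i0, (h _).2 rfl, fun i hi => (h i).1 hi⟩

/-- Adjacent labels in the scheme with agents in both large parts. -/
def kaO (adj : Prop) (l l' : ℕ) : Prop :=
  (l = 0 ∧ l' = 2) ∨ (l = 1 ∧ l' = 3) ∨ (adj ∧ l = 0 ∧ l' = 1) ∨
    (l = 0 ∧ l' = 6) ∨ (l = 0 ∧ l' = 8) ∨ (l = 1 ∧ l' = 7) ∨ (l = 1 ∧ l' = 9) ∨ (l = 8 ∧ l' = 7) ∨
    (l = 9 ∧ l' = 6) ∨ (l = 9 ∧ l' = 5)

lemma kaO_cc (adj : Prop) (l l' : Fin 6) : kaO adj l.val l'.val ↔ kc adj l l' := by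
  fin_cases l <;> fin_cases l' <;> simp [kaO, kc]

lemma kaO_cA (adj : Prop) (l : Fin 6) {a : ℕ} (ha : a = 8 ∨ a = 6 ∨ a = 2) :
    (kaO adj l.val a ∨ kaO adj a l.val) ↔ l = 0 := by
  rcases ha with rfl | rfl | rfl <;> fin_cases l <;> simp [kaO]

lemma kaO_cB (adj : Prop) (l : Fin 6) {b : ℕ} (hb : b = 9 ∨ b = 7 ∨ b = 4 ∨ b = 3) :
    (kaO adj l.val b ∨ kaO adj b l.val) ↔ (l.val = 1 ∧ b ≠ 4) ∨ (l.val = 5 ∧ b = 9) := by
  rcases hb with rfl | rfl | rfl | rfl <;> fin_cases l <;> simp [kaO]

lemma kaO_AA (adj : Prop) {a b : ℕ} (ha : a = 8 ∨ a = 6 ∨ a = 2) (hb : b = 8 ∨ b = 6 ∨ b = 2) :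
    ¬ kaO adj a b := by
  rcases ha with rfl | rfl | rfl <;> rcases hb with rfl | rfl | rfl <;> simp [kaO]

lemma kaO_BB (adj : Prop) {a b : ℕ} (ha : a = 9 ∨ a = 7 ∨ a = 4 ∨ a = 3)
    (hb : b = 9 ∨ b = 7 ∨ b = 4 ∨ b = 3) : ¬ kaO adj a b := by
  rcases ha with rfl | rfl | rfl | rfl <;> rcases hb with rfl | rfl | rfl | rfl <;> simp [kaO]

lemma kaO_AB (adj q : Prop) {a b : ℕ} (ha : a = 8 ∨ a = 6 ∨ a = 2)
    (hb : b = 9 ∨ b = 7 ∨ b = 4 ∨ b = 3) :
    (kaO adj a b ∨ kaO adj b a ∨ q) ↔ (a = 8 ∧ b = 7) ∨ (a = 6 ∧ b = 9) ∨ q := by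
  rcases ha with rfl | rfl | rfl <;> rcases hb with rfl | rfl | rfl | rfl <;> simp [kaO]

/-- OUT-A: both large parts have agents. -/
theorem outA {t n c α β N : ℕ} {md : Bool} {π : Equiv.Perm (Fin t)} {S : Finset (Fin t)}
    (h : Core (Fin t) n c md π S) (hπ : ∀ i, π i ≠ i) (hπ2 : ∀ i, π (π i) ≠ i)
    (hα : α < t) (hβ : β < t) (hN : α * β = N * t + S.card) (μ ν : ℕ) :
    Good t ![n + α + t + μ * t, n + β + t + ν * t, c] := by
  classical
  obtain ⟨V, J, _, _, p, adj, lt, τ, x, y, κ, h1, h2, h3, h4, h5, h6, h7, h8, h9, h10, h11, h12,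
    h13⟩ := h
  have hσ : ∀ i, π.symm i ≠ i := fun i e => hπ i (by rw [← e, Equiv.apply_symm_apply, e])
  have bound : ∀ a b : ℕ, a < t → a * b = N * t + S.card → ∀ i,
      N + (if π.symm (π.symm i) ∈ S then 1 else 0) ≤ b := by
    intro a b ha hab i
    have e1 : (a + 1) * b ≤ t * b := Nat.mul_le_mul_right _ ha
    by_contra hc
    split_ifs at hc with hi
    · have e2 : 0 < S.card := card_pos.2 ⟨_, hi⟩
      have e3 : b * t ≤ N * t := Nat.mul_le_mul_right _ (by omega)
      nlinarith
    · have e3 : (b + 1) * t ≤ N * t := Nat.mul_le_mul_right _ (by omega)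
      nlinarith
  obtain ⟨θ, θ1, θ2, θ3⟩ := exists_matchings (α := α)
    (fun i => N + if π.symm (π.symm i) ∈ S then 1 else 0) hβ.le (by
      rw [sum_add_distrib, hN, Fintype.sum_equiv (π.symm.trans π.symm)
        (fun i => if π.symm (π.symm i) ∈ S then 1 else 0) (fun i => if i ∈ S then 1 else 0)
        fun _ => rfl]
      simp [mul_comm])
    (bound β α hβ (by rw [mul_comm, hN])) (bound α β hα hN)
  let m : ℕ := if md then 4 else 3
  have hm : (md = true ∧ m = 4) ∨ (md = false ∧ m = 3) := by cases md <;> simp [m]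
  let la : Fin t → Fin t → ℕ := fun i j => if j = i then 8 else if j = π.symm i then 6 else 2
  let lb : Fin t → Fin t → ℕ := fun i j => if j = i then 9 else if j = π i then m else 7
  have la3 : ∀ i j, (j = i ∧ la i j = 8) ∨ (j ≠ i ∧ π j = i ∧ la i j = 6) ∨
      (j ≠ i ∧ π j ≠ i ∧ la i j = 2) := by
    intro i j
    simp only [la, Equiv.eq_symm_apply]
    split_ifs <;> simp [*]
  have lb3 : ∀ i j, (j = i ∧ lb i j = 9) ∨ (j ≠ i ∧ j = π i ∧ lb i j = m) ∨
      (j ≠ i ∧ j ≠ π i ∧ lb i j = 7) := by
    intro i j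
    simp only [lb]
    split_ifs <;> simp [*]
  let W := V ⊕ (Fin α ⊕ Fin t) ⊕ (Fin β ⊕ Fin t)
  let p' : W → Fin 3 := Sum.elim p (Sum.elim (fun _ => 0) fun _ => 1)
  let lab : Fin t → W → ℕ := fun i => Sum.elim (fun v => (lt i v).val)
    (Sum.elim (Sum.elim (fun _ => 6) (la i)) (Sum.elim (fun _ => 7) (lb i)))
  have lA : ∀ i (u : Fin α ⊕ Fin t), lab i (.inr (.inl u)) = 8 ∨ lab i (.inr (.inl u)) = 6 ∨
      lab i (.inr (.inl u)) = 2 := by
    rintro i (u | j)
    · exact .inr (.inl rfl)
    · exact (la3 i j).imp (·.2) (Or.imp (·.2.2) (·.2.2))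
  have lB : ∀ i (u : Fin β ⊕ Fin t), lab i (.inr (.inr u)) = 9 ∨ lab i (.inr (.inr u)) = 7 ∨
      lab i (.inr (.inr u)) = 4 ∨ lab i (.inr (.inr u)) = 3 := by
    rintro i (u | j)
    · exact .inr (.inl rfl)
    · change lb i j = 9 ∨ lb i j = 7 ∨ lb i j = 4 ∨ lb i j = 3
      have := lb3 i j
      omega
  let I := J ⊕ (Fin α × Fin β) ⊕ Fin t
  let ta : Fin t → Fin t := fun j => if π.symm j ∈ S then π.symm j else π j
  let τ' : I → Fin t := Sum.elim τ (Sum.elim (fun z => θ z.1 z.2) ta)
  let x' : I → W := Sum.elim (fun a => .inl (x a))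
    (Sum.elim (fun z => .inr (.inl (.inl z.1))) fun j => .inr (.inl (.inr j)))
  let y' : I → W := Sum.elim (fun a => .inl (y a))
    (Sum.elim (fun z => .inr (.inr (.inl z.2))) fun j => .inr (.inr (.inr j)))
  have v0 : ∀ i v, (lt i v).val = 0 ↔ lt i v = 0 := fun i v => by rw [Fin.ext_iff]; rfl
  have v1 : ∀ i v, (lt i v).val = 1 ↔ lt i v = 1 := fun i v => by rw [Fin.ext_iff]; rfl
  have v5 : ∀ i v, (lt (π i) v).val = 5 ↔ md = true ∧ (lt i v).val = 1 := fun i v => by
    rw [v1, ← h7, Fin.ext_iff]; rfl
  have vlt : ∀ i v, (lt i v).val < 6 := fun i v => (lt i v).2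
  have lx : ∀ a, (lt (τ a) (x a)).val = 2 := fun a => by rw [(h8 a).1]; rfl
  have ly : ∀ a, (lt (τ a) (y a)).val = m := fun a => by
    rw [(h8 a).2]; cases md <;> rfl
  have p5 : ∀ i v, (lt i v).val = 5 → p v ≠ 1 := fun i v e => by
    rw [← π.apply_symm_apply i, v5, v1] at e
    exact h5 _ _ e.2
  have kA : ∀ i v (u : Fin α ⊕ Fin t), (kaO adj (lt i v).val (lab i (.inr (.inl u))) ∨
      kaO adj (lab i (.inr (.inl u))) (lt i v).val) ↔ lt i v = 0 :=
    fun i v u => kaO_cA adj _ (lA i u)
  have kB : ∀ i v (u : Fin β ⊕ Fin t), (kaO adj (lt i v).val (lab i (.inr (.inr u))) ∨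
      kaO adj (lab i (.inr (.inr u))) (lt i v).val) ↔
      ((lt i v).val = 1 ∧ ¬ (md = true ∧ u = .inr (π i))) ∨ ((lt i v).val = 5 ∧ u = .inr i) := by
    intro i v u
    rw [kaO_cB adj _ (lB i u)]
    rcases u with u | j
    · simp [lab]
    · have e2 := hπ i
      simp only [lab, Sum.elim_inl, Sum.elim_inr, Sum.inr.injEq]
      rcases lb3 i j with ⟨e, e'⟩ | ⟨e, e', e''⟩ | ⟨e, e', e''⟩
      · subst e
        simp [e', e2.symm]
      · subst e'
        rcases hm with ⟨a1, a2⟩ | ⟨a1, a2⟩ <;> simp [a1, a2, e, e'']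
      · simp [e, e', e'']
  have cB : ∀ v (u : Fin β ⊕ Fin t), p v ≠ 1 → ∃! i,
      ((lt i v).val = 1 ∧ ¬ (md = true ∧ u = .inr (π i))) ∨ ((lt i v).val = 5 ∧ u = .inr i) := by
    intro v u hv
    obtain ⟨i0, e1, e2⟩ := h6 v hv
    have e3 : ∀ i, (lt i v).val = 1 ↔ i = i0 := fun i => by
      rw [v1]
      exact ⟨e2 i, fun e => e ▸ e1⟩
    have e4 : ∀ i, (lt i v).val = 5 ↔ md = true ∧ i = π i0 := fun i => by
      rw [← π.apply_symm_apply i, v5, e3, π.apply_eq_iff_eq]
    simp only [e3, e4]
    by_cases hu : md = true ∧ u = .inr (π i0)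
    · refine ex1 (π i0) fun i => ⟨?_, ?_⟩
      · rintro (⟨rfl, e⟩ | e)
        · exact absurd hu e
        · exact e.1.2
      · rintro rfl
        exact .inr ⟨⟨hu.1, rfl⟩, hu.2⟩
    · refine ex1 i0 fun i => ⟨?_, ?_⟩
      · rintro (e | ⟨⟨e, rfl⟩, e'⟩)
        · exact e.1
        · exact absurd ⟨e, e'⟩ hu
      · rintro rfl
        exact .inl ⟨rfl, hu⟩
  have ta1 : ∀ j, (π.symm j ∈ S ∧ π (ta j) = j ∧ la (ta j) j = 2 ∧ lb (ta j) j = m) ∨
      (π.symm j ∉ S ∧ ta j = π j ∧ la (ta j) j = 6 ∧ lb (ta j) j = 7) := by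
    intro j
    simp only [ta]
    split_ifs with hj
    · obtain ⟨i, rfl⟩ := π.surjective j
      have a1 := la3 i (π i)
      have a2 := lb3 i (π i)
      have a3 := hπ i
      have a4 := hπ2 i
      simp only [Equiv.symm_apply_apply] at hj ⊢
      tauto
    · have a1 := la3 (π j) j
      have a2 := lb3 (π j) j
      have a3 := (hπ j).symm
      have a4 := (hπ2 j).symm
      tauto
  have L : LF p' t lab := by
    refine LF.of_match p' t lab (kaO adj) τ' x' y' ?_ ?_ ?_ ?_ ?_ ?_ ?_ ?_
    · rintro (a | a | a) (b | b | b) e e' <;>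
        simp only [τ', x', Sum.elim_inl, Sum.elim_inr, Sum.inl.injEq, Sum.inr.injEq, reduceCtorEq,
          W] at e e'
      · rw [h9 a b e (.inl e')]
      · rw [Prod.ext e' (θ1 _ _ _ (e' ▸ e))]
      · rw [e']
    · rintro (a | a | a) (b | b | b) e e' <;>
        simp only [τ', y', Sum.elim_inl, Sum.elim_inr, Sum.inl.injEq, Sum.inr.injEq, reduceCtorEq,
          W] at e e'
      · rw [h9 a b e (.inr e')]
      · rw [Prod.ext (θ2 _ _ _ (e' ▸ e)) e']
      · rw [e']
    · rintro (a | a | a) (b | b | b) e e' <;>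
        simp only [τ', x', y', Sum.elim_inl, Sum.elim_inr, Sum.inl.injEq, Sum.inr.injEq,
          reduceCtorEq, W] at e e'
      have a1 := lx a
      have a2 := ly b
      rw [e, e'] at a1
      omega
    · rintro i (u | u | u) (v | v | v) e
      · exact h11 i u v ((kaO_cc _ _ _).1 e)
      · exact h3 i u ((kA i u v).1 (.inl e))
      · rcases (kB i u v).1 (.inl e) with e' | e'
        · exact h5 i u ((v1 _ _).1 e'.1)
        · exact p5 i u e'.1
      · exact (h3 i v ((kA i v u).1 (.inr e))).symm
      · exact absurd e (kaO_AA adj (lA i u) (lA i v))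
      · simp [p']
      · rcases (kB i v u).1 (.inr e) with e' | e'
        · exact (h5 i v ((v1 _ _).1 e'.1)).symm
        · exact (p5 i v e'.1).symm
      · simp [p']
      · exact absurd e (kaO_BB adj (lB i u) (lB i v))
    · rintro (a | a | a)
      · exact h12 a
      · simp [p', x', y']
      · simp [p', x', y']
    · rintro (u | u | u) (v | v | v) e <;>
        simp only [p', Sum.elim_inl, Sum.elim_inr, lt_self_iff_false, Fin.not_lt_zero] at e <;>
        simp only [I, W, τ', x', y', Sum.exists, Sum.elim_inl, Sum.elim_inr, Sum.inl.injEq,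
          Sum.inr.injEq, reduceCtorEq, and_false, false_and, or_false, false_or, exists_false,
          or_self]
      · simpa only [lab, Sum.elim_inl, kaO_cc] using h13 u v e
      · exact (existsUnique_congr fun i => kB i u v).2 (cB u v e.ne)
      · exact (existsUnique_congr fun i => or_comm.trans (kA i v u)).2 (h4 v e.ne')
      · refine (existsUnique_congr fun i => kaO_AB adj _ (lA i u) (lB i v)).2 ?_
        rcases u with u | j <;> rcases v with w | j' <;>
          simp only [lab, Sum.elim_inl, Sum.elim_inr, Sum.inl.injEq, Sum.inr.injEq, reduceCtorEq,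
            and_false, false_and, or_false, false_or, exists_false, or_self, true_and, and_true]
        · refine ex1 (θ u w) fun i => ⟨?_, ?_⟩
          · rintro (e | e | ⟨z, rfl, rfl, rfl⟩)
            · omega
            · omega
            · rfl
          · rintro rfl
            exact .inr (.inr ⟨(u, w), rfl, rfl, rfl⟩)
        · refine ex1 j' fun i => ?_
          have := lb3 i j'
          omega
        · refine ex1 j fun i => ?_
          have := la3 i j
          omega
        · have e1 : ∀ i, (∃ b, ta b = i ∧ b = j ∧ b = j') ↔ ta j = i ∧ j = j' := fun i =>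
            ⟨by rintro ⟨b, rfl, rfl, rfl⟩; exact ⟨rfl, rfl⟩, fun e => ⟨j, e.1, rfl, e.2⟩⟩
          simp only [e1]
          refine ex1 (if j = j' then ta j else if π j = j' then j' else j) fun i => ?_
          have a1 := la3 i j
          have a2 := lb3 i j'
          have a3 := hπ j
          have a4 : i = j → π i = π j := fun e => by rw [e]
          split_ifs <;> omega
      · exact (existsUnique_congr fun i => or_comm.trans (kB i v u)).2 (cB v u e.ne')
    · intro l l' i j
      have key : ∀ i, (univ.filter fun a => τ' a = i ∧ lab i (x' a) = l ∧ lab i (y' a) = l').card =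
          (if 2 = l ∧ m = l' then κ else 0) + if 6 = l ∧ 7 = l' then N + 1 else 0 := by
        intro i
        have b1 : (univ.filter fun a => τ a = i ∧ (lt i (x a)).val = l ∧ (lt i (y a)).val = l') =
            univ.filter fun a => τ a = i ∧ 2 = l ∧ m = l' :=
          filter_congr fun a _ => and_congr_right fun e => by rw [← e, lx, ly]
        have b2 : (univ.filter fun j => ta j = i ∧ la i j = l ∧ lb i j = l') =
            (univ.filter fun j => j = π i ∧ i ∈ S ∧ 2 = l ∧ m = l') ∪
            univ.filter fun j => j = π.symm i ∧ π.symm (π.symm i) ∉ S ∧ 6 = l ∧ 7 = l' := by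
          ext j
          simp only [mem_union, mem_filter, mem_univ, true_and]
          rcases ta1 j with ⟨a1, a2, a3, a4⟩ | ⟨a1, a2, a3, a4⟩
          · constructor
            · rintro ⟨rfl, rfl, rfl⟩
              exact .inl ⟨a2.symm, by rwa [← a2, Equiv.symm_apply_apply] at a1, a3.symm, a4.symm⟩
            · rintro (⟨rfl, -, rfl, rfl⟩ | ⟨rfl, e, -⟩)
              · rw [π.injective a2] at a3 a4 ⊢
                exact ⟨rfl, a3, a4⟩
              · exact absurd a1 e
          · constructor
            · rintro ⟨rfl, rfl, rfl⟩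
              rw [a2, Equiv.symm_apply_apply, ← a2]
              exact .inr ⟨rfl, a1, a3.symm, a4.symm⟩
            · rintro (⟨rfl, e, -⟩ | ⟨rfl, -, rfl, rfl⟩)
              · exact absurd (by simpa using e) a1
              · rw [Equiv.apply_symm_apply] at a2
                rw [a2] at a3 a4
                exact ⟨a2, a3, a4⟩
        have b3 := h10 i
        have b4 := θ3 i
        rw [card_filter_sum, card_filter_sum]
        simp only [τ', x', y', lab, Sum.elim_inl, Sum.elim_inr]
        rw [b1, b2]
        by_cases c1 : 2 = l ∧ m = l'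
        · have c2 : ¬ (6 = l ∧ 7 = l') := by omega
          simp only [c1, c2, and_true, and_false, filter_false, card_empty, union_empty, if_true,
            if_false, and_self]
          by_cases hi : i ∈ S <;> simp only [hi, if_true, if_false, and_true, and_false,
            filter_false, card_empty, filter_eq', mem_univ, card_singleton] at b3 ⊢ <;> omega
        · by_cases c2 : 6 = l ∧ 7 = l'
          · simp only [c1, c2, and_true, and_false, filter_false, card_empty, empty_union, if_true,
              if_false, and_self]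
            by_cases hi : π.symm (π.symm i) ∈ S <;> simp only [hi, if_true, if_false, and_true,
              and_false, not_true, not_false_iff, filter_false, card_empty, filter_eq', mem_univ,
              card_singleton] at b4 ⊢ <;> omega
          · simp only [c1, c2, and_true, and_false, filter_false, card_empty, empty_union, if_true,
              if_false, and_self]
      rw [key, key]
    · intro l i j
      have b : ∀ i j, (univ.filter fun v => (lt i v).val = l).card =
          (univ.filter fun v => (lt j v).val = l).card := by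
        intro i j
        by_cases hl : l < 6
        · simpa only [Fin.ext_iff] using h2 ⟨l, hl⟩ i j
        · rw [filter_false_of_mem fun v _ => by have := vlt i v; omega,
            filter_false_of_mem fun v _ => by have := vlt j v; omega]
      simp only [W, card_filter_sum, lab, Sum.elim_inl, Sum.elim_inr, la, lb,
        card_two _ _ _ _ (hσ _), card_two _ _ _ _ (hπ _), b i j]
  let ρ : Fin 3 → Fin t → Fin t → ℕ := fun P i z =>
    if z = i then 0 else if z = (if P = 0 then π.symm i else π i) then 1 else 2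
  have ρ0 : ∀ i z, (z = i ∧ ρ 0 i z = 0) ∨ (z ≠ i ∧ π z = i ∧ ρ 0 i z = 1) ∨
      (z ≠ i ∧ π z ≠ i ∧ ρ 0 i z = 2) := by
    intro i j
    simp only [ρ, Equiv.eq_symm_apply, if_true]
    split_ifs <;> simp [*]
  have ρ1 : ∀ i z, (z = i ∧ ρ 1 i z = 0) ∨ (z ≠ i ∧ z = π i ∧ ρ 1 i z = 1) ∨
      (z ≠ i ∧ z ≠ π i ∧ ρ 1 i z = 2) := by
    intro i j
    simp only [ρ, one_ne_zero, if_false]
    split_ifs <;> simp [*]
  have G := L.extend_role ρ 0 (fun l P r => if P = 0 then l = 0 ∨ (l = 7 ∧ r = 0) ∨ (l = 9 ∧ r ≠ 2)
    else l = 1 ∨ (l = 6 ∧ r = 0) ∨ (l = 8 ∧ r ≠ 1)) ![μ, ν, 0] (fun P r i j => by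
      have : ∀ i, (if P = 0 then π.symm i else π i) ≠ i := fun i => by
        split_ifs
        · exact hσ i
        · exact hπ i
      simp only [ρ, card_two _ _ _ _ (this _)]) (fun P z => ex1 z fun i => by
      simp only [ρ]
      by_cases e : z = i
      · simp [e]
      · rw [if_neg e]
        split_ifs <;> simp [Ne.symm e]) (by
      intro P hP i v r hv
      fin_cases P
      · rcases v with v | (u | j) | u <;>
          simp only [lab, p', Sum.elim_inl, Sum.elim_inr, Fin.zero_eta, if_true, true_and] at hv ⊢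
        · have := vlt i v
          have : (lt i v).val ≠ 0 := fun e => h3 i v ((v0 _ _).1 e) hv
          omega
        · omega
        · have := la3 i j
          omega
        · simp at hv
      · rcases v with v | u | u | j <;>
          simp only [lab, p', Sum.elim_inl, Sum.elim_inr, Fin.mk_one, one_ne_zero, if_false,
            true_and] at hv ⊢
        · have := vlt i v
          have : (lt i v).val ≠ 1 := fun e => h5 i v ((v1 _ _).1 e) hv
          omega
        · simp at hv
        · omega
        · have := lb3 i j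
          omega
      · exact absurd rfl hP) (by
      intro P hP v z hv
      fin_cases P
      · rcases v with v | u | u | j <;>
          simp only [lab, p', Sum.elim_inl, Sum.elim_inr, Fin.zero_eta, if_true, true_and] at hv ⊢
        · refine (existsUnique_congr fun i => ?_).2 (h4 v hv)
          have := vlt i v
          rw [← v0]
          omega
        · exact absurd rfl hv
        · refine ex1 z fun i => ?_
          have := ρ0 i z
          omega
        · refine ex1 (if π z = j then j else z) fun i => ?_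
          have a1 := ρ0 i z
          have a2 := lb3 i j
          have a3 := hπ z
          have a4 : i = z → π i = π z := fun e => by rw [e]
          split_ifs <;> omega
      · rcases v with v | (u | j) | u <;>
          simp only [lab, p', Sum.elim_inl, Sum.elim_inr, Fin.mk_one, one_ne_zero, if_false,
            true_and] at hv ⊢
        · refine (existsUnique_congr fun i => ?_).2 (h6 v hv)
          have := vlt i v
          rw [← v1]
          omega
        · refine ex1 z fun i => ?_
          have := ρ1 i z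
          omega
        · refine ex1 (if π j = z then z else j) fun i => ?_
          have a1 := ρ1 i z
          have a2 := la3 i j
          have a3 := hπ j
          have a4 : i = j → π i = π j := fun e => by rw [e]
          split_ifs <;> omega
        · exact absurd rfl hv
      · exact absurd rfl hP)
  convert G using 2 with P
  simp only [W, card_filter_sum, p', Sum.elim_inl, Sum.elim_inr, h1]
  fin_cases P <;> simp <;> omega

end Pool.Agent.Lib.MP_351560_co
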