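import Mathlib
import Pool.Agent.Lib.MP_351560_co.L2Final
import Pool.Agent.Lib.MP_351560_co.L2One
import Pool.Agent.Lib.MP_351560_co.OutA
import Pool.Agent.Lib.MP_351560_co.CoreAdj
import Pool.Agent.Lib.MP_351560_co.CoreG3
import Pool.Agent.Lib.MP_351560_co.CoreCh2
import Pool.Agent.Lib.MP_351560_co.CoreCertAll
import Pool.Agent.Lib.MP_351560_co.CoreNum
import Pool.Agent.Lib.MP_351560_co.CoreFar
import Pool.Agent.Lib.MP_351560_co.CoreOne
import Pool.Agent.Lib.MP_351560_co.CoreSmall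

set_option autoImplicit false

namespace Pool.Agent.Lib.MP_351560_co

/-- Two large parts, for `t ≥ 7`. -/
theorem stL2_big {t a b c : ℕ} (ht : 7 ≤ t) (ha : t ≤ a) (hb : t ≤ b) (hc0 : 0 < c) (hc : c < t)
    (hd : t ∣ a * b + b * c + c * a) : Good t ![a, b, c] := by
  refine stL2_of (fun n α β N md π S => outA) (fun n h1 h2 => ?_) (fun n => core_far)
    (core_one ht) (fun β h ν => ?_) ht ha hb hc0 hc hd
  · rcases le_or_gt t 12 with h | h
    · exact core0_small (by omega) h h1 h2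
    rcases core_num h h1 h2 with h | ⟨u, w, h⟩ | ⟨k, u, w, R1, R2, TB, h⟩ | ⟨k, u, w, R1, R2, TB, h⟩
    · exact core0_list _ h
    · exact core0_adj h
    · exact core0_g3 h
    · exact core0_ch2 h
  · obtain ⟨k, rfl⟩ : ∃ k, β = k + 1 := ⟨β - 1, by omega⟩
    obtain rfl : t = 2 * k + 1 := by omega
    have := good_l2one (k := k) (by omega) (ν + 1)
    rwa [show k + (ν + 1) * (2 * k + 1) = 2 * k + 1 - 1 + (k + 1) + ν * (2 * k + 1) by
      rw [Nat.add_sub_cancel]; ring] at this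

end Pool.Agent.Lib.MP_351560_co
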