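import Mathlib
import Pool.Agent.Lib.MP_351560_co.L3sOff

set_option autoImplicit false
set_option linter.unusedSimpArgs false
set_option linter.unusedVariables false
set_option linter.unusedSectionVars false

namespace Pool.Agent.Lib.MP_351560_co

open Finset

def use3 (θ : Fin 4) (r : Fin 3) : Prop := r = 2 → θ = 0

def G3 (θ : Fin 4) (r r' : Fin 3) : Prop := r = 0 ∧ r' ≠ 0 ∧ use3 θ r'

instance (θ : Fin 4) (r : Fin 3) : Decidable (use3 θ r) := by
  unfold use3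
  infer_instance

instance (θ : Fin 4) (r r' : Fin 3) : Decidable (G3 θ r r') := by
  unfold G3
  infer_instance

def rl3 : Fin 4 → Fin 3 → Option (Fin 3) :=
  ![![some 0, some 2, some 1], ![some 0, some 2, none], ![some 1, some 2, none], ![none, none, none]]

def kty : Fin 7 → Fin 4 := ![0, 1, 1, 2, 3, 3, 3]

def kslot : Fin 7 → Fin 3 → Fin 13 :=
  ![![0, 4, 2], ![0, 4, 2], ![1, 5, 0], ![3, 6, 0], ![7, 9, 0], ![8, 11, 0], ![10, 12, 0]]

section
variable {t : ℕ} [NeZero t] (w s f1 f2 g1 g3 h1 h2 h3 : Fin t)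

def osl : Fin 13 → Fin 3 × Fin t :=
  ![(0, f1), (0, f2), (1, g1), (1, g3), (2, h1), (2, h2), (2, h3), (0, f1 - (s - w)), (0, f2 - s),
    (1, g1 - (s - w)), (1, g3 - s), (2, h2 - s), (2, h3 - s)]

def gh3 (P : Fin 3) (d : Fin t) : Prop := d ∈ ![[f1, f2], [g1, g3], [h1, h2, h3]] P

def nt3 (P : Fin 3) (d : Fin t) : Prop :=
  d ∈ ![[f1 - (s - w), f2 - s], [g1 - (s - w), g3 - s], [h2 - s, h3 - s]] P

def sp3 (P Q : Fin 3) (d : Fin t) : Prop :=
  d ∈ ![![[], [g1 - f1], [h1 - f1, h2 - f2]], ![[f1 - g1], [], [h3 - g3]],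
    ![[f1 - h1, f2 - h2], [g3 - h3], []]] P Q

variable {w s f1 f2 g1 g3 h1 h2 h3}

lemma osl_inj (ho : Offs w s f1 f2 g1 g3 h1 h2 h3) :
    Function.Injective (osl w s f1 f2 g1 g3 h1 h2 h3) := by
  simp only [Offs, List.mem_cons, List.not_mem_nil, or_false, not_or] at ho
  rw [← List.nodup_ofFn]
  simp [osl, List.ofFn_succ]
  repeat' apply And.intro
  all_goals grind

lemma offOK3 (ho : Offs w s f1 f2 g1 g3 h1 h2 h3) :
    OffOK (gh3 f1 f2 g1 g3 h1 h2 h3) (nt3 w s f1 f2 g1 g3 h2 h3) (sp3 f1 f2 g1 g3 h1 h2 h3) := by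
  simp only [Offs, List.mem_cons, List.not_mem_nil, or_false, not_or] at ho
  refine ⟨fun P => ?_, fun P => ?_, fun P d => ?_, fun P Q d => ?_, fun P Q => ?_,
    fun P Q d => ?_, fun P Q d => ?_, fun P Q d => ?_⟩
  · fin_cases P <;> simp [gh3] <;> grind
  · fin_cases P <;> simp [nt3] <;> grind
  · fin_cases P <;> simp [gh3, nt3] <;> grind
  · fin_cases P <;> fin_cases Q <;> simp [sp3] <;> grind
  · fin_cases P <;> fin_cases Q <;> simp [sp3] <;> grind
  · fin_cases P <;> fin_cases Q <;> simp [sp3, gh3] <;> grind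
  · fin_cases P <;> fin_cases Q <;> simp [sp3, gh3] <;> grind
  · fin_cases P <;> fin_cases Q <;> simp [sp3, nt3] <;> grind

/-- Times at which the agent items are present. -/
def kon (X W V : Fin t → Prop) (w s : Fin t) (k : Fin 7) (i : Fin t) : Prop :=
  ![¬X i, X i, ¬W i, ¬V i, X (i - (s - w)), W (i - s), V (i - s)] k

lemma uniq_shift (S : Fin t → Prop) {f g x y : Fin t} (s : Fin t) (h : y - x = g - f) :
    ∃! i, (¬S i ∧ f = x - i ∧ g = y - i) ∨ (S (i - s) ∧ f - s = x - i ∧ g - s = y - i) := by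
  by_cases hS : S (x - f)
  · refine ⟨x - f + s, .inr ⟨by simpa using hS, by grind, by grind⟩, ?_⟩
    rintro i (⟨e1, e2, -⟩ | ⟨-, e2, -⟩)
    · exact (e1 (by rwa [show i = x - f by grind])).elim
    · grind
  · refine ⟨x - f, .inl ⟨hS, by grind, by grind⟩, ?_⟩
    rintro i (⟨-, e2, -⟩ | ⟨e1, e2, -⟩)
    · grind
    · exact (hS (by rwa [show x - f = i - s by grind])).elim

lemma kslot_inj : ∀ k k' r r', use3 (kty k) r → use3 (kty k') r' → kslot k r = kslot k' r' →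
    r = r' ∧ (k = k' ∨ (k = 0 ∧ k' = 1) ∨ (k = 1 ∧ k' = 0)) := by
  decide

open Classical in
theorem three_star (ho : Offs w s f1 f2 g1 g3 h1 h2 h3) (X W V : Fin t → Prop) {U I : Type}
    [Fintype U] [Fintype I] (pu : U → Fin 3) (τ : I → Fin t) (ty : I → Fin 4) (emb : I → Fin 3 → U)
    (hl : ∀ a r, use3 (ty a) r → rl3 (ty a) r = some (pu (emb a r)))
    (hdis : ∀ a b r r', τ a = τ b → use3 (ty a) r → use3 (ty b) r' → emb a r = emb b r' →
      a = b ∧ r = r')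
    (hU : ∀ u v, pu u < pu v → ∃! i, CE τ ty G3 emb i u v) (n1 n2 n3 κ : ℕ)
    (c0 : ∀ i, (univ.filter fun a => τ a = i ∧ ty a = 0).card = n1 + if X i then 1 else 0)
    (c1 : ∀ i, (univ.filter fun a => τ a = i ∧ ty a = 1).card + (n1 + if X i then 1 else 0) =
      n2 + if W i then 1 else 0)
    (c2 : ∀ i, (univ.filter fun a => τ a = i ∧ ty a = 2).card = n3 + if V i then 1 else 0)
    (c3 : ∀ a, ty a ≠ 3)
    (hκ : ∀ i, (if X (i - (s - w)) then 1 else 0) + (if W (i - s) then 1 else 0) +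
      (if V (i - s) then 1 else 0) = κ) (mult : Fin 3 → ℕ) :
    Good t fun P => (univ.filter fun u => pu u = P).card + t + mult P * t := by
  let J := {z : Fin 7 × Fin t // kon X W V w s z.1 z.2}
  let o := osl w s f1 f2 g1 g3 h1 h2 h3
  have ce : ∀ i u v, CE (fun z : J => z.1.2) (fun z => kty z.1.1) G3 (fun z r => o (kslot z.1.1 r))
      i u v ↔ ∃ k, kon X W V w s k i ∧ ∃ r r', (G3 (kty k) r r' ∨ G3 (kty k) r' r) ∧
        o (kslot k r) = u ∧ o (kslot k r') = v := fun i u v =>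
    ⟨fun ⟨⟨⟨k, j⟩, h⟩, r, r', e, e'⟩ => ⟨k, e ▸ h, r, r', e'⟩,
      fun ⟨k, h, r, r', e⟩ => ⟨⟨(k, i), h⟩, r, r', rfl, e⟩⟩
  have e01 : ∀ i d e, CE (fun z : J => z.1.2) (fun z => kty z.1.1) G3
      (fun z r => o (kslot z.1.1 r)) i (0, d) (1, e) ↔ (¬X i ∧ f1 = d ∧ g1 = e) ∨
      (X (i - (s - w)) ∧ f1 - (s - w) = d ∧ g1 - (s - w) = e) := by
    intro i d e
    rw [ce]
    simp [Fin.exists_fin_succ, kon, kty, kslot, G3, use3, o, osl]
  have e02 : ∀ i d e, CE (fun z : J => z.1.2) (fun z => kty z.1.1) G3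
      (fun z r => o (kslot z.1.1 r)) i (0, d) (2, e) ↔ (f1 = d ∧ h1 = e) ∨
      (¬W i ∧ f2 = d ∧ h2 = e) ∨ (W (i - s) ∧ f2 - s = d ∧ h2 - s = e) := by
    intro i d e
    rw [ce]
    simp [Fin.exists_fin_succ, kon, kty, kslot, G3, use3, o, osl]
    tauto
  have e12 : ∀ i d e, CE (fun z : J => z.1.2) (fun z => kty z.1.1) G3
      (fun z r => o (kslot z.1.1 r)) i (1, d) (2, e) ↔ (¬V i ∧ g3 = d ∧ h3 = e) ∨
      (V (i - s) ∧ g3 - s = d ∧ h3 - s = e) := by
    intro i d e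
    rw [ce]
    simp [Fin.exists_fin_succ, kon, kty, kslot, G3, use3, o, osl]
  have hlt : ∀ P Q : Fin 3, P < Q → (P = 0 ∧ Q = 1) ∨ (P = 0 ∧ Q = 2) ∨ (P = 1 ∧ Q = 2) := by decide
  have hne : h1 - f1 ≠ h2 - f2 := by
    simp only [Offs, List.mem_cons, List.not_mem_nil, or_false, not_or] at ho
    grind
  refine agents (offOK3 ho) pu use3 G3 rl3 τ ty emb (fun z : J => z.1.2) (fun z => kty z.1.1)
    (fun z r => o (kslot z.1.1 r)) (by decide) hl ?_ hdis ?_ ?_ ?_ hU ?_ ?_ ?_ mult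
  · rintro ⟨⟨k, i⟩, -⟩ r
    fin_cases k <;> fin_cases r <;> simp [kty, kslot, use3, rl3, o, osl, gh3, nt3]
  · rintro ⟨⟨k, i⟩, a1⟩ ⟨⟨k', j⟩, a2⟩ r r' rfl e1 e2 e3
    obtain ⟨e4, rfl | ⟨rfl, rfl⟩ | ⟨rfl, rfl⟩⟩ := kslot_inj k k' r r' e1 e2 (osl_inj ho e3)
    · exact ⟨rfl, e4⟩
    · exact (a1 a2).elim
    · exact (a2 a1).elim
  · intro a r r' hG e
    have e1 := hl a r (by rw [hG.1]; intro h; simp at h)
    have e2 := hl a r' hG.2.2
    rw [← e, ← e1] at e2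
    exact (by decide : ∀ θ r r', θ ≠ 3 → G3 θ r r' → rl3 θ r' ≠ rl3 θ r) _ _ _ (c3 a) hG e2
  · rintro ⟨⟨k, i⟩, -⟩ r r'
    fin_cases k <;> fin_cases r <;> fin_cases r' <;> simp [kty, kslot, G3, use3, o, osl]
  · intro P Q x y h hs
    rcases hlt P Q h with ⟨rfl, rfl⟩ | ⟨rfl, rfl⟩ | ⟨rfl, rfl⟩
    · simp only [e01]
      exact uniq_shift X _ (by simpa [sp3] using hs)
    · simp only [e02]
      rcases (by simpa [sp3] using hs : y - x = h1 - f1 ∨ y - x = h2 - f2) with e | e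
      · refine ⟨x - f1, .inl ⟨by grind, by grind⟩, ?_⟩
        rintro i (e1 | e1 | e1) <;> grind
      · refine (existsUnique_congr fun i => ?_).1 (uniq_shift W s e)
        exact (or_iff_right (by grind)).symm
    · simp only [e12]
      exact uniq_shift V _ (by simpa [sp3] using hs)
  · intro P Q d e i h hs
    rcases hlt P Q h with ⟨rfl, rfl⟩ | ⟨rfl, rfl⟩ | ⟨rfl, rfl⟩
    · rcases (e01 _ _ _).1 hs with ⟨-, rfl, rfl⟩ | ⟨-, rfl, rfl⟩ <;> simp [sp3]
    · rcases (e02 _ _ _).1 hs with ⟨rfl, rfl⟩ | ⟨-, rfl, rfl⟩ | ⟨-, rfl, rfl⟩ <;> simp [sp3]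
    · rcases (e12 _ _ _).1 hs with ⟨-, rfl, rfl⟩ | ⟨-, rfl, rfl⟩ <;> simp [sp3]
  · have key : ∀ θ i, (univ.filter fun z : J => z.1.2 = i ∧ kty z.1.1 = θ).card =
        ∑ k, if kon X W V w s k i ∧ kty k = θ then 1 else 0 := by
      intro θ i
      rw [← card_filter]
      refine card_bij (fun z _ => z.1.1) ?_ ?_ ?_
      · rintro ⟨⟨k, j⟩, h⟩ e
        simp only [mem_filter, mem_univ, true_and] at e ⊢
        exact ⟨e.1 ▸ h, e.2⟩
      · rintro ⟨⟨k, j⟩, h⟩ e ⟨⟨k', j'⟩, h'⟩ e' e''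
        simp only [mem_filter, mem_univ, true_and] at e e' e''
        exact Subtype.ext (Prod.ext e'' (e.1.trans e'.1.symm))
      · intro k e
        simp only [mem_filter, mem_univ, true_and] at e
        exact ⟨⟨(k, i), e.1⟩, by simp [e.2], rfl⟩
    have main : ∀ θ i, (univ.filter fun a => τ a = i ∧ ty a = θ).card +
        (univ.filter fun z : J => z.1.2 = i ∧ kty z.1.1 = θ).card + (if θ = 1 then n1 else 0) =
        ![n1 + 1, n2 + 1, n3 + 1, κ] θ := by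
      intro θ i
      rw [key, Fin.sum_univ_seven]
      have a0 := c0 i
      have a1 := c1 i
      have a2 := c2 i
      have a3 := hκ i
      clear hne
      fin_cases θ <;> simp [kon, kty, c3]
      · split_ifs at a0 ⊢ <;> omega
      · split_ifs at a1 ⊢ <;> omega
      · split_ifs at a2 ⊢ <;> omega
      · omega
    intro θ i j
    have := (main θ i).trans (main θ j).symm
    exact Nat.add_right_cancel this

end

end Pool.Agent.Lib.MP_351560_co
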