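import Mathlib
import Pool.Agent.Lib.MP_351560_co.Star
import Pool.Agent.Lib.MP_351560_co.L3sAg

set_option autoImplicit false
set_option linter.unusedSimpArgs false
set_option linter.unusedVariables false
set_option linter.unusedSectionVars false

namespace Pool.Agent.Lib.MP_351560_co

open Finset Function

lemma card_sum_pred {A B : Type} [Fintype A] [Fintype B] (p : A ⊕ B → Prop) [DecidablePred p] :
    (univ.filter p).card = (univ.filter fun a => p (.inl a)).card +
      (univ.filter fun b => p (.inr b)).card := by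
  simp only [card_filter, Fintype.sum_sum_type]

lemma exists_slots {T : Type} [Fintype T] [DecidableEq T] (c : T → ℕ) :
    ∃ (A : Type) (_ : Fintype A) (τ : A → T), Fintype.card A = ∑ i, c i ∧
      ∀ i, (univ.filter fun a => τ a = i).card = c i :=
  ⟨Σ i, Fin (c i), inferInstance, (·.1), by simp, card_sigma_fib c⟩

lemma konig_two {A B X Y T : Type} [Fintype A] [Fintype B] [Fintype X] [Fintype Y]
    [DecidableEq X] [DecidableEq Y] [DecidableEq T] (f : A → X) (g : B → Y) (τ : A ⊕ B → T)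
    (k : ℕ) (hf : ∀ x, (univ.filter fun a => f a = x).card = k)
    (hg : ∀ y, (univ.filter fun b => g b = y).card = k)
    (hτ : ∀ i, (univ.filter fun e => τ e = i).card ≤ k) :
    ∃ c : A ⊕ B → Fin k, (∀ e e', τ e = τ e' → c e = c e' → e = e') ∧
      Bijective (fun a => (f a, c (.inl a))) ∧ Bijective (fun b => (g b, c (.inr b))) := by
  obtain ⟨c, hc⟩ := konig_le (Sum.map f g) τ k (by
    rintro (x | y)
    · simpa [card_sum_pred] using (hf x).le
    · simpa [card_sum_pred] using (hg y).le) hτ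
  refine ⟨c, fun e e' h => hc e e' (.inr h), ?_, ?_⟩
  · refine (Fintype.bijective_iff_injective_and_card _).2 ⟨fun a b h => ?_, ?_⟩
    · simp only [Prod.mk.injEq] at h
      exact Sum.inl.inj (hc _ _ (.inl (by simp [h.1])) h.2)
    · rw [← sum_fib f]
      simp [hf]
  · refine (Fintype.bijective_iff_injective_and_card _).2 ⟨fun a b h => ?_, ?_⟩
    · simp only [Prod.mk.injEq] at h
      exact Sum.inr.inj (hc _ _ (.inl (by simp [h.1])) h.2)
    · rw [← sum_fib g]
      simp [hg]

lemma fib_snd {A X Y : Type} [Fintype A] [Fintype X] [Fintype Y] [DecidableEq Y] {f : A → X}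
    {g : A → Y} (h : Bijective fun a => (f a, g a)) (y : Y) :
    (univ.filter fun a => g a = y).card = Fintype.card X := by
  classical
  rw [card_bijective (t := univ.filter fun z : X × Y => z.2 = y) _ h (by simp)]
  simp [card_filter, Fintype.sum_prod_type, -sum_boole]

lemma uniq_of_bij {A X Y T : Type} {f : A → X} {g : A → Y} (h : Bijective fun a => (f a, g a))
    (τ : A → T) (x : X) (y : Y) : ∃! i, ∃ a, τ a = i ∧ f a = x ∧ g a = y := by
  obtain ⟨a, ha⟩ := h.2 (x, y)
  simp only [Prod.mk.injEq] at ha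
  refine ⟨τ a, ⟨a, rfl, ha⟩, ?_⟩
  rintro i ⟨b, rfl, e1, e2⟩
  rw [h.1 (a₁ := b) (a₂ := a) (by simp [e1, e2, ha.1, ha.2])]

/-- Decomposition of the complete tripartite graph into paths and single edges. -/
theorem real3 {T : Type} [Fintype T] [DecidableEq T] {p q r : ℕ} (c1 c2 c3 : T → ℕ)
    (s1 : ∑ i, c1 i = p * q) (s2 : ∑ i, c2 i = (r - q) * p) (s3 : ∑ i, c3 i = r * q) (hqr : q ≤ r)
    (k1 : ∀ i, c1 i + c2 i ≤ p) (k2 : ∀ i, c1 i + c3 i ≤ q) (k3 : ∀ i, c1 i + c2 i + c3 i ≤ r) :
    ∃ (U I : Type) (_ : Fintype U) (_ : Fintype I) (pu : U → Fin 3) (τ : I → T) (ty : I → Fin 4)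
      (emb : I → Fin 3 → U), (∀ P, (univ.filter fun u => pu u = P).card = ![p, q, r] P) ∧
      (∀ a r, use3 (ty a) r → rl3 (ty a) r = some (pu (emb a r))) ∧
      (∀ a b r r', τ a = τ b → use3 (ty a) r → use3 (ty b) r' → emb a r = emb b r' →
        a = b ∧ r = r') ∧
      (∀ u v, pu u < pu v → ∃! i, CE τ ty G3 emb i u v) ∧
      (∀ i, (univ.filter fun a => τ a = i ∧ ty a = 0).card = c1 i) ∧
      (∀ i, (univ.filter fun a => τ a = i ∧ ty a = 1).card = c2 i) ∧
      (∀ i, (univ.filter fun a => τ a = i ∧ ty a = 2).card = c3 i) ∧ ∀ a, ty a ≠ 3 := by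
  classical
  obtain ⟨A, _, τ1, cA, fA⟩ := exists_slots c1
  obtain ⟨B, _, τ2, cB, fB⟩ := exists_slots c2
  obtain ⟨C, _, τ3, cC, fC⟩ := exists_slots c3
  obtain ⟨g1, hg1⟩ := exists_fib (α := A) (T := Fin p) (fun _ => q) (by simp [cA, s1])
  obtain ⟨g2, hg2⟩ := exists_fib (α := B) (T := Fin (r - q)) (fun _ => p) (by simp [cB, s2])
  obtain ⟨g3, hg3⟩ := exists_fib (α := C) (T := Fin r) (fun _ => q) (by simp [cC, s3])
  obtain ⟨y, y1, y2, y3⟩ := konig_two g1 g3 (Sum.elim τ1 τ3) q hg1 hg3 fun i => by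
    simp only [card_sum_pred, Sum.elim_inl, Sum.elim_inr, fA, fC, k2]
  obtain ⟨x, x1, x2, x3⟩ := konig_two (fun a => y (.inl a)) g2 (Sum.elim τ1 τ2) p
    (fun v => by simpa using fib_snd y2 v) hg2 fun i => by
    simp only [card_sum_pred, Sum.elim_inl, Sum.elim_inr, fA, fB, k1]
  obtain ⟨z, z1, z2, z3⟩ := konig_two x (fun c => y (.inr c))
    (Sum.elim (Sum.elim τ1 τ2) τ3) r (fun v => by
      rw [card_sum_pred, fib_snd x2 v, fib_snd x3 v]
      simp only [Fintype.card_fin]
      omega) (fun v => by simpa using fib_snd y3 v) fun i => by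
    simp only [card_sum_pred, Sum.elim_inl, Sum.elim_inr, fA, fB, fC, k3]
  let emb : (A ⊕ B) ⊕ C → Fin 3 → Fin p ⊕ Fin q ⊕ Fin r := fun e => match e with
    | .inl (.inl a) => ![.inl (x (.inl a)), .inr (.inr (z e)), .inr (.inl (y (.inl a)))]
    | .inl (.inr b) => ![.inl (x (.inr b)), .inr (.inr (z e)), .inr (.inr (z e))]
    | .inr c => ![.inr (.inl (y (.inr c))), .inr (.inr (z e)), .inr (.inr (z e))]
  refine ⟨Fin p ⊕ Fin q ⊕ Fin r, (A ⊕ B) ⊕ C, inferInstance, inferInstance,
    Sum.elim (fun _ => 0) (Sum.elim (fun _ => 1) fun _ => 2),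
    Sum.elim (Sum.elim τ1 τ2) τ3,
    Sum.elim (Sum.elim (fun _ => 0) fun _ => 1) fun _ => 2, emb, ?_, ?_, ?_, ?_, ?_, ?_, ?_, ?_⟩
  · intro P
    fin_cases P <;> simp [card_sum_pred]
  · rintro ((a | a) | a) r <;> fin_cases r <;> simp [emb, use3, rl3]
  · rintro ((a | a) | a) ((b | b) | b) r r' e <;> fin_cases r <;> fin_cases r' <;>
      simp [emb, use3] <;> intro h <;>
      first
      | simpa using z1 _ _ (by exact e) h
      | simpa using x1 _ _ (by exact e) h
      | simpa using y1 _ _ (by exact e) h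
  · rintro (u | u | u) (v | v | v) h <;> simp at h
    · refine (existsUnique_congr fun i => ?_).1 (uniq_of_bij x2 τ1 v u)
      simp [CE, emb, G3, use3, Fin.exists_fin_succ]
      tauto
    · refine (existsUnique_congr fun i => ?_).1 (uniq_of_bij z2 (Sum.elim τ1 τ2) u v)
      simp [CE, emb, G3, use3, Fin.exists_fin_succ]
    · refine (existsUnique_congr fun i => ?_).1 (uniq_of_bij z3 τ3 u v)
      simp [CE, emb, G3, use3, Fin.exists_fin_succ]
  · intro i
    simp [card_sum_pred, fA]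
  · intro i
    simp [card_sum_pred, fB]
  · intro i
    simp [card_sum_pred, fC]
  · rintro ((a | a) | a) <;> simp

end Pool.Agent.Lib.MP_351560_co
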