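import Mathlib
import Pool.Agent.Lib.MP_351560_co.L3sReal
import Pool.Agent.Lib.MP_351560_co.Glue

set_option autoImplicit false
set_option linter.unusedSimpArgs false
set_option linter.unusedVariables false
set_option linter.unusedSectionVars false

namespace Pool.Agent.Lib.MP_351560_co

open Finset

lemma fin_sub_cases {t : ℕ} [NeZero t] (a b : Fin t) :
    (a - b).val + b.val = a.val ∨ (a - b).val + b.val = a.val + t := by
  rcases le_or_gt b a with h | h
  · have := Fin.coe_sub_iff_le.2 h
    have : b.val ≤ a.val := h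
    omega
  · have := Fin.coe_sub_iff_lt.2 h
    have := b.2
    omega

lemma sum_window {t : ℕ} [NeZero t] (a : Fin t) (n l : ℕ) (h : l ≤ t) :
    ∑ i : Fin t, (n + if (i - a).val < l then 1 else 0) = n * t + l := by
  have := Equiv.sum_comp (Equiv.subRight a) fun i : Fin t => if i.val < l then 1 else 0
  simp only [Equiv.subRight_apply] at this
  rw [sum_add_distrib, this, ← card_filter, card_lt_fin t l h]
  simp [mul_comm]

lemma cap_of {n k l t : ℕ} (ht : 0 < t) (h : n * t + l ≤ k * t) :
    n ≤ k ∧ (0 < l → n + 1 ≤ k) ∧ (t < l → n + 2 ≤ k) := by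
  refine ⟨Nat.le_of_mul_le_mul_right (by omega) ht, fun h' => ?_, fun h' => ?_⟩
  · exact Nat.lt_of_mul_lt_mul_right (a := t) (by omega)
  · exact Nat.lt_of_mul_lt_mul_right (a := t) (show (n + 1) * t < k * t by rw [add_mul]; omega)

theorem good_l3s {t p q r : ℕ} (ht : 9 ≤ t) (hpq : p ≤ q) (hqr : q ≤ r) (hpr : p + r < t)
    (hd : t ∣ p * q + p * r + q * r) (mult : Fin 3 → ℕ) :
    Good t fun P => ![p, q, r] P + t + mult P * t := by
  classical
  have : NeZero t := ⟨by omega⟩
  have h0 : 0 < t := by omega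
  obtain ⟨n1, x, hx, e1⟩ : ∃ n x, x < t ∧ n * t + x = p * q :=
    ⟨_, _, Nat.mod_lt _ h0, Nat.div_add_mod' _ _⟩
  obtain ⟨n2, w, hw, e2⟩ : ∃ n x, x < t ∧ n * t + x = p * r :=
    ⟨_, _, Nat.mod_lt _ h0, Nat.div_add_mod' _ _⟩
  obtain ⟨n3, v, hv, e3⟩ : ∃ n x, x < t ∧ n * t + x = q * r :=
    ⟨_, _, Nat.mod_lt _ h0, Nat.div_add_mod' _ _⟩
  obtain ⟨κ, hκ⟩ : t ∣ x + w + v := by
    rw [show p * q + p * r + q * r = (n1 + n2 + n3) * t + (x + w + v) by
      rw [add_mul, add_mul]; omega] at hd
    exact (Nat.dvd_add_right (dvd_mul_left _ _)).1 hd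
  have hκ3 : κ < 3 := Nat.lt_of_mul_lt_mul_left (a := t) (by omega)
  have k1 := cap_of (n := n2) (k := p) (l := w) h0 (by
    have := Nat.mul_le_mul_left p (show r ≤ t by omega)
    omega)
  have k2 := cap_of (n := n1 + n3) (k := q) (l := x + v) h0 (by
    have := Nat.mul_le_mul_left q (show p + r ≤ t by omega)
    rw [mul_add, mul_comm q p] at this
    rw [add_mul]
    omega)
  have k3 := cap_of (n := n2 + n3) (k := r) (l := w + v) h0 (by
    have := Nat.mul_le_mul_left r (show p + q ≤ t by omega)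
    rw [mul_add, mul_comm r p, mul_comm r q] at this
    rw [add_mul]
    omega)
  have k4 : n1 < n2 ∨ (n1 = n2 ∧ x ≤ w) := by
    have := Nat.mul_le_mul_left p hqr
    rcases lt_trichotomy n1 n2 with h | rfl | h
    · exact .inl h
    · exact .inr ⟨rfl, by omega⟩
    · have := Nat.mul_le_mul_right t (show n2 + 1 ≤ n1 from h)
      rw [add_mul] at this
      omega
  let w' : Fin t := ⟨w, hw⟩
  let x' : Fin t := ⟨x, hx⟩
  let X : Fin t → Prop := fun i => (i - (w' - x')).val < x
  let W : Fin t → Prop := fun i => (i - 0).val < w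
  let V : Fin t → Prop := fun i => (i - w').val < v
  have hv1 : ∀ i : Fin t, (X i → V i → t < x + v) ∧ (W i → V i → t < w + v) ∧
      (x ≤ w → X i → W i) ∧ (X i → 0 < x) ∧ (W i → 0 < w) ∧ (V i → 0 < v) := by
    intro i
    have a1 := fin_sub_cases i (w' - x')
    have a2 := fin_sub_cases w' x'
    have a3 := fin_sub_cases i w'
    have a4 := i.2
    have a5 := (w' - x').2
    have a6 := (i - w').2
    have a7 := (i - (w' - x')).2
    simp only [X, W, V, sub_zero]
    simp only [w', x'] at a1 a2 a3 a5 a6 a7 ⊢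
    omega
  have hb : ∀ i, ((n1 + if X i then 1 else 0) ≤ n2 + if W i then 1 else 0) ∧
      (n2 + if W i then 1 else 0) ≤ p ∧
      (n1 + if X i then 1 else 0) + (n3 + if V i then 1 else 0) ≤ q ∧
      (n2 + if W i then 1 else 0) + (n3 + if V i then 1 else 0) ≤ r := fun i => by
    have := hv1 i
    simp only [X, W, V] at this ⊢
    split_ifs <;> omega
  have h12 := fun i => (hb i).1
  obtain ⟨U, I, _, _, pu, τ, ty, emb, u1, u2, u3, u4, u5, u6, u7, u8⟩ :=
    real3 (T := Fin t) (p := p) (q := q) (r := r) (fun i => n1 + if X i then 1 else 0)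
      (fun i => (n2 + if W i then 1 else 0) - (n1 + if X i then 1 else 0))
      (fun i => n3 + if V i then 1 else 0) ((sum_window _ _ _ hx.le).trans e1) (by
        rw [sum_tsub_distrib _ fun i _ => h12 i, sum_window _ _ _ hx.le, sum_window _ _ _ hw.le,
          e1, e2, tsub_mul, mul_comm r, mul_comm q])
      ((sum_window _ _ _ hv.le).trans (e3.trans (mul_comm _ _))) hqr
      (fun i => by have := hb i; omega) (fun i => (hb i).2.2.1) (fun i => by have := hb i; omega)
  obtain ⟨s, f1, f2, g1, g3, h1, h2, h3, ho⟩ := offs_ex ht w'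
  have := three_star ho X W V pu τ ty emb u2 u3 u4 n1 n2 n3 κ (fun i => by convert u5 i)
    (fun i => by
      have := Nat.sub_add_cancel (h12 i)
      rw [← u6 i] at this
      convert this) (fun i => by convert u7 i) u8 (fun i => by
      have a0 : i - (s - w') - (w' - x') = i - s - (0 - x') := by abel
      have a1 := fin_sub_cases (i - s) (0 - x')
      have a2 := fin_sub_cases 0 x'
      have a3 := fin_sub_cases (i - s) w'
      have a4 := (i - s).2
      have a5 := (0 - x').2
      have a6 := (i - s - w').2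
      have a7 := (i - s - (0 - x')).2
      simp only [X, W, V, sub_zero, a0]
      simp only [w', x', Fin.val_zero] at a1 a2 a3 a5 a6 a7 ⊢
      interval_cases κ <;> split_ifs <;> omega) mult
  simpa only [u1] using this

/-- The sparse case of three large parts, for `t ≥ 9`. -/
theorem stL3s_big {t a b c : ℕ} (ht : 9 ≤ t) (ha : t ≤ a) (hb : t ≤ b) (hc : t ≤ c)
    (h1 : b % t ≤ a % t) (h2 : a % t ≤ c % t) (h3 : b % t + c % t < t)
    (hd : t ∣ a * b + b * c + c * a) : Good t ![a, b, c] := by
  have := good_l3s ht h1 h2 h3 (by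
    rw [Nat.dvd_iff_mod_eq_zero] at hd ⊢
    rw [← hd, show a * b + b * c + c * a = b * a + b * c + a * c by ring]
    simp [Nat.add_mod, Nat.mul_mod]) ![b / t - 1, a / t - 1, c / t - 1]
  have key : ∀ a, t ≤ a → a % t + t + (a / t - 1) * t = a := fun a h => by
    have e1 := Nat.div_add_mod' a t
    have e2 : 1 * t ≤ a / t * t := Nat.mul_le_mul_right t (Nat.div_pos h (by omega))
    rw [tsub_mul]
    omega
  refine Good.swap01 ?_
  convert this using 1
  funext P
  fin_cases P <;> simp [key, *]

end Pool.Agent.Lib.MP_351560_co
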