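import Mathlib
import Pool.Agent.Lib.MP_351560_co.Star
import Pool.Agent.Lib.MP_351560_co.Vizing

set_option autoImplicit false
set_option linter.unusedSimpArgs false
set_option linter.unusedVariables false
set_option linter.unusedSectionVars false

namespace Pool.Agent.Lib.MP_351560_co

open Finset

/-- Timetable of a class `A` of vertices owned by the hubs `H i`: the vertex `v` gets `k v i`
neighbours at time `i`, all adjacent to the hub and otherwise private. -/
def Owned {A W T : Type} [Fintype A] [Fintype T] [DecidableEq T] (H : T → W) (k : W → T → ℕ)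
    (ω : A → W → T) : Prop :=
  (∀ v i, v ≠ H i → (univ.filter fun u => ω u v = i).card = k v i) ∧
  (∀ i, (univ.filter fun u => ω u (H i) = i).card + ∑ i', k (H i) i' = Fintype.card A) ∧
  (∀ u v v', ω u v = ω u v' → v ≠ H (ω u v) → v' ≠ H (ω u v) → v = v') ∧
  ∀ u v, ω u (H (ω u v)) = ω u v

lemma link_col {W T : Type} [Fintype W] [DecidableEq W] [Fintype T] [DecidableEq T] [Nonempty T]
    (H : T → W) (hH : Function.Injective H) (k : W → T → ℕ) (n : ℕ) (h0 : ∀ i, k (H i) i = 0)
    (h1 : ∀ v, (∀ i, H i ≠ v) → ∑ i, k v i = n)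
    (h2 : ∀ i, ∑ v, k v i + ∑ i', k (H i) i' ≤ n)
    (h3 : ∀ i v, (∀ i, H i ≠ v) → ∑ v, k v i + ∑ i', k (H i) i' + k v i ≤ n)
    (h4 : ∀ i i', ∑ j, k (H j) i + ∑ j, k (H i) j + k (H i) i' + k (H i') i ≤ n) :
    ∃ ω : Fin n → W → T, Owned H k ω := by
  classical
  let hb : W → T := Function.invFun H
  have hhb : ∀ i, hb (H i) = i := Function.leftInverse_invFun hH
  let ι := Σ z : W × T, Fin (k z.1 z.2)
  let P0 : W → W ⊕ T := fun v => if ∃ i, H i = v then .inr (hb v) else .inl v
  have P1 : ∀ i, P0 (H i) = .inr i := fun i => by simp [P0, hhb]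
  have P2 : ∀ v i, P0 v = .inr i ↔ v = H i := by
    intro v i
    refine ⟨fun h => ?_, fun h => h ▸ P1 i⟩
    by_cases hv : ∃ i, H i = v
    · obtain ⟨j, rfl⟩ := hv
      rw [P1] at h
      rw [Sum.inr.inj h]
    · simp [P0, hv] at h
  have P3 : ∀ v v', P0 v = .inl v' ↔ v = v' ∧ ∀ i, H i ≠ v := by
    intro v v'
    by_cases hv : ∃ i, H i = v
    · obtain ⟨j, rfl⟩ := hv
      simp only [P1, reduceCtorEq, false_iff, not_and, not_forall, not_not]
      exact fun _ => ⟨j, rfl⟩
    · simp only [P0, if_neg hv, Sum.inl.injEq, iff_self_and]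
      exact fun _ i h => hv ⟨i, h⟩
  have hP0 : Function.Injective P0 := by
    intro v v' h
    rcases hv : P0 v' with x | i
    · rw [((P3 _ _).1 (h.trans hv)).1, ((P3 _ _).1 hv).1]
    · rw [(P2 _ _).1 (h.trans hv), (P2 _ _).1 hv]
  have cnt : ∀ (q : W × T → Prop) [DecidablePred q], (univ.filter fun e : ι => q e.1).card =
      ∑ v, ∑ i, if q (v, i) then k v i else 0 := fun q _ => by
    rw [card_sigma_pred (fun z : W × T => k z.1 z.2) q, Fintype.sum_prod_type]
  have c1 : ∀ v, (univ.filter fun e : ι => e.1.1 = v).card = ∑ i, k v i := fun v => by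
    rw [cnt fun z => z.1 = v, sum_comm]
    simp
  have c2 : ∀ i, (univ.filter fun e : ι => e.1.2 = i).card = ∑ v, k v i := fun i => by
    rw [cnt fun z => z.2 = i]
    simp
  have c3 : ∀ v i, (univ.filter fun e : ι => e.1 = (v, i)).card = k v i := fun v i =>
    card_sigma_fib (fun z : W × T => k z.1 z.2) (v, i)
  have c4 : ∀ i, (univ.filter fun e : ι => e.1.2 = i ∧ ∃ j, H j = e.1.1).card =
      ∑ j, k (H j) i := fun i => by
    rw [cnt fun z => z.2 = i ∧ ∃ j, H j = z.1, ← sum_image (s := univ) (g := H)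
      (f := fun v => k v i) fun x _ y _ h => hH h, ← univ_inter (univ.image H),
      ← filter_mem_eq_inter, sum_filter]
    refine sum_congr rfl fun v _ => ?_
    simp [ite_and]
  have hne : ∀ e : ι, e.1.1 ≠ H e.1.2 := by
    rintro ⟨⟨v, i⟩, x⟩ (rfl : v = H i)
    have := x.2
    simp only [h0] at this
    omega
  have d1 : ∀ i, (univ.filter fun e : ι => P0 e.1.1 = .inr i ∨
      (.inr e.1.2 : W ⊕ T) = .inr i).card ≤ ∑ v, k v i + ∑ i', k (H i) i' := by
    intro i
    rw [filter_or, add_comm, ← c1, ← c2]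
    simpa only [P2, Sum.inr.injEq] using card_union_le _ _
  obtain ⟨col, hcol⟩ := vizing_rank (fun e : ι => P0 e.1.1) (fun e => .inr e.1.2)
    (fun e h => hne e ((P2 _ _).1 h)) n (Sum.elim (fun _ => 1) (fun _ => 0)) (by
      rintro (v | i)
      · by_cases hv : ∀ i, H i ≠ v
        · rw [← h1 v hv, ← c1]
          exact card_le_card fun e he => by
            simp only [mem_filter, mem_univ, true_and, reduceCtorEq, or_false, P3] at he ⊢
            exact he.1
        · refine le_trans (le_of_eq (card_eq_zero.2 (filter_eq_empty_iff.2 fun e _ he => ?_)))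
            (Nat.zero_le _)
          simp only [reduceCtorEq, or_false, P3] at he
          exact hv (he.1 ▸ he.2)
      · exact (d1 i).trans (h2 i)) (by
      rintro e (v | i) (v' | i') h hr
      · simp at h
      · simp at hr
      · have hv : ∀ j, H j ≠ v' := by
          simp only [reduceCtorEq, and_false, false_or, P3] at h
          exact h.1.1 ▸ h.1.2
        refine le_trans (Nat.add_le_add ((card_le_card fun f hf =>
          mem_filter.2 ⟨mem_univ _, (mem_filter.1 hf).2.1⟩).trans (d1 i)) ?_) (h3 i v' hv)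
        rw [← c3]
        refine card_le_card fun f hf => ?_
        simp only [mem_filter, mem_univ, true_and, reduceCtorEq, and_false, false_or, P3,
          Sum.inr.injEq] at hf ⊢
        exact Prod.ext hf.1.1 hf.2
      · refine le_trans ?_ (h4 i i')
        rw [add_assoc]
        refine Nat.add_le_add ?_ ?_
        · rw [← c4, ← c1]
          refine le_trans (card_le_card fun f hf => ?_) (card_union_le _ _)
          simp only [mem_filter, mem_univ, true_and, P2, Sum.inr.injEq, mem_union] at hf ⊢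
          refine hf.1.symm.imp (fun h => ⟨h, ?_⟩) id
          rcases hf' : P0 f.1.1 with x | j
          · simp [hf'] at hf
          · exact ⟨j, ((P2 _ _).1 hf').symm⟩
        · rw [← c3, ← c3]
          refine le_trans (card_le_card fun f hf => ?_) (card_union_le _ _)
          simp only [mem_filter, mem_univ, true_and, P2, Sum.inr.injEq, mem_union] at hf ⊢
          exact hf.imp (fun h => Prod.ext h.1 h.2) fun h => Prod.ext h.1 h.2)
  have hcl1 : ∀ e f : ι, e.1.1 = f.1.1 → col e = col f → e = f :=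
    fun e f h => hcol e f (P0 e.1.1) (.inl rfl) (.inl (by rw [h]))
  have hcl2 : ∀ e f : ι, e.1.2 = f.1.2 → col e = col f → e = f :=
    fun e f h => hcol e f (.inr e.1.2) (.inr rfl) (.inr (by rw [h]))
  have himg : ∀ v, ((univ.filter fun e : ι => e.1.1 = v).image col).card = ∑ i, k v i := by
    intro v
    rw [card_image_of_injOn, c1]
    exact fun e he f hf => hcl1 e f ((mem_filter.1 he).2.trans (mem_filter.1 hf).2.symm)
  let ω : Fin n → W → T := fun u v =>
    if h : ∃ e : ι, e.1.1 = v ∧ col e = u then h.choose.1.2 else hb v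
  have K1 : ∀ e : ι, ω (col e) e.1.1 = e.1.2 := by
    intro e
    have h : ∃ f : ι, f.1.1 = e.1.1 ∧ col f = col e := ⟨e, rfl, rfl⟩
    simp only [ω, dif_pos h]
    rw [hcl1 _ _ h.choose_spec.1 h.choose_spec.2]
  have K2 : ∀ u v, (∃ e : ι, e.1.1 = v ∧ col e = u ∧ ω u v = e.1.2) ∨
      ((¬ ∃ e : ι, e.1.1 = v ∧ col e = u) ∧ v = H (ω u v)) := by
    intro u v
    by_cases h : ∃ e : ι, e.1.1 = v ∧ col e = u
    · obtain ⟨e, rfl, rfl⟩ := h
      exact .inl ⟨e, rfl, rfl, K1 e⟩
    · refine .inr ⟨h, ?_⟩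
      by_cases hp : ∀ i, H i ≠ v
      · have : (univ.filter fun e : ι => e.1.1 = v).image col = univ :=
          eq_univ_of_card _ (by rw [himg, h1 v hp, Fintype.card_fin])
        obtain ⟨e, he, he'⟩ := mem_image.1 (this ▸ mem_univ u)
        exact absurd ⟨e, (mem_filter.1 he).2, he'⟩ h
      · push Not at hp
        obtain ⟨i, rfl⟩ := hp
        simp only [ω, dif_neg h, hhb]
  refine ⟨ω, fun v i hv => ?_, fun i => ?_, fun u v v' h a1 a2 => ?_, fun u v => ?_⟩
  · rw [← c3]
    symm
    refine card_bij (fun e _ => col e) (fun e he => ?_) (fun e he f hf h => ?_) fun u hu => ?_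
    · have := (mem_filter.1 he).2
      have a1 : e.1.1 = v := congrArg Prod.fst this
      rw [mem_filter, ← a1, K1]
      exact ⟨mem_univ _, congrArg Prod.snd this⟩
    · exact hcl1 e f (by rw [(mem_filter.1 he).2, (mem_filter.1 hf).2]) h
    · have hu' := (mem_filter.1 hu).2
      obtain ⟨e, a1, a2, a3⟩ := (K2 u v).resolve_right fun h => hv (hu' ▸ h.2)
      exact ⟨e, mem_filter.2 ⟨mem_univ _, Prod.ext a1 (a3.symm.trans hu')⟩, a2⟩
  · have : (univ.filter fun u => ω u (H i) = i) =
        univ \ (univ.filter fun e : ι => e.1.1 = H i).image col := by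
      ext u
      simp only [mem_filter, mem_univ, true_and, mem_sdiff, mem_image]
      rcases K2 u (H i) with ⟨e, a1, a2, a3⟩ | ⟨a1, a3⟩
      · exact iff_of_false (fun hu => hne e (by rw [← a3, hu, a1])) fun hu => hu ⟨e, a1, a2⟩
      · exact iff_of_true (hH a3).symm a1
    rw [this, ← himg, card_sdiff_add_card_eq_card (subset_univ _), card_univ]
  · obtain ⟨e, rfl, e2, e3⟩ := (K2 u v).resolve_right fun h => a1 h.2
    obtain ⟨f, rfl, f2, f3⟩ := (K2 u v').resolve_right fun h' => a2 (h ▸ h'.2)
    rw [hcl2 e f (e3.symm.trans (h.trans f3)) (e2.trans f2.symm)]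
  · rcases K2 u (H (ω u v)) with ⟨f, f1, f2, f3⟩ | ⟨-, a3⟩
    · rcases K2 u v with ⟨e, rfl, e2, e3⟩ | ⟨-, b3⟩
      · have := hcol f e (.inr e.1.2) (.inl ((P2 _ _).2 (e3 ▸ f1))) (.inr rfl) (f2.trans e2.symm)
        subst this
        exact absurd (e3 ▸ f1) (hne f)
      · rw [← b3]
    · exact (hH a3).symm

lemma Owned.sum {A A' W T : Type} [Fintype A] [Fintype A'] [Fintype T] [DecidableEq T]
    {H : T → W} {k k' : W → T → ℕ} {ω : A → W → T} {ω' : A' → W → T} (h : Owned H k ω)
    (h' : Owned H k' ω') (j : ℕ) :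
    Owned H (fun v i => k v i + j * k' v i)
      (Sum.elim ω fun z : Fin j × A' => ω' z.2) := by
  obtain ⟨a1, a2, a3, a4⟩ := h
  obtain ⟨b1, b2, b3, b4⟩ := h'
  have key : ∀ v i, (univ.filter fun u => (Sum.elim ω fun z : Fin j × A' => ω' z.2) u v = i).card =
      (univ.filter fun u => ω u v = i).card + j * (univ.filter fun u => ω' u v = i).card := by
    intro v i
    rw [card_filter, Fintype.sum_sum_type, Fintype.sum_prod_type, card_filter, card_filter]
    exact congrArg _ ((sum_const (∑ u, if ω' u v = i then 1 else 0)).trans (by simp))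
  refine ⟨fun v i hv => by rw [key, a1 v i hv, b1 v i hv], fun i => ?_, ?_, ?_⟩
  · rw [key, sum_add_distrib, ← mul_sum, Fintype.card_sum, Fintype.card_prod, ← a2 i, ← b2 i,
      Fintype.card_fin]
    ring
  · rintro (u | u)
    exacts [a3 u, b3 u.2]
  · rintro (u | u)
    exacts [a4 u, b4 u.2]

end Pool.Agent.Lib.MP_351560_co
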