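import Mathlib
import Pool.Agent.Lib.MP_351560_co.Spider
import Pool.Agent.Lib.MP_351560_co.Link

set_option autoImplicit false
set_option linter.unusedSimpArgs false
set_option linter.unusedVariables false
set_option linter.unusedSectionVars false

namespace Pool.Agent.Lib.MP_351560_co

open Finset

lemma exists_enum {α : Type} [Fintype α] {P : α → Prop} [DecidablePred P] {n : ℕ}
    (h : (univ.filter P).card = n) :
    ∃ g : Fin n → α, Function.Injective g ∧ ∀ u, P u ↔ ∃ x, g x = u := by
  let e : Fin n ≃ {u // P u} := Fintype.equivOfCardEq (by rw [Fintype.card_subtype, h]; simp)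
  exact ⟨fun x => (e x).1, fun x y hxy => e.injective (Subtype.ext hxy), fun u =>
    ⟨fun hu => ⟨e.symm ⟨u, hu⟩, by simp⟩, fun ⟨x, hx⟩ => hx ▸ (e x).2⟩⟩

/-- Factors with a hub owning the first part, the other vertices carry private hub neighbours. -/
theorem good_fat {A W T γ : Type} [Fintype A] [Fintype W] [Fintype T] [DecidableEq T] [Fintype γ]
    {t : ℕ} (hT : Fintype.card T = t) (p : W → Fin 3) (hp : ∀ v, p v ≠ 0)
    (G : T → W → W → Prop) (g2 : ∀ i u v, G i u v → G i v u) (g3 : ∀ i u v, G i u v → p u ≠ p v)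
    (g4 : ∀ u v, p u ≠ p v → ∃! i, G i u v) (H : T → W) (k : W → T → ℕ) (ω : A → W → T)
    (hω : Owned H k ω) (f : T → γ → W) (kk : γ → ℕ) (nb : γ → Prop) (E : γ → γ → Prop)
    (d d' : ℕ) (f1 : ∀ i, Function.Injective (f i)) (f2 : ∀ i r, f i r ≠ H i)
    (f3 : ∀ i r, G i (H i) (f i r) ↔ nb r) (f4 : ∀ i r r', E r r' → G i (f i r) (f i r'))
    (f5 : ∀ i x y, G i x y → x = H i ∨ y = H i ∨
      ∃ r r', (E r r' ∨ E r' r) ∧ x = f i r ∧ y = f i r')
    (f6 : ∀ i r, k (f i r) i = kk r) (f7 : ∀ i v, v ≠ H i → k v i ≠ 0 → ∃ r, f i r = v)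
    (f8 : ∀ i, Set.ncard {y | G i (H i) y} + d = ∑ j, k (H i) j + d') :
    Good t fun P => if P = 0 then Fintype.card A else (univ.filter fun v => p v = P).card := by
  classical
  obtain ⟨w1, w2, w3, w4⟩ := hω
  let e : Fin t ≃ T := Fintype.equivOfCardEq (by simp [hT])
  let F : T → A ⊕ W → A ⊕ W → Prop := fun i x y => match x, y with
    | .inl u, .inr v => ω u v = i
    | .inr v, .inl u => ω u v = i
    | .inr v, .inr v' => G i v v'
    | _, _ => False
  let p' : A ⊕ W → Fin 3 := Sum.elim (fun _ => 0) p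
  let nb' : Option (γ ⊕ Σ r, Fin (kk r)) → Prop := fun z => match z with
    | none => False
    | some (.inl r) => nb r
    | some (.inr _) => True
  let E' : Option (γ ⊕ Σ r, Fin (kk r)) → Option (γ ⊕ Σ r, Fin (kk r)) → Prop := fun z z' =>
    match z, z' with
    | some (.inl r), some (.inl r') => E r r'
    | some (.inr y), some (.inl r') => y.1 = r'
    | _, _ => False
  have hLF : LF p' t (fun _ _ => ()) := by
    refine LF.of_hub p' t (fun i => F (e i)) ?_ ?_ ?_ none nb' E' (Fintype.card A + d' - d)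
      fun i => ?_
    · rintro i (u | v) (u' | v') h
      exacts [h, h, h, g2 _ _ _ h]
    · rintro i (u | v) (u' | v') h
      exacts [h.elim, (hp v').symm, hp v, g3 _ _ _ h]
    · intro x y h
      refine (e.existsUnique_congr (q := fun i => F i x y) fun _ => Iff.rfl).2 ?_
      rcases x with u | v <;> rcases y with u' | v'
      · exact absurd rfl h
      · exact ⟨_, rfl, fun _ h => h.symm⟩
      · exact ⟨_, rfl, fun _ h => h.symm⟩
      · exact g4 _ _ h
    generalize e i = i
    choose g hg1 hg2 using fun r => exists_enum ((w1 _ i (f2 i r)).trans (f6 i r))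
    have hg3 : ∀ r x, ω (g r x) (f i r) = i := fun r x => (hg2 r _).2 ⟨x, rfl⟩
    let f' : Option (γ ⊕ Σ r, Fin (kk r)) → A ⊕ W := fun z => match z with
      | none => .inr (H i)
      | some (.inl r) => .inr (f i r)
      | some (.inr y) => .inl (g y.1 y.2)
    have eA : ∀ u v, ω u v = i → (.inr v : A ⊕ W) = f' none ∨
        ∃ z z', E' z z' ∧ .inl u = f' z ∧ .inr v = f' z' := by
      intro u v h
      by_cases hv : v = H i
      · exact .inl (by rw [hv])
      obtain ⟨r, rfl⟩ := f7 i v hv (by
        rw [← w1 v i hv]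
        exact card_ne_zero.2 ⟨u, by simp [h]⟩)
      obtain ⟨x, rfl⟩ := (hg2 r u).1 h
      exact .inr ⟨some (.inr ⟨r, x⟩), some (.inl r), rfl, rfl, rfl⟩
    refine ⟨f', ?_, ?_, ?_, ?_, ?_⟩
    · rintro (_ | r | ⟨r, x⟩) (_ | r' | ⟨r', x'⟩) h <;>
        simp only [f', reduceCtorEq, Sum.inl.injEq, Sum.inr.injEq] at h
      · rfl
      · exact absurd h.symm (f2 i r')
      · exact absurd h (f2 i r)
      · rw [f1 i h]
      · have a1 := hg3 r x
        have a2 := hg3 r' x'
        rw [← h] at a2
        obtain rfl := f1 i (w3 _ _ _ (a1.trans a2.symm) (a1.symm ▸ f2 i r) (a1.symm ▸ f2 i r'))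
        rw [hg1 r h]
    · rintro (_ | r | ⟨r, x⟩)
      · exact iff_of_false (fun h => g3 _ _ _ h rfl) id
      · exact f3 i r
      · refine iff_of_true ?_ trivial
        have := w4 (g r x) (f i r)
        rwa [hg3] at this
    · have : {y | F i (.inr (H i)) y} = ((univ.filter fun u => ω u (H i) = i).disjSum
          (univ.filter fun v => G i (H i) v) : Finset _) := by
        ext (u | v) <;> simp [F]
      have a1 := f8 i
      have a2 := w2 i
      rw [show {y | G i (H i) y} = (univ.filter fun v => G i (H i) v : Finset _) by simp,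
        Set.ncard_coe_finset] at a1
      change Set.ncard {y | F i (.inr (H i)) y} = _
      rw [this, Set.ncard_coe_finset, card_disjSum]
      omega
    · rintro (_ | r | ⟨r, x⟩) (_ | r' | ⟨r', x'⟩) h <;> try exact h.elim
      · exact f4 i r r' h
      · obtain rfl : r = r' := h
        exact hg3 r x
    · rintro (u | v) (u' | v') h
      · exact h.elim
      · exact .inr ((eA u v' h).imp id fun ⟨r, r', a1, a2, a3⟩ => ⟨r, r', .inl a1, a2, a3⟩)
      · exact (eA u' v h).imp id fun ⟨r, r', a1, a2, a3⟩ => .inr ⟨r', r, .inr a1, a3, a2⟩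
      · rcases f5 i v v' h with rfl | rfl | ⟨r, r', a1, rfl, rfl⟩
        · exact .inl rfl
        · exact .inr (.inl rfl)
        · exact .inr (.inr ⟨some (.inl r), some (.inl r'), a1, rfl, rfl⟩)
  convert hLF.good using 2 with P
  rw [card_filter, card_filter, Fintype.sum_sum_type]
  by_cases hP : P = 0
  · simp [p', hP, hp]
  · simp only [p', hP, Ne.symm hP, if_false, Sum.elim_inl, Sum.elim_inr, sum_const_zero, zero_add]
    congr

end Pool.Agent.Lib.MP_351560_co
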