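import Mathlib
import Pool.Agent.Lib.MP_351560_co.DenseOf
import Pool.Agent.Lib.MP_351560_co.Fat

set_option autoImplicit false
set_option linter.unusedSimpArgs false
set_option linter.unusedVariables false
set_option linter.unusedSectionVars false

namespace Pool.Agent.Lib.MP_351560_co

open Finset

/-- Degree conditions for colouring a class of `n` owned vertices with weights `y`. -/
def Slack {R S : Type} [Fintype R] [Fintype S] {κ : ℕ} (pl : R → Prop) [DecidablePred pl]
    (M : R → S → ℕ) (g : Fin κ → S) (cc y : S → ℕ) (n Y yc yl ym : ℕ) : Prop :=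
  (∀ v, if pl v then ∑ σ, M v σ * y σ ≤ Y else ∑ σ, M v σ * y σ = n) ∧ ∑ d, y (g d) ≤ Y ∧
  (∀ v σ, M v σ ≠ 0 → if pl v then y σ ≤ yl else ym ≤ y σ ∧ y σ ≤ yc) ∧ (∀ d, y (g d) ≤ yl) ∧
  ∑ σ, cc σ * y σ + Y + yc ≤ n ∧
  ∑ σ, cc σ * y σ + Y + 2 * yl ≤ n + (univ.filter fun v => ¬ pl v).card * ym

theorem fat_rows {R S : Type} [Fintype R] [DecidableEq R] [Fintype S] [DecidableEq S]
    {t a q κ : ℕ} (pl : R → Prop) [DecidablePred pl] (x w m cc : S → ℕ) (σ0 : S) (g : Fin κ → S)
    (M : R → S → ℕ) (l : R → ℕ) (hx0 : x σ0 = 0) (hw0 : w σ0 = 0) (hm0 : m σ0 = 0)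
    (hg : ∀ d, g d ≠ σ0 ∧ m (g d) = 0) (hpl : (univ.filter pl).card + q = t)
    (h0 : ∀ v, ¬ pl v → ∑ σ, M v σ = t ∧ ∑ σ, M v σ * m σ = q)
    (h1 : ∀ v, pl v → ∑ σ, M v σ + 1 = t ∧ ∑ σ, M v σ * m σ + l v = q ∧
      ∑ σ, M v σ * x σ = ∑ d, x (g d) + l v ∧ ∑ σ, M v σ * w σ = ∑ d, w (g d))
    (hcol : ∀ σ, ∑ v, M v σ + ∑ d, (if σ = g d then q else 0) +
      (if σ = σ0 then (κ + 1) * (t - q) else 0) = t * cc σ)
    (hQ : ∀ v, pl v → ∑ σ, cc σ * m σ + l v + κ ≤ q) (hQ' : ∑ σ, cc σ * m σ + 1 + κ ≤ q)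
    {Y yc yl ym Y' yc' yl' ym' : ℕ} (hA : Slack pl M g cc x a Y yc yl ym)
    (hA' : Slack pl M g cc w t Y' yc' yl' ym') (j : ℕ) :
    Good t ![a + j * t, Fintype.card R, q] := by
  classical
  have ht : 0 < t := by omega
  have : Nonempty (Fin t) := ⟨⟨0, ht⟩⟩
  let M' : R ⊕ Option (Fin κ) → Option S → ℕ := fun o σ => match o, σ with
    | .inl v, none => if pl v then 1 else 0
    | .inl v, some σ => M v σ
    | .inr none, none => q
    | .inr none, some σ => if σ = σ0 then t - q else 0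
    | .inr (some _), none => 0
    | .inr (some d), some σ => (if σ = g d then q else 0) + if σ = σ0 then t - q else 0
  let cc' : Option S → ℕ := fun σ => σ.elim 1 cc
  have hrow : ∀ o, ∑ σ, M' o σ = t := by
    rintro (v | _ | d) <;> simp only [Fintype.sum_option, M']
    · by_cases h : pl v
      · rw [if_pos h, add_comm, (h1 v h).1]
      · rw [if_neg h, zero_add, (h0 v h).1]
    · simp
      omega
    · simp [sum_add_distrib]
      omega
  have hcol' : ∀ σ, ∑ o, M' o σ = t * cc' σ := by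
    rintro (_ | σ) <;> simp only [Fintype.sum_sum_type, Fintype.sum_option, M', cc', Option.elim]
    · rw [← card_filter]
      simpa using hpl
    · rw [← hcol σ, sum_add_distrib]
      split_ifs <;> simp <;> ring
  obtain ⟨st, s1, s2⟩ := sched_state M' cc' t (Nat.eq_of_mul_eq_mul_left ht (by
    rw [mul_sum, ← sum_congr rfl fun σ _ => hcol' σ, sum_comm, sum_congr rfl fun o _ => hrow o]
    simp [mul_comm])) hrow hcol'
  have s3 : ∀ i o, M' o (st i o) ≠ 0 := fun i o => by
    rw [← s1]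
    exact card_ne_zero.2 ⟨i, by simp⟩
  have s4 : ∀ i d, st i (.inr (some d)) = some (g d) ∨ st i (.inr (some d)) = some σ0 := by
    intro i d
    have := s3 i (.inr (some d))
    rcases h : st i (.inr (some d)) with _ | σ <;> simp only [h, M'] at this
    · exact absurd rfl this
    · by_contra hh
      simp only [Option.some.injEq, not_or] at hh
      simp [hh.1, hh.2] at this
  have s5 : ∀ i, st i (.inr none) = none ∨ st i (.inr none) = some σ0 := by
    intro i
    have := s3 i (.inr none)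
    rcases h : st i (.inr none) with _ | σ <;> simp only [h, M'] at this
    · exact .inl rfl
    · exact .inr (by
        by_contra hh
        exact this (if_neg fun h => hh (by rw [h])))
  have hone : ∀ i o o', st i o = none → st i o' = none → o = o' := by
    intro i v v' h h'
    obtain ⟨v0, hv0⟩ := uniq_of_card (s2 i none)
    exact ((hv0 v).1 h).trans ((hv0 v').1 h').symm
  have sumrow : ∀ (y : S → ℕ) v, ∑ i, (st i (.inl v)).elim 0 y = ∑ σ, M v σ * y σ := by
    intro y v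
    rw [sum_state (fun i => st i (.inl v)) fun σ => σ.elim 0 y]
    simp [s1, Fintype.sum_option, M']
  have sumcol : ∀ (y : S → ℕ) i, ∑ o, (st i o).elim 0 y = ∑ σ, cc σ * y σ := by
    intro y i
    rw [sum_state (st i) fun σ => σ.elim 0 y]
    simp [s2, Fintype.sum_option, cc']
  let yQ : R ⊕ Option (Fin κ) → Option S → ℕ := fun o σ => match o with
    | .inl v => σ.elim (l v) m
    | .inr none => if σ = none then 1 else 0
    | .inr (some d) => if σ = some (g d) then 1 else 0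
  obtain ⟨θ, θ1, θ2⟩ := sched (fun o i => yQ o (st i o)) q (by
    rintro (v | _ | d)
    · rw [sum_state (fun i => st i (.inl v)) (yQ (.inl v))]
      simp only [s1, Fintype.sum_option, M', yQ, Option.elim]
      by_cases h : pl v
      · rw [if_pos h, one_mul, add_comm, (h1 v h).2.1]
      · rw [if_neg h, zero_mul, zero_add, (h0 v h).2]
    · simp only [yQ]
      rw [← card_filter, s1]
    · simp only [yQ]
      rw [← card_filter, s1]
      simp [M', (hg d).1]) (by
    intro i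
    have a1 := sumcol m i
    rw [Fintype.sum_sum_type, Fintype.sum_option] at a1 ⊢
    have a2 : ∑ d, yQ (.inr (some d)) (st i (.inr (some d))) ≤ κ := by
      refine le_trans (sum_le_card_nsmul _ _ 1 fun d _ => ?_) (by simp)
      simp only [yQ]
      split_ifs <;> omega
    by_cases h : ∃ v, st i (.inl v) = none
    · obtain ⟨v, hv⟩ := h
      have a3 : ∑ v', yQ (.inl v') (st i (.inl v')) = ∑ v', (st i (.inl v')).elim 0 m + l v := by
        rw [← sum_erase_add _ _ (mem_univ v), ← sum_erase_add _ _ (mem_univ v), hv]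
        refine congrArg (· + l v) (sum_congr rfl fun v' hv' => ?_)
        rcases h' : st i (.inl v') with _ | σ
        · exact absurd (Sum.inl.inj (hone i _ _ h' hv)) (mem_erase.1 hv').1
        · rfl
      have a4 : yQ (.inr none) (st i (.inr none)) = 0 := if_neg fun h => by
        simpa using hone i _ _ h hv
      have := hQ v (by simpa [hv, M'] using s3 i (.inl v))
      omega
    · have a3 : ∑ v', yQ (.inl v') (st i (.inl v')) = ∑ v', (st i (.inl v')).elim 0 m :=
        sum_congr rfl fun v' _ => by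
          rcases h' : st i (.inl v') with _ | σ
          · exact absurd ⟨v', h'⟩ h
          · rfl
      have a4 : yQ (.inr none) (st i (.inr none)) ≤ 1 := by
        simp only [yQ]
        split_ifs <;> omega
      omega)
  have θ3 : ∀ o u, yQ o (st (θ o u) o) ≠ 0 := fun o u => by
    rw [← θ1]
    exact card_ne_zero.2 ⟨u, by simp⟩
  have θ4 : ∀ u, st (θ (.inr none) u) (.inr none) = none := fun u => by
    simpa [yQ] using θ3 (.inr none) u
  have θ5 : ∀ d u, st (θ (.inr (some d)) u) (.inr (some d)) = some (g d) := fun d u => by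
    simpa [yQ] using θ3 (.inr (some d)) u
  have hH : ∀ i, ∃ h : R ⊕ Fin q, (∀ v, h = .inl v ↔ st i (.inl v) = none) ∧
      ∀ u, h = .inr u ↔ θ (.inr none) u = i := by
    intro i
    obtain ⟨o, ho⟩ := uniq_of_card (s2 i none)
    rcases o with v | _ | d
    · refine ⟨.inl v, fun v' => by simp [ho, eq_comm], fun u => iff_of_false (by simp) ?_⟩
      rintro rfl
      simpa [ho] using θ4 u
    · obtain ⟨u, hu⟩ := uniq_of_card ((θ1 (.inr none) i).trans (if_pos ((ho _).2 rfl)))
      exact ⟨.inr u, fun v' => by simp [ho], fun u' => by simp [hu, eq_comm]⟩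
    · have := s4 i d
      simp [(ho _).2 rfl] at this
  choose H H1 H2 using hH
  have H3 : ∀ v, pl v ↔ ∃ i, H i = .inl v := fun v => by
    simp only [H1]
    refine ⟨fun h => ?_, fun ⟨i, h⟩ => by simpa [h, M'] using s3 i (.inl v)⟩
    obtain ⟨i, hi⟩ := uniq_of_card ((s1 (.inl v) none).trans (if_pos h))
    exact ⟨i, (hi i).2 rfl⟩
  have H4 : Function.Injective H := by
    intro i i' h
    rcases hi : H i' with v | u
    · obtain ⟨i0, h0⟩ := uniq_of_card ((s1 (.inl v) none).trans (if_pos ((H3 v).2 ⟨_, hi⟩)))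
      rw [(h0 i).1 ((H1 _ _).1 (h.trans hi)), (h0 i').1 ((H1 _ _).1 hi)]
    · rw [← (H2 _ _).1 (h.trans hi), ← (H2 _ _).1 hi]
  have H5 : ∀ z, (∀ i, H i ≠ z) → ∃ v, z = .inl v ∧ ¬ pl v := by
    rintro (v | u) h
    · exact ⟨v, rfl, fun hv => ((H3 v).1 hv).elim h⟩
    · exact absurd ((H2 _ u).2 rfl) (h _)
  let K : (S → ℕ) → R ⊕ Fin q → Fin t → ℕ := fun y z i => match z with
    | .inl v => (st i (.inl v)).elim 0 y
    | .inr u => ∑ d, if θ (.inr (some d)) u = i then y (g d) else 0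
  have K1 : ∀ y u, ∑ i, K y (.inr u) i = ∑ d, y (g d) := fun y u => by
    simp only [K]
    rw [sum_comm]
    simp
  have K2 : ∀ y u d, K y (.inr u) (θ (.inr (some d)) u) = y (g d) := fun y u d => by
    simp only [K]
    rw [sum_eq_single d, if_pos rfl] <;> simp only [mem_univ, not_true, false_imp_iff]
    exact fun d' _ h => if_neg fun h' => h (by simpa using θ2 u _ _ h')
  have K3 : ∀ y u i, (∀ d, θ (.inr (some d)) u ≠ i) → K y (.inr u) i = 0 := fun y u i h =>
    sum_eq_zero fun d _ => if_neg (h d)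
  have K4 : ∀ y, y σ0 = 0 → ∀ i, ∑ z, K y z i = ∑ σ, cc σ * y σ := fun y hy i => by
    rw [← sumcol y i, Fintype.sum_sum_type, Fintype.sum_sum_type, Fintype.sum_option]
    simp only [K]
    rw [sum_comm, show (st i (.inr none)).elim 0 y = 0 by rcases s5 i with h | h <;> simp [h, hy],
      zero_add]
    refine congrArg _ (sum_congr rfl fun d _ => ?_)
    rw [← sum_filter, sum_const, θ1]
    rcases s4 i d with h | h <;> simp [h, yQ, hy, (hg d).1.symm]
  have own : ∀ y n Y yc yl ym, y σ0 = 0 → Slack pl M g cc y n Y yc yl ym →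
      ∃ ω : Fin n → R ⊕ Fin q → Fin t, Owned H (K y) ω := by
    rintro y n Y yc yl ym hy ⟨b1, b2, b3, b4, b5, b6⟩
    have c1 : ∀ i, ∑ i', K y (H i) i' ≤ Y := by
      intro i
      rcases h : H i with v | u
      · have := b1 v
        rwa [if_pos ((H3 v).2 ⟨i, h⟩), ← sumrow] at this
      · rwa [K1]
    have c2 : ∀ i i', K y (H i) i' ≤ yl := by
      intro i i'
      rcases h : H i with v | u
      · have := s3 i' (.inl v)
        rcases h' : st i' (.inl v) with _ | σ <;> simp only [K, h', Option.elim]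
        · exact Nat.zero_le _
        · have := b3 v σ (by simpa [h', M'] using this)
          rwa [if_pos ((H3 v).2 ⟨i, h⟩)] at this
      · by_cases h' : ∃ d, θ (.inr (some d)) u = i'
        · obtain ⟨d, rfl⟩ := h'
          rw [K2]
          exact b4 d
        · rw [K3 _ _ _ fun d hd => h' ⟨d, hd⟩]
          exact Nat.zero_le _
    have c3 : ∀ i v, ¬ pl v → ym ≤ K y (.inl v) i ∧ K y (.inl v) i ≤ yc := by
      intro i v hv
      have := s3 i (.inl v)
      rcases h' : st i (.inl v) with _ | σ <;> simp only [K, h', Option.elim]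
      · simp [h', M', hv] at this
      · have := b3 v σ (by simpa [h', M'] using this)
        rwa [if_neg hv] at this
    refine link_col H H4 (K y) n (fun i => ?_) (fun z hz => ?_) (fun i => ?_) (fun i z hz => ?_)
      fun i i' => ?_
    · rcases h : H i with v | u
      · simp only [K, (H1 i v).1 h, Option.elim]
      · exact K3 _ _ _ fun d hd => by simpa using θ2 u _ _ (hd.trans ((H2 i u).1 h).symm)
    · obtain ⟨v, rfl, hv⟩ := H5 z hz
      have := b1 v
      rwa [if_neg hv, ← sumrow] at this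
    · have := c1 i
      rw [K4 y hy]
      omega
    · obtain ⟨v, rfl, hv⟩ := H5 z hz
      have := c1 i
      have := (c3 i v hv).2
      rw [K4 y hy]
      omega
    · have a1 := c1 i
      have a2 := c2 i i'
      have a3 := c2 i' i
      have a4 : ∑ j, K y (H j) i + ∑ v with ¬ pl v, K y (.inl v) i ≤ ∑ z, K y z i := by
        rw [← sum_image (s := univ) (g := H) (f := fun z => K y z i) fun x _ y _ h => H4 h,
          ← sum_image (g := Sum.inl) (f := fun z => K y z i) fun x _ y _ h => Sum.inl.inj h,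
          ← sum_union]
        · exact sum_le_sum_of_subset (subset_univ _)
        · rw [disjoint_left]
          simp only [mem_image, mem_univ, true_and, mem_filter, not_exists, not_and]
          rintro z ⟨j, rfl⟩ v hv h
          exact hv ((H3 v).2 ⟨j, h.symm⟩)
      have a5 := card_nsmul_le_sum (univ.filter fun v => ¬ pl v) (fun v => K y (.inl v) i) ym
        fun v hv => (c3 i v (mem_filter.1 hv).2).1
      rw [K4 y hy] at a4
      rw [smul_eq_mul] at a5
      omega
  obtain ⟨ω, hω⟩ := own x a _ _ _ _ hx0 hA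
  obtain ⟨ω', hω'⟩ := own w t _ _ _ _ hw0 hA'
  let G : Fin t → R ⊕ Fin q → R ⊕ Fin q → Prop := fun i z z' => match z, z' with
    | .inl v, .inr u => θ (.inl v) u = i
    | .inr u, .inl v => θ (.inl v) u = i
    | _, _ => False
  let Z := {z : Σ σ, Fin (cc σ) // z.1 ≠ σ0}
  have hf : ∀ i, ∃ (ψ : Z → R ⊕ Option (Fin κ)) (c : Z → R ⊕ Fin q)
      (e : ∀ z : Z, Fin (m z.1.1) → Fin q), Function.Injective ψ ∧
      (∀ z, st i (ψ z) = some z.1.1) ∧ (∀ o σ, st i o = some σ → σ ≠ σ0 → ∃ z, ψ z = o) ∧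
      (∀ z, (∃ v, ψ z = .inl v ∧ c z = .inl v ∧ ∀ u, θ (ψ z) u = i ↔ ∃ n, e z n = u) ∨
        ∃ d u, ψ z = .inr (some d) ∧ z.1.1 = g d ∧ c z = .inr u ∧ ∀ u', θ (ψ z) u' = i ↔ u' = u) ∧
      ∀ z, Function.Injective (e z) := by
    intro i
    obtain ⟨φ, hφ⟩ := fib_equiv (fun z : Σ σ, Fin (cc' σ) => z.1) (st i)
      (fun l => by rw [card_sigma_fib, s2])
    have : ∀ z : Z, ∃ (c : R ⊕ Fin q) (e : Fin (m z.1.1) → Fin q),
        ((∃ v, φ ⟨some z.1.1, z.1.2⟩ = .inl v ∧ c = .inl v ∧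
          ∀ u, θ (φ ⟨some z.1.1, z.1.2⟩) u = i ↔ ∃ n, e n = u) ∨
        ∃ d u, φ ⟨some z.1.1, z.1.2⟩ = .inr (some d) ∧ z.1.1 = g d ∧ c = .inr u ∧
          ∀ u', θ (φ ⟨some z.1.1, z.1.2⟩) u' = i ↔ u' = u) ∧ Function.Injective e := by
      intro z
      have a1 := hφ ⟨some z.1.1, z.1.2⟩
      rcases h : φ ⟨some z.1.1, z.1.2⟩ with v | _ | d <;> rw [h] at a1
      · obtain ⟨e, e1, e2⟩ := exists_enum (n := m z.1.1) ((θ1 (.inl v) i).trans (by rw [a1]; rfl))
        exact ⟨_, e, .inl ⟨v, rfl, rfl, e2⟩, e1⟩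
      · have := s5 i
        simp [a1, z.2] at this
      · have a2 : z.1.1 = g d := by simpa [a1, z.2] using s4 i d
        obtain ⟨u, hu⟩ := uniq_of_card ((θ1 (.inr (some d)) i).trans (if_pos (a1.trans (congrArg some a2))))
        have a3 : IsEmpty (Fin (m z.1.1)) := by
          rw [a2, (hg d).2]
          infer_instance
        exact ⟨_, isEmptyElim, .inr ⟨d, u, rfl, a2, rfl, hu⟩, fun n => isEmptyElim n⟩
    choose c e h2 h3 using this
    refine ⟨fun z => φ ⟨some z.1.1, z.1.2⟩, c, e, ?_, fun z => hφ _, fun o σ h h' => ?_, h2, h3⟩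
    · rintro ⟨⟨σ, n⟩, _⟩ ⟨⟨σ', n'⟩, _⟩ h
      have := φ.injective h
      simp only [Sigma.mk.injEq, Option.some.injEq] at this
      obtain ⟨rfl, h⟩ := this
      obtain rfl := eq_of_heq h
      rfl
    · obtain ⟨⟨σ', n⟩, rfl⟩ := φ.surjective o
      obtain rfl : σ' = some σ := (hφ _).symm.trans h
      exact ⟨⟨⟨σ, n⟩, h'⟩, rfl⟩
  choose ψ c e ψ1 ψ2 ψ3 ψ4 e1 using hf
  have e2 : ∀ i z n, θ (ψ i z) (e i z n) = i ∧ ∃ v, ψ i z = .inl v := by
    intro i z n
    rcases ψ4 i z with ⟨v, a1, -, a3⟩ | ⟨d, u, -, a2, -⟩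
    · exact ⟨(a3 _).2 ⟨n, rfl⟩, v, a1⟩
    · have := n.2.trans_eq ((congrArg m a2).trans (hg d).2)
      omega
  have c1 : ∀ i z v, c i z = .inl v → ψ i z = .inl v := by
    intro i z v h
    rcases ψ4 i z with ⟨v', a1, a2, -⟩ | ⟨d, u, -, -, a3, -⟩
    · rw [a1, Sum.inl.inj (a2.symm.trans h)]
    · simp [a3] at h
  have c2 : ∀ i z u, c i z = .inr u → θ (ψ i z) u = i ∧ ∃ d, ψ i z = .inr (some d) ∧ z.1.1 = g d := by
    intro i z u h
    rcases ψ4 i z with ⟨v', a1, a2, -⟩ | ⟨d, u', a1, a2, a3, a4⟩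
    · simp [a2] at h
    · exact ⟨(a4 u).2 (Sum.inr.inj (h.symm.trans a3)), d, a1, a2⟩
  let f : Fin t → (Σ z : Z, Option (Fin (m z.1.1))) → R ⊕ Fin q := fun i r =>
    r.2.elim (c i r.1) fun n => .inr (e i r.1 n)
  have f0 : ∀ i r u, f i r = .inr u → θ (ψ i r.1) u = i := by
    rintro i ⟨z, _ | n⟩ u h
    · exact (c2 i z u h).1
    · exact Sum.inr.inj h ▸ (e2 i z n).1
  have f0' : ∀ i r v, f i r = .inl v → ψ i r.1 = .inl v ∧ r.2 = none := by
    rintro i ⟨z, _ | n⟩ v h
    · exact ⟨c1 i z v h, rfl⟩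
    · simp [f] at h
  have eG : ∀ i v u, θ (.inl v) u = i → .inl v = H i ∨ ∃ r r' : Σ z : Z, Option (Fin (m z.1.1)),
      (r.1 = r'.1 ∧ r.2 = none ∧ r'.2.isSome) ∧ .inl v = f i r ∧ .inr u = f i r' := by
    intro i v u h
    have a1 := θ3 (.inl v) u
    rw [h] at a1
    rcases h' : st i (.inl v) with _ | σ
    · exact .inl ((H1 i v).2 h').symm
    obtain ⟨z, hz⟩ := ψ3 i _ σ h' (by
      rintro rfl
      simp [h', yQ, hm0] at a1)
    rcases ψ4 i z with ⟨v', a2, a3, a4⟩ | ⟨d, u', a2, -⟩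
    · obtain ⟨n, rfl⟩ := (a4 u).1 (hz ▸ h)
      exact .inr ⟨⟨z, none⟩, ⟨z, some n⟩, ⟨rfl, rfl, rfl⟩,
        by rw [← Sum.inl.inj (a2.symm.trans hz), ← a3]; rfl, rfl⟩
    · simp [hz] at a2
  have := good_fat (Fintype.card_fin t) (Sum.elim (fun _ => 1) fun _ => 2)
    (by rintro (v | u) <;> simp) G (by rintro i (v | u) (v' | u') h <;> exact h)
    (by rintro i (v | u) (v' | u') h <;> simp [G] at h ⊢)
    (by rintro (v | u) (v' | u') h <;> simp [G] at h ⊢) H _ _ (hω.sum hω' j) f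
    (fun r => if r.2 = none then x r.1.1.1 + j * w r.1.1.1 else 0) (fun _ => False)
    (fun r r' => r.1 = r'.1 ∧ r.2 = none ∧ r'.2.isSome) (∑ d, x (g d) + j * ∑ d, w (g d)) 0
    ?_ ?_ ?_ ?_ ?_ ?_ ?_ ?_
  · convert this using 2 with P
    rw [card_filter, Fintype.sum_sum_type]
    fin_cases P <;> simp
  · rintro i ⟨z, n⟩ ⟨z', n'⟩ h
    rcases h' : f i ⟨z', n'⟩ with v | u
    · obtain ⟨a1, b1⟩ := f0' _ _ _ h'
      obtain ⟨a2, b2⟩ := f0' _ _ _ (h.trans h')
      obtain rfl : z = z' := ψ1 i (a2.trans a1.symm)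
      rw [show n = n' from b2.trans b1.symm]
    · obtain rfl : z = z' := ψ1 i (θ2 u _ _ ((f0 _ _ _ (h.trans h')).trans (f0 _ _ _ h').symm))
      rcases n with _ | n <;> rcases n' with _ | n'
      · rfl
      · obtain ⟨-, d, a1, -⟩ := c2 i z u (h.trans h')
        obtain ⟨-, v, a2⟩ := e2 i z n'
        simp [a1] at a2
      · obtain ⟨-, d, a1, -⟩ := c2 i z u h'
        obtain ⟨-, v, a2⟩ := e2 i z n
        simp [a1] at a2
      · rw [e1 i z (Sum.inr.inj h)]
  · intro i r h
    have a1 := ψ2 i r.1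
    rcases h' : H i with v | u
    · rw [(f0' _ _ _ (h.trans h')).1, (H1 i v).1 h'] at a1
      simp at a1
    · have a2 := (H2 i u).1 h'
      rw [θ2 u _ _ ((f0 _ _ _ (h.trans h')).trans a2.symm), ← a2, θ4] at a1
      simp at a1
  · intro i r
    have a1 := ψ2 i r.1
    rcases h : H i with v | u <;> rcases h' : f i r with v' | u' <;> simp only [G, iff_false]
    · intro a2
      rw [θ2 u' _ _ ((f0 _ _ _ h').trans a2.symm), (H1 i v).1 h] at a1
      simp at a1
    · intro a2
      simpa using θ2 u _ _ (a2.trans ((H2 i u).1 h).symm)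
  · rintro i ⟨z, _ | n⟩ ⟨z', _ | n'⟩ ⟨rfl, h1, h2⟩ <;> simp at h1 h2
    obtain ⟨a1, v, a2⟩ := e2 i z n'
    rcases ψ4 i z with ⟨v', a3, a4, -⟩ | ⟨d, u', a3, -⟩
    · simp only [f, Option.elim, a4, G]
      rwa [← a3]
    · simp [a3] at a2
  · rintro i (v | u) (v' | u') h
    · exact h.elim
    · exact (eG i v u' h).imp id fun ⟨r, r', a1, a2, a3⟩ => .inr ⟨r, r', .inl a1, a2, a3⟩
    · exact .inr ((eG i v' u h).imp id fun ⟨r, r', a1, a2, a3⟩ => ⟨r', r, .inr a1, a3, a2⟩)
    · exact h.elim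
  · rintro i ⟨z, _ | n⟩
    · rcases h : c i z with v | u
      · simp only [f, Option.elim, h, K, ← c1 i z v h, ψ2, if_true]
      · obtain ⟨a1, d, a2, a3⟩ := c2 i z u h
        simp only [f, Option.elim, h, if_true]
        rw [← a1, a2, K2, K2, a3]
    · obtain ⟨a1, v, a2⟩ := e2 i z n
      have : ∀ d, θ (.inr (some d)) (e i z n) ≠ i := fun d h => by
        simpa [a2] using θ2 _ _ _ (h.trans a1.symm)
      simp [f, K3 _ _ _ this]
  · rintro i (v | u) h h'
    · rcases a1 : st i (.inl v) with _ | σ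
      · exact absurd ((H1 i v).2 a1).symm h
      obtain ⟨z, hz⟩ := ψ3 i _ σ a1 (by
        rintro rfl
        simp [K, a1, hx0, hw0] at h')
      rcases ψ4 i z with ⟨v', a2, a3, -⟩ | ⟨d, u', a2, -⟩
      · exact ⟨⟨z, none⟩, by rw [← Sum.inl.inj (a2.symm.trans hz), ← a3]; rfl⟩
      · simp [hz] at a2
    · by_cases a1 : ∃ d, θ (.inr (some d)) u = i
      · obtain ⟨d, a1⟩ := a1
        obtain ⟨z, hz⟩ := ψ3 i _ _ (a1 ▸ θ5 d u) (hg d).1
        rcases ψ4 i z with ⟨v', a2, -⟩ | ⟨d', u', -, -, a3, a4⟩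
        · simp [hz] at a2
        · exact ⟨⟨z, none⟩, by rw [(a4 u).1 (hz ▸ a1), ← a3]; rfl⟩
      · simp [K3 _ _ _ fun d hd => a1 ⟨d, hd⟩] at h'
  · intro i
    rw [sum_add_distrib, ← mul_sum]
    rcases h : H i with v | u
    · have : {y | G i (.inl v) y} = Sum.inr '' (univ.filter fun u => θ (.inl v) u = i : Finset _) := by
        ext (v' | u) <;> simp [G]
      obtain ⟨-, -, a1, a2⟩ := h1 v ((H3 v).2 ⟨i, h⟩)
      rw [this, Set.ncard_image_of_injective _ Sum.inr_injective, Set.ncard_coe_finset, θ1,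
        (H1 i v).1 h]
      simp only [K, sumrow, a1, a2, yQ, Option.elim_none]
      omega
    · have : {y | G i (.inr u) y} = ∅ := by
        ext (v' | u') <;> simp only [G, Set.mem_ofPred_eq, Set.mem_empty_iff_false, iff_false]
        exact fun a2 => by simpa using θ2 u _ _ (a2.trans ((H2 i u).1 h).symm)
      rw [this, K1, K1]
      simp

end Pool.Agent.Lib.MP_351560_co
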