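import Mathlib
import Pool.Agent.Lib.MP_351560_co.FatRows
import Pool.Agent.Lib.MP_351560_co.Fam

set_option autoImplicit false
set_option linter.unusedSimpArgs false
set_option linter.unusedVariables false
set_option linter.unusedSectionVars false

namespace Pool.Agent.Lib.MP_351560_co

open Finset

/-- Numerical conditions on the state matrices; the state `0` is the idle one. -/
def RowsOK {n ρ p κ : ℕ} (t q a : ℕ) (x w m : Fin (n + 1) → ℕ) (g : Fin κ → Fin (n + 1))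
    (M0 : Fin ρ → Fin (n + 1) → ℕ) (M1 : Fin p → Fin (n + 1) → ℕ) (l : Fin p → ℕ)
    (μ α L yc yl ym wc wl wm : ℕ) : Prop :=
  p + q = t ∧ x 0 = 0 ∧ w 0 = 0 ∧ m 0 = 0 ∧
  (∀ d, g d ≠ 0 ∧ m (g d) = 0 ∧ x (g d) ≤ yl ∧ w (g d) ≤ wl) ∧
  (∀ v, ∑ σ, M0 v σ = t ∧ ∑ σ, M0 v σ * m σ = q ∧ ∑ σ, M0 v σ * x σ = a ∧ ∑ σ, M0 v σ * w σ = t ∧
    ∀ σ, M0 v σ ≠ 0 → ym ≤ x σ ∧ x σ ≤ yc ∧ wm ≤ w σ ∧ w σ ≤ wc) ∧
  (∀ v, ∑ σ, M1 v σ + 1 = t ∧ ∑ σ, M1 v σ * m σ + l v = q ∧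
    ∑ σ, M1 v σ * x σ = ∑ d, x (g d) + l v ∧ ∑ σ, M1 v σ * w σ = ∑ d, w (g d) ∧ l v ≤ L ∧
    ∀ σ, M1 v σ ≠ 0 → x σ ≤ yl ∧ w σ ≤ wl) ∧
  (∀ σ, σ ≠ 0 → t ∣ ∑ v, M0 v σ + ∑ v, M1 v σ + ∑ d, if σ = g d then q else 0) ∧
  t * μ + ∑ v, l v = (ρ + p) * q ∧ t * α = ρ * a + t * ∑ d, x (g d) + ∑ v, l v ∧
  μ + L + κ ≤ q ∧ μ + 1 + κ ≤ q ∧ α + ∑ d, x (g d) + L + yc ≤ a ∧
  α + ∑ d, x (g d) + L + 2 * yl ≤ a + ρ * ym ∧ ρ + 2 * ∑ d, w (g d) + wc ≤ t ∧
  ρ + 2 * ∑ d, w (g d) + 2 * wl ≤ t + ρ * wm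

instance {n ρ p κ : ℕ} (t q a : ℕ) (x w m : Fin (n + 1) → ℕ) (g : Fin κ → Fin (n + 1))
    (M0 : Fin ρ → Fin (n + 1) → ℕ) (M1 : Fin p → Fin (n + 1) → ℕ) (l : Fin p → ℕ)
    (μ α L yc yl ym wc wl wm : ℕ) :
    Decidable (RowsOK t q a x w m g M0 M1 l μ α L yc yl ym wc wl wm) := by
  unfold RowsOK
  infer_instance

theorem good_of_rowsOK {n ρ p κ t q a : ℕ} {x w m : Fin (n + 1) → ℕ} {g : Fin κ → Fin (n + 1)}
    {M0 : Fin ρ → Fin (n + 1) → ℕ} {M1 : Fin p → Fin (n + 1) → ℕ} {l : Fin p → ℕ}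
    {μ α L yc yl ym wc wl wm : ℕ} (h : RowsOK t q a x w m g M0 M1 l μ α L yc yl ym wc wl wm)
    (j : ℕ) : Good t ![a + j * t, ρ + p, q] := by
  obtain ⟨ht, hx, hw, hm, hg, h0, h1, hd, hμ, hα, i1, i2, i3, i4, i5, i6⟩ := h
  have ht0 : 0 < t := by omega
  let col : Fin (n + 1) → ℕ := fun σ => ∑ v, M0 v σ + ∑ v, M1 v σ +
    ∑ d, (if σ = g d then q else 0) + if σ = 0 then (κ + 1) * (t - q) else 0
  have wt : ∀ y : Fin (n + 1) → ℕ, ∑ σ, col σ * y σ = ∑ v, ∑ σ, M0 v σ * y σ +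
      ∑ v, ∑ σ, M1 v σ * y σ + q * ∑ d, y (g d) + (κ + 1) * (t - q) * y 0 := by
    intro y
    simp only [col, add_mul, sum_add_distrib, sum_mul]
    rw [sum_comm, sum_comm (f := fun σ v => M1 v σ * y σ),
      sum_comm (f := fun σ d => (if σ = g d then q else 0) * y σ), mul_sum]
    simp [add_mul]
  have hdiv : ∀ σ, t ∣ col σ := by
    intro σ
    by_cases hσ : σ = 0
    · have a1 := wt fun _ => 1
      simp only [mul_one, sum_congr rfl fun v _ => (h0 v).1] at a1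
      have a2 : ∑ v, ∑ σ, M1 v σ + p = p * t := by
        rw [show p * t = ∑ v : Fin p, (∑ σ, M1 v σ + 1) by simp [(h1 _).1], sum_add_distrib]
        simp
      have a3 : ∑ σ, col σ = t * (ρ + p + κ) := by
        rw [a1, show t - q = p by omega]
        simp only [sum_const, card_univ, Fintype.card_fin, smul_eq_mul, mul_one]
        have : κ * t = κ * (p + q) := by rw [ht]
        nlinarith
      rw [← sum_erase_add _ _ (mem_univ 0)] at a3
      rw [hσ]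
      refine (Nat.dvd_add_right (dvd_sum fun σ h => ?_)).1 (a3 ▸ dvd_mul_right _ _)
      simpa only [col, if_neg (mem_erase.1 h).1, add_zero] using hd σ (mem_erase.1 h).1
    · simpa only [col, if_neg hσ, add_zero] using hd σ hσ
  choose cc hcc using hdiv
  have wt' : ∀ y : Fin (n + 1) → ℕ, y 0 = 0 → t * ∑ σ, cc σ * y σ = ∑ v, ∑ σ, M0 v σ * y σ +
      ∑ v, ∑ σ, M1 v σ * y σ + q * ∑ d, y (g d) := by
    intro y hy
    rw [mul_sum, sum_congr rfl fun σ _ => by rw [← mul_assoc, ← hcc], wt, hy, mul_zero, add_zero]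
  have e1 : ∑ σ, cc σ * m σ = μ := Nat.eq_of_mul_eq_mul_left ht0 (by
    have a2 : ∑ v, ∑ σ, M1 v σ * m σ + ∑ v, l v = p * q := by
      rw [← sum_add_distrib, sum_congr rfl fun v _ => (h1 v).2.1]
      simp
    rw [wt' m hm, sum_congr rfl fun v _ => (h0 v).2.1, sum_congr rfl fun d _ => (hg d).2.1]
    simp only [sum_const, card_univ, Fintype.card_fin, smul_eq_mul, mul_zero, add_mul] at hμ ⊢
    omega)
  have e2 : ∑ σ, cc σ * x σ = α := Nat.eq_of_mul_eq_mul_left ht0 (by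
    rw [wt' x hx, sum_congr rfl fun v _ => (h0 v).2.2.1, sum_congr rfl fun v _ => (h1 v).2.2.1, hα,
      sum_add_distrib, ← ht]
    simp only [sum_const, card_univ, Fintype.card_fin, smul_eq_mul]
    ring)
  have e3 : ∑ σ, cc σ * w σ = ρ + ∑ d, w (g d) := Nat.eq_of_mul_eq_mul_left ht0 (by
    rw [wt' w hw, sum_congr rfl fun v _ => (h0 v).2.2.2.1, sum_congr rfl fun v _ => (h1 v).2.2.2.1,
      ← ht]
    simp only [sum_const, card_univ, Fintype.card_fin, smul_eq_mul]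
    ring)
  have e4 : (univ.filter fun v : Fin ρ ⊕ Fin p => ¬ v.isRight = true).card = ρ := by
    rw [card_filter, Fintype.sum_sum_type]
    simp
  have := fat_rows (t := t) (a := a) (q := q) (fun v : Fin ρ ⊕ Fin p => v.isRight = true) x w m cc 0 g
    (Sum.elim M0 M1) (Sum.elim (fun _ => 0) l) hx hw hm (fun d => ⟨(hg d).1, (hg d).2.1⟩)
    (by rw [card_filter, Fintype.sum_sum_type]; simpa using ht) ?_ ?_
    (fun σ => by rw [← hcc, Fintype.sum_sum_type]; rfl) ?_ (by omega)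
    (Y := ∑ d, x (g d) + L) (yc := yc) (yl := yl) (ym := ym) (Y' := ∑ d, w (g d)) (yc' := wc)
    (yl' := wl) (ym' := wm) ⟨?_, by omega, ?_, fun d => (hg d).2.2.1, by omega, by rw [e4]; omega⟩
    ⟨?_, le_rfl, ?_, fun d => (hg d).2.2.2, by omega, by rw [e4]; omega⟩ j
  · simpa using this
  · rintro (v | v) h
    · exact ⟨(h0 v).1, (h0 v).2.1⟩
    · simp at h
  · rintro (v | v) h
    · simp at h
    · exact ⟨(h1 v).1, (h1 v).2.1, (h1 v).2.2.1, (h1 v).2.2.2.1⟩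
  · rintro (v | v) h
    · simp at h
    · have := (h1 v).2.2.2.2.1
      simp only [Sum.elim_inr]
      omega
  · rintro (v | v)
    · simpa using (h0 v).2.2.1
    · simpa using (h1 v).2.2.1.trans_le (Nat.add_le_add_left (h1 v).2.2.2.2.1 _)
  · rintro (v | v) σ h
    · simpa using ⟨((h0 v).2.2.2.2 σ h).1, ((h0 v).2.2.2.2 σ h).2.1⟩
    · simpa using ((h1 v).2.2.2.2.2 σ h).1
  · rintro (v | v)
    · simpa using (h0 v).2.2.2.1
    · simpa using (h1 v).2.2.2.1.le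
  · rintro (v | v) σ h
    · simpa using ((h0 v).2.2.2.2 σ h).2.2
    · simpa using ((h1 v).2.2.2.2.2 σ h).2

/-- Balanced distribution of `N` among `n` rows. -/
def bal (N n h : ℕ) : ℕ := (N + (n - 1 - h)) / n

lemma bal_le (N n h : ℕ) : bal N n h ≤ (N + n - 1) / n := by
  rcases n with _ | n
  · simp [bal]
  · exact Nat.div_le_div_right (by omega)

lemma bal_mono {N N' : ℕ} (hN : N ≤ N') (n h : ℕ) : bal N n h ≤ bal N' n h :=
  Nat.div_le_div_right (by omega)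

lemma sum_bal (N : ℕ) {n : ℕ} (hn : 0 < n) : ∑ h : Fin n, bal N n h = N := by
  have e1 := Nat.div_add_mod N n
  have e2 := Nat.mod_lt N hn
  rw [sum_congr rfl (g := fun h : Fin n => if h.val < N % n then N / n + 1 else N / n)
    fun h _ => ?_, sum_two _ _ e2.le]
  · generalize N / n = u at *
    generalize N % n = r at *
    obtain ⟨d, rfl⟩ := Nat.exists_eq_add_of_le e2.le
    rw [Nat.add_sub_cancel_left, ← e1]
    ring
  · have := h.2
    unfold bal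
    split_ifs with h' <;> refine Nat.div_eq_of_lt_le ?_ ?_ <;>
      simp only [add_mul, one_mul, mul_comm (N / n)] <;> omega

end Pool.Agent.Lib.MP_351560_co
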