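import Mathlib
import Pool.Agent.Lib.MP_351560_co.FatTwo
import Pool.Agent.Lib.MP_351560_co.Main

set_option autoImplicit false

namespace Pool.Agent.Lib.MP_351560_co

lemma rw_11_3_9_6 (j : ℕ) : Good 11 ![3 + 11 + j * 11, 9, 6] :=
  (good_of_rowsOK (n := 5) (ρ := 4) (p := 5) (κ := 0) (t := 11) (q := 6) (a := 14) (x := ![0, 1, 0,
    1, 2, 2]) (w := ![0, 0, 0, 1, 1, 2]) (m := ![0, 0, 1, 1, 0, 1]) (g := ![]) (M0 := ![![2, 1, 0,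
    3, 2, 3], ![2, 0, 1, 2, 3, 3], ![2, 0, 1, 2, 3, 3], ![2, 0, 0, 4, 3, 2]]) (M1 := fun _ => ![4,
    2, 4, 0, 0, 0]) (l := fun _ => 2) (μ := 4) (α := 6) (L := 2) (yc := 2) (yl := 1) (ym := 0) (wc
    := 2) (wl := 0) (wm := 0) (by decide +kernel) j)

lemma rw_11_4_10_5 (j : ℕ) : Good 11 ![4 + 11 + j * 11, 10, 5] :=
  (good_of_rowsOK (n := 5) (ρ := 4) (p := 6) (κ := 0) (t := 11) (q := 5) (a := 15) (x := ![0, 0, 1,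
    1, 2, 2]) (w := ![0, 0, 0, 1, 1, 2]) (m := ![0, 1, 1, 0, 1, 0]) (g := ![]) (M0 := ![![0, 1, 2,
    3, 2, 3], ![1, 1, 1, 2, 3, 3], ![1, 1, 1, 2, 3, 3], ![0, 1, 1, 4, 3, 2]]) (M1 := fun _ => ![6,
    3, 1, 0, 0, 0]) (l := fun _ => 1) (μ := 4) (α := 6) (L := 1) (yc := 2) (yl := 1) (ym := 0) (wc
    := 2) (wl := 0) (wm := 0) (by decide +kernel) j)

lemma rw_13_2_10_7 (j : ℕ) : Good 13 ![2 + 13 + j * 13, 10, 7] :=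
  (good_of_rowsOK (n := 5) (ρ := 4) (p := 6) (κ := 0) (t := 13) (q := 7) (a := 15) (x := ![0, 1, 0,
    1, 1, 2]) (w := ![0, 0, 0, 1, 1, 2]) (m := ![0, 0, 1, 0, 1, 1]) (g := ![]) (M0 := ![![1, 2, 1,
    3, 2, 4], ![0, 2, 1, 4, 3, 3], ![1, 2, 0, 3, 4, 3], ![1, 2, 0, 3, 4, 3]]) (M1 := fun h => if
    h.val < 5 then ![5, 1, 6, 0, 0, 0] else ![5, 0, 7, 0, 0, 0]) (l := fun h => if h.val < 5 then 1
    else 0) (μ := 5) (α := 5) (L := 1) (yc := 2) (yl := 1) (ym := 0) (wc := 2) (wl := 0) (wm := 0)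
    (by decide +kernel) j)

lemma rw_13_10_12_4 (j : ℕ) : Good 13 ![10 + 13 + j * 13, 12, 4] :=
  (good_of_rowsOK (n := 4) (ρ := 3) (p := 9) (κ := 0) (t := 13) (q := 4) (a := 23) (x := ![0, 0, 1,
    2, 3]) (w := ![0, 0, 0, 1, 2]) (m := ![0, 1, 1, 0, 0]) (g := ![]) (M0 := ![![1, 2, 2, 3, 5],
    ![0, 3, 1, 5, 4], ![0, 3, 1, 5, 4]]) (M1 := fun _ => ![9, 2, 1, 0, 0]) (l := fun _ => 1) (μ :=
    3) (α := 6) (L := 1) (yc := 3) (yl := 1) (ym := 0) (wc := 2) (wl := 0) (wm := 0)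
    (by decide +kernel) j)

lemma rw_14_6_13_4 (j : ℕ) : Good 14 ![6 + 14 + j * 14, 13, 4] :=
  (good_of_rowsOK (n := 4) (ρ := 3) (p := 10) (κ := 0) (t := 14) (q := 4) (a := 20) (x := ![0, 0,
    1, 1, 3]) (w := ![0, 0, 0, 1, 2]) (m := ![0, 1, 1, 0, 0]) (g := ![]) (M0 := ![![1, 3, 1, 4, 5],
    ![1, 3, 1, 4, 5], ![0, 2, 2, 6, 4]]) (M1 := fun _ => ![10, 2, 1, 0, 0]) (l := fun _ => 1) (μ :=
    3) (α := 5) (L := 1) (yc := 3) (yl := 1) (ym := 0) (wc := 2) (wl := 0) (wm := 0)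
    (by decide +kernel) j)

lemma rw_16_15_10_10 (j : ℕ) : Good 16 ![15 + 16 + j * 16, 10, 10] :=
  (good_of_rowsOK (n := 5) (ρ := 4) (p := 6) (κ := 0) (t := 16) (q := 10) (a := 31) (x := ![0, 1,
    0, 1, 2, 3]) (w := ![0, 0, 0, 0, 1, 2]) (m := ![0, 0, 1, 1, 1, 0]) (g := ![]) (M0 := ![![0, 2,
    1, 1, 8, 4], ![0, 2, 1, 1, 8, 4], ![0, 2, 1, 1, 8, 4], ![0, 2, 1, 1, 8, 4]]) (M1 := ![![9, 0,
    2, 4, 0, 0], ![9, 0, 2, 4, 0, 0], ![8, 0, 4, 3, 0, 0], ![6, 2, 6, 1, 0, 0], ![5, 3, 7, 0, 0,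
    0], ![5, 3, 7, 0, 0, 0]]) (l := ![4, 4, 3, 3, 3, 3]) (μ := 5) (α := 9) (L := 4) (yc := 3) (yl
    := 1) (ym := 0) (wc := 2) (wl := 0) (wm := 0) (by decide +kernel) j)

lemma rw_16_15_14_6 (j : ℕ) : Good 16 ![15 + 16 + j * 16, 14, 6] :=
  (good_of_rowsOK (n := 6) (ρ := 4) (p := 10) (κ := 0) (t := 16) (q := 6) (a := 31) (x := ![0, 1,
    0, 1, 2, 2, 3]) (w := ![0, 0, 0, 0, 1, 1, 2]) (m := ![0, 0, 1, 1, 0, 1, 0]) (g := ![]) (M0 :=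
    ![![0, 2, 1, 1, 4, 4, 4], ![0, 2, 1, 1, 4, 4, 4], ![0, 2, 1, 1, 4, 4, 4], ![0, 2, 1, 1, 4, 4,
    4]]) (M1 := fun h => if h.val < 6 then ![11, 0, 2, 2, 0, 0, 0] else ![9, 2, 4, 0, 0, 0, 0]) (l
    := fun h => if h.val < 6 then 2 else 2) (μ := 4) (α := 9) (L := 2) (yc := 3) (yl := 1) (ym :=
    0) (wc := 2) (wl := 0) (wm := 0) (by decide +kernel) j)

lemma rw_17_13_12_6 (j : ℕ) : Good 17 ![13 + 17 + j * 17, 12, 6] :=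
  (good_of_rowsOK (n := 5) (ρ := 1) (p := 5) (κ := 3) (t := 17) (q := 12) (a := 30) (x := ![0, 0,
    2, 3, 0, 2]) (w := ![0, 1, 2, 1, 0, 1]) (m := ![0, 0, 0, 0, 1, 1]) (g := ![1, 2, 3]) (M0 :=
    ![![0, 0, 3, 2, 3, 9]]) (M1 := ![![4, 1, 0, 0, 8, 3], ![1, 2, 0, 1, 11, 1], ![4, 0, 1, 0, 9,
    2], ![1, 2, 0, 2, 11, 0], ![4, 0, 1, 0, 9, 2]]) (l := ![1, 0, 1, 1, 1]) (μ := 4) (α := 7) (L :=
    1) (yc := 5) (yl := 5) (ym := 0) (wc := 2) (wl := 2) (wm := 0) (by decide +kernel) j).swap12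

lemma rw_17_16_14_5 (j : ℕ) : Good 17 ![16 + 17 + j * 17, 14, 5] :=
  (good_of_rowsOK (n := 6) (ρ := 2) (p := 3) (κ := 3) (t := 17) (q := 14) (a := 33) (x := ![0, 1,
    2, 3, 1, 3, 1]) (w := ![0, 1, 2, 0, 1, 1, 0]) (m := ![0, 0, 0, 0, 1, 1, 1]) (g := ![1, 2, 3])
    (M0 := ![![1, 1, 1, 0, 6, 8, 0], ![0, 1, 2, 0, 5, 7, 2]]) (M1 := ![![7, 1, 0, 1, 1, 1, 5], ![7,
    0, 0, 2, 3, 0, 4], ![7, 0, 0, 0, 2, 1, 6]]) (l := ![7, 7, 5]) (μ := 3) (α := 11) (L := 7) (yc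
    := 5) (yl := 4) (ym := 0) (wc := 2) (wl := 2) (wm := 0) (by decide +kernel) j).swap12

lemma rw_17_8_16_6 (j : ℕ) : Good 17 ![8 + 17 + j * 17, 16, 6] :=
  (good_of_rowsOK (n := 6) (ρ := 5) (p := 11) (κ := 0) (t := 17) (q := 6) (a := 25) (x := ![0, 0,
    1, 1, 2, 2, 2]) (w := ![0, 0, 0, 1, 1, 1, 2]) (m := ![0, 1, 1, 0, 0, 1, 0]) (g := ![]) (M0 :=
    ![![1, 1, 2, 3, 3, 3, 4], ![1, 2, 1, 2, 4, 3, 4], ![0, 2, 1, 4, 4, 3, 3], ![1, 1, 1, 4, 3, 4,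
    3], ![1, 1, 1, 4, 3, 4, 3]]) (M1 := fun _ => ![11, 4, 1, 0, 0, 0, 0]) (l := fun _ => 1) (μ :=
    5) (α := 8) (L := 1) (yc := 2) (yl := 1) (ym := 0) (wc := 2) (wl := 0) (wm := 0)
    (by decide +kernel) j)

lemma rw_19_1_15_5 (j : ℕ) : Good 19 ![1 + 19 + j * 19, 15, 5] :=
  (good_of_rowsOK (n := 6) (ρ := 1) (p := 4) (κ := 3) (t := 19) (q := 15) (a := 20) (x := ![0, 0,
    1, 2, 1, 1, 0]) (w := ![0, 2, 1, 2, 1, 0, 0]) (m := ![0, 0, 0, 0, 1, 1, 1]) (g := ![1, 2, 3])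
    (M0 := ![![1, 0, 0, 3, 13, 1, 1]]) (M1 := ![![6, 1, 2, 0, 1, 6, 2], ![5, 1, 0, 0, 3, 3, 6],
    ![5, 2, 0, 0, 1, 6, 4], ![5, 0, 2, 1, 1, 3, 6]]) (l := ![6, 3, 4, 5]) (μ := 3) (α := 5) (L :=
    7) (yc := 5) (yl := 2) (ym := 0) (wc := 2) (wl := 2) (wm := 0) (by decide +kernel) j).swap12

lemma rw_19_17_16_5 (j : ℕ) : Good 19 ![17 + 19 + j * 19, 16, 5] :=
  (good_of_rowsOK (n := 6) (ρ := 2) (p := 3) (κ := 3) (t := 19) (q := 16) (a := 36) (x := ![0, 2,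
    3, 0, 3, 1, 0]) (w := ![0, 1, 1, 0, 1, 0, 1]) (m := ![0, 0, 0, 1, 1, 1, 1]) (g := ![1, 2, 2])
    (M0 := ![![0, 0, 3, 0, 9, 0, 7], ![0, 3, 0, 0, 10, 0, 6]]) (M1 := ![![3, 0, 1, 5, 0, 7, 2],
    ![2, 0, 1, 7, 0, 6, 2], ![2, 0, 1, 7, 0, 6, 2]]) (l := ![2, 1, 1]) (μ := 4) (α := 12) (L := 3)
    (yc := 5) (yl := 5) (ym := 0) (wc := 2) (wl := 2) (wm := 0) (by decide +kernel) j).swap12

lemma rw_21_20_18_6 (j : ℕ) : Good 21 ![20 + 21 + j * 21, 18, 6] :=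
  (good_of_rowsOK (n := 4) (ρ := 3) (p := 15) (κ := 0) (t := 21) (q := 6) (a := 41) (x := ![0, 0,
    1, 2, 3]) (w := ![0, 0, 0, 1, 2]) (m := ![0, 1, 1, 0, 0]) (g := ![]) (M0 := ![![1, 0, 6, 7, 7],
    ![1, 0, 6, 7, 7], ![1, 0, 6, 7, 7]]) (M1 := fun h => if h.val < 3 then ![15, 4, 1, 0, 0] else
    ![14, 6, 0, 0, 0]) (l := fun h => if h.val < 3 then 1 else 0) (μ := 5) (α := 6) (L := 1) (yc :=
    3) (yl := 1) (ym := 0) (wc := 2) (wl := 0) (wm := 0) (by decide +kernel) j)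

lemma rw_21_17_20_5 (j : ℕ) : Good 21 ![17 + 21 + j * 21, 20, 5] :=
  (good_of_rowsOK (n := 4) (ρ := 4) (p := 16) (κ := 0) (t := 21) (q := 5) (a := 38) (x := ![0, 0,
    1, 2, 3]) (w := ![0, 0, 0, 1, 2]) (m := ![0, 1, 1, 0, 0]) (g := ![]) (M0 := ![![1, 3, 2, 9, 6],
    ![0, 4, 1, 11, 5], ![0, 4, 1, 11, 5], ![0, 4, 1, 11, 5]]) (M1 := fun _ => ![16, 3, 1, 0, 0]) (l
    := fun _ => 1) (μ := 4) (α := 8) (L := 1) (yc := 3) (yl := 1) (ym := 0) (wc := 2) (wl := 0) (wm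
    := 0) (by decide +kernel) j)

lemma rw_23_7_22_5 (j : ℕ) : Good 23 ![7 + 23 + j * 23, 22, 5] :=
  (good_of_rowsOK (n := 5) (ρ := 4) (p := 18) (κ := 0) (t := 23) (q := 5) (a := 30) (x := ![0, 0,
    1, 1, 2, 2]) (w := ![0, 0, 0, 1, 1, 2]) (m := ![0, 1, 1, 0, 0, 0]) (g := ![]) (M0 := ![![1, 3,
    2, 6, 5, 6], ![1, 4, 1, 5, 6, 6], ![1, 4, 1, 5, 6, 6], ![0, 4, 1, 7, 6, 5]]) (M1 := fun _ =>
    ![18, 3, 1, 0, 0, 0]) (l := fun _ => 1) (μ := 4) (α := 6) (L := 1) (yc := 2) (yl := 1) (ym :=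
    0) (wc := 2) (wl := 0) (wm := 0) (by decide +kernel) j)

lemma rw_23_5_22_7 (j : ℕ) : Good 23 ![5 + 23 + j * 23, 22, 7] :=
  (good_of_rowsOK (n := 6) (ρ := 6) (p := 16) (κ := 0) (t := 23) (q := 7) (a := 28) (x := ![0, 0,
    1, 1, 2, 2, 0]) (w := ![0, 0, 0, 1, 1, 1, 2]) (m := ![0, 1, 1, 0, 0, 1, 0]) (g := ![]) (M0 :=
    ![![0, 2, 2, 4, 8, 3, 4], ![1, 2, 1, 3, 8, 4, 4], ![1, 2, 1, 3, 8, 4, 4], ![1, 2, 1, 3, 8, 4,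
    4], ![1, 2, 1, 3, 8, 4, 4], ![0, 2, 1, 7, 6, 4, 3]]) (M1 := fun _ => ![16, 5, 1, 0, 0, 0, 0])
    (l := fun _ => 1) (μ := 6) (α := 8) (L := 1) (yc := 2) (yl := 1) (ym := 0) (wc := 2) (wl := 0)
    (wm := 0) (by decide +kernel) j)

lemma rw_24_22_21_6 (j : ℕ) : Good 24 ![22 + 24 + j * 24, 21, 6] :=
  (good_of_rowsOK (n := 4) (ρ := 3) (p := 18) (κ := 0) (t := 24) (q := 6) (a := 46) (x := ![0, 0,
    1, 2, 3]) (w := ![0, 0, 0, 1, 2]) (m := ![0, 1, 1, 0, 0]) (g := ![]) (M0 := ![![2, 0, 6, 8, 8],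
    ![2, 0, 6, 8, 8], ![2, 0, 6, 8, 8]]) (M1 := fun h => if h.val < 6 then ![18, 4, 1, 0, 0] else
    ![17, 6, 0, 0, 0]) (l := fun h => if h.val < 6 then 1 else 0) (μ := 5) (α := 6) (L := 1) (yc :=
    3) (yl := 1) (ym := 0) (wc := 2) (wl := 0) (wm := 0) (by decide +kernel) j)

lemma rw_29_27_26_7 (j : ℕ) : Good 29 ![27 + 29 + j * 29, 26, 7] :=
  (good_of_rowsOK (n := 4) (ρ := 4) (p := 22) (κ := 0) (t := 29) (q := 7) (a := 56) (x := ![0, 0,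
    1, 2, 3]) (w := ![0, 0, 0, 1, 2]) (m := ![0, 1, 1, 0, 0]) (g := ![]) (M0 := ![![1, 1, 6, 13,
    8], ![0, 2, 5, 15, 7], ![0, 2, 5, 15, 7], ![0, 2, 5, 15, 7]]) (M1 := fun h => if h.val < 8 then
    ![22, 5, 1, 0, 0] else ![21, 7, 0, 0, 0]) (l := fun h => if h.val < 8 then 1 else 0) (μ := 6)
    (α := 8) (L := 1) (yc := 3) (yl := 1) (ym := 0) (wc := 2) (wl := 0) (wm := 0)
    (by decide +kernel) j)

lemma rw_31_10_30_8 (j : ℕ) : Good 31 ![10 + 31 + j * 31, 30, 8] :=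
  (good_of_rowsOK (n := 6) (ρ := 7) (p := 23) (κ := 0) (t := 31) (q := 8) (a := 41) (x := ![0, 0,
    1, 1, 2, 2, 0]) (w := ![0, 0, 0, 1, 1, 1, 2]) (m := ![0, 1, 1, 0, 0, 1, 0]) (g := ![]) (M0 :=
    ![![1, 2, 2, 3, 14, 4, 5], ![1, 3, 1, 2, 15, 4, 5], ![1, 3, 1, 2, 15, 4, 5], ![0, 3, 1, 6, 13,
    4, 4], ![1, 2, 1, 6, 12, 5, 4], ![1, 2, 1, 6, 12, 5, 4], ![1, 2, 1, 6, 12, 5, 4]]) (M1 := fun _
    => ![23, 6, 1, 0, 0, 0, 0]) (l := fun _ => 1) (μ := 7) (α := 10) (L := 1) (yc := 2) (yl := 1)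
    (ym := 0) (wc := 2) (wl := 0) (wm := 0) (by decide +kernel) j)

def RwList : List (ℕ × ℕ × ℕ × ℕ) :=
  [(11, 3, 9, 6), (11, 4, 10, 5), (13, 2, 10, 7), (13, 10, 12, 4), (14, 6, 13, 4), (16, 15, 10,
    10), (16, 15, 14, 6), (17, 13, 12, 6), (17, 16, 14, 5), (17, 8, 16, 6), (19, 1, 15, 5), (19,
    17, 16, 5), (21, 20, 18, 6), (21, 17, 20, 5), (23, 7, 22, 5), (23, 5, 22, 7), (24, 22, 21, 6),
    (29, 27, 26, 7), (31, 10, 30, 8)]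

lemma rw_list : ∀ q ∈ RwList, ∀ j, Good q.1 ![q.2.1 + q.1 + j * q.1, q.2.2.1, q.2.2.2] := by
  simp only [RwList, List.forall_mem_cons, List.not_mem_nil, false_imp_iff, implies_true, and_true]
  exact ⟨rw_11_3_9_6, rw_11_4_10_5, rw_13_2_10_7, rw_13_10_12_4, rw_14_6_13_4, rw_16_15_10_10,
    rw_16_15_14_6, rw_17_13_12_6, rw_17_16_14_5, rw_17_8_16_6, rw_19_1_15_5, rw_19_17_16_5,
    rw_21_20_18_6, rw_21_17_20_5, rw_23_7_22_5, rw_23_5_22_7, rw_24_22_21_6, rw_29_27_26_7,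
    rw_31_10_30_8⟩

end Pool.Agent.Lib.MP_351560_co
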