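import Mathlib
import Pool.Agent.Lib.MP_351560_co.Fat

set_option autoImplicit false
set_option linter.unusedSimpArgs false
set_option linter.unusedVariables false
set_option linter.unusedSectionVars false

namespace Pool.Agent.Lib.MP_351560_co

open Finset

/-- Edges between the second and the third part at time `i`. -/
def tadj {B C T : Type} (τ : B → C → T) (i : T) : B ⊕ C → B ⊕ C → Prop
  | .inl v, .inr u => τ v u = i
  | .inr u, .inl v => τ v u = i
  | _, _ => False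

instance {B C T : Type} [DecidableEq T] (τ : B → C → T) (i : T) (x y : B ⊕ C) :
    Decidable (tadj τ i x y) := by
  rcases x with x | x <;> rcases y with y | y <;> unfold tadj <;> infer_instance

theorem fat_lines {B C T γ : Type} [Fintype B] [DecidableEq B] [Fintype C] [DecidableEq C]
    [Fintype T] [DecidableEq T] [Fintype γ] {t a : ℕ} (hT : Fintype.card T = t) (τ : B → C → T)
    (H : T → B ⊕ C) (hH : Function.Injective H) (f : T → γ → B ⊕ C) (nb : γ → Prop) (ξ : γ → ℕ)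
    (κ X d Y m ρ : ℕ) (f1 : ∀ i, Function.Injective (f i)) (f2 : ∀ i r, f i r ≠ H i)
    (f3 : ∀ i r, tadj τ i (H i) (f i r) ↔ nb r)
    (hτ : ∀ v u, H (τ v u) = .inl v ∨ H (τ v u) = .inr u)
    (n1 : ∀ v, (∀ i, H i ≠ v) → (∀ i, ∃ r, f i r = v) ∧
      ∑ i, ∑ r, (if f i r = v then ξ r else 0) = a)
    (n2 : ρ ≤ (univ.filter fun v => ∀ i, H i ≠ v).card)
    (p1 : ∀ i, ∑ j, ∑ r, (if f j r = H i then 1 else 0) = κ)
    (p2 : ∀ i, (univ.filter fun v => tadj τ i (H i) v).card + X =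
      ∑ j, ∑ r, (if f j r = H i then ξ r else 0) + d)
    (p3 : ∀ i, ∑ j, ∑ r, (if f j r = H i then ξ r else 0) ≤ Y) (hm : ∀ r, ξ r ≤ m)
    (h1 : Fintype.card γ + ∑ r, ξ r + κ + Y + m + 1 ≤ a + t)
    (h2 : Fintype.card γ + ∑ r, ξ r + κ + Y + 2 * m + 2 ≤ a + t + ρ)
    (h3 : Fintype.card γ + κ + 2 ≤ t) (j : ℕ) :
    Good t ![a + t + j * t, Fintype.card B, Fintype.card C] := by
  classical
  have : Nonempty T := Fintype.card_pos_iff.1 (by omega)
  let K : (γ → ℕ) → B ⊕ C → T → ℕ := fun y v i => ∑ r, if f i r = v then y r else 0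
  have K1 : ∀ y i r, K y (f i r) i = y r := fun y i r => by simp [K, (f1 i).eq_iff]
  have K2 : ∀ y i v, (∀ r, f i r ≠ v) → K y v i = 0 := fun y i v h =>
    sum_eq_zero fun r _ => if_neg (h r)
  have K3 : ∀ y i, ∑ v, K y v i = ∑ r, y r := fun y i => by
    simp only [K]
    rw [sum_comm]
    simp
  have K4 : ∀ v i, K (fun r => ξ r + 1) v i = K ξ v i + K (fun _ => 1) v i := fun v i => by
    simp only [K, ← sum_add_distrib]
    exact sum_congr rfl fun r _ => by split_ifs <;> rfl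
  have K5 : ∀ v, (∀ i, H i ≠ v) → ∑ i, K (fun _ => 1) v i = t := fun v hv => by
    rw [sum_congr rfl (g := fun _ => 1) fun i _ => by
      obtain ⟨r, rfl⟩ := (n1 v hv).1 i
      exact K1 _ _ _]
    simp [hT]
  have own : ∀ (y : γ → ℕ) n Y m, (∀ r, 1 ≤ y r ∧ y r ≤ m) →
      (∀ v, (∀ i, H i ≠ v) → ∑ i, K y v i = n) → (∀ i, ∑ j, K y (H i) j ≤ Y) →
      ∑ r, y r + Y + m ≤ n → ∑ r, y r + Y + 2 * m ≤ n + ρ →
      ∃ ω : Fin n → B ⊕ C → T, Owned H (K y) ω := by
    intro y n Y m b1 b2 b3 b4 b5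
    have c1 : ∀ v i, K y v i ≤ m := fun v i => by
      by_cases h : ∃ r, f i r = v
      · obtain ⟨r, rfl⟩ := h
        exact K1 y i r ▸ (b1 r).2
      · rw [K2 y i v fun r hr => h ⟨r, hr⟩]
        exact Nat.zero_le _
    refine link_col H hH (K y) n (fun i => K2 y i _ (f2 i)) b2 (fun i => ?_) (fun i v _ => ?_)
      fun i i' => ?_
    · have := b3 i
      rw [K3]
      omega
    · have := b3 i
      have := c1 v i
      rw [K3]
      omega
    · have a1 := b3 i
      have a2 := c1 (H i) i'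
      have a3 := c1 (H i') i
      have a4 : ∑ j, K y (H j) i + ∑ v with ∀ i, H i ≠ v, K y v i ≤ ∑ z, K y z i := by
        rw [← sum_image (s := univ) (g := H) (f := fun z => K y z i) fun x _ y _ h => hH h,
          ← sum_union]
        · exact sum_le_sum_of_subset (subset_univ _)
        · rw [disjoint_left]
          simp only [mem_image, mem_univ, true_and, mem_filter]
          rintro z ⟨j, rfl⟩ h
          exact h j rfl
      have a5 := card_nsmul_le_sum (univ.filter fun v => ∀ i, H i ≠ v) (fun v => K y v i) 1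
        fun v hv => by
          obtain ⟨r, rfl⟩ := (n1 v (mem_filter.1 hv).2).1 i
          exact (K1 y i r).symm ▸ (b1 r).1
      rw [K3] at a4
      rw [smul_eq_mul] at a5
      omega
  obtain ⟨ω, hω⟩ := own (fun r => ξ r + 1) (a + t) (Y + κ) (m + 1)
    (fun r => ⟨by omega, by have := hm r; omega⟩)
    (fun v hv => by simp only [K4, sum_add_distrib, K5 v hv]; exact congrArg (· + t) (n1 v hv).2)
    (fun i => by simp only [K4, sum_add_distrib]; exact Nat.add_le_add (p3 i) (p1 i).le)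
    (by simp [sum_add_distrib]; omega) (by simp [sum_add_distrib]; omega)
  obtain ⟨ω', hω'⟩ := own (fun _ => 1) t κ 1 (fun _ => ⟨le_rfl, le_rfl⟩) K5 (fun i => (p1 i).le)
    (by simp; omega) (by simp; omega)
  have := good_fat hT (Sum.elim (fun _ => 1) fun _ => 2)
    (by rintro (v | u) <;> simp) (tadj τ) (by rintro i (v | u) (v' | u') h <;> exact h)
    (by rintro i (v | u) (v' | u') h <;> simp [tadj] at h ⊢)
    (by rintro (v | u) (v' | u') h <;> simp [tadj] at h ⊢) H _ _ (hω.sum hω' j) f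
    (fun r => ξ r + 1 + j * 1) nb (fun _ _ => False) (X + κ + j * κ) d f1 f2 f3
    (fun _ _ _ h => h.elim) ?_ (fun i r => by rw [K1, K1]) ?_ ?_
  · convert this using 2 with P
    rw [card_filter, Fintype.sum_sum_type]
    fin_cases P <;> simp
  · rintro i (v | u) (v' | u') h
    · exact h.elim
    · obtain rfl : τ v u' = i := h
      exact (hτ v u').imp Eq.symm fun h => .inl h.symm
    · obtain rfl : τ v' u = i := h
      exact (hτ v' u).symm.imp Eq.symm fun h => .inl h.symm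
    · exact h.elim
  · intro i v _ h
    by_contra hh
    simp [K2 _ i v fun r hr => hh ⟨r, hr⟩] at h
  · intro i
    have a1 := p1 i
    have a2 := p2 i
    rw [show {y | tadj τ i (H i) y} = (univ.filter fun v => tadj τ i (H i) v : Finset _) by simp,
      Set.ncard_coe_finset]
    simp only [K4, sum_add_distrib, ← mul_sum]
    simp only [K, a1]
    omega

/-- Conditions on a finite block of special times. -/
def BlockOK {ns nb c ρ κ : ℕ} (τ : Fin nb → Fin c → Fin ns) (H : Fin ns → Fin nb ⊕ Fin c)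
    (f : Fin ns → Fin ρ ⊕ Fin κ → Fin nb ⊕ Fin c) (ξ : Fin ρ ⊕ Fin κ → ℕ) (s : Fin c → ℕ)
    (Y m : ℕ) : Prop :=
  (∀ i j, H i = H j → i = j) ∧ (∀ i r r', f i r = f i r' → r = r') ∧ (∀ i r, f i r ≠ H i) ∧
  (∀ i r, tadj τ i (H i) (f i r) ↔ r.isLeft) ∧
  (∀ v u, H (τ v u) = .inl v ∨ H (τ v u) = .inr u) ∧ (∀ v, ∃ i, H i = .inl v) ∧
  (∀ u, (∀ i, H i ≠ .inr u) → (∀ i, ∃ r, f i r = .inr u) ∧
    ∑ i, ∑ r, (if f i r = .inr u then ξ r else 0) = s u) ∧
  ρ = (univ.filter fun u => ∀ i, H i ≠ .inr u).card ∧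
  (∀ i, ∑ j, ∑ r, (if f j r = H i then 1 else 0) = κ) ∧
  (∀ i, (univ.filter fun v => tadj τ i (H i) v).card + ∑ r, ξ (.inr r) =
    ∑ j, ∑ r, (if f j r = H i then ξ r else 0) + c) ∧
  (∀ i, ∑ j, ∑ r, (if f j r = H i then ξ r else 0) ≤ Y) ∧ ∑ r, ξ (.inr r) ≤ Y ∧ ∀ r, ξ r ≤ m

instance {ns nb c ρ κ : ℕ} (τ : Fin nb → Fin c → Fin ns) (H : Fin ns → Fin nb ⊕ Fin c)
    (f : Fin ns → Fin ρ ⊕ Fin κ → Fin nb ⊕ Fin c) (ξ : Fin ρ ⊕ Fin κ → ℕ) (s : Fin c → ℕ)
    (Y m : ℕ) : Decidable (BlockOK τ H f ξ s Y m) := by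
  unfold BlockOK
  infer_instance

theorem fat_ext {ns nb c ρ κ Y m a t : ℕ} {τ : Fin nb → Fin c → Fin ns}
    {H : Fin ns → Fin nb ⊕ Fin c} {f : Fin ns → Fin ρ ⊕ Fin κ → Fin nb ⊕ Fin c}
    {ξ : Fin ρ ⊕ Fin κ → ℕ} {s : Fin c → ℕ} (h : BlockOK τ H f ξ s Y m) {Γ : Type} [Fintype Γ]
    [DecidableEq Γ] [AddCommGroup Γ] (sh : Fin κ → Γ) (s1 : Function.Injective sh)
    (s2 : ∀ r, sh r ≠ 0) (fa : Γ → Fin ρ → Fin c) (a1 : ∀ i, Function.Injective (fa i))
    (a2 : ∀ i r j, H j ≠ .inr (fa i r))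
    (a3 : ∀ u, (∀ i, H i ≠ .inr u) → s u + ∑ i, ∑ r, (if fa i r = u then ξ (.inl r) else 0) = a)
    (ht : ns + Fintype.card Γ = t) (h1 : ρ + κ + ∑ r, ξ r + κ + Y + m + 1 ≤ a + t)
    (h2 : κ + ∑ r, ξ r + κ + Y + 2 * m + 2 ≤ a + t) (h3 : ρ + κ + κ + 2 ≤ t) (j : ℕ) :
    Good t ![a + t + j * t, nb + Fintype.card Γ, c] := by
  obtain ⟨b1, b2, b3, b4, b5, b6, b7, b8, b9, b10, b11, b12, b13⟩ := h
  let em : Fin nb ⊕ Fin c → (Fin nb ⊕ Γ) ⊕ Fin c := Sum.map .inl id
  have e1 : ∀ x y, em x = em y ↔ x = y := by rintro (x | x) (y | y) <;> simp [em]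
  have e2 : ∀ x i, em x ≠ .inl (.inr i) := by rintro (x | x) i <;> simp [em]
  have e3 : ∀ x u, em x = .inr u ↔ x = .inr u := by rintro (x | x) i <;> simp [em]
  let τ' : Fin nb ⊕ Γ → Fin c → Fin ns ⊕ Γ := Sum.elim (fun v u => .inl (τ v u)) fun i _ => .inr i
  let H' : Fin ns ⊕ Γ → (Fin nb ⊕ Γ) ⊕ Fin c := Sum.elim (fun i => em (H i)) fun i => .inl (.inr i)
  let f' : Fin ns ⊕ Γ → Fin ρ ⊕ Fin κ → (Fin nb ⊕ Γ) ⊕ Fin c := Sum.elim (fun i r => em (f i r))
    fun i => Sum.elim (fun r => .inr (fa i r)) fun r => .inl (.inr (i + sh r))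
  have e4 : ∀ i x y, tadj τ' (.inl i) (em x) (em y) ↔ tadj τ i x y := by
    rintro i (x | x) (y | y) <;> simp [em, tadj, τ']
  have e5 : ∀ v, (∀ i, H' i ≠ v) → ∃ u, v = .inr u ∧ ∀ i, H i ≠ .inr u := by
    rintro ((v | i) | u) h
    · obtain ⟨i, hi⟩ := b6 v
      exact absurd (congrArg em hi) (h (.inl i))
    · exact absurd rfl (h (.inr i))
    · exact ⟨u, rfl, fun i hi => h (.inl i) (congrArg em hi)⟩
  have e6 : ∀ (y : Fin ρ ⊕ Fin κ → ℕ) i, ∑ j, ∑ r, (if f' j r = H' (.inl i) then y r else 0) =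
      ∑ j, ∑ r, if f j r = H i then y r else 0 := by
    intro y i
    rw [Fintype.sum_sum_type, sum_eq_zero (s := (univ : Finset Γ)), add_zero]
    · simp only [f', H', Sum.elim_inl, e1]
    · intro j _
      refine sum_eq_zero ?_
      rintro (r | r) _
      · exact if_neg fun h => a2 j r i ((e3 _ _).1 h.symm)
      · exact if_neg (e2 _ _).symm
  have e7 : ∀ (y : Fin ρ ⊕ Fin κ → ℕ) i, ∑ j, ∑ r, (if f' j r = H' (.inr i) then y r else 0) =
      ∑ r, y (.inr r) := by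
    intro y i
    rw [Fintype.sum_sum_type, sum_eq_zero (s := (univ : Finset (Fin ns))), zero_add, sum_comm,
      Fintype.sum_sum_type]
    · simp [f', H', ← eq_sub_iff_add_eq]
    · exact fun j _ => sum_eq_zero fun r _ => if_neg (e2 _ _)
  have e8 : Fintype.card (Fin ρ ⊕ Fin κ) = ρ + κ := by simp
  have := fat_lines (t := t) (a := a) (by simp [ht]) τ' H' ?_ f' (fun r => r.isLeft) ξ κ
    (∑ r, ξ (.inr r)) c Y m ρ ?_ ?_ ?_ ?_ ?_ ?_ ?_ ?_ ?_ b13 (by rw [e8]; omega) (by rw [e8]; omega)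
    (by rw [e8]; omega) j
  · simpa using this
  · rintro (i | i) (i' | i') h
    · rw [b1 _ _ ((e1 _ _).1 h)]
    · exact absurd h (e2 _ _)
    · exact absurd h.symm (e2 _ _)
    · simpa [H'] using h
  · rintro (i | i)
    · exact fun r r' h => b2 i r r' ((e1 _ _).1 h)
    · rintro (r | r) (r' | r') h <;> simp [f'] at h
      · rw [a1 i h]
      · rw [s1 h]
  · rintro (i | i) r
    · exact fun h => b3 i r ((e1 _ _).1 h)
    · rcases r with r | r <;> simp [f', H', s2]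
  · rintro (i | i) r
    · exact (e4 _ _ _).trans (b4 i r)
    · rcases r with r | r <;> simp [f', H', tadj, τ']
  · rintro (v | i) u
    · exact (b5 v u).imp (congrArg em) (congrArg em)
    · exact .inl rfl
  · intro v hv
    obtain ⟨u, rfl, hu⟩ := e5 v hv
    refine ⟨?_, ?_⟩
    · rintro (i | i)
      · exact ((b7 u hu).1 i).imp fun r => congrArg em
      · have : univ.image (fa i) = univ.filter fun u => ∀ i, H i ≠ .inr u :=
          eq_of_subset_of_card_le (fun x hx => by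
            obtain ⟨r, -, rfl⟩ := mem_image.1 hx
            exact mem_filter.2 ⟨mem_univ _, a2 i r⟩)
            (by rw [← b8, card_image_of_injective _ (a1 i)]; simp)
        obtain ⟨r, -, hr⟩ := mem_image.1 (this ▸ mem_filter.2 ⟨mem_univ u, hu⟩)
        exact ⟨.inl r, congrArg Sum.inr hr⟩
    · rw [← a3 u hu, ← (b7 u hu).2, Fintype.sum_sum_type]
      simp [f', e3, Fintype.sum_sum_type]
  · rw [b8]
    refine card_le_card_of_injOn Sum.inr (fun u hu => ?_) fun _ _ _ _ h => Sum.inr.inj h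
    simp only [coe_filter, mem_univ, true_and, Set.mem_ofPred_eq] at hu ⊢
    rintro (i | i)
    · exact fun h => hu i ((e3 _ _).1 h)
    · simp [H']
  · rintro (i | i)
    · rw [e6, b9]
    · rw [e7]
      simp
  · rintro (i | i)
    · rw [e6, ← b10]
      congr 1
      symm
      refine card_bij (fun v _ => em v) (fun v hv => ?_) (fun _ _ _ _ => (e1 _ _).1) ?_
      · exact mem_filter.2 ⟨mem_univ _, (e4 _ _ _).2 (mem_filter.1 hv).2⟩
      · rintro ((v | i') | u) hv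
        · exact ⟨.inl v, mem_filter.2 ⟨mem_univ _, (e4 _ _ _).1 (mem_filter.1 hv).2⟩, rfl⟩
        · have := (mem_filter.1 hv).2
          rcases h : H i with x | x <;> simp [H', h, em, tadj, τ'] at this
        · exact ⟨.inr u, mem_filter.2 ⟨mem_univ _, (e4 _ _ _).1 (mem_filter.1 hv).2⟩, rfl⟩
    · rw [e7, card_filter, Fintype.sum_sum_type, add_comm]
      simp [H', tadj, τ']
  · rintro (i | i)
    · exact (e6 _ _).trans_le (b11 i)
    · exact (e7 _ _).trans_le b12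

end Pool.Agent.Lib.MP_351560_co
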