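import Mathlib
import Pool.Agent.Lib.MP_351560_co.FatLines

set_option autoImplicit false
set_option linter.unusedSimpArgs false
set_option linter.unusedVariables false
set_option linter.unusedSectionVars false

namespace Pool.Agent.Lib.MP_351560_co

open Finset

lemma block_12 : BlockOK (ns := 4) (nb := 3) (c := 2) (ρ := 1) (κ := 2)
    ![![0, 3], ![1, 3], ![2, 2]]
    ![.inl 0, .inl 1, .inl 2, .inr 1]
    ![Sum.elim ![.inr 0] ![.inr 1, .inl 2],
      Sum.elim ![.inr 0] ![.inl 0, .inr 1],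
      Sum.elim ![.inr 0] ![.inl 0, .inl 1],
      Sum.elim ![.inl 1] ![.inl 2, .inr 0]]
    (Sum.elim ![0] ![1, 2]) ![2, 0] 3 2 := by
  decide +kernel

lemma block_13 : BlockOK (ns := 5) (nb := 4) (c := 3) (ρ := 2) (κ := 3)
    ![![0, 0, 0], ![1, 1, 4], ![2, 2, 4], ![3, 3, 4]]
    ![.inl 0, .inl 1, .inl 2, .inl 3, .inr 2]
    ![Sum.elim ![.inr 1, .inr 0] ![.inl 1, .inl 3, .inl 2],
      Sum.elim ![.inr 1, .inr 0] ![.inl 2, .inr 2, .inl 3],
      Sum.elim ![.inr 0, .inr 1] ![.inr 2, .inl 1, .inl 0],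
      Sum.elim ![.inr 0, .inr 1] ![.inl 2, .inl 0, .inr 2],
      Sum.elim ![.inl 1, .inl 3] ![.inl 0, .inr 1, .inr 0]]
    (Sum.elim ![1, 0] ![1, 2, 2]) ![4, 4, 0] 5 2 := by
  decide +kernel

lemma block_23 : BlockOK (ns := 4) (nb := 2) (c := 3) (ρ := 1) (κ := 2)
    ![![0, 0, 3], ![1, 2, 1]]
    ![.inl 0, .inl 1, .inr 1, .inr 2]
    ![Sum.elim ![.inr 0] ![.inr 2, .inl 1],
      Sum.elim ![.inr 0] ![.inr 1, .inl 0],
      Sum.elim ![.inl 1] ![.inr 2, .inr 0],
      Sum.elim ![.inl 0] ![.inr 1, .inr 0]]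
    (Sum.elim ![0] ![1, 3]) ![6, 0, 0] 4 3 := by
  decide +kernel

lemma block_24 : BlockOK (ns := 6) (nb := 4) (c := 4) (ρ := 2) (κ := 2)
    ![![0, 0, 4, 5], ![1, 1, 4, 5], ![2, 2, 4, 5], ![3, 3, 4, 5]]
    ![.inl 0, .inl 1, .inl 2, .inl 3, .inr 2, .inr 3]
    ![Sum.elim ![.inr 1, .inr 0] ![.inr 3, .inl 3],
      Sum.elim ![.inr 1, .inr 0] ![.inr 3, .inr 2],
      Sum.elim ![.inr 0, .inr 1] ![.inl 1, .inl 0],
      Sum.elim ![.inr 0, .inr 1] ![.inr 2, .inl 2],
      Sum.elim ![.inl 3, .inl 1] ![.inr 0, .inr 1],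
      Sum.elim ![.inl 2, .inl 0] ![.inr 0, .inr 1]]
    (Sum.elim ![0, 0] ![2, 2]) ![4, 4, 0, 0] 4 2 := by
  decide +kernel

lemma sh_two (n : ℕ) : Function.Injective (![1, 2] : Fin 2 → Fin (n + 3)) ∧
    ∀ r, (![1, 2] : Fin 2 → Fin (n + 3)) r ≠ 0 := by
  have e : 2 % (n + 3) = 2 := Nat.mod_eq_of_lt (by omega)
  refine ⟨fun r r' h => ?_, fun r => ?_⟩
  · fin_cases r <;> fin_cases r' <;> simp [Fin.ext_iff, e] at h ⊢
  · fin_cases r <;> simp [Fin.ext_iff, e]

theorem good_iv12 {t : ℕ} (ht : 14 ≤ t) (j : ℕ) : Good t ![2 + t + j * t, t - 1, 2] := by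
  obtain ⟨n, rfl⟩ : ∃ n, t = n + 7 := ⟨t - 7, by omega⟩
  have := fat_ext (a := 2) (t := n + 7) block_12 _ (sh_two n).1 (sh_two n).2 (fun _ _ => 0)
    (fun _ => Function.injective_of_subsingleton _) (fun _ _ => by decide)
    (fun u => by fin_cases u <;> simp <;> decide) (by simp; omega)
    (by simp [Fintype.sum_sum_type]; omega) (by simp [Fintype.sum_sum_type]; omega) (by omega) j
  convert this using 3
  simp; omega

theorem good_iv23 {t : ℕ} (ht : 14 ≤ t) (j : ℕ) : Good t ![6 + t + j * t, t - 2, 3] := by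
  obtain ⟨n, rfl⟩ : ∃ n, t = n + 7 := ⟨t - 7, by omega⟩
  have := fat_ext (a := 6) (t := n + 7) block_23 _ (sh_two n).1 (sh_two n).2 (fun _ _ => 0)
    (fun _ => Function.injective_of_subsingleton _) (fun _ _ => by decide)
    (fun u => by fin_cases u <;> simp <;> decide) (by simp; omega)
    (by simp [Fintype.sum_sum_type]; omega) (by simp [Fintype.sum_sum_type]; omega) (by omega) j
  convert this using 3
  simp; omega

theorem good_iv24 {t : ℕ} (ht : 14 ≤ t) (j : ℕ) : Good t ![4 + t + j * t, t - 2, 4] := by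
  obtain ⟨n, rfl⟩ : ∃ n, t = n + 9 := ⟨t - 9, by omega⟩
  have := fat_ext (a := 4) (t := n + 9) block_24 _ (sh_two n).1 (sh_two n).2 (fun _ => ![0, 1])
    (fun _ => by decide) (fun _ => by decide)
    (fun u => by fin_cases u <;> simp <;> decide) (by simp; omega)
    (by simp [Fintype.sum_sum_type]; omega) (by simp [Fintype.sum_sum_type]; omega) (by omega) j
  convert this using 3
  simp; omega

theorem good_iv13 {n : ℕ} (hn : 3 ≤ n) (j : ℕ) :
    Good (2 * n + 9) ![n + 6 + (2 * n + 9) + j * (2 * n + 9), 2 * n + 8, 3] := by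
  have := fat_ext (a := n + 6) (t := 2 * n + 9) block_13 (Γ := Fin 2 × Fin (n + 2))
    ![(1, 0), (0, 1), (1, 1)]
    (fun r r' h => by fin_cases r <;> fin_cases r' <;> simp [Fin.ext_iff] at h ⊢)
    (fun r => by fin_cases r <;> simp [Fin.ext_iff]) (fun i => ![![0, 1], ![1, 0]] i.1)
    (fun i => by generalize i.1 = x; revert x; decide)
    (fun i => by generalize i.1 = x; revert x; decide)
    (fun u hu => by
      rw [Fintype.sum_prod_type, Fin.sum_univ_two]
      fin_cases u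
      · simp
        omega
      · simp
        omega
      · exact absurd hu (by decide)) (by simp; omega)
    (by simp [Fintype.sum_sum_type, Fin.sum_univ_three]; omega)
    (by simp [Fintype.sum_sum_type, Fin.sum_univ_three]; omega) (by omega) j
  convert this using 3
  simp; omega

end Pool.Agent.Lib.MP_351560_co
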