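import Mathlib
import Pool.Agent.Lib.MP_351560_co.FatTwo

set_option autoImplicit false
set_option linter.unusedSimpArgs false
set_option linter.unusedVariables false
set_option linter.unusedSectionVars false

namespace Pool.Agent.Lib.MP_351560_co.R2

open Finset

lemma dvd_of_add {t x y z : ℕ} (h : x + y = z) (hy : t ∣ y) (hz : t ∣ z) : t ∣ x :=
  (Nat.dvd_add_left hy).1 (h ▸ hz)

lemma sum_six (f : Fin (5 + 1) → ℕ) : ∑ σ, f σ = f 0 + f 1 + f 2 + f 3 + f 4 + f 5 :=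
  Fin.sum_univ_six f

lemma fam_I {t a ρ p q β η s e μ α L : ℕ} (ht : p + q = t) (hp : 0 < p) (hβ : β ≤ 1) (hη : η ≤ 1)
    (v A : Fin ρ → ℕ) (l : Fin p → ℕ) (hv : ∑ r, v r = e * t)
    (h0 : ∀ r, ∃ b n y u, η * v r + b = (if β = 0 then q else p) ∧ A r + b + n = v r ∧
      2 * v r + y + u = t ∧ a + 2 * v r = A r + s * v r + y)
    (h1 : ∀ h, l h ≤ L) (hL : (1 + β) * L ≤ q) (hN : t ∣ ∑ r, A r + ∑ h, l h)
    (hμ : t * μ + ∑ h, l h = (ρ + p) * q) (hα : t * α = ρ * (a + t) + ∑ h, l h)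
    (i1 : μ + L ≤ q) (i2 : μ + 1 ≤ q) (i3 : α + L + max 2 s ≤ a + t) (i4 : ρ + 2 ≤ t) (j : ℕ) :
    Good t ![a + t + j * t, ρ + p, q] := by
  choose b n y u r1 r2 r3 r4 using h0
  have s1 := sum_congr (s₁ := univ) rfl fun r _ => r1 r
  have s2 := sum_congr (s₁ := univ) rfl fun r _ => r2 r
  have s3 := sum_congr (s₁ := univ) rfl fun r _ => r3 r
  have s4 := sum_congr (s₁ := univ) rfl fun r _ => r4 r
  simp only [sum_add_distrib, ← mul_sum, hv, sum_const, card_univ, Fintype.card_fin,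
    smul_eq_mul] at s1 s2 s3 s4
  have d0 : ∀ k, t ∣ k * (e * t) := fun k => (dvd_mul_left _ _).mul_left k
  have d1 : t ∣ ∑ r, y r := dvd_of_add (y := ∑ r, A r + ∑ h, l h + s * (e * t) + ρ * t)
    (z := t * α + 2 * (e * t)) (by rw [hα, mul_add]; omega)
    ((hN.add (d0 _)).add (dvd_mul_left _ _)) ((dvd_mul_right _ _).add (d0 _))
  have d2 : t ∣ ∑ r, u r := dvd_of_add (y := 2 * (e * t) + ∑ r, y r) (z := ρ * t) (by omega)
    ((d0 _).add d1) (dvd_mul_left _ _)
  have s5 : ∀ k, k ≤ 1 + β → ∑ h, (q - k * l h) + k * ∑ h, l h = p * q := fun k hk => by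
    rw [mul_sum, ← sum_add_distrib, sum_congr rfl fun h _ =>
      Nat.sub_add_cancel ((Nat.mul_le_mul hk (h1 h)).trans hL)]
    simp
  have m1 := le_max_left 2 s
  have m2 := le_max_right 2 s
  rcases (show β = 0 ∨ β = 1 by omega) with rfl | rfl
  · refine good_of_rowsOK (n := 5) (κ := 0) (x := ![0, 1, 0, 1, 2, s]) (w := ![0, 0, 0, 1, 1, 2])
      (m := ![0, 0, 1, 0, 0, η]) (g := ![]) (M0 := fun r => ![n r, A r, b r, u r, y r, v r])
      (M1 := fun h => ![p - 1, l h, q - 1 * l h, 0, 0, 0]) (l := l) (μ := μ) (α := α) (L := L)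
      (yc := max 2 s) (yl := 1) (ym := 0) (wc := 2) (wl := 0) (wm := 0)
      ⟨ht, rfl, rfl, rfl, fun d => d.elim0, fun r => ?_, fun h => ?_, fun σ hσ => ?_, hμ,
        by simpa using hα, by omega, by omega, by simp; omega, by simp; omega, by simp; omega,
        by simp; omega⟩ j
    · have a1 := r1 r
      have a2 := r2 r
      have a3 := r3 r
      have a4 := r4 r
      simp only [sum_six, Matrix.cons_val, if_true, mul_comm (v r)] at a1 ⊢
      refine ⟨by omega, by omega, by omega, by omega, fun σ _ => ?_⟩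
      fin_cases σ <;> simp
    · have a1 := h1 h
      simp only [sum_six, Matrix.cons_val, univ_eq_empty, sum_empty]
      refine ⟨by omega, by omega, by omega, by omega, a1, fun σ => ?_⟩
      fin_cases σ <;> simp
    · have a1 := s5 1 (by omega)
      fin_cases σ <;> simp only [Matrix.cons_val, Fin.reduceFinMk, univ_eq_empty, sum_empty,
        sum_const_zero, add_zero, Fin.zero_eta, Fin.mk_one]
      · exact absurd rfl hσ
      · exact hN
      · exact dvd_of_add (y := η * (e * t)) (z := t * μ) (by rw [add_mul] at hμ; simp at s1; omega)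
          (d0 _) (dvd_mul_right _ _)
      · exact d2
      · exact d1
      · exact hv ▸ dvd_mul_left _ _
  · refine good_of_rowsOK (n := 5) (κ := 0) (x := ![0, 1, 0, 1, 2, s]) (w := ![0, 0, 0, 1, 1, 2])
      (m := ![0, 1, 1, 1, 1, 1 - η]) (g := ![]) (M0 := fun r => ![b r, A r, n r, u r, y r, v r])
      (M1 := fun h => ![p - 1 + l h, l h, q - 2 * l h, 0, 0, 0]) (l := l) (μ := μ) (α := α)
      (L := L) (yc := max 2 s) (yl := 1) (ym := 0) (wc := 2) (wl := 0) (wm := 0)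
      ⟨ht, rfl, rfl, rfl, fun d => d.elim0, fun r => ?_, fun h => ?_, fun σ hσ => ?_, hμ,
        by simpa using hα, by omega, by omega, by simp; omega, by simp; omega, by simp; omega,
        by simp; omega⟩ j
    · have a1 := r1 r
      have a2 := r2 r
      have a3 := r3 r
      have a4 := r4 r
      simp only [sum_six, Matrix.cons_val, one_ne_zero, if_false, mul_comm (v r)] at a1 ⊢
      refine ⟨by omega, ?_, by omega, by omega, fun σ _ => ?_⟩
      · rcases (show η = 0 ∨ η = 1 by omega) with rfl | rfl <;> omega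
      · fin_cases σ <;> simp
    · have a1 := h1 h
      simp only [sum_six, Matrix.cons_val, univ_eq_empty, sum_empty]
      refine ⟨by omega, by omega, by omega, by omega, a1, fun σ => ?_⟩
      fin_cases σ <;> simp
    · have a1 := s5 2 (by omega)
      have a2 : ρ * p + ρ * q = ρ * t := by rw [← ht, mul_add]
      fin_cases σ <;> simp only [Matrix.cons_val, Fin.reduceFinMk, univ_eq_empty, sum_empty,
        sum_const_zero, add_zero, Fin.zero_eta, Fin.mk_one]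
      · exact absurd rfl hσ
      · exact hN
      · exact dvd_of_add (y := ∑ r, A r + ∑ h, l h + ρ * t) (z := t * μ + 1 * (e * t) + η * (e * t))
          (by rw [add_mul] at hμ; simp at s1; omega) (hN.add (dvd_mul_left _ _))
          (((dvd_mul_right _ _).add (d0 _)).add (d0 _))
      · exact d2
      · exact d1
      · exact hv ▸ dvd_mul_left _ _

def Ilo (t a s v : ℕ) : ℕ := a + 2 * v - s * v - (t - 2 * v)

def Ihi (a c η s v : ℕ) : ℕ := min ((1 + η) * v - c) (a + 2 * v - s * v)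

def IRow (t a c η s v : ℕ) : Prop :=
  2 * v ≤ t ∧ η * v ≤ c ∧ c ≤ (1 + η) * v ∧ s * v ≤ a + 2 * v ∧ Ilo t a s v ≤ Ihi a c η s v

/-- Residue and quotient of the number of edges between the two small parts. -/
def rS (t ρ p : ℕ) : ℕ := (t - ρ - p) * p % t

def rK (t ρ p : ℕ) : ℕ := (t - ρ - p) * p / t

def cdv (N n : ℕ) : ℕ := (N + n - 1) / n

lemma cdv_le {N n k : ℕ} (hn : 0 < n) (h : N ≤ n * k) : cdv N n ≤ k :=
  Nat.le_of_lt_succ ((Nat.div_lt_iff_lt_mul hn).2 (by rw [Nat.succ_mul, mul_comm]; omega))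

lemma mu_eq {t ρ p q : ℕ} (ht : p + q = t) (hr : ρ + p < t) :
    t * (ρ + rK t ρ p) + rS t ρ p = (ρ + p) * q := by
  have e := Nat.div_add_mod ((t - ρ - p) * p) t
  obtain ⟨d, rfl⟩ : ∃ d, q = ρ + d := ⟨q - ρ, by omega⟩
  rw [rK, rS, mul_add, add_assoc, e, show t - ρ - p = d by omega, ← ht]
  ring

lemma rK_le {t ρ p : ℕ} (hp : 0 < p) (hr : ρ + p < t) :
    rK t ρ p + cdv (rS t ρ p) p ≤ t - ρ - p ∧ rK t ρ p + 1 ≤ t - ρ - p := by
  have e := Nat.div_add_mod ((t - ρ - p) * p) t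
  have h1 : rK t ρ p < t - ρ - p :=
    (Nat.div_lt_iff_lt_mul (by omega)).2 (Nat.mul_lt_mul_of_pos_left (by omega) (by omega))
  refine ⟨?_, h1⟩
  obtain ⟨d, hd⟩ := Nat.exists_eq_add_of_le h1.le
  have h2 := Nat.mul_le_mul_right (rK t ρ p) (show p ≤ t by omega)
  have h3 : (t - ρ - p) * p = p * rK t ρ p + p * d := by rw [hd]; ring
  have : cdv (rS t ρ p) p ≤ d := cdv_le hp (by unfold rK rS at *; omega)
  omega

lemma alpha_dvd {t a ρ p q : ℕ} (ht : p + q = t) (hr : ρ + p < t)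
    (hq : t ∣ a * (ρ + p) + (ρ + p) * q + q * a) : t ∣ ρ * a + rS t ρ p := by
  refine dvd_of_add (y := t * (ρ + rK t ρ p) + a * t) ?_
    ((dvd_mul_right _ _).add (dvd_mul_left _ _)) hq
  have := mu_eq ht hr
  have : a * t = a * p + q * a := by rw [← ht]; ring
  have : a * (ρ + p) = ρ * a + a * p := by ring
  omega

lemma dvd_of_mod {t N x y z : ℕ} (h : N % t = x % t) (e : x + y = t * z) : t ∣ N + y % t := by
  rw [Nat.dvd_iff_mod_eq_zero, Nat.add_mod, h, Nat.mod_mod, ← Nat.add_mod, e, Nat.mul_mod_right]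

def IOK (t a ρ p q β η e s N : ℕ) : Prop :=
  IRow t a (if β = 0 then q else p) η s (e * t / ρ) ∧
  (e * t % ρ = 0 ∨ IRow t a (if β = 0 then q else p) η s (e * t / ρ + 1)) ∧
  e * t % ρ * Ilo t a s (e * t / ρ + 1) + (ρ - e * t % ρ) * Ilo t a s (e * t / ρ) ≤ N ∧
  N ≤ e * t % ρ * Ihi a (if β = 0 then q else p) η s (e * t / ρ + 1) +
    (ρ - e * t % ρ) * Ihi a (if β = 0 then q else p) η s (e * t / ρ) ∧
  N % t = (t - ρ - p) * q % t ∧ (1 + β) * cdv (rS t ρ p) p ≤ q ∧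
  (ρ * a + rS t ρ p) / t + ρ + cdv (rS t ρ p) p + max 2 s ≤ a + t

lemma good_of_IOK {t a ρ p q β η e s N : ℕ} (ht : p + q = t) (hp : 0 < p) (hρ : 0 < ρ)
    (hr : ρ + p < t) (hβ : β ≤ 1) (hη : η ≤ 1) (hq : t ∣ a * (ρ + p) + (ρ + p) * q + q * a)
    (h : IOK t a ρ p q β η e s N) (j : ℕ) : Good t ![a + t + j * t, ρ + p, q] := by
  obtain ⟨h1, h2, h3, h4, h5, h6, h7⟩ := h
  have e1 := Nat.div_add_mod (e * t) ρ
  have e2 := Nat.mod_lt (e * t) hρ
  have e3 := rK_le hp hr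
  generalize e * t / ρ = V at *
  generalize e * t % ρ = r at *
  generalize hc : (if β = 0 then q else p) = c at *
  have hv : ∀ i : Fin ρ, IRow t a c η s (if i.val < r then V + 1 else V) := fun i => by
    split_ifs with h
    · exact h2.resolve_left (by omega)
    · exact h1
  obtain ⟨A, x1, x2⟩ := exists_between (fun i : Fin ρ => Ilo t a s (if i.val < r then V + 1 else V))
    (fun i => Ihi a c η s (if i.val < r then V + 1 else V)) (fun i => (hv i).2.2.2.2) N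
    (by simpa only [apply_ite (Ilo t a s), sum_two _ _ e2.le] using h3)
    (by simpa only [apply_ite (Ihi a c η s), sum_two _ _ e2.le] using h4)
  refine fam_I (e := e) (s := s) (μ := ρ + rK t ρ p) (α := (ρ * a + rS t ρ p) / t + ρ)
    (L := cdv (rS t ρ p) p) ht hp hβ hη (fun i => if i.val < r then V + 1 else V) A (fun h => bal (rS t ρ p) p h) ?_ (fun i => ?_)
    (fun h => bal_le _ _ _) h6 ?_ ?_ ?_ (by omega) (by omega) h7 (by omega) j
  · obtain ⟨d, rfl⟩ := Nat.exists_eq_add_of_le e2.le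
    rw [sum_two _ _ e2.le, ← e1, Nat.add_sub_cancel_left]
    ring
  · obtain ⟨a1, a2, a3, a4, -⟩ := hv i
    have := x1 i
    simp only [Ilo, Ihi, hc] at this ⊢
    generalize (if i.val < r then V + 1 else V) = v at *
    rw [add_mul, one_mul] at a3 this
    exact ⟨c - η * v, v - A i - (c - η * v), a + 2 * v - s * v - A i,
      t - 2 * v - (a + 2 * v - s * v - A i), by omega, by omega, by omega, by omega⟩
  · rw [x2, sum_bal _ hp]
    exact dvd_of_mod (z := t - ρ - p) h5 (by rw [← mul_add, add_comm q, ht, mul_comm])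
  · rw [sum_bal _ hp, mu_eq ht hr]
  · rw [sum_bal _ hp, mul_add, Nat.mul_div_cancel' (alpha_dvd ht hr hq)]
    ring

lemma fam_II {t a ρ p q κ μ α L : ℕ} (ht : p + q = t) (l g o' : Fin p → ℕ) (o : Fin ρ → ℕ)
    (h0 : ∀ r, o r ≤ a ∧ o r ≤ q ∧ a + q ≤ t + o r)
    (h1 : ∀ h, l h ≤ L ∧ o' h ≤ l h ∧ o' h ≤ g h ∧ l h + g h ≤ κ + o' h ∧ l h + g h ≤ q ∧
      κ + q + 1 ≤ t + l h + g h)
    (hN : t ∣ ∑ r, o r + ∑ h, o' h) (hG : t ∣ ρ * q + ∑ h, g h)
    (hμ : t * μ + ∑ h, l h = (ρ + p) * q) (hα : t * α = ρ * (a + t) + t * κ + ∑ h, l h)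
    (i1 : μ + L + κ ≤ q) (i2 : μ + 1 + κ ≤ q) (i3 : α + κ + L + 2 ≤ a + t)
    (i4 : α + κ + L + 4 ≤ a + t + ρ) (i5 : ρ + 2 * κ + 1 ≤ t) (i6 : 2 * κ + 2 ≤ t) (j : ℕ) :
    Good t ![a + t + j * t, ρ + p, q] := by
  have r0 : ∀ r, ∃ x y z, o r + x = a ∧ o r + y = q ∧ o r + x + y + z = t := fun r => by
    obtain ⟨a1, a2, a3⟩ := h0 r
    exact ⟨a - o r, q - o r, t + o r - a - q, by omega, by omega, by omega⟩
  have r1 : ∀ h, ∃ x y z u n, o' h + x = l h ∧ o' h + y = g h ∧ o' h + x + y + z = κ ∧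
      l h + g h + u = q ∧ κ + u + n + 1 = t := fun h => by
    obtain ⟨-, a1, a2, a3, a4, a5⟩ := h1 h
    exact ⟨l h - o' h, g h - o' h, κ + o' h - l h - g h, q - l h - g h,
      t + l h + g h - κ - q - 1, by omega, by omega, by omega, by omega, by omega⟩
  choose x y z b1 b2 b3 using r0
  choose x' y' z' u n c1 c2 c3 c4 c5 using r1
  have s1 := sum_congr (s₁ := univ) rfl fun r _ => b1 r
  have s2 := sum_congr (s₁ := univ) rfl fun r _ => b2 r
  have s3 := sum_congr (s₁ := univ) rfl fun r _ => b3 r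
  have s4 : ∑ h, (o' h + x' h) = ∑ h, l h := sum_congr rfl fun r _ => c1 r
  have s5 : ∑ h, (o' h + y' h) = ∑ h, g h := sum_congr rfl fun r _ => c2 r
  have s6 := sum_congr (s₁ := univ) rfl fun r _ => c3 r
  have s7 := sum_congr (s₁ := univ) rfl fun r _ => c4 r
  simp only [sum_add_distrib, sum_const, card_univ, Fintype.card_fin,
    smul_eq_mul] at s1 s2 s3 s4 s5 s6 s7
  have d1 : t ∣ ∑ r, x r + ∑ h, x' h :=
    dvd_of_add (y := ∑ r, o r + ∑ h, o' h + (ρ * t + t * κ)) (z := t * α)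
      (by rw [hα, mul_add]; omega) (hN.add ((dvd_mul_left _ _).add (dvd_mul_right _ _)))
      (dvd_mul_right _ _)
  have d2 : t ∣ ∑ r, y r + ∑ h, y' h := dvd_of_add (by omega) hN hG
  refine good_of_rowsOK (n := 5) (x := ![0, 0, 1, 2, 1, 2]) (w := ![0, 0, 1, 1, 1, 1])
    (m := ![0, 1, 0, 0, 1, 1]) (g := fun _ : Fin κ => 2)
    (M0 := fun r => ![0, 0, z r, x r, y r, o r])
    (M1 := fun h => ![n h, u h, z' h, x' h, y' h, o' h]) (l := l) (μ := μ) (α := α) (L := L)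
    (yc := 2) (yl := 2) (ym := 1) (wc := 1) (wl := 1) (wm := 1)
    ⟨ht, rfl, rfl, rfl, fun d => by simp, fun r => ?_, fun h => ?_, fun σ hσ => ?_, hμ,
      by simpa using hα, i1, i2, by simp; omega, by simp; omega, by simp; omega,
      by simp; omega⟩ j
  · have a1 := b1 r
    have a2 := b2 r
    have a3 := b3 r
    simp only [sum_six, Matrix.cons_val]
    refine ⟨by omega, by omega, by omega, by omega, fun σ => ?_⟩
    fin_cases σ <;> simp
  · have a1 := c1 h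
    have a2 := c2 h
    have a3 := c3 h
    have a4 := c4 h
    have a5 := c5 h
    simp only [sum_six, Matrix.cons_val, sum_const, card_univ, Fintype.card_fin,
      smul_eq_mul]
    refine ⟨by omega, by omega, by omega, by omega, (h1 h).1, fun σ => ?_⟩
    fin_cases σ <;> simp
  · fin_cases σ <;> simp [Fin.ext_iff]
    · exact absurd rfl hσ
    · exact dvd_of_add (y := ρ * q + ∑ h, g h) (z := t * μ) (by
        rw [add_mul] at hμ
        omega) hG (dvd_mul_right _ _)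
    · refine dvd_of_add (y := ∑ r, x r + ∑ h, x' h + (∑ r, y r + ∑ h, y' h) +
        (∑ r, o r + ∑ h, o' h)) (z := ρ * t + κ * t) ?_ ((d1.add d2).add hN)
        ((dvd_mul_left _ _).add (dvd_mul_left _ _))
      have : κ * t = p * κ + κ * q := by rw [← ht]; ring
      omega
    · exact d1
    · exact d2
    · exact hN

/-- Common side conditions of the second family. -/
def IIS (t a ρ p k G κ : ℕ) : Prop :=
  G % t = ρ * p % t ∧ rK t ρ p + cdv (rS t ρ p + k * t) p + κ ≤ t - ρ - p + k ∧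
  rK t ρ p + 1 + κ ≤ t - ρ - p + k ∧
  (ρ * a + (rS t ρ p + k * t)) / t + ρ + 2 * κ + cdv (rS t ρ p + k * t) p + 2 ≤ a + t ∧
  (ρ * a + (rS t ρ p + k * t)) / t + 2 * κ + cdv (rS t ρ p + k * t) p + 4 ≤ a + t ∧
  ρ + 2 * κ + 1 ≤ t

lemma good_of_IIS {t a ρ p q k G κ : ℕ} (ht : p + q = t) (hp : 0 < p) (hρ : 0 < ρ)
    (hr : ρ + p < t) (hk : k ≤ 1) (hq : t ∣ a * (ρ + p) + (ρ + p) * q + q * a)
    (h : IIS t a ρ p k G κ) (o' : Fin p → ℕ) (o : Fin ρ → ℕ)
    (h0 : ∀ r, o r ≤ a ∧ o r ≤ q ∧ a + q ≤ t + o r)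
    (h1 : ∀ h : Fin p, o' h ≤ bal (rS t ρ p + k * t) p h ∧ o' h ≤ bal G p h ∧
      bal (rS t ρ p + k * t) p h + bal G p h ≤ κ + o' h ∧
      κ + q + 1 ≤ t + bal (rS t ρ p + k * t) p h + bal G p h)
    (hN : t ∣ ρ * a + (rS t ρ p + k * t) → t ∣ ρ * q + G → t ∣ ∑ r, o r + ∑ h, o' h) (j : ℕ) :
    Good t ![a + t + j * t, ρ + p, q] := by
  obtain ⟨a1, a2, a3, a4, a5, a6⟩ := h
  have d1 : t ∣ ρ * a + (rS t ρ p + k * t) := by
    rw [← add_assoc]
    exact (alpha_dvd ht hr hq).add (dvd_mul_left _ _)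
  have d2 : t ∣ ρ * q + G := by
    rw [Nat.dvd_iff_mod_eq_zero, Nat.add_mod, a1, ← Nat.add_mod, ← mul_add, add_comm q, ht,
      Nat.mul_mod_left]
  refine fam_II (μ := ρ + rK t ρ p - k) (α := (ρ * a + (rS t ρ p + k * t)) / t + ρ + κ)
    (L := cdv (rS t ρ p + k * t) p) (κ := κ) ht (fun h => bal (rS t ρ p + k * t) p h)
    (fun h => bal G p h) o' o h0 (fun h => ?_) (hN d1 d2) (by rwa [sum_bal _ hp]) ?_ ?_ (by omega)
    (by omega) (by omega) (by omega) a6 (by omega) j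
  · obtain ⟨b1, b2, b3, b4⟩ := h1 h
    have b5 : _ ≤ cdv _ _ := bal_le (rS t ρ p + k * t) p h
    exact ⟨b5, b1, b2, b3, by omega, b4⟩
  · rw [sum_bal _ hp, ← mu_eq ht hr]
    obtain ⟨d, hd⟩ := Nat.exists_eq_add_of_le (show k ≤ ρ + rK t ρ p by omega)
    rw [hd, Nat.add_sub_cancel_left]
    ring
  · rw [sum_bal _ hp, mul_add, mul_add, Nat.mul_div_cancel' d1]
    ring

def IIOK (t a ρ p q k G κ N : ℕ) : Prop :=
  IIS t a ρ p k G κ ∧
  (∀ h : Fin p, bal (rS t ρ p + k * t) p h ≤ κ ∧ bal G p h ≤ κ ∧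
    κ + q + 1 ≤ t + bal (rS t ρ p + k * t) p h + bal G p h) ∧
  ρ * (a + q - t) + ∑ h : Fin p, (bal (rS t ρ p + k * t) p h + bal G p h - κ) ≤ N ∧
  N ≤ ρ * min a q + ∑ h : Fin p, min (bal (rS t ρ p + k * t) p h) (bal G p h) ∧ N % t = 0

lemma good_of_IIOK {t a ρ p q k G κ N : ℕ} (ht : p + q = t) (hp : 0 < p) (hρ : 0 < ρ)
    (hr : ρ + p < t) (hk : k ≤ 1) (ha : a < t) (hq : t ∣ a * (ρ + p) + (ρ + p) * q + q * a)
    (h : IIOK t a ρ p q k G κ N) (j : ℕ) : Good t ![a + t + j * t, ρ + p, q] := by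
  obtain ⟨h1, h2, h3, h4, h5⟩ := h
  obtain ⟨o, x1, x2⟩ := exists_between (B := Fin ρ ⊕ Fin p)
    (Sum.elim (fun _ => a + q - t) fun h => bal (rS t ρ p + k * t) p h + bal G p h - κ)
    (Sum.elim (fun _ => min a q) fun h => min (bal (rS t ρ p + k * t) p h) (bal G p h))
    (by
      rintro (v | v)
      · simp only [Sum.elim_inl]
        omega
      · have := h2 v
        simp only [Sum.elim_inr]
        omega) N (by simpa using h3) (by simpa using h4)
  refine good_of_IIS ht hp hρ hr hk hq h1 (fun h => o (.inr h)) (fun r => o (.inl r))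
    (fun r => ?_) (fun h => ?_) (fun _ _ => ?_) j
  · have := x1 (.inl r)
    simp only [Sum.elim_inl] at this
    omega
  · have := x1 (.inr h)
    have := h2 h
    simp only [Sum.elim_inr] at *
    omega
  · rw [← Fintype.sum_sum_type, x2]
    exact Nat.dvd_of_mod_eq_zero h5

lemma bal_ge (N : ℕ) {n : ℕ} (hn : 0 < n) (h : ℕ) : cdv N n ≤ bal N n h + 1 := by
  rw [bal, ← Nat.add_div_right _ hn]
  exact Nat.div_le_div_right (by omega)

lemma good_nest {t a ρ p q k G : ℕ} (ht : p + q = t) (hp : 2 ≤ p) (hρ : 0 < ρ)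
    (hr : ρ + p < t) (hk : k ≤ 1) (hq : t ∣ a * (ρ + p) + (ρ + p) * q + q * a)
    (h : a ≤ q ∧ rS t ρ p + k * t ≤ G ∧ IIS t a ρ p k G (cdv G p) ∨
      q ≤ a ∧ a ≤ t ∧ G ≤ rS t ρ p + k * t ∧ IIS t a ρ p k G (cdv (rS t ρ p + k * t) p)) (j : ℕ) :
    Good t ![a + t + j * t, ρ + p, q] := by
  have hp0 : 0 < p := by omega
  rcases h with ⟨h1, h2, h3⟩ | ⟨h1, h2, h3, h4⟩
  · refine good_of_IIS ht hp0 hρ hr hk hq h3 (fun h => bal (rS t ρ p + k * t) p h) (fun _ => a)
      (fun r => by omega) (fun h => ?_) (fun d _ => by simpa [sum_bal _ hp0] using d) j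
    have b1 := bal_mono h2 p h
    have b2 : _ ≤ cdv _ _ := bal_le G p h
    have b3 := bal_ge G hp0 h
    omega
  · refine good_of_IIS ht hp0 hρ hr hk hq h4 (fun h => bal G p h) (fun _ => q)
      (fun r => by omega) (fun h => ?_) (fun _ d => by simpa [sum_bal _ hp0] using d) j
    have b1 := bal_mono h3 p h
    have b2 : _ ≤ cdv _ _ := bal_le (rS t ρ p + k * t) p h
    have b3 := bal_ge (rS t ρ p + k * t) hp0 h
    omega

end Pool.Agent.Lib.MP_351560_co.R2
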