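import Mathlib
import Pool.Agent.Lib.MP_351560_co.FamR2

set_option autoImplicit false
set_option linter.unusedSimpArgs false
set_option linter.unusedVariables false
set_option linter.unusedSectionVars false

namespace Pool.Agent.Lib.MP_351560_co.R2

open Finset

lemma rS_lt {t : ℕ} (ρ p : ℕ) (ht : 0 < t) : rS t ρ p < t := Nat.mod_lt _ ht

lemma m_le {t a ρ S k : ℕ} (hρ : ρ < t) (hS : S < t + k * t) : (ρ * a + S) / t ≤ a + k :=
  Nat.le_of_lt_succ ((Nat.div_lt_iff_lt_mul (by omega)).2 (by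
    have := Nat.mul_le_mul_right a hρ.le
    rw [Nat.succ_mul, add_mul, mul_comm a]
    omega))

lemma m_le' {t a ρ S k : ℕ} (ha : a < t) (hS : S < t + k * t) : (ρ * a + S) / t ≤ ρ + k :=
  Nat.le_of_lt_succ ((Nat.div_lt_iff_lt_mul (by omega)).2 (by
    have := Nat.mul_le_mul_left ρ ha.le
    rw [Nat.succ_mul, add_mul]
    omega))

lemma ladderI {t a c η V A : ℕ} (hη : η ≤ 1) (ha : a < t) (h1 : c + A ≤ (1 + η) * V)
    (h2 : η * (V + 1) ≤ c) (h3 : 3 * V + 2 + A ≤ t) :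
    ∃ s ≤ 4, (2 < s → t < a + 2 * V + 2) ∧ ∀ v, V ≤ v → v ≤ V + 1 →
      IRow t a c η s v ∧ Ilo t a s v = 0 ∧ A ≤ Ihi a c η s v := by
  unfold IRow Ilo Ihi
  rcases (show η = 0 ∨ η = 1 by omega) with rfl | rfl
  all_goals
    by_cases c1 : a < A
    · exact ⟨1, by omega, by omega, fun v _ _ => by omega⟩
    by_cases c2 : a + 2 * V + 2 ≤ t
    · exact ⟨2, by omega, by omega, fun v _ _ => by omega⟩
    by_cases c3 : a + V + 1 ≤ t
    · exact ⟨3, by omega, by omega, fun v _ _ => by omega⟩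
    · exact ⟨4, by omega, by omega, fun v _ _ => by omega⟩

/-- Conditions for the first family which do not depend on the large part. -/
def UI (t ρ p q β η e A : ℕ) : Prop :=
  (t - ρ - p) * q % t ≤ ρ * A ∧ (if β = 0 then q else p) + A ≤ (1 + η) * (e * t / ρ) ∧
  η * (e * t / ρ + 1) ≤ (if β = 0 then q else p) ∧ 3 * (e * t / ρ) + 2 + A ≤ t ∧
  (1 + β) * cdv (rS t ρ p) p ≤ q

lemma good_UI {t a ρ p q β η e A : ℕ} (ht : p + q = t) (hp : 0 < p) (hρ : 0 < ρ)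
    (hr : ρ + p < t) (hβ : β ≤ 1) (hη : η ≤ 1) (ha : a < t)
    (hq : t ∣ a * (ρ + p) + (ρ + p) * q + q * a) (h : UI t ρ p q β η e A)
    (s1 : (ρ * a + rS t ρ p) / t + ρ + cdv (rS t ρ p) p + 2 ≤ a + t)
    (s2 : t < a + 2 * (e * t / ρ) + 2 →
      (ρ * a + rS t ρ p) / t + ρ + cdv (rS t ρ p) p + 4 ≤ a + t) (j : ℕ) :
    Good t ![a + t + j * t, ρ + p, q] := by
  obtain ⟨h1, h2, h3, h4, h5⟩ := h
  obtain ⟨s, k1, k2, k3⟩ := ladderI hη ha h2 h3 h4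
  obtain ⟨a1, a2, a3⟩ := k3 _ le_rfl (Nat.le_succ _)
  obtain ⟨b1, b2, b3⟩ := k3 _ (Nat.le_succ _) le_rfl
  refine good_of_IOK (e := e) (s := s) (N := (t - ρ - p) * q % t) ht hp hρ hr hβ hη hq
    ⟨a1, .inr b1, by simp [a2, b2], ?_, Nat.mod_mod _ _, h5, by omega⟩ j
  refine h1.trans (le_trans ?_ (Nat.add_le_add (Nat.mul_le_mul_left _ b3)
    (Nat.mul_le_mul_left _ a3)))
  rw [← add_mul, Nat.add_sub_cancel' (Nat.mod_lt _ hρ).le]

lemma good_UI' {t a ρ p q β η e A : ℕ} (ht : p + q = t) (hp : 0 < p) (hρ : 0 < ρ)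
    (hr : ρ + p < t) (hβ : β ≤ 1) (hη : η ≤ 1) (ha : a < t)
    (hq : t ∣ a * (ρ + p) + (ρ + p) * q + q * a) (h : UI t ρ p q β η e A)
    (s1 : ρ + cdv (rS t ρ p) p + 4 ≤ t) (j : ℕ) : Good t ![a + t + j * t, ρ + p, q] := by
  have := m_le (a := a) (k := 0) (show ρ < t by omega) (by simpa using rS_lt ρ p (by omega))
  exact good_UI ht hp hρ hr hβ hη ha hq h (by omega) (fun _ => by omega) j

def uG (t ρ p : ℕ) : ℕ := if rS t ρ p ≤ ρ * p % t then ρ * p % t else ρ * p % t + t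

def uk (t ρ p : ℕ) : ℕ := if ρ * p % t ≤ rS t ρ p then 0 else 1

/-- Conditions for the second family which do not depend on the large part. -/
def UII (t ρ p : ℕ) : Prop :=
  2 ≤ p ∧ rK t ρ p + cdv (rS t ρ p) p + cdv (uG t ρ p) p ≤ t - ρ - p ∧
  rK t ρ p + 1 + cdv (uG t ρ p) p ≤ t - ρ - p ∧
  ρ + 2 * cdv (uG t ρ p) p + cdv (rS t ρ p) p + 2 ≤ t ∧
  2 * cdv (uG t ρ p) p + cdv (rS t ρ p) p + 4 ≤ t ∧
  rK t ρ p + 2 * cdv (rS t ρ p + uk t ρ p * t) p ≤ t - ρ - p + uk t ρ p ∧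
  rK t ρ p + 1 + cdv (rS t ρ p + uk t ρ p * t) p ≤ t - ρ - p + uk t ρ p ∧
  ρ + 2 * cdv (rS t ρ p + uk t ρ p * t) p + 1 ≤ t ∧
  2 * ρ + 3 * cdv (rS t ρ p + uk t ρ p * t) p + 4 + p ≤ 2 * t

lemma uG_spec {t : ℕ} (ρ p : ℕ) (ht : 0 < t) : uG t ρ p % t = ρ * p % t ∧ rS t ρ p ≤ uG t ρ p ∧
    uG t ρ p ≤ ρ * p + t ∧ uG t ρ p < 2 * t := by
  have h1 := rS_lt ρ p ht
  have h2 := Nat.mod_lt (ρ * p) ht
  have h3 := Nat.mod_le (ρ * p) t
  unfold uG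
  split_ifs
  · exact ⟨Nat.mod_mod _ _, by omega⟩
  · exact ⟨by simp, by omega⟩

lemma uk_spec {t : ℕ} (ρ p : ℕ) (ht : 0 < t) : uk t ρ p ≤ 1 ∧
    ρ * p % t ≤ rS t ρ p + uk t ρ p * t ∧ rS t ρ p + uk t ρ p * t ≤ ρ * p + t ∧
    rS t ρ p + uk t ρ p * t < 2 * t := by
  have h1 := rS_lt ρ p ht
  have h2 := Nat.mod_lt (ρ * p) ht
  have h3 := Nat.mod_le (ρ * p) t
  unfold uk
  split_ifs <;> omega

lemma good_UII {t a ρ p q : ℕ} (ht : p + q = t) (hρ : 0 < ρ) (hr : ρ + p < t) (ha : a < t)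
    (hq : t ∣ a * (ρ + p) + (ρ + p) * q + q * a) (h : UII t ρ p) (j : ℕ) :
    Good t ![a + t + j * t, ρ + p, q] := by
  obtain ⟨h1, h2, h3, h4, h5, h6, h7, h8, h9⟩ := h
  obtain ⟨g1, g2, -, -⟩ := uG_spec ρ p (show 0 < t by omega)
  obtain ⟨k1, k2, -, k3⟩ := uk_spec ρ p (show 0 < t by omega)
  rcases le_or_gt a q with h | h
  · have := m_le (a := a) (k := 0) (show ρ < t by omega) (by simpa using rS_lt ρ p (by omega))
    refine good_nest (k := 0) (G := uG t ρ p) ht h1 hρ hr zero_le_one hq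
      (.inl ⟨h, by simpa using g2, ?_⟩) j
    simp only [IIS, zero_mul, add_zero]
    omega
  · have := m_le' (ρ := ρ) (k := 1) ha (show rS t ρ p + uk t ρ p * t < t + 1 * t by omega)
    exact good_nest (G := ρ * p % t) ht h1 hρ hr k1 hq
      (.inr ⟨h.le, ha.le, k2, Nat.mod_mod _ _, by omega⟩) j

lemma exists_e {t ρ : ℕ} (W : ℕ) (ht : 0 < t) (hρ : 0 < ρ) :
    ∃ e, W ≤ e * t / ρ ∧ e * t / ρ ≤ W + t / ρ := by
  have e1 := Nat.div_add_mod (ρ * W + t - 1) t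
  have e2 := Nat.mod_lt (ρ * W + t - 1) ht
  refine ⟨(ρ * W + t - 1) / t, (Nat.le_div_iff_mul_le hρ).2 ?_, ?_⟩
  · rw [mul_comm W, mul_comm _ t]
    omega
  · rw [← Nat.mul_add_div hρ]
    refine Nat.div_le_div_right ?_
    rw [mul_comm _ t]
    omega

lemma UI_big {t ρ x y : ℕ} (ht : t = ρ + x + y) (hρ : 0 < ρ) (hx : 0 < x) (hxy : x ≤ y)
    (h : 22 * (t / ρ) + 24 ≤ t) :
    ∃ β ≤ 1, ∃ η ≤ 1, ∃ e A, UI t ρ y (ρ + x) β η e A := by
  have h1 := (rK_le (t := t) (ρ := ρ) (p := y) (by omega) (by omega)).1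
  have h2 : (t - ρ - y) * (ρ + x) % t ≤ ρ * (t / ρ + 1) := by
    have := Nat.mod_lt ((t - ρ - y) * (ρ + x)) (show 0 < t by omega)
    have := Nat.lt_mul_div_succ t hρ
    omega
  have key : ∀ c, 2 * c ≤ t → ∃ η ≤ 1, ∃ e, c + (t / ρ + 1) ≤ (1 + η) * (e * t / ρ) ∧
      η * (e * t / ρ + 1) ≤ c ∧ 3 * (e * t / ρ) + 2 + (t / ρ + 1) ≤ t := by
    intro c hc
    by_cases h3 : 3 * (t / ρ) + 4 ≤ c
    · obtain ⟨e, e1, e2⟩ := exists_e ((c + t / ρ + 2) / 2) (show 0 < t by omega) hρ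
      exact ⟨1, le_rfl, e, by omega, by omega, by omega⟩
    · obtain ⟨e, e1, e2⟩ := exists_e (c + t / ρ + 1) (show 0 < t by omega) hρ
      exact ⟨0, zero_le_one, e, by omega, by omega, by omega⟩
  by_cases h3 : ρ + x ≤ y
  · obtain ⟨η, k1, e, k2, k3, k4⟩ := key (ρ + x) (by omega)
    exact ⟨0, zero_le_one, η, k1, e, _, h2, k2, k3, k4, by omega⟩
  · obtain ⟨η, k1, e, k2, k3, k4⟩ := key y (by omega)
    refine ⟨1, le_rfl, η, k1, e, _, h2, k2, k3, k4, ?_⟩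
    by_cases h4 : x ≤ ρ
    · omega
    · have h5 := rS_lt ρ y (show 0 < t by omega)
      have : cdv (rS t ρ y) y ≤ 4 := cdv_le (by omega) (by omega)
      omega

lemma UI_mid {t ρ x y : ℕ} (ht : t = ρ + x + y) (h1 : 4 ≤ ρ) (h2 : ρ ≤ 26) (hx : 0 < x)
    (h3 : x ≤ 6) (h4 : 150 ≤ t) : UI t ρ y (ρ + x) 0 0 (3 * ρ / 10) (7 + 35 / ρ) := by
  have a0 := (rK_le (t := t) (ρ := ρ) (p := y) (by omega) (by omega)).1
  have a1 : cdv (rS t ρ y) y ≤ x := by omega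
  have a2 := Nat.mod_le ((t - ρ - y) * (ρ + x)) t
  have a3 := Nat.mul_le_mul (show t - ρ - y ≤ 6 by omega) (show ρ + x ≤ ρ + 6 by omega)
  unfold UI
  simp only [if_true]
  generalize (t - ρ - y) * (ρ + x) % t = X at *
  generalize (t - ρ - y) * (ρ + x) = Y at *
  clear ht a0
  interval_cases ρ <;> omega

lemma UII_big {t ρ x y : ℕ} (ht : t = ρ + x + y) (hρ : 0 < ρ) (hxy : x ≤ y) (h1 : 150 ≤ t)
    (h : ρ ≤ 26 ∧ 7 ≤ x ∨ ρ ≤ 3 ∧ 4 ≤ x) : UII t ρ x := by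
  have hx : 0 < x := by omega
  obtain ⟨-, -, g1, g2⟩ := uG_spec ρ x (show 0 < t by omega)
  obtain ⟨-, -, k1, k2⟩ := uk_spec ρ x (show 0 < t by omega)
  have s1 := rS_lt ρ x (show 0 < t by omega)
  have e1 := Nat.lt_mul_div_succ t hx
  have e2 := Nat.mul_div_le t x
  have e3 : rK t ρ x * t ≤ y * x := by
    rw [rK, show t - ρ - x = y by omega]
    exact Nat.div_mul_le_self _ _
  have e4 : rK t ρ x < x := by
    by_contra h'
    have := Nat.mul_le_mul_right t (not_lt.1 h')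
    have := Nat.mul_lt_mul_of_pos_right (show y < t by omega) hx
    rw [mul_comm x] at *
    omega
  have e5 : 2 * rK t ρ x ≤ y := by
    by_contra h'
    have := Nat.mul_le_mul (show y + 1 ≤ 2 * rK t ρ x by omega) (show 2 * x ≤ t by omega)
    nlinarith
  generalize t / x = u at *
  rw [mul_add, mul_one] at e1
  have b1 : cdv (rS t ρ x) x ≤ u + 1 := cdv_le hx (by rw [mul_add]; omega)
  have b2 : ∀ N, N ≤ ρ * x + t → cdv N x ≤ ρ + u + 1 := fun N hN =>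
    cdv_le hx (by rw [mul_add, mul_add, mul_comm x ρ]; omega)
  have b3 : ∀ N, N < 2 * t → cdv N x ≤ 2 * u + 2 := fun N hN =>
    cdv_le hx (by rw [mul_add, mul_left_comm]; omega)
  have c1 := b2 _ g1
  have c2 := b2 _ k1
  have c3 := b3 _ g2
  have c4 := b3 _ k2
  unfold UII
  by_cases d1 : 31 ≤ x
  · have := Nat.mul_le_mul_right u d1
    omega
  by_cases d2 : 13 ≤ x
  · have := Nat.mul_le_mul_right u d2
    omega
  by_cases d3 : 7 ≤ x
  · have := Nat.mul_le_mul_right u d3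
    omega
  · have := Nat.mul_le_mul_right u (show 4 ≤ x by omega)
    omega

end Pool.Agent.Lib.MP_351560_co.R2
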