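import Mathlib
import Pool.Agent.Lib.MP_351560_co.R2U
import Pool.Agent.Lib.MP_351560_co.FatIV
import Pool.Agent.Lib.MP_351560_co.Main

set_option autoImplicit false
set_option linter.unusedSimpArgs false
set_option linter.unusedVariables false
set_option linter.unusedSectionVars false

namespace Pool.Agent.Lib.MP_351560_co.R2

open Finset

lemma thin_eq {t a ρ x y : ℕ} (ht : t = ρ + x + y) (hρ : 0 < ρ) (ha : a < t)
    (hq : t ∣ a * (ρ + y) + (ρ + y) * (ρ + x) + (ρ + x) * a) (h : x * (ρ + x) < t) :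
    ∃ m < ρ, ρ * a = x * (ρ + x) + t * m := by
  have d1 : t ∣ ρ * a + (ρ + y) * (ρ + x) :=
    dvd_of_add (y := a * t) (by rw [ht]; ring) (dvd_mul_left _ _) hq
  have d2 : t ∣ x * (ρ + x) + (ρ + y) * (ρ + x) := ⟨ρ + x, by rw [ht]; ring⟩
  have e : ρ * a % t = x * (ρ + x) % t := Nat.ModEq.add_right_cancel' _
    ((Nat.modEq_zero_iff_dvd.2 d1).trans (Nat.modEq_zero_iff_dvd.2 d2).symm)
  have e1 := Nat.div_add_mod (ρ * a) t
  rw [e, Nat.mod_eq_of_lt h] at e1
  exact ⟨ρ * a / t, (Nat.div_lt_iff_lt_mul (by omega)).2 (Nat.mul_lt_mul_of_pos_left ha hρ),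
    by omega⟩

/-- The four thin families. -/
def IVc (t ρ x : ℕ) : Prop :=
  14 ≤ t ∧ (ρ = 1 ∧ x ≤ 2 ∨ ρ = 2 ∧ t % 2 = 1 ∧ x ≤ 2)

lemma good_IVc {t a ρ x y : ℕ} (ht : t = ρ + x + y) (hx : 0 < x) (ha : a < t)
    (hq : t ∣ a * (ρ + y) + (ρ + y) * (ρ + x) + (ρ + x) * a) (h : IVc t ρ x) (j : ℕ) :
    Good t ![a + t + j * t, ρ + y, ρ + x] := by
  obtain ⟨h1, ⟨rfl, h2⟩ | ⟨rfl, h2, h3⟩⟩ := h <;>
    rcases (show x = 1 ∨ x = 2 by omega) with rfl | rfl <;>
    obtain ⟨m, m1, m2⟩ := thin_eq ht (by omega) ha hq (by omega) <;> interval_cases m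
  · rw [show a = 2 by omega, show 1 + y = t - 1 by omega]
    exact good_iv12 h1 j
  · rw [show a = 6 by omega, show 1 + y = t - 2 by omega]
    exact good_iv23 h1 j
  · omega
  · obtain ⟨n, rfl⟩ : ∃ n, a = n + 6 := ⟨a - 6, by omega⟩
    rw [show 2 + y = 2 * n + 8 by omega, show t = 2 * n + 9 by omega]
    exact good_iv13 (by omega) j
  · rw [show a = 4 by omega, show 2 + y = t - 2 by omega]
    exact good_iv24 h1 j
  · omega

lemma good_thinI {t a ρ x y : ℕ} (ht : t = ρ + x + y) (h1 : 150 ≤ t) (hx : 0 < x) (h2 : x ≤ 3)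
    (h3 : ρ = 3 ∨ ρ = 2 ∧ t % 2 = 0) (ha : a < t)
    (hq : t ∣ a * (ρ + y) + (ρ + y) * (ρ + x) + (ρ + x) * a) (j : ℕ) :
    Good t ![a + t + j * t, ρ + y, ρ + x] := by
  obtain ⟨m, m1, m2⟩ := thin_eq ht (by omega) ha hq (by
    have := Nat.mul_le_mul h2 (show ρ + x ≤ 6 by omega)
    omega)
  have a1 := (rK_le (t := t) (ρ := ρ) (p := y) (by omega) (by omega)).1
  have a2 := m_le (a := a) (k := 0) (show ρ < t by omega)
    (by simpa using rS_lt ρ y (show 0 < t by omega))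
  refine good_of_IOK (β := 0) (η := 0) (e := 1) (s := 2 + m) (N := x * (ρ + x)) (by omega)
    (by omega) (by omega) (by omega) zero_le_one zero_le_one hq ?_ j
  have key : IRow t a (ρ + x) 0 (2 + m) (1 * t / ρ) ∧
      (1 * t % ρ = 0 ∨ IRow t a (ρ + x) 0 (2 + m) (1 * t / ρ + 1)) ∧
      1 * t % ρ * Ilo t a (2 + m) (1 * t / ρ + 1) +
        (ρ - 1 * t % ρ) * Ilo t a (2 + m) (1 * t / ρ) ≤ x * (ρ + x) ∧
      x * (ρ + x) ≤ 1 * t % ρ * Ihi a (ρ + x) 0 (2 + m) (1 * t / ρ + 1) +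
        (ρ - 1 * t % ρ) * Ihi a (ρ + x) 0 (2 + m) (1 * t / ρ) := by
    clear a1 a2 hq ht
    unfold IRow Ilo Ihi
    rcases h3 with rfl | ⟨rfl, h3⟩
    · rcases (show 1 * t % 3 = 0 ∨ 1 * t % 3 = 1 ∨ 1 * t % 3 = 2 by omega) with h | h | h <;>
        rw [h] <;> interval_cases x <;> interval_cases m <;> omega
    · rw [show 1 * t % 2 = 0 by omega]
      interval_cases x <;> interval_cases m <;> omega
  exact ⟨key.1, key.2.1, key.2.2.1, key.2.2.2, by rw [show t - ρ - y = x by omega], by omega,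
    by omega⟩

lemma good_thinII {t a ρ y : ℕ} (ht : t = ρ + 3 + y) (h1 : 150 ≤ t)
    (h3 : ρ = 1 ∨ ρ = 2) (ha : a < t)
    (hq : t ∣ a * (ρ + y) + (ρ + y) * (ρ + 3) + (ρ + 3) * a) (j : ℕ) :
    Good t ![a + t + j * t, ρ + y, ρ + 3] := by
  obtain ⟨m, m1, m2⟩ := thin_eq ht (by omega) ha hq (by omega)
  have a1 := rS_lt ρ 3 (show 0 < t by omega)
  have a2 := m_le' (ρ := ρ) (k := 0) ha (show rS t ρ 3 + 0 * t < t + 0 * t by omega)
  have a3 : rK t ρ 3 ≤ 3 := Nat.div_le_of_le_mul (by omega)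
  have a4 : a ≤ ρ + y ∧ 12 ≤ a := by
    rcases h3 with rfl | rfl <;> interval_cases m <;> omega
  refine (good_nest (k := 0) (G := ρ * 3 + t) (p := 3) (by omega) (by omega) (by omega) (by omega)
    zero_le_one (by convert hq using 1; ring)
    (.inl ⟨a4.1, by omega, Nat.add_mod_right _ _, ?_⟩) j).swap12
  unfold cdv
  omega

lemma good_thinA {t a ρ x y : ℕ} (ht : t = ρ + x + y) (h1 : 90 ≤ t) (hx : 0 < x) (hxy : x ≤ y)
    (hy : y ≤ 3) (ha : a < t) (hq : t ∣ a * (ρ + y) + (ρ + y) * (ρ + x) + (ρ + x) * a) (j : ℕ) :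
    Good t ![a + t + j * t, ρ + y, ρ + x] := by
  have a1 := (rK_le (t := t) (ρ := ρ) (p := y) (by omega) (by omega)).1
  have a2 := m_le (a := a) (k := 0) (show ρ < t by omega)
    (by simpa using rS_lt ρ y (show 0 < t by omega))
  have a3 := Nat.mul_div_cancel' (alpha_dvd (by omega) (by omega) hq)
  have a4 : rS t ρ y = x * y := by
    have := Nat.mul_le_mul (hxy.trans hy) hy
    rw [rS, show t - ρ - y = x by omega, Nat.mod_eq_of_lt (by omega)]
  have a5 : (y + 2) * t / ρ = y + 2 :=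
    Nat.div_eq_of_lt_le (Nat.mul_le_mul_left _ (by omega)) (by interval_cases y <;> omega)
  have a6 := Nat.mod_lt ((t - ρ - y) * (ρ + x)) (show 0 < t by omega)
  obtain ⟨d, hd⟩ := Nat.exists_eq_add_of_le a2
  have a7 : (x + y) * a = x * y + t * d := by
    rw [a4] at a3 hd
    generalize (ρ * a + x * y) / t = m at *
    have : t * a = ρ * a + (x + y) * a := by rw [ht]; ring
    have : t * a = t * m + t * d := by rw [← mul_add, ← hd, add_zero]
    omega
  refine good_UI (β := 1) (η := 0) (e := y + 2) (A := 2) (by omega) (by omega) (by omega)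
    (by omega) le_rfl zero_le_one ha hq
    ⟨by omega, by simp [a5], by simp, by omega, by omega⟩ ?_ (fun h => ?_) j
  · rcases d with _ | d
    · interval_cases y <;> interval_cases x <;> omega
    · omega
  · exfalso
    rcases lt_or_ge d (x + y) with h' | h'
    · have := Nat.mul_le_mul_left t (show d + 1 ≤ x + y from h')
      rw [mul_add] at this
      clear ht hq a1 a2 a3 a4 a6 hd
      interval_cases y <;> interval_cases x <;> omega
    · have := Nat.mul_le_mul_left t h'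
      clear ht hq a1 a2 a3 a4 a6 hd
      interval_cases y <;> interval_cases x <;> omega

lemma good_wide {t a ρ x y : ℕ} (ht : t = ρ + x + y) (hρ : 0 < ρ) (hx : 0 < x) (hxy : x ≤ y)
    (hy : 4 ≤ y) (h : 22 * (t / ρ) + 24 ≤ t) (ha : a < t)
    (hq : t ∣ a * (ρ + y) + (ρ + y) * (ρ + x) + (ρ + x) * a) (j : ℕ) :
    Good t ![a + t + j * t, ρ + y, ρ + x] := by
  have a1 := (rK_le (t := t) (ρ := ρ) (p := y) (by omega) (by omega)).1
  obtain ⟨β, hβ, η, hη, e, A, k⟩ := UI_big ht hρ hx hxy h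
  exact good_UI' (by omega) (by omega) hρ (by omega) hβ hη ha hq k (by omega) j

lemma good_r2_large {t a ρ x y : ℕ} (ht : t = ρ + x + y) (h1 : 150 ≤ t) (hρ : 0 < ρ) (hx : 0 < x)
    (hxy : x ≤ y) (ha : a < t) (hq : t ∣ a * (ρ + y) + (ρ + y) * (ρ + x) + (ρ + x) * a) (j : ℕ) :
    Good t ![a + t + j * t, ρ + y, ρ + x] := by
  by_cases c1 : y ≤ 3
  · exact good_thinA ht (by omega) hx hxy c1 ha hq j
  by_cases c2 : 27 ≤ ρ
  · have := Nat.div_le_div_left (a := t) c2 (by omega)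
    exact good_wide ht hρ hx hxy (by omega) (by omega) ha hq j
  by_cases c3 : 7 ≤ x ∨ ρ ≤ 3 ∧ 4 ≤ x
  · exact (good_UII (by omega) hρ (by omega) ha (by convert hq using 1; ring)
      (UII_big ht hρ hxy h1 (by omega)) j).swap12
  by_cases c4 : 4 ≤ ρ
  · have a1 := (rK_le (t := t) (ρ := ρ) (p := y) (by omega) (by omega)).1
    exact good_UI' (by omega) (by omega) hρ (by omega) zero_le_one zero_le_one ha hq
      (UI_mid ht c4 (by omega) hx (by omega) h1) (by omega) j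
  by_cases c5 : ρ = 3 ∨ ρ = 2 ∧ t % 2 = 0
  · exact good_thinI ht h1 hx (by omega) c5 ha hq j
  by_cases c6 : x = 3
  · subst c6
    exact good_thinII ht h1 (by omega) ha hq j
  · exact good_IVc ht hx ha hq ⟨by omega, by omega⟩ j

end Pool.Agent.Lib.MP_351560_co.R2
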