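import Mathlib
import Pool.Agent.Lib.MP_351560_co.R2Thin
import Pool.Agent.Lib.MP_351560_co.R2Rows
import Pool.Agent.Lib.MP_351560_co.R2Cert

set_option autoImplicit false
set_option linter.unusedSimpArgs false
set_option linter.unusedVariables false
set_option linter.unusedSectionVars false

namespace Pool.Agent.Lib.MP_351560_co.R2

open Finset

def frc (n : ℕ) (f : ℕ → Bool) : Bool :=
  match n with
  | 0 => f 0
  | m + 1 => f m.succ

lemma frc_eq (n : ℕ) (f : ℕ → Bool) : frc n f = f n := by cases n <;> rfl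

def allB (n : ℕ) (f : ℕ → Bool) : Bool := Nat.rec true (fun i r => f i && r) n

def anyB (n : ℕ) (f : ℕ → Bool) : Bool := Nat.rec false (fun i r => r || f i) n

lemma allB_spec {n : ℕ} {f : ℕ → Bool} (h : allB n f = true) : ∀ i < n, f i = true := by
  induction n with
  | zero => simp
  | succ n ih =>
    have h' : (f n && allB n f) = true := h
    rw [Bool.and_eq_true] at h'
    intro i hi
    rcases Nat.lt_succ_iff_lt_or_eq.1 hi with h1 | rfl
    · exact ih h'.2 i h1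
    · exact h'.1

lemma anyB_spec {n : ℕ} {f : ℕ → Bool} (h : anyB n f = true) : ∃ i < n, f i = true := by
  induction n with
  | zero => exact absurd h (by simp [anyB])
  | succ n ih =>
    have h' : (anyB n f || f n) = true := h
    rcases Bool.or_eq_true _ _ ▸ h' with h1 | h1
    · obtain ⟨i, hi, h2⟩ := ih h1
      exact ⟨i, by omega, h2⟩
    · exact ⟨n, by omega, h1⟩

def cd (N n : ℕ) : ℕ := ((N.add n).sub 1).div n

def up (t X l : ℕ) : ℕ := l.add (((X.add t).sub (l.mod t)).mod t)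

def lo (t a s v : ℕ) : ℕ := ((a.add (Nat.mul 2 v)).sub (s.mul v)).sub (t.sub (Nat.mul 2 v))

def hi (a c η s v : ℕ) : ℕ :=
  min (((Nat.add 1 η).mul v).sub c) ((a.add (Nat.mul 2 v)).sub (s.mul v))

def rowB (t a c η s v : ℕ) : Bool :=
  (Nat.mul 2 v).ble t && (η.mul v).ble c && c.ble ((Nat.add 1 η).mul v) &&
    (s.mul v).ble (a.add (Nat.mul 2 v)) && (lo t a s v).ble (hi a c η s v)

lemma rowB_spec {t a c η s v : ℕ} (h : rowB t a c η s v = true) : IRow t a c η s v := by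
  simp only [rowB, Bool.and_eq_true, Nat.ble_eq] at h
  exact ⟨h.1.1.1.1, h.1.1.1.2, h.1.1.2, h.1.2, h.2⟩

def ikB (t a ρ c X Z η : ℕ) : Bool :=
  anyB 2 fun i => frc (((cd (ρ.mul c) ((Nat.add 1 η).mul t)).add i).mul t) fun E =>
    frc (E.div ρ) fun V => frc (E.mod ρ) fun r => anyB 4 fun s =>
      rowB t a c η s.succ V && (r.beq 0 || rowB t a c η s.succ V.succ) &&
      (up t X ((r.mul (lo t a s.succ V.succ)).add ((ρ.sub r).mul (lo t a s.succ V)))).ble
        ((r.mul (hi a c η s.succ V.succ)).add ((ρ.sub r).mul (hi a c η s.succ V))) &&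
      (Z.add (max 2 s.succ)).ble (a.add t)

def extI (t a ρ p q : ℕ) : Bool :=
  frc ((((t.sub ρ).sub p).mul q).mod t) fun X => frc ((((t.sub ρ).sub p).mul p).mod t) fun S =>
    frc (cd S p) fun L => frc (((((ρ.mul a).add S).div t).add ρ).add L) fun Z =>
      ikB t a ρ q X Z 0 || ikB t a ρ q X Z 1 ||
        ((Nat.mul 2 L).ble q && (ikB t a ρ p X Z 0 || ikB t a ρ p X Z 1))

lemma up_spec {t X : ℕ} (l : ℕ) (h : X < t) : l ≤ up t X l ∧ up t X l % t = X := by
  refine ⟨Nat.le_add_right _ _, ?_⟩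
  have e1 := Nat.div_add_mod l t
  have e2 := Nat.mod_lt l (show 0 < t by omega)
  show (l + (X + t - l % t) % t) % t = X
  rw [Nat.add_mod_mod, show l + (X + t - l % t) = X + t * (l / t + 1) by rw [mul_add]; omega,
    Nat.add_mul_mod_self_left, Nat.mod_eq_of_lt h]

lemma ikB_spec {t a ρ p q β η : ℕ} (ht : 0 < t) (h1 : (1 + β) * cdv (rS t ρ p) p ≤ q)
    (h : ikB t a ρ (if β = 0 then q else p) ((t - ρ - p) * q % t)
      ((ρ * a + rS t ρ p) / t + ρ + cdv (rS t ρ p) p) η = true) :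
    ∃ e s N, IOK t a ρ p q β η e s N := by
  obtain ⟨i, -, h⟩ := anyB_spec h
  simp only [frc_eq] at h
  obtain ⟨s, -, h⟩ := anyB_spec h
  simp only [Bool.and_eq_true, Bool.or_eq_true, Nat.ble_eq, Nat.beq_eq] at h
  obtain ⟨⟨⟨a1, a2⟩, a3⟩, a4⟩ := h
  exact ⟨_, _, _, rowB_spec a1, a2.imp id rowB_spec, (up_spec _ (Nat.mod_lt _ ht)).1, a3,
    (up_spec _ (Nat.mod_lt _ ht)).2, h1, a4⟩

lemma good_extI {t a ρ p q : ℕ} (ht : p + q = t) (hp : 0 < p) (hρ : 0 < ρ) (hr : ρ + p < t)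
    (hq : t ∣ a * (ρ + p) + (ρ + p) * q + q * a) (h : extI t a ρ p q = true) (j : ℕ) :
    Good t ![a + t + j * t, ρ + p, q] := by
  have a1 := (rK_le hp hr).1
  simp only [extI, frc_eq, Bool.and_eq_true, Bool.or_eq_true, Nat.ble_eq] at h
  rcases h with (h | h) | ⟨h', h | h⟩
  · obtain ⟨e, s, N, k⟩ := ikB_spec (β := 0) (by omega) (by omega) h
    exact good_of_IOK ht hp hρ hr zero_le_one zero_le_one hq k j
  · obtain ⟨e, s, N, k⟩ := ikB_spec (β := 0) (by omega) (by omega) h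
    exact good_of_IOK ht hp hρ hr zero_le_one le_rfl hq k j
  · obtain ⟨e, s, N, k⟩ := ikB_spec (β := 1) (by omega) h' h
    exact good_of_IOK ht hp hρ hr le_rfl zero_le_one hq k j
  · obtain ⟨e, s, N, k⟩ := ikB_spec (β := 1) (by omega) h' h
    exact good_of_IOK ht hp hρ hr le_rfl le_rfl hq k j

def IIK (t a ρ p q G κ : ℕ) : Prop :=
  IIOK t a ρ p q 0 G κ
    (up t 0 (ρ * (a + q - t) + ∑ h : Fin p, (bal (rS t ρ p + 0 * t) p h + bal G p h - κ)))

def ExtII (t a ρ p q : ℕ) : Prop :=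
  ∃ k < 2, ∃ i < 3,
    IIK t a ρ p q (ρ * p % t + k * t) (cdv (max (rS t ρ p) (ρ * p % t + k * t)) p + i)

instance (t a ρ p k G κ : ℕ) : Decidable (IIS t a ρ p k G κ) := by unfold IIS; infer_instance
instance (t a ρ p q G κ : ℕ) : Decidable (IIK t a ρ p q G κ) := by
  unfold IIK IIOK; infer_instance
instance (t a ρ p q : ℕ) : Decidable (ExtII t a ρ p q) := by unfold ExtII; infer_instance
instance (t ρ x : ℕ) : Decidable (IVc t ρ x) := by unfold IVc; infer_instance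

lemma good_ExtII {t a ρ p q : ℕ} (ht : p + q = t) (hp : 0 < p) (hρ : 0 < ρ) (hr : ρ + p < t)
    (ha : a < t) (hq : t ∣ a * (ρ + p) + (ρ + p) * q + q * a) (h : ExtII t a ρ p q) (j : ℕ) :
    Good t ![a + t + j * t, ρ + p, q] := by
  obtain ⟨k, -, i, -, h⟩ := h
  exact good_of_IIOK ht hp hρ hr zero_le_one ha hq h j

def uiB (t ρ c A η : ℕ) : Bool :=
  frc (((cd (ρ.mul (((c.add A).add η).div (Nat.add 1 η))) t).mul t).div ρ) fun V =>
    (c.add A).ble ((Nat.add 1 η).mul V) && (η.mul V.succ).ble c &&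
      (((Nat.mul 3 V).add 2).add A).ble t

lemma uiB_spec {t ρ p q β η : ℕ} (hρ : 0 < ρ) (h1 : (1 + β) * cdv (rS t ρ p) p ≤ q)
    (h : uiB t ρ (if β = 0 then q else p) (cdv ((t - ρ - p) * q % t) ρ) η = true) :
    ∃ e A, UI t ρ p q β η e A := by
  simp only [uiB, frc_eq, Bool.and_eq_true, Nat.ble_eq] at h
  refine ⟨_, _, ?_, h.1.1, h.1.2, h.2, h1⟩
  have := Nat.lt_mul_div_succ ((t - ρ - p) * q % t + ρ - 1) hρ
  rw [mul_add] at this
  unfold cdv
  omega

def u1B (t ρ p q : ℕ) : Bool :=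
  frc ((t.sub ρ).sub p) fun x => frc (cd ((x.mul q).mod t) ρ) fun A =>
    frc (cd ((x.mul p).mod t) p) fun L => ((ρ.add L).add 4).ble t &&
      (uiB t ρ q A 0 || uiB t ρ q A 1 || ((Nat.mul 2 L).ble q && (uiB t ρ p A 0 || uiB t ρ p A 1)))

lemma good_u1B {t a ρ p q : ℕ} (ht : p + q = t) (hp : 0 < p) (hρ : 0 < ρ) (hr : ρ + p < t)
    (ha : a < t) (hq : t ∣ a * (ρ + p) + (ρ + p) * q + q * a) (h : u1B t ρ p q = true) (j : ℕ) :
    Good t ![a + t + j * t, ρ + p, q] := by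
  have a1 := (rK_le hp hr).1
  simp only [u1B, frc_eq, Bool.and_eq_true, Bool.or_eq_true, Nat.ble_eq] at h
  obtain ⟨h0, (h | h) | ⟨h', h | h⟩⟩ := h
  · obtain ⟨e, A, k⟩ := uiB_spec (β := 0) hρ (by omega) h
    exact good_UI' ht hp hρ hr zero_le_one zero_le_one ha hq k h0 j
  · obtain ⟨e, A, k⟩ := uiB_spec (β := 0) hρ (by omega) h
    exact good_UI' ht hp hρ hr zero_le_one le_rfl ha hq k h0 j
  · obtain ⟨e, A, k⟩ := uiB_spec (β := 1) hρ h' h
    exact good_UI' ht hp hρ hr le_rfl zero_le_one ha hq k h0 j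
  · obtain ⟨e, A, k⟩ := uiB_spec (β := 1) hρ h' h
    exact good_UI' ht hp hρ hr le_rfl le_rfl ha hq k h0 j

def u2B (t ρ p : ℕ) : Bool :=
  Nat.ble 2 p && frc ((t.sub ρ).sub p) fun y => frc ((y.mul p).div t) fun K =>
    frc (cd ((y.mul p).mod t) p) fun L => frc (cd (uG t ρ p) p) fun u => frc (uk t ρ p) fun k =>
      frc (cd (((y.mul p).mod t).add (k.mul t)) p) fun w =>
        ((K.add L).add u).ble y && ((K.add 1).add u).ble y &&
        (((ρ.add (Nat.mul 2 u)).add L).add 2).ble t && (((Nat.mul 2 u).add L).add 4).ble t &&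
        (K.add (Nat.mul 2 w)).ble (y.add k) && ((K.add 1).add w).ble (y.add k) &&
        ((ρ.add (Nat.mul 2 w)).add 1).ble t &&
        ((((Nat.mul 2 ρ).add (Nat.mul 3 w)).add 4).add p).ble (Nat.mul 2 t)

lemma u2B_spec {t ρ p : ℕ} (h : u2B t ρ p = true) : UII t ρ p := by
  simp only [u2B, frc_eq, Bool.and_eq_true, Nat.ble_eq, and_assoc] at h
  exact h

def raB (t a ρ x y : ℕ) : Bool :=
  extI t a ρ y (ρ.add x) || decide (ExtII t a ρ x (ρ + y)) || extI t a ρ x (ρ.add y) ||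
    decide (ExtII t a ρ y (ρ + x)) || decide ((t, a, ρ + y, ρ + x) ∈ R2List) ||
    decide ((t, a, ρ + y, ρ + x) ∈ RwList)

def rbB (t ρ x y : ℕ) : Bool :=
  (Nat.ble 4 y && ((Nat.mul 22 (t.div ρ)).add 24).ble t) || u1B t ρ y (ρ.add x) || u2B t ρ x ||
    decide (IVc t ρ x) || frc ((x.mul y).mod t) fun S => allB t fun a =>
      Nat.ble 1 (((ρ.mul a).add S).mod t) || raB t a ρ x y

def tabB (T n R : ℕ) : Bool :=
  allB n fun i => frc (T.add i) fun t => allB (min t R) fun ρ => allB (((t.sub 1).sub ρ).div 2)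
    fun x => frc ((t.sub ρ.succ).sub x.succ) fun y => rbB t ρ.succ x.succ y

lemma good_rbB {t a ρ x y : ℕ} (ht : t = ρ + x + y) (hρ : 0 < ρ) (hx : 0 < x) (hxy : x ≤ y)
    (ha : a < t) (hq : t ∣ a * (ρ + y) + (ρ + y) * (ρ + x) + (ρ + x) * a) (h : rbB t ρ x y = true)
    (j : ℕ) : Good t ![a + t + j * t, ρ + y, ρ + x] := by
  have hq' : t ∣ a * (ρ + x) + (ρ + x) * (ρ + y) + (ρ + y) * a := by
    convert hq using 1
    ring
  simp only [rbB, frc_eq, Bool.and_eq_true, Bool.or_eq_true, Nat.ble_eq, decide_eq_true_eq] at h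
  rcases h with (((⟨h1, h2⟩ | h) | h) | h) | h
  · exact good_wide ht hρ hx hxy h1 h2 ha hq j
  · exact good_u1B (by omega) (by omega) hρ (by omega) ha hq h j
  · exact (good_UII (by omega) hρ (by omega) ha hq' (u2B_spec h) j).swap12
  · exact good_IVc ht hx ha hq h j
  have h := allB_spec h a ha
  simp only [raB, Bool.or_eq_true, Nat.ble_eq, decide_eq_true_eq] at h
  rcases h with h | ((((h | h) | h) | h) | h) | h
  · have := Nat.mod_eq_zero_of_dvd (alpha_dvd (by omega) (by omega) hq)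
    rw [rS, show t - ρ - y = x by omega] at this
    exact absurd (this ▸ h : 1 ≤ 0) (by omega)
  · exact good_extI (by omega) (by omega) hρ (by omega) hq h j
  · exact (good_ExtII (by omega) hx hρ (by omega) ha hq' h j).swap12
  · exact (good_extI (by omega) hx hρ (by omega) hq' h j).swap12
  · exact good_ExtII (by omega) (by omega) hρ (by omega) ha hq h j
  · rw [show a + t + j * t = a + (j + 1) * t by ring]
    exact r2_list _ h (j + 1)
  · exact rw_list _ h j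

lemma good_tabB {T n R t a ρ x y : ℕ} (h : tabB T n R = true) (h1 : T ≤ t) (h2 : t < T + n)
    (h3 : ρ ≤ R) (ht : t = ρ + x + y) (hρ : 0 < ρ) (hx : 0 < x) (hxy : x ≤ y) (ha : a < t)
    (hq : t ∣ a * (ρ + y) + (ρ + y) * (ρ + x) + (ρ + x) * a) (j : ℕ) :
    Good t ![a + t + j * t, ρ + y, ρ + x] := by
  obtain ⟨i, e⟩ := Nat.exists_eq_add_of_le h1
  obtain ⟨r, rfl⟩ : ∃ r, ρ = r + 1 := ⟨ρ - 1, by omega⟩
  obtain ⟨z, rfl⟩ : ∃ z, x = z + 1 := ⟨x - 1, by omega⟩
  have a1 := allB_spec h i (by omega)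
  rw [frc_eq, show T.add i = t from e.symm] at a1
  have a2 := allB_spec (allB_spec a1 r (by omega)) z (show z < (t - 1 - r) / 2 by omega)
  rw [frc_eq, show (t.sub r.succ).sub z.succ = y from (by omega : t - (r + 1) - (z + 1) = y)] at a2
  exact good_rbB ht hρ hx hxy ha hq a2 j

end Pool.Agent.Lib.MP_351560_co.R2
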