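import Mathlib
import Pool.Agent.Lib.MP_351560_co.R2Tab

set_option autoImplicit false

namespace Pool.Agent.Lib.MP_351560_co.R2

lemma tab1 : tabB 0 45 90 = true := by decide +kernel

lemma tab2 : tabB 45 20 90 = true := by decide +kernel

lemma tab3 : tabB 65 13 90 = true := by decide +kernel

lemma tab4 : tabB 78 12 90 = true := by decide +kernel

end Pool.Agent.Lib.MP_351560_co.R2
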