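import Mathlib
import Pool.Agent.Lib.MP_351560_co.R2Tab

set_option autoImplicit false

namespace Pool.Agent.Lib.MP_351560_co.R2

lemma tab5 : tabB 90 18 29 = true := by decide +kernel

lemma tab6 : tabB 108 16 29 = true := by decide +kernel

lemma tab7 : tabB 124 14 29 = true := by decide +kernel

lemma tab8 : tabB 138 12 29 = true := by decide +kernel

end Pool.Agent.Lib.MP_351560_co.R2
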