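import Mathlib
import Pool.Agent.Lib.MP_351560_co.R2T1
import Pool.Agent.Lib.MP_351560_co.R2T2
import Pool.Agent.Lib.MP_351560_co.Glue

set_option autoImplicit false

namespace Pool.Agent.Lib.MP_351560_co

open R2

lemma good_r2 {t a ρ x y : ℕ} (ht : t = ρ + x + y) (hρ : 0 < ρ) (hx : 0 < x) (hxy : x ≤ y)
    (ha : a < t) (hq : t ∣ a * (ρ + y) + (ρ + y) * (ρ + x) + (ρ + x) * a) (j : ℕ) :
    Good t ![a + t + j * t, ρ + y, ρ + x] := by
  by_cases c1 : t < 45
  · exact good_tabB tab1 (by omega) (by omega) (by omega) ht hρ hx hxy ha hq j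
  by_cases c2 : t < 65
  · exact good_tabB tab2 (by omega) (by omega) (by omega) ht hρ hx hxy ha hq j
  by_cases c3 : t < 78
  · exact good_tabB tab3 (by omega) (by omega) (by omega) ht hρ hx hxy ha hq j
  by_cases c4 : t < 90
  · exact good_tabB tab4 (by omega) (by omega) (by omega) ht hρ hx hxy ha hq j
  by_cases c5 : 150 ≤ t
  · exact good_r2_large ht c5 hρ hx hxy ha hq j
  by_cases c6 : y ≤ 3
  · exact good_thinA ht (by omega) hx hxy c6 ha hq j
  by_cases c7 : 30 ≤ ρ
  · have := Nat.div_le_div_left (a := t) c7 (by omega)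
    exact good_wide ht hρ hx hxy (by omega) (by omega) ha hq j
  by_cases c8 : t < 108
  · exact good_tabB tab5 (by omega) (by omega) (by omega) ht hρ hx hxy ha hq j
  by_cases c9 : t < 124
  · exact good_tabB tab6 (by omega) (by omega) (by omega) ht hρ hx hxy ha hq j
  by_cases c10 : t < 138
  · exact good_tabB tab7 (by omega) (by omega) (by omega) ht hρ hx hxy ha hq j
  · exact good_tabB tab8 (by omega) (by omega) (by omega) ht hρ hx hxy ha hq j

theorem stR2 : StR2 := by
  intro t a b c ha hcb hb hbc hq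
  have e1 := Nat.div_add_mod (a - t) t
  have e2 := Nat.mod_lt (a - t) (show 0 < t by omega)
  obtain ⟨j, r, hr, rfl⟩ : ∃ j r, r < t ∧ a = r + t + j * t :=
    ⟨(a - t) / t, _, e2, by rw [mul_comm]; omega⟩
  obtain ⟨ρ, x, y, h1, rfl, rfl⟩ : ∃ ρ x y, t = ρ + x + y ∧ b = ρ + y ∧ c = ρ + x :=
    ⟨b + c - t, t - b, t - c, by omega, by omega, by omega⟩
  refine good_r2 h1 (by omega) (by omega) (by omega) hr
    (dvd_of_add (y := (j + 1) * (ρ + y + (ρ + x)) * t) (by ring) (dvd_mul_left _ _) hq) j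

end Pool.Agent.Lib.MP_351560_co
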