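import Mathlib
import Pool.Agent.Lib.MP_351560_co.Glue
import Pool.Agent.Lib.MP_351560_co.R2
import Pool.Agent.Lib.MP_351560_co.L2All
import Pool.Agent.Lib.MP_351560_co.L3s
import Pool.Agent.Lib.MP_351560_co.D3Main
import Pool.Agent.Lib.MP_351560_co.GoodLe

set_option autoImplicit false

namespace Pool.Agent.Lib.MP_351560_co

/-- Two parts of size at least `t`, for a fixed `t`. -/
def Two (t : ℕ) : Prop := ∀ a b c : ℕ, t ≤ a → t ≤ b → 0 < c →
  t ∣ a * b + b * c + c * a → Good t ![a, b, c]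

lemma two_big {t : ℕ} (ht : 13 ≤ t) : Two t := by
  intro a b c ha hb hc hq
  rcases lt_or_ge c t with h | h
  · exact stL2_big (by omega) ha hb hc h hq
  refine good_of_sorted (· % t) (fun a b c => t ≤ a ∧ t ≤ b ∧ t ≤ c)
    (fun x y z h1 h2 e h => ?_) ⟨ha, hb, h⟩ (by tauto) (by tauto)
  have hq' : t ∣ y * z + z * x + x * y := by
    rw [show y * z + z * x + x * y = x * y + y * z + z * x by ring, e]
    exact hq
  rcases lt_or_ge (z % t + x % t) t with h5 | h5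
  · exact (stL3s_big (by omega) h.2.1 h.2.2 h.1 h2 h1 h5 hq').swap12.swap01
  · exact (stL3d_big t y z x ht h.2.1 h.2.2 h.1 h2 h1 h5 hq').swap12.swap01

lemma two_ne {t : ℕ} (ht : 2 ≤ t) (h3 : t ≠ 3) : Two t := by
  rcases le_or_gt t 12 with h | h
  · exact fun a b c => good_le_ne3 ht h h3
  · exact two_big h

lemma good_two {t m n s : ℕ} (H : Two t) (k1 : n ≤ m) (k2 : s ≤ n) (hs : 1 ≤ s) (hn : 2 ≤ n)
    (hq : t ∣ m * n + n * s + s * m) : Good t ![m, n, s] := by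
  by_cases c1 : m + n ≤ t
  · exact good_small (by omega) c1 (by omega) (by omega) hq
  by_cases c2 : n + s ≤ t
  · exact good_sparse k2 k1 hs hn c2 (by omega) hq
  by_cases c3 : m < t
  · exact good_dense k2 k1 c3 (by omega) hq
  by_cases c4 : n < t
  · exact stR2 t m n s (by omega) k2 c4 (by omega) hq
  · exact H m n s (by omega) (by omega) hs hq

theorem full_two {t m n s : ℕ} (H : Two t) (ht : 2 ≤ t) (hm : 1 ≤ m) (hn : 1 ≤ n) (hs : 1 ≤ s) :
    Divisible (K m n s) t ↔ t ∣ m * n + n * s + s * m ∧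
      ((m = 1 ∧ n = 1) ∨ (n = 1 ∧ s = 1) ∨ (s = 1 ∧ m = 1) →
        m * n + n * s + s * m = t ∨ m * n + n * s + s * m = 3 * t) := by
  have key : ∀ m, 1 ≤ m → (Good t ![m, 1, 1] ↔ 2 * m + 1 = t ∨ 2 * m + 1 = 3 * t) :=
    fun m hm => ⟨fun h => (one_one ht hm).1 h.divisible, fun h => ((one_one ht hm).2 h).good⟩
  constructor
  · intro h
    refine ⟨h.good.dvd, ?_⟩
    rintro (⟨rfl, rfl⟩ | ⟨rfl, rfl⟩ | ⟨rfl, rfl⟩)
    · have := (key s hs).1 h.good.swap12.swap01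
      omega
    · have := (key m hm).1 h.good
      omega
    · have := (key n hn).1 h.good.swap01
      omega
  · rintro ⟨hq, h⟩
    refine Good.divisible ?_
    by_cases h' : (m = 1 ∧ n = 1) ∨ (n = 1 ∧ s = 1) ∨ (s = 1 ∧ m = 1)
    · have := h h'
      rcases h' with ⟨rfl, rfl⟩ | ⟨rfl, rfl⟩ | ⟨rfl, rfl⟩
      · exact ((key s hs).2 (by omega)).swap01.swap12
      · exact (key m hm).2 (by omega)
      · exact ((key n hn).2 (by omega)).swap01
    · refine good_of_sorted id (fun a b c => 1 ≤ a ∧ 1 ≤ b ∧ 1 ≤ c ∧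
        ¬((a = 1 ∧ b = 1) ∨ (b = 1 ∧ c = 1) ∨ (c = 1 ∧ a = 1)))
        (fun a b c k1 k2 e k => good_two H k1 k2 k.2.2.1 ?_ (e ▸ hq))
        ⟨hm, hn, hs, h'⟩ (by tauto) (by tauto)
      simp only [id] at k1 k2
      omega

end Pool.Agent.Lib.MP_351560_co
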