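import Mathlib
import Pool.Agent.Lib.MP_351560_co.AllNe
import Pool.Agent.Lib.MP_351560_co.Le3

set_option autoImplicit false

namespace Pool.Agent.Lib.MP_351560_co

lemma two_all {t : ℕ} (ht : 2 ≤ t) : Two t := by
  rcases le_or_gt t 12 with h | h
  · exact fun a b c => good_le ht h
  · exact two_big h

end Pool.Agent.Lib.MP_351560_co
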