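import Mathlib
import Pool.Agent.Lib.MP_351560_co.Star
import Pool.Agent.Lib.MP_351560_co.Cert

set_option autoImplicit false
set_option linter.unusedSimpArgs false
set_option linter.unusedVariables false
set_option linter.unusedSectionVars false

namespace Pool.Agent.Lib.MP_351560_co

open Finset

/-- Replacing every vertex `v` by `n v` twins, where `n` is determined by the labels. -/
lemma LF.blowup {V Λ : Type} [Fintype V] {p : V → Fin 3} {t : ℕ} {lab : Fin t → V → Λ}
    (h : LF p t lab) (n : V → ℕ) (g : Λ → ℕ) (hn : ∀ i v, g (lab i v) = n v) :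
    Good t fun P => ∑ v, if p v = P then n v else 0 := by
  classical
  obtain ⟨F, f2, f3, f4, f5⟩ := h
  refine ⟨Σ v, Fin (n v), inferInstance, fun z => p z.1, fun P => ?_,
    fun i z z' => F i z.1 z'.1, fun i u v => f2 i _ _, fun i u v => f3 i _ _,
    fun u v => f4 _ _, fun i j => ?_⟩
  · convert card_sigma_pred n fun v => p v = P
  · obtain ⟨φ, hφ, hl⟩ := f5 i j
    have e : ∀ v, n v = n (φ v) := fun v => by rw [← hn i, ← hn j, hl]
    exact ⟨Equiv.sigmaCongr φ fun v => finCongr (e v), fun u v => hφ _ _, fun _ => rfl⟩

/-- Certificate in which the first `k` vertices of the first part play the first `k` roles. -/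
def certB (t k a b c G R : ℕ) : Bool :=
  cert t (k + a) b c G R &&
  (List.range (k + a + b + c)).all fun v => (List.range t).all fun i =>
    decide (crole (k + a + b + c) R i v < k ↔ v < k)

theorem good_of_certB {t k a b c : ℕ} (G R : ℕ) (h : certB t k a b c G R = true) (j : ℕ) :
    Good t ![a + j * k, b, c] := by
  simp only [certB, List.all_eq_true, List.mem_range, Bool.and_eq_true, decide_eq_true_eq] at h
  obtain ⟨h0, h1⟩ := h
  obtain ⟨ρ, hρ, h⟩ := LF.of_cert h0
  have := h.blowup (fun v => if v.val < k then j else 1) (fun r => if r.val < k then j else 1)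
    (fun i v => by simp only [hρ, h1 v v.2 i i.2])
  convert this using 2 with P
  have e1 := card_cpart (k + a) b c P
  have e2 : (univ.filter fun v : Fin (k + a + b + c) => v.val < k).card = k := by
    rw [Fin.card_filter_val_lt]
    omega
  have e3 : ∀ v : Fin (k + a + b + c), (if (⟨cpart (k + a) b v, cpart_lt _ _ _⟩ : Fin 3) = P then
      (if v.val < k then j else 1) else 0) + (if P = 0 then (if v.val < k then 1 else 0) else 0) =
      (if (⟨cpart (k + a) b v, cpart_lt _ _ _⟩ : Fin 3) = P then 1 else 0) +
      if P = 0 then j * (if v.val < k then 1 else 0) else 0 := by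
    intro v
    by_cases hv : v.val < k
    · have : (⟨cpart (k + a) b v, cpart_lt _ _ _⟩ : Fin 3) = 0 :=
        Fin.ext (by simp only [cpart]; rw [if_pos (by omega)]; rfl)
      rw [this]
      by_cases hP : P = 0
      · simp [hP, hv, add_comm]
      · simp [hP, Ne.symm hP]
    · simp [hv]
  have e4 := sum_congr (s₁ := univ) rfl fun v _ => e3 v
  rw [sum_add_distrib, sum_add_distrib, ← card_filter, e1] at e4
  by_cases hP : P = 0
  · subst hP
    simp only [if_true, ← mul_sum, ← card_filter, e2, Matrix.cons_val_zero] at e4 ⊢
    omega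
  · simp only [if_neg hP, sum_const_zero, add_zero] at e4
    rw [e4]
    fin_cases P
    · exact absurd rfl hP
    · rfl
    · rfl

end Pool.Agent.Lib.MP_351560_co
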