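import Mathlib
import Pool.Agent.Lib.MP_351560_co.Blow

set_option autoImplicit false
set_option linter.unusedSimpArgs false
set_option linter.unusedVariables false
set_option linter.unusedSectionVars false

namespace Pool.Agent.Lib.MP_351560_co

open Finset

/-- Byte number `k` of `x`. -/
def cbyte (x k : ℕ) : ℕ := (x >>> (8 * k)) % 256

/-- The vertex playing role `r` at time `i`. -/
def xocc (n O i r : ℕ) : ℕ := cbyte ((O >>> (8 * n * i)) % 2 ^ (8 * n)) r

/-- Type of a vertex: `0,1,2` old vertices of the three parts, `3,4,5` new ones. -/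
def xty (a b c x y v : ℕ) : ℕ :=
  if v < a then 0 else if v < a + b then 1 else if v < a + b + c then 2
  else if v < a + b + c + x then 3 else if v < a + b + c + x + y then 4 else 5

/-- Marks the pairs of a list, failing on repetitions, and tests the final mask. -/
def covL (n : ℕ) (f : ℕ → Bool) : List (ℕ × ℕ) → ℕ → Bool
  | [], s => f s
  | q :: l, s => !(s.testBit (q.1 * n + q.2)) &&
      covL n f l (s ||| 2 ^ (q.1 * n + q.2) ||| 2 ^ (q.2 * n + q.1))

def xpair (n E O i k : ℕ) : ℕ × ℕ :=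
  (xocc n O i (cbyte E (2 * k)), xocc n O i (cbyte E (2 * k + 1)))

def xrow (a b c x y n P : ℕ) : ℕ :=
  if P = 0 then 2 ^ n - 2 ^ a - (2 ^ (a + b + c + x) - 2 ^ (a + b + c))
  else if P = 1 then
    2 ^ n - 1 - (2 ^ (a + b) - 2 ^ a) - (2 ^ (a + b + c + x + y) - 2 ^ (a + b + c + x))
  else 2 ^ (a + b + c + x + y) - 1 - (2 ^ (a + b + c) - 2 ^ (a + b))

def xlab (y : ℕ) : ℕ := if y < 3 then 0 else y

/-- Certificate check: `E` lists the `e` edges of the common factor, `O` the occupants. -/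
def certN (t a b c x y z e E O n : ℕ) : Bool :=
  ((List.range 6).all fun T => decide
    (((List.range n).filter fun v => decide (xty a b c x y v = T)).length =
      [a, b, c, x, y, z].getD T 0)) &&
  ((List.range 3).all fun P => (List.range n).all fun v =>
    (xrow a b c x y n P).testBit v == decide (xty a b c x y v % 3 ≠ P)) &&
  ((List.range e).all fun k => decide (cbyte E (2 * k) < n) && decide (cbyte E (2 * k + 1) < n)) &&
  ((List.range t).all fun i =>
    decide ((List.range n).foldl (fun s r => s ||| 2 ^ xocc n O i r) 0 = 2 ^ n - 1) &&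
    (List.range n).all fun r =>
      decide (xlab (xty a b c x y (xocc n O i r)) = xlab (xty a b c x y r))) &&
  covL n (fun s => (List.range n).all fun u =>
      decide ((s >>> (u * n)) % 2 ^ n = xrow a b c x y n (xty a b c x y u % 3)))
    ((List.range t).flatMap fun i => (List.range e).map fun k => xpair n E O i k) 0

def certX (t a b c x y z e E O : ℕ) : Bool := certN t a b c x y z e E O (a + b + c + x + y + z)

lemma testBit_foldl (g : ℕ → ℕ) (l : List ℕ) (s w : ℕ) :
    (l.foldl (fun s r => s ||| 2 ^ g r) s).testBit w = true ↔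
      s.testBit w = true ∨ ∃ r ∈ l, g r = w := by
  induction l generalizing s with
  | nil => simp
  | cons r l ih =>
    rw [List.foldl_cons, ih]
    simp only [Nat.testBit_or, Bool.or_eq_true, Nat.testBit_two_pow, decide_eq_true_eq,
      List.mem_cons, exists_eq_or_imp, or_assoc]

lemma covL_spec (n : ℕ) (f : ℕ → Bool) (l : List (ℕ × ℕ)) (s : ℕ) (h : covL n f l s = true) :
    (∃ T, f T = true ∧ ∀ w, T.testBit w = true ↔
      s.testBit w = true ∨ ∃ q ∈ l, q.1 * n + q.2 = w ∨ q.2 * n + q.1 = w) ∧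
    (∀ q ∈ l, s.testBit (q.1 * n + q.2) = false) ∧
    l.Pairwise fun q q' => q.1 * n + q.2 ≠ q'.1 * n + q'.2 ∧ q.2 * n + q.1 ≠ q'.1 * n + q'.2 := by
  induction l generalizing s with
  | nil => exact ⟨⟨s, h, by simp⟩, by simp, List.Pairwise.nil⟩
  | cons q l ih =>
    simp only [covL, Bool.and_eq_true, Bool.not_eq_true'] at h
    obtain ⟨⟨T, h1, h2⟩, h3, h4⟩ := ih _ h.2
    simp only [Nat.testBit_or, Bool.or_eq_true, Nat.testBit_two_pow, decide_eq_true_eq,
      Bool.or_eq_false_iff, decide_eq_false_iff_not] at h2 h3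
    refine ⟨⟨T, h1, fun w => ?_⟩, ?_, List.Pairwise.cons (fun q' hq' => ?_) h4⟩
    · rw [h2]
      simp only [List.mem_cons, exists_eq_or_imp, or_assoc]
    · intro q' hq'
      rcases List.mem_cons.1 hq' with rfl | hq'
      · exact h.1
      · exact (h3 q' hq').1.1
    · exact ⟨(h3 q' hq').1.2, (h3 q' hq').2⟩

lemma xty_lt (a b c x y v : ℕ) : xty a b c x y v < 6 := by
  unfold xty
  split_ifs <;> omega

lemma pos_inj {n u v u' v' : ℕ} (hv : v < n) (hv' : v' < n) (h : u * n + v = u' * n + v') :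
    u = u' ∧ v = v' := by
  have h1 := congrArg (· % n) h
  simp only [Nat.mul_add_mod_self_right, Nat.mod_eq_of_lt hv, Nat.mod_eq_of_lt hv',
    Nat.mul_add_mod] at h1
  subst h1
  exact ⟨Nat.eq_of_mul_eq_mul_right (by omega) (Nat.add_right_cancel h), rfl⟩

lemma LF.of_certN {t a b c x y z e E O n : ℕ} (h : certN t a b c x y z e E O n = true) :
    LF (fun v : Fin n => (⟨xty a b c x y v % 3, Nat.mod_lt _ (by norm_num)⟩ : Fin 3)) t
      fun _ v => xlab (xty a b c x y v) := by
  simp only [certN, List.all_eq_true, List.mem_range, Bool.and_eq_true, decide_eq_true_eq,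
    beq_iff_eq] at h
  obtain ⟨⟨⟨⟨-, h2⟩, h3⟩, h4⟩, h5⟩ := h
  obtain ⟨⟨T, t1, t2⟩, -, t3⟩ := covL_spec _ _ _ _ h5
  simp only [List.all_eq_true, List.mem_range, decide_eq_true_eq] at t1
  have hb : ∀ i < t, ∀ w, (∃ r < n, xocc n O i r = w) ↔ w < n := by
    intro i hi w
    have := testBit_foldl (xocc n O i) (List.range n) 0 w
    rw [(h4 i hi).1, Nat.testBit_two_pow_sub_one] at this
    simpa using this.symm
  let o : Fin t → Fin n → Fin n := fun i r => ⟨xocc n O i r, (hb i i.2 _).1 ⟨r, r.2, rfl⟩⟩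
  have ho : ∀ i, Function.Bijective (o i) := fun i =>
    Finite.surjective_iff_bijective.1 fun w => by
      obtain ⟨r, hr, e⟩ := (hb i i.2 w).2 w.2
      exact ⟨⟨r, hr⟩, Fin.ext e⟩
  let ε : Fin t → Fin n ≃ Fin n := fun i => Equiv.ofBijective (o i) (ho i)
  let H : Fin n → Fin n → Prop := fun r r' => ∃ k < e,
    (cbyte E (2 * k) = r ∧ cbyte E (2 * k + 1) = r') ∨
      (cbyte E (2 * k) = r' ∧ cbyte E (2 * k + 1) = r)
  have hlt : ∀ i < t, ∀ k < e, (xpair n E O i k).1 < n ∧ (xpair n E O i k).2 < n :=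
    fun i hi k hk => ⟨(hb i hi _).1 ⟨_, (h3 k hk).1, rfl⟩, (hb i hi _).1 ⟨_, (h3 k hk).2, rfl⟩⟩
  have hH : ∀ (i : Fin t) (u v : Fin n), H ((ε i).symm u) ((ε i).symm v) ↔
      ∃ k < e, xpair n E O i k = (u.1, v.1) ∨ xpair n E O i k = (v.1, u.1) := by
    intro i u v
    have key : ∀ r < n, ∀ w : Fin n, r = ((ε i).symm w).1 ↔ xocc n O i r = w := by
      intro r hr w
      constructor
      · rintro rfl
        exact congrArg Fin.val ((ε i).apply_symm_apply w)
      · intro h
        have : ε i ⟨r, hr⟩ = w := Fin.ext h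
        rw [← this, Equiv.symm_apply_apply]
    refine exists_congr fun k => and_congr_right fun hk => ?_
    simp only [xpair, Prod.mk.injEq, key _ (h3 k hk).1, key _ (h3 k hk).2]
  have hT : ∀ u v : Fin n, T.testBit (u * n + v) = true ↔
      xty a b c x y u % 3 ≠ xty a b c x y v % 3 := by
    intro u v
    have e1 := h2 (xty a b c x y u % 3) (Nat.mod_lt _ (by norm_num)) v v.2
    rw [← t1 u u.2, Nat.testBit_mod_two_pow, Nat.testBit_shiftRight] at e1
    simp only [v.2, decide_true, Bool.true_and] at e1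
    rw [e1, decide_eq_true_eq, ne_comm]
  have hE : ∀ u v : Fin n, (∃ i : Fin t, H ((ε i).symm u) ((ε i).symm v)) ↔
      xty a b c x y u % 3 ≠ xty a b c x y v % 3 := by
    intro u v
    rw [← hT, t2]
    simp only [hH, Nat.zero_testBit, Bool.false_eq_true, false_or, List.mem_flatMap,
      List.mem_range, List.mem_map]
    constructor
    · rintro ⟨i, k, hk, h | h⟩
      · exact ⟨_, ⟨i, i.2, k, hk, rfl⟩, Or.inl (by rw [h])⟩
      · exact ⟨_, ⟨i, i.2, k, hk, rfl⟩, Or.inr (by rw [h])⟩
    · rintro ⟨_, ⟨i, hi, k, hk, rfl⟩, h | h⟩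
      · obtain ⟨e1, e2⟩ := pos_inj (hlt i hi k hk).2 v.2 h
        exact ⟨⟨i, hi⟩, k, hk, Or.inl (Prod.ext e1 e2)⟩
      · obtain ⟨e1, e2⟩ := pos_inj (hlt i hi k hk).1 v.2 h
        exact ⟨⟨i, hi⟩, k, hk, Or.inr (Prod.ext e2 e1)⟩
  have hU : ∀ (u v : Fin n) (i j : Fin t), i < j → H ((ε i).symm u) ((ε i).symm v) →
      ¬H ((ε j).symm u) ((ε j).symm v) := by
    intro u v i j hij
    rw [hH, hH]
    rintro ⟨k, hk, h⟩ ⟨k', hk', h'⟩
    have := List.pairwise_iff_getElem.1 (List.pairwise_flatMap.1 t3).2 i j (by simp) (by simp) hij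
      (xpair n E O i k) (by simpa using ⟨k, hk, rfl⟩) (xpair n E O j k')
      (by simpa using ⟨k', hk', rfl⟩)
    rcases h with h | h <;> rcases h' with h' | h' <;> simp [h, h'] at this
  refine ⟨fun i u v => H ((ε i).symm u) ((ε i).symm v), ?_, fun i u v h h' => ?_,
    fun u v h => ?_, fun i j => ⟨(ε i).symm.trans (ε j), fun u v => by simp, fun v => ?_⟩⟩
  · rintro i u v ⟨k, hk, h⟩
    exact ⟨k, hk, h.symm⟩
  · exact (hE u v).1 ⟨i, h⟩ (congrArg Fin.val h')
  · obtain ⟨i, hi⟩ := (hE u v).2 fun h' => h (Fin.ext h')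
    refine ⟨i, hi, fun j hj => ?_⟩
    rcases lt_trichotomy i j with h' | h' | h'
    · exact absurd hj (hU u v i j h' hi)
    · exact h'.symm
    · exact absurd hi (hU u v j i h' hj)
  · obtain ⟨r, rfl⟩ := (ε i).surjective v
    simp only [Equiv.trans_apply, Equiv.symm_apply_apply]
    exact ((h4 j j.2).2 r r.2).trans ((h4 i i.2).2 r r.2).symm

theorem good_of_certX {t a b c x y z : ℕ} (e E O : ℕ) (h : certX t a b c x y z e E O = true)
    (i j k : ℕ) : Good t ![a + i * x, b + j * y, c + k * z] := by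
  let g : ℕ → ℕ := fun l => if l = 3 then i else if l = 4 then j else if l = 5 then k else 1
  have := (LF.of_certN h).blowup (fun v => g (xlab (xty a b c x y v))) g fun _ _ => rfl
  simp only [certX, certN, List.all_eq_true, List.mem_range, Bool.and_eq_true, decide_eq_true_eq,
    length_filter_range] at h
  obtain ⟨⟨⟨⟨h1, -⟩, -⟩, -⟩, -⟩ := h
  convert this using 2 with P
  have key : ∀ φ : ℕ → ℕ, ∑ v : Fin (a + b + c + x + y + z), φ (xty a b c x y v) =
      ∑ T ∈ range 6, φ T * [a, b, c, x, y, z].getD T 0 := by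
    intro φ
    rw [← sum_fiberwise_of_maps_to (s := univ) (t := range 6)
      (g := fun v : Fin (a + b + c + x + y + z) => xty a b c x y v)
      fun v _ => mem_range.2 (xty_lt _ _ _ _ _ _)]
    refine sum_congr rfl fun T hT => ?_
    rw [← h1 T (mem_range.1 hT), sum_congr rfl fun v hv => by rw [(mem_filter.1 hv).2]]
    simp [mul_comm]
  have := key fun T => if T % 3 = P then g (xlab T) else 0
  simp only [Fin.ext_iff]
  rw [this]
  fin_cases P <;> simp [sum_range_succ, g, xlab]

end Pool.Agent.Lib.MP_351560_co
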