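import Mathlib
import Pool.Agent.Lib.MP_351560_co.CertX

set_option autoImplicit false
set_option linter.unusedSimpArgs false
set_option linter.unusedVariables false

namespace Pool.Agent.Lib.MP_351560_co

/-- Fast version of `cbyte`. -/
def ybyte (x k : ℕ) : ℕ := Nat.mod (Nat.shiftRight x (Nat.mul 8 k)) 256

def yrow (n O i : ℕ) : ℕ :=
  Nat.mod (Nat.shiftRight O (Nat.mul (Nat.mul 8 n) i)) (Nat.pow 2 (Nat.mul 8 n))

/-- Marks the pairs covered at one time. -/
def ycov (n E R : ℕ) (f : ℕ → Bool) (k : ℕ) : ℕ → Bool :=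
  Nat.rec (motive := fun _ => ℕ → Bool) f (fun k g s =>
    cond (Nat.beq (Nat.land 1 (Nat.shiftRight s
        (Nat.add (Nat.mul (ybyte R (ybyte E (Nat.mul 2 k))) n)
          (ybyte R (ybyte E (Nat.succ (Nat.mul 2 k))))))) 0)
      (g (Nat.lor (Nat.lor s (Nat.pow 2 (Nat.add (Nat.mul (ybyte R (ybyte E (Nat.mul 2 k))) n)
          (ybyte R (ybyte E (Nat.succ (Nat.mul 2 k)))))))
        (Nat.pow 2 (Nat.add (Nat.mul (ybyte R (ybyte E (Nat.succ (Nat.mul 2 k)))) n)
          (ybyte R (ybyte E (Nat.mul 2 k))))))) false) k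

def ycovT (n e E O : ℕ) (f : ℕ → Bool) (i : ℕ) : ℕ → Bool :=
  Nat.rec (motive := fun _ => ℕ → Bool) f (fun i g => ycov n E (yrow n O i) g e) i

def yperm (R : ℕ) (n : ℕ) : ℕ :=
  Nat.rec (motive := fun _ => ℕ) 0 (fun r s => Nat.lor s (Nat.pow 2 (ybyte R r))) n

def yall (f : ℕ → Bool) (k : ℕ) : Bool :=
  Nat.rec (motive := fun _ => Bool) true (fun k b => cond (f k) b false) k

def ylab (n0 n1 n2 v : ℕ) : ℕ :=
  cond (Nat.blt v n0) 0 (cond (Nat.blt v n1) 3 (cond (Nat.blt v n2) 4 5))

def certM (t a b c x y e E O n0 n1 n2 n : ℕ) : Bool :=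
  (yall (fun P => yall (fun v =>
    (xrow a b c x y n P).testBit v == decide (xty a b c x y v % 3 ≠ P)) n) 3) &&
  (yall (fun k => Nat.blt (ybyte E k) n) (2 * e)) &&
  (yall (fun i => Nat.beq (yperm (yrow n O i) n) (2 ^ n - 1) &&
    yall (fun r => Nat.beq (ylab n0 n1 n2 (ybyte (yrow n O i) r)) (ylab n0 n1 n2 r)) n) t) &&
  ycovT n e E O (fun s => yall (fun u =>
    decide ((s >>> (u * n)) % 2 ^ n = xrow a b c x y n (xty a b c x y u % 3))) n) t 0

/-- Fast certificate check. -/
def certY (t a b c x y z e E O : ℕ) : Bool :=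
  certM t a b c x y e E O (a + b + c) (a + b + c + x) (a + b + c + x + y) (a + b + c + x + y + z)

lemma yall_iff (f : ℕ → Bool) (k : ℕ) : yall f k = true ↔ ∀ i < k, f i = true := by
  induction k with
  | zero => simp [yall]
  | succ k ih =>
    have : yall f (k + 1) = cond (f k) (yall f k) false := rfl
    rw [this, Nat.forall_lt_succ_right, ← ih]
    cases f k <;> simp

lemma ylab_eq (a b c x y v : ℕ) :
    ylab (a + b + c) (a + b + c + x) (a + b + c + x + y) v = xlab (xty a b c x y v) := by
  simp only [ylab, xty, Bool.cond_eq_ite, Nat.blt_eq]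
  split_ifs <;> first | rfl | omega

lemma yperm_eq (n O i k : ℕ) : yperm (yrow n O i) k =
    (List.range k).foldl (fun s r => s ||| 2 ^ xocc n O i r) 0 := by
  induction k with
  | zero => rfl
  | succ k ih =>
    rw [List.range_succ, List.foldl_append, ← ih]
    rfl

lemma covL_append (n : ℕ) (f : ℕ → Bool) (l l' : List (ℕ × ℕ)) (s : ℕ) :
    covL n f (l ++ l') s = covL n (covL n f l') l s := by
  induction l generalizing s with
  | nil => rfl
  | cons q l ih => simp only [List.cons_append, covL, ih]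

lemma ycov_eq (n E O i : ℕ) (f : ℕ → Bool) (k s : ℕ) : ycov n E (yrow n O i) f k s =
    covL n f ((List.range k).reverse.map (xpair n E O i)) s := by
  induction k generalizing s with
  | zero => rfl
  | succ k ih =>
    rw [List.range_succ, List.reverse_append, List.reverse_singleton, List.singleton_append,
      List.map_cons, covL, ← ih]
    have : ∀ (w : ℕ) (B : Bool), cond (Nat.beq (Nat.land 1 (Nat.shiftRight s w)) 0) B false =
        (!s.testBit w && B) := by
      intro w B
      have e : s.testBit w = (1 &&& s >>> w != 0) := rfl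
      have e' : Nat.land 1 (Nat.shiftRight s w) = 1 &&& s >>> w := rfl
      rw [e, e']
      cases h : 1 &&& s >>> w <;> simp
    exact this _ _

lemma ycovT_eq (n e E O : ℕ) (f : ℕ → Bool) (i : ℕ) : ycovT n e E O f i =
    covL n f ((List.range i).reverse.flatMap fun i =>
      (List.range e).reverse.map (xpair n E O i)) := by
  induction i with
  | zero => rfl
  | succ i ih =>
    funext s
    rw [List.range_succ, List.reverse_append, List.reverse_singleton, List.singleton_append,
      List.flatMap_cons, covL_append, ← ih, ← ycov_eq]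
    rfl

lemma covL_iff (n : ℕ) (f : ℕ → Bool) (l : List (ℕ × ℕ)) (s : ℕ) : covL n f l s = true ↔
    f (l.foldl (fun s q => s ||| 2 ^ (q.1 * n + q.2) ||| 2 ^ (q.2 * n + q.1)) s) = true ∧
    (∀ q ∈ l, s.testBit (q.1 * n + q.2) = false) ∧
    l.Pairwise fun q q' => q.1 * n + q.2 ≠ q'.1 * n + q'.2 ∧ q.2 * n + q.1 ≠ q'.1 * n + q'.2 := by
  induction l generalizing s with
  | nil => simp [covL]
  | cons q l ih =>
    simp only [covL, Bool.and_eq_true, Bool.not_eq_true', ih, List.foldl_cons, List.mem_cons,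
      forall_eq_or_imp, List.pairwise_cons, Nat.testBit_or, Nat.testBit_two_pow,
      Bool.or_eq_false_iff, decide_eq_false_iff_not, forall_and]
    tauto

lemma covL_perm (n : ℕ) (f : ℕ → Bool) {l l' : List (ℕ × ℕ)} (hp : l.Perm l')
    (hl : ∀ q ∈ l, q.1 < n ∧ q.2 < n) (h : covL n f l 0 = true) : covL n f l' 0 = true := by
  rw [covL_iff] at h ⊢
  refine ⟨?_, by simp, ?_⟩
  · rw [← hp.foldl_eq' fun x _ y _ z => by ac_rfl]
    exact h.1
  · have h2 : l.Pairwise fun q q' => (q.1 < n ∧ q.2 < n) ∧ (q'.1 < n ∧ q'.2 < n) ∧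
        q.1 * n + q.2 ≠ q'.1 * n + q'.2 ∧ q.2 * n + q.1 ≠ q'.1 * n + q'.2 :=
      h.2.2.imp_of_mem fun a b c => ⟨hl _ a, hl _ b, c⟩
    refine ((hp.pairwise_iff fun {q q'} h => ⟨h.2.1, h.1, h.2.2.1.symm, fun e => ?_⟩).1 h2).imp
      fun h => h.2.2
    obtain ⟨e1, e2⟩ := pos_inj h.2.1.1 h.1.2 e
    exact h.2.2.2 (by rw [e1, e2])

lemma card_xty (a b c x y z T : ℕ) (hT : T < 6) :
    ((List.range (a + b + c + x + y + z)).filter fun v => decide (xty a b c x y v = T)).length =
      [a, b, c, x, y, z].getD T 0 := by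
  have key : ∀ (n l u : ℕ) (p : ℕ → Bool), u ≤ n → (∀ v < n, p v = true ↔ l ≤ v ∧ v < u) →
      ((List.range n).filter p).length = u - l := by
    intro n l u p hu hp
    rw [← List.toFinset_card_of_nodup (List.nodup_range.filter _), ← Nat.card_Ico]
    congr 1
    ext v
    simp only [List.mem_toFinset, List.mem_filter, List.mem_range, Finset.mem_Ico]
    exact ⟨fun h => (hp v h.1).1 h.2, fun h => ⟨by omega, (hp v (by omega)).2 h⟩⟩
  have aux : ∀ l u k, u ≤ a + b + c + x + y + z → u - l = k →
      (∀ v < a + b + c + x + y + z, xty a b c x y v = T ↔ l ≤ v ∧ v < u) →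
      ((List.range (a + b + c + x + y + z)).filter
        fun v => decide (xty a b c x y v = T)).length = k :=
    fun l u k hu e h => (key _ l u _ hu fun v hv => by simpa using h v hv).trans e
  interval_cases T
  · exact aux 0 a _ (by omega) rfl fun v hv => by unfold xty; split_ifs <;> simp <;> omega
  · exact aux a (a + b) _ (by omega) (by simp) fun v hv => by unfold xty; split_ifs <;> simp <;> omega
  · exact aux (a + b) (a + b + c) _ (by omega) (by simp)
      fun v hv => by unfold xty; split_ifs <;> simp <;> omega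
  · exact aux (a + b + c) (a + b + c + x) _ (by omega) (by simp)
      fun v hv => by unfold xty; split_ifs <;> simp <;> omega
  · exact aux (a + b + c + x) (a + b + c + x + y) _ (by omega) (by simp)
      fun v hv => by unfold xty; split_ifs <;> simp <;> omega
  · exact aux (a + b + c + x + y) (a + b + c + x + y + z) _ (by omega) (by simp)
      fun v hv => by unfold xty; split_ifs <;> simp <;> omega

lemma certX_of_certY {t a b c x y z e E O : ℕ} (h : certY t a b c x y z e E O = true) :
    certX t a b c x y z e E O = true := by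
  simp only [certY, certM, Bool.and_eq_true, yall_iff, ycovT_eq, yperm_eq, ylab_eq, Nat.beq_eq,
    Nat.blt_eq] at h
  obtain ⟨⟨⟨h2, h3⟩, h4⟩, h5⟩ := h
  simp only [certX, certN, Bool.and_eq_true, List.all_eq_true, List.mem_range, decide_eq_true_eq]
  have h3' : ∀ k < e, cbyte E (2 * k) < a + b + c + x + y + z ∧
      cbyte E (2 * k + 1) < a + b + c + x + y + z :=
    fun k hk => ⟨h3 (2 * k) (by omega), h3 (2 * k + 1) (by omega)⟩
  refine ⟨⟨⟨⟨fun T hT => card_xty _ _ _ _ _ _ T hT, h2⟩, h3'⟩, h4⟩, ?_⟩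
  have hb : ∀ i < t, ∀ r < a + b + c + x + y + z,
      xocc (a + b + c + x + y + z) O i r < a + b + c + x + y + z := by
    intro i hi r hr
    have := (testBit_foldl (xocc (a + b + c + x + y + z) O i) (List.range _) 0 _).2
      (Or.inr ⟨r, List.mem_range.2 hr, rfl⟩)
    rw [(h4 i hi).1, Nat.testBit_two_pow_sub_one] at this
    simpa using this
  have e1 : ∀ (g : ℕ → Bool) (k : ℕ), (List.range k).all g = yall g k := fun g k => by
    rw [Bool.eq_iff_iff, yall_iff]
    simp
  simp only [e1]
  refine covL_perm _ _ ?_ (fun q hq => ?_) h5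
  · exact ((List.reverse_perm _).flatMap_right _).trans
      (List.Perm.flatMap_left _ fun i _ => (List.reverse_perm _).map _)
  · simp only [List.mem_flatMap, List.mem_reverse, List.mem_range, List.mem_map] at hq
    obtain ⟨i, hi, k, hk, rfl⟩ := hq
    exact ⟨hb i hi _ (h3' k hk).1, hb i hi _ (h3' k hk).2⟩

end Pool.Agent.Lib.MP_351560_co
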