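import Mathlib
import Pool.Agent.Lib.MP_351560_co.CertY
import Pool.Agent.Lib.MP_351560_co.Main

set_option autoImplicit false
set_option linter.unusedSimpArgs false
set_option linter.unusedVariables false

namespace Pool.Agent.Lib.MP_351560_co

/-- A certificate: sizes, extension steps and data. -/
abbrev Ent := (ℕ × ℕ) × (ℕ × ℕ) × (ℕ × ℕ) × ℕ × ℕ × ℕ

def okE (t : ℕ) (q : Ent) : Bool :=
  certY t q.1.1 q.2.1.1 q.2.2.1.1 q.1.2 q.2.1.2 q.2.2.1.2 q.2.2.2.1 q.2.2.2.2.1 q.2.2.2.2.2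

/-- The size `a` (standing for all larger congruent sizes if `L ≤ a`) is reached from `s`. -/
def cv1 (t L : ℕ) (s : ℕ × ℕ) (a : ℕ) : Bool :=
  cond (Nat.beq s.2 0) (Nat.beq a s.1 && Nat.blt a L)
    (Nat.beq (Nat.mod a t) (Nat.mod s.1 t) && Nat.ble s.1 a && Nat.beq s.2 t)

def cv3 (t L a b c : ℕ) (q : Ent) : Bool :=
  (cv1 t L q.1 a && ((cv1 t L q.2.1 b && cv1 t L q.2.2.1 c) ||
    (cv1 t L q.2.2.1 b && cv1 t L q.2.1 c))) ||
  (cv1 t L q.2.1 a && ((cv1 t L q.1 b && cv1 t L q.2.2.1 c) ||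
    (cv1 t L q.2.2.1 b && cv1 t L q.1 c))) ||
  (cv1 t L q.2.2.1 a && ((cv1 t L q.1 b && cv1 t L q.2.1 c) ||
    (cv1 t L q.2.1 b && cv1 t L q.1 c)))

/-- All admissible sizes below `L + t` are reached from the table. -/
def covAll (t L : ℕ) (T : List Ent) : Bool :=
  yall (fun a => Nat.blt a t || yall (fun b => Nat.blt b t || yall (fun c => Nat.beq c 0 ||
    !(Nat.beq (Nat.mod (Nat.add (Nat.add (Nat.mul a b) (Nat.mul b c)) (Nat.mul c a)) t) 0) ||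
      T.any (cv3 t L a b c)) (L + t)) (L + t)) (L + t)

lemma cv1_spec {t L a a' : ℕ} {s : ℕ × ℕ} (h : cv1 t L s a' = true)
    (h1 : a' ≤ a) (h2 : a' % t = a % t) (h3 : a' < L → a = a') : ∃ i, a = s.1 + i * s.2 := by
  unfold cv1 at h
  cases e : Nat.beq s.2 0
  · simp only [e, cond_false, Bool.and_eq_true, Nat.beq_eq, Nat.ble_eq] at h
    obtain ⟨i, hi⟩ := (Nat.modEq_iff_dvd' (h.1.2.trans h1)).1 (Eq.trans h.1.1.symm h2)
    exact ⟨i, by rw [h.2, mul_comm, ← hi, Nat.add_sub_cancel' (h.1.2.trans h1)]⟩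
  · simp only [e, cond_true, Bool.and_eq_true, Nat.beq_eq, Nat.blt_eq] at h
    exact ⟨0, by rw [h3 h.2, h.1]; simp⟩

lemma red_size {t L : ℕ} (ht : 0 < t) (a : ℕ) :
    ∃ a' < L + t, a' ≤ a ∧ a' % t = a % t ∧ (a' < L → a = a') ∧ ∀ k ≤ L, k ≤ a → k ≤ a' := by
  by_cases h : a < L
  · exact ⟨a, by omega, le_rfl, rfl, fun _ => rfl, fun _ _ h => h⟩
  · have h1 := Nat.mod_lt (a - L) ht
    have h2 := Nat.mod_le (a - L) t
    refine ⟨L + (a - L) % t, by omega, by omega, ?_, by omega, by omega⟩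
    rw [Nat.add_mod_mod]
    congr 1
    omega

theorem good_of_table {t L : ℕ} (T : List Ent) (ht : 0 < t) (hL : t ≤ L)
    (h1 : T.all (okE t) = true) (h2 : covAll t L T = true) {a b c : ℕ} (ha : t ≤ a) (hb : t ≤ b)
    (hc : 0 < c) (hq : t ∣ a * b + b * c + c * a) : Good t ![a, b, c] := by
  obtain ⟨a', a1, a2, a3, a4, a5⟩ := red_size (L := L) ht a
  obtain ⟨b', b1, b2, b3, b4, b5⟩ := red_size (L := L) ht b
  obtain ⟨c', c1, c2, c3, c4, c5⟩ := red_size (L := L) ht c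
  simp only [covAll, yall_iff, Bool.or_eq_true, Nat.blt_eq, Nat.beq_eq, Bool.not_eq_true',
    List.any_eq_true] at h2
  have h3 := ((h2 a' a1).resolve_left (by have := a5 t hL ha; omega) b' b1).resolve_left
    (by have := b5 t hL hb; omega) c' c1
  have hq' : Nat.beq (Nat.mod (Nat.add (Nat.add (Nat.mul a' b') (Nat.mul b' c')) (Nat.mul c' a'))
      t) 0 = true := by
    rw [Nat.beq_eq]
    have : (a' * b' + b' * c' + c' * a') ≡ a * b + b * c + c * a [MOD t] :=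
      ((Nat.ModEq.mul a3 b3).add (Nat.ModEq.mul b3 c3)).add (Nat.ModEq.mul c3 a3)
    exact Eq.trans this (Nat.mod_eq_zero_of_dvd hq)
  obtain ⟨q, hqT, h4⟩ := h3.resolve_left (by
    have := c5 1 (by omega) hc
    rw [hq']
    simp
    omega)
  have hg := good_of_certX _ _ _ (certX_of_certY (List.all_eq_true.1 h1 q hqT))
  simp only [cv3, Bool.or_eq_true, Bool.and_eq_true] at h4
  rcases h4 with (⟨x, ⟨y, z⟩ | ⟨y, z⟩⟩ | ⟨x, ⟨y, z⟩ | ⟨y, z⟩⟩) | ⟨x, ⟨y, z⟩ | ⟨y, z⟩⟩ <;>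
    obtain ⟨i, rfl⟩ := cv1_spec x a2 a3 a4 <;> obtain ⟨j, rfl⟩ := cv1_spec y b2 b3 b4 <;>
    obtain ⟨k, rfl⟩ := cv1_spec z c2 c3 c4
  · exact hg i j k
  · exact (hg i k j).swap12
  · exact (hg j i k).swap01
  · exact (hg k i j).swap01.swap12
  · exact (hg j k i).swap12.swap01
  · exact (hg k j i).swap01.swap12.swap01

end Pool.Agent.Lib.MP_351560_co
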