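import Mathlib
import Pool.Agent.Lib.MP_351560_co.CoreMk
import Pool.Agent.Lib.MP_351560_co.CertX

set_option autoImplicit false
set_option linter.unusedSimpArgs false
set_option linter.unusedVariables false

namespace Pool.Agent.Lib.MP_351560_co

open Finset

namespace CoreCert

/-- Number of ones among the first bits. -/
def pc : ℕ → ℕ → ℕ
  | 0, _ => 0
  | k + 1, m => m % 2 + pc k (m / 2)

lemma pc_eq (k m : ℕ) : pc k m = (univ.filter fun v : Fin k => m.testBit v = true).card := by
  induction k generalizing m with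
  | zero => rfl
  | succ k ih =>
    rw [pc, ih, card_filter, card_filter, Fin.sum_univ_succ]
    simp only [Fin.val_succ, Nat.testBit_succ, Fin.val_zero, Nat.testBit_zero, decide_eq_true_eq]
    split_ifs <;> omega

/-- Row number `i` of a bit matrix. -/
def row (N M i : ℕ) : ℕ := (M >>> (N * i)) % 2 ^ N

/-- Bit mask of a part. -/
def pmask (n c P : ℕ) : ℕ :=
  if P = 0 then 2 ^ n - 1 else if P = 1 then (2 ^ n - 1) <<< n else (2 ^ c - 1) <<< (n + n)

lemma pmask_bit {n c v : ℕ} (hv : v < n + n + c) : (pmask n c (cpart n n v)).testBit v = true := by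
  unfold pmask cpart
  by_cases h1 : v < n
  · simp [h1]
  · by_cases h2 : v < n + n <;>
      simp only [h1, h2, if_false, if_true, one_ne_zero, OfNat.ofNat_ne_zero, OfNat.ofNat_ne_one,
        Nat.testBit_shiftLeft, Nat.testBit_two_pow_sub_one, Bool.and_eq_true,
        decide_eq_true_eq] <;> omega

lemma and_zero {x y v : ℕ} (h : x &&& y = 0) (hx : x.testBit v = true) : y.testBit v = false := by
  have := Nat.testBit_and x y v
  rw [h, hx] at this
  simpa using this.symm

/-- Vertices joined to `u` when `u` is a hub. -/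
def nb (n N : ℕ) (adj : Bool) (H T A B u : ℕ) : ℕ :=
  (if n ≤ u then row N A (u - n) ||| (if adj then 2 ^ cbyte H (u - n) else 0) else 0) |||
    (if cpart n n u = 1 then 0 else row N B (cbyte T u))

/-- Marks of the extra edges. -/
def br (t N κ X Y : ℕ) : ℕ :=
  ((List.range t).flatMap fun i => (List.range κ).map fun k =>
    cbyte X (i * κ + k) * N + cbyte Y (i * κ + k)).foldl (fun s r => s ||| 2 ^ id r) 0

/-- Checks at the time `i`. -/
def chkT (n c N : ℕ) (adj : Bool) (dA dB κ S H T A B X Y i : ℕ) : Bool :=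
  decide (cbyte H i < N) && decide (cpart n n (cbyte H i) ≠ 1) && decide (cbyte T (cbyte H i) = i) &&
  decide (n + i ≠ cbyte H i) && (!adj || decide (cpart n n (n + i) ≠ cpart n n (cbyte H i))) &&
  decide (pc N (row N A i) = dA) && decide (pc N (row N B i) = dB) &&
  decide (row N A i &&& row N B i = 0) &&
  decide (row N A i &&& (pmask n c (cpart n n (n + i)) ||| 2 ^ cbyte H i) = 0) &&
  decide (row N B i &&& (pmask n c (cpart n n (cbyte H i)) ||| 2 ^ (n + i)) = 0) &&
  (List.range κ).all fun k =>
    decide (cbyte X (i * κ + k) < N) && decide (cbyte Y (i * κ + k) < N) &&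
    ((List.range κ).all fun k' => decide (k' = k) ||
      (decide (cbyte X (i * κ + k') ≠ cbyte X (i * κ + k)) &&
        decide (cbyte Y (i * κ + k') ≠ cbyte Y (i * κ + k)))) &&
    if k = 0 ∧ S.testBit i = true then decide (cbyte X (i * κ + k) = cbyte Y (i * κ + k)) else
      (row N A i).testBit (cbyte X (i * κ + k)) && (row N B i).testBit (cbyte Y (i * κ + k)) &&
      decide (cpart n n (cbyte X (i * κ + k)) ≠ cpart n n (cbyte Y (i * κ + k)))

/-- Checks at the vertex `u`. -/
def chkV (t n N : ℕ) (adj : Bool) (κ H T A B X Y u : ℕ) : Bool :=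
  (decide (cpart n n u = 1) || (decide (cbyte T u < t) && decide (cbyte H (cbyte T u) = u))) &&
  (decide (n + n ≤ u) || (List.range N).all fun v => decide (cpart n n v ≤ cpart n n u) ||
    (nb n N adj H T A B u).testBit v || (nb n N adj H T A B v).testBit u ||
    (br t N κ X Y).testBit (u * N + v) || (br t N κ X Y).testBit (v * N + u))

/-- Certificate check for a core with bridges. -/
def chk (t n c N : ℕ) (adj : Bool) (dA dB κ S H T A B X Y : ℕ) : Bool :=
  decide (n + c = t) && decide (N = n + n + c) && decide (1 ≤ κ) && decide (pc t S = n * n % t) &&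
  decide (t * (dA + dB + (if adj then 1 else 0) + κ) = n * n + 2 * (n * c) + n * n % t) &&
  (List.range t).all (chkT n c N adj dA dB κ S H T A B X Y) &&
  (List.range N).all (chkV t n N adj κ H T A B X Y)

end CoreCert

open CoreCert in
theorem core0_of_cert {t n : ℕ} (c N : ℕ) (adj : Bool) (dA dB κ S H T A B X Y : ℕ)
    (h : chk t n c N adj dA dB κ S H T A B X Y = true) : Core0 t n (t - n) (n * n % t) := by
  classical
  simp only [chk, chkT, chkV, List.all_eq_true, List.mem_range, Bool.and_eq_true,
    decide_eq_true_eq, Bool.or_eq_true, Bool.not_eq_true', and_assoc] at h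
  obtain ⟨hc, rfl, hκ, hS, hcount, hT, hV⟩ := h
  obtain rfl : c = t - n := by omega
  set c := t - n with hc'
  let S' : Finset (Fin t) := univ.filter fun i => S.testBit i = true
  have cS : S'.card = n * n % t := (pc_eq t S).symm.trans hS
  refine ⟨S', cS, fun π => ?_⟩
  let hA : Fin t → Fin (n + n + c) := fun i => ⟨n + i, by omega⟩
  let hB : Fin t → Fin (n + n + c) := fun i => ⟨cbyte H i, (hT i i.2).1⟩
  let J := {z : Fin t × Fin κ // ¬ (z.2.val = 0 ∧ S.testBit z.1 = true)}
  have hK := fun (i : Fin t) (k : Fin κ) => (hT i i.2).2.2.2.2.2.2.2.2.2.2 k k.2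
  let x : J → Fin (n + n + c) := fun a => ⟨cbyte X (a.1.1 * κ + a.1.2), (hK _ _).1⟩
  let y : J → Fin (n + n + c) := fun a => ⟨cbyte Y (a.1.1 * κ + a.1.2), (hK _ _).2.1⟩
  have hJ : ∀ a : J, (row (n + n + c) A a.1.1).testBit (x a) = true ∧
      (row (n + n + c) B a.1.1).testBit (y a) = true ∧ cpart n n (x a) ≠ cpart n n (y a) := by
    intro a
    have := (hK a.1.1 a.1.2).2.2.2
    rw [if_neg a.2] at this
    simpa only [Bool.and_eq_true, decide_eq_true_eq, and_assoc] using this
  refine Core.mk_sets (V := Fin (n + n + c)) false π S'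
    (fun v => ⟨cpart n n v, cpart_lt _ _ _⟩) (card_cpart n n c) adj
    hA hB (fun i => univ.filter fun v => (row (n + n + c) A i).testBit v = true)
    (fun i => univ.filter fun v => (row (n + n + c) B i).testBit v = true) dA dB κ
    (fun a : J => a.1.1) x y ?_ ?_ ?_ ?_ ?_ ?_ ?_ ?_ ?_ ?_ ?_ (by simp) ?_ ?_ (by simp) ?_ ?_ ?_
    (by rw [Fintype.card_fin, cS, hcount]) ?_ <;>
    try simp only [ne_eq, Fin.ext_iff, mem_filter, mem_univ, true_and, Fin.val_zero, Fin.val_one,
      hA, hB]
  · intro i j e
    simp only [hA, Fin.ext_iff] at e ⊢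
    omega
  · intro i j e
    have e' : cbyte H i = cbyte H j := congrArg Fin.val e
    exact Fin.ext ((hT i i.2).2.2.1.symm.trans (e' ▸ (hT j j.2).2.2.1))
  · intro v
    have := v.2
    refine ⟨fun h => ?_, fun ⟨i, h⟩ => ?_⟩
    · have : n ≤ v.val := by
        by_contra h'
        exact h (if_pos (by omega))
      exact ⟨⟨v - n, by omega⟩, by simp only; omega⟩
    · rw [cpart, if_neg (by omega)]
      split_ifs <;> decide
  · intro v
    refine ⟨fun h => ?_, fun ⟨i, h⟩ => h ▸ (hT i i.2).2.1⟩
    obtain ⟨h1, h2⟩ := (hV v v.2).1.resolve_left h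
    exact ⟨⟨_, h1⟩, h2⟩
  · exact fun i => (hT i i.2).2.2.2.1
  · exact fun h i => (hT i i.2).2.2.2.2.1.resolve_left (by simp [h])
  · exact fun i => (pc_eq _ _).symm.trans (hT i i.2).2.2.2.2.2.1
  · exact fun i => (pc_eq _ _).symm.trans (hT i i.2).2.2.2.2.2.2.1
  · intro i
    rw [disjoint_filter]
    intro v _ h
    simp [and_zero (hT i i.2).2.2.2.2.2.2.2.1 h]
  · intro i v h
    have := and_zero (hT i i.2).2.2.2.2.2.2.2.2.1 h
    rw [Nat.testBit_or, Bool.or_eq_false_iff, Nat.testBit_two_pow, decide_eq_false_iff_not] at this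
    refine ⟨fun e => ?_, fun e => this.2 e.symm⟩
    rw [← e, pmask_bit v.2] at this
    exact Bool.noConfusion this.1
  · intro i v h
    have := and_zero (hT i i.2).2.2.2.2.2.2.2.2.2.1 h
    rw [Nat.testBit_or, Bool.or_eq_false_iff, Nat.testBit_two_pow, decide_eq_false_iff_not] at this
    refine ⟨fun e => ?_, fun e => this.2 e.symm⟩
    rw [← e, pmask_bit v.2] at this
    exact Bool.noConfusion this.1
  · exact fun a => (hJ a).1
  · exact fun _ a => (hJ a).2.1
  · rintro ⟨⟨i, k⟩, ha⟩ ⟨⟨j, k'⟩, hb⟩ e h
    obtain rfl : i = j := Fin.ext e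
    rcases (hK i k').2.2.1 k k.2 with h' | h'
    · obtain rfl : k = k' := Fin.ext h'
      rfl
    · exact absurd h (not_or.2 h')
  · intro i
    have e : (univ.filter fun a : J => a.1.1.val = i.val).card =
        (univ.filter fun k : Fin κ => ¬ (k.val = 0 ∧ S.testBit i = true)).card := by
      refine card_bij (fun a _ => a.1.2) (fun a ha => ?_) (fun a ha b hb e => ?_) fun k hk => ?_
      · have := a.2
        rw [(mem_filter.1 ha).2] at this
        exact mem_filter.2 ⟨mem_univ _, this⟩
      · exact Subtype.ext (Prod.ext (Fin.ext ((mem_filter.1 ha).2.trans (mem_filter.1 hb).2.symm))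
          e)
      · exact ⟨⟨(i, k), (mem_filter.1 hk).2⟩, mem_filter.2 ⟨mem_univ _, rfl⟩, rfl⟩
    have e1 := card_filter_add_card_filter_not (s := univ)
      fun k : Fin κ => k.val = 0 ∧ S.testBit i = true
    have e2 : (univ.filter fun k : Fin κ => k.val = 0).card = 1 :=
      card_eq_one.2 ⟨⟨0, hκ⟩, by ext k; simp [Fin.ext_iff]⟩
    rw [card_univ, Fintype.card_fin, ← e] at e1
    by_cases hi : S.testBit i = true
    · simp only [hi, and_true, e2] at e1
      rw [if_pos (by simp [S', hi])]
      omega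
    · simp only [hi, Bool.false_eq_true, and_false, filter_false, card_empty] at e1
      rw [if_neg (by simp [S', hi])]
      omega
  · exact fun a => (hJ a).2.2
  · have k1 : ∀ u v : Fin (n + n + c), (nb n (n + n + c) adj H T A B u).testBit v = true →
        ∃ i : Fin t, (n + i = u ∧ (row (n + n + c) A i).testBit v = true) ∨
          (cbyte H i = u ∧ (row (n + n + c) B i).testBit v = true) ∨
          (adj = true ∧ n + i = u ∧ cbyte H i = v) := by
      intro u v h
      have := u.2
      rw [nb, Nat.testBit_or, Bool.or_eq_true] at h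
      rcases h with h | h
      · by_cases hu : n ≤ u.val
        · rw [if_pos hu, Nat.testBit_or, Bool.or_eq_true] at h
          refine ⟨⟨u - n, by omega⟩, h.imp (fun h => ⟨by simp only; omega, h⟩) fun h => .inr ?_⟩
          cases adj
          · simp at h
          · exact ⟨rfl, by simp only; omega, by simpa [Nat.testBit_two_pow] using h⟩
        · simp [hu] at h
      · by_cases hu : cpart n n u = 1
        · simp [hu] at h
        · rw [if_neg hu] at h
          obtain ⟨h1, h2⟩ := (hV u u.2).1.resolve_left hu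
          exact ⟨⟨_, h1⟩, .inr (.inl ⟨h2, h⟩)⟩
    have k2 : ∀ u v : Fin (n + n + c), cpart n n u ≠ cpart n n v →
        (br t (n + n + c) κ X Y).testBit (u * (n + n + c) + v) = true →
        ∃ a : J, (x a).val = u ∧ (y a).val = v := by
      intro u v huv h
      rw [br, testBit_foldl] at h
      simp only [Nat.zero_testBit, Bool.false_eq_true, false_or, List.mem_flatMap, List.mem_map,
        List.mem_range, id] at h
      obtain ⟨_, ⟨i, hi, k, hk, rfl⟩, e⟩ := h
      have hk' := hK ⟨i, hi⟩ ⟨k, hk⟩
      obtain ⟨e1, e2⟩ := pos_inj hk'.2.1 v.2 e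
      refine ⟨⟨(⟨i, hi⟩, ⟨k, hk⟩), fun hh => ?_⟩, e1, e2⟩
      have := hk'.2.2.2
      rw [if_pos hh, decide_eq_true_eq, e1, e2] at this
      exact huv (by rw [this])
    intro u v huv
    have huv' : cpart n n u < cpart n n v := huv
    have hu : ¬ n + n ≤ u.val := fun h => by
      have := cpart_lt n n v
      rw [cpart, if_neg (by omega), if_neg (by omega)] at huv'
      omega
    rcases ((hV u u.2).2.resolve_left hu) v v.2 with (((h | h) | h) | h) | h
    · omega
    · obtain ⟨i, h⟩ := k1 u v h
      exact .inl ⟨i, by tauto⟩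
    · obtain ⟨i, h⟩ := k1 v u h
      exact .inl ⟨i, by tauto⟩
    · obtain ⟨a, h⟩ := k2 u v huv'.ne h
      exact .inr ⟨a, .inl h⟩
    · obtain ⟨a, h⟩ := k2 v u huv'.ne' h
      exact .inr ⟨a, .inr h⟩

end Pool.Agent.Lib.MP_351560_co
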