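import Mathlib
import Pool.Agent.Lib.MP_351560_co.L2Def

set_option autoImplicit false
set_option linter.unusedSimpArgs false
set_option linter.unusedVariables false

namespace Pool.Agent.Lib.MP_351560_co

lemma cdiv_spec93 (a : ℕ) {n : ℕ} (hn : 0 < n) : a ≤ n * cdiv a n ∧ n * cdiv a n < a + n := by
  have h1 := Nat.div_add_mod (a + n - 1) n
  have h2 := Nat.mod_lt (a + n - 1) hn
  unfold cdiv
  omega

lemma div_spec93 (a : ℕ) {n : ℕ} (hn : 0 < n) : n * (a / n) ≤ a ∧ a < n * (a / n) + n := by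
  have h1 := Nat.div_add_mod a n
  have h2 := Nat.mod_lt a hn
  omega

lemma g3side93 {t n k u d lo hi g : ℕ} (hn : 18 ≤ n) (ht : 4 * n ≤ t + 1) (hk : k ≤ 1) (hu : 1 ≤ u)
    (hu' : u + 15 ≤ n) (hg : n * g ≤ t + n) (hhi : hi + 1 ≤ d)
    (hlo : n * (d - 1 - lo) ≤ u * (t - n)) (hsp : hi ≤ lo + 3) (hu1 : u = 1 → n * n ≤ 3 * t) :
    G3Side t n k u d lo hi g := by
  refine ⟨hu, by omega, hhi, ?_⟩
  obtain ⟨c, rfl⟩ : ∃ c, t = n + c := ⟨t - n, by omega⟩
  simp only [Nat.add_sub_cancel_left] at hlo ⊢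
  generalize hx : d - 1 - lo = x at *
  split_ifs with h
  · have h1 := hu1 h
    subst h
    have h2 : 2 * g + 2 + x + 2 * n ≤ c := by
      refine Nat.le_of_mul_le_mul_left (c := n) ?_ (by omega)
      nlinarith
    refine ⟨by omega, le_max_of_le_left ?_⟩
    calc _ ≤ (g + 2) * 1 := Nat.mul_le_mul (by omega) (by omega)
      _ ≤ _ := by omega
  · have h2 : 4 * g + 22 + x ≤ c := by
      refine Nat.le_of_mul_le_mul_left (c := n) ?_ (by omega)
      obtain ⟨m, rfl⟩ : ∃ m, n = u + 15 + m := ⟨n - u - 15, by omega⟩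
      nlinarith
    refine ⟨by omega, le_max_of_le_left ?_⟩
    calc _ ≤ (g + 6) * 3 := Nat.mul_le_mul (by omega) (by omega)
      _ ≤ 1 * (c - 4 - g - x) := by omega
      _ ≤ _ := Nat.mul_le_mul_right _ (by omega)

theorem g3_num93 {t n : ℕ} (hn : 18 ≤ n) (ht : 4 * n ≤ t + 1) (h2 : t < n * n + n) :
    ∃ k u w R1 R2 TB, G3P t n k u w R1 R2 TB := by
  have e1 := Nat.div_add_mod (n * n) t
  have e2 := Nat.mod_lt (n * n) (show 0 < t by omega)
  generalize hq : n * n / t = q at *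
  generalize hs : n * n % t = s at *
  have hq4 : 4 * q ≤ n := by
    by_contra h
    have : t * q ≥ (4 * n - 1) * q := Nat.mul_le_mul_right _ (by omega)
    obtain ⟨m, rfl⟩ : ∃ m, n = m + 1 := ⟨n - 1, by omega⟩
    have e : 4 * (m + 1) - 1 = 4 * m + 3 := by omega
    rw [e] at this
    nlinarith
  obtain ⟨k, R1, R2, hk⟩ : ∃ k R1 R2, (k = 0 ∧ R1 + 2 * n + s = t ∧ R2 = 0 ∨
      k = 1 ∧ R1 + 2 * n = t ∧ R2 + s = t ∧ R2 < 2 * n) := by
    by_cases h : 2 * n + s ≤ t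
    · exact ⟨0, t - 2 * n - s, 0, .inl ⟨rfl, by omega, rfl⟩⟩
    · exact ⟨1, t - 2 * n, t - s, .inr ⟨rfl, by omega, by omega, by omega⟩⟩
  have hq0 : q = 0 → k = 1 := by
    rintro rfl
    omega
  obtain ⟨u, w, h1, h3, h4, h5⟩ : ∃ u w, u + w = q + 1 + k ∧ w ≤ u ∧ u ≤ w + 1 ∧ 1 ≤ w :=
    ⟨(q + 2 + k) / 2, (q + 1 + k) / 2, by omega, by omega, by omega, by omega⟩
  obtain ⟨c, rfl⟩ : ∃ c, t = n + c := ⟨t - n, by omega⟩
  have hw1 : w = 1 → n * n ≤ 3 * (n + c) := by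
    rintro rfl
    have : (n + c) * q ≤ (n + c) * 2 := Nat.mul_le_mul_left _ (by omega)
    omega
  have hA : w * c + u * n ≤ n * n + n := by
    rcases Nat.eq_zero_or_pos q with rfl | h
    · obtain ⟨rfl, rfl⟩ : u = 1 ∧ w = 1 := by omega
      omega
    · have : (n + c) * w ≤ (n + c) * q := Nat.mul_le_mul_left _ (by omega)
      have : u * n ≤ (w + 1) * n := Nat.mul_le_mul_right _ h4
      nlinarith
  have hB : u * c + w * n ≤ n * n + n := by
    rcases Nat.eq_zero_or_pos q with rfl | h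
    · obtain ⟨rfl, rfl⟩ : u = 1 ∧ w = 1 := by omega
      omega
    by_cases h' : u ≤ q
    · have : (n + c) * u ≤ (n + c) * q := Nat.mul_le_mul_left _ h'
      have : w * n ≤ u * n := Nat.mul_le_mul_right _ h3
      nlinarith
    · obtain ⟨rfl, rfl, rfl, rfl⟩ : q = 1 ∧ k = 1 ∧ u = 2 ∧ w = 1 := by omega
      omega
  obtain ⟨TB, hTB⟩ : ∃ TB, TB + u * c + w * n = n * n + n := ⟨n * n + n - (u * c + w * n), by omega⟩
  obtain ⟨TA, hTA⟩ : ∃ TA, TA + w * c + u * n = n * n + n := ⟨n * n + n - (w * c + u * n), by omega⟩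
  have hsum : R1 + TB + TA + R2 = n * n := by
    have : (u + w) * (n + c) = (q + 1 + k) * (n + c) := by rw [h1]
    rcases hk with ⟨rfl, h, rfl⟩ | ⟨rfl, h, h', -⟩ <;> nlinarith
  have hn0 : 0 < n := by omega
  have a1 := cdiv_spec93 R1 hn0
  have a2 := cdiv_spec93 R2 hn0
  have hg : n * (cdiv R1 n + cdiv R2 n) ≤ n + c + n := by
    have : cdiv R2 n ≤ 2 := by
      by_contra h
      have : n * 3 ≤ n * cdiv R2 n := Nat.mul_le_mul_left _ (by omega)
      omega
    have : n * cdiv R2 n ≤ n * 2 := Nat.mul_le_mul_left _ this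
    rw [mul_add]
    omega
  obtain ⟨dB, hdB⟩ : ∃ dB, dB + w = n := ⟨n - w, by omega⟩
  obtain ⟨dA, hdA⟩ : ∃ dA, dA + u = n := ⟨n - u, by omega⟩
  have b1 : n * dB + w * n = n * n := by rw [← hdB]; ring
  have b2 : n * dA + u * n = n * n := by rw [← hdA]; ring
  have hwc : 3 * n ≤ w * c := by
    rcases h5.eq_or_lt with h | h
    · have := hw1 h.symm
      subst h
      nlinarith
    · have : 2 * c ≤ w * c := Nat.mul_le_mul_right _ h
      omega
  have huc : w * c ≤ u * c := Nat.mul_le_mul_right _ h3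
  have lt_of : ∀ a b : ℕ, n * a < n * b → a < b := fun a b h => Nat.lt_of_mul_lt_mul_left h
  refine ⟨k, u, w, R1, R2, TB, by omega, ht, by rw [hq, h1], by rw [hs]; exact hk, ?_, by omega,
    ?_, ?_⟩
  · obtain ⟨u', rfl⟩ : ∃ u', u = u' + 1 := ⟨u - 1, by omega⟩
    obtain ⟨e, rfl⟩ : ∃ e, c = 2 * n + e := ⟨c - 2 * n, by omega⟩
    obtain ⟨d, rfl⟩ : ∃ d, dB = d + 1 := ⟨dB - 1, by omega⟩
    rw [show n + (2 * n + e) - 3 * n = e by omega, show n - w - 1 = d by omega,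
      Nat.add_sub_cancel]
    nlinarith
  · have c1 := cdiv_spec93 TB hn0
    have c2 := div_spec93 TB hn0
    rw [show n - w = dB by omega]
    refine g3side93 hn ht (by omega) (by omega) (by omega) hg (lt_of _ _ (by omega)) ?_ ?_
      fun h => hw1 (by omega)
    · rw [Nat.add_sub_cancel_left, Nat.mul_sub, Nat.mul_sub]
      omega
    · have := lt_of (cdiv TB n) (TB / n + 2) (by rw [mul_add]; omega)
      omega
  · have c1 := cdiv_spec93 (R1 + TB) hn0
    have c2 := div_spec93 (R1 + TB) hn0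
    have c3 := cdiv_spec93 (n * n - R2) hn0
    have c4 := div_spec93 (n * n - R2) hn0
    rw [show n - u = dA by omega]
    refine g3side93 hn ht (by omega) h5 (by omega) hg (lt_of _ _ ?_) ?_ ?_ hw1
    · rw [Nat.mul_sub]
      omega
    · rw [Nat.add_sub_cancel_left, Nat.mul_sub, Nat.mul_sub, Nat.mul_sub]
      omega
    · have := lt_of (cdiv (n * n - R2) n) ((n * n - R2) / n + 2) (by rw [mul_add]; omega)
      have := lt_of (cdiv (R1 + TB) n) ((R1 + TB) / n + 2) (by rw [mul_add]; omega)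
      omega

end Pool.Agent.Lib.MP_351560_co
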