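import Mathlib
import Pool.Agent.Lib.MP_351560_co.L2Def

set_option autoImplicit false
set_option linter.unusedSimpArgs false
set_option linter.unusedVariables false
set_option linter.unusedSectionVars false

namespace Pool.Agent.Lib.MP_351560_co

open Finset

namespace Sp

/-- Difference modulo `t`. -/
def sb (t k i : ℕ) : ℕ := if i ≤ k then k - i else k + t - i

lemma sb_eq {t : ℕ} [NeZero t] (k i : Fin t) : (k - i).val = sb t k i := by
  unfold sb
  split_ifs with h
  · exact Fin.sub_val_of_le h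
  · rw [Fin.coe_sub_iff_lt.2 (by omega)]
    omega

def fP (t d : ℕ) : ℕ := if d = 0 then 1 else if d + 3 = t then 6 else if d = 2 then 2 else 4

def fZ (t c d : ℕ) : ℕ := if d = 0 then 0 else if d = c ∨ d = 3 ∨ d + 2 = t then 4 else 3

def fX (t i : ℕ) : ℕ := if i = 0 then 1 else if i = 1 then 0 else if i = 3 then 6 else
  if i + 2 = t then 2 else if i + 1 = t then 4 else 3

def cc (i : ℕ) : ℕ := if i = 0 then 1 else 2

def fA (t i k : ℕ) : ℕ := if k = 0 then fX t i else fP t (sb t k i)

def fB (t i l : ℕ) : ℕ := fZ t (cc i) (sb t l i)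

def ind (a l : ℕ) : ℕ := if a = l then 1 else 0

def kp (a b : ℕ) : Prop := (a = 0 ∧ (b = 1 ∨ b = 2 ∨ b = 6)) ∨ (a = 1 ∧ b = 3)

lemma cntP {t : ℕ} [NeZero t] (l : ℕ) (i : Fin t) :
    (∑ k : Fin t, ind (fP t (sb t k i)) l) =
      ∑ d : Fin t, ind (fP t d) l :=
  Fintype.sum_equiv (Equiv.subRight i) _ _ fun k => by
    rw [Equiv.subRight_apply, sb_eq]

lemma cntZ {t : ℕ} [NeZero t] (ht : 7 ≤ t) (l : ℕ) (i : Fin t) :
    (∑ k : Fin t, ind (fB t i k) l) =
      ∑ d : Fin t, ind (fZ t 2 d) l := by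
  have h1 : (∑ k : Fin t, ind (fB t i k) l) =
      ∑ d : Fin t, ind (fZ t (cc i) d) l :=
    Fintype.sum_equiv (Equiv.subRight i) _ _ fun k => by
      rw [Equiv.subRight_apply, sb_eq, fB]
  rw [h1]
  unfold cc
  split_ifs with h
  · refine Fintype.sum_equiv (Equiv.swap (⟨1, by omega⟩ : Fin t) ⟨2, by omega⟩) _ _ fun d => ?_
    have : fZ t 1 d = fZ t 2 (Equiv.swap (⟨1, by omega⟩ : Fin t) ⟨2, by omega⟩ d : Fin t) := by
      rw [Equiv.swap_apply_def]
      split_ifs with a1 a2
      · subst a1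
        simp [fZ]
      · subst a2
        simp only [fZ]
        split_ifs <;> omega
      · simp only [Fin.ext_iff] at a1 a2
        simp only [fZ]
        split_ifs <;> omega
    rw [this]
  · rfl

lemma cntX {t : ℕ} (ht : 7 ≤ t) (l i : ℕ) (hi : i < t) :
    (ind (fX t i) l) + (ind (4) l) =
      (ind (fP t (sb t 0 i)) l) + ind (fB t i 1) l := by
  have : (fX t i = fP t (sb t 0 i) ∧ fB t i 1 = 4) ∨ (fX t i = fB t i 1 ∧ fP t (sb t 0 i) = 4) := by
    unfold fX fB fP fZ sb cc
    split_ifs <;> omega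
  rcases this with ⟨h1, h2⟩ | ⟨h1, h2⟩
  · rw [h1, h2]
  · rw [h1, h2, add_comm]

lemma cntAB {t : ℕ} [NeZero t] (ht : 7 ≤ t) (l : ℕ) (i : Fin t) :
    (∑ k : Fin t, ind (fA t i k) l) +
      (∑ k : {k : Fin t // k.val ≠ 1}, ind (fB t i k.1) l) + (ind (4) l) =
      (∑ d : Fin t, ind (fP t d) l) + ∑ d : Fin t, ind (fZ t 2 d) l := by
  rw [← cntP l i, ← cntZ ht l i]
  have e1 := add_sum_erase univ (fun k : Fin t => ind (fA t i k) l) (mem_univ 0)
  have e2 := add_sum_erase univ (fun k : Fin t => ind (fP t (sb t k i)) l)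
    (mem_univ 0)
  have e3 := add_sum_erase univ (fun k : Fin t => ind (fB t i k) l)
    (mem_univ ⟨1, by omega⟩)
  have e4 : (∑ k ∈ univ.erase (0 : Fin t), ind (fA t i k) l) =
      ∑ k ∈ univ.erase (0 : Fin t), ind (fP t (sb t k i)) l :=
    sum_congr rfl fun k hk => by
      have : k.val ≠ 0 := fun h => (mem_erase.1 hk).1 (Fin.ext h)
      rw [fA, if_neg this]
  have e5 := sum_subtype (p := fun k : Fin t => k.val ≠ 1) (F := inferInstance)
    (univ.erase (⟨1, by omega⟩ : Fin t)) (by simp [Fin.ext_iff])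
    (fun k : Fin t => ind (fB t i k) l)
  have e6 := cntX ht l i i.2
  simp only [Fin.val_zero] at e1 e2 e3 e5
  rw [show fA t i 0 = fX t i from if_pos rfl] at e1
  omega

section
variable {t i k : ℕ} (ht : 7 ≤ t) (hi : i < t) (hk : k < t)
include ht hi hk

lemma fA1 : fA t i k = 1 ↔ k = i := by
  unfold fA fX fP sb
  split_ifs <;> first | omega | (simp only [false_iff]; omega) | simp

lemma fA6 : fA t i k = 6 ↔ k + 3 = i ∨ k + 3 = i + t := by
  unfold fA fX fP sb
  split_ifs <;> first | omega | (simp only [false_iff]; omega) | simp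

lemma fA2 : fA t i k = 2 ↔ k = i + 2 ∨ k + t = i + 2 := by
  unfold fA fX fP sb
  split_ifs <;> first | omega | (simp only [false_iff]; omega) | simp

lemma fA0 : fA t i k = 0 ↔ k = 0 ∧ i = 1 := by
  unfold fA fX fP sb
  split_ifs <;> first | omega | (simp only [false_iff]; omega) | simp

lemma fA3 : fA t i k = 3 ↔ k = 0 ∧ i ≠ 0 ∧ i ≠ 1 ∧ i ≠ 3 ∧ i + 2 ≠ t ∧ i + 1 ≠ t := by
  unfold fA fX fP sb
  split_ifs <;> first | omega | (simp only [false_iff]; omega) | simp

lemma fB0 : fB t i k = 0 ↔ k = i := by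
  unfold fB fZ sb
  split_ifs <;> first | omega | (simp only [false_iff]; omega) | simp

lemma fB1 : ¬ fB t i k = 1 := by
  unfold fB fZ
  split_ifs <;> first | omega | (simp only [false_iff]; omega) | simp

lemma fB2 : ¬ fB t i k = 2 := by
  unfold fB fZ
  split_ifs <;> first | omega | (simp only [false_iff]; omega) | simp

lemma fB6 : ¬ fB t i k = 6 := by
  unfold fB fZ
  split_ifs <;> first | omega | (simp only [false_iff]; omega) | simp

lemma fB3 : fB t i k = 3 ↔ k ≠ i ∧ (i = 0 → k ≠ 1) ∧ (i ≠ 0 → k ≠ i + 2 ∧ k + t ≠ i + 2) ∧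
    k ≠ i + 3 ∧ k + t ≠ i + 3 ∧ k + 2 ≠ i ∧ k + 2 ≠ i + t := by
  unfold fB fZ sb cc
  split_ifs <;> first | omega | (simp only [false_iff]; omega) | simp

end

/-- The vertices. -/
abbrev Vx (t β : ℕ) : Type := Fin t ⊕ {k : Fin t // k.val ≠ 1} ⊕ Bool ⊕ Fin β

def pt {t β : ℕ} : Vx t β → Fin 3
  | .inl k => if k.val = 0 then 2 else 0
  | .inr (.inl _) => 1
  | .inr (.inr (.inl _)) => 0
  | .inr (.inr (.inr _)) => 1

def lab {t β : ℕ} (i : Fin t) : Vx t β → ℕ
  | .inl k => fA t i k
  | .inr (.inl l) => fB t i l.1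
  | .inr (.inr (.inl _)) => 6
  | .inr (.inr (.inr _)) => 3

lemma exists_xy {t β : ℕ} (ht : 7 ≤ t) (hβ : 2 * β = t + 1) :
    ∃ x y : Fin t × Bool → Vx t β,
      (∀ i b k, x (i, b) = .inl k ↔ b = true ∧ i.val ≠ 3 ∧ (k.val + 3 = i ∨ k.val + 3 = i + t)) ∧
      (∀ a l, ¬ x a = .inr (.inl l)) ∧
      (∀ i b j, x (i, b) = .inr (.inr (.inl j)) ↔ (b = true ∧ i.val = 3 ∧ j = true) ∨
        (b = false ∧ (j = true ↔ β ≤ i.val))) ∧
      (∀ a r, ¬ x a = .inr (.inr (.inr r))) ∧
      (∀ i b k, y (i, b) = .inl k ↔ b = true ∧ i.val = 2 ∧ k.val = 0) ∧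
      (∀ i b l, y (i, b) = .inr (.inl l) ↔ b = true ∧ i.val ≠ 3 ∧
        (l.1.val + 1 = i ∨ l.1.val + 1 = i + t)) ∧
      (∀ a j, ¬ y a = .inr (.inr (.inl j))) ∧
      ∀ i b r, y (i, b) = .inr (.inr (.inr r)) ↔ (b = true ∧ i.val = 3 ∧ r.val = 0) ∨
        (b = false ∧ (r.val = i ∨ (β ≤ i.val ∧ r.val + β = i + 1))) := by
  refine ⟨fun a => if a.2 then (if a.1.val = 3 then .inr (.inr (.inl true)) else
      .inl ⟨sb t a.1 3, by have := a.1.2; unfold sb; split_ifs <;> omega⟩) else
      .inr (.inr (.inl (decide (β ≤ a.1.val)))),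
    fun a => if a.2 then (if a.1.val = 3 then .inr (.inr (.inr ⟨0, by omega⟩)) else
      if h : a.1.val = 2 then .inl ⟨0, by omega⟩ else
      .inr (.inl ⟨⟨sb t a.1 1, by have := a.1.2; unfold sb; split_ifs <;> omega⟩, by
        have := a.1.2
        simp only [sb]
        split_ifs <;> omega⟩)) else
      .inr (.inr (.inr ⟨if a.1.val < β then a.1.val else a.1.val + 1 - β, by
        have := a.1.2
        split_ifs <;> omega⟩)), ?_, ?_, ?_, ?_, ?_, ?_, ?_, ?_⟩
  · rintro ⟨i, hi⟩ (_ | _) ⟨k, hk⟩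
    · simp
    · by_cases h : i = 3
      · simp [h]
      · simp only [h, if_true, if_false, Sum.inl.injEq, Fin.mk.injEq, sb, true_and]
        split_ifs <;> omega
  · rintro ⟨i, _ | _⟩ l
    · simp
    · by_cases h : i.val = 3 <;> simp [h]
  · rintro i (_ | _) j
    · cases j <;> simp
    · by_cases h : i.val = 3 <;> simp [h]
  · rintro ⟨i, _ | _⟩ l
    · simp
    · by_cases h : i.val = 3 <;> simp [h]
  · rintro ⟨i, hi⟩ (_ | _) ⟨k, hk⟩
    · simp
    · by_cases h : i = 3
      · simp [h]
      · by_cases h' : i = 2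
        · simp [h', eq_comm]
        · simp [h, h']
  · rintro ⟨i, hi⟩ (_ | _) ⟨⟨k, hk⟩, hk'⟩
    · simp
    · by_cases h : i = 3
      · simp [h]
      · by_cases h' : i = 2
        · simp only [h'] at hk' ⊢
          simp
          omega
        · simp only [h, h', if_true, if_false, dif_neg, not_false_eq_true, Sum.inl.injEq,
            Sum.inr.injEq, Subtype.mk.injEq, Fin.mk.injEq, sb, true_and]
          split_ifs <;> omega
  · rintro ⟨i, _ | _⟩ l
    · simp
    · by_cases h : i.val = 3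
      · simp [h]
      · by_cases h' : i.val = 2 <;> simp [h, h']
  · rintro ⟨i, hi⟩ (_ | _) ⟨r, hr⟩
    · simp only [Bool.false_eq_true, if_false, Sum.inr.injEq, Fin.mk.injEq, false_and, false_or,
        true_and]
      split_ifs <;> omega
    · by_cases h : i = 3
      · simp [h, eq_comm]
      · by_cases h' : i = 2 <;> simp [h, h']

lemma lf {t β : ℕ} (ht : 7 ≤ t) (hβ : 2 * β = t + 1) : LF (pt (t := t) (β := β)) t lab := by
  have : NeZero t := ⟨by omega⟩
  obtain ⟨x, y, x1, x2, x3, x4, y1, y2, y3, y4⟩ := exists_xy ht hβ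
  have A0 := fun i k : Fin t => fA0 ht i.2 k.2
  have A1 := fun i k : Fin t => fA1 ht i.2 k.2
  have A2 := fun i k : Fin t => fA2 ht i.2 k.2
  have A3 := fun i k : Fin t => fA3 ht i.2 k.2
  have A6 := fun i k : Fin t => fA6 ht i.2 k.2
  have B0 := fun i k : Fin t => fB0 ht i.2 k.2
  have B1 := fun i k : Fin t => fB1 ht i.2 k.2
  have B2 := fun i k : Fin t => fB2 ht i.2 k.2
  have B3 := fun i k : Fin t => fB3 ht i.2 k.2
  have B6 := fun i k : Fin t => fB6 ht i.2 k.2
  have lx : ∀ a, lab a.1 (x a) = 6 := by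
    rintro ⟨i, b⟩
    rcases h : x (i, b) with k | l | j | r
    · exact (A6 i k).2 ((x1 _ _ _).1 h).2.2
    · exact absurd h (x2 _ _)
    · rfl
    · exact absurd h (x4 _ _)
  have ly : ∀ a, lab a.1 (y a) = 3 := by
    rintro ⟨i, b⟩
    rcases h : y (i, b) with k | l | j | r
    · have := (y1 _ _ _).1 h
      exact (A3 i k).2 (by omega)
    · have := (y2 _ _ _).1 h
      have := l.2
      have := l.1.2
      exact (B3 i l.1).2 (by omega)
    · exact absurd h (y3 _ _)
    · rfl
  refine LF.of_match pt t lab kp Prod.fst x y ?_ ?_ ?_ ?_ ?_ ?_ ?_ ?_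
  · rintro ⟨i, b⟩ ⟨i', b'⟩ (rfl : i = i') e
    rcases h : x (i, b') with k | l | j | r
    · rw [h] at e
      rw [((x1 _ _ _).1 h).1, ((x1 _ _ _).1 e).1]
    · exact absurd h (x2 _ _)
    · rw [h] at e
      have a1 := (x3 _ _ _).1 h
      have a2 := (x3 _ _ _).1 e
      cases b <;> cases b' <;> simp at a1 a2 ⊢
      · simp [a1.2] at a2
        omega
      · simp [a2.2] at a1
        omega
    · exact absurd h (x4 _ _)
  · rintro ⟨i, b⟩ ⟨i', b'⟩ (rfl : i = i') e
    rcases h : y (i, b') with k | l | j | r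
    · rw [h] at e
      rw [((y1 _ _ _).1 h).1, ((y1 _ _ _).1 e).1]
    · rw [h] at e
      rw [((y2 _ _ _).1 h).1, ((y2 _ _ _).1 e).1]
    · exact absurd h (y3 _ _)
    · rw [h] at e
      have a1 := (y4 _ _ _).1 h
      have a2 := (y4 _ _ _).1 e
      cases b <;> cases b' <;> simp at a1 a2 ⊢ <;> omega
  · intro a b e1 e2
    have a1 := lx a
    have a2 := ly b
    rw [e1, e2, a2] at a1
    omega
  · rintro i (k | l | j | r) (k' | l' | j' | r') hk <;>
      simp only [lab, kp, A0, A1, A2, A3, A6, B0, B1, B2, B3, B6] at hk <;>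
      simp only [pt] <;> (try split_ifs) <;> first | decide | omega | (simp at hk; done) | (simp at hk; omega)
  · rintro ⟨i, b⟩
    rcases h : x (i, b) with k | l | j | r
    · have a1 := (x1 _ _ _).1 h
      have := i.2
      have hk : ¬ k.val = 0 := by omega
      rcases h' : y (i, b) with k' | l' | j' | r'
      · simp [pt, hk, ((y1 _ _ _).1 h').2.2]
      · simp [pt, hk]
      · exact absurd h' (y3 _ _)
      · simp [pt, hk]
    · exact absurd h (x2 _ _)
    · rcases h' : y (i, b) with k' | l' | j' | r'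
      · simp [pt, ((y1 _ _ _).1 h').2.2]
      · simp [pt]
      · exact absurd h' (y3 _ _)
      · simp [pt]
    · exact absurd h (x4 _ _)
  · have ex : ∀ (i : Fin t) (q : Fin t × Bool → Prop),
        (∃ a : Fin t × Bool, a.1 = i ∧ q a) ↔ q (i, true) ∨ q (i, false) := fun i q => by
      constructor
      · rintro ⟨⟨i', _ | _⟩, rfl, h⟩
        exacts [.inr h, .inl h]
      · rintro (h | h)
        exacts [⟨_, rfl, h⟩, ⟨_, rfl, h⟩]
    have fin : ∀ (q : Fin t → Prop) (w : ℕ), w < t → (∀ i : Fin t, i.val < t → (q i ↔ i.val = w)) →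
        ∃! i : Fin t, q i := fun q w hw h =>
      ⟨⟨w, hw⟩, (h ⟨w, hw⟩ hw).2 rfl, fun j hj => Fin.ext ((h j j.2).1 hj)⟩
    rintro (k | l | j | r) (k' | l' | j' | r') hp <;> simp only [pt] at hp <;>
      (try split_ifs at hp) <;> (try exact absurd hp (by decide)) <;>
      simp only [ex, lab, kp, A0, A1, A2, A3, A6, B0, B1, B2, B3, B6, x1, x2, x3, x4, y1, y2, y3,
        y4, Bool.false_eq_true, Bool.true_eq_false, true_and, and_true, false_and, and_false,
        false_or, or_false, or_true, Nat.reduceEqDiff]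
    · have := k.2
      refine fin _ (if k.val = 1 ∨ k.val = 3 ∨ k.val + 2 = t then 1 else
        if k.val + 1 = t then 2 else k.val) ?_ fun i hi => ?_ <;> split_ifs <;> omega
    · have := k.2
      have := l'.1.2
      have := l'.2
      refine fin _ (if l'.1.val + 2 = k ∨ l'.1.val + 2 = k + t ∨ l'.1.val = k + 3 ∨
        l'.1.val + t = k + 3 then l'.1.val else if l'.1.val = k + 2 ∨ l'.1.val + t = k + 2 then
        (if l'.1.val + 1 = t then 0 else l'.1.val + 1) else k.val) ?_ fun i hi => ?_ <;>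
        split_ifs <;> omega
    · have := k.2
      have := r'.2
      exact fin _ k.val k.2 fun i hi => by omega
    · have := l.1.2
      have := l.2
      refine fin _ (if l.1.val = 3 ∨ l.1.val + 2 = t then l.1.val else 0) ?_ fun i hi => ?_ <;>
        split_ifs <;> omega
    · exact fin _ 1 (by omega) fun i hi => by
        cases j <;> simp only [Bool.false_eq_true, and_false, false_and, and_true, or_false] <;>
          omega
    · have := l'.1.2
      have := l'.2
      exact fin _ l'.1.val l'.1.2 fun i hi => by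
        cases j <;> simp <;> omega
    · have := r'.2
      cases j
      · exact fin _ r'.val (by omega) fun i hi => by
          simp
          omega
      · refine fin _ (if r'.val = 0 then 3 else r'.val + β - 1) ?_ fun i hi => ?_ <;>
          split_ifs <;> (try simp) <;> omega
    · exact fin _ 0 (by omega) fun i hi => by omega
  · intro l l' i j
    have key : ∀ i : Fin t, (univ.filter fun a : Fin t × Bool => a.1 = i ∧ lab i (x a) = l ∧
        lab i (y a) = l').card = ∑ _b : Bool, if 6 = l ∧ 3 = l' then 1 else 0 := fun i => by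
      rw [filter_congr (q := fun a : Fin t × Bool => a.1 = i ∧ 6 = l ∧ 3 = l') fun a _ =>
        and_congr_right fun e => by rw [← e, lx, ly], card_filter, Fintype.sum_prod_type,
        sum_eq_single i]
      · simp
      · intro b _ hb
        simp [hb]
      · simp
    rw [key, key]
  · intro l i j
    have a1 := cntAB ht l i
    have a2 := cntAB ht l j
    simp only [card_filter, Fintype.sum_sum_type, lab]
    simp only [ind] at a1 a2
    omega

end Sp

theorem good_sp {t β : ℕ} (ht : 7 ≤ t) (hβ : 2 * β = t + 1) (ν : ℕ) :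
    Good t ![t + 1, t - 1 + β + ν * t, 1] := by
  have : NeZero t := ⟨by omega⟩
  have := (Sp.lf ht hβ).extend (fun l _ d => (l = 1 ∧ d.val ≠ 3) ∨ (l = 6 ∧ d.val = 0))
    ![0, ν, 0] (by
      intro P hP
      obtain rfl : P = 1 := by fin_cases P <;> simp_all
      rintro i (k | l | j | r) d hv
      · simp only [Sp.pt] at hv
        split_ifs at hv <;> exact absurd hv (by decide)
      · simp [Sp.lab, Sp.fB1 ht i.2 l.1.2, Sp.fB6 ht i.2 l.1.2]
      · exact absurd hv (by simp [Sp.pt])
      · simp [Sp.lab]) (by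
      intro P hP
      obtain rfl : P = 1 := by fin_cases P <;> simp_all
      rintro (k | l | j | r) d hv
      · have hk := k.2
        have hd := d.2
        simp only [Sp.lab, Sp.sb_eq, fun i : Fin t => Sp.fA1 ht i.2 k.2,
          fun i : Fin t => Sp.fA6 ht i.2 k.2, Sp.sb]
        by_cases h : k.val + 3 = d ∨ k.val + 3 = d + t
        · refine ⟨d, by simp [h], fun i hi => Fin.ext ?_⟩
          have := i.2
          beta_reduce at hi
          split_ifs at hi <;> omega
        · refine ⟨k, .inl ⟨rfl, by split_ifs <;> omega⟩, fun i hi => Fin.ext ?_⟩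
          have := i.2
          beta_reduce at hi
          split_ifs at hi <;> omega
      · exact absurd rfl hv
      · refine ⟨d, by simp [Sp.lab], fun i hi => Fin.ext ?_⟩
        have := i.2
        have := d.2
        simp only [Sp.lab, Sp.sb_eq, Sp.sb] at hi
        split_ifs at hi <;> omega
      · exact absurd rfl hv)
  convert this using 2 with P
  have e1 : (univ.filter fun k : Fin t => k.val = 0).card = 1 := by
    rw [card_eq_one]
    exact ⟨⟨0, by omega⟩, by
      ext k
      rw [mem_filter, mem_singleton, Fin.ext_iff]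
      exact ⟨fun h => h.2, fun h => ⟨mem_univ _, h⟩⟩⟩
  have e2 := card_filter_add_card_filter_not (s := univ) fun k : Fin t => k.val = 0
  have e3 : Fintype.card {k : Fin t // k.val ≠ 1} = t - 1 := by
    have : (univ.filter fun k : Fin t => k.val = 1).card = 1 := by
      rw [card_eq_one]
      exact ⟨⟨1, by omega⟩, by ext k; simp [Fin.ext_iff]⟩
    rw [Fintype.card_subtype_compl, Fintype.card_fin, Fintype.card_subtype, this]
  rw [card_univ, Fintype.card_fin] at e2
  rw [card_filter, Fintype.sum_sum_type, Fintype.sum_sum_type, Fintype.sum_sum_type]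
  have e4 : ∀ P : Fin 3, (∑ k : Fin t, if Sp.pt (β := β) (.inl k) = P then 1 else 0) =
      (if P = 2 then 1 else 0) + if P = 0 then t - 1 else 0 := fun P => by
    have e5 : (univ.filter fun k : Fin t => ¬ k.val = 0).card = t - 1 := by omega
    have e6 : ∀ k : Fin t, (if Sp.pt (β := β) (.inl k) = P then 1 else 0) =
        (if P = 2 then (if k.val = 0 then 1 else 0) else 0) +
          if P = 0 then (if ¬ k.val = 0 then 1 else 0) else 0 := fun k => by
      by_cases h : k.val = 0 <;> simp only [Sp.pt, h] <;> fin_cases P <;> simp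
    simp only [e6, sum_add_distrib]
    congr 1 <;> split_ifs
    · rw [← card_filter, e1]
    · simp
    · rw [← card_filter, e5]
    · simp
  rw [e4]
  fin_cases P <;> simp [Sp.pt, e3] <;> omega

end Pool.Agent.Lib.MP_351560_co
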