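import Mathlib
import Pool.Agent.Lib.MP_351560_co.L2Def

set_option autoImplicit false

namespace Pool.Agent.Lib.MP_351560_co

open Finset

/-- A complete bipartite graph splits into `t` matchings of equal size. -/
lemma zero_match {t b c N : ℕ} (hb : b < t) (hc : c < t) (h : b * c = N * t) :
    ∃ τ : Fin b × Fin c → Fin t, (∀ z z', τ z = τ z' → z.1 = z'.1 → z = z') ∧
      (∀ z z', τ z = τ z' → z.2 = z'.2 → z = z') ∧
      ∀ i, (univ.filter fun z => τ z = i).card = N := by
  let e : Fin b × Fin c ≃ Fin N × Fin t :=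
    finProdFinEquiv.trans ((finCongr h).trans finProdFinEquiv.symm)
  have he : ∀ z, ((e z).2 : ℕ) = (z.2 + c * z.1) % t := fun z => rfl
  have hQ : ∀ i, (univ.filter fun z => (e z).2 = i).card = N := by
    intro i
    rw [← card_map e.toEmbedding]
    have : (univ.filter fun z => (e z).2 = i).map e.toEmbedding = univ ×ˢ {i} := by
      ext z
      rw [mem_map_equiv, mem_product]
      simp
    rw [this]
    simp
  have hN : N ≤ c := by
    have : N * t ≤ c * t := by rw [← h, mul_comm]; exact Nat.mul_le_mul_left _ hb.le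
    exact Nat.le_of_mul_le_mul_right this (by omega)
  obtain ⟨θ, h1, h2⟩ := sched_items (J := Fin b × Fin c) Prod.fst (fun z => (e z).2) c
    (fun v => by
      have : (univ.filter fun z : Fin b × Fin c => z.1 = v) = {v} ×ˢ univ := by
        ext z
        rw [mem_product]
        simp
      rw [this]
      simp) (fun i => (hQ i).le.trans hN)
  refine ⟨fun z => (e (θ z)).2, ?_, ?_, fun i => ?_⟩
  · intro z z' hz h'
    apply θ.injective
    have e1 : (θ z).1 = (θ z').1 := by rw [h1, h1, h']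
    refine Prod.ext e1 (Fin.ext ?_)
    have e2 := congrArg Fin.val hz
    simp only [he, e1] at e2
    have e3 : ((θ z).2 : ℕ) ≡ (θ z').2 [MOD t] := Nat.ModEq.add_right_cancel' _ e2
    exact Nat.ModEq.eq_of_lt_of_lt e3 ((θ z).2.2.trans hc) ((θ z').2.2.trans hc)
  · rintro ⟨v, a⟩ ⟨v', a'⟩ hz h'
    obtain rfl : a = a' := h'
    rw [h2 a v v' hz]
  · refine Eq.trans ?_ (hQ i)
    rw [← card_map θ.toEmbedding]
    congr 1
    ext z
    simp [mem_map_equiv]

/-- ZERO -/
theorem good_zero {t b c : ℕ} (hb : b < t) (hc : c < t) (h : t ∣ b * c) (μ ν : ℕ) :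
    Good t ![μ * t, b + ν * t, c] := by
  obtain ⟨N, hN⟩ := h
  have : NeZero t := ⟨by omega⟩
  obtain ⟨τ, h1, h2, h3⟩ := zero_match hb hc (N := N) (by rw [hN, mul_comm])
  let p : Fin b ⊕ Fin c → Fin 3 := Sum.elim (fun _ => 1) (fun _ => 2)
  have hL : LF p t (fun _ v => p v) := by
    refine LF.of_match p t (fun _ v => p v) (fun _ _ => False) τ (fun z => .inl z.1)
      (fun z => .inr z.2) (fun z z' e e' => h1 z z' e (Sum.inl.inj e'))
      (fun z z' e e' => h2 z z' e (Sum.inr.inj e')) (fun _ _ _ => by simp)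
      (fun _ _ _ h => h.elim) (fun z => by simp [p]) ?_ ?_ (fun _ _ _ => rfl)
    · rintro (u | u) (v | v) huv
      · simp [p] at huv
      · refine ⟨τ (u, v), .inr (.inr ⟨(u, v), rfl, .inl ⟨rfl, rfl⟩⟩), ?_⟩
        rintro j (h | h | ⟨⟨u', v'⟩, rfl, ⟨e1, e2⟩ | ⟨e1, e2⟩⟩)
        · exact h.elim
        · exact h.elim
        · exact congrArg τ (Prod.ext (Sum.inl.inj e1) (Sum.inr.inj e2))
        · cases e1
      · simp [p] at huv
      · simp [p] at huv
    · intro l l' i j
      by_cases hl : (1 : Fin 3) = l ∧ (2 : Fin 3) = l'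
      · simp only [p, Sum.elim_inl, Sum.elim_inr, hl.1, hl.2, and_true, h3]
      · simp only [p, Sum.elim_inl, Sum.elim_inr, hl, and_false, filter_false]
  have := hL.extend (fun l P d => l ≠ P ∧ d = 0) ![μ, ν, 0] (fun P _ i v d hv hh => hh.1 hv)
    (fun P _ v j hv => ⟨j, ⟨hv, sub_self j⟩, fun i hi => (sub_eq_zero.1 hi.2).symm⟩)
  convert this using 1
  funext P
  rw [card_filter, Fintype.sum_sum_type]
  fin_cases P <;> simp [p]

end Pool.Agent.Lib.MP_351560_co
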