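import Mathlib
import Pool.Agent.Lib.MP_351560_co.CertX

set_option autoImplicit false

namespace Pool.Agent.Lib.MP_351560_co

lemma t3_888 (i j k : ℕ) : Good 3 ![8 + i * 3, 8 + j * 3, 8 + k * 3] :=
  good_of_certX 121
    0x201b1f1b1e1b20181f181e181d181c181b181b1718171b1618161b1518151b1418141e1318131e1218121e1118111e1018101e0f1b0f1e0e1b0e1e0d1b0d1e0c1b0c1b0b1a0b180b200a1e0a1b0a1d091b09180920081e0818081e071a0718071e061d061b061b051b04180318021e011e001513141217111510150f120e150d140c120c0f0b0e0b0d0b0c0b170a160a150a140a130a120a110a100a0b0a13091209110910090f090e090d090c0917081608150814080f080e080d080c080b081607150714070f070e070d070c070a0717061606150614061306120611061006070613041104080407040503040103010400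
    0x1f1e201c1b1d19181a111715120e0b0d0a070205031406160f0c040113081000091e201f1b1d1c181a1915131017090e0d08010700051102120b0a0306140f16040c201f1e1d1c1b1a1918141516170c0d0e0f040506071301100809000211120b0a03
    (by decide +kernel) i j k

lemma t3_225 (i j : ℕ) : Good 3 ![2 + i * 3, 2 + j * 3, 5] :=
  good_of_certX (c := 5) (z := 0) 25
    0xe090d090c090c080a0809080c0709060c0509050b040904090308030503060205020e010c01030102010d000c0007000200
    0xc0d0e090a0b0600080702030104050e0c0d0b090a0701030405020008060e0d0c0b0a09080706050403020100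
    (by decide +kernel) i j 0

/-- Three factors, all parts congruent to two modulo three and of size at least five. -/
theorem good3_class2 {a b c : ℕ} (ha : a % 3 = 2) (hb : b % 3 = 2) (hc : c % 3 = 2) (h1 : 5 ≤ a)
    (h2 : 5 ≤ b) (h3 : 5 ≤ c) : Good 3 ![a, b, c] := by
  have key : ∀ x y : ℕ, x % 3 = 2 → y % 3 = 2 → Good 3 ![x, y, 5] := fun x y hx hy => by
    have := t3_225 (x / 3) (y / 3)
    rwa [show 2 + x / 3 * 3 = x by omega, show 2 + y / 3 * 3 = y by omega] at this
  by_cases e3 : c = 5
  · exact e3 ▸ key a b ha hb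
  by_cases e2 : b = 5
  · convert (key a c ha hc).perm (Equiv.swap 1 2) using 2 with P
    fin_cases P <;> simp [e2, Equiv.swap_apply_def]
  by_cases e1 : a = 5
  · convert (key c b hc hb).perm (Equiv.swap 0 2) using 2 with P
    fin_cases P <;> simp [e1, Equiv.swap_apply_def]
  have := t3_888 (a / 3 - 2) (b / 3 - 2) (c / 3 - 2)
  rwa [show 8 + (a / 3 - 2) * 3 = a by omega, show 8 + (b / 3 - 2) * 3 = b by omega,
    show 8 + (c / 3 - 2) * 3 = c by omega] at this

end Pool.Agent.Lib.MP_351560_co
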